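import Pool.Agent.H43.FX.RatTool

/-!
# FX-AA : growth and regularity of the elements of the ring

All statements are by induction on `AA` (the bounds of products/sums are immediate; every
generator is checked directly).
* `aa_rep` : generators are in `Rvw (range a) (range b)` (`(t - z_i)/(v-a_i)^3 =
  (t-z_i) * ((v - a_i)⁻¹)^3`).
* `aa_zero` : there is an element `g` of `AA k` for every `k : ℤ`, of the form
  `1^r · (Z 0 0)^s` (`k = r - 3s`); multiply by `const 0` and use `congr`.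
* `aa_const_mul` : `const c` times.
* `aa_grow_w` : for `v ∈ K` (compact, disjoint from `range a`) `1/(v-a_i)^3` and `v` are bounded;
  `κ, vκ` are `O(‖ω‖^0) ≤ O(‖ω‖^1)`(take `ρ ≥ 1`); `κω`; `Y j k = ω^k(t-z'_j)/(ω-b_j)^3 = O(1)`
  since `k ≤ 3` and `‖ω - b_j‖ ≥ ‖ω‖/2` for large `ω`; `Z i j = O(‖ω‖^{-3})`.
* `aa_grow_v` : the same in `v` (pointwise in `ω`).
* `aa_reg_v` : `X i k` becomes `v^k β³X/β³ = v^k X`, bounded; all other generators are regular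
  at `v = a i` (`a` injective) or do not involve `v`; the same for `Z i j`.
  (`z i + β³X` stays bounded.)
* `aa_reg_w` : the same at `ω = b_j`, uniformly for `v ∈ K`.
* `aa_swap` : exchange the roles of `(a, z)` and `(b, z')`.
-/

namespace Pool.Agent.H43.FX

open Set Metric Filter Topology Asymptotics Bornology

variable {a b z z' : Fin 4 → ℂ} {k : ℤ} {φ : ℂ × ℂ × ℂ → ℂ}

/-! ### representation -/

theorem rvw_v : (fun p : ℂ × ℂ × ℂ => p.1) ∈ Rvw (range a) (range b) := ratx_fst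

theorem rvw_w : (fun p : ℂ × ℂ × ℂ => p.2.1) ∈ Rvw (range a) (range b) :=
  ratx_pull (𝒦 := Rw (range b)) (k := fun q : ℂ × ℂ => q.1) ratx_fst

theorem kt_t : (fun t : ℂ => t) ∈ Kt := Algebra.subset_adjoin rfl

theorem rvw_t : (fun p : ℂ × ℂ × ℂ => p.2.2) ∈ Rvw (range a) (range b) :=
  ratx_pull (𝒦 := Rw (range b)) (k := fun q : ℂ × ℂ => q.2)
    (ratx_pull (𝒦 := Kt) (k := fun t : ℂ => t) kt_t)

theorem rvw_c (c : ℂ) : (fun _ : ℂ × ℂ × ℂ => c) ∈ Rvw (range a) (range b) := ratx_const c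

theorem rvw_vi (i : Fin 4) : (fun p : ℂ × ℂ × ℂ => (p.1 - a i)⁻¹) ∈ Rvw (range a) (range b) :=
  ratx_inv (mem_range_self i)

theorem rvw_wi (j : Fin 4) : (fun p : ℂ × ℂ × ℂ => (p.2.1 - b j)⁻¹) ∈ Rvw (range a) (range b) :=
  ratx_pull (𝒦 := Rw (range b)) (k := fun q : ℂ × ℂ => (q.1 - b j)⁻¹)
    (ratx_inv (mem_range_self j))

theorem rvw_x (i : Fin 4) :
    (fun p : ℂ × ℂ × ℂ => (p.2.2 - z i) / (p.1 - a i) ^ 3) ∈ Rvw (range a) (range b) := by
  have h := mul_mem (sub_mem (rvw_t (a := a) (b := b)) (rvw_c (z i)))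
    (pow_mem (rvw_vi (a := a) (b := b) i) 3)
  refine (congrArg (· ∈ Rvw (range a) (range b)) ?_).mp h
  funext p
  simp [div_eq_mul_inv]

theorem rvw_y (j : Fin 4) :
    (fun p : ℂ × ℂ × ℂ => (p.2.2 - z' j) / (p.2.1 - b j) ^ 3) ∈ Rvw (range a) (range b) := by
  have h := mul_mem (sub_mem (rvw_t (a := a) (b := b)) (rvw_c (z' j)))
    (pow_mem (rvw_wi (a := a) (b := b) j) 3)
  refine (congrArg (· ∈ Rvw (range a) (range b)) ?_).mp h
  funext p
  simp [div_eq_mul_inv]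

theorem aa_rep (h : AA a b z z' k φ) :
    ∃ φ' ∈ Rvw (range a) (range b), EqOn φ φ' (D3 a b) := by
  induction h with
  | const c => exact ⟨_, rvw_c c, fun _ _ => rfl⟩
  | kap => exact ⟨_, rvw_c 1, fun _ _ => rfl⟩
  | kapv => exact ⟨_, rvw_v, fun _ _ => rfl⟩
  | kapw => exact ⟨_, rvw_w, fun _ _ => rfl⟩
  | kapvw => exact ⟨_, mul_mem rvw_v rvw_w, fun _ _ => rfl⟩
  | t => exact ⟨_, rvw_t, fun _ _ => rfl⟩
  | X i k => exact ⟨_, mul_mem (pow_mem rvw_v (k : ℕ)) (rvw_x i), fun _ _ => rfl⟩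
  | Y j k => exact ⟨_, mul_mem (pow_mem rvw_w (k : ℕ)) (rvw_y j), fun _ _ => rfl⟩
  | Z i j => exact ⟨_, mul_mem (rvw_x i) (rvw_y j), fun _ _ => rfl⟩
  | add _ _ h1 h2 =>
    obtain ⟨f, hf, hf'⟩ := h1
    obtain ⟨g, hg, hg'⟩ := h2
    exact ⟨_, add_mem hf hg, fun p hp => by simp [hf' hp, hg' hp]⟩
  | mul _ _ h1 h2 =>
    obtain ⟨f, hf, hf'⟩ := h1
    obtain ⟨g, hg, hg'⟩ := h2
    exact ⟨_, mul_mem hf hg, fun p hp => by simp [hf' hp, hg' hp]⟩
  | congr _ he h1 =>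
    obtain ⟨f, hf, hf'⟩ := h1
    exact ⟨f, hf, fun p hp => (he hp).symm.trans (hf' hp)⟩

/-! ### algebra -/

theorem aa_pow (h : AA a b z z' k φ) (n : ℕ) : AA a b z z' (n * k) (fun p => φ p ^ n) := by
  induction n with
  | zero => simpa using AA.const (a := a) (b := b) (z := z) (z' := z') 1
  | succ n ih =>
    have := AA.mul ih h
    have e : ((n + 1 : ℕ) : ℤ) * k = (n : ℤ) * k + k := by push_cast; ring
    rw [e]
    simpa [pow_succ] using this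

theorem aa_const_mul (h : AA a b z z' k φ) (c : ℂ) : AA a b z z' k (fun p => c * φ p) := by
  have := AA.mul (AA.const (a := a) (b := b) (z := z) (z' := z') c) h
  simpa using this

theorem aa_zero (k : ℤ) : AA a b z z' k (fun _ => 0) := by
  have h1 : ∀ r : ℕ, AA a b z z' (r : ℤ) (fun _ => 1) := fun r => by
    simpa using aa_pow (AA.kap (a := a) (b := b) (z := z) (z' := z')) r
  have h2 := aa_pow (AA.Z (a := a) (b := b) (z := z) (z' := z') 0 0) k.natAbs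
  have hk : 0 ≤ k + 3 * (k.natAbs : ℤ) := by
    have := neg_abs_le k
    have h3 : (k.natAbs : ℤ) = |k| := Int.natCast_natAbs k
    have := abs_nonneg k
    omega
  have h3 := aa_const_mul (AA.mul (h1 (k + 3 * (k.natAbs : ℤ)).toNat) h2) 0
  have e : ((k + 3 * (k.natAbs : ℤ)).toNat : ℤ) + (k.natAbs : ℤ) * (-3) = k := by
    rw [Int.toNat_of_nonneg hk]; ring
  rw [e] at h3
  simpa using h3

/-! ### growth -/

theorem aa_bigO {l : Filter (ℂ × ℂ × ℂ)} {g : ℂ × ℂ × ℂ → ℝ} (hg : ∀ᶠ p in l, 1 ≤ g p)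
    (hD : ∀ᶠ p in l, p ∈ D3 a b) (hv : (fun p : ℂ × ℂ × ℂ => p.1) =O[l] fun _ => (1 : ℝ))
    (hw : (fun p : ℂ × ℂ × ℂ => p.2.1) =O[l] g)
    (ht : (fun p : ℂ × ℂ × ℂ => p.2.2) =O[l] fun _ => (1 : ℝ))
    (hx : ∀ i, (fun p : ℂ × ℂ × ℂ => (p.2.2 - z i) / (p.1 - a i) ^ 3) =O[l] fun _ => (1 : ℝ))
    (hy : ∀ j, (fun p : ℂ × ℂ × ℂ => (p.2.2 - z' j) / (p.2.1 - b j) ^ 3) =O[l]
      fun p => g p ^ (-3 : ℤ)) (h : AA a b z z' k φ) : φ =O[l] fun p => g p ^ k := by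
  have h1g : (fun _ : ℂ × ℂ × ℂ => (1 : ℝ)) =O[l] g := by
    refine IsBigO.of_bound 1 ?_
    filter_upwards [hg] with p hp
    rw [norm_one, one_mul, Real.norm_eq_abs]
    exact hp.trans (le_abs_self _)
  have hg0 : ∀ᶠ p in l, g p ≠ 0 := by
    filter_upwards [hg] with p hp
    exact (lt_of_lt_of_le one_pos hp).ne'
  induction h with
  | const c => simpa using isBigO_const_const c (one_ne_zero (α := ℝ)) l
  | kap =>
    simp only [zpow_one]
    exact (isBigO_const_const (1 : ℂ) (one_ne_zero (α := ℝ)) l).trans h1g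
  | kapv =>
    simp only [zpow_one]
    exact hv.trans h1g
  | kapw =>
    simp only [zpow_one]
    exact hw
  | kapvw =>
    simp only [zpow_one]
    simpa using hv.mul hw
  | t => simpa using ht
  | X i k => simpa using (hv.pow (k : ℕ)).mul (hx i)
  | Y j k =>
    refine ((hw.pow (k : ℕ)).mul (hy j)).trans ?_
    refine IsBigO.of_bound 1 ?_
    filter_upwards [hg] with p hp
    have hp0 : 0 < g p := lt_of_lt_of_le one_pos hp
    have hk : ((k : ℕ) : ℤ) + (-3) ≤ 0 := by have := k.2; omega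
    rw [← zpow_natCast (g p), ← zpow_add₀ hp0.ne', zpow_zero, norm_one, mul_one,
      Real.norm_eq_abs, abs_of_nonneg (zpow_nonneg hp0.le _)]
    exact zpow_le_one_of_nonpos₀ hp hk
  | Z i j => simpa using (hx i).mul (hy j)
  | add _ _ h1 h2 => exact h1.add h2
  | mul _ _ h1 h2 =>
    refine (h1.mul h2).congr' (Eventually.of_forall fun _ => rfl) ?_
    filter_upwards [hg0] with p hp
    rw [zpow_add₀ hp]
  | congr _ he h1 =>
    refine h1.congr' ?_ (Eventually.of_forall fun _ => rfl)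
    filter_upwards [hD] with p hp
    exact he hp

theorem compact_inv_bdd {K : Set ℂ} (hK : IsCompact K) (hKa : K ⊆ (range a)ᶜ) (i : Fin 4) :
    ∃ M : ℝ, ∀ v ∈ K, ‖(v - a i)⁻¹‖ ≤ M := by
  refine hK.exists_bound_of_continuousOn (f := fun v => (v - a i)⁻¹) ?_
  refine ContinuousOn.inv₀ (by fun_prop) fun v hv => ?_
  intro h
  exact hKa hv ⟨i, (sub_eq_zero.mp h).symm⟩

theorem aa_grow_w (h : AA a b z z' k φ) {K : Set ℂ} (hK : IsCompact K) (hKa : K ⊆ (range a)ᶜ)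
    (t : ℂ) : ∃ M ρ : ℝ, 0 < ρ ∧ ∀ v ∈ K, ∀ ω : ℂ, ρ < ‖ω‖ → ‖φ (v, ω, t)‖ ≤ M * ‖ω‖ ^ k := by
  set l : Filter (ℂ × ℂ × ℂ) := 𝓟 K ×ˢ (cobounded ℂ ×ˢ pure t) with hl
  have hev : ∀ {P : ℂ × ℂ × ℂ → Prop}, (∀ᶠ p in l, P p) ↔
      ∃ ρ : ℝ, 0 < ρ ∧ ∀ v ∈ K, ∀ ω : ℂ, ρ < ‖ω‖ → P (v, ω, t) := by
    intro P
    constructor
    · intro hP
      rw [hl, eventually_prod_iff] at hP
      obtain ⟨pa, hpa, pb, hpb, hab⟩ := hP
      rw [eventually_prod_iff] at hpb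
      obtain ⟨pc, hpc, pd, hpd, hcd⟩ := hpb
      rw [eventually_pure] at hpd
      have hpc' : {ω | pc ω} ∈ cobounded ℂ := hpc
      rw [← isCobounded_def, ← isBounded_compl_iff] at hpc'
      obtain ⟨r, hr⟩ := hpc'.subset_closedBall 0
      refine ⟨max r 1, by positivity, fun v hv ω hω => ?_⟩
      refine hab (hpa hv) (hcd ?_ hpd)
      by_contra hc
      have : ω ∈ closedBall (0 : ℂ) r := hr hc
      rw [mem_closedBall, dist_zero_right] at this
      exact absurd (lt_of_le_of_lt (le_max_left _ _) hω) (not_lt.mpr this)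
    · rintro ⟨ρ, _, hP⟩
      rw [hl, eventually_prod_iff]
      refine ⟨fun v => v ∈ K, mem_principal_self K, fun q => ρ < ‖q.1‖ ∧ q.2 = t, ?_, ?_⟩
      · rw [eventually_prod_iff]
        refine ⟨fun ω => ρ < ‖ω‖, ?_, fun s => s = t, ?_, fun h1 _ h2 => ⟨h1, h2⟩⟩
        · have : {ω : ℂ | ρ < ‖ω‖} ∈ cobounded ℂ := by
            rw [← isCobounded_def, ← isBounded_compl_iff]
            refine (isBounded_closedBall (x := (0 : ℂ)) (r := ρ)).subset ?_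
            intro ω hω
            simpa using hω
          exact this
        · exact rfl
      · rintro v hv ⟨ω, s⟩ ⟨h1, h2⟩
        simp only at h1 h2
        subst h2
        exact hP v hv ω h1
  have hKb : ∃ R : ℝ, ∀ v ∈ K, ‖v‖ ≤ R := hK.exists_bound_of_continuousOn (f := fun v => v)
    continuousOn_id
  obtain ⟨R, hR⟩ := hKb
  obtain ⟨B, hB⟩ : ∃ B : ℝ, 0 < B ∧ ∀ j, ‖b j‖ ≤ B := by
    refine ⟨1 + ∑ j, ‖b j‖, by positivity, fun j => ?_⟩
    have := Finset.single_le_sum (f := fun j => ‖b j‖) (fun j _ => norm_nonneg _)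
      (Finset.mem_univ j)
    linarith
  have hwinv : ∀ j, (fun p : ℂ × ℂ × ℂ => (p.2.1 - b j)⁻¹) =O[l] fun p => (‖p.2.1‖)⁻¹ := by
    intro j
    refine IsBigO.of_bound 2 ?_
    refine hev.mpr ⟨2 * B, by linarith [hB.1], fun v _ ω hω => ?_⟩
    have h1 : ‖ω‖ / 2 ≤ ‖ω - b j‖ := by
      have := norm_sub_norm_le ω (b j)
      have := hB.2 j
      linarith
    have h2 : 0 < ‖ω‖ := by linarith [hB.1]
    rw [norm_inv, norm_inv, norm_norm]
    calc ‖ω - b j‖⁻¹ ≤ (‖ω‖ / 2)⁻¹ := inv_anti₀ (by positivity) h1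
      _ = 2 * ‖ω‖⁻¹ := by field_simp
  have key := aa_bigO (l := l) (g := fun p => ‖p.2.1‖) (k := k) (φ := φ) (a := a) (b := b)
    (z := z) (z' := z') ?_ ?_ ?_ ?_ ?_ ?_ ?_ h
  · obtain ⟨M, hM⟩ := key.bound
    obtain ⟨ρ, hρ, hP⟩ := hev.mp hM
    refine ⟨M, ρ, hρ, fun v hv ω hω => ?_⟩
    have := hP v hv ω hω
    simpa only [norm_zpow, norm_norm] using this
  · exact hev.mpr ⟨1, one_pos, fun v _ ω hω => hω.le⟩
  · refine hev.mpr ⟨B, hB.1, fun v hv ω hω => ⟨hKa hv, ?_⟩⟩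
    rintro ⟨j, hj⟩
    simp only at hj
    rw [← hj] at hω
    exact absurd hω (not_lt.mpr (hB.2 j))
  · refine IsBigO.of_bound R (hev.mpr ⟨1, one_pos, fun v hv ω _ => ?_⟩)
    simpa using hR v hv
  · exact IsBigO.of_bound 1 (Eventually.of_forall fun p => by simp)
  · refine IsBigO.of_bound ‖t‖ (hev.mpr ⟨1, one_pos, fun v hv ω _ => ?_⟩)
    simp
  · intro i
    obtain ⟨M, hM⟩ := compact_inv_bdd hK hKa i
    refine IsBigO.of_bound (‖t - z i‖ * M ^ 3) (hev.mpr ⟨1, one_pos, fun v hv ω _ => ?_⟩)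
    simp only [norm_one, mul_one]
    rw [div_eq_mul_inv, norm_mul, ← inv_pow, norm_pow]
    gcongr
    exact hM v hv
  · intro j
    have h1 : (fun p : ℂ × ℂ × ℂ => p.2.2 - z' j) =O[l] fun _ => (1 : ℝ) := by
      refine IsBigO.of_bound ‖t - z' j‖ (hev.mpr ⟨1, one_pos, fun v hv ω _ => ?_⟩)
      simp
    have h2 := h1.mul ((hwinv j).pow 3)
    refine h2.congr (fun p => ?_) (fun p => ?_)
    · rw [div_eq_mul_inv, inv_pow]
    · rw [one_mul, zpow_neg, inv_pow]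
      norm_cast

theorem aa_swap (h : AA a b z z' k φ) : AA b a z' z k (fun p => φ (swp p)) := by
  induction h with
  | const c => exact AA.const c
  | kap => exact AA.kap
  | kapv => exact AA.kapw
  | kapw => exact AA.kapv
  | kapvw =>
    have := AA.kapvw (a := b) (b := a) (z := z') (z' := z)
    simpa [swp, mul_comm] using this
  | t => exact AA.t
  | X i k => exact AA.Y i k
  | Y j k => exact AA.X j k
  | Z i j =>
    have := AA.Z (a := b) (b := a) (z := z') (z' := z) j i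
    simpa [swp, mul_comm] using this
  | add _ _ h1 h2 => exact AA.add h1 h2
  | mul _ _ h1 h2 => exact AA.mul h1 h2
  | congr _ he h1 => exact AA.congr h1 fun p hp => he ⟨hp.2, hp.1⟩

theorem aa_grow_v (h : AA a b z z' k φ) {ω : ℂ} (hω : ω ∉ range b) (t : ℂ) :
    ∃ M ρ : ℝ, 0 < ρ ∧ ∀ v : ℂ, ρ < ‖v‖ → ‖φ (v, ω, t)‖ ≤ M * ‖v‖ ^ k := by
  obtain ⟨M, ρ, hρ, hM⟩ := aa_grow_w (aa_swap h) (K := {ω}) isCompact_singleton
    (by simpa using hω) t
  exact ⟨M, ρ, hρ, fun v hv => hM ω rfl v hv⟩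

theorem aa_reg_w (hb : Function.Injective b) (h : AA a b z z' k φ) (j : Fin 4) {K : Set ℂ}
    (hK : IsCompact K) (hKa : K ⊆ (range a)ᶜ) :
    ∃ M δ : ℝ, 0 < δ ∧ ∀ v ∈ K, ∀ β : ℂ, 0 < ‖β‖ → ‖β‖ < δ → ∀ X : ℂ, ‖X‖ ≤ 1 →
      ‖φ (v, b j + β, z' j + β ^ 3 * X)‖ ≤ M := by
  set m : ℂ × ℂ × ℂ → ℂ × ℂ × ℂ := fun q => (q.1, b j + q.2.1, z' j + q.2.1 ^ 3 * q.2.2) with hm
  set l : Filter (ℂ × ℂ × ℂ) := map m (𝓟 K ×ˢ (𝓝[≠] 0 ×ˢ 𝓟 (closedBall 0 1))) with hl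
  have hev : ∀ {P : ℂ × ℂ × ℂ → Prop}, (∀ᶠ p in l, P p) ↔
      ∃ δ : ℝ, 0 < δ ∧ ∀ v ∈ K, ∀ β : ℂ, 0 < ‖β‖ → ‖β‖ < δ → ∀ X : ℂ, ‖X‖ ≤ 1 →
        P (v, b j + β, z' j + β ^ 3 * X) := by
    intro P
    constructor
    · intro hP
      rw [hl, eventually_map, eventually_prod_iff] at hP
      obtain ⟨pa, hpa, pb, hpb, hab⟩ := hP
      rw [eventually_prod_iff] at hpb
      obtain ⟨pc, hpc, pd, hpd, hcd⟩ := hpb
      rw [eventually_nhdsWithin_iff, Metric.eventually_nhds_iff] at hpc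
      obtain ⟨δ, hδ, hc⟩ := hpc
      refine ⟨δ, hδ, fun v hv β hβ hβδ X hX => ?_⟩
      have := hab (hpa hv) (y := (β, X)) (hcd (hc (by simpa using hβδ) (by simpa using hβ))
        (hpd (by simpa using hX)))
      exact this
    · rintro ⟨δ, hδ, hP⟩
      rw [hl, eventually_map, eventually_prod_iff]
      refine ⟨fun v => v ∈ K, mem_principal_self K, fun q => (0 < ‖q.1‖ ∧ ‖q.1‖ < δ) ∧
        ‖q.2‖ ≤ 1, ?_, ?_⟩
      · rw [eventually_prod_iff]
        refine ⟨fun β => 0 < ‖β‖ ∧ ‖β‖ < δ, ?_, fun s => ‖s‖ ≤ 1, ?_, fun h1 _ h2 => ⟨h1, h2⟩⟩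
        · rw [eventually_nhdsWithin_iff, Metric.eventually_nhds_iff]
          refine ⟨δ, hδ, fun β h1 h2 => ⟨by simpa using h2, by simpa using h1⟩⟩
        · rw [eventually_principal]
          intro s hs
          simpa using hs
      · rintro v hv ⟨β, X⟩ ⟨⟨h1, h2⟩, h3⟩
        exact hP v hv β h1 h2 X h3
  obtain ⟨R, hR⟩ : ∃ R : ℝ, ∀ v ∈ K, ‖v‖ ≤ R :=
    hK.exists_bound_of_continuousOn (f := fun v => v) continuousOn_id
  -- lower bound for the distances `b j - b j'`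
  obtain ⟨η, hη, hηb⟩ : ∃ η : ℝ, 0 < η ∧ ∀ j', j' ≠ j → 2 * η ≤ ‖b j - b j'‖ := by
    have hfin : (Finset.univ.filter fun j' : Fin 4 => j' ≠ j).Nonempty := by
      refine ⟨j + 1, ?_⟩
      simp
    obtain ⟨j₀, hj₀, hmin⟩ := Finset.exists_min_image _ (fun j' => ‖b j - b j'‖) hfin
    refine ⟨‖b j - b j₀‖ / 2, ?_, fun j' hj' => ?_⟩
    · have : b j ≠ b j₀ := fun e => (Finset.mem_filter.mp hj₀).2 (hb e).symm
      have := norm_pos_iff.mpr (sub_ne_zero.mpr this)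
      positivity
    · have := hmin j' (Finset.mem_filter.mpr ⟨Finset.mem_univ _, hj'⟩)
      linarith
  have hsub : ∀ j', j' ≠ j → ∀ β : ℂ, ‖β‖ < η → η ≤ ‖b j + β - b j'‖ := by
    intro j' hj' β hβ
    have h1 := hηb j' hj'
    have h2 : ‖b j - b j'‖ ≤ ‖b j + β - b j'‖ + ‖β‖ := by
      have := norm_sub_le (b j + β - b j') β
      have e : b j + β - b j' - β = b j - b j' := by ring
      rw [e] at this
      exact this
    linarith
  have ht : (fun p : ℂ × ℂ × ℂ => p.2.2) =O[l] fun _ => (1 : ℝ) := by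
    refine IsBigO.of_bound (‖z' j‖ + 1) (hev.mpr ⟨1, one_pos, fun v hv β _ hβ X hX => ?_⟩)
    simp only [norm_one, mul_one]
    refine (norm_add_le _ _).trans ?_
    gcongr
    rw [norm_mul, norm_pow]
    have : ‖β‖ ^ 3 ≤ 1 := pow_le_one₀ (norm_nonneg _) hβ.le
    calc ‖β‖ ^ 3 * ‖X‖ ≤ 1 * 1 := by gcongr
      _ = 1 := one_mul 1
  have ht' : ∀ c : ℂ, (fun p : ℂ × ℂ × ℂ => p.2.2 - c) =O[l] fun _ => (1 : ℝ) := fun c =>
    ht.sub (isBigO_const_const c one_ne_zero l)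
  have key := aa_bigO (l := l) (g := fun p => 1) (k := k) (φ := φ) (a := a) (b := b)
    (z := z) (z' := z') ?_ ?_ ?_ ?_ ?_ ?_ ?_ h
  · obtain ⟨M, hM⟩ := key.bound
    obtain ⟨ρ, hρ, hP⟩ := hev.mp hM
    refine ⟨M, ρ, hρ, fun v hv β hβ hβ' X hX => ?_⟩
    have := hP v hv β hβ hβ' X hX
    simpa using this
  · exact Eventually.of_forall fun _ => le_rfl
  · refine hev.mpr ⟨η, hη, fun v hv β hβ hβ' X hX => ⟨hKa hv, ?_⟩⟩
    rintro ⟨j', hj'⟩
    simp only at hj'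
    by_cases hjj : j' = j
    · subst hjj
      have : β = 0 := by
        have := hj'.symm
        simpa using this
      rw [this] at hβ
      simp at hβ
    · have := hsub j' hjj β hβ'
      rw [hj', sub_self, norm_zero] at this
      linarith
  · refine IsBigO.of_bound R (hev.mpr ⟨1, one_pos, fun v hv ω _ _ _ _ => ?_⟩)
    simpa using hR v hv
  · refine IsBigO.of_bound (‖b j‖ + 1) (hev.mpr ⟨1, one_pos, fun v hv β _ hβ _ _ => ?_⟩)
    simp only [norm_one, mul_one]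
    refine (norm_add_le _ _).trans ?_
    gcongr
  · exact ht
  · intro i
    obtain ⟨M, hM⟩ := compact_inv_bdd hK hKa i
    have h2 : (fun p : ℂ × ℂ × ℂ => (p.1 - a i)⁻¹) =O[l] fun _ => (1 : ℝ) := by
      refine IsBigO.of_bound M (hev.mpr ⟨1, one_pos, fun v hv _ _ _ _ _ => ?_⟩)
      simpa using hM v hv
    have h3 := (ht' (z i)).mul (h2.pow 3)
    refine h3.congr (fun p => ?_) (fun p => ?_)
    · rw [div_eq_mul_inv, inv_pow]
    · simp
  · intro j'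
    simp only [one_zpow]
    by_cases hjj : j' = j
    · subst hjj
      refine IsBigO.of_bound 1 (hev.mpr ⟨1, one_pos, fun v hv β hβ _ X hX => ?_⟩)
      have hβ0 : β ≠ 0 := norm_pos_iff.mp hβ
      simp only [add_sub_cancel_left, norm_one, mul_one]
      rw [mul_div_assoc, mul_comm, div_mul_cancel₀]
      · exact hX
      · exact pow_ne_zero 3 hβ0
    · have h2 : (fun p : ℂ × ℂ × ℂ => (p.2.1 - b j')⁻¹) =O[l] fun _ => (1 : ℝ) := by
        refine IsBigO.of_bound η⁻¹ (hev.mpr ⟨η, hη, fun v hv β _ hβ _ _ => ?_⟩)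
        simp only [norm_one, mul_one, norm_inv]
        exact inv_anti₀ hη (hsub j' hjj β hβ)
      have h3 := (ht' (z' j')).mul (h2.pow 3)
      refine h3.congr (fun p => ?_) (fun p => ?_)
      · rw [div_eq_mul_inv, inv_pow]
      · simp

theorem aa_reg_v (ha : Function.Injective a) (h : AA a b z z' k φ) (i : Fin 4) {ω : ℂ}
    (hω : ω ∉ range b) : ∃ M δ : ℝ, 0 < δ ∧ ∀ β : ℂ, 0 < ‖β‖ → ‖β‖ < δ → ∀ X : ℂ, ‖X‖ ≤ 1 →
      ‖φ (a i + β, ω, z i + β ^ 3 * X)‖ ≤ M := by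
  obtain ⟨M, δ, hδ, hM⟩ := aa_reg_w ha (aa_swap h) i (K := {ω}) isCompact_singleton
    (by simpa using hω)
  exact ⟨M, δ, hδ, fun β h1 h2 X hX => hM ω rfl β h1 h2 X hX⟩

end Pool.Agent.H43.FX
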