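import Pool.Agent.H43.FX.Chain

/-!
# FX-PRES : derivations preserving the filtration by the order in `κ`

`pres_of_nonneg` : let `f` with `Fil k f`.  By `grade` `res f = lau M φ` on `D4`.  For `p ∈ D3`,
`φ_j(p) = 0` for `j < k` (a Laurent polynomial in `κ` bounded by `M'|κ|^k` as `κ → 0` has no
terms of degree `< k`: if `j₀` is the smallest index with `φ_{j₀}(p) ≠ 0` and `j₀ < k` then
`κ^{-j₀}·(...) → φ_{j₀}(p) ≠ 0` but it is `O(|κ|^{k-j₀})`).  So `φ_j = 0` on `D3` for `j < k`.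
On `D4` (an open set, where `res f = ∑_{j ≥ k} κ^j φ_j`), by `hc`,
`res (V f) = ∑_{j≥k} κ^j (V₁∂_vφ_j + W₁∂_ωφ_j + C₁∂_tφ_j + j D₁φ_j)` with
`V₁ = lau N cV (κ,p) = ∑_{0 ≤ m ≤ N} κ^m cV m p` by `h0`, bounded for `‖κ‖ ≤ 1` (fixed `p`), etc.
So `‖res (V f)(κ,p)‖ ≤ M''‖κ‖^k` for `0 < ‖κ‖ ≤ 1`.
`pres_lie` : `LieSubalgebra.lieSpan_induction` or: the derivations with `Pres` form a Lie
subalgebra (`Fil k` is stable under sums and scalars; `⁅V, W⁆ f = V (W f) - W (V f)`), so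
`LieSubalgebra.lieSpan_le`.
-/

namespace Pool.Agent.H43.FX

open Set Metric Filter Topology

variable {a b z z' : Fin 4 → ℂ}

/-- `f = O(κ^k)` as `κ → 0`, for every fixed `(v, ω, t)`. -/
def Fil (k : ℤ) (f : U5 a b → ℂ) : Prop :=
  ∀ p ∈ D3 a b, ∃ M : ℝ, ∀ κ : ℂ, κ ≠ 0 → ‖κ‖ ≤ 1 → ‖res a b f (κ, p)‖ ≤ M * ‖κ‖ ^ k

/-- `V` preserves the filtration. -/
def Pres (V : Derivation ℂ (Aring a b z z') (Aring a b z z')) : Prop :=
  ∀ (k : ℤ) (f : Aring a b z z'), Fil k (f : U5 a b → ℂ) → Fil k (V f : U5 a b → ℂ)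

/-- A Laurent polynomial which is `O(κ^k)` has no terms of degree less than `k`. -/
theorem pres_low {M : ℕ} {c : ℤ → ℂ} {k : ℤ} {B : ℝ}
    (h : ∀ κ : ℂ, κ ≠ 0 → ‖κ‖ ≤ 1 →
      ‖∑ j ∈ Finset.Icc (-(M : ℤ)) (M : ℤ), κ ^ j * c j‖ ≤ B * ‖κ‖ ^ k) :
    ∀ j ∈ Finset.Icc (-(M : ℤ)) (M : ℤ), j < k → c j = 0 := by
  classical
  by_contra hne
  push Not at hne
  obtain ⟨j1, hj1, hj1k, hcj1⟩ := hne
  set S := (Finset.Icc (-(M : ℤ)) (M : ℤ)).filter (fun j => j < k ∧ c j ≠ 0) with hS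
  have hSne : S.Nonempty := ⟨j1, Finset.mem_filter.mpr ⟨hj1, hj1k, hcj1⟩⟩
  obtain ⟨j0, hj0, hmin⟩ := S.exists_min_image id hSne
  obtain ⟨hj0m, hj0k, hj0c⟩ := Finset.mem_filter.mp hj0
  set C := ∑ j ∈ Finset.Icc (-(M : ℤ)) (M : ℤ), ‖c j‖ with hC
  have hC0 : 0 ≤ C := Finset.sum_nonneg fun _ _ => norm_nonneg _
  have key : ∀ ε : ℝ, 0 < ε → ε ≤ 1 → ‖c j0‖ ≤ ε * (|B| + C) := by
    intro ε hε hε1
    have hnε : ‖(ε : ℂ)‖ = ε := by rw [Complex.norm_real, Real.norm_of_nonneg hε.le]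
    have h1 := h (ε : ℂ) (by exact_mod_cast hε.ne') (by rw [hnε]; exact hε1)
    rw [hnε, ← Finset.add_sum_erase _ _ hj0m] at h1
    have hterm : ∀ j ∈ (Finset.Icc (-(M : ℤ)) (M : ℤ)).erase j0,
        ‖(ε : ℂ) ^ j * c j‖ ≤ ε ^ (j0 + 1) * ‖c j‖ := by
      intro j hj
      by_cases hcj : c j = 0
      · simp [hcj]
      · have hjj : j0 + 1 ≤ j := by
          by_contra hlt
          have hjne := Finset.ne_of_mem_erase hj
          have hjlt : j < j0 := by omega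
          have hjS : j ∈ S :=
            Finset.mem_filter.mpr ⟨Finset.mem_of_mem_erase hj, by omega, hcj⟩
          have := hmin j hjS
          simp only [id] at this
          omega
        rw [norm_mul, norm_zpow, hnε]
        exact mul_le_mul_of_nonneg_right (zpow_le_zpow_right_of_le_one₀ hε hε1 hjj)
          (norm_nonneg _)
    have h2 : ‖∑ j ∈ (Finset.Icc (-(M : ℤ)) (M : ℤ)).erase j0, (ε : ℂ) ^ j * c j‖ ≤
        ε ^ (j0 + 1) * C := by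
      refine (norm_sum_le _ _).trans ((Finset.sum_le_sum hterm).trans ?_)
      rw [← Finset.mul_sum]
      refine mul_le_mul_of_nonneg_left ?_ (zpow_nonneg hε.le _)
      exact Finset.sum_le_sum_of_subset_of_nonneg (Finset.erase_subset _ _)
        fun _ _ _ => norm_nonneg _
    have h3 : B * ε ^ k ≤ |B| * ε ^ (j0 + 1) := by
      refine (mul_le_mul_of_nonneg_right (le_abs_self B) (zpow_nonneg hε.le _)).trans ?_
      exact mul_le_mul_of_nonneg_left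
        (zpow_le_zpow_right_of_le_one₀ hε hε1 (by omega)) (abs_nonneg _)
    have h4 : ‖(ε : ℂ) ^ j0 * c j0‖ ≤ |B| * ε ^ (j0 + 1) + ε ^ (j0 + 1) * C := by
      have h5 := norm_sub_norm_le ((ε : ℂ) ^ j0 * c j0)
        (-∑ j ∈ (Finset.Icc (-(M : ℤ)) (M : ℤ)).erase j0, (ε : ℂ) ^ j * c j)
      rw [norm_neg, sub_neg_eq_add] at h5
      linarith
    rw [norm_mul, norm_zpow, hnε, zpow_add_one₀ hε.ne'] at h4
    have h6 : 0 < ε ^ j0 := zpow_pos hε _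
    have h7 : ε ^ j0 * ‖c j0‖ ≤ ε ^ j0 * (ε * (|B| + C)) := by
      refine h4.trans (le_of_eq ?_)
      ring
    exact le_of_mul_le_mul_left h7 h6
  have hpos : 0 < ‖c j0‖ := norm_pos_iff.mpr hj0c
  have hK : 0 ≤ |B| + C := add_nonneg (abs_nonneg _) hC0
  have h8 := key (‖c j0‖ / (‖c j0‖ + (|B| + C))) (by positivity)
    (by rw [div_le_one (by positivity)]; linarith)
  rw [div_mul_eq_mul_div, le_div_iff₀ (by positivity)] at h8
  nlinarith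

/-- The norm of a Laurent sum without negative terms. -/
theorem pres_lau {N : ℕ} {c : ℤ → ℂ × ℂ × ℂ → ℂ} {p : ℂ × ℂ × ℂ}
    (hc : ∀ m ∈ Finset.Icc (-(N : ℤ)) (N : ℤ), m < 0 → c m p = 0) {κ : ℂ} (h0 : κ ≠ 0)
    (h1 : ‖κ‖ ≤ 1) :
    ‖lau N c (κ, p)‖ ≤ ∑ m ∈ Finset.Icc (-(N : ℤ)) (N : ℤ), ‖c m p‖ := by
  unfold lau
  refine (norm_sum_le _ _).trans (Finset.sum_le_sum fun m hm => ?_)
  by_cases hm0 : m < 0
  · simp [hc m hm hm0]
  · rw [norm_mul, norm_zpow]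
    refine mul_le_of_le_one_left (norm_nonneg _) ?_
    exact zpow_le_one₀ (norm_pos_iff.mpr h0) h1 (not_lt.mp hm0)

theorem pres_diff {φ : ℂ × ℂ × ℂ → ℂ} {j : ℤ} (h : AA a b z z' j φ) {p : ℂ × ℂ × ℂ}
    (hp : p ∈ D3 a b) : DifferentiableAt ℂ φ p := by
  obtain ⟨ψ, hψ, he⟩ := aa_rep h
  have h1 : DifferentiableAt ℂ ψ p := (rvw_analytic hψ hp.1 hp.2).differentiableAt
  refine h1.congr_of_eventuallyEq ?_
  filter_upwards [(isOpen_D3 a b).mem_nhds hp] with y hy using he hy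

theorem pres_term {φ : ℂ × ℂ × ℂ → ℂ} {p : ℂ × ℂ × ℂ} (h : DifferentiableAt ℂ φ p) (j : ℤ)
    {κ : ℂ} (hκ : κ ≠ 0) :
    HasFDerivAt (fun x : ℂ × ℂ × ℂ × ℂ => x.1 ^ j * φ x.2)
      (κ ^ j • (fderiv ℂ φ p).comp (ContinuousLinearMap.snd ℂ ℂ (ℂ × ℂ × ℂ)) +
        φ p • (((j : ℂ) * κ ^ (j - 1)) • ContinuousLinearMap.fst ℂ ℂ (ℂ × ℂ × ℂ))) (κ, p) := by
  have h1 : HasFDerivAt (fun x : ℂ × ℂ × ℂ × ℂ => x.1 ^ j)
      (((j : ℂ) * κ ^ (j - 1)) • ContinuousLinearMap.fst ℂ ℂ (ℂ × ℂ × ℂ)) (κ, p) :=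
    HasDerivAt.comp_hasFDerivAt (h₂ := fun κ : ℂ => κ ^ j) (κ, p)
      (hasDerivAt_zpow j κ (Or.inl hκ))
      (hasFDerivAt_fst (𝕜 := ℂ) (E := ℂ) (F := ℂ × ℂ × ℂ) (p := (κ, p)))
  have h2 : HasFDerivAt (fun x : ℂ × ℂ × ℂ × ℂ => φ x.2)
      ((fderiv ℂ φ p).comp (ContinuousLinearMap.snd ℂ ℂ (ℂ × ℂ × ℂ))) (κ, p) :=
    h.hasFDerivAt.comp (κ, p)
      (hasFDerivAt_snd (𝕜 := ℂ) (E := ℂ) (F := ℂ × ℂ × ℂ) (p := (κ, p)))
  exact h1.mul h2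

theorem pres_of_nonneg {V : Derivation ℂ (Aring a b z z') (Aring a b z z')} {N : ℕ}
    {cV cW cC cD : ℤ → ℂ × ℂ × ℂ → ℂ}
    (hc : ∀ (f : Aring a b z z'), ∀ x ∈ D4 a b,
      res a b (V f : U5 a b → ℂ) x = fderiv ℂ (res a b (f : U5 a b → ℂ)) x
        (x.1 * lau N cD x, lau N cV x, lau N cW x, lau N cC x))
    (h0 : ∀ k ∈ Finset.Icc (-(N : ℤ)) (N : ℤ), k < 0 → ∀ p ∈ D3 a b,
      cV k p = 0 ∧ cW k p = 0 ∧ cC k p = 0 ∧ cD k p = 0) : Pres V := by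
  intro k f hf p hp
  obtain ⟨M, φ, hφ, hres⟩ := grade f
  have hlow : ∀ q ∈ D3 a b, ∀ j ∈ Finset.Icc (-(M : ℤ)) (M : ℤ), j < k → φ j q = 0 := by
    intro q hq
    obtain ⟨B, hB⟩ := hf q hq
    refine pres_low (B := B) (fun κ h1 h2 => ?_)
    have h3 := hB κ h1 h2
    rw [hres (κ, q) ⟨h1, hq⟩] at h3
    exact h3
  set S := (Finset.Icc (-(M : ℤ)) (M : ℤ)).filter (fun j => k ≤ j) with hS
  have hg : ∀ x ∈ D4 a b, res a b (f : U5 a b → ℂ) x = ∑ j ∈ S, x.1 ^ j * φ j x.2 := by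
    intro x hx
    rw [hres x hx, lau, hS, Finset.sum_filter]
    refine Finset.sum_congr rfl fun j hj => ?_
    split_ifs with h
    · rfl
    · rw [hlow x.2 hx.2 j hj (not_le.mp h), mul_zero]
  have hder : ∀ κ : ℂ, κ ≠ 0 → ∀ w : ℂ × ℂ × ℂ × ℂ,
      fderiv ℂ (res a b (f : U5 a b → ℂ)) (κ, p) w =
        ∑ j ∈ S, (κ ^ j * fderiv ℂ (φ j) p w.2 + φ j p * ((j : ℂ) * κ ^ (j - 1) * w.1)) := by
    intro κ hκ w
    have h1 : res a b (f : U5 a b → ℂ) =ᶠ[𝓝 (κ, p)]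
        fun x : ℂ × ℂ × ℂ × ℂ => ∑ j ∈ S, x.1 ^ j * φ j x.2 := by
      filter_upwards [(isOpen_D4 a b).mem_nhds (show (κ, p) ∈ D4 a b from ⟨hκ, hp⟩)]
        with x hx using hg x hx
    rw [h1.fderiv_eq]
    have h2 := HasFDerivAt.fun_sum (u := S)
      (fun j _ => pres_term (pres_diff (hφ j) hp) j hκ)
    rw [h2.fderiv, sum_apply]
    refine Finset.sum_congr rfl fun j _ => ?_
    simp only [add_apply, smul_apply,
      ContinuousLinearMap.comp_apply, ContinuousLinearMap.coe_snd', ContinuousLinearMap.coe_fst',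
      smul_eq_mul]
  set BV := ∑ m ∈ Finset.Icc (-(N : ℤ)) (N : ℤ), ‖cV m p‖ with hBV
  set BW := ∑ m ∈ Finset.Icc (-(N : ℤ)) (N : ℤ), ‖cW m p‖ with hBW
  set BC := ∑ m ∈ Finset.Icc (-(N : ℤ)) (N : ℤ), ‖cC m p‖ with hBC
  set BD := ∑ m ∈ Finset.Icc (-(N : ℤ)) (N : ℤ), ‖cD m p‖ with hBD
  have hBV0 : 0 ≤ BV := Finset.sum_nonneg fun _ _ => norm_nonneg _
  have hBW0 : 0 ≤ BW := Finset.sum_nonneg fun _ _ => norm_nonneg _
  have hBC0 : 0 ≤ BC := Finset.sum_nonneg fun _ _ => norm_nonneg _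
  have hBD0 : 0 ≤ BD := Finset.sum_nonneg fun _ _ => norm_nonneg _
  refine ⟨∑ j ∈ S, (‖fderiv ℂ (φ j) p‖ * (BV + BW + BC) + ‖φ j p‖ * (‖(j : ℂ)‖ * BD)),
    fun κ hκ hκ1 => ?_⟩
  have hV := pres_lau (fun m hm hm0 => (h0 m hm hm0 p hp).1) hκ hκ1
  have hW := pres_lau (fun m hm hm0 => (h0 m hm hm0 p hp).2.1) hκ hκ1
  have hC := pres_lau (fun m hm hm0 => (h0 m hm hm0 p hp).2.2.1) hκ hκ1
  have hD := pres_lau (fun m hm hm0 => (h0 m hm hm0 p hp).2.2.2) hκ hκ1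
  rw [← hBV] at hV
  rw [← hBW] at hW
  rw [← hBC] at hC
  rw [← hBD] at hD
  rw [hc f (κ, p) ⟨hκ, hp⟩, hder κ hκ, Finset.sum_mul]
  refine (norm_sum_le _ _).trans (Finset.sum_le_sum fun j hj => ?_)
  have hkj : k ≤ j := (Finset.mem_filter.mp hj).2
  have hκpos : 0 < ‖κ‖ := norm_pos_iff.mpr hκ
  have hpow : ‖κ‖ ^ j ≤ ‖κ‖ ^ k := zpow_le_zpow_right_of_le_one₀ hκpos hκ1 hkj
  have hpk : 0 ≤ ‖κ‖ ^ k := zpow_nonneg hκpos.le _
  have hpj : 0 ≤ ‖κ‖ ^ j := zpow_nonneg hκpos.le _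
  have e1 : κ ^ (j - 1) * κ = κ ^ j := by
    rw [zpow_sub_one₀ hκ]
    field_simp
  have hn1 : ‖fderiv ℂ (φ j) p (lau N cV (κ, p), lau N cW (κ, p), lau N cC (κ, p))‖ ≤
      ‖fderiv ℂ (φ j) p‖ * (BV + BW + BC) := by
    refine (ContinuousLinearMap.le_opNorm _ _).trans
      (mul_le_mul_of_nonneg_left ?_ (norm_nonneg _))
    rw [Prod.norm_def, Prod.norm_def]
    refine max_le (by linarith) (max_le (by linarith) (by linarith))
  have hn2 : ‖(j : ℂ) * κ ^ (j - 1) * (κ * lau N cD (κ, p))‖ ≤ ‖κ‖ ^ j * (‖(j : ℂ)‖ * BD) := by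
    have e2 : (j : ℂ) * κ ^ (j - 1) * (κ * lau N cD (κ, p)) =
        (j : ℂ) * κ ^ j * lau N cD (κ, p) := by
      rw [← e1]
      ring
    rw [e2, norm_mul, norm_mul, norm_zpow]
    have h5 := mul_le_mul_of_nonneg_left hD
      (mul_nonneg (norm_nonneg (j : ℂ)) hpj)
    refine h5.trans (le_of_eq ?_)
    ring
  refine (norm_add_le _ _).trans ?_
  rw [norm_mul, norm_mul, norm_zpow, add_mul]
  refine add_le_add ?_ ?_
  · calc ‖κ‖ ^ j * ‖fderiv ℂ (φ j) p (lau N cV (κ, p), lau N cW (κ, p), lau N cC (κ, p))‖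
        ≤ ‖κ‖ ^ k * (‖fderiv ℂ (φ j) p‖ * (BV + BW + BC)) :=
          mul_le_mul hpow hn1 (norm_nonneg _) hpk
      _ = ‖fderiv ℂ (φ j) p‖ * (BV + BW + BC) * ‖κ‖ ^ k := by ring
  · calc ‖φ j p‖ * ‖(j : ℂ) * κ ^ (j - 1) * (κ * lau N cD (κ, p))‖
        ≤ ‖φ j p‖ * (‖κ‖ ^ k * (‖(j : ℂ)‖ * BD)) := by
          refine mul_le_mul_of_nonneg_left (hn2.trans ?_) (norm_nonneg _)
          exact mul_le_mul_of_nonneg_right hpow (mul_nonneg (norm_nonneg _) hBD0)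
      _ = ‖φ j p‖ * (‖(j : ℂ)‖ * BD) * ‖κ‖ ^ k := by ring

theorem pres_res_add (f g : U5 a b → ℂ) {x : ℂ × ℂ × ℂ × ℂ} (hx : x ∈ D4 a b) :
    res a b (f + g) x = res a b f x + res a b g x := by
  simp only [res_eq _ hx, Pi.add_apply]

theorem pres_res_sub (f g : U5 a b → ℂ) {x : ℂ × ℂ × ℂ × ℂ} (hx : x ∈ D4 a b) :
    res a b (f - g) x = res a b f x - res a b g x := by
  simp only [res_eq _ hx, Pi.sub_apply]

theorem pres_res_smul (c : ℂ) (f : U5 a b → ℂ) {x : ℂ × ℂ × ℂ × ℂ} (hx : x ∈ D4 a b) :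
    res a b (c • f) x = c * res a b f x := by
  simp only [res_eq _ hx, Pi.smul_apply, smul_eq_mul]

theorem pres_fil_add {k : ℤ} {f g : U5 a b → ℂ} (hf : Fil k f) (hg : Fil k g) :
    Fil k (f + g) := by
  intro p hp
  obtain ⟨M, hM⟩ := hf p hp
  obtain ⟨M', hM'⟩ := hg p hp
  refine ⟨M + M', fun κ h0 h1 => ?_⟩
  rw [pres_res_add f g (show (κ, p) ∈ D4 a b from ⟨h0, hp⟩), add_mul]
  exact (norm_add_le _ _).trans (add_le_add (hM κ h0 h1) (hM' κ h0 h1))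

theorem pres_fil_sub {k : ℤ} {f g : U5 a b → ℂ} (hf : Fil k f) (hg : Fil k g) :
    Fil k (f - g) := by
  intro p hp
  obtain ⟨M, hM⟩ := hf p hp
  obtain ⟨M', hM'⟩ := hg p hp
  refine ⟨M + M', fun κ h0 h1 => ?_⟩
  rw [pres_res_sub f g (show (κ, p) ∈ D4 a b from ⟨h0, hp⟩), add_mul]
  exact (norm_sub_le _ _).trans (add_le_add (hM κ h0 h1) (hM' κ h0 h1))

theorem pres_fil_smul {k : ℤ} (c : ℂ) {f : U5 a b → ℂ} (hf : Fil k f) : Fil k (c • f) := by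
  intro p hp
  obtain ⟨M, hM⟩ := hf p hp
  refine ⟨‖c‖ * M, fun κ h0 h1 => ?_⟩
  rw [pres_res_smul c f (show (κ, p) ∈ D4 a b from ⟨h0, hp⟩), norm_mul, mul_assoc]
  exact mul_le_mul_of_nonneg_left (hM κ h0 h1) (norm_nonneg _)

theorem pres_fil_zero {k : ℤ} : Fil k (0 : U5 a b → ℂ) := by
  intro p hp
  refine ⟨0, fun κ h0 h1 => ?_⟩
  rw [res_eq _ (show (κ, p) ∈ D4 a b from ⟨h0, hp⟩)]
  simp

theorem pres_lie
    (h : ∀ V : Derivation ℂ (Aring a b z z') (Aring a b z z'),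
      Pool.Agent.H29.Flex.IsComplete V → Pres V)
    {V : Derivation ℂ (Aring a b z z') (Aring a b z z')}
    (hV : V ∈ Pool.Agent.H29.Flex.completeLie (Aring a b z z')) : Pres V := by
  let L : LieSubalgebra ℂ (Derivation ℂ (Aring a b z z') (Aring a b z z')) :=
    { carrier := {W | Pres W}
      zero_mem' := fun k f _ => by
        have e : (((0 : Derivation ℂ (Aring a b z z') (Aring a b z z')) f : Aring a b z z') :
            U5 a b → ℂ) = 0 := rfl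
        rw [e]
        exact pres_fil_zero
      add_mem' := fun {W W'} hW hW' k f hf => pres_fil_add (hW k f hf) (hW' k f hf)
      smul_mem' := fun c W hW k f hf => pres_fil_smul c (hW k f hf)
      lie_mem' := fun {W W'} hW hW' k f hf => by
        rw [Derivation.commutator_apply]
        exact pres_fil_sub (hW k _ (hW' k f hf)) (hW' k _ (hW k f hf)) }
  have h1 : Pool.Agent.H29.Flex.completeLie (Aring a b z z') ≤ L :=
    LieSubalgebra.lieSpan_le.mpr fun W hW => h W hW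
  exact h1 hV

end Pool.Agent.H43.FX
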