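import Pool.Agent.H43.FX.VF
import Pool.Agent.H43.FX.Pres

/-!
# FX-EULER : a derivation which does not preserve the filtration

Proof.  The vector field `ξ(q) = (0, 0, w₁, w₂, 0)` on the open set `U5 a b` (complement of the
zero sets of 8 continuous functions).  `vfun` on the generators: `P k l ↦ P k l`, `t ↦ 0`,
`X i k ↦ 0`, `Y j k ↦ 0` (`w₁^k w₂^{3-k}` has degree `3` and `m_j^{-3}` degree `-3`),
`Z i j ↦ -3 Z i j`.  (Compute with `vfun_of_restrict`; or, more cheaply, use homogeneity: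
for `F` differentiable at `q ∈ U5`, `fderiv F q (0,0,w₁,w₂,0)` is the derivative at `s = 1` of
`s ↦ F(u₁,u₂,s w₁,s w₂,t)`, which is `s^m F(q)`, so the derivative is `m F(q)`.)
By `der_of_vf` there is a derivation `σ`; put `E = (ge (Z 0 0)) • σ`.
`f = ge (P 1 1)`: `res f (κ,p) = κ`, so `Fil 1 f`; `E f = Z 0 0 · P 1 1`, and
`res (E f) (κ,p) = κ^{-2} (t-z_0)/(v-a_0)³ (t-z'_0)/(ω-b_0)³`.  Choose `p ∈ D3` with
`t ≠ z_0, z'_0`: then `κ^{-2} c = O(κ)` is false (`κ → 0`).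
-/

namespace Pool.Agent.H43.FX

open Set Metric Filter Topology

variable {a b z z' : Fin 4 → ℂ}

theorem isOpen_U5 (a b : Fin 4 → ℂ) : IsOpen (U5 a b) := by
  have h1 : U5 a b = (⋂ i, {q : C5 | lf a i q ≠ 0}) ∩ (⋂ j, {q : C5 | mf b j q ≠ 0}) := by
    ext q
    simp [U5, mem_iInter]
  rw [h1]
  refine IsOpen.inter (isOpen_iInter_of_finite fun i => ?_) (isOpen_iInter_of_finite fun j => ?_)
  · refine isOpen_ne_fun ?_ continuous_const
    unfold lf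
    fun_prop
  · refine isOpen_ne_fun ?_ continuous_const
    unfold mf
    fun_prop

theorem eu_cu (k : Fin 2) (q : C5) : AnalyticAt ℂ (cu k) q := by
  unfold cu
  split_ifs
  · exact analyticAt_fst
  · exact analyticAt_fst.comp' analyticAt_snd

theorem eu_cw (k : Fin 2) (q : C5) : AnalyticAt ℂ (cw k) q := by
  have h1 : AnalyticAt ℂ (fun q : C5 => q.2.2) q := analyticAt_snd.comp' analyticAt_snd
  unfold cw
  split_ifs
  · exact analyticAt_fst.comp' h1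
  · exact (analyticAt_fst.comp' analyticAt_snd).comp' h1

theorem eu_ct (q : C5) : AnalyticAt ℂ ct q := by
  have h1 : AnalyticAt ℂ (fun q : C5 => q.2.2) q := analyticAt_snd.comp' analyticAt_snd
  exact (analyticAt_snd.comp' analyticAt_snd).comp' h1

theorem eu_cx {q : C5} (hq : q ∈ U5 a b) (i : Fin 4) : AnalyticAt ℂ (cx a z i) q := by
  have h1 : AnalyticAt ℂ (lf a i) q :=
    (eu_cu 0 q).sub (analyticAt_const.mul (eu_cu 1 q))
  exact ((eu_ct q).sub analyticAt_const).div (h1.pow 3) (pow_ne_zero _ (hq.1 i))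

theorem eu_cy {q : C5} (hq : q ∈ U5 a b) (j : Fin 4) : AnalyticAt ℂ (cy b z' j) q := by
  have h1 : AnalyticAt ℂ (mf b j) q :=
    (eu_cw 0 q).sub (analyticAt_const.mul (eu_cw 1 q))
  exact ((eu_ct q).sub analyticAt_const).div (h1.pow 3) (pow_ne_zero _ (hq.2 j))

theorem eu_gf (a b z z' : Fin 4 → ℂ) (g : GI) : AnalyticOnNhd ℂ (gf a b z z' g) (U5 a b) := by
  intro q hq
  cases g with
  | P k l => exact (eu_cu k q).mul (eu_cw l q)
  | t => exact eu_ct q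
  | X i k => exact (((eu_cu 0 q).pow _).mul ((eu_cu 1 q).pow _)).mul (eu_cx hq i)
  | Y j k => exact (((eu_cw 0 q).pow _).mul ((eu_cw 1 q).pow _)).mul (eu_cy hq j)
  | Z i j => exact (eu_cx hq i).mul (eu_cy hq j)

/-- the vector field -/
def eu_vf (q : C5) : C5 := (0, 0, q.2.2.1, q.2.2.2.1, 0)

theorem eu_vf_an (q : C5) : AnalyticAt ℂ eu_vf q :=
  analyticAt_const.prod (analyticAt_const.prod ((eu_cw 0 q).prod ((eu_cw 1 q).prod
    analyticAt_const)))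

theorem eu_hom {F : C5 → ℂ} {q : C5} (hF : DifferentiableAt ℂ F q) (m : ℤ)
    (hh : ∀ s : ℂ, s ≠ 0 →
      F (q.1, q.2.1, s * q.2.2.1, s * q.2.2.2.1, q.2.2.2.2) = s ^ m * F q) :
    fderiv ℂ F q (eu_vf q) = m * F q := by
  have h1 : HasDerivAt (fun s : ℂ => ((q.1, q.2.1, s * q.2.2.1, s * q.2.2.2.1, q.2.2.2.2) : C5))
      (eu_vf q) 1 := by
    have k1 : HasDerivAt (fun s : ℂ => s * q.2.2.1) (q.2.2.1) 1 := by
      simpa using (hasDerivAt_id (1 : ℂ)).mul_const q.2.2.1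
    have k2 : HasDerivAt (fun s : ℂ => s * q.2.2.2.1) (q.2.2.2.1) 1 := by
      simpa using (hasDerivAt_id (1 : ℂ)).mul_const q.2.2.2.1
    exact (hasDerivAt_const _ _).prodMk ((hasDerivAt_const _ _).prodMk
      (k1.prodMk (k2.prodMk (hasDerivAt_const _ _))))
  have hq1 : ((q.1, q.2.1, 1 * q.2.2.1, 1 * q.2.2.2.1, q.2.2.2.2) : C5) = q := by
    simp
  have h2 : HasDerivAt (fun s : ℂ => F (q.1, q.2.1, s * q.2.2.1, s * q.2.2.2.1, q.2.2.2.2))
      (fderiv ℂ F q (eu_vf q)) 1 := by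
    have h3 : HasFDerivAt F (fderiv ℂ F q)
        ((q.1, q.2.1, 1 * q.2.2.1, 1 * q.2.2.2.1, q.2.2.2.2) : C5) := by
      rw [hq1]
      exact hF.hasFDerivAt
    exact h3.comp_hasDerivAt 1 h1
  have h4 : HasDerivAt (fun s : ℂ => s ^ m * F q) ((m : ℂ) * 1 ^ (m - 1) * F q) 1 :=
    (hasDerivAt_zpow m 1 (Or.inl one_ne_zero)).mul_const _
  have h5 : (fun s : ℂ => F (q.1, q.2.1, s * q.2.2.1, s * q.2.2.2.1, q.2.2.2.2)) =ᶠ[𝓝 1]
      (fun s : ℂ => s ^ m * F q) := by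
    filter_upwards [isOpen_ne.mem_nhds (one_ne_zero : (1 : ℂ) ≠ 0)] with s hs
    exact hh s hs
  have h6 := (h4.congr_of_eventuallyEq h5).unique h2
  rw [← h6]
  simp

/-- the degree in `w` -/
def eu_deg : GI → ℤ
  | GI.P _ _ => 1
  | GI.t => 0
  | GI.X _ _ => 0
  | GI.Y _ _ => 0
  | GI.Z _ _ => -3

theorem eu_gf_deriv (a b z z' : Fin 4 → ℂ) (g : GI) {q : C5} (hq : q ∈ U5 a b) :
    fderiv ℂ (gf a b z z' g) q (eu_vf q) = eu_deg g * gf a b z z' g q := by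
  refine eu_hom ((eu_gf a b z z' g q hq).differentiableAt) (eu_deg g) ?_
  intro s hs
  cases g with
  | P k l =>
    simp only [gf, eu_deg, zpow_one, cu, cw]
    split_ifs <;> ring
  | t => simp [gf, eu_deg, ct]
  | X i k => simp [gf, eu_deg, cu, cx, ct, lf]
  | Y j k =>
    have h1 : (k : ℕ) + (3 - (k : ℕ)) = 3 := by
      have := k.2
      omega
    have h2 : mf b j (q.1, q.2.1, s * q.2.2.1, s * q.2.2.2.1, q.2.2.2.2) = s * mf b j q := by
      unfold mf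
      ring
    have h3 := hq.2 j
    simp only [gf, eu_deg, zpow_zero, one_mul, cw, cy, ct, h2]
    simp only [if_true, one_ne_zero, if_false]
    rw [mul_pow, mul_pow, mul_pow]
    have h4 : s ^ (k : ℕ) * s ^ (3 - (k : ℕ)) = s ^ 3 := by rw [← pow_add, h1]
    rw [div_eq_mul_inv, div_eq_mul_inv, mul_inv]
    calc s ^ (k : ℕ) * q.2.2.1 ^ (k : ℕ) * (s ^ (3 - (k : ℕ)) * q.2.2.2.1 ^ (3 - (k : ℕ))) *
          ((q.2.2.2.2 - z' j) * ((s ^ 3)⁻¹ * (mf b j q ^ 3)⁻¹))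
        = (s ^ (k : ℕ) * s ^ (3 - (k : ℕ))) * (s ^ 3)⁻¹ * (q.2.2.1 ^ (k : ℕ) *
          q.2.2.2.1 ^ (3 - (k : ℕ)) * ((q.2.2.2.2 - z' j) * (mf b j q ^ 3)⁻¹)) := by ring
      _ = _ := by rw [h4, mul_inv_cancel₀ (pow_ne_zero _ hs), one_mul]
  | Z i j =>
    have h2 : mf b j (q.1, q.2.1, s * q.2.2.1, s * q.2.2.2.1, q.2.2.2.2) = s * mf b j q := by
      unfold mf
      ring
    simp only [gf, eu_deg, cy, cx, ct, h2, lf]
    rw [mul_pow, div_eq_mul_inv _ (s ^ 3 * mf b j q ^ 3), mul_inv, div_eq_mul_inv _ (mf b j q ^ 3)]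
    have h3 : s ^ (-3 : ℤ) = (s ^ 3)⁻¹ := by
      rw [zpow_neg]
      rfl
    rw [h3]
    ring

theorem not_pres (a b z z' : Fin 4 → ℂ) :
    ∃ E : Derivation ℂ (Aring a b z z') (Aring a b z z'), ¬ Pres E := by
  have hU := isOpen_U5 a b
  have hvf : ∀ g : GI, vfun (U5 a b) eu_vf (rs a b (gf a b z z' g)) =
      (eu_deg g : ℂ) • rs a b (gf a b z z' g) := by
    intro g
    funext q
    have h1 := vfun_of_restrict (ξ := eu_vf) hU (F := gf a b z z' g) q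
    have h2 := eu_gf_deriv a b z z' g q.2
    rw [h2] at h1
    exact h1
  obtain ⟨σ, hσ, _⟩ := der_of_vf (U := U5 a b) (ξ := eu_vf) hU (fun q _ => eu_vf_an q)
    (S := range fun g : GI => rs a b (gf a b z z' g))
    (by
      rintro _ ⟨g, rfl⟩
      exact anu_of_restrict hU (eu_gf a b z z' g))
    (by
      rintro _ ⟨g, rfl⟩
      rw [hvf]
      exact Subalgebra.smul_mem _ (Algebra.subset_adjoin (mem_range_self g)) _)
  change ∃ σ : Derivation ℂ (Aring a b z z') (Aring a b z z'), ¬ Pres σ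
  let σ' : Derivation ℂ (Aring a b z z') (Aring a b z z') := σ
  have hσ' : ∀ f : Aring a b z z', ((σ' f : Aring a b z z') : U5 a b → ℂ) =
      vfun (U5 a b) eu_vf (f : U5 a b → ℂ) := hσ
  refine ⟨(ge a b z z' (GI.Z 0 0)) • σ', fun hP => ?_⟩
  have hcoe : ((ge a b z z' (GI.P 1 1) : Aring a b z z') : U5 a b → ℂ) =
      rs a b (gf a b z z' (GI.P 1 1)) := rfl
  have hfil : Fil 1 ((ge a b z z' (GI.P 1 1) : Aring a b z z') : U5 a b → ℂ) := by
    intro p hp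
    refine ⟨1, fun κ hκ _ => ?_⟩
    rw [res_eq _ (show (κ, p) ∈ D4 a b from ⟨hκ, hp⟩), hcoe]
    simp [rs, gf, cu, cw, pt5]
  have hfil2 := hP 1 (ge a b z z' (GI.P 1 1)) hfil
  -- the point
  obtain ⟨v, hv⟩ := (Set.finite_range a).infinite_compl.nonempty
  obtain ⟨w, hw⟩ := (Set.finite_range b).infinite_compl.nonempty
  obtain ⟨t, ht⟩ := (Set.toFinite {z 0, z' 0}).infinite_compl.nonempty
  have hp : ((v, w, t) : ℂ × ℂ × ℂ) ∈ D3 a b := ⟨hv, hw⟩
  obtain ⟨M, hM⟩ := hfil2 _ hp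
  have ht1 : t - z 0 ≠ 0 := fun h => ht (by simp [sub_eq_zero.1 h])
  have ht2 : t - z' 0 ≠ 0 := fun h => ht (by simp [sub_eq_zero.1 h])
  have hv1 : v - a 0 ≠ 0 := fun h => hv ⟨0, (sub_eq_zero.1 h).symm⟩
  have hw1 : w - b 0 ≠ 0 := fun h => hw ⟨0, (sub_eq_zero.1 h).symm⟩
  set C : ℂ := (t - z 0) / (v - a 0) ^ 3 * ((t - z' 0) / (w - b 0) ^ 3) with hC
  have hC0 : C ≠ 0 := mul_ne_zero (div_ne_zero ht1 (pow_ne_zero _ hv1))
    (div_ne_zero ht2 (pow_ne_zero _ hw1))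
  have hCpos : 0 < ‖C‖ := norm_pos_iff.2 hC0
  have hval : ∀ κ : ℂ, κ ≠ 0 → res a b ((((ge a b z z' (GI.Z 0 0)) • σ')
      (ge a b z z' (GI.P 1 1)) : Aring a b z z') : U5 a b → ℂ) (κ, (v, w, t)) * κ ^ 2 = C := by
    intro κ hκ
    rw [res_eq _ (show (κ, (v, w, t)) ∈ D4 a b from ⟨hκ, hp⟩), Derivation.smul_apply,
      smul_eq_mul]
    have e1 : (((ge a b z z' (GI.Z 0 0)) * σ' (ge a b z z' (GI.P 1 1)) : Aring a b z z') :
        U5 a b → ℂ) = rs a b (gf a b z z' (GI.Z 0 0)) *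
          ((σ' (ge a b z z' (GI.P 1 1)) : Aring a b z z') : U5 a b → ℂ) := rfl
    rw [e1, Pi.mul_apply, hσ', hcoe, hvf, Pi.smul_apply, smul_eq_mul]
    simp only [rs, gf, cx, cy, cu, cw, ct, lf, mf, pt5, eu_deg, one_ne_zero, if_false, mul_one,
      one_mul, Int.cast_one]
    have e2 : κ * w - b 0 * κ = κ * (w - b 0) := by ring
    rw [e2, hC, mul_pow]
    field_simp
  -- the contradiction
  have hb : ∀ ε : ℝ, 0 < ε → ε ≤ 1 → ‖C‖ ≤ M * ε ^ 3 := by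
    intro ε hε hε1
    have hκ : ((ε : ℝ) : ℂ) ≠ 0 := by exact_mod_cast hε.ne'
    have hn : ‖((ε : ℝ) : ℂ)‖ = ε := by
      rw [Complex.norm_real, Real.norm_eq_abs, abs_of_pos hε]
    have h1 := hM (ε : ℂ) hκ (by rw [hn]; exact hε1)
    rw [← hval (ε : ℂ) hκ, norm_mul, norm_pow, hn]
    rw [hn, zpow_one] at h1
    calc _ ≤ M * ε * ε ^ 2 := by gcongr
      _ = M * ε ^ 3 := by ring
  have hM0 : 0 < M := by
    have := hb 1 one_pos le_rfl
    simp only [one_pow, mul_one] at this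
    linarith
  set ε : ℝ := min 1 (‖C‖ / (2 * M)) with hε
  have hε0 : 0 < ε := by positivity
  have hε1 : ε ≤ 1 := min_le_left _ _
  have h1 := hb ε hε0 hε1
  have h2 : ε ^ 3 ≤ ε := by
    have : ε ^ 2 ≤ 1 := pow_le_one₀ hε0.le hε1
    nlinarith
  have h3 : M * ε ^ 3 ≤ ‖C‖ / 2 := by
    calc M * ε ^ 3 ≤ M * ε := by gcongr
      _ ≤ M * (‖C‖ / (2 * M)) := by
          gcongr
          exact min_le_right _ _
      _ = ‖C‖ / 2 := by
          field_simp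
  linarith

end Pool.Agent.H43.FX
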