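import Pool.Agent.H43.FX.Ring

/-!
# FX-WT : functions of weight 0 belong to the ring

`Wt a b z z' k f` : `f` is a polynomial in `u, w, t, x_i, y_j`, homogeneous of weight `k` for the
weights `u : 1`, `w : -1`, `t : 0`, `x : -3`, `y : 3`.

Proof of `wt_mem`.  A monomial is a product `u₁^{p₁} u₂^{p₂} w₁^{r₁} w₂^{r₂} t^e ∏ x_i^{m_i}
∏ y_j^{n_j}` (restricted to `U5`); by induction on `Wt`, `f` is in the `ℂ`-span of the
monomials of weight `k` (index them by `Fin 2 →₀ ℕ` etc., or by a multiset/list of the 13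
variables).  CLAIM: a monomial of weight `0` is in `Aring`; induction on the number of factors.
Let `p, r, m, n` be the numbers of factors of type `u, w, x, y`: `p - r - 3m + 3n = 0`.
* `m ≥ 1, n ≥ 1`: split off `x_i y_j = Z i j`.
* `m ≥ 1`, `n = 0`: `p = r + 3m ≥ 3`: split off `u_{k₁}u_{k₂}u_{k₃} x_i = X i k`.
* `m = 0`, `n ≥ 1`: `r = p + 3n ≥ 3`: split off `w_{l₁}w_{l₂}w_{l₃} y_j = Y j k`.
* `m = n = 0`: `p = r`: if `p ≥ 1` split off `u_k w_l = P k l`; otherwise the monomial is a
  power of `t`.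
The remaining factor is again a monomial of weight `0`.
(It is convenient to represent a monomial as a list of variables `s : List Var`,
`Var = u k | w k | t | x i | y j`, and to do strong induction on the length, using
`List.Perm`/`Multiset`: `Multiset Var` with `Multiset.prod` of the images; if a multiset contains
`x i` and `y j`, write `s = x i ::ₘ y j ::ₘ s'`, etc.)
-/

namespace Pool.Agent.H43.FX

open Set Metric Filter Topology

/-- Polynomials in `u, w, t, x_i, y_j`, homogeneous of a given weight. -/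
inductive Wt (a b z z' : Fin 4 → ℂ) : ℤ → (U5 a b → ℂ) → Prop
  | const (c : ℂ) : Wt a b z z' 0 (fun _ => c)
  | u (k : Fin 2) : Wt a b z z' 1 (rs a b (cu k))
  | w (k : Fin 2) : Wt a b z z' (-1) (rs a b (cw k))
  | t : Wt a b z z' 0 (rs a b ct)
  | x (i : Fin 4) : Wt a b z z' (-3) (rs a b (cx a z i))
  | y (j : Fin 4) : Wt a b z z' 3 (rs a b (cy b z' j))
  | add {k : ℤ} {f g : U5 a b → ℂ} : Wt a b z z' k f → Wt a b z z' k g →
      Wt a b z z' k (fun q => f q + g q)
  | mul {k l : ℤ} {f g : U5 a b → ℂ} : Wt a b z z' k f → Wt a b z z' l g →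
      Wt a b z z' (k + l) (fun q => f q * g q)

/-- names of the variables -/
inductive WVar : Type
  | u (k : Fin 2) : WVar
  | w (k : Fin 2) : WVar
  | t : WVar
  | x (i : Fin 4) : WVar
  | y (j : Fin 4) : WVar

/-- the kind of a variable -/
def wvKind : WVar → Fin 5
  | WVar.u _ => 0
  | WVar.w _ => 1
  | WVar.t => 2
  | WVar.x _ => 3
  | WVar.y _ => 4

/-- the weight of a variable -/
def wvW : WVar → ℤ
  | WVar.u _ => 1
  | WVar.w _ => -1
  | WVar.t => 0
  | WVar.x _ => -3
  | WVar.y _ => 3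

theorem wvW_u (k : Fin 2) : wvW (WVar.u k) = 1 := rfl
theorem wvW_w (k : Fin 2) : wvW (WVar.w k) = -1 := rfl
theorem wvW_t : wvW WVar.t = 0 := rfl
theorem wvW_x (i : Fin 4) : wvW (WVar.x i) = -3 := rfl
theorem wvW_y (j : Fin 4) : wvW (WVar.y j) = 3 := rfl

/-- the value of a variable -/
noncomputable def wvV (a b z z' : Fin 4 → ℂ) : WVar → (U5 a b → ℂ)
  | WVar.u k => rs a b (cu k)
  | WVar.w k => rs a b (cw k)
  | WVar.t => rs a b ct
  | WVar.x i => rs a b (cx a z i)
  | WVar.y j => rs a b (cy b z' j)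

/-- number of the variables of kind `c` -/
def wvCnt (c : Fin 5) (s : Multiset WVar) : ℕ := s.countP (fun v => wvKind v = c)

theorem wvCnt_cons (c : Fin 5) (v : WVar) (s : Multiset WVar) :
    wvCnt c (v ::ₘ s) = wvCnt c s + if wvKind v = c then 1 else 0 := by
  unfold wvCnt
  rw [Multiset.countP_cons]

theorem wv_sum (s : Multiset WVar) : (s.map wvW).sum =
    (wvCnt 0 s : ℤ) - wvCnt 1 s - 3 * wvCnt 3 s + 3 * wvCnt 4 s := by
  induction s using Multiset.induction_on with
  | empty => simp [wvCnt]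
  | cons v s ih =>
    rw [Multiset.map_cons, Multiset.sum_cons, ih, wvCnt_cons, wvCnt_cons, wvCnt_cons, wvCnt_cons]
    cases v <;> simp [wvW, wvKind] <;> ring

theorem wv_ext (c : Fin 5) (s : Multiset WVar) (h : 1 ≤ wvCnt c s) :
    ∃ v s', s = v ::ₘ s' ∧ wvKind v = c ∧
      ∀ c', wvCnt c' s = wvCnt c' s' + if c = c' then 1 else 0 := by
  obtain ⟨v, hv, hvc⟩ := Multiset.countP_pos.1 (show 0 < s.countP (fun v => wvKind v = c) from h)
  obtain ⟨s', rfl⟩ := Multiset.exists_cons_of_mem hv
  exact ⟨v, s', rfl, hvc, fun c' => by rw [wvCnt_cons, hvc]⟩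

theorem wv_cube (k1 k2 k3 : Fin 2) : ∃ k : Fin 4, ∀ A B : ℂ,
    (if k1 = 0 then A else B) * ((if k2 = 0 then A else B) * (if k3 = 0 then A else B)) =
      A ^ (k : ℕ) * B ^ (3 - (k : ℕ)) := by
  refine ⟨⟨(if k1 = 0 then 1 else 0) + (if k2 = 0 then 1 else 0) + (if k3 = 0 then 1 else 0),
    by split_ifs <;> omega⟩, fun A B => ?_⟩
  split_ifs <;> first | ring | (norm_num; ring)

theorem wv_hX (a b z z' : Fin 4 → ℂ) (i : Fin 4) (k1 k2 k3 : Fin 2) :
    rs a b (cx a z i) * (rs a b (cu k1) * (rs a b (cu k2) * rs a b (cu k3))) ∈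
      Aring a b z z' := by
  obtain ⟨k, hk⟩ := wv_cube k1 k2 k3
  have h1 : rs a b (cx a z i) * (rs a b (cu k1) * (rs a b (cu k2) * rs a b (cu k3))) =
      rs a b (gf a b z z' (GI.X i k)) := by
    funext q
    show cx a z i q.1 * ((if k1 = 0 then q.1.1 else q.1.2.1) *
      ((if k2 = 0 then q.1.1 else q.1.2.1) * (if k3 = 0 then q.1.1 else q.1.2.1))) =
      q.1.1 ^ (k : ℕ) * q.1.2.1 ^ (3 - (k : ℕ)) * cx a z i q.1
    rw [hk]
    ring
  rw [h1]
  exact Algebra.subset_adjoin ⟨_, rfl⟩

theorem wv_hY (a b z z' : Fin 4 → ℂ) (j : Fin 4) (k1 k2 k3 : Fin 2) :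
    rs a b (cy b z' j) * (rs a b (cw k1) * (rs a b (cw k2) * rs a b (cw k3))) ∈
      Aring a b z z' := by
  obtain ⟨k, hk⟩ := wv_cube k1 k2 k3
  have h1 : rs a b (cy b z' j) * (rs a b (cw k1) * (rs a b (cw k2) * rs a b (cw k3))) =
      rs a b (gf a b z z' (GI.Y j k)) := by
    funext q
    show cy b z' j q.1 * ((if k1 = 0 then q.1.2.2.1 else q.1.2.2.2.1) *
      ((if k2 = 0 then q.1.2.2.1 else q.1.2.2.2.1) *
        (if k3 = 0 then q.1.2.2.1 else q.1.2.2.2.1))) =
      q.1.2.2.1 ^ (k : ℕ) * q.1.2.2.2.1 ^ (3 - (k : ℕ)) * cy b z' j q.1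
    rw [hk]
    ring
  rw [h1]
  exact Algebra.subset_adjoin ⟨_, rfl⟩

theorem wv_mem (a b z z' : Fin 4 → ℂ) (n : ℕ) : ∀ s : Multiset WVar, s.card = n →
    (s.map wvW).sum = 0 → (s.map (wvV a b z z')).prod ∈ Aring a b z z' := by
  induction n using Nat.strong_induction_on with
  | _ n ih =>
    intro s hs h0
    have hsum := wv_sum s
    rw [h0] at hsum
    by_cases hx : 1 ≤ wvCnt 3 s
    · obtain ⟨v, s1, rfl, hv, hc1⟩ := wv_ext 3 s hx
      obtain ⟨i, rfl⟩ : ∃ i, v = WVar.x i := by
        cases v <;> first | exact ⟨_, rfl⟩ | exact absurd hv (by simp [wvKind])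
      by_cases hy : 1 ≤ wvCnt 4 (WVar.x i ::ₘ s1)
      · have hy1 : 1 ≤ wvCnt 4 s1 := by
          have := hc1 4
          rw [if_neg (by decide)] at this
          omega
        obtain ⟨v, s2, rfl, hv, hc2⟩ := wv_ext 4 s1 hy1
        obtain ⟨j, rfl⟩ : ∃ j, v = WVar.y j := by
          cases v <;> first | exact ⟨_, rfl⟩ | exact absurd hv (by simp [wvKind])
        simp only [Multiset.card_cons, Multiset.map_cons, Multiset.sum_cons,
          Multiset.prod_cons, wvW_u, wvW_w, wvW_t, wvW_x, wvW_y] at hs h0 ⊢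
        rw [← mul_assoc]
        refine (Aring a b z z').mul_mem ?_ (ih _ (by omega) s2 rfl (by linarith))
        exact Algebra.subset_adjoin ⟨GI.Z i j, rfl⟩
      · have e0 := hc1 0
        have e1 := hc1 1
        have e3 := hc1 3
        have e4 := hc1 4
        rw [if_neg (by decide)] at e0 e1 e4
        rw [if_pos rfl] at e3
        obtain ⟨v2, s2, rfl, hv2, hc2⟩ := wv_ext 0 s1 (by omega)
        obtain ⟨k1, rfl⟩ : ∃ k, v2 = WVar.u k := by
          cases v2 <;> first | exact ⟨_, rfl⟩ | exact absurd hv2 (by simp [wvKind])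
        have f0 := hc2 0
        rw [if_pos rfl] at f0
        obtain ⟨v3, s3, rfl, hv3, hc3⟩ := wv_ext 0 s2 (by omega)
        obtain ⟨k2, rfl⟩ : ∃ k, v3 = WVar.u k := by
          cases v3 <;> first | exact ⟨_, rfl⟩ | exact absurd hv3 (by simp [wvKind])
        have g0 := hc3 0
        rw [if_pos rfl] at g0
        obtain ⟨v4, s4, rfl, hv4, hc4⟩ := wv_ext 0 s3 (by omega)
        obtain ⟨k3, rfl⟩ : ∃ k, v4 = WVar.u k := by
          cases v4 <;> first | exact ⟨_, rfl⟩ | exact absurd hv4 (by simp [wvKind])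
        simp only [Multiset.card_cons, Multiset.map_cons, Multiset.sum_cons,
          Multiset.prod_cons, wvW_u, wvW_w, wvW_t, wvW_x, wvW_y] at hs h0 ⊢
        have h1 : wvV a b z z' (WVar.x i) * (wvV a b z z' (WVar.u k1) *
            (wvV a b z z' (WVar.u k2) * (wvV a b z z' (WVar.u k3) *
              (s4.map (wvV a b z z')).prod))) =
            (rs a b (cx a z i) * (rs a b (cu k1) * (rs a b (cu k2) * rs a b (cu k3)))) *
              (s4.map (wvV a b z z')).prod := by
          show rs a b (cx a z i) * (rs a b (cu k1) * (rs a b (cu k2) * (rs a b (cu k3) *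
              (s4.map (wvV a b z z')).prod))) = _
          ring
        rw [h1]
        exact (Aring a b z z').mul_mem (wv_hX a b z z' i k1 k2 k3)
          (ih _ (by omega) s4 rfl (by linarith))
    · by_cases hy : 1 ≤ wvCnt 4 s
      · obtain ⟨v, s1, rfl, hv, hc1⟩ := wv_ext 4 s hy
        obtain ⟨j, rfl⟩ : ∃ j, v = WVar.y j := by
          cases v <;> first | exact ⟨_, rfl⟩ | exact absurd hv (by simp [wvKind])
        have e0 := hc1 0
        have e1 := hc1 1
        have e3 := hc1 3
        have e4 := hc1 4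
        rw [if_neg (by decide)] at e0 e1 e3
        rw [if_pos rfl] at e4
        obtain ⟨v2, s2, rfl, hv2, hc2⟩ := wv_ext 1 s1 (by omega)
        obtain ⟨k1, rfl⟩ : ∃ k, v2 = WVar.w k := by
          cases v2 <;> first | exact ⟨_, rfl⟩ | exact absurd hv2 (by simp [wvKind])
        have f0 := hc2 1
        rw [if_pos rfl] at f0
        obtain ⟨v3, s3, rfl, hv3, hc3⟩ := wv_ext 1 s2 (by omega)
        obtain ⟨k2, rfl⟩ : ∃ k, v3 = WVar.w k := by
          cases v3 <;> first | exact ⟨_, rfl⟩ | exact absurd hv3 (by simp [wvKind])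
        have g0 := hc3 1
        rw [if_pos rfl] at g0
        obtain ⟨v4, s4, rfl, hv4, hc4⟩ := wv_ext 1 s3 (by omega)
        obtain ⟨k3, rfl⟩ : ∃ k, v4 = WVar.w k := by
          cases v4 <;> first | exact ⟨_, rfl⟩ | exact absurd hv4 (by simp [wvKind])
        simp only [Multiset.card_cons, Multiset.map_cons, Multiset.sum_cons,
          Multiset.prod_cons, wvW_u, wvW_w, wvW_t, wvW_x, wvW_y] at hs h0 ⊢
        have h1 : wvV a b z z' (WVar.y j) * (wvV a b z z' (WVar.w k1) *
            (wvV a b z z' (WVar.w k2) * (wvV a b z z' (WVar.w k3) *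
              (s4.map (wvV a b z z')).prod))) =
            (rs a b (cy b z' j) * (rs a b (cw k1) * (rs a b (cw k2) * rs a b (cw k3)))) *
              (s4.map (wvV a b z z')).prod := by
          show rs a b (cy b z' j) * (rs a b (cw k1) * (rs a b (cw k2) * (rs a b (cw k3) *
              (s4.map (wvV a b z z')).prod))) = _
          ring
        rw [h1]
        exact (Aring a b z z').mul_mem (wv_hY a b z z' j k1 k2 k3)
          (ih _ (by omega) s4 rfl (by linarith))
      · by_cases hu : 1 ≤ wvCnt 0 s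
        · obtain ⟨v, s1, rfl, hv, hc1⟩ := wv_ext 0 s hu
          obtain ⟨k, rfl⟩ : ∃ k, v = WVar.u k := by
            cases v <;> first | exact ⟨_, rfl⟩ | exact absurd hv (by simp [wvKind])
          have e1 := hc1 1
          rw [if_neg (by decide)] at e1
          obtain ⟨v2, s2, rfl, hv2, hc2⟩ := wv_ext 1 s1 (by omega)
          obtain ⟨l, rfl⟩ : ∃ k, v2 = WVar.w k := by
            cases v2 <;> first | exact ⟨_, rfl⟩ | exact absurd hv2 (by simp [wvKind])
          simp only [Multiset.card_cons, Multiset.map_cons, Multiset.sum_cons,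
            Multiset.prod_cons, wvW_u, wvW_w, wvW_t, wvW_x, wvW_y] at hs h0 ⊢
          rw [← mul_assoc]
          refine (Aring a b z z').mul_mem ?_ (ih _ (by omega) s2 rfl (by linarith))
          exact Algebra.subset_adjoin ⟨GI.P k l, rfl⟩
        · rcases s.empty_or_exists_mem with rfl | ⟨v, hv⟩
          · rw [Multiset.map_zero, Multiset.prod_zero]
            exact (Aring a b z z').one_mem
          · obtain ⟨s1, rfl⟩ := Multiset.exists_cons_of_mem hv
            have e0 := wvCnt_cons 0 v s1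
            have e1 := wvCnt_cons 1 v s1
            have e3 := wvCnt_cons 3 v s1
            have e4 := wvCnt_cons 4 v s1
            cases v with
            | t =>
              simp only [Multiset.card_cons, Multiset.map_cons, Multiset.sum_cons,
                Multiset.prod_cons, wvW_u, wvW_w, wvW_t, wvW_x, wvW_y] at hs h0 ⊢
              refine (Aring a b z z').mul_mem ?_ (ih _ (by omega) s1 rfl (by linarith))
              exact Algebra.subset_adjoin ⟨GI.t, rfl⟩
            | u k => simp only [wvKind, if_pos] at e0; omega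
            | w k => simp only [wvKind, if_pos] at e0 e1 e3 e4; omega
            | x i => simp only [wvKind, if_pos] at e3; omega
            | y j => simp only [wvKind, if_pos] at e4; omega

/-- the monomials of weight `k` -/
def wvMon (a b z z' : Fin 4 → ℂ) (k : ℤ) : Set (U5 a b → ℂ) :=
  {g | ∃ s : Multiset WVar, (s.map wvW).sum = k ∧ g = (s.map (wvV a b z z')).prod}

theorem wv_span {a b z z' : Fin 4 → ℂ} {k : ℤ} {f : U5 a b → ℂ} (h : Wt a b z z' k f) :
    f ∈ Submodule.span ℂ (wvMon a b z z' k) := by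
  have hvar : ∀ v : WVar, wvV a b z z' v ∈ Submodule.span ℂ (wvMon a b z z' (wvW v)) :=
    fun v => Submodule.subset_span ⟨{v}, by simp, by simp⟩
  induction h with
  | const c =>
    have h1 : (fun _ : U5 a b => c) = c • (1 : U5 a b → ℂ) := by
      funext q
      simp
    rw [h1]
    exact Submodule.smul_mem _ _ (Submodule.subset_span ⟨0, by simp, by simp⟩)
  | u k => exact hvar (WVar.u k)
  | w k => exact hvar (WVar.w k)
  | t => exact hvar WVar.t
  | x i => exact hvar (WVar.x i)
  | y j => exact hvar (WVar.y j)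
  | add _ _ h1 h2 => exact Submodule.add_mem _ h1 h2
  | @mul k l f g _ _ h1 h2 =>
    have h3 : f * g ∈ Submodule.span ℂ (wvMon a b z z' k) * Submodule.span ℂ (wvMon a b z z' l) :=
      Submodule.mul_mem_mul h1 h2
    rw [Submodule.span_mul_span] at h3
    refine Submodule.span_mono ?_ h3
    rintro _ ⟨p, ⟨s, hs, rfl⟩, p', ⟨s', hs', rfl⟩, rfl⟩
    exact ⟨s + s', by rw [Multiset.map_add, Multiset.sum_add, hs, hs'],
      by rw [Multiset.map_add, Multiset.prod_add]⟩

theorem wt_mem {a b z z' : Fin 4 → ℂ} {f : U5 a b → ℂ} (h : Wt a b z z' 0 f) :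
    f ∈ Aring a b z z' := by
  have h1 := wv_span h
  have h2 : Submodule.span ℂ (wvMon a b z z' 0) ≤ Subalgebra.toSubmodule (Aring a b z z') := by
    rw [Submodule.span_le]
    rintro _ ⟨s, hs, rfl⟩
    exact wv_mem a b z z' _ s rfl hs
  exact h2 h1

end Pool.Agent.H43.FX
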