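import Pool.Agent.H43.FX.VF
import Pool.Agent.H43.FX.Wt
import Pool.Agent.H43.FX.Euler

/-!
# FX-BDER : the derivation `B : t ↦ ∏ ℓ_i³ ∏ m_j³`

Proof.  Vector field `ξ(q) = (0,0,0,0, (∏_i ℓ_i)³(∏_j m_j)³)` (a polynomial, analytic).
`vfun` on the generators (`vfun_of_restrict`): `P k l ↦ 0`, `t ↦ Π := (∏ℓ)³(∏m)³`,
`x_i ↦ ∏_{l≠i} ℓ_l³ · (∏m)³`, `y_j ↦ (∏ℓ)³ ∏_{l≠j} m_l³`, so `X i k ↦ u₁^k u₂^{3-k} ·`,
`Y j k ↦ w₁^k w₂^{3-k} ·`, `Z i j ↦ (..) y_j + x_i (..)`: all of weight `0` (`ℓ_i³` has weight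
`3`, `m_j³` weight `-3`), so in `Aring` by `wt_mem` (the linear forms `ℓ_i`, `m_j` are `Wt 1`,
`Wt (-1)`; products over finsets of `Wt` functions are `Wt`; use `funext` to match the
functions).  `NilV`: functions of `(u, w)` only are killed by `vfun`; `t`, `x_i`, `y_j` are mapped
to such functions; products (`nilv_mul`, `nilv_of_vfun`).  Apply `der_of_vf` with
`S = range fun g => rs a b (gf a b z z' g)`.
-/

namespace Pool.Agent.H43.FX

open Set Metric Filter Topology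

section aux

variable {a b z z' : Fin 4 → ℂ}

private theorem bd_line {F : C5 → ℂ} {q : C5} (hF : DifferentiableAt ℂ F q) (c d : ℂ)
    (h : HasDerivAt (fun s : ℂ => F (q.1, q.2.1, q.2.2.1, q.2.2.2.1, q.2.2.2.2 + s * c)) d 0) :
    fderiv ℂ F q ((0, 0, 0, 0, c) : C5) = d := by
  have h1 : HasDerivAt (fun s : ℂ =>
      ((q.1, q.2.1, q.2.2.1, q.2.2.2.1, q.2.2.2.2 + s * c) : C5)) ((0, 0, 0, 0, c) : C5) 0 := by
    have k1 : HasDerivAt (fun s : ℂ => q.2.2.2.2 + s * c) c 0 := by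
      simpa using ((hasDerivAt_id (0 : ℂ)).mul_const c).const_add q.2.2.2.2
    exact (hasDerivAt_const _ _).prodMk ((hasDerivAt_const _ _).prodMk
      ((hasDerivAt_const _ _).prodMk ((hasDerivAt_const _ _).prodMk k1)))
  have hq1 : ((q.1, q.2.1, q.2.2.1, q.2.2.2.1, q.2.2.2.2 + 0 * c) : C5) = q := by simp
  have h3 : HasFDerivAt F (fderiv ℂ F q)
      ((q.1, q.2.1, q.2.2.1, q.2.2.2.1, q.2.2.2.2 + 0 * c) : C5) := by
    rw [hq1]
    exact hF.hasFDerivAt
  exact (h3.comp_hasDerivAt 0 h1).unique h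

/-- the product `∏_{i ∈ s} ℓ_i³ ∏_{j ∈ s'} m_j³` -/
private noncomputable def bd_pi (a b : Fin 4 → ℂ) (s s' : Finset (Fin 4)) (q : C5) : ℂ :=
  (∏ i ∈ s, lf a i q) ^ 3 * (∏ j ∈ s', mf b j q) ^ 3

/-- the vector field -/
private noncomputable def bd_vf (a b : Fin 4 → ℂ) (q : C5) : C5 :=
  (0, 0, 0, 0, bd_pi a b Finset.univ Finset.univ q)

private theorem bd_lf_an (i : Fin 4) (q : C5) : AnalyticAt ℂ (lf a i) q :=
  (eu_cu 0 q).sub (analyticAt_const.mul (eu_cu 1 q))

private theorem bd_mf_an (j : Fin 4) (q : C5) : AnalyticAt ℂ (mf b j) q :=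
  (eu_cw 0 q).sub (analyticAt_const.mul (eu_cw 1 q))

private theorem bd_pi_an (s s' : Finset (Fin 4)) (q : C5) : AnalyticAt ℂ (bd_pi a b s s') q :=
  ((Finset.analyticAt_fun_prod s fun i _ => bd_lf_an i q).pow 3).mul
    ((Finset.analyticAt_fun_prod s' fun j _ => bd_mf_an j q).pow 3)

private theorem bd_vf_an (q : C5) : AnalyticAt ℂ (bd_vf a b) q :=
  analyticAt_const.prod (analyticAt_const.prod (analyticAt_const.prod
    (analyticAt_const.prod (bd_pi_an _ _ q))))

private theorem bd_kill {F : C5 → ℂ} (hF : AnalyticOnNhd ℂ F (U5 a b))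
    (h : ∀ (q : C5) (t : ℂ), F (q.1, q.2.1, q.2.2.1, q.2.2.2.1, t) = F q) :
    vfun (U5 a b) (bd_vf a b) (rs a b F) = 0 := by
  funext q
  refine (vfun_of_restrict (ξ := bd_vf a b) (isOpen_U5 a b) (F := F) q).trans ?_
  refine bd_line (hF q q.2).differentiableAt _ _ ?_
  have h1 : (fun s : ℂ => F (q.1.1, q.1.2.1, q.1.2.2.1, q.1.2.2.2.1, q.1.2.2.2.2 +
      s * bd_pi a b Finset.univ Finset.univ q)) = fun _ => F q := by
    funext s
    exact h q _
  rw [h1]
  exact hasDerivAt_const _ _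

private theorem bd_ct :
    vfun (U5 a b) (bd_vf a b) (rs a b ct) = rs a b (bd_pi a b Finset.univ Finset.univ) := by
  funext q
  refine (vfun_of_restrict (ξ := bd_vf a b) (isOpen_U5 a b) (F := ct) q).trans ?_
  refine bd_line (eu_ct q.1).differentiableAt _ _ ?_
  simpa [ct, rs] using ((hasDerivAt_id (0 : ℂ)).mul_const
    (bd_pi a b Finset.univ Finset.univ q.1)).const_add q.1.2.2.2.2

private theorem bd_pi_lf (i : Fin 4) (s' : Finset (Fin 4)) (q : C5) :
    bd_pi a b Finset.univ s' q = bd_pi a b (Finset.univ.erase i) s' q * lf a i q ^ 3 := by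
  unfold bd_pi
  rw [← Finset.mul_prod_erase Finset.univ (fun i => lf a i q) (Finset.mem_univ i)]
  ring

private theorem bd_pi_mf (j : Fin 4) (s : Finset (Fin 4)) (q : C5) :
    bd_pi a b s Finset.univ q = bd_pi a b s (Finset.univ.erase j) q * mf b j q ^ 3 := by
  unfold bd_pi
  rw [← Finset.mul_prod_erase Finset.univ (fun j => mf b j q) (Finset.mem_univ j)]
  ring

private theorem bd_cx (i : Fin 4) : vfun (U5 a b) (bd_vf a b) (rs a b (cx a z i)) =
    rs a b (bd_pi a b (Finset.univ.erase i) Finset.univ) := by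
  funext q
  refine (vfun_of_restrict (ξ := bd_vf a b) (isOpen_U5 a b) (F := cx a z i) q).trans ?_
  refine bd_line (eu_cx q.2 i).differentiableAt _ _ ?_
  have h1 : HasDerivAt (fun s : ℂ => q.1.2.2.2.2 + s * bd_pi a b Finset.univ Finset.univ q.1)
      (bd_pi a b Finset.univ Finset.univ q.1) 0 := by
    simpa using ((hasDerivAt_id (0 : ℂ)).mul_const
      (bd_pi a b Finset.univ Finset.univ q.1)).const_add q.1.2.2.2.2
  have h2 := (h1.sub_const (z i)).div_const (lf a i q.1 ^ 3)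
  have h3 : bd_pi a b Finset.univ Finset.univ q.1 / lf a i q.1 ^ 3 =
      rs a b (bd_pi a b (Finset.univ.erase i) Finset.univ) q := by
    rw [bd_pi_lf i, mul_div_cancel_right₀ _ (pow_ne_zero 3 (q.2.1 i))]
    rfl
  rw [h3] at h2
  exact h2

private theorem bd_cy (j : Fin 4) : vfun (U5 a b) (bd_vf a b) (rs a b (cy b z' j)) =
    rs a b (bd_pi a b Finset.univ (Finset.univ.erase j)) := by
  funext q
  refine (vfun_of_restrict (ξ := bd_vf a b) (isOpen_U5 a b) (F := cy b z' j) q).trans ?_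
  refine bd_line (eu_cy q.2 j).differentiableAt _ _ ?_
  have h1 : HasDerivAt (fun s : ℂ => q.1.2.2.2.2 + s * bd_pi a b Finset.univ Finset.univ q.1)
      (bd_pi a b Finset.univ Finset.univ q.1) 0 := by
    simpa using ((hasDerivAt_id (0 : ℂ)).mul_const
      (bd_pi a b Finset.univ Finset.univ q.1)).const_add q.1.2.2.2.2
  have h2 := (h1.sub_const (z' j)).div_const (mf b j q.1 ^ 3)
  have h3 : bd_pi a b Finset.univ Finset.univ q.1 / mf b j q.1 ^ 3 =
      rs a b (bd_pi a b Finset.univ (Finset.univ.erase j)) q := by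
    rw [bd_pi_mf j, mul_div_cancel_right₀ _ (pow_ne_zero 3 (q.2.2 j))]
    rfl
  rw [h3] at h2
  exact h2

/-! weights -/

private theorem bd_wt_cast {k l : ℤ} {f : U5 a b → ℂ} (h : Wt a b z z' k f) (e : k = l) :
    Wt a b z z' l f := e ▸ h

private theorem bd_wt_pow {k : ℤ} {f : U5 a b → ℂ} (h : Wt a b z z' k f) (n : ℕ) :
    Wt a b z z' (n * k) (fun q => f q ^ n) := by
  induction n with
  | zero =>
    simp only [pow_zero]
    exact bd_wt_cast (Wt.const 1) (by simp)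
  | succ n ih =>
    simp only [pow_succ]
    exact bd_wt_cast (Wt.mul ih h) (by push_cast; ring)

private theorem bd_wt_prod {k : ℤ} {F : Fin 4 → U5 a b → ℂ} (h : ∀ i, Wt a b z z' k (F i))
    (s : Finset (Fin 4)) : Wt a b z z' (s.card * k) (fun q => ∏ i ∈ s, F i q) := by
  induction s using Finset.induction_on with
  | empty =>
    simp only [Finset.prod_empty]
    exact bd_wt_cast (Wt.const 1) (by simp)
  | insert i s hi ih =>
    simp only [Finset.prod_insert hi, Finset.card_insert_of_notMem hi]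
    exact bd_wt_cast (Wt.mul (h i) ih) (by push_cast; ring)

private theorem bd_wt_lf (i : Fin 4) : Wt a b z z' 1 (rs a b (lf a i)) := by
  have h1 : Wt a b z z' 1 (fun q : U5 a b => rs a b (cu 0) q +
      (fun _ => -a i) q * rs a b (cu 1) q) :=
    Wt.add (Wt.u 0) (bd_wt_cast (Wt.mul (Wt.const (-a i)) (Wt.u 1)) (by norm_num))
  have h2 : rs a b (lf a i) = (fun q : U5 a b => rs a b (cu 0) q +
      (fun _ => -a i) q * rs a b (cu 1) q) := by
    funext q
    simp only [rs, lf, cu, if_true, one_ne_zero, if_false]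
    ring
  rw [h2]
  exact h1

private theorem bd_wt_mf (j : Fin 4) : Wt a b z z' (-1) (rs a b (mf b j)) := by
  have h1 : Wt a b z z' (-1) (fun q : U5 a b => rs a b (cw 0) q +
      (fun _ => -b j) q * rs a b (cw 1) q) :=
    Wt.add (Wt.w 0) (bd_wt_cast (Wt.mul (Wt.const (-b j)) (Wt.w 1)) (by norm_num))
  have h2 : rs a b (mf b j) = (fun q : U5 a b => rs a b (cw 0) q +
      (fun _ => -b j) q * rs a b (cw 1) q) := by
    funext q
    simp only [rs, mf, cw, if_true, one_ne_zero, if_false]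
    ring
  rw [h2]
  exact h1

private theorem bd_wt_pi (s s' : Finset (Fin 4)) :
    Wt a b z z' (3 * s.card - 3 * s'.card) (rs a b (bd_pi a b s s')) :=
  bd_wt_cast (Wt.mul (bd_wt_pow (bd_wt_prod (fun i => bd_wt_lf i) s) 3)
    (bd_wt_pow (bd_wt_prod (fun j => bd_wt_mf j) s') 3)) (by push_cast; ring)

private theorem bd_wt_uu (k : Fin 4) : Wt a b z z' 3
    (fun q => rs a b (cu 0) q ^ (k : ℕ) * rs a b (cu 1) q ^ (3 - (k : ℕ))) := by
  refine bd_wt_cast (Wt.mul (bd_wt_pow (Wt.u 0) k) (bd_wt_pow (Wt.u 1) (3 - k))) ?_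
  have := k.2
  omega

private theorem bd_wt_ww (k : Fin 4) : Wt a b z z' (-3)
    (fun q => rs a b (cw 0) q ^ (k : ℕ) * rs a b (cw 1) q ^ (3 - (k : ℕ))) := by
  refine bd_wt_cast (Wt.mul (bd_wt_pow (Wt.w 0) k) (bd_wt_pow (Wt.w 1) (3 - k))) ?_
  have := k.2
  omega

end aux

theorem exists_B (a b z z' : Fin 4 → ℂ) :
    ∃ σ : Derivation ℂ (Aring a b z z') (Aring a b z z'),
      Pool.Agent.H29.Flex.IsLND σ ∧ (∀ k l, σ (ge a b z z' (GI.P k l)) = 0) ∧
      ((σ (ge a b z z' GI.t) : Aring a b z z') : U5 a b → ℂ) =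
        fun q => (∏ i, lf a i q.1) ^ 3 * (∏ j, mf b j q.1) ^ 3 := by
  have hU := isOpen_U5 a b
  have hξ : AnalyticOnNhd ℂ (bd_vf a b) (U5 a b) := fun q _ => bd_vf_an q
  -- killed functions
  have kP : ∀ k l, vfun (U5 a b) (bd_vf a b) (rs a b (gf a b z z' (GI.P k l))) = 0 := by
    intro k l
    refine bd_kill (eu_gf a b z z' (GI.P k l)) ?_
    intro q t
    simp only [gf, cu, cw]
  have anu_u : ∀ k : Fin 4, AnalyticOnNhd ℂ
      (fun q : C5 => cu 0 q ^ (k : ℕ) * cu 1 q ^ (3 - (k : ℕ))) (U5 a b) :=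
    fun k q _ => ((eu_cu 0 q).pow _).mul ((eu_cu 1 q).pow _)
  have anu_w : ∀ k : Fin 4, AnalyticOnNhd ℂ
      (fun q : C5 => cw 0 q ^ (k : ℕ) * cw 1 q ^ (3 - (k : ℕ))) (U5 a b) :=
    fun k q _ => ((eu_cw 0 q).pow _).mul ((eu_cw 1 q).pow _)
  have ku : ∀ k : Fin 4, vfun (U5 a b) (bd_vf a b)
      (rs a b (fun q : C5 => cu 0 q ^ (k : ℕ) * cu 1 q ^ (3 - (k : ℕ)))) = 0 :=
    fun k => bd_kill (anu_u k) fun q t => rfl
  have kw : ∀ k : Fin 4, vfun (U5 a b) (bd_vf a b)
      (rs a b (fun q : C5 => cw 0 q ^ (k : ℕ) * cw 1 q ^ (3 - (k : ℕ)))) = 0 :=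
    fun k => bd_kill (anu_w k) fun q t => rfl
  have kpi : ∀ s s' : Finset (Fin 4), vfun (U5 a b) (bd_vf a b) (rs a b (bd_pi a b s s')) = 0 :=
    fun s s' => bd_kill (fun q _ => bd_pi_an s s' q) fun q t => rfl
  have apx : ∀ i, AnU (U5 a b) (rs a b (cx a z i)) := fun i =>
    anu_of_restrict hU fun q hq => eu_cx hq i
  have apy : ∀ j, AnU (U5 a b) (rs a b (cy b z' j)) := fun j =>
    anu_of_restrict hU fun q hq => eu_cy hq j
  have npi : ∀ s s' : Finset (Fin 4), NilV (U5 a b) (bd_vf a b) (rs a b (bd_pi a b s s')) :=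
    fun s s' => ⟨anu_of_restrict hU fun q _ => bd_pi_an s s' q, 1, kpi s s'⟩
  have nx : ∀ i, NilV (U5 a b) (bd_vf a b) (rs a b (cx a z i)) := fun i =>
    nilv_of_vfun (apx i) (by rw [bd_cx]; exact npi _ _)
  have ny : ∀ j, NilV (U5 a b) (bd_vf a b) (rs a b (cy b z' j)) := fun j =>
    nilv_of_vfun (apy j) (by rw [bd_cy]; exact npi _ _)
  -- the derivatives of the generators
  have vX : ∀ i k, vfun (U5 a b) (bd_vf a b) (rs a b (gf a b z z' (GI.X i k))) =
      fun q => (rs a b (cu 0) q ^ (k : ℕ) * rs a b (cu 1) q ^ (3 - (k : ℕ))) *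
        rs a b (bd_pi a b (Finset.univ.erase i) Finset.univ) q := by
    intro i k
    refine (vfun_mul (ξ := bd_vf a b) hU (anu_of_restrict hU (anu_u k)) (apx i)).trans ?_
    funext q
    have h1 := congrFun (ku k) q
    have h2 := congrFun (bd_cx (a := a) (b := b) (z := z) i) q
    change vfun (U5 a b) (bd_vf a b) (rs a b (fun q : C5 => cu 0 q ^ (k : ℕ) *
      cu 1 q ^ (3 - (k : ℕ)))) q * rs a b (cx a z i) q + (rs a b (cu 0) q ^ (k : ℕ) *
      rs a b (cu 1) q ^ (3 - (k : ℕ))) * vfun (U5 a b) (bd_vf a b) (rs a b (cx a z i)) q = _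
    rw [h1, h2, Pi.zero_apply, zero_mul, zero_add]
  have vY : ∀ j k, vfun (U5 a b) (bd_vf a b) (rs a b (gf a b z z' (GI.Y j k))) =
      fun q => (rs a b (cw 0) q ^ (k : ℕ) * rs a b (cw 1) q ^ (3 - (k : ℕ))) *
        rs a b (bd_pi a b Finset.univ (Finset.univ.erase j)) q := by
    intro j k
    refine (vfun_mul (ξ := bd_vf a b) hU (anu_of_restrict hU (anu_w k)) (apy j)).trans ?_
    funext q
    have h1 := congrFun (kw k) q
    have h2 := congrFun (bd_cy (a := a) (b := b) (z' := z') j) q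
    change vfun (U5 a b) (bd_vf a b) (rs a b (fun q : C5 => cw 0 q ^ (k : ℕ) *
      cw 1 q ^ (3 - (k : ℕ)))) q * rs a b (cy b z' j) q + (rs a b (cw 0) q ^ (k : ℕ) *
      rs a b (cw 1) q ^ (3 - (k : ℕ))) * vfun (U5 a b) (bd_vf a b) (rs a b (cy b z' j)) q = _
    rw [h1, h2, Pi.zero_apply, zero_mul, zero_add]
  have vZ : ∀ i j, vfun (U5 a b) (bd_vf a b) (rs a b (gf a b z z' (GI.Z i j))) =
      fun q => rs a b (bd_pi a b (Finset.univ.erase i) Finset.univ) q * rs a b (cy b z' j) q +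
        rs a b (cx a z i) q * rs a b (bd_pi a b Finset.univ (Finset.univ.erase j)) q := by
    intro i j
    refine (vfun_mul (ξ := bd_vf a b) hU (apx i) (apy j)).trans ?_
    rw [bd_cx, bd_cy]
  have hcard : ∀ i : Fin 4, (Finset.univ.erase i : Finset (Fin 4)).card = 3 := by
    intro i
    rw [Finset.card_erase_of_mem (Finset.mem_univ i)]
    simp
  obtain ⟨σ, hσ, hlnd⟩ := der_of_vf (U := U5 a b) (ξ := bd_vf a b) hU hξ
    (S := range fun g : GI => rs a b (gf a b z z' g))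
    (by
      rintro _ ⟨g, rfl⟩
      exact anu_of_restrict hU (eu_gf a b z z' g))
    (by
      rintro _ ⟨g, rfl⟩
      refine wt_mem (a := a) (b := b) (z := z) (z' := z') ?_
      cases g with
      | P k l =>
        simp only
        rw [kP]
        exact Wt.const 0
      | t =>
        simp only
        refine (congrArg (Wt a b z z' 0) bd_ct).mpr ?_
        exact bd_wt_cast (bd_wt_pi _ _) (by simp)
      | X i k =>
        simp only
        rw [vX]
        exact bd_wt_cast (Wt.mul (bd_wt_uu k) (bd_wt_pi _ _)) (by rw [hcard]; simp)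
      | Y j k =>
        simp only
        rw [vY]
        exact bd_wt_cast (Wt.mul (bd_wt_ww k) (bd_wt_pi _ _)) (by rw [hcard]; simp)
      | Z i j =>
        simp only
        rw [vZ]
        exact Wt.add (bd_wt_cast (Wt.mul (bd_wt_pi _ _) (Wt.y j)) (by rw [hcard]; simp))
          (bd_wt_cast (Wt.mul (Wt.x i) (bd_wt_pi _ _)) (by rw [hcard]; simp)))
  let σ' : Derivation ℂ (Aring a b z z') (Aring a b z z') := σ
  have hσ' : ∀ f : Aring a b z z', ((σ' f : Aring a b z z') : U5 a b → ℂ) =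
      vfun (U5 a b) (bd_vf a b) (f : U5 a b → ℂ) := hσ
  refine ⟨σ', ?_, fun k l => ?_, ?_⟩
  · refine hlnd ?_
    rintro _ ⟨g, rfl⟩
    have hg := anu_of_restrict hU (eu_gf a b z z' g)
    cases g with
    | P k l => exact ⟨hg, 1, kP k l⟩
    | t => exact nilv_of_vfun hg ((congrArg (NilV (U5 a b) (bd_vf a b)) bd_ct).mpr (npi _ _))
    | X i k =>
      exact nilv_mul hU hξ ⟨anu_of_restrict hU (anu_u k), 1, ku k⟩ (nx i)
    | Y j k =>
      exact nilv_mul hU hξ ⟨anu_of_restrict hU (anu_w k), 1, kw k⟩ (ny j)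
    | Z i j => exact nilv_mul hU hξ (nx i) (ny j)
  · apply Subtype.ext
    rw [hσ']
    exact kP k l
  · rw [hσ']
    exact bd_ct

end Pool.Agent.H43.FX
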