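import Mathlib

/-!
# FX-BEZ : explicit Bezout identities

Proof for `a = (1, -1, 2, -2)`.  `C i = c₀ X₁² + c₁ X₀X₁ + c₂ X₀²` with
`k = 1` (target `X₁^11`): `(c₀,c₁,c₂)` =
`i=0: (-1/81, 23/1296, -13/1296)`, `i=1: (1/81, 23/1296, 13/1296)`,
`i=2: (47/1296, -683/20736, 313/41472)`, `i=3: (-47/1296, -683/20736, -313/41472)`;
`k = 0` (target `X₀^11`): `i=0: (-313/1296, 683/1296, -47/162)`,
`i=1: (-313/1296, -683/1296, -47/162)`, `i=2: (208/81, -184/81, 64/81)`,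
`i=3: (208/81, 184/81, 64/81)`.
The identity is checked by `ring` after clearing denominators (e.g. prove it for an arbitrary
commutative `ℂ`- or `ℚ`-algebra elements `X₀, X₁`, with `algebraMap` of rationals; or multiply
by `41472` and use integer coefficients).
-/

namespace Pool.Agent.H43.FX

open MvPolynomial

/-- Bezout data: `∑ C_i ∏_{l ≠ i} ℓ_l³ = u_k^{11}`, `C_i` homogeneous of degree 2. -/
def HasBez (a : Fin 4 → ℂ) : Prop :=
  ∀ k : Fin 2, ∃ c : Fin 4 → MvPolynomial (Fin 2) ℂ, (∀ i, (c i).IsHomogeneous 2) ∧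
    ∑ i, c i * ∏ l ∈ Finset.univ.erase i,
      (X 0 - MvPolynomial.C (a l) * X 1 : MvPolynomial (Fin 2) ℂ) ^ 3 = X k ^ 11

/-- The quadratic form `C d * (c₀ X₁² + c₁ X₀ X₁ + c₂ X₀²)`. -/
private noncomputable def qf (d c₀ c₁ c₂ : ℂ) : MvPolynomial (Fin 2) ℂ :=
  MvPolynomial.C d * (MvPolynomial.C c₀ * (X 1 * X 1) + MvPolynomial.C c₁ * (X 0 * X 1) +
    MvPolynomial.C c₂ * (X 0 * X 0))

private lemma qf_hom (d c₀ c₁ c₂ : ℂ) : (qf d c₀ c₁ c₂).IsHomogeneous 2 := by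
  have hX : ∀ i : Fin 2, (X i : MvPolynomial (Fin 2) ℂ).IsHomogeneous 1 := fun i =>
    MvPolynomial.isHomogeneous_X ℂ i
  have hXX : ∀ i j : Fin 2, (X i * X j : MvPolynomial (Fin 2) ℂ).IsHomogeneous 2 := fun i j =>
    (hX i).mul (hX j)
  unfold qf
  exact IsHomogeneous.C_mul (((IsHomogeneous.C_mul (hXX 1 1) _).add
    (IsHomogeneous.C_mul (hXX 0 1) _)).add (IsHomogeneous.C_mul (hXX 0 0) _)) _

private lemma erase0 : (Finset.univ : Finset (Fin 4)).erase 0 = {1, 2, 3} := by decide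
private lemma erase1 : (Finset.univ : Finset (Fin 4)).erase 1 = {0, 2, 3} := by decide
private lemma erase2 : (Finset.univ : Finset (Fin 4)).erase 2 = {0, 1, 3} := by decide
private lemma erase3 : (Finset.univ : Finset (Fin 4)).erase 3 = {0, 1, 2} := by decide

private lemma bez_int_one {R : Type*} [CommRing R] (x y : R) :
    (-512 * (y * y) + 736 * (x * y) + -416 * (x * x)) *
        ((x - (-1) * y) ^ 3 * ((x - 2 * y) ^ 3 * (x - (-2) * y) ^ 3)) +
      (512 * (y * y) + 736 * (x * y) + 416 * (x * x)) *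
        ((x - 1 * y) ^ 3 * ((x - 2 * y) ^ 3 * (x - (-2) * y) ^ 3)) +
      (1504 * (y * y) + -1366 * (x * y) + 313 * (x * x)) *
        ((x - 1 * y) ^ 3 * ((x - (-1) * y) ^ 3 * (x - (-2) * y) ^ 3)) +
      (-1504 * (y * y) + -1366 * (x * y) + -313 * (x * x)) *
        ((x - 1 * y) ^ 3 * ((x - (-1) * y) ^ 3 * (x - 2 * y) ^ 3)) = 41472 * y ^ 11 := by
  ring

private lemma bez_int_zero {R : Type*} [CommRing R] (x y : R) :
    (-10016 * (y * y) + 21856 * (x * y) + -12032 * (x * x)) *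
        ((x - (-1) * y) ^ 3 * ((x - 2 * y) ^ 3 * (x - (-2) * y) ^ 3)) +
      (-10016 * (y * y) + -21856 * (x * y) + -12032 * (x * x)) *
        ((x - 1 * y) ^ 3 * ((x - 2 * y) ^ 3 * (x - (-2) * y) ^ 3)) +
      (106496 * (y * y) + -94208 * (x * y) + 32768 * (x * x)) *
        ((x - 1 * y) ^ 3 * ((x - (-1) * y) ^ 3 * (x - (-2) * y) ^ 3)) +
      (106496 * (y * y) + 94208 * (x * y) + 32768 * (x * x)) *
        ((x - 1 * y) ^ 3 * ((x - (-1) * y) ^ 3 * (x - 2 * y) ^ 3)) = 41472 * x ^ 11 := by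
  ring

theorem hasBez : HasBez ![1, -1, 2, -2] := by
  have hC : ∀ P : MvPolynomial (Fin 2) ℂ,
      MvPolynomial.C (1 / 41472 : ℂ) * (41472 * P) = P := by
    intro P
    have h : (41472 : MvPolynomial (Fin 2) ℂ) = MvPolynomial.C (41472 : ℂ) :=
      (map_ofNat (MvPolynomial.C : ℂ →+* MvPolynomial (Fin 2) ℂ) 41472).symm
    rw [h, ← mul_assoc, ← MvPolynomial.C_mul]
    norm_num
  have hN : ∀ n : ℕ, ∀ _ : n.AtLeastTwo, MvPolynomial.C (OfNat.ofNat n : ℂ) =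
      (OfNat.ofNat n : MvPolynomial (Fin 2) ℂ) := fun n _ =>
    map_ofNat (MvPolynomial.C : ℂ →+* MvPolynomial (Fin 2) ℂ) n
  intro k
  fin_cases k
  · refine ⟨![qf (1 / 41472) (-10016) 21856 (-12032), qf (1 / 41472) (-10016) (-21856) (-12032),
      qf (1 / 41472) 106496 (-94208) 32768, qf (1 / 41472) 106496 94208 32768], ?_, ?_⟩
    · intro i
      fin_cases i <;> exact qf_hom _ _ _ _
    · rw [Fin.sum_univ_four, erase0, erase1, erase2, erase3]
      refine Eq.trans ?_ (hC (X 0 ^ 11))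
      rw [← bez_int_zero (X 0 : MvPolynomial (Fin 2) ℂ) (X 1)]
      simp [qf, hN 2 ⟨by norm_num⟩, hN 10016 ⟨by norm_num⟩, hN 21856 ⟨by norm_num⟩, hN 12032 ⟨by norm_num⟩, hN 106496 ⟨by norm_num⟩, hN 94208 ⟨by norm_num⟩, hN 32768 ⟨by norm_num⟩]
      ring
  · refine ⟨![qf (1 / 41472) (-512) 736 (-416), qf (1 / 41472) 512 736 416,
      qf (1 / 41472) 1504 (-1366) 313, qf (1 / 41472) (-1504) (-1366) (-313)], ?_, ?_⟩
    · intro i
      fin_cases i <;> exact qf_hom _ _ _ _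
    · rw [Fin.sum_univ_four, erase0, erase1, erase2, erase3]
      refine Eq.trans ?_ (hC (X 1 ^ 11))
      rw [← bez_int_one (X 0 : MvPolynomial (Fin 2) ℂ) (X 1)]
      simp [qf, hN 2 ⟨by norm_num⟩, hN 512 ⟨by norm_num⟩, hN 736 ⟨by norm_num⟩, hN 416 ⟨by norm_num⟩, hN 1504 ⟨by norm_num⟩, hN 1366 ⟨by norm_num⟩, hN 313 ⟨by norm_num⟩]
      ring

end Pool.Agent.H43.FX
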