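import Pool.Agent.H43.FX.Grade

/-!
# FX-CHAIN : derivations of the ring in gauge coordinates

`res_analytic` : `D4 a b` is open, and `res a b f` agrees on it with a polynomial expression in
analytic functions: `adjoin_induction` (or `grade` + `aa_rep` + `rvw_analytic`: a finite sum of
`κ^k φ_k(v,ω,t)`).

`chain` : Let `κ = res (ge (P 1 1))`, `κv = res (ge (P 0 1))`, `κω = res (ge (P 1 0))`.
Define the functions on `D4`: `D = res(V(P 1 1))/κ`, `V₁ = (res(V(P 0 1)) - v res(V(P 1 1)))/κ`,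
`W₁ = (res(V(P 1 0)) - ω res(V (P 1 1)))/κ`, `C = res(V t)`.  By `grade` (and `aa_rep` for the
coefficients) they are Laurent sums in `κ` (shift the index by one for the division by `κ`;
take a common `N`, putting `c k = 0` outside the range) with coefficients in
`Rvw (range a) (range b)`.
For fixed `x ∈ D4` consider the two maps `Aring → ℂ`: `D₁ f = res (V f) x`,
`D₂ f = fderiv (res f) x (κD, V₁, W₁, C)`.  Both are additive, `ℂ`-linear and satisfy
`D(fg) = D(f) g(x) + f(x) D(g)` (`res` is multiplicative and differentiable on `D4`).  The set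
of `f` with `D₁ f = D₂ f` is a subalgebra; it contains `P 1 1, P 0 1, P 1 0, t` by the choice
of the coefficients; and if `g f = h` with `g, h` in it and `g(x) ≠ 0` then `f` is in it.
Relations in `Aring` (as functions on `U5`, `rs`/`gf`), with `κ ≠ 0`, `v ≠ a_i`, `ω ≠ b_j`:
`P11 · P00 = P01 · P10`; `(P01 - a_i P11)³ X i k = P01^k P11^{3-k} (t - z_i)`;
`(P10 - b_j P11)³ Y j k = P10^k P11^{3-k} (t - z'_j)`; `P11³ Z i j = X i 0 · Y j 0`.
(`P01 - a_i P11 = ℓ_i w₂`, `P10 - b_j P11 = u₂ m_j`; for `Z`: `u₂³w₂³ x_i y_j =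
(u₂³ x_i)(w₂³ y_j)`.)  So all generators are in the set.
-/

namespace Pool.Agent.H43.FX

open Set Metric Filter Topology

variable {a b z z' : Fin 4 → ℂ}

theorem isOpen_D3 (a b : Fin 4 → ℂ) : IsOpen (D3 a b) := by
  have h1 : IsOpen {p : ℂ × ℂ × ℂ | p.1 ∉ range a} :=
    (finite_range a).isClosed.isOpen_compl.preimage continuous_fst
  have h2 : IsOpen {p : ℂ × ℂ × ℂ | p.2.1 ∉ range b} :=
    (finite_range b).isClosed.isOpen_compl.preimage (continuous_fst.comp continuous_snd)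
  exact h1.inter h2

theorem isOpen_D4 (a b : Fin 4 → ℂ) : IsOpen (D4 a b) := by
  have h1 : IsOpen {x : ℂ × ℂ × ℂ × ℂ | x.1 ≠ 0} :=
    isOpen_compl_singleton.preimage continuous_fst
  exact h1.inter ((isOpen_D3 a b).preimage continuous_snd)

/-! ### Laurent functions of `κ` -/

private theorem lau_analytic {N : ℕ} {c : ℤ → ℂ × ℂ × ℂ → ℂ}
    (hc : ∀ k, c k ∈ Rvw (range a) (range b)) {x : ℂ × ℂ × ℂ × ℂ} (hx : x ∈ D4 a b) :
    AnalyticAt ℂ (lau N c) x := by
  have h2 : AnalyticAt ℂ (fun y : ℂ × ℂ × ℂ × ℂ => y.2) x := analyticAt_snd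
  have h1 : AnalyticAt ℂ (fun y : ℂ × ℂ × ℂ × ℂ => y.1) x := analyticAt_fst
  have : AnalyticAt ℂ (fun y => ∑ k ∈ Finset.Icc (-(N : ℤ)) (N : ℤ), y.1 ^ k * c k y.2) x := by
    refine Finset.analyticAt_fun_sum _ fun k _ => ?_
    refine (h1.fun_zpow hx.1).mul ?_
    have h3 : AnalyticAt ℂ (c k) x.2 := by
      have := rvw_analytic (hc k) (v := x.2.1) (ω := x.2.2.1) (t := x.2.2.2) hx.2.1 hx.2.2
      simpa using this
    exact h3.comp h2
  exact this

private theorem lau_mono {N₀ N : ℕ} {c : ℤ → ℂ × ℂ × ℂ → ℂ}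
    (hs : ∀ k : ℤ, (N₀ : ℤ) < |k| → c k = 0) (h : N₀ ≤ N) (x : ℂ × ℂ × ℂ × ℂ) :
    lau N c x = lau N₀ c x := by
  unfold lau
  symm
  refine Finset.sum_subset ?_ ?_
  · intro k hk
    rw [Finset.mem_Icc] at hk ⊢
    omega
  · intro k _ hk
    rw [Finset.mem_Icc, not_and_or] at hk
    have : (N₀ : ℤ) < |k| := by
      rcases hk with hk | hk
      · have := neg_le_abs k; omega
      · have := le_abs_self k; omega
    rw [hs k this]
    simp

/-- Laurent functions. -/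
private def LL (a b : Fin 4 → ℂ) (F : ℂ × ℂ × ℂ × ℂ → ℂ) : Prop :=
  ∃ (N₀ : ℕ) (c : ℤ → ℂ × ℂ × ℂ → ℂ), (∀ k, c k ∈ Rvw (range a) (range b)) ∧
    (∀ k : ℤ, (N₀ : ℤ) < |k| → c k = 0) ∧ ∀ x ∈ D4 a b, F x = lau N₀ c x

private theorem LL.spec {F : ℂ × ℂ × ℂ × ℂ → ℂ} (h : LL a b F) :
    ∃ (N₀ : ℕ) (c : ℤ → ℂ × ℂ × ℂ → ℂ), (∀ k, c k ∈ Rvw (range a) (range b)) ∧
    ∀ N ≥ N₀, ∀ x ∈ D4 a b, F x = lau N c x := by
  obtain ⟨N₀, c, h1, h2, h3⟩ := h
  exact ⟨N₀, c, h1, fun N hN x hx => by rw [h3 x hx, lau_mono h2 hN]⟩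

private theorem LL_res (f : Aring a b z z') : LL a b (res a b (f : U5 a b → ℂ)) := by
  obtain ⟨N, φ, h1, h2⟩ := grade f
  choose φ' hm hφ using fun k => aa_rep (h1 k)
  refine ⟨N, fun k => if (N : ℤ) < |k| then 0 else φ' k, fun k => ?_, fun k hk => if_pos hk,
    fun x hx => ?_⟩
  · by_cases h : (N : ℤ) < |k|
    · simp only [if_pos h]; exact zero_mem _
    · simp only [if_neg h]; exact hm k
  · rw [h2 x hx]
    unfold lau
    refine Finset.sum_congr rfl fun k hk => ?_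
    rw [Finset.mem_Icc, ← abs_le] at hk
    simp only [if_neg (not_lt.mpr hk)]
    rw [hφ k hx.2]

private theorem LL_sub {F G : ℂ × ℂ × ℂ × ℂ → ℂ} (hF : LL a b F) (hG : LL a b G) :
    LL a b (fun x => F x - G x) := by
  obtain ⟨N, c, h1, h2, h3⟩ := hF
  obtain ⟨N', c', h1', h2', h3'⟩ := hG
  refine ⟨max N N', fun k => c k - c' k, fun k => sub_mem (h1 k) (h1' k), fun k hk => ?_,
    fun x hx => ?_⟩
  · have e1 : ((N : ℕ) : ℤ) ≤ ((max N N' : ℕ) : ℤ) := by exact_mod_cast le_max_left _ _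
    have e2 : ((N' : ℕ) : ℤ) ≤ ((max N N' : ℕ) : ℤ) := by exact_mod_cast le_max_right _ _
    beta_reduce
    rw [h2 k (by omega), h2' k (by omega), sub_zero]
  · beta_reduce
    rw [h3 x hx, h3' x hx, ← lau_mono h2 (le_max_left N N'), ← lau_mono h2' (le_max_right N N')]
    unfold lau
    rw [← Finset.sum_sub_distrib]
    refine Finset.sum_congr rfl fun k _ => ?_
    simp only [Pi.sub_apply]
    ring

private theorem LL_mulR {F : ℂ × ℂ × ℂ × ℂ → ℂ} (hF : LL a b F) {r : ℂ × ℂ × ℂ → ℂ}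
    (hr : r ∈ Rvw (range a) (range b)) : LL a b (fun x => r x.2 * F x) := by
  obtain ⟨N, c, h1, h2, h3⟩ := hF
  refine ⟨N, fun k => r * c k, fun k => mul_mem hr (h1 k), fun k hk => by simp [h2 k hk],
    fun x hx => ?_⟩
  beta_reduce
  rw [h3 x hx]
  unfold lau
  rw [Finset.mul_sum]
  refine Finset.sum_congr rfl fun k _ => ?_
  simp only [Pi.mul_apply]
  ring

private theorem LL_div {F : ℂ × ℂ × ℂ × ℂ → ℂ} (hF : LL a b F) :
    LL a b (fun x => F x / x.1) := by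
  obtain ⟨N, c, h1, h2, h3⟩ := hF
  refine ⟨N + 1, fun k => c (k + 1), fun k => h1 _, fun k hk => h2 _ ?_, fun x hx => ?_⟩
  · push_cast at hk
    have h : |k| ≤ |k + 1| + 1 := by
      have := abs_sub (k + 1) 1
      simpa using this
    omega
  · beta_reduce
    rw [h3 x hx]
    have hx0 : x.1 ≠ 0 := hx.1
    unfold lau
    have e := Finset.map_add_right_Icc (-((N + 1 : ℕ) : ℤ)) ((N + 1 : ℕ) : ℤ) 1
    have e2 : ∑ k ∈ Finset.Icc (-((N + 1 : ℕ) : ℤ)) ((N + 1 : ℕ) : ℤ), x.1 ^ k * c (k + 1) x.2 =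
        ∑ k ∈ Finset.Icc (-((N + 1 : ℕ) : ℤ) + 1) (((N + 1 : ℕ) : ℤ) + 1),
          x.1 ^ (k - 1) * c k x.2 := by
      rw [← e, Finset.sum_map]
      refine Finset.sum_congr rfl fun k _ => ?_
      simp only [addRightEmbedding_apply, add_sub_cancel_right]
    rw [e2, Finset.sum_div]
    have e3 : ∑ k ∈ Finset.Icc (-(N : ℤ)) (N : ℤ), x.1 ^ k * c k x.2 / x.1 =
        ∑ k ∈ Finset.Icc (-((N + 1 : ℕ) : ℤ) + 1) (((N + 1 : ℕ) : ℤ) + 1),
          x.1 ^ k * c k x.2 / x.1 := by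
      refine Finset.sum_subset ?_ ?_
      · intro k hk
        rw [Finset.mem_Icc] at hk ⊢
        push_cast
        omega
      · intro k _ hk
        rw [Finset.mem_Icc, not_and_or] at hk
        have : (N : ℤ) < |k| := by
          rcases hk with hk | hk
          · have := neg_le_abs k; omega
          · have := le_abs_self k; omega
        rw [h2 k this]
        simp
    rw [e3]
    refine Finset.sum_congr rfl fun k _ => ?_
    rw [zpow_sub_one₀ hx0]
    ring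

theorem res_analytic (f : Aring a b z z') :
    AnalyticOnNhd ℂ (res a b (f : U5 a b → ℂ)) (D4 a b) := by
  intro x hx
  obtain ⟨N, c, h1, h2⟩ := (LL_res f).spec
  refine (lau_analytic (N := N) h1 hx).congr ?_
  filter_upwards [(isOpen_D4 a b).mem_nhds hx] with y hy
  exact (h2 N le_rfl y hy).symm

/-! ### the values at a point -/

private theorem res_ev (f : Aring a b z z') {x : ℂ × ℂ × ℂ × ℂ} (hx : x ∈ D4 a b) :
    res a b (f : U5 a b → ℂ) x = evA a b z z' ⟨pt5 x, pt5_mem hx⟩ f := by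
  rw [res_eq _ hx, evA_apply]

private theorem res_coe_add (f g : Aring a b z z') :
    res a b ((f + g : Aring a b z z') : U5 a b → ℂ) =
      fun x => res a b (f : U5 a b → ℂ) x + res a b (g : U5 a b → ℂ) x := by
  funext x
  simp only [res, ex]
  split_ifs
  · rfl
  · simp

private theorem res_coe_mul (f g : Aring a b z z') :
    res a b ((f * g : Aring a b z z') : U5 a b → ℂ) =
      fun x => res a b (f : U5 a b → ℂ) x * res a b (g : U5 a b → ℂ) x := by
  funext x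
  simp only [res, ex]
  split_ifs
  · rfl
  · simp

/-- the comparison of the two derivations at a point -/
private def Sx (V : Derivation ℂ (Aring a b z z') (Aring a b z z')) (x : ℂ × ℂ × ℂ × ℂ)
    (v : ℂ × ℂ × ℂ × ℂ) (f : Aring a b z z') : Prop :=
  res a b (V f : U5 a b → ℂ) x = fderiv ℂ (res a b (f : U5 a b → ℂ)) x v

section
variable {V : Derivation ℂ (Aring a b z z') (Aring a b z z')} {x : ℂ × ℂ × ℂ × ℂ}
  {v : ℂ × ℂ × ℂ × ℂ} {f g : Aring a b z z'}

private theorem res_diff (f : Aring a b z z') (hx : x ∈ D4 a b) :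
    DifferentiableAt ℂ (res a b (f : U5 a b → ℂ)) x := (res_analytic f x hx).differentiableAt

private theorem Sx_alg (hx : x ∈ D4 a b) (r : ℂ) : Sx V x v (algebraMap ℂ _ r) := by
  unfold Sx
  rw [Derivation.map_algebraMap, res_ev _ hx, map_zero]
  have : res a b ((algebraMap ℂ (Aring a b z z') r : Aring a b z z') : U5 a b → ℂ) =ᶠ[𝓝 x]
      fun _ => r := by
    filter_upwards [(isOpen_D4 a b).mem_nhds hx] with y hy
    rw [res_ev _ hy, AlgHom.commutes]
    rfl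
  rw [this.fderiv_eq]
  simp

private theorem Sx_add (hx : x ∈ D4 a b) (hf : Sx V x v f) (hg : Sx V x v g) :
    Sx V x v (f + g) := by
  unfold Sx at *
  rw [map_add, res_ev _ hx, map_add, ← res_ev _ hx, ← res_ev _ hx, hf, hg, res_coe_add,
    fderiv_fun_add (res_diff f hx) (res_diff g hx)]
  rfl

private theorem Sx_left (hx : x ∈ D4 a b) (f g : Aring a b z z') :
    res a b (V (f * g) : U5 a b → ℂ) x =
      res a b (f : U5 a b → ℂ) x * res a b (V g : U5 a b → ℂ) x +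
      res a b (g : U5 a b → ℂ) x * res a b (V f : U5 a b → ℂ) x := by
  rw [Derivation.leibniz, smul_eq_mul, smul_eq_mul, res_ev _ hx, map_add, map_mul, map_mul,
    ← res_ev _ hx, ← res_ev _ hx, ← res_ev _ hx, ← res_ev _ hx]

private theorem Sx_right (hx : x ∈ D4 a b) (f g : Aring a b z z') :
    fderiv ℂ (res a b ((f * g : Aring a b z z') : U5 a b → ℂ)) x v =
      res a b (f : U5 a b → ℂ) x * fderiv ℂ (res a b (g : U5 a b → ℂ)) x v +
      res a b (g : U5 a b → ℂ) x * fderiv ℂ (res a b (f : U5 a b → ℂ)) x v := by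
  rw [res_coe_mul, fderiv_fun_mul (res_diff f hx) (res_diff g hx)]
  simp

private theorem Sx_mul (hx : x ∈ D4 a b) (hf : Sx V x v f) (hg : Sx V x v g) :
    Sx V x v (f * g) := by
  unfold Sx at *
  rw [Sx_left hx, Sx_right hx, hf, hg]

private theorem Sx_pow (hx : x ∈ D4 a b) (hf : Sx V x v f) (n : ℕ) : Sx V x v (f ^ n) := by
  induction n with
  | zero =>
    have := Sx_alg (V := V) (v := v) hx 1
    rw [map_one] at this
    rw [pow_zero]
    exact this
  | succ n ih =>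
    rw [pow_succ]
    exact Sx_mul hx ih hf

private theorem Sx_smul (hx : x ∈ D4 a b) (hf : Sx V x v f) (r : ℂ) : Sx V x v (r • f) := by
  rw [Algebra.smul_def]
  exact Sx_mul hx (Sx_alg hx r) hf

private theorem Sx_div (hx : x ∈ D4 a b) (hg : Sx V x v g) (hgf : Sx V x v (g * f))
    (h0 : res a b (g : U5 a b → ℂ) x ≠ 0) : Sx V x v f := by
  unfold Sx at *
  rw [Sx_left hx, Sx_right hx, hg] at hgf
  have := add_right_cancel hgf
  exact mul_left_cancel₀ h0 this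

end

private theorem coe_ge (g : GI) (q : U5 a b) :
    ((ge a b z z' g : Aring a b z z') : U5 a b → ℂ) q = gf a b z z' g q.1 := rfl

private theorem rel_P : ge a b z z' (GI.P 1 1) * ge a b z z' (GI.P 0 0) =
    ge a b z z' (GI.P 0 1) * ge a b z z' (GI.P 1 0) := by
  refine Subtype.ext (funext fun q => ?_)
  simp only [MulMemClass.coe_mul, Pi.mul_apply, coe_ge, gf, cu, cw]
  simp
  ring

private theorem rel_X (i k : Fin 4) :
    (ge a b z z' (GI.P 0 1) + (-(a i)) • ge a b z z' (GI.P 1 1)) ^ 3 * ge a b z z' (GI.X i k) =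
    ge a b z z' (GI.P 0 1) ^ (k : ℕ) * ge a b z z' (GI.P 1 1) ^ (3 - (k : ℕ)) *
      (ge a b z z' GI.t + algebraMap ℂ _ (-(z i))) := by
  refine Subtype.ext (funext fun q => ?_)
  have hq : lf a i q.1 ≠ 0 := q.2.1 i
  have hk : (k : ℕ) + (3 - (k : ℕ)) = 3 := by omega
  simp only [MulMemClass.coe_mul, SubmonoidClass.coe_pow, AddMemClass.coe_add, Pi.mul_apply,
    Pi.pow_apply, Pi.add_apply, SetLike.val_smul, Pi.smul_apply, smul_eq_mul,
    coe_ge, gf, Subalgebra.coe_algebraMap, Pi.algebraMap_apply, Algebra.algebraMap_self,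
    RingHom.id_apply, cx]
  have e1 : cu 0 q.1 * cw 1 q.1 + -a i * (cu 1 q.1 * cw 1 q.1) = lf a i q.1 * cw 1 q.1 := by
    simp only [cu, lf]
    simp
    ring
  rw [e1, mul_pow, mul_pow, mul_pow]
  have e2 : cw 1 q.1 ^ 3 = cw 1 q.1 ^ (k : ℕ) * cw 1 q.1 ^ (3 - (k : ℕ)) := by
    rw [← pow_add, hk]
  rw [e2]
  field_simp
  ring

private theorem rel_Y (j k : Fin 4) :
    (ge a b z z' (GI.P 1 0) + (-(b j)) • ge a b z z' (GI.P 1 1)) ^ 3 * ge a b z z' (GI.Y j k) =
    ge a b z z' (GI.P 1 0) ^ (k : ℕ) * ge a b z z' (GI.P 1 1) ^ (3 - (k : ℕ)) *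
      (ge a b z z' GI.t + algebraMap ℂ _ (-(z' j))) := by
  refine Subtype.ext (funext fun q => ?_)
  have hq : mf b j q.1 ≠ 0 := q.2.2 j
  have hk : (k : ℕ) + (3 - (k : ℕ)) = 3 := by omega
  simp only [MulMemClass.coe_mul, SubmonoidClass.coe_pow, AddMemClass.coe_add, Pi.mul_apply,
    Pi.pow_apply, Pi.add_apply, SetLike.val_smul, Pi.smul_apply, smul_eq_mul,
    coe_ge, gf, Subalgebra.coe_algebraMap, Pi.algebraMap_apply, Algebra.algebraMap_self,
    RingHom.id_apply, cy]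
  have e1 : cu 1 q.1 * cw 0 q.1 + -b j * (cu 1 q.1 * cw 1 q.1) = mf b j q.1 * cu 1 q.1 := by
    simp only [cw, mf]
    simp
    ring
  rw [e1, mul_pow, mul_pow, mul_pow]
  have e2 : cu 1 q.1 ^ 3 = cu 1 q.1 ^ (k : ℕ) * cu 1 q.1 ^ (3 - (k : ℕ)) := by
    rw [← pow_add, hk]
  rw [e2]
  field_simp
  ring

private theorem rel_Z (i j : Fin 4) :
    ge a b z z' (GI.P 1 1) ^ 3 * ge a b z z' (GI.Z i j) =
    ge a b z z' (GI.X i 0) * ge a b z z' (GI.Y j 0) := by
  refine Subtype.ext (funext fun q => ?_)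
  simp only [MulMemClass.coe_mul, SubmonoidClass.coe_pow, Pi.mul_apply, Pi.pow_apply, coe_ge, gf]
  simp only [Fin.val_zero, pow_zero, Nat.sub_zero, one_mul]
  ring

theorem chain (V : Derivation ℂ (Aring a b z z') (Aring a b z z')) :
    ∃ (N : ℕ) (cV cW cC cD : ℤ → ℂ × ℂ × ℂ → ℂ),
      (∀ k, cV k ∈ Rvw (range a) (range b) ∧ cW k ∈ Rvw (range a) (range b) ∧
        cC k ∈ Rvw (range a) (range b) ∧ cD k ∈ Rvw (range a) (range b)) ∧
      ∀ (f : Aring a b z z'), ∀ x ∈ D4 a b,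
        res a b (V f : U5 a b → ℂ) x = fderiv ℂ (res a b (f : U5 a b → ℂ)) x
          (x.1 * lau N cD x, lau N cV x, lau N cW x, lau N cC x) := by
  set R11 := res a b (V (ge a b z z' (GI.P 1 1)) : U5 a b → ℂ) with hR11
  set R01 := res a b (V (ge a b z z' (GI.P 0 1)) : U5 a b → ℂ) with hR01
  set R10 := res a b (V (ge a b z z' (GI.P 1 0)) : U5 a b → ℂ) with hR10
  set Rt := res a b (V (ge a b z z' GI.t) : U5 a b → ℂ) with hRt
  obtain ⟨N1, cD, mD, eD⟩ := (LL_div (LL_res (V (ge a b z z' (GI.P 1 1))))).spec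
  obtain ⟨N2, cV, mV, eV⟩ := (LL_div (LL_sub (LL_res (V (ge a b z z' (GI.P 0 1))))
    (LL_mulR (LL_res (V (ge a b z z' (GI.P 1 1)))) rvw_v))).spec
  obtain ⟨N3, cW, mW, eW⟩ := (LL_div (LL_sub (LL_res (V (ge a b z z' (GI.P 1 0))))
    (LL_mulR (LL_res (V (ge a b z z' (GI.P 1 1)))) rvw_w))).spec
  obtain ⟨N4, cC, mC, eC⟩ := (LL_res (V (ge a b z z' GI.t))).spec
  refine ⟨N1 + N2 + N3 + N4, cV, cW, cC, cD, fun k => ⟨mV k, mW k, mC k, mD k⟩,
    fun f x hx => ?_⟩
  have eD' := eD (N1 + N2 + N3 + N4) (by omega) x hx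
  have eV' := eV (N1 + N2 + N3 + N4) (by omega) x hx
  have eW' := eW (N1 + N2 + N3 + N4) (by omega) x hx
  have eC' := eC (N1 + N2 + N3 + N4) (by omega) x hx
  rw [← eD', ← eV', ← eW', ← eC']
  have hx0 : x.1 ≠ 0 := hx.1
  rw [mul_div_cancel₀ _ hx0, ← hR11, ← hR01, ← hR10, ← hRt]
  set v : ℂ × ℂ × ℂ × ℂ := (R11 x, (R01 x - x.2.1 * R11 x) / x.1,
    (R10 x - x.2.2.1 * R11 x) / x.1, Rt x) with hv
  suffices hS : Sx V x v f from hS
  have hD : ∀ᶠ y in 𝓝 x, y ∈ D4 a b := (isOpen_D4 a b).mem_nhds hx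
  have s11 : Sx V x v (ge a b z z' (GI.P 1 1)) := by
    have : res a b (ge a b z z' (GI.P 1 1) : U5 a b → ℂ) =ᶠ[𝓝 x] fun y => y.1 := by
      filter_upwards [hD] with y hy
      rw [res_eq _ hy, coe_ge]
      simp [gf, cu, cw, pt5]
    unfold Sx
    rw [this.fderiv_eq]
    have h : HasFDerivAt (fun y : ℂ × ℂ × ℂ × ℂ => y.1) _ x :=
      (ContinuousLinearMap.fst ℂ ℂ (ℂ × ℂ × ℂ)).hasFDerivAt
    rw [h.fderiv]
    rfl
  have s01 : Sx V x v (ge a b z z' (GI.P 0 1)) := by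
    have : res a b (ge a b z z' (GI.P 0 1) : U5 a b → ℂ) =ᶠ[𝓝 x] fun y => y.2.1 * y.1 := by
      filter_upwards [hD] with y hy
      rw [res_eq _ hy, coe_ge]
      simp [gf, cu, cw, pt5]
    unfold Sx
    rw [this.fderiv_eq]
    have h1 : HasFDerivAt (fun y : ℂ × ℂ × ℂ × ℂ => y.1) _ x :=
      (ContinuousLinearMap.fst ℂ ℂ (ℂ × ℂ × ℂ)).hasFDerivAt
    have h2 : HasFDerivAt (fun y : ℂ × ℂ × ℂ × ℂ => y.2.1) _ x :=
      ((ContinuousLinearMap.fst ℂ ℂ (ℂ × ℂ)).comp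
        (ContinuousLinearMap.snd ℂ ℂ (ℂ × ℂ × ℂ))).hasFDerivAt
    rw [(h2.fun_mul h1).fderiv]
    simp only [hv, ContinuousLinearMap.add_apply, ContinuousLinearMap.smul_apply,
      ContinuousLinearMap.comp_apply, ContinuousLinearMap.coe_fst', ContinuousLinearMap.coe_snd',
      smul_eq_mul, ← hR01]
    field_simp
    ring
  have s10 : Sx V x v (ge a b z z' (GI.P 1 0)) := by
    have : res a b (ge a b z z' (GI.P 1 0) : U5 a b → ℂ) =ᶠ[𝓝 x] fun y => y.2.2.1 * y.1 := by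
      filter_upwards [hD] with y hy
      rw [res_eq _ hy, coe_ge]
      simp [gf, cu, cw, pt5, mul_comm]
    unfold Sx
    rw [this.fderiv_eq]
    have h1 : HasFDerivAt (fun y : ℂ × ℂ × ℂ × ℂ => y.1) _ x :=
      (ContinuousLinearMap.fst ℂ ℂ (ℂ × ℂ × ℂ)).hasFDerivAt
    have h2 : HasFDerivAt (fun y : ℂ × ℂ × ℂ × ℂ => y.2.2.1) _ x :=
      ((ContinuousLinearMap.fst ℂ ℂ ℂ).comp ((ContinuousLinearMap.snd ℂ ℂ (ℂ × ℂ)).comp
        (ContinuousLinearMap.snd ℂ ℂ (ℂ × ℂ × ℂ)))).hasFDerivAt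
    rw [(h2.fun_mul h1).fderiv]
    simp only [hv, ContinuousLinearMap.add_apply, ContinuousLinearMap.smul_apply,
      ContinuousLinearMap.comp_apply, ContinuousLinearMap.coe_fst', ContinuousLinearMap.coe_snd',
      smul_eq_mul, ← hR10]
    field_simp
    ring
  have st : Sx V x v (ge a b z z' GI.t) := by
    have : res a b (ge a b z z' GI.t : U5 a b → ℂ) =ᶠ[𝓝 x] fun y => y.2.2.2 := by
      filter_upwards [hD] with y hy
      rw [res_eq _ hy, coe_ge]
      simp [gf, ct, pt5]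
    unfold Sx
    rw [this.fderiv_eq]
    have h2 : HasFDerivAt (fun y : ℂ × ℂ × ℂ × ℂ => y.2.2.2) _ x :=
      ((ContinuousLinearMap.snd ℂ ℂ ℂ).comp ((ContinuousLinearMap.snd ℂ ℂ (ℂ × ℂ)).comp
        (ContinuousLinearMap.snd ℂ ℂ (ℂ × ℂ × ℂ)))).hasFDerivAt
    rw [h2.fderiv]
    rfl
  have r11 : res a b (ge a b z z' (GI.P 1 1) : U5 a b → ℂ) x = x.1 := by
    rw [res_eq _ hx, coe_ge]
    simp [gf, cu, cw, pt5]
  have s00 : Sx V x v (ge a b z z' (GI.P 0 0)) := by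
    refine Sx_div hx s11 ?_ (by rw [r11]; exact hx0)
    rw [rel_P]
    exact Sx_mul hx s01 s10
  have sX : ∀ i k, Sx V x v (ge a b z z' (GI.X i k)) := by
    intro i k
    refine Sx_div hx (g := (ge a b z z' (GI.P 0 1) + (-(a i)) • ge a b z z' (GI.P 1 1)) ^ 3)
      (Sx_pow hx (Sx_add hx s01 (Sx_smul hx s11 _)) 3) ?_ ?_
    · rw [rel_X]
      exact Sx_mul hx (Sx_mul hx (Sx_pow hx s01 _) (Sx_pow hx s11 _))
        (Sx_add hx st (Sx_alg hx _))
    · rw [res_ev _ hx, map_pow, map_add, map_smul]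
      refine pow_ne_zero _ ?_
      simp only [evA_apply, coe_ge, gf, cu, cw, pt5, smul_eq_mul]
      have h1 : x.2.1 - a i ≠ 0 := fun h => hx.2.1 ⟨i, (sub_eq_zero.mp h).symm⟩
      have h2 : x.2.1 * x.1 + -a i * (1 * x.1) = (x.2.1 - a i) * x.1 := by ring
      simp only [if_true, Fin.isValue, one_ne_zero, if_false]
      rw [h2]
      exact mul_ne_zero h1 hx0
  have sY : ∀ j k, Sx V x v (ge a b z z' (GI.Y j k)) := by
    intro j k
    refine Sx_div hx (g := (ge a b z z' (GI.P 1 0) + (-(b j)) • ge a b z z' (GI.P 1 1)) ^ 3)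
      (Sx_pow hx (Sx_add hx s10 (Sx_smul hx s11 _)) 3) ?_ ?_
    · rw [rel_Y]
      exact Sx_mul hx (Sx_mul hx (Sx_pow hx s10 _) (Sx_pow hx s11 _))
        (Sx_add hx st (Sx_alg hx _))
    · rw [res_ev _ hx, map_pow, map_add, map_smul]
      refine pow_ne_zero _ ?_
      simp only [evA_apply, coe_ge, gf, cu, cw, pt5, smul_eq_mul]
      have h1 : x.2.2.1 - b j ≠ 0 := fun h => hx.2.2 ⟨j, (sub_eq_zero.mp h).symm⟩
      have h2 : 1 * (x.1 * x.2.2.1) + -b j * (1 * x.1) = (x.2.2.1 - b j) * x.1 := by ring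
      simp only [if_true, Fin.isValue, one_ne_zero, if_false]
      rw [h2]
      exact mul_ne_zero h1 hx0
  have sZ : ∀ i j, Sx V x v (ge a b z z' (GI.Z i j)) := by
    intro i j
    refine Sx_div hx (Sx_pow hx s11 3) ?_ ?_
    · rw [rel_Z]
      exact Sx_mul hx (sX i 0) (sY j 0)
    · rw [res_ev _ hx, map_pow, ← res_ev _ hx, r11]
      exact pow_ne_zero _ hx0
  have hall : ∀ g : GI, Sx V x v (ge a b z z' g) := by
    rintro (⟨k, l⟩ | _ | ⟨i, k⟩ | ⟨j, k⟩ | ⟨i, j⟩)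
    · fin_cases k <;> fin_cases l
      · exact s00
      · exact s01
      · exact s10
      · exact s11
    · exact st
    · exact sX i k
    · exact sY j k
    · exact sZ i j
  obtain ⟨f, hf⟩ := f
  induction hf using Algebra.adjoin_induction with
  | mem f hf =>
    obtain ⟨g, rfl⟩ := hf
    exact hall g
  | algebraMap r => exact Sx_alg hx r
  | add f g hf hg h1 h2 => exact Sx_add hx h1 h2
  | mul f g hf hg h1 h2 => exact Sx_mul hx h1 h2

end Pool.Agent.H43.FX
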