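import Mathlib

/-!
# MP_45192b_ag : basic definitions for the analytic part

The example: `a, b, z, z' : Fin 4 → ℂ` injective, `z i ≠ z' j`, `a i ≠ 0`, `b j ≠ 0`.
`u, w ∈ ℂ²`, `t ∈ ℂ`, `ℓ_i = u₁ - a_i u₂`, `m_j = w₁ - b_j w₂`, `x_i = (t - z_i)/ℓ_i³`,
`y_j = (t - z'_j)/m_j³`; the ring is the part of weight `0` (`u ↦ λu`, `w ↦ λ⁻¹w`) of
`ℂ[u,w,t,x_i,y_j]`.  Gauge coordinates: `u = (v,1)`, `w = (κω, κ)`, so that points are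
`(κ; v, ω, t)`.
-/

namespace Pool.Agent.H43.FX

open Set Metric Filter Topology

section Seq

variable {E : Type*} [NormedAddCommGroup E] [NormedSpace ℂ E]

/-- Locally uniformly entire sequences of (unnormalised) Taylor coefficients:
`∑ φ_m(p) s^m / m!` is entire in `s`, locally uniformly in `p ∈ U`. -/
def LUE (U : Set E) (φ : ℕ → E → ℂ) : Prop :=
  ∀ K : Set E, K ⊆ U → IsCompact K → ∀ R : ℝ, 0 < R →
    ∃ M : ℝ, ∀ m : ℕ, ∀ p ∈ K, ‖φ m p‖ * R ^ m ≤ M * (m.factorial : ℝ)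

/-- The iterates `f_{m+1} = ξ f_m + (S + m T) f_m`.  Along the flow `γ' = M ξ(γ)`,
`M' = M² T(γ)`, `σ' = σ M S(γ)` one has `∑ f_m(p) s^m / m! = σ(s) f(γ(s))`. -/
noncomputable def sq (ξ : E → E) (S T f : E → ℂ) : ℕ → E → ℂ
  | 0 => f
  | m + 1 => fun p =>
      fderiv ℂ (sq ξ S T f m) p (ξ p) + (S p + (m : ℂ) * T p) * sq ξ S T f m p

/-- `u` is a germ of holomorphic function at `0` with Taylor coefficients `sq ξ S T f m p`. -/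
def Jet (ξ : E → E) (S T : E → ℂ) (p : E) (f : E → ℂ) (u : ℂ → ℂ) : Prop :=
  AnalyticAt ℂ u 0 ∧ ∀ m : ℕ, iteratedDeriv m u 0 = sq ξ S T f m p

end Seq

/-- Sequences `c` such that `∑ c_m s^m / m!` is entire. -/
def EntSeq (c : ℕ → ℂ) : Prop :=
  ∀ R : ℝ, 0 < R → ∃ M : ℝ, ∀ m : ℕ, ‖c m‖ * R ^ m ≤ M * (m.factorial : ℝ)

/-- The exponential generating function. -/
noncomputable def gen (c : ℕ → ℂ) (s : ℂ) : ℂ := ∑' m : ℕ, c m * s ^ m / (m.factorial : ℂ)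

/-- `e^{h c s} u(s)` is a holomorphic function of `e^{cs}`, on the disc of radius 2. -/
def ExpEnd (c : ℂ) (h : ℕ) (u : ℂ → ℂ) : Prop :=
  ∃ g : ℂ → ℂ, DifferentiableOn ℂ g (ball 0 2) ∧
    ∀ᶠ s in 𝓝 (0 : ℂ), Complex.exp (h * (c * s)) * u s = g (Complex.exp (c * s))

/-- Same as `ExpEnd`, with nonzero leading coefficient. -/
def ExpEndS (c : ℂ) (h : ℕ) (u : ℂ → ℂ) : Prop :=
  ∃ g : ℂ → ℂ, DifferentiableOn ℂ g (ball 0 2) ∧ g 0 ≠ 0 ∧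
    ∀ᶠ s in 𝓝 (0 : ℂ), Complex.exp (h * (c * s)) * u s = g (Complex.exp (c * s))

/-! ### Classes of rational functions -/

/-- Functions on `ℂ × E` generated by the first coordinate `x`, the functions `1/(x - c)`
(`c ∈ P`) and the functions `k(y)`, `k ∈ 𝒦`. -/
noncomputable def RatX {E : Type*} (P : Set ℂ) (𝒦 : Subalgebra ℂ (E → ℂ)) :
    Subalgebra ℂ (ℂ × E → ℂ) :=
  Algebra.adjoin ℂ (({fun p => p.1} ∪ {f | ∃ c ∈ P, f = fun p => (p.1 - c)⁻¹}) ∪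
    {f | ∃ k ∈ 𝒦, f = fun p => k p.2})

/-- Polynomial functions of one variable `t`. -/
noncomputable def Kt : Subalgebra ℂ (ℂ → ℂ) := Algebra.adjoin ℂ {fun t => t}

/-- Functions of `(ω, t)`. -/
noncomputable def Rw (Q : Set ℂ) : Subalgebra ℂ (ℂ × ℂ → ℂ) := RatX Q Kt

/-- Functions of `(v, ω, t)`. -/
noncomputable def Rvw (P Q : Set ℂ) : Subalgebra ℂ (ℂ × ℂ × ℂ → ℂ) := RatX P (Rw Q)

variable (a b z z' : Fin 4 → ℂ)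

/-- The domain of the coordinates `(v, ω, t)`. -/
def D3 : Set (ℂ × ℂ × ℂ) := {p | p.1 ∉ range a ∧ p.2.1 ∉ range b}

/-- The domain of the coordinates `(ω, t)`. -/
def D2 : Set (ℂ × ℂ) := {p | p.1 ∉ range b}

/-- `AA a b z z' k φ`: the function `κ^k φ(v, ω, t)` belongs to the ring (in gauge coordinates). -/
inductive AA : ℤ → (ℂ × ℂ × ℂ → ℂ) → Prop
  | const (c : ℂ) : AA 0 (fun _ => c)
  | kap : AA 1 (fun _ => 1)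
  | kapv : AA 1 (fun p => p.1)
  | kapw : AA 1 (fun p => p.2.1)
  | kapvw : AA 1 (fun p => p.1 * p.2.1)
  | t : AA 0 (fun p => p.2.2)
  | X (i k : Fin 4) : AA 0 (fun p => p.1 ^ (k : ℕ) * ((p.2.2 - z i) / (p.1 - a i) ^ 3))
  | Y (j k : Fin 4) : AA 0 (fun p => p.2.1 ^ (k : ℕ) * ((p.2.2 - z' j) / (p.2.1 - b j) ^ 3))
  | Z (i j : Fin 4) : AA (-3) (fun p => (p.2.2 - z i) / (p.1 - a i) ^ 3 *
      ((p.2.2 - z' j) / (p.2.1 - b j) ^ 3))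
  | add {k : ℤ} {f g : ℂ × ℂ × ℂ → ℂ} : AA k f → AA k g → AA k (fun p => f p + g p)
  | mul {k l : ℤ} {f g : ℂ × ℂ × ℂ → ℂ} : AA k f → AA l g → AA (k + l) (fun p => f p * g p)
  | congr {k : ℤ} {f g : ℂ × ℂ × ℂ → ℂ} : AA k f → EqOn f g (D3 a b) → AA k g

/-- A complete homogeneous vector field of negative degree `-d` in gauge coordinates:
`L_k φ = V ∂_v φ + W ∂_ω φ + C ∂_t φ + k D φ`. -/
structure NegField (d : ℕ) (V W C D : ℂ × ℂ × ℂ → ℂ) : Prop where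
  hd : 1 ≤ d
  mV : V ∈ Rvw (range a) (range b)
  mW : W ∈ Rvw (range a) (range b)
  mC : C ∈ Rvw (range a) (range b)
  mD : D ∈ Rvw (range a) (range b)
  mem : ∀ (k : ℤ) (φ : ℂ × ℂ × ℂ → ℂ), AA a b z z' k φ →
    AA a b z z' (k - d) (fun p => fderiv ℂ φ p (V p, W p, C p) + (k : ℂ) * D p * φ p)
  ent : ∀ (k : ℤ) (φ : ℂ × ℂ × ℂ → ℂ), AA a b z z' k φ →
    LUE (D3 a b) (sq (fun p => (V p, W p, C p)) (fun p => (k : ℂ) * D p)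
      (fun p => -(d : ℂ) * D p) φ)

/-- The exchange of `v` and `ω`. -/
def swp (p : ℂ × ℂ × ℂ) : ℂ × ℂ × ℂ := (p.2.1, p.1, p.2.2)

/-- The line `v = a i` is an end of the vector field. -/
def IsEnd (d : ℕ) (V W C D : ℂ × ℂ × ℂ → ℂ) (i : Fin 4) : Prop :=
  ∃ (n : ℕ) (Vh Wh Ch Dh : ℂ × ℂ × ℂ → ℂ), 1 ≤ n ∧
    Vh ∈ Rvw (range a \ {a i}) (range b) ∧ Wh ∈ Rvw (range a \ {a i}) (range b) ∧
    Ch ∈ Rvw (range a \ {a i}) (range b) ∧ Dh ∈ Rvw (range a \ {a i}) (range b) ∧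
    (∀ p ∈ D3 a b, V p = (p.1 - a i) ^ (1 - (n : ℤ)) * Vh p ∧
      W p = (p.1 - a i) ^ (-(n : ℤ)) * Wh p ∧ C p = (p.1 - a i) ^ (-(n : ℤ)) * Ch p ∧
      D p = (p.1 - a i) ^ (-(n : ℤ)) * Dh p) ∧
    (∀ p ∈ D2 b, Wh (a i, p) = 0 ∧ Ch (a i, p) = 0 ∧
      (n : ℂ) * Vh (a i, p) + (d : ℂ) * Dh (a i, p) = 0) ∧
    ∃ p ∈ D2 b, Vh (a i, p) ≠ 0

/-- Boundedness of `f(c + β, z + β³ X)` for `|X| ≤ 1`, `β → 0`. -/
def Reg2 (c z : ℂ) (f : ℂ × ℂ → ℂ) : Prop :=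
  ∃ M δ : ℝ, 0 < δ ∧ ∀ β : ℂ, 0 < ‖β‖ → ‖β‖ < δ → ∀ X : ℂ, ‖X‖ ≤ 1 →
    ‖f (c + β, z + β ^ 3 * X)‖ ≤ M

/-- The combination `(b_j - b_{j'})³ y_{j'} - (b_j - b_{j''})³ y_{j''}`, which is the nonzero
constant `z'_{j''} - z'_{j'}` on `ω = b_j`. -/
noncomputable def Lam (j j' j'' : Fin 4) (p : ℂ × ℂ) : ℂ :=
  (b j - b j') ^ 3 * ((p.2 - z' j') / (p.1 - b j') ^ 3) -
    (b j - b j'') ^ 3 * ((p.2 - z' j'') / (p.1 - b j'') ^ 3)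

/-- The data on a polar line `v = a i` (pole order `n`): the reduced vector field
`w ∂_ω + c ∂_t` with time scale `τ` on the plane of `(ω, t)`. -/
structure Lvl2 (zi : ℂ) (n d : ℕ) (w c δ τ : ℂ × ℂ → ℂ) : Prop where
  hn : 1 ≤ n
  hd : 1 ≤ d
  mw : w ∈ Rw (range b)
  mc : c ∈ Rw (range b)
  mδ : δ ∈ Rw (range b)
  mτ : τ ∈ Rw (range b)
  ent_t : LUE (D2 b) (sq (fun p => (w p, c p)) (fun _ => 0) τ (fun p => p.2))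
  ent_one : LUE (D2 b) (sq (fun p => (w p, c p)) δ τ (fun _ => 1))
  ent_om : LUE (D2 b) (sq (fun p => (w p, c p)) δ τ (fun p => p.1))
  ent_y : ∀ j, LUE (D2 b) (sq (fun p => (w p, c p)) (fun _ => 0) τ
    (fun p => (p.2 - z' j) / (p.1 - b j) ^ 3))
  ent_z : ∀ j, LUE (D2 b) (sq (fun p => (w p, c p)) (fun p => -3 * δ p) τ
    (fun p => (p.2 - z' j) / (p.1 - b j) ^ 3))
  ent_H : ∀ (j j' j'' : Fin 4) (r : ℕ), j ≠ j' → j ≠ j'' → j' ≠ j'' →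
    LUE (D2 b) (sq (fun p => (w p, c p)) (fun p => 3 * τ p) τ
      (fun p => (p.2 - zi) ^ n * ((p.2 - z' j) / (p.1 - b j) ^ 3) ^ r *
        (Lam b z' j j' j'' p) ^ d))
  grow_c : ∀ t : ℂ, ∃ M ρ : ℝ, ∀ ω : ℂ, ρ < ‖ω‖ → ‖c (ω, t)‖ * ‖ω‖ ≤ M
  grow_τ : (∀ p ∈ D2 b, w p = 0) →
    ∀ t : ℂ, ∃ M ρ : ℝ, ∀ ω : ℂ, ρ < ‖ω‖ → ‖τ (ω, t)‖ * ‖ω‖ ≤ M
  div_w : ∃ (r : ℕ) (h : ℂ × ℂ → ℂ), n ≤ 3 * r ∧ h ∈ Rw (range b) ∧
    ∀ p ∈ D2 b, w p = (p.2 - zi) ^ r * h p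
  div_c : ∃ (r : ℕ) (h : ℂ × ℂ → ℂ), n + 2 ≤ 3 * r ∧ h ∈ Rw (range b) ∧
    ∀ p ∈ D2 b, c p = (p.2 - zi) ^ r * h p
  reg_w : ∀ j, Reg2 (b j) (z' j) w
  reg_cw : ∀ j, Reg2 (b j) (z' j)
    (fun p => (c p - 3 * (p.2 - z' j) * (w p / (p.1 - b j))) / (p.1 - b j) ^ 3)

/-- The line `ω = b j` is an end of the reduced vector field. -/
def IsEnd2 (w c τ : ℂ × ℂ → ℂ) (j : Fin 4) : Prop :=
  ∃ (n : ℕ) (wh ch τh : ℂ × ℂ → ℂ), 1 ≤ n ∧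
    wh ∈ RatX (range b \ {b j}) Kt ∧ ch ∈ RatX (range b \ {b j}) Kt ∧
    τh ∈ RatX (range b \ {b j}) Kt ∧
    (∀ p ∈ D2 b, w p = (p.1 - b j) ^ (1 - (n : ℤ)) * wh p ∧
      c p = (p.1 - b j) ^ (-(n : ℤ)) * ch p ∧ τ p = (p.1 - b j) ^ (-(n : ℤ)) * τh p) ∧
    (∀ t : ℂ, ch (b j, t) = 0 ∧ τh (b j, t) = (n : ℂ) * wh (b j, t)) ∧
    ∃ t : ℂ, wh (b j, t) ≠ 0

end Pool.Agent.H43.FX
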