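import Pool.Agent.H43.FX.Ring

/-!
# FX-DOM : the ring is a finitely generated domain

Proof.  For a polynomial `p` in five variables write `p(q) = MvPolynomial.eval (co q) p`,
`co q = ![q.1, q.2.1, q.2.2.1, q.2.2.2.1, q.2.2.2.2]`.  Let `Π(q) = ∏ ℓ_i ∏ m_j`, a polynomial.
(1) For every `f ∈ Aring` there are `N` and `p` with `f(q) Π(q)^N = p(q)` on `U5`
(`adjoin_induction`; for `x_i`: `N = 3`).
(2) If `f g = 0` in `Aring` then `p_f p_g` vanishes on `U5`, so `p_f p_g Π` vanishes on `C5`, and by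
`MvPolynomial.funext` `p_f p_g Π = 0` as a polynomial (`co` is surjective onto `Fin 5 → ℂ`);
`Π ≠ 0` (each factor is a nonzero polynomial), so `p_f = 0` or `p_g = 0`, hence `f = 0` or `g = 0`
(`Π(q) ≠ 0` on `U5`).
(3) Nontrivial: `U5` is nonempty (it contains a `pt5`; or: `Π ≠ 0` has a non-zero).
(4) Finite type: `Algebra.adjoin` of the range of a function on the finite type `GI`
(`Subalgebra.fg_adjoin_finset`, `Subalgebra.fg_iff_finiteType`).
-/

namespace Pool.Agent.H43.FX

theorem aring_finiteType (a b z z' : Fin 4 → ℂ) : Algebra.FiniteType ℂ (Aring a b z z') := by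
  classical
  rw [← Subalgebra.fg_iff_finiteType]
  refine ⟨Finset.univ.image fun g : GI => rs a b (gf a b z z' g), ?_⟩
  rw [Aring]
  congr 1
  simp

/-- The coordinates as a vector. -/
private def co (q : C5) : Fin 5 → ℂ := ![q.1, q.2.1, q.2.2.1, q.2.2.2.1, q.2.2.2.2]

/-- The product of the linear forms. -/
private noncomputable def PP (a b : Fin 4 → ℂ) (q : C5) : ℂ :=
  (∏ i, lf a i q) * ∏ j, mf b j q

/-- Functions on the domain that are rational with denominator a power of `Π`. -/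
private def Rat5 (a b : Fin 4 → ℂ) (f : C5 → ℂ) : Prop :=
  ∃ (N : ℕ) (p : MvPolynomial (Fin 5) ℂ), ∀ q ∈ U5 a b,
    f q * PP a b q ^ N = MvPolynomial.eval (co q) p

private lemma rat5_const (a b : Fin 4 → ℂ) (c : ℂ) : Rat5 a b (fun _ => c) :=
  ⟨0, MvPolynomial.C c, fun q _ => by simp⟩

private lemma rat5_X (a b : Fin 4 → ℂ) (i : Fin 5) : Rat5 a b (fun q => co q i) :=
  ⟨0, MvPolynomial.X i, fun q _ => by simp⟩

private lemma rat5_add {a b : Fin 4 → ℂ} {f g : C5 → ℂ} (hf : Rat5 a b f) (hg : Rat5 a b g)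
    (hP : ∃ P : MvPolynomial (Fin 5) ℂ, ∀ q, PP a b q = MvPolynomial.eval (co q) P) :
    Rat5 a b (fun q => f q + g q) := by
  obtain ⟨N, p, hp⟩ := hf
  obtain ⟨M, r, hr⟩ := hg
  obtain ⟨P, hP⟩ := hP
  refine ⟨N + M, p * P ^ M + r * P ^ N, fun q hq => ?_⟩
  simp only [map_add, map_mul, map_pow, ← hp q hq, ← hr q hq, ← hP]
  ring

private lemma rat5_mul {a b : Fin 4 → ℂ} {f g : C5 → ℂ} (hf : Rat5 a b f) (hg : Rat5 a b g) :
    Rat5 a b (fun q => f q * g q) := by
  obtain ⟨N, p, hp⟩ := hf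
  obtain ⟨M, r, hr⟩ := hg
  refine ⟨N + M, p * r, fun q hq => ?_⟩
  simp only [map_mul, ← hp q hq, ← hr q hq]
  ring

private lemma rat5_pow {a b : Fin 4 → ℂ} {f : C5 → ℂ} (hf : Rat5 a b f) (n : ℕ) :
    Rat5 a b (fun q => f q ^ n) := by
  induction n with
  | zero => simpa using rat5_const a b 1
  | succ n ih => simpa only [pow_succ] using rat5_mul ih hf

private lemma rat5_cu (a b : Fin 4 → ℂ) (k : Fin 2) : Rat5 a b (cu k) := by
  rcases eq_or_ne k 0 with rfl | h
  · have : cu 0 = fun q : C5 => co q 0 := by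
      funext q; simp [cu, co]
    rw [this]; exact rat5_X a b 0
  · have : cu k = fun q : C5 => co q 1 := by
      funext q; simp [cu, co, h]
    rw [this]; exact rat5_X a b 1

private lemma rat5_cw (a b : Fin 4 → ℂ) (k : Fin 2) : Rat5 a b (cw k) := by
  rcases eq_or_ne k 0 with rfl | h
  · have : cw 0 = fun q : C5 => co q 2 := by
      funext q; simp [cw, co]
    rw [this]; exact rat5_X a b 2
  · have : cw k = fun q : C5 => co q 3 := by
      funext q; simp [cw, co, h]
    rw [this]; exact rat5_X a b 3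

private lemma rat5_ct (a b : Fin 4 → ℂ) : Rat5 a b ct := by
  have : ct = fun q : C5 => co q 4 := by
    funext q; simp [ct, co]
  rw [this]; exact rat5_X a b 4

/-- The polynomial of a linear form `ℓ_i`. -/
private noncomputable def lP (a : Fin 4 → ℂ) (i : Fin 4) : MvPolynomial (Fin 5) ℂ :=
  MvPolynomial.X 0 - MvPolynomial.C (a i) * MvPolynomial.X 1

/-- The polynomial of a linear form `m_j`. -/
private noncomputable def mP (b : Fin 4 → ℂ) (j : Fin 4) : MvPolynomial (Fin 5) ℂ :=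
  MvPolynomial.X 2 - MvPolynomial.C (b j) * MvPolynomial.X 3

private lemma lP_eval (a : Fin 4 → ℂ) (i : Fin 4) (q : C5) :
    MvPolynomial.eval (co q) (lP a i) = lf a i q := by
  simp [lP, lf, co]

private lemma mP_eval (b : Fin 4 → ℂ) (j : Fin 4) (q : C5) :
    MvPolynomial.eval (co q) (mP b j) = mf b j q := by
  simp [mP, mf, co]

/-- The polynomial `Π`. -/
private noncomputable def PPp (a b : Fin 4 → ℂ) : MvPolynomial (Fin 5) ℂ :=
  (∏ i, lP a i) * ∏ j, mP b j

private lemma PPp_eval (a b : Fin 4 → ℂ) (q : C5) :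
    MvPolynomial.eval (co q) (PPp a b) = PP a b q := by
  simp only [PPp, PP, map_mul, map_prod, lP_eval, mP_eval]

private lemma rat5_cx (a b z : Fin 4 → ℂ) (i : Fin 4) : Rat5 a b (cx a z i) := by
  refine ⟨3, (MvPolynomial.X 4 - MvPolynomial.C (z i)) *
    ((∏ k ∈ Finset.univ.erase i, lP a k) * ∏ j, mP b j) ^ 3, fun q hq => ?_⟩
  simp only [map_mul, map_prod, map_pow, map_sub, lP_eval, mP_eval, MvPolynomial.eval_X,
    MvPolynomial.eval_C]
  rw [PP, ← Finset.mul_prod_erase Finset.univ (fun k => lf a k q) (Finset.mem_univ i), cx]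
  have h := hq.1 i
  have h4 : co q 4 = ct q := by simp [co, ct]
  rw [h4]
  field_simp

private lemma rat5_cy (a b z' : Fin 4 → ℂ) (j : Fin 4) : Rat5 a b (cy b z' j) := by
  refine ⟨3, (MvPolynomial.X 4 - MvPolynomial.C (z' j)) *
    ((∏ i, lP a i) * ∏ k ∈ Finset.univ.erase j, mP b k) ^ 3, fun q hq => ?_⟩
  simp only [map_mul, map_prod, map_pow, map_sub, lP_eval, mP_eval, MvPolynomial.eval_X,
    MvPolynomial.eval_C]
  rw [PP, ← Finset.mul_prod_erase Finset.univ (fun k => mf b k q) (Finset.mem_univ j), cy]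
  have h := hq.2 j
  have h4 : co q 4 = ct q := by simp [co, ct]
  rw [h4]
  field_simp

private lemma rat5_gf (a b z z' : Fin 4 → ℂ) (g : GI) : Rat5 a b (gf a b z z' g) := by
  cases g with
  | P k l => exact rat5_mul (rat5_cu a b k) (rat5_cw a b l)
  | t => exact rat5_ct a b
  | X i k =>
    exact rat5_mul (rat5_mul (rat5_pow (rat5_cu a b 0) _) (rat5_pow (rat5_cu a b 1) _))
      (rat5_cx a b z i)
  | Y j k =>
    exact rat5_mul (rat5_mul (rat5_pow (rat5_cw a b 0) _) (rat5_pow (rat5_cw a b 1) _))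
      (rat5_cy a b z' j)
  | Z i j => exact rat5_mul (rat5_cx a b z i) (rat5_cy a b z' j)

/-- Every element of the ring is rational with denominator a power of `Π`. -/
private lemma aring_rat5 (a b z z' : Fin 4 → ℂ) (f : U5 a b → ℂ) (hf : f ∈ Aring a b z z') :
    ∃ F : C5 → ℂ, Rat5 a b F ∧ f = rs a b F := by
  have hP : ∃ P : MvPolynomial (Fin 5) ℂ, ∀ q, PP a b q = MvPolynomial.eval (co q) P :=
    ⟨PPp a b, fun q => (PPp_eval a b q).symm⟩
  rw [Aring] at hf
  induction hf using Algebra.adjoin_induction with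
  | mem x hx =>
    obtain ⟨g, rfl⟩ := hx
    exact ⟨gf a b z z' g, rat5_gf a b z z' g, rfl⟩
  | algebraMap r => exact ⟨fun _ => r, rat5_const a b r, rfl⟩
  | add x y _ _ hx hy =>
    obtain ⟨F, hF, rfl⟩ := hx
    obtain ⟨G, hG, rfl⟩ := hy
    exact ⟨fun q => F q + G q, rat5_add hF hG hP, rfl⟩
  | mul x y _ _ hx hy =>
    obtain ⟨F, hF, rfl⟩ := hx
    obtain ⟨G, hG, rfl⟩ := hy
    exact ⟨fun q => F q * G q, rat5_mul hF hG, rfl⟩

private lemma u5_nonempty (a b : Fin 4 → ℂ) : (U5 a b).Nonempty := by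
  classical
  obtain ⟨v, hv⟩ := (Set.finite_range a).exists_notMem
  obtain ⟨w, hw⟩ := (Set.finite_range b).exists_notMem
  refine ⟨(v, 1, w, 1, 0), fun i h => hv ⟨i, ?_⟩, fun j h => hw ⟨j, ?_⟩⟩
  · simp only [lf, mul_one] at h
    linear_combination -h
  · simp only [mf, mul_one] at h
    linear_combination -h

private lemma PP_ne {a b : Fin 4 → ℂ} {q : C5} (hq : q ∈ U5 a b) : PP a b q ≠ 0 :=
  mul_ne_zero (Finset.prod_ne_zero_iff.2 fun i _ => hq.1 i)
    (Finset.prod_ne_zero_iff.2 fun j _ => hq.2 j)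

private lemma PP_eq_zero {a b : Fin 4 → ℂ} {q : C5} (hq : q ∉ U5 a b) : PP a b q = 0 := by
  by_contra h
  refine hq ⟨fun i hi => h ?_, fun j hj => h ?_⟩
  · exact mul_eq_zero_of_left (Finset.prod_eq_zero (Finset.mem_univ i) hi) _
  · exact mul_eq_zero_of_right _ (Finset.prod_eq_zero (Finset.mem_univ j) hj)

theorem aring_isDomain (a b z z' : Fin 4 → ℂ) : IsDomain (Aring a b z z') := by
  have : Nonempty (U5 a b) := (u5_nonempty a b).to_subtype
  have : Nontrivial (Aring a b z z') := inferInstance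
  have : NoZeroDivisors (Aring a b z z') := by
    refine ⟨fun {f g} hfg => ?_⟩
    obtain ⟨F, ⟨N, p, hp⟩, hF⟩ := aring_rat5 a b z z' _ f.2
    obtain ⟨G, ⟨M, r, hr⟩, hG⟩ := aring_rat5 a b z z' _ g.2
    have h1 : ∀ q ∈ U5 a b, F q * G q = 0 := by
      intro q hq
      have h := congrArg (fun x : Aring a b z z' => (x : U5 a b → ℂ) ⟨q, hq⟩) hfg
      simp only [Subalgebra.coe_mul, Pi.mul_apply, hF, hG, rs, Subalgebra.coe_zero,
        Pi.zero_apply] at h
      exact h
    have h2 : p * r * PPp a b = 0 := by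
      refine MvPolynomial.funext fun v => ?_
      have hv : v = co (v 0, v 1, v 2, v 3, v 4) := by
        funext i
        fin_cases i <;> rfl
      rw [hv, map_mul, map_mul, PPp_eval, map_zero]
      by_cases hq : ((v 0, v 1, v 2, v 3, v 4) : C5) ∈ U5 a b
      · rw [← hp _ hq, ← hr _ hq]
        linear_combination
          (PP a b (v 0, v 1, v 2, v 3, v 4)) ^ (N + M + 1) * h1 _ hq
      · rw [PP_eq_zero hq, mul_zero]
    have h3 : PPp a b ≠ 0 := by
      obtain ⟨q, hq⟩ := u5_nonempty a b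
      intro h
      exact PP_ne hq (by rw [← PPp_eval, h, map_zero])
    have h4 : p = 0 ∨ r = 0 := mul_eq_zero.1 ((mul_eq_zero.1 h2).resolve_right h3)
    rcases h4 with h4 | h4
    · left
      apply Subtype.ext
      rw [hF]
      funext q
      have h := hp q.1 q.2
      rw [h4, map_zero] at h
      exact (mul_eq_zero.1 h).resolve_right (pow_ne_zero _ (PP_ne q.2))
    · right
      apply Subtype.ext
      rw [hG]
      funext q
      have h := hr q.1 q.2
      rw [h4, map_zero] at h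
      exact (mul_eq_zero.1 h).resolve_right (pow_ne_zero _ (PP_ne q.2))
  exact NoZeroDivisors.to_isDomain _

end Pool.Agent.H43.FX
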