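import Pool.Agent.H43.FX.SqAlg

/-!
# FX-FLOWJET : jets from solutions of the flow equation

Proof.  On a ball `B` around `0` on which both equations hold and `γ s ∈ U` (`γ` is continuous
at `0`) show by induction on `m`: for `s ∈ B`,
`iteratedDeriv m (f ∘ γ) s = M(s)^m * sq ξ 0 T f m (γ s)`.  Step: `sq .. m` is analytic on `U`
(`sq_analytic`), so the derivative of the right-hand side at `s` is
`m M^{m-1} M' · sq_m(γ) + M^m · fderiv (sq_m) (γ s) (M ξ(γ s))
= M^{m+1} [ m T(γ) sq_m(γ) + ξ(sq_m)(γ) ] = M^{m+1} sq_{m+1}(γ s)`.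
At `s = 0`: `M = 1`, `γ = p`.  `f ∘ γ` is analytic at `0` since it is differentiable on `B`.
-/

namespace Pool.Agent.H43.FX

open Set Metric Filter Topology

theorem jet_of_flow {E : Type*} [NormedAddCommGroup E] [NormedSpace ℂ E] {U : Set E}
    {ξ : E → E} {T f : E → ℂ} (hU : IsOpen U) (hξ : AnalyticOnNhd ℂ ξ U)
    (hT : AnalyticOnNhd ℂ T U) (hf : AnalyticOnNhd ℂ f U) {p : E} (hp : p ∈ U) {γ : ℂ → E}
    {M : ℂ → ℂ} (hγ0 : γ 0 = p) (hM0 : M 0 = 1)
    (hγ : ∀ᶠ s in 𝓝 (0 : ℂ), HasDerivAt γ (M s • ξ (γ s)) s)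
    (hM : ∀ᶠ s in 𝓝 (0 : ℂ), HasDerivAt M (M s ^ 2 * T (γ s)) s) :
    Jet ξ (fun _ => 0) T p f (fun s => f (γ s)) := by
  have hcont : ContinuousAt γ 0 := hγ.self_of_nhds.continuousAt
  have hU' : ∀ᶠ s in 𝓝 (0 : ℂ), γ s ∈ U :=
    hcont.preimage_mem_nhds (by rw [hγ0]; exact hU.mem_nhds hp)
  have hS : AnalyticOnNhd ℂ (fun _ : E => (0 : ℂ)) U := analyticOnNhd_const
  obtain ⟨r, hr, hB⟩ := Metric.eventually_nhds_iff_ball.mp ((hγ.and hM).and hU')
  have key : ∀ m : ℕ, ∀ s ∈ ball (0 : ℂ) r, iteratedDeriv m (fun s => f (γ s)) s =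
      M s ^ m * sq ξ (fun _ => 0) T f m (γ s) := by
    intro m
    induction m with
    | zero => intro s hs; simp [sq]
    | succ m ih =>
      intro s hs
      rw [iteratedDeriv_succ]
      have hev : iteratedDeriv m (fun s => f (γ s)) =ᶠ[𝓝 s]
          fun s => M s ^ m * sq ξ (fun _ => 0) T f m (γ s) := by
        filter_upwards [isOpen_ball.mem_nhds hs] with s' hs' using ih s' hs'
      rw [hev.deriv_eq]
      obtain ⟨⟨h1, h2⟩, h3⟩ := hB s hs
      have h4 : HasFDerivAt (sq ξ (fun _ => 0) T f m)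
          (fderiv ℂ (sq ξ (fun _ => 0) T f m) (γ s)) (γ s) :=
        ((sq_analytic hU hξ hS hT hf m) (γ s) h3).differentiableAt.hasFDerivAt
      have h5 := h4.comp_hasDerivAt s h1
      have h6 := (h2.pow m).mul h5
      have h7 := HasDerivAt.deriv h6
      refine Eq.trans h7 ?_
      simp only [sq, map_smul, smul_eq_mul, Function.comp_apply]
      cases m with
      | zero => simp [sq]
      | succ k =>
        simp only [Nat.add_sub_cancel, Nat.cast_add, Nat.cast_one, Pi.pow_apply]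
        ring
  refine ⟨?_, ?_⟩
  · have hd : DifferentiableOn ℂ (fun s => f (γ s)) (ball (0 : ℂ) r) := by
      intro s hs
      obtain ⟨⟨h1, _⟩, h3⟩ := hB s hs
      exact (((hf (γ s) h3).differentiableAt.hasFDerivAt.comp_hasDerivAt s
        h1).differentiableAt).differentiableWithinAt
    exact hd.analyticAt (ball_mem_nhds 0 hr)
  · intro m
    rw [key m 0 (mem_ball_self hr), hM0, hγ0]
    simp

end Pool.Agent.H43.FX
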