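import Pool.Agent.H43.FX.Defs

/-!
# FX-GEN : exponential generating functions

* `LUE.entSeq` : take `K = {p}`.
* `gen_differentiable`, `gen_iteratedDeriv` : the power series `∑ (c_m/m!) s^m` has infinite
  radius of convergence (`‖c_m/m!‖ R^m ≤ M` for every `R`), so it defines an entire function
  with the Taylor coefficients `c_m/m!` at `0` (`FormalMultilinearSeries.ofScalars` or
  `HasFPowerSeriesOnBall`, `HasFPowerSeriesAt.iteratedDeriv...`; or
  `differentiableOn_tsum_of_summable_norm` and termwise differentiation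
  `deriv (gen c) = gen (fun m => c (m+1))`, then evaluate at `0`).
* `LUE.mono`, `LUE.congr` : clear; `LUE.comp` : the image of a compact set is compact.
-/

namespace Pool.Agent.H43.FX

open Set Metric Filter Topology

theorem LUE.entSeq {E : Type*} [NormedAddCommGroup E] [NormedSpace ℂ E] {U : Set E}
    {φ : ℕ → E → ℂ} (h : LUE U φ) {p : E} (hp : p ∈ U) : EntSeq (fun m => φ m p) := by
  intro R hR
  obtain ⟨M, hM⟩ := h {p} (singleton_subset_iff.2 hp) isCompact_singleton R hR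
  exact ⟨M, fun m => hM m p rfl⟩

theorem LUE.mono {E : Type*} [NormedAddCommGroup E] [NormedSpace ℂ E] {U V : Set E}
    {φ : ℕ → E → ℂ} (h : LUE U φ) (hV : V ⊆ U) : LUE V φ :=
  fun K hK hKc R hR => h K (hK.trans hV) hKc R hR

theorem LUE.congr {E : Type*} [NormedAddCommGroup E] [NormedSpace ℂ E] {U : Set E}
    {φ ψ : ℕ → E → ℂ} (h : LUE U φ) (hV : ∀ m, ∀ p ∈ U, φ m p = ψ m p) : LUE U ψ := by
  intro K hK hKc R hR
  obtain ⟨M, hM⟩ := h K hK hKc R hR
  exact ⟨M, fun m p hp => by rw [← hV m p (hK hp)]; exact hM m p hp⟩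

theorem LUE.comp {E F : Type*} [NormedAddCommGroup E] [NormedSpace ℂ E]
    [NormedAddCommGroup F] [NormedSpace ℂ F] {U : Set E} {V : Set F} {φ : ℕ → E → ℂ}
    (h : LUE U φ) {g : F → E} (hg : ContinuousOn g V) (hV : MapsTo g V U) :
    LUE V (fun m p => φ m (g p)) := by
  intro K hK hKc R hR
  obtain ⟨M, hM⟩ := h (g '' K) ((hV.mono hK Subset.rfl).image_subset)
    (hKc.image_of_continuousOn (hg.mono hK)) R hR
  exact ⟨M, fun m p hp => hM m (g p) (mem_image_of_mem g hp)⟩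

theorem gl_summable {c : ℕ → ℂ} (h : EntSeq c) {R : ℝ} (hR : 0 < R) :
    Summable (fun m : ℕ => ‖c m‖ * R ^ m / (m.factorial : ℝ)) := by
  obtain ⟨M, hM⟩ := h (2 * R) (by positivity)
  refine Summable.of_nonneg_of_le (fun m => by positivity) (fun m => ?_)
    (summable_geometric_two.mul_left M)
  have h1 := hM m
  have hf : (0 : ℝ) < (m.factorial : ℝ) := by exact_mod_cast m.factorial_pos
  rw [div_le_iff₀ hf]
  rw [mul_pow] at h1
  have h2 : (0 : ℝ) < 2 ^ m := by positivity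
  have h3 : M * (1 / 2) ^ m * (m.factorial : ℝ) = M * (m.factorial : ℝ) / 2 ^ m := by
    rw [one_div, inv_pow]
    ring
  rw [h3, le_div_iff₀ h2]
  linarith

theorem gl_shift {c : ℕ → ℂ} (h : EntSeq c) : EntSeq (fun m => c (m + 1)) := by
  intro R hR
  obtain ⟨M, hM⟩ := h (2 * R) (by positivity)
  have hM0 : 0 ≤ M := by
    have := hM 0
    simp only [pow_zero, mul_one, Nat.factorial_zero, Nat.cast_one] at this
    exact (norm_nonneg _).trans this
  refine ⟨M / R, fun m => ?_⟩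
  have h1 := hM (m + 1)
  have hf : (0 : ℝ) < (m.factorial : ℝ) := by exact_mod_cast m.factorial_pos
  have h2 : ((m + 1 : ℕ) : ℝ) ≤ 2 ^ (m + 1) := by exact_mod_cast (Nat.lt_two_pow_self).le
  have h3 : (((m + 1).factorial : ℕ) : ℝ) = ((m + 1 : ℕ) : ℝ) * (m.factorial : ℝ) := by
    rw [Nat.factorial_succ]
    push_cast
    ring
  rw [h3, mul_pow, pow_succ R m] at h1
  have h4 : (0 : ℝ) < 2 ^ (m + 1) := by positivity
  have h5 : ‖c (m + 1)‖ * (R ^ m * R) * 2 ^ (m + 1) ≤ M * (m.factorial : ℝ) * 2 ^ (m + 1) := by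
    calc ‖c (m + 1)‖ * (R ^ m * R) * 2 ^ (m + 1) = ‖c (m + 1)‖ * (2 ^ (m + 1) * (R ^ m * R)) := by
          ring
      _ ≤ M * (((m + 1 : ℕ) : ℝ) * (m.factorial : ℝ)) := h1
      _ = (M * (m.factorial : ℝ)) * ((m + 1 : ℕ) : ℝ) := by ring
      _ ≤ M * (m.factorial : ℝ) * 2 ^ (m + 1) :=
          mul_le_mul_of_nonneg_left h2 (by positivity)
  have h6 := le_of_mul_le_mul_right h5 h4
  have h7 : M / R * (m.factorial : ℝ) = M * (m.factorial : ℝ) / R := by ring
  rw [h7, le_div_iff₀ hR]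
  linarith

theorem gen_deriv {c : ℕ → ℂ} (h : EntSeq c) (s : ℂ) :
    HasDerivAt (gen c) (gen (fun m => c (m + 1)) s) s := by
  have hR : (0 : ℝ) < ‖s‖ + 1 := by positivity
  let g : ℕ → ℂ → ℂ := fun m z => c m * z ^ m / (m.factorial : ℂ)
  let g' : ℕ → ℂ → ℂ := fun m z => c m * (m * z ^ (m - 1)) / (m.factorial : ℂ)
  let u : ℕ → ℝ := fun m => ‖c m‖ * (m * (‖s‖ + 1) ^ (m - 1)) / (m.factorial : ℝ)
  have hsucc : ∀ (m : ℕ) (z : ℂ), g' (m + 1) z = c (m + 1) * z ^ m / (m.factorial : ℂ) := by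
    intro m z
    show c (m + 1) * (((m + 1 : ℕ) : ℂ) * z ^ (m + 1 - 1)) / (((m + 1).factorial : ℕ) : ℂ) = _
    rw [Nat.add_sub_cancel, Nat.factorial_succ]
    have h1 : ((m + 1 : ℕ) : ℂ) ≠ 0 := by exact_mod_cast m.succ_ne_zero
    have h2 : (m.factorial : ℂ) ≠ 0 := by exact_mod_cast m.factorial_ne_zero
    rw [Nat.cast_mul]
    field_simp
  have husucc : ∀ m : ℕ, u (m + 1) = ‖c (m + 1)‖ * (‖s‖ + 1) ^ m / (m.factorial : ℝ) := by
    intro m
    show ‖c (m + 1)‖ * (((m + 1 : ℕ) : ℝ) * (‖s‖ + 1) ^ (m + 1 - 1)) /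
      (((m + 1).factorial : ℕ) : ℝ) = _
    rw [Nat.add_sub_cancel, Nat.factorial_succ]
    have h1 : ((m + 1 : ℕ) : ℝ) ≠ 0 := by exact_mod_cast m.succ_ne_zero
    have h2 : (m.factorial : ℝ) ≠ 0 := by exact_mod_cast m.factorial_ne_zero
    rw [Nat.cast_mul]
    field_simp
  have hu : Summable u := by
    rw [← summable_nat_add_iff 1]
    exact (gl_summable (gl_shift h) hR).congr fun m => (husucc m).symm
  have hgd : ∀ (n : ℕ) (y : ℂ), y ∈ ball (0 : ℂ) (‖s‖ + 1) → HasDerivAt (g n) (g' n y) y := by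
    intro n y _
    exact ((hasDerivAt_pow n y).const_mul (c n)).div_const _
  have hgb : ∀ (n : ℕ) (y : ℂ), y ∈ ball (0 : ℂ) (‖s‖ + 1) → ‖g' n y‖ ≤ u n := by
    intro n y hy
    rw [mem_ball_zero_iff] at hy
    show ‖c n * (n * y ^ (n - 1)) / (n.factorial : ℂ)‖ ≤
      ‖c n‖ * (n * (‖s‖ + 1) ^ (n - 1)) / (n.factorial : ℝ)
    rw [norm_div, norm_mul, norm_mul, norm_pow, Complex.norm_natCast, Complex.norm_natCast]
    gcongr
  have h0 : (0 : ℂ) ∈ ball (0 : ℂ) (‖s‖ + 1) := mem_ball_self hR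
  have hs : s ∈ ball (0 : ℂ) (‖s‖ + 1) := by rw [mem_ball_zero_iff]; linarith
  have hg0 : Summable (fun n => g n 0) := by
    refine summable_of_ne_finset_zero (s := {0}) fun n hn => ?_
    rw [Finset.mem_singleton] at hn
    show c n * 0 ^ n / (n.factorial : ℂ) = 0
    rw [zero_pow hn]
    simp
  have key := hasDerivAt_tsum_of_isPreconnected hu isOpen_ball
    (convex_ball (0 : ℂ) (‖s‖ + 1)).isPreconnected hgd hgb h0 hg0 hs
  have hsum : Summable (fun n => g' n s) := Summable.of_norm_bounded hu fun n => hgb n s hs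
  have h2 : ∑' n, g' n s = gen (fun m => c (m + 1)) s := by
    rw [hsum.tsum_eq_zero_add]
    have h3 : g' 0 s = 0 := by simp [g']
    rw [h3, zero_add]
    exact tsum_congr fun m => hsucc m s
  rw [h2] at key
  exact key

theorem gen_differentiable {c : ℕ → ℂ} (h : EntSeq c) : Differentiable ℂ (gen c) :=
  fun s => (gen_deriv h s).differentiableAt

theorem gen_zero {c : ℕ → ℂ} : gen c 0 = c 0 := by
  unfold gen
  rw [tsum_eq_single 0]
  · simp
  · intro m hm
    rw [zero_pow hm]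
    simp

theorem gen_iteratedDeriv {c : ℕ → ℂ} (h : EntSeq c) (m : ℕ) :
    iteratedDeriv m (gen c) 0 = c m := by
  induction m generalizing c with
  | zero => rw [iteratedDeriv_zero, gen_zero]
  | succ m ih =>
    rw [iteratedDeriv_succ']
    have h1 : deriv (gen c) = gen (fun m => c (m + 1)) := by
      funext s
      exact (gen_deriv h s).deriv
    rw [h1, ih (gl_shift h)]

/-- An LUE sequence gives jets. -/
theorem LUE.jet {E : Type*} [NormedAddCommGroup E] [NormedSpace ℂ E] {U : Set E} {ξ : E → E}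
    {S T f : E → ℂ} (h : LUE U (sq ξ S T f)) {p : E} (hp : p ∈ U) :
    Jet ξ S T p f (gen (fun m => sq ξ S T f m p)) :=
  ⟨(gen_differentiable (h.entSeq hp)).analyticAt 0, fun m => gen_iteratedDeriv (h.entSeq hp) m⟩

end Pool.Agent.H43.FX
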