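import Pool.Agent.H43.FX.SqAlg
import Pool.Agent.H43.FX.GenLem

/-!
# FX-JET : calculus of jets

Throughout `U` is open, `p ∈ U`, and the data are analytic on `U`.
* `Jet.mul` : `iteratedDeriv m (u * v) 0 = ∑ C(m,j) u^{(j)}(0) v^{(m-j)}(0)`
  (`iteratedDeriv_mul` for analytic germs, or power series multiplication) and `sq_mul`.
* `Jet.const`, `Jet.add`, `Jet.smul` : easy (`sq_add`, `sq_smul`; for a constant function with
  `S = 0` all `sq ξ 0 T (fun _ => c) (m+1) = 0`, by induction).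
* `Jet.deriv` : `sq_shift` and `iteratedDeriv_succ'`.
* `Jet.unique` : two analytic germs with the same derivatives at `0` agree near `0`
  (e.g. `AnalyticAt.eventually_eq_zero_of_forall_iteratedDeriv_eq_zero`-type lemma; or via the
  order of `u - v`).
* `Jet.div` : let `v = w/u`, analytic at `0` as `u 0 = f p ≠ 0`, and `u v = w` near `0`.  Put
  `g_m = sq ξ S₂ T g m p`, `f_m = sq ξ S₁ T f m p`, `v_m = iteratedDeriv m v 0`.  Then
  `∑_j C(m,j) f_j v_{m-j} = iteratedDeriv m w 0 = sq ξ (S₁+S₂) T (f g) m p =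
  ∑_j C(m,j) f_j g_{m-j}`; as `f_0 = f p ≠ 0`, strong induction gives `v_m = g_m`.
* `Jet.congr` : `sq_congr`.
-/

namespace Pool.Agent.H43.FX

open Set Metric Filter Topology

section

variable {E : Type*} [NormedAddCommGroup E] [NormedSpace ℂ E] {U : Set E} {ξ : E → E}
  {S S' S₁ S₂ T f f' g : E → ℂ} {p : E} {u v w : ℂ → ℂ}

theorem sq_const (c : ℂ) (m : ℕ) : sq ξ (fun _ => 0) T (fun _ => c) (m + 1) = fun _ => 0 := by
  induction m with
  | zero =>
    funext q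
    simp [sq]
  | succ m ih =>
    funext q
    rw [sq, ih]
    simp

theorem Jet.const (c : ℂ) : Jet ξ (fun _ => 0) T p (fun _ => c) (fun _ => c) := by
  refine ⟨analyticAt_const, fun m => ?_⟩
  cases m with
  | zero => simp [sq]
  | succ m =>
    rw [sq_const, iteratedDeriv_const]
    simp

theorem Jet.eval_zero (h : Jet ξ S T p f u) : u 0 = f p := by
  have := h.2 0
  rwa [iteratedDeriv_zero] at this

theorem Jet.congr (hU : IsOpen U) (hp : p ∈ U) (h : Jet ξ S T p f u) (hf : EqOn f f' U)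
    (hS : EqOn S S' U) : Jet ξ S' T p f' u := by
  refine ⟨h.1, fun m => ?_⟩
  rw [h.2 m]
  exact sq_congr hU (fun _ _ => rfl) hS (fun _ _ => rfl) hf m hp

theorem Jet.congr_germ (h : Jet ξ S T p f u) (huv : u =ᶠ[𝓝 0] v) : Jet ξ S T p f v := by
  refine ⟨h.1.congr huv, fun m => ?_⟩
  rw [← huv.iteratedDeriv_eq m]
  exact h.2 m

theorem Jet.mul (hU : IsOpen U) (hp : p ∈ U) (hξ : AnalyticOnNhd ℂ ξ U)
    (hS₁ : AnalyticOnNhd ℂ S₁ U) (hS₂ : AnalyticOnNhd ℂ S₂ U) (hT : AnalyticOnNhd ℂ T U)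
    (hf : AnalyticOnNhd ℂ f U) (hg : AnalyticOnNhd ℂ g U) (h₁ : Jet ξ S₁ T p f u)
    (h₂ : Jet ξ S₂ T p g v) :
    Jet ξ (fun q => S₁ q + S₂ q) T p (fun q => f q * g q) (fun s => u s * v s) := by
  refine ⟨h₁.1.mul h₂.1, fun m => ?_⟩
  rw [sq_mul hU hξ hS₁ hS₂ hT hf hg m hp, iteratedDeriv_fun_mul h₁.1.contDiffAt h₂.1.contDiffAt]
  refine Finset.sum_congr rfl fun j _ => ?_
  rw [h₁.2, h₂.2]

theorem Jet.add (hU : IsOpen U) (hp : p ∈ U) (hξ : AnalyticOnNhd ℂ ξ U)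
    (hS : AnalyticOnNhd ℂ S U) (hT : AnalyticOnNhd ℂ T U)
    (hf : AnalyticOnNhd ℂ f U) (hg : AnalyticOnNhd ℂ g U) (h₁ : Jet ξ S T p f u)
    (h₂ : Jet ξ S T p g v) : Jet ξ S T p (fun q => f q + g q) (fun s => u s + v s) := by
  refine ⟨h₁.1.add h₂.1, fun m => ?_⟩
  rw [sq_add hU hξ hS hT hf hg m hp, iteratedDeriv_fun_add h₁.1.contDiffAt h₂.1.contDiffAt,
    h₁.2, h₂.2]

theorem Jet.smul (hU : IsOpen U) (hp : p ∈ U) (hξ : AnalyticOnNhd ℂ ξ U)
    (hS : AnalyticOnNhd ℂ S U) (hT : AnalyticOnNhd ℂ T U) (hf : AnalyticOnNhd ℂ f U) (c : ℂ)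
    (h₁ : Jet ξ S T p f u) : Jet ξ S T p (fun q => c * f q) (fun s => c * u s) := by
  refine ⟨analyticAt_const.mul h₁.1, fun m => ?_⟩
  rw [sq_smul hU hξ hS hT hf c m hp, iteratedDeriv_const_mul_field, h₁.2]

/-- Derivative along the flow. -/
theorem Jet.deriv (h : Jet ξ S T p f u) :
    Jet ξ (fun q => S q + T q) T p (fun q => fderiv ℂ f q (ξ q) + S q * f q)
      (_root_.deriv u) := by
  refine ⟨h.1.deriv, fun m => ?_⟩
  rw [← sq_shift, ← h.2 (m + 1), iteratedDeriv_succ']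

theorem germ_unique (hu : AnalyticAt ℂ u 0) (hv : AnalyticAt ℂ v 0)
    (h : ∀ m, iteratedDeriv m u 0 = iteratedDeriv m v 0) : u =ᶠ[𝓝 0] v := by
  have h1 : analyticOrderAt (fun s => u s - v s) 0 = ⊤ := by
    refine ENat.eq_top_iff_forall_ge.2 fun n => ?_
    rw [natCast_le_analyticOrderAt_iff_iteratedDeriv_eq_zero (hu.fun_sub hv)]
    intro i _
    rw [iteratedDeriv_fun_sub hu.contDiffAt hv.contDiffAt, h i, sub_self]
  rw [analyticOrderAt_eq_top] at h1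
  exact h1.mono fun s hs => sub_eq_zero.1 hs

theorem Jet.unique (h₁ : Jet ξ S T p f u) (h₂ : Jet ξ S T p f v) : u =ᶠ[𝓝 0] v :=
  germ_unique h₁.1 h₂.1 fun m => by rw [h₁.2, h₂.2]

theorem Jet.div (hU : IsOpen U) (hp : p ∈ U) (hξ : AnalyticOnNhd ℂ ξ U)
    (hS₁ : AnalyticOnNhd ℂ S₁ U) (hS₂ : AnalyticOnNhd ℂ S₂ U) (hT : AnalyticOnNhd ℂ T U)
    (hf : AnalyticOnNhd ℂ f U) (hg : AnalyticOnNhd ℂ g U) (h₁ : Jet ξ S₁ T p f u)
    (h₂ : Jet ξ (fun q => S₁ q + S₂ q) T p (fun q => f q * g q) w) (h0 : f p ≠ 0) :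
    Jet ξ S₂ T p g (fun s => w s / u s) := by
  have hu0 : u 0 ≠ 0 := by rw [h₁.eval_zero]; exact h0
  have hv : AnalyticAt ℂ (fun s => w s / u s) 0 := h₂.1.div h₁.1 hu0
  refine ⟨hv, ?_⟩
  have hne : ∀ᶠ s in 𝓝 (0 : ℂ), u s ≠ 0 := h₁.1.continuousAt.eventually_ne hu0
  have hw : (fun s => u s * (w s / u s)) =ᶠ[𝓝 0] w := by
    filter_upwards [hne] with s hs
    field_simp
  have key : ∀ m : ℕ, ∑ j ∈ Finset.range (m + 1), (m.choose j : ℂ) * sq ξ S₁ T f j p *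
      iteratedDeriv (m - j) (fun s => w s / u s) 0 =
      ∑ j ∈ Finset.range (m + 1), (m.choose j : ℂ) * sq ξ S₁ T f j p *
        sq ξ S₂ T g (m - j) p := by
    intro m
    rw [← sq_mul hU hξ hS₁ hS₂ hT hf hg m hp, ← h₂.2 m, ← hw.iteratedDeriv_eq m,
      iteratedDeriv_fun_mul h₁.1.contDiffAt hv.contDiffAt]
    refine Finset.sum_congr rfl fun j _ => ?_
    rw [h₁.2]
  intro m
  induction m using Nat.strong_induction_on with
  | _ m ih =>
    have h := key m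
    rw [Finset.sum_range_succ', Finset.sum_range_succ'] at h
    have h3 : ∑ k ∈ Finset.range m, (m.choose (k + 1) : ℂ) * sq ξ S₁ T f (k + 1) p *
        iteratedDeriv (m - (k + 1)) (fun s => w s / u s) 0 =
        ∑ k ∈ Finset.range m, (m.choose (k + 1) : ℂ) * sq ξ S₁ T f (k + 1) p *
        sq ξ S₂ T g (m - (k + 1)) p := by
      refine Finset.sum_congr rfl fun k hk => ?_
      rw [Finset.mem_range] at hk
      rw [ih (m - (k + 1)) (by omega)]
    rw [h3] at h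
    have h4 := add_left_cancel h
    rw [Nat.choose_zero_right, Nat.cast_one, one_mul, Nat.sub_zero] at h4
    exact mul_left_cancel₀ (by simpa [sq] using h0) h4

end

end Pool.Agent.H43.FX
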