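import Pool.Agent.H43.FX.EndLem
import Pool.Agent.H43.FX.JetLem
import Pool.Agent.H43.FX.FlowJet

/-!
# FX-ENDEXP : jets near an end are exponential

Proof.  Shrink `ρ` (`ρ' ≤ ρ`) so that `Vh, W1, τ1` are analytic on the polydisc
`{‖x - x₀‖ < ρ', ‖y - y₀‖ < ρ'}`, `‖Vh‖ ≥ ‖Vh(x₀,y₀)‖/2` there.  Apply `end_lemma` to
`a(α,y) = Vh(x₀+α, y)`, `Y(α,y) = W1(x₀+α,y)`, `τ(α,y) = τ1(x₀+α,y)`, `ε = ρ'`.
Given `x₁, y₁`, put `α₀ = x₁ - x₀`, `N₀ = α₀^(-n)`; get `c, 𝔞, 𝔫, g₀, 𝔶`.  `‖c‖ ≥ ‖N₀ a‖/2`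
and `‖N₀‖ ≥ 1` (if `δ ≤ 1`), so `‖c⁻¹‖ ≤ 4/‖Vh(x₀,y₀)‖ =: M`.
Put `γ(s) = (x₀ + 𝔞(e^{cs}), 𝔶(e^{cs}))`, `M(s) = 𝔫(e^{cs}) 𝔞(e^{cs})^n`.  `M(0) = 1`.
`d/ds 𝔞(e^{cs}) = c e^{cs} 𝔞'(e^{cs}) = 𝔫 𝔞 a = M 𝔞^{1-n} Vh`, which is `M ·` the first
component of `ξ(γ)`; `d/ds 𝔶 = 𝔫 𝔞 Y = M 𝔞^{1-n} W1`; and
`M' = 𝔫' 𝔞^n + n 𝔫 𝔞^{n-1} 𝔞' = 𝔫² 𝔞 τ 𝔞^n + n 𝔫 𝔞^{n-1} 𝔫 𝔞 a
= (𝔫𝔞^n)² 𝔞^{-n} (𝔞 τ1 + n Vh) = M² T(γ)`.  (`𝔞 ≠ 0` since `𝔞 x = x g₀ x`.)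
By `jet_of_flow` (with `U = {p | 0 < ‖p.1 - x₀‖ < ρ', ‖p.2 - y₀‖ < ρ'}`; `ξ`, `T` and `f` are
analytic there, being equal to analytic expressions on this open set) and `Jet.unique`,
`u(s) = f(γ(s))` near `0`.  Since `f(γ s) = 𝔞^{-h} fh(γ s)` and `𝔞(e^{cs}) = e^{cs} g₀(e^{cs})`,
`e^{hcs} u(s) = g₀(e^{cs})^{-h} fh(x₀ + 𝔞(e^{cs}), 𝔶(e^{cs}))`, so take
`g(x) = g₀(x)^{-h} fh(x₀ + 𝔞 x, 𝔶 x)`, holomorphic on `ball 0 2`; `𝔞 0 = 0`, so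
`g 0 = g₀(0)^{-h} fh(x₀, 𝔶 0)`.
-/

namespace Pool.Agent.H43.FX

open Set Metric Filter Topology

theorem end_exp {E : Type*} [NormedAddCommGroup E] [NormedSpace ℂ E] [CompleteSpace E]
    {x₀ : ℂ} {y₀ : E} {n : ℕ} {ξ : ℂ × E → ℂ × E} {T Vh τ1 : ℂ × E → ℂ} {W1 : ℂ × E → E}
    (hV : AnalyticAt ℂ Vh (x₀, y₀)) (hW : AnalyticAt ℂ W1 (x₀, y₀))
    (hτ : AnalyticAt ℂ τ1 (x₀, y₀)) (h0 : Vh (x₀, y₀) ≠ 0) {ρ : ℝ} (hρ : 0 < ρ)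
    (eξ : ∀ x : ℂ, 0 < ‖x - x₀‖ → ‖x - x₀‖ < ρ → ∀ y : E, ‖y - y₀‖ < ρ →
      ξ (x, y) = ((x - x₀) ^ (1 - (n : ℤ)) * Vh (x, y), (x - x₀) ^ (1 - (n : ℤ)) • W1 (x, y)))
    (eT : ∀ x : ℂ, 0 < ‖x - x₀‖ → ‖x - x₀‖ < ρ → ∀ y : E, ‖y - y₀‖ < ρ →
      T (x, y) = (x - x₀) ^ (-(n : ℤ)) * ((n : ℂ) * Vh (x, y) + (x - x₀) * τ1 (x, y))) :
    ∃ δ M : ℝ, 0 < δ ∧ ∀ x₁ : ℂ, 0 < ‖x₁ - x₀‖ → ‖x₁ - x₀‖ < δ → ∀ y₁ : E, ‖y₁ - y₀‖ < δ →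
      ∃ c : ℂ, c ≠ 0 ∧ ‖c⁻¹‖ ≤ M ∧ ∀ (h : ℕ) (f fh : ℂ × E → ℂ) (u : ℂ → ℂ),
        (∀ x : ℂ, ‖x - x₀‖ < ρ → ∀ y : E, ‖y - y₀‖ < ρ → AnalyticAt ℂ fh (x, y)) →
        (∀ x : ℂ, 0 < ‖x - x₀‖ → ‖x - x₀‖ < ρ → ∀ y : E, ‖y - y₀‖ < ρ →
          f (x, y) = (x - x₀) ^ (-(h : ℤ)) * fh (x, y)) →
        Jet ξ (fun _ => 0) T (x₁, y₁) f u →
        ExpEnd c h u ∧ ((∀ y : E, ‖y - y₀‖ < ρ → fh (x₀, y) ≠ 0) → ExpEndS c h u) := by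
  have h0' : 0 < ‖Vh (x₀, y₀)‖ := norm_pos_iff.2 h0
  -- the polydisc
  have hev : ∀ᶠ p in 𝓝 (x₀, y₀), AnalyticAt ℂ Vh p ∧ AnalyticAt ℂ W1 p ∧ AnalyticAt ℂ τ1 p ∧
      ‖Vh (x₀, y₀)‖ / 2 < ‖Vh p‖ := by
    have h1 : ∀ᶠ p in 𝓝 (x₀, y₀), ‖Vh (x₀, y₀)‖ / 2 < ‖Vh p‖ :=
      (hV.continuousAt.norm).eventually_const_lt (by linarith)
    exact hV.eventually_analyticAt.and (hW.eventually_analyticAt.and
      (hτ.eventually_analyticAt.and h1))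
  obtain ⟨ρ1, hρ1, hball⟩ := Metric.eventually_nhds_iff_ball.1 hev
  set ρ' : ℝ := min ρ ρ1 with hρ'
  have hρ'0 : 0 < ρ' := lt_min hρ hρ1
  have hρ'ρ : ρ' ≤ ρ := min_le_left _ _
  have hpoly : ∀ x : ℂ, ‖x - x₀‖ < ρ' → ∀ y : E, ‖y - y₀‖ < ρ' →
      AnalyticAt ℂ Vh (x, y) ∧ AnalyticAt ℂ W1 (x, y) ∧ AnalyticAt ℂ τ1 (x, y) ∧
        ‖Vh (x₀, y₀)‖ / 2 < ‖Vh (x, y)‖ := by
    intro x hx y hy
    apply hball
    rw [mem_ball, Prod.dist_eq, dist_eq_norm, dist_eq_norm]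
    exact (max_lt hx hy).trans_le (min_le_right _ _)
  have hmap : AnalyticAt ℂ (fun q : ℂ × E => (x₀ + q.1, q.2)) (0, y₀) := by
    apply AnalyticAt.prod
    · exact analyticAt_const.add analyticAt_fst
    · exact analyticAt_snd
  have ha : AnalyticAt ℂ (fun q : ℂ × E => Vh (x₀ + q.1, q.2)) (0, y₀) := by
    refine AnalyticAt.comp' ?_ hmap
    simpa using hV
  have hY : AnalyticAt ℂ (fun q : ℂ × E => W1 (x₀ + q.1, q.2)) (0, y₀) := by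
    refine AnalyticAt.comp' ?_ hmap
    simpa using hW
  have hτa : AnalyticAt ℂ (fun q : ℂ × E => τ1 (x₀ + q.1, q.2)) (0, y₀) := by
    refine AnalyticAt.comp' ?_ hmap
    simpa using hτ
  obtain ⟨δ1, hδ1, hend⟩ := end_lemma ha hτa hY (by simpa using h0) hρ'0
  refine ⟨min δ1 (min ρ' 1), 4 / ‖Vh (x₀, y₀)‖, by positivity, ?_⟩
  intro x₁ hx₁ hx₁' y₁ hy₁
  have hx1a : ‖x₁ - x₀‖ < δ1 := hx₁'.trans_le (min_le_left _ _)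
  have hx1b : ‖x₁ - x₀‖ < ρ' := hx₁'.trans_le ((min_le_right _ _).trans (min_le_left _ _))
  have hx1c : ‖x₁ - x₀‖ < 1 := hx₁'.trans_le ((min_le_right _ _).trans (min_le_right _ _))
  have hy1a : ‖y₁ - y₀‖ < δ1 := hy₁.trans_le (min_le_left _ _)
  have hy1b : ‖y₁ - y₀‖ < ρ' := hy₁.trans_le ((min_le_right _ _).trans (min_le_left _ _))
  have hα : x₁ - x₀ ≠ 0 := norm_pos_iff.1 hx₁
  have hN : (x₁ - x₀) ^ (-(n : ℤ)) ≠ 0 := zpow_ne_zero _ hα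
  obtain ⟨c, 𝔞, 𝔫, g₀, 𝔶, hc, hcb, d𝔞, d𝔫, dg, d𝔶, e𝔞, e𝔶, e𝔫, hx⟩ :=
    hend (x₁ - x₀) hx₁ hx1a y₁ hy1a ((x₁ - x₀) ^ (-(n : ℤ))) hN
  refine ⟨c, hc, ?_, ?_⟩
  · -- the bound for c
    have h1 : ‖Vh (x₀, y₀)‖ / 2 < ‖Vh (x₁, y₁)‖ := (hpoly x₁ hx1b y₁ hy1b).2.2.2
    have h2 : (1 : ℝ) ≤ ‖(x₁ - x₀) ^ (-(n : ℤ))‖ := by
      rw [norm_zpow, zpow_neg, zpow_natCast]
      exact (one_le_inv₀ (by positivity)).2 (pow_le_one₀ (norm_nonneg _) hx1c.le)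
    have h3 : ‖(x₁ - x₀) ^ (-(n : ℤ)) * Vh (x₁, y₁)‖ / 2 ≤ ‖c‖ := by
      simp only [add_sub_cancel] at hcb
      have h4 := norm_sub_norm_le ((x₁ - x₀) ^ (-(n : ℤ)) * Vh (x₁, y₁)) c
      rw [norm_sub_rev] at h4
      linarith
    rw [norm_mul] at h3
    have h5 : ‖Vh (x₀, y₀)‖ / 4 ≤ ‖c‖ := by nlinarith [norm_nonneg (Vh (x₁, y₁))]
    rw [norm_inv]
    calc ‖c‖⁻¹ ≤ (‖Vh (x₀, y₀)‖ / 4)⁻¹ := inv_anti₀ (by positivity) h5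
      _ = 4 / ‖Vh (x₀, y₀)‖ := by rw [inv_div]
  · intro h f fh u hfh hf hJ
    -- the exponential
    have hexpd : ∀ s : ℂ, HasDerivAt (fun s => Complex.exp (c * s)) (c * Complex.exp (c * s)) s := by
      intro s
      have h1 : HasDerivAt (fun s : ℂ => c * s) (c * 1) s := (hasDerivAt_id s).const_mul c
      have h2 := h1.cexp
      rw [mul_one, mul_comm] at h2
      exact h2
    have hnear : ∀ᶠ s in 𝓝 (0 : ℂ), Complex.exp (c * s) ∈ ball (0 : ℂ) 2 := by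
      have h1 : ContinuousAt (fun s => Complex.exp (c * s)) 0 := (hexpd 0).continuousAt
      apply h1
      apply isOpen_ball.mem_nhds
      simp
    have hB : ∀ x ∈ ball (0 : ℂ) 2, x ≠ 0 → 0 < ‖𝔞 x‖ := by
      intro x hxB hx0
      obtain ⟨h1, h2, _⟩ := hx x hxB
      rw [h1, norm_pos_iff]
      exact mul_ne_zero hx0 h2
    -- the domain
    set U : Set (ℂ × E) := {p | 0 < ‖p.1 - x₀‖ ∧ ‖p.1 - x₀‖ < ρ' ∧ ‖p.2 - y₀‖ < ρ'} with hUdef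
    have hU : IsOpen U := by
      have h1 : Continuous (fun p : ℂ × E => ‖p.1 - x₀‖) := by fun_prop
      have h2 : Continuous (fun p : ℂ × E => ‖p.2 - y₀‖) := by fun_prop
      exact (isOpen_lt continuous_const h1).inter
        ((isOpen_lt h1 continuous_const).inter (isOpen_lt h2 continuous_const))
    have hz : ∀ (k : ℤ), ∀ p ∈ U, AnalyticAt ℂ (fun q : ℂ × E => (q.1 - x₀) ^ k) p := by
      intro k p hp
      have h1 : AnalyticAt ℂ (fun q : ℂ × E => q.1 - x₀) p := analyticAt_fst.sub analyticAt_const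
      have h2 : p.1 - x₀ ≠ 0 := norm_pos_iff.1 hp.1
      have h3 : AnalyticAt ℂ (fun z : ℂ => z ^ k) (p.1 - x₀) := analyticAt_id.zpow h2
      exact AnalyticAt.comp' (f := fun q : ℂ × E => q.1 - x₀) h3 h1
    have hξU : AnalyticOnNhd ℂ ξ U := by
      intro p hp
      have h1 : AnalyticAt ℂ (fun q : ℂ × E =>
          ((q.1 - x₀) ^ (1 - (n : ℤ)) * Vh q, (q.1 - x₀) ^ (1 - (n : ℤ)) • W1 q)) p := by
        obtain ⟨a1, a2, _⟩ := hpoly p.1 hp.2.1 p.2 hp.2.2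
        exact ((hz _ p hp).mul a1).prod ((hz _ p hp).smul a2)
      refine h1.congr ?_
      filter_upwards [hU.mem_nhds hp] with q hq
      exact (eξ q.1 hq.1 (hq.2.1.trans_le hρ'ρ) q.2 (hq.2.2.trans_le hρ'ρ)).symm
    have hTU : AnalyticOnNhd ℂ T U := by
      intro p hp
      have h1 : AnalyticAt ℂ (fun q : ℂ × E =>
          (q.1 - x₀) ^ (-(n : ℤ)) * ((n : ℂ) * Vh q + (q.1 - x₀) * τ1 q)) p := by
        obtain ⟨a1, _, a3, _⟩ := hpoly p.1 hp.2.1 p.2 hp.2.2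
        exact (hz _ p hp).mul ((analyticAt_const.mul a1).add
          ((analyticAt_fst.sub analyticAt_const).mul a3))
      refine h1.congr ?_
      filter_upwards [hU.mem_nhds hp] with q hq
      exact (eT q.1 hq.1 (hq.2.1.trans_le hρ'ρ) q.2 (hq.2.2.trans_le hρ'ρ)).symm
    have hfU : AnalyticOnNhd ℂ f U := by
      intro p hp
      have h1 : AnalyticAt ℂ (fun q : ℂ × E => (q.1 - x₀) ^ (-(h : ℤ)) * fh q) p :=
        (hz _ p hp).mul (hfh p.1 (hp.2.1.trans_le hρ'ρ) p.2 (hp.2.2.trans_le hρ'ρ))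
      refine h1.congr ?_
      filter_upwards [hU.mem_nhds hp] with q hq
      exact (hf q.1 hq.1 (hq.2.1.trans_le hρ'ρ) q.2 (hq.2.2.trans_le hρ'ρ)).symm
    have hpU : (x₁, y₁) ∈ U := ⟨hx₁, hx1b, hy1b⟩
    -- the solution
    have hflow : Jet ξ (fun _ => 0) T (x₁, y₁) f
        (fun s => f (x₀ + 𝔞 (Complex.exp (c * s)), 𝔶 (Complex.exp (c * s)))) := by
      refine jet_of_flow (γ := fun s => (x₀ + 𝔞 (Complex.exp (c * s)), 𝔶 (Complex.exp (c * s))))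
        (M := fun s => 𝔫 (Complex.exp (c * s)) * 𝔞 (Complex.exp (c * s)) ^ n)
        hU hξU hTU hfU hpU ?_ ?_ ?_ ?_
      · simp [e𝔞, e𝔶]
      · simp only [mul_zero, Complex.exp_zero, e𝔫, e𝔞]
        rw [zpow_neg, zpow_natCast, inv_mul_cancel₀ (pow_ne_zero _ hα)]
      · filter_upwards [hnear] with s hs
        set x : ℂ := Complex.exp (c * s) with hxs
        have hx0 : x ≠ 0 := Complex.exp_ne_zero _
        obtain ⟨h1, h2, h3, h4, h5, h6, h7⟩ := hx x hs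
        have ha0 : 0 < ‖𝔞 x‖ := hB x hs hx0
        have ha0' : 𝔞 x ≠ 0 := norm_pos_iff.1 ha0
        have k1 : HasDerivAt (fun s => 𝔞 (Complex.exp (c * s))) (deriv 𝔞 x * (c * x)) s :=
          HasDerivAt.comp s ((d𝔞.differentiableAt (isOpen_ball.mem_nhds hs)).hasDerivAt) (hexpd s)
        have k2 : HasDerivAt (fun s => 𝔶 (Complex.exp (c * s))) ((c * x) • deriv 𝔶 x) s :=
          HasDerivAt.scomp s ((d𝔶.differentiableAt (isOpen_ball.mem_nhds hs)).hasDerivAt) (hexpd s)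
        have k3 := (k1.const_add x₀).prodMk k2
        have e1 := eξ (x₀ + 𝔞 x) (by rw [add_sub_cancel_left]; exact ha0)
          (by rw [add_sub_cancel_left]; exact h3.trans_le hρ'ρ) (𝔶 x) (h4.trans_le hρ'ρ)
        rw [add_sub_cancel_left] at e1
        have e2 : 𝔫 x * 𝔞 x ^ n * 𝔞 x ^ (1 - (n : ℤ)) = 𝔫 x * 𝔞 x := by
          rw [mul_assoc, ← zpow_natCast, ← zpow_add₀ ha0']
          simp
        have e3 : (𝔫 x * 𝔞 x ^ n) • ξ (x₀ + 𝔞 x, 𝔶 x) = (deriv 𝔞 x * (c * x), (c * x) • deriv 𝔶 x) := by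
          rw [e1, Prod.smul_mk, smul_eq_mul, smul_smul, ← mul_assoc, e2, h6, ← h5]
          congr 1
          ring
        rw [e3]
        exact k3
      · filter_upwards [hnear] with s hs
        set x : ℂ := Complex.exp (c * s) with hxs
        have hx0 : x ≠ 0 := Complex.exp_ne_zero _
        obtain ⟨h1, h2, h3, h4, h5, h6, h7⟩ := hx x hs
        have ha0 : 0 < ‖𝔞 x‖ := hB x hs hx0
        have ha0' : 𝔞 x ≠ 0 := norm_pos_iff.1 ha0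
        have k1 : HasDerivAt (fun s => 𝔞 (Complex.exp (c * s))) (deriv 𝔞 x * (c * x)) s :=
          HasDerivAt.comp s ((d𝔞.differentiableAt (isOpen_ball.mem_nhds hs)).hasDerivAt) (hexpd s)
        have k2 : HasDerivAt (fun s => 𝔫 (Complex.exp (c * s))) (deriv 𝔫 x * (c * x)) s :=
          HasDerivAt.comp s ((d𝔫.differentiableAt (isOpen_ball.mem_nhds hs)).hasDerivAt) (hexpd s)
        have k3 := k2.mul (k1.pow n)
        have e1 := eT (x₀ + 𝔞 x) (by rw [add_sub_cancel_left]; exact ha0)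
          (by rw [add_sub_cancel_left]; exact h3.trans_le hρ'ρ) (𝔶 x) (h4.trans_le hρ'ρ)
        rw [add_sub_cancel_left] at e1
        have e2 : (n : ℂ) * 𝔞 x ^ (n - 1) * 𝔞 x = n * 𝔞 x ^ n := by
          rcases Nat.eq_zero_or_pos n with hn | hn
          · simp [hn]
          · rw [mul_assoc, ← pow_succ, Nat.sub_add_cancel hn]
        have e4 : 𝔞 x ^ n * 𝔞 x ^ (-(n : ℤ)) = 1 := by
          rw [← zpow_natCast, ← zpow_add₀ ha0']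
          simp
        have e3 : (𝔫 x * 𝔞 x ^ n) ^ 2 * T (x₀ + 𝔞 x, 𝔶 x) =
            deriv 𝔫 x * (c * x) * 𝔞 x ^ n +
              𝔫 x * ((n : ℂ) * 𝔞 x ^ (n - 1) * (deriv 𝔞 x * (c * x))) := by
          have e5 : deriv 𝔫 x * (c * x) = 𝔫 x ^ 2 * 𝔞 x * τ1 (x₀ + 𝔞 x, 𝔶 x) := by
            rw [← h7]
            ring
          have e6 : deriv 𝔞 x * (c * x) = 𝔫 x * 𝔞 x * Vh (x₀ + 𝔞 x, 𝔶 x) := by
            rw [← h5]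
            ring
          rw [e1, e5, e6]
          calc (𝔫 x * 𝔞 x ^ n) ^ 2 * (𝔞 x ^ (-(n : ℤ)) *
                ((n : ℂ) * Vh (x₀ + 𝔞 x, 𝔶 x) + 𝔞 x * τ1 (x₀ + 𝔞 x, 𝔶 x)))
              = 𝔫 x ^ 2 * 𝔞 x ^ n * (𝔞 x ^ n * 𝔞 x ^ (-(n : ℤ))) *
                ((n : ℂ) * Vh (x₀ + 𝔞 x, 𝔶 x) + 𝔞 x * τ1 (x₀ + 𝔞 x, 𝔶 x)) := by ring
            _ = 𝔫 x ^ 2 * 𝔞 x * τ1 (x₀ + 𝔞 x, 𝔶 x) * 𝔞 x ^ n +
                𝔫 x * 𝔫 x * ((n : ℂ) * 𝔞 x ^ n) * Vh (x₀ + 𝔞 x, 𝔶 x) := by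
                rw [e4]
                ring
            _ = _ := by
                rw [← e2]
                ring
        rw [e3]
        exact k3
    have huniq := hJ.unique hflow
    -- the function of `e^{cs}`
    have hg : DifferentiableOn ℂ (fun x => (g₀ x) ^ (-(h : ℤ)) * fh (x₀ + 𝔞 x, 𝔶 x))
        (ball 0 2) := by
      intro x hxB
      obtain ⟨h1, h2, h3, h4, _⟩ := hx x hxB
      have a1 : DifferentiableAt ℂ g₀ x := dg.differentiableAt (isOpen_ball.mem_nhds hxB)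
      have a2 : DifferentiableAt ℂ 𝔞 x := d𝔞.differentiableAt (isOpen_ball.mem_nhds hxB)
      have a3 : DifferentiableAt ℂ 𝔶 x := d𝔶.differentiableAt (isOpen_ball.mem_nhds hxB)
      have a4 : AnalyticAt ℂ fh (x₀ + 𝔞 x, 𝔶 x) := hfh _ (by
        rw [add_sub_cancel_left]; exact h3.trans_le hρ'ρ) _ (h4.trans_le hρ'ρ)
      have a5 : DifferentiableAt ℂ (fun x => (x₀ + 𝔞 x, 𝔶 x)) x := (a2.const_add x₀).prodMk a3
      have a6 : DifferentiableAt ℂ (fun x => fh (x₀ + 𝔞 x, 𝔶 x)) x :=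
        DifferentiableAt.comp x a4.differentiableAt a5
      have a7 : DifferentiableAt ℂ (fun x => (g₀ x) ^ (-(h : ℤ))) x := a1.zpow (Or.inl h2)
      exact (a7.mul a6).differentiableWithinAt
    have hevt : ∀ᶠ s in 𝓝 (0 : ℂ), Complex.exp (h * (c * s)) * u s =
        (g₀ (Complex.exp (c * s))) ^ (-(h : ℤ)) *
          fh (x₀ + 𝔞 (Complex.exp (c * s)), 𝔶 (Complex.exp (c * s))) := by
      filter_upwards [huniq, hnear] with s hs hsB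
      rw [hs]
      set x : ℂ := Complex.exp (c * s) with hxs
      have hx0 : x ≠ 0 := Complex.exp_ne_zero _
      obtain ⟨h1, h2, h3, h4, _⟩ := hx x hsB
      have ha0 : 0 < ‖𝔞 x‖ := hB x hsB hx0
      have e1 := hf (x₀ + 𝔞 x) (by rw [add_sub_cancel_left]; exact ha0)
          (by rw [add_sub_cancel_left]; exact h3.trans_le hρ'ρ) (𝔶 x) (h4.trans_le hρ'ρ)
      rw [add_sub_cancel_left] at e1
      rw [e1, Complex.exp_nat_mul, ← hxs]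
      have e2 : x ^ h * 𝔞 x ^ (-(h : ℤ)) = (g₀ x) ^ (-(h : ℤ)) := by
        rw [h1, mul_zpow, ← mul_assoc, ← zpow_natCast, ← zpow_add₀ hx0]
        simp
      rw [← mul_assoc, e2]
    refine ⟨⟨_, hg, hevt⟩, fun hne => ⟨_, hg, ?_, hevt⟩⟩
    obtain ⟨h1, h2, h3, h4, _⟩ := hx 0 (by simp)
    have h5 : 𝔞 0 = 0 := by rw [h1, zero_mul]
    rw [h5, add_zero]
    exact mul_ne_zero (zpow_ne_zero _ h2) (hne _ (h4.trans_le hρ'ρ))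

end Pool.Agent.H43.FX
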