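import Pool.Agent.H43.FX.HolODE

/-!
# FX-END : periodic solutions near a cylinder end

The system is `α' = N α a(α,y)`, `y' = N α Y(α,y)`, `N' = N² α τ(α,y)`; the solution is written
in the variable `x = e^{cs}` (so `d/ds = c x d/dx`), with `x = 1` at time `0`.

Proof.  Choose `ε₁ ≤ min(ε,1)` such that `a, τ, Y` are holomorphic and bounded on the polydisc
`{‖α‖ < 2ε₁, ‖y - y₀‖ < 2ε₁}`, with bounded derivatives (so Lipschitz), with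
`‖a‖ ≥ m₀ > 0` and `‖a - a(0,y₀)‖ ≤ ‖a(0,y₀)‖/100` there.  Let `δ > 0` be very small compared to
`ε₁` and to the inverses of all the bounds; fix `α₀, y₁, N₀`.

(1) Leaf: solve `dy/dα = Y/a (α, y)`, `dν/dα = ν τ/a (α, y)` with `y(α₀) = y₁`, `ν(α₀) = 1` on
`ball α₀ (8δ)` (`hol_ode` with `E × ℂ`, `w₀ = (y₁, 1)`, `R = min(ε₁, 1/100)`; the right-hand
side is bounded and Lipschitz there, `f(α,(y,ν)) = (a⁻¹ • Y, ν τ a⁻¹)`).
`ball 0 (7δ) ⊆ ball α₀ (8δ)`.  Then `‖y - y₁‖ < ε₁/2`, `‖ν - 1‖ < 1/100`.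
(2) `C(α) = ν(α) a(α, y α)` is holomorphic on `ball 0 (7δ)`, with
`‖C - a(0,y₀)‖ ≤ ‖a(0,y₀)‖/20`, so `C(0) ≠ 0`; put `c = N₀ C(0)`.
`‖c - N₀ a(α₀,y₁)‖ ≤ ‖N₀ a(α₀,y₁)‖/2`.
Let `D(α) = (C(α) - C(0))/α`, holomorphic on `ball 0 (7δ)` (`dslope C 0`), and
`‖D‖ ≤ K₀` on `ball 0 (6δ)` with `K₀ δ ≤ 1/100·‖a(0,y₀)‖` (Schwarz lemma/maximum principle: on
`‖α‖ = ρ < 7δ`, `‖D‖ ≤ 2 sup‖C - C(0)‖/ρ`; to have smallness relative to `1/δ` use that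
`‖C - C(0)‖` on the big ball can be made arbitrarily small relative to `‖a(0,y₀)‖`: replace the
constants `1/20, 1/100` by a small `η`, so `‖D‖ ≤ η ‖a(0,y₀)‖/δ`).
(3) Koenigs linearisation: solve, in the variable `x` (normalised so that `α = α₀ x e^{u}`),
`u'(x) = α₀ e^{u} D(α₀ x e^{u})/C(0)`, `u(1) = 0`, on `ball 1 3 ⊇ ball 0 2` (`hol_ode` with
`R = 1/4`: for `‖x‖ < 4`, `‖u‖ < 1/4`, `‖α₀ x e^u‖ < 6δ`; the right-hand side is bounded by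
`2 δ η‖a(0,y₀)‖/(δ ‖C 0‖) ≤ 3η`, and it is Lipschitz in `u` with a constant `≤ const·η` — for
the derivative of `D` use a Cauchy estimate on a slightly larger disc).
(4) Put `𝔞 x = α₀ x e^{u x}`, `g x = α₀ e^{u x}`, `𝔶 x = y(𝔞 x)`, `𝔫 x = N₀ ν(𝔞 x)`.
`𝔞 1 = α₀` etc.  Then
`c x 𝔞' = c x α₀ e^u (1 + x u') = c 𝔞 (1 + x α₀ e^u D(𝔞)/C(0)) = c 𝔞 (C(0) + 𝔞 D(𝔞))/C(0)
= c 𝔞 C(𝔞)/C(0) = N₀ 𝔞 C(𝔞) = 𝔫 𝔞 a(𝔞, 𝔶)`, and
`c x 𝔶' = y'(𝔞) c x 𝔞' = (Y/a)(𝔞,𝔶) 𝔫 𝔞 a = 𝔫 𝔞 Y`, and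
`c x 𝔫' = N₀ ν'(𝔞) c x 𝔞' = N₀ ν(𝔞) (τ/a) 𝔫 𝔞 a = 𝔫² 𝔞 τ`.
-/

namespace Pool.Agent.H43.FX

open Set Metric Filter Topology

private lemma exp_half_lt : Real.exp (1 / 2 : ℝ) < 7 / 4 := by
  have h := Real.exp_one_lt_d9
  have h2 : Real.exp (1 / 2 : ℝ) ^ 2 = Real.exp 1 := by
    rw [← Real.exp_nat_mul]; norm_num
  by_contra hcon
  push Not at hcon
  have h3 : (7 / 4 : ℝ) ^ 2 ≤ Real.exp (1 / 2 : ℝ) ^ 2 := by gcongr
  rw [h2] at h3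
  norm_num at h3
  linarith

private lemma norm_exp_lt {u : ℂ} (hu : ‖u‖ < 1 / 2) : ‖Complex.exp u‖ < 7 / 4 := by
  calc ‖Complex.exp u‖ ≤ Real.exp ‖u‖ := Complex.norm_exp_le_exp_norm u
    _ ≤ Real.exp (1 / 2) := Real.exp_le_exp.2 hu.le
    _ < 7 / 4 := exp_half_lt

/-- Koenigs linearisation. -/
private lemma koenigs {C : ℂ → ℂ} {A : ℂ} (hA : A ≠ 0) {δ : ℝ} (hδ : 0 < δ)
    (hC : DifferentiableOn ℂ C (ball 0 (7 * δ)))
    (hCA : ∀ α ∈ ball (0 : ℂ) (7 * δ), ‖C α - A‖ ≤ 1 / 100 * ‖A‖)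
    {α₀ : ℂ} (hα₀ : ‖α₀‖ < δ) :
    ∃ u : ℂ → ℂ, u 1 = 0 ∧ ∀ x ∈ ball (0 : ℂ) 2, ‖u x‖ < 1 / 8 ∧
      HasDerivAt u (α₀ * Complex.exp (u x) * dslope C 0 (α₀ * x * Complex.exp (u x)) / C 0) x := by
  have hApos : 0 < ‖A‖ := norm_pos_iff.2 hA
  have h0mem : (0 : ℂ) ∈ ball (0 : ℂ) (7 * δ) := mem_ball_self (by positivity)
  have hC0 : 99 / 100 * ‖A‖ ≤ ‖C 0‖ := by
    have h1 := hCA 0 h0mem
    have h2 : ‖A‖ ≤ ‖C 0‖ + ‖C 0 - A‖ := by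
      have := norm_sub_le (C 0) (C 0 - A)
      simpa using this
    linarith
  have hC0pos : 0 < ‖C 0‖ := lt_of_lt_of_le (by positivity) hC0
  have hD : DifferentiableOn ℂ (dslope C 0) (ball 0 (7 * δ)) :=
    (Complex.differentiableOn_dslope (isOpen_ball.mem_nhds h0mem)).2 hC
  have hDb : ∀ α ∈ ball (0 : ℂ) (7 * δ), ‖dslope C 0 α‖ ≤ (2 / 100 * ‖A‖) / (7 * δ) := by
    intro α hα
    refine Complex.norm_dslope_le_div_of_mapsTo_ball hC ?_ hα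
    intro β hβ
    rw [mem_closedBall, dist_eq_norm]
    have h1 := hCA β hβ
    have h2 := hCA 0 h0mem
    calc ‖C β - C 0‖ = ‖(C β - A) - (C 0 - A)‖ := by congr 1; ring
      _ ≤ ‖C β - A‖ + ‖C 0 - A‖ := norm_sub_le _ _
      _ ≤ 2 / 100 * ‖A‖ := by linarith
  -- arguments stay in the disc
  have harg : ∀ x u : ℂ, ‖x‖ < 4 → ‖u‖ < 1 / 2 →
      α₀ * x * Complex.exp u ∈ ball (0 : ℂ) (7 * δ) := by
    intro x u hx hu
    rw [mem_ball_zero_iff, norm_mul, norm_mul]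
    have h1 := norm_exp_lt hu
    have h2 : ‖α₀‖ * ‖x‖ ≤ δ * 4 := by gcongr
    have h3 : 0 < ‖Complex.exp u‖ := norm_pos_iff.2 (Complex.exp_ne_zero u)
    calc ‖α₀‖ * ‖x‖ * ‖Complex.exp u‖ ≤ δ * 4 * ‖Complex.exp u‖ := by gcongr
      _ < δ * 4 * (7 / 4) := by gcongr
      _ = 7 * δ := by ring
  let f₂ : ℂ × ℂ → ℂ := fun p =>
    α₀ * Complex.exp p.2 * dslope C 0 (α₀ * p.1 * Complex.exp p.2) / C 0
  have hf₂b : ∀ x u : ℂ, ‖x‖ < 4 → ‖u‖ < 1 / 2 → ‖f₂ (x, u)‖ ≤ 1 / 100 := by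
    intro x u hx hu
    have h1 := norm_exp_lt hu
    have h2 := hDb _ (harg x u hx hu)
    have h3 : ‖f₂ (x, u)‖ = ‖α₀‖ * ‖Complex.exp u‖ *
        ‖dslope C 0 (α₀ * x * Complex.exp u)‖ / ‖C 0‖ := by
      simp only [f₂, norm_mul, norm_div]
    rw [h3, div_le_iff₀ hC0pos]
    calc ‖α₀‖ * ‖Complex.exp u‖ * ‖dslope C 0 (α₀ * x * Complex.exp u)‖
        ≤ δ * (7 / 4) * ((2 / 100 * ‖A‖) / (7 * δ)) := by gcongr
      _ = 1 / 200 * ‖A‖ := by field_simp; ring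
      _ ≤ 1 / 100 * (99 / 100 * ‖A‖) := by nlinarith
      _ ≤ 1 / 100 * ‖C 0‖ := by gcongr
  have hf₂d : DifferentiableOn ℂ f₂ (ball (0 : ℂ) 4 ×ˢ ball (0 : ℂ) (1 / 2)) := by
    have hin : DifferentiableOn ℂ (fun p : ℂ × ℂ => α₀ * p.1 * Complex.exp p.2)
        (ball (0 : ℂ) 4 ×ˢ ball (0 : ℂ) (1 / 2)) := by fun_prop
    have hcomp : DifferentiableOn ℂ (fun p : ℂ × ℂ => dslope C 0 (α₀ * p.1 * Complex.exp p.2))
        (ball (0 : ℂ) 4 ×ˢ ball (0 : ℂ) (1 / 2)) := by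
      refine hD.comp hin ?_
      rintro ⟨x, u⟩ ⟨hx, hu⟩
      exact harg x u (by simpa using hx) (by simpa using hu)
    have hex : DifferentiableOn ℂ (fun p : ℂ × ℂ => α₀ * Complex.exp p.2)
        (ball (0 : ℂ) 4 ×ˢ ball (0 : ℂ) (1 / 2)) := by fun_prop
    refine ((hex.mul hcomp).mul_const ((C 0)⁻¹)).congr ?_
    intro p _
    simp [f₂, div_eq_mul_inv]
  have hball : ball (1 : ℂ) 3 ⊆ ball (0 : ℂ) 4 := by
    intro x hx
    rw [mem_ball, dist_eq_norm] at hx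
    rw [mem_ball_zero_iff]
    have : ‖x‖ ≤ ‖x - 1‖ + ‖(1 : ℂ)‖ := by
      have := norm_add_le (x - 1) 1
      simpa using this
    rw [norm_one] at this
    linarith
  obtain ⟨u, hu1, hu⟩ := hol_ode (f := f₂) (x₀ := 1) (w₀ := 0) (r := 3) (R := 1 / 8)
    (K := 1 / 100) (L := 8 / 100) (by norm_num) (by norm_num)
    (hf₂d.mono (Set.prod_mono hball (ball_subset_ball (by norm_num))))
    (by
      rintro ⟨x, u⟩ ⟨hx, hu⟩
      have hx' := hball hx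
      rw [mem_ball_zero_iff] at hx'
      simp only [mem_ball_zero_iff] at hu
      exact hf₂b x u hx' (by linarith))
    (by
      intro x hx w hw w' hw'
      have hx' := hball hx
      rw [mem_ball_zero_iff] at hx' hw hw'
      have hsub : ball w (1 / 4) ⊆ ball (0 : ℂ) (1 / 2) := by
        intro v hv
        rw [mem_ball, dist_eq_norm] at hv
        rw [mem_ball_zero_iff]
        have : ‖v‖ ≤ ‖v - w‖ + ‖w‖ := by
          have := norm_add_le (v - w) w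
          simpa using this
        linarith
      have hd : DifferentiableOn ℂ (fun v => f₂ (x, v)) (ball w (1 / 4)) := by
        refine hf₂d.comp (by fun_prop) ?_
        intro v hv
        exact ⟨by simpa using hx', hsub hv⟩
      have hm : MapsTo (fun v => f₂ (x, v)) (ball w (1 / 4))
          (closedBall ((fun v => f₂ (x, v)) w) (2 / 100)) := by
        intro v hv
        rw [mem_closedBall, dist_eq_norm]
        have h1 := hf₂b x v hx' (by simpa using hsub hv)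
        have h2 := hf₂b x w hx' (by linarith)
        calc ‖f₂ (x, v) - f₂ (x, w)‖ ≤ ‖f₂ (x, v)‖ + ‖f₂ (x, w)‖ := norm_sub_le _ _
          _ ≤ 2 / 100 := by linarith
      have hz : w' ∈ ball w (1 / 4) := by
        rw [mem_ball, dist_eq_norm]
        calc ‖w' - w‖ ≤ ‖w'‖ + ‖w‖ := norm_sub_le _ _
          _ < 1 / 4 := by linarith
      have := Complex.dist_le_div_mul_dist_of_mapsTo_ball hd hm hz
      rw [dist_eq_norm, dist_eq_norm] at this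
      rw [norm_sub_rev, norm_sub_rev w w']
      refine this.trans (le_of_eq ?_)
      norm_num)
    (by norm_num) (by norm_num)
  refine ⟨u, hu1, fun x hx => ?_⟩
  have hx3 : x ∈ ball (1 : ℂ) 3 := by
    rw [mem_ball_zero_iff] at hx
    rw [mem_ball, dist_eq_norm]
    calc ‖x - 1‖ ≤ ‖x‖ + ‖(1 : ℂ)‖ := norm_sub_le _ _
      _ < 3 := by rw [norm_one]; linarith
  obtain ⟨h1, h2⟩ := hu x hx3
  exact ⟨by simpa using h1, h2⟩

theorem end_lemma {E : Type*} [NormedAddCommGroup E] [NormedSpace ℂ E] [CompleteSpace E]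
    {y₀ : E} {a τ : ℂ × E → ℂ} {Y : ℂ × E → E} (ha : AnalyticAt ℂ a (0, y₀))
    (hτ : AnalyticAt ℂ τ (0, y₀)) (hY : AnalyticAt ℂ Y (0, y₀)) (h0 : a (0, y₀) ≠ 0)
    {ε : ℝ} (hε : 0 < ε) :
    ∃ δ : ℝ, 0 < δ ∧ ∀ α₀ : ℂ, 0 < ‖α₀‖ → ‖α₀‖ < δ → ∀ y₁ : E, ‖y₁ - y₀‖ < δ →
      ∀ N₀ : ℂ, N₀ ≠ 0 → ∃ (c : ℂ) (𝔞 𝔫 g : ℂ → ℂ) (𝔶 : ℂ → E),
        c ≠ 0 ∧ ‖c - N₀ * a (α₀, y₁)‖ ≤ ‖N₀ * a (α₀, y₁)‖ / 2 ∧
        DifferentiableOn ℂ 𝔞 (ball 0 2) ∧ DifferentiableOn ℂ 𝔫 (ball 0 2) ∧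
        DifferentiableOn ℂ g (ball 0 2) ∧ DifferentiableOn ℂ 𝔶 (ball 0 2) ∧
        𝔞 1 = α₀ ∧ 𝔶 1 = y₁ ∧ 𝔫 1 = N₀ ∧
        ∀ x ∈ ball (0 : ℂ) 2, 𝔞 x = x * g x ∧ g x ≠ 0 ∧ ‖𝔞 x‖ < ε ∧ ‖𝔶 x - y₀‖ < ε ∧
          c * x * deriv 𝔞 x = 𝔫 x * 𝔞 x * a (𝔞 x, 𝔶 x) ∧
          (c * x) • deriv 𝔶 x = (𝔫 x * 𝔞 x) • Y (𝔞 x, 𝔶 x) ∧
          c * x * deriv 𝔫 x = 𝔫 x ^ 2 * 𝔞 x * τ (𝔞 x, 𝔶 x) := by
  have hApos : 0 < ‖a (0, y₀)‖ := norm_pos_iff.2 h0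
  -- the functions on `ℂ × (E × ℂ)`
  have hπ : AnalyticAt ℂ (fun p : ℂ × (E × ℂ) => (p.1, p.2.1)) (0, (y₀, 1)) :=
    analyticAt_fst.prod (analyticAt_fst.comp analyticAt_snd)
  have ha' : AnalyticAt ℂ (fun p : ℂ × (E × ℂ) => a (p.1, p.2.1)) (0, (y₀, 1)) :=
    AnalyticAt.comp_of_eq ha hπ rfl
  have hτ' : AnalyticAt ℂ (fun p : ℂ × (E × ℂ) => τ (p.1, p.2.1)) (0, (y₀, 1)) :=
    AnalyticAt.comp_of_eq hτ hπ rfl
  have hY' : AnalyticAt ℂ (fun p : ℂ × (E × ℂ) => Y (p.1, p.2.1)) (0, (y₀, 1)) :=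
    AnalyticAt.comp_of_eq hY hπ rfl
  have hν' : AnalyticAt ℂ (fun p : ℂ × (E × ℂ) => p.2.2) (0, (y₀, 1)) :=
    analyticAt_snd.comp analyticAt_snd
  let f : ℂ × (E × ℂ) → E × ℂ := fun p =>
    ((a (p.1, p.2.1))⁻¹ • Y (p.1, p.2.1), p.2.2 * τ (p.1, p.2.1) * (a (p.1, p.2.1))⁻¹)
  have hinv : AnalyticAt ℂ (fun p : ℂ × (E × ℂ) => (a (p.1, p.2.1))⁻¹) (0, (y₀, 1)) :=
    ha'.inv h0
  have hfa : AnalyticAt ℂ f (0, (y₀, 1)) :=
    (hinv.smul hY').prod ((hν'.mul hτ').mul hinv)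
  obtain ⟨L₁, t, ht, hLip⟩ := (hfa.contDiffAt (n := 1)).exists_lipschitzOnWith
  have hcont : ContinuousAt (fun p : ℂ × (E × ℂ) => p.2.2 * a (p.1, p.2.1)) (0, (y₀, 1)) :=
    (hν'.mul ha').continuousAt
  have hcont2 : ContinuousAt (fun p : ℂ × (E × ℂ) => a (p.1, p.2.1)) (0, (y₀, 1)) :=
    ha'.continuousAt
  have hη : 0 < 1 / 100 * ‖a (0, y₀)‖ := by positivity
  have hev : ∀ᶠ p in 𝓝 ((0, (y₀, 1)) : ℂ × (E × ℂ)),
      DifferentiableAt ℂ f p ∧ DifferentiableAt ℂ (fun p : ℂ × (E × ℂ) => a (p.1, p.2.1)) p ∧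
      p ∈ t ∧ ‖p.2.2 * a (p.1, p.2.1) - a (0, y₀)‖ < 1 / 100 * ‖a (0, y₀)‖ ∧
      ‖a (p.1, p.2.1) - a (0, y₀)‖ < 1 / 100 * ‖a (0, y₀)‖ := by
    have e1 := hfa.eventually_analyticAt
    have e2 := ha'.eventually_analyticAt
    have e3 : ∀ᶠ p in 𝓝 ((0, (y₀, 1)) : ℂ × (E × ℂ)),
        ‖p.2.2 * a (p.1, p.2.1) - a (0, y₀)‖ < 1 / 100 * ‖a (0, y₀)‖ := by
      have := Metric.continuousAt_iff'.1 hcont _ hη
      simpa [dist_eq_norm] using this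
    have e4 : ∀ᶠ p in 𝓝 ((0, (y₀, 1)) : ℂ × (E × ℂ)),
        ‖a (p.1, p.2.1) - a (0, y₀)‖ < 1 / 100 * ‖a (0, y₀)‖ := by
      have := Metric.continuousAt_iff'.1 hcont2 _ hη
      simpa [dist_eq_norm] using this
    filter_upwards [e1, e2, ht, e3, e4] with p h1 h2 h3 h4 h5
    exact ⟨h1.differentiableAt, h2.differentiableAt, h3, h4, h5⟩
  obtain ⟨ε₂, hε₂, H₂⟩ := Metric.eventually_nhds_iff_ball.1 hev
  -- the radius
  obtain ⟨ε₁, hε₁, hε₁ε, hε₁2⟩ : ∃ ε₁ : ℝ, 0 < ε₁ ∧ ε₁ ≤ ε ∧ ε₁ ≤ ε₂ :=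
    ⟨min ε ε₂, lt_min hε hε₂, min_le_left _ _, min_le_right _ _⟩
  have H : ∀ p ∈ ball ((0, (y₀, 1)) : ℂ × (E × ℂ)) ε₁,
      DifferentiableAt ℂ f p ∧ DifferentiableAt ℂ (fun p : ℂ × (E × ℂ) => a (p.1, p.2.1)) p ∧
      p ∈ t ∧ ‖p.2.2 * a (p.1, p.2.1) - a (0, y₀)‖ < 1 / 100 * ‖a (0, y₀)‖ ∧
      ‖a (p.1, p.2.1) - a (0, y₀)‖ < 1 / 100 * ‖a (0, y₀)‖ :=
    fun p hp => H₂ p (ball_subset_ball hε₁2 hp)
  have hp0 : ((0, (y₀, 1)) : ℂ × (E × ℂ)) ∈ ball ((0, (y₀, 1)) : ℂ × (E × ℂ)) ε₁ :=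
    mem_ball_self hε₁
  -- bound for `f`
  obtain ⟨K₁, hK₁⟩ : ∃ K₁ : ℝ, ∀ p ∈ ball ((0, (y₀, 1)) : ℂ × (E × ℂ)) ε₁, ‖f p‖ ≤ K₁ := by
    refine ⟨‖f (0, (y₀, 1))‖ + L₁ * ε₁, fun p hp => ?_⟩
    have h1 := hLip.dist_le_mul p (H p hp).2.2.1 _ (H _ hp0).2.2.1
    rw [dist_eq_norm] at h1
    have h2 : ‖f p‖ ≤ ‖f p - f (0, (y₀, 1))‖ + ‖f (0, (y₀, 1))‖ := by
      have := norm_add_le (f p - f (0, (y₀, 1))) (f (0, (y₀, 1)))
      simpa using this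
    have h3 : (L₁ : ℝ) * dist p (0, (y₀, 1)) ≤ L₁ * ε₁ := by
      have : dist p (0, (y₀, 1)) ≤ ε₁ := (mem_ball.1 hp).le
      gcongr
    linarith
  -- the choice of `δ`
  obtain ⟨δ, hδ, hδ1, hδ2, hδ3⟩ : ∃ δ : ℝ, 0 < δ ∧ 18 * δ < ε₁ ∧ K₁ * (8 * δ) < ε₁ / 2 ∧
      (L₁ : ℝ) * (8 * δ) < 1 := by
    have e1 : ∀ᶠ δ in 𝓝[>] (0 : ℝ), 18 * δ < ε₁ := by
      have : Tendsto (fun δ : ℝ => 18 * δ) (𝓝 0) (𝓝 (18 * 0)) :=
        (continuous_const.mul continuous_id).tendsto 0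
      exact (this.eventually (gt_mem_nhds (by simpa using hε₁))).filter_mono nhdsWithin_le_nhds
    have e2 : ∀ᶠ δ in 𝓝[>] (0 : ℝ), K₁ * (8 * δ) < ε₁ / 2 := by
      have : Tendsto (fun δ : ℝ => K₁ * (8 * δ)) (𝓝 0) (𝓝 (K₁ * (8 * 0))) :=
        (continuous_const.mul (continuous_const.mul continuous_id)).tendsto 0
      exact (this.eventually (gt_mem_nhds (by simpa using hε₁))).filter_mono nhdsWithin_le_nhds
    have e3 : ∀ᶠ δ in 𝓝[>] (0 : ℝ), (L₁ : ℝ) * (8 * δ) < 1 := by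
      have : Tendsto (fun δ : ℝ => (L₁ : ℝ) * (8 * δ)) (𝓝 0) (𝓝 ((L₁ : ℝ) * (8 * 0))) :=
        (continuous_const.mul (continuous_const.mul continuous_id)).tendsto 0
      exact (this.eventually (gt_mem_nhds (by simp))).filter_mono nhdsWithin_le_nhds
    obtain ⟨δ, h1, h2, h3, h4⟩ := (eventually_mem_nhdsWithin.and (e1.and (e2.and e3))).exists
    exact ⟨δ, h1, h2, h3, h4⟩
  refine ⟨δ, hδ, fun α₀ hα₀ hα₀δ y₁ hy₁ N₀ hN₀ => ?_⟩
  -- the leaf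
  have hsub : ball α₀ (8 * δ) ×ˢ ball ((y₁, (1 : ℂ)) : E × ℂ) (ε₁ / 2) ⊆
      ball ((0, (y₀, 1)) : ℂ × (E × ℂ)) ε₁ := by
    rintro ⟨α, y, ν⟩ ⟨hα, hyν⟩
    simp only [mem_ball, Prod.dist_eq, max_lt_iff] at hα hyν ⊢
    simp only [dist_eq_norm, sub_zero] at hα hyν ⊢
    refine ⟨?_, ?_, ?_⟩
    · have : ‖α‖ ≤ ‖α - α₀‖ + ‖α₀‖ := by
        have := norm_add_le (α - α₀) α₀
        simpa using this
      linarith
    · have : ‖y - y₀‖ ≤ ‖y - y₁‖ + ‖y₁ - y₀‖ := by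
        have := norm_add_le (y - y₁) (y₁ - y₀)
        simpa using this
      linarith [hyν.1]
    · linarith [hyν.2]
  obtain ⟨w, hw0, hw⟩ := hol_ode (f := f) (x₀ := α₀) (w₀ := ((y₁, (1 : ℂ)) : E × ℂ))
    (r := 8 * δ) (R := ε₁ / 2) (K := K₁) (L := L₁) (by positivity) (by positivity)
    (fun p hp => (H p (hsub hp)).1.differentiableWithinAt)
    (fun p hp => hK₁ p (hsub hp))
    (by
      intro x hx v hv v' hv'
      have h1 := hLip.dist_le_mul _ (H _ (hsub (mk_mem_prod hx hv))).2.2.1 _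
        (H _ (hsub (mk_mem_prod hx hv'))).2.2.1
      rw [dist_eq_norm, dist_eq_norm] at h1
      refine h1.trans (le_of_eq ?_)
      congr 1
      simp [Prod.norm_def])
    hδ2 hδ3
  have hsub7 : ball (0 : ℂ) (7 * δ) ⊆ ball α₀ (8 * δ) := by
    intro α hα
    rw [mem_ball_zero_iff] at hα
    rw [mem_ball, dist_eq_norm]
    calc ‖α - α₀‖ ≤ ‖α‖ + ‖α₀‖ := norm_sub_le _ _
      _ < 8 * δ := by linarith
  have hwm : ∀ α ∈ ball (0 : ℂ) (7 * δ), ((α, w α) : ℂ × (E × ℂ)) ∈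
      ball ((0, (y₀, 1)) : ℂ × (E × ℂ)) ε₁ :=
    fun α hα => hsub (mk_mem_prod (hsub7 hα) (hw α (hsub7 hα)).1)
  have hwd : ∀ α ∈ ball (0 : ℂ) (7 * δ), HasDerivAt w (f (α, w α)) α :=
    fun α hα => (hw α (hsub7 hα)).2
  let C : ℂ → ℂ := fun α => (w α).2 * a (α, (w α).1)
  have hCd : DifferentiableOn ℂ C (ball 0 (7 * δ)) := by
    intro α hα
    have h1 : DifferentiableAt ℂ w α := (hwd α hα).differentiableAt
    have h2 : DifferentiableAt ℂ (fun α => ((α, w α) : ℂ × (E × ℂ))) α :=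
      differentiableAt_id.prodMk h1
    have h3 : DifferentiableAt ℂ (fun α => a (α, (w α).1)) α :=
      DifferentiableAt.comp (g := fun p : ℂ × (E × ℂ) => a (p.1, p.2.1)) α
        (H _ (hwm α hα)).2.1 h2
    exact (h1.snd.mul h3).differentiableWithinAt
  have hCA : ∀ α ∈ ball (0 : ℂ) (7 * δ), ‖C α - a (0, y₀)‖ ≤ 1 / 100 * ‖a (0, y₀)‖ :=
    fun α hα => (H _ (hwm α hα)).2.2.2.1.le
  obtain ⟨u, hu1, hu⟩ := koenigs h0 hδ hCd hCA hα₀δ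
  have h0mem : (0 : ℂ) ∈ ball (0 : ℂ) (7 * δ) := mem_ball_self (by positivity)
  have hα₀mem : α₀ ∈ ball (0 : ℂ) (7 * δ) := by
    rw [mem_ball_zero_iff]; linarith
  have hC0 : C 0 ≠ 0 := by
    intro h
    have h1 := hCA 0 h0mem
    rw [h, zero_sub, norm_neg] at h1
    linarith
  have hCα₀ : C α₀ = a (α₀, y₁) := by
    simp only [C, hw0, one_mul]
  have hα₀ne : α₀ ≠ 0 := norm_pos_iff.1 hα₀
  -- arguments
  have harg : ∀ x ∈ ball (0 : ℂ) 2, ‖α₀ * x * Complex.exp (u x)‖ < 7 / 2 * δ := by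
    intro x hx
    rw [mem_ball_zero_iff] at hx
    rw [norm_mul, norm_mul]
    have h1 : ‖Complex.exp (u x)‖ < 7 / 4 :=
      norm_exp_lt (by linarith [(hu x (mem_ball_zero_iff.2 hx)).1])
    have h3 : 0 < ‖Complex.exp (u x)‖ := norm_pos_iff.2 (Complex.exp_ne_zero _)
    have h2 : ‖α₀‖ * ‖x‖ ≤ δ * 2 := by gcongr
    calc ‖α₀‖ * ‖x‖ * ‖Complex.exp (u x)‖ ≤ δ * 2 * ‖Complex.exp (u x)‖ := by gcongr
      _ < δ * 2 * (7 / 4) := by gcongr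
      _ = 7 / 2 * δ := by ring
  have harg7 : ∀ x ∈ ball (0 : ℂ) 2, α₀ * x * Complex.exp (u x) ∈ ball (0 : ℂ) (7 * δ) := by
    intro x hx
    rw [mem_ball_zero_iff]
    linarith [harg x hx]
  have hexp : ∀ x ∈ ball (0 : ℂ) 2, HasDerivAt (fun x => Complex.exp (u x))
      (Complex.exp (u x) * (α₀ * Complex.exp (u x) *
        dslope C 0 (α₀ * x * Complex.exp (u x)) / C 0)) x :=
    fun x hx => (hu x hx).2.cexp
  have hg : ∀ x ∈ ball (0 : ℂ) 2, HasDerivAt (fun x => α₀ * Complex.exp (u x))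
      (α₀ * (Complex.exp (u x) * (α₀ * Complex.exp (u x) *
        dslope C 0 (α₀ * x * Complex.exp (u x)) / C 0))) x :=
    fun x hx => (hexp x hx).const_mul α₀
  have hA : ∀ x ∈ ball (0 : ℂ) 2, HasDerivAt (fun x => α₀ * x * Complex.exp (u x))
      (α₀ * Complex.exp (u x) + α₀ * x * (Complex.exp (u x) * (α₀ * Complex.exp (u x) *
        dslope C 0 (α₀ * x * Complex.exp (u x)) / C 0))) x := by
    intro x hx
    have h1 : HasDerivAt (fun x : ℂ => α₀ * x) α₀ x := by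
      simpa using (hasDerivAt_id x).const_mul α₀
    exact h1.mul (hexp x hx)
  have hW : ∀ x ∈ ball (0 : ℂ) 2, HasDerivAt (fun x => w (α₀ * x * Complex.exp (u x)))
      ((α₀ * Complex.exp (u x) + α₀ * x * (Complex.exp (u x) * (α₀ * Complex.exp (u x) *
        dslope C 0 (α₀ * x * Complex.exp (u x)) / C 0))) •
        f (α₀ * x * Complex.exp (u x), w (α₀ * x * Complex.exp (u x)))) x :=
    fun x hx => (hwd _ (harg7 x hx)).scomp x (hA x hx)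
  have hW1 : ∀ x ∈ ball (0 : ℂ) 2, HasDerivAt (fun x => (w (α₀ * x * Complex.exp (u x))).1)
      ((α₀ * Complex.exp (u x) + α₀ * x * (Complex.exp (u x) * (α₀ * Complex.exp (u x) *
        dslope C 0 (α₀ * x * Complex.exp (u x)) / C 0))) •
        f (α₀ * x * Complex.exp (u x), w (α₀ * x * Complex.exp (u x)))).1 x :=
    fun x hx => (ContinuousLinearMap.fst ℂ E ℂ).hasFDerivAt.comp_hasDerivAt x (hW x hx)
  have hW2 : ∀ x ∈ ball (0 : ℂ) 2, HasDerivAt (fun x => N₀ * (w (α₀ * x * Complex.exp (u x))).2)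
      (N₀ * ((α₀ * Complex.exp (u x) + α₀ * x * (Complex.exp (u x) * (α₀ * Complex.exp (u x) *
        dslope C 0 (α₀ * x * Complex.exp (u x)) / C 0))) •
        f (α₀ * x * Complex.exp (u x), w (α₀ * x * Complex.exp (u x)))).2) x :=
    fun x hx => HasDerivAt.const_mul N₀
      ((ContinuousLinearMap.snd ℂ E ℂ).hasFDerivAt.comp_hasDerivAt x (hW x hx))
  -- the key identity
  have hkey : ∀ x ∈ ball (0 : ℂ) 2, N₀ * C 0 * x *
      (α₀ * Complex.exp (u x) + α₀ * x * (Complex.exp (u x) * (α₀ * Complex.exp (u x) *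
        dslope C 0 (α₀ * x * Complex.exp (u x)) / C 0))) =
      N₀ * (w (α₀ * x * Complex.exp (u x))).2 * (α₀ * x * Complex.exp (u x)) *
        a (α₀ * x * Complex.exp (u x), (w (α₀ * x * Complex.exp (u x))).1) := by
    intro x hx
    have h1 : (α₀ * x * Complex.exp (u x)) * dslope C 0 (α₀ * x * Complex.exp (u x)) =
        C (α₀ * x * Complex.exp (u x)) - C 0 := by
      have := sub_smul_dslope C 0 (α₀ * x * Complex.exp (u x))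
      simpa using this
    have h2 : C (α₀ * x * Complex.exp (u x)) = (w (α₀ * x * Complex.exp (u x))).2 *
        a (α₀ * x * Complex.exp (u x), (w (α₀ * x * Complex.exp (u x))).1) := rfl
    calc N₀ * C 0 * x *
      (α₀ * Complex.exp (u x) + α₀ * x * (Complex.exp (u x) * (α₀ * Complex.exp (u x) *
        dslope C 0 (α₀ * x * Complex.exp (u x)) / C 0)))
        = N₀ * (α₀ * x * Complex.exp (u x)) * (C 0 + (α₀ * x * Complex.exp (u x)) *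
          dslope C 0 (α₀ * x * Complex.exp (u x))) := by
          field_simp
      _ = N₀ * (α₀ * x * Complex.exp (u x)) * C (α₀ * x * Complex.exp (u x)) := by
          rw [h1]; ring
      _ = _ := by rw [h2]; ring
  refine ⟨N₀ * C 0, fun x => α₀ * x * Complex.exp (u x),
    fun x => N₀ * (w (α₀ * x * Complex.exp (u x))).2, fun x => α₀ * Complex.exp (u x),
    fun x => (w (α₀ * x * Complex.exp (u x))).1, mul_ne_zero hN₀ hC0, ?_,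
    fun x hx => (hA x hx).differentiableAt.differentiableWithinAt,
    fun x hx => (hW2 x hx).differentiableAt.differentiableWithinAt,
    fun x hx => (hg x hx).differentiableAt.differentiableWithinAt,
    fun x hx => (hW1 x hx).differentiableAt.differentiableWithinAt, ?_, ?_, ?_, ?_⟩
  · rw [← hCα₀, ← mul_sub, norm_mul, norm_mul]
    have h1 := hCA 0 h0mem
    have h2 := hCA α₀ hα₀mem
    have h3 : ‖C 0 - C α₀‖ ≤ 2 / 100 * ‖a (0, y₀)‖ := by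
      calc ‖C 0 - C α₀‖ = ‖(C 0 - a (0, y₀)) - (C α₀ - a (0, y₀))‖ := by congr 1; ring
        _ ≤ ‖C 0 - a (0, y₀)‖ + ‖C α₀ - a (0, y₀)‖ := norm_sub_le _ _
        _ ≤ 2 / 100 * ‖a (0, y₀)‖ := by linarith
    have h4 : ‖a (0, y₀)‖ ≤ ‖C α₀‖ + ‖C α₀ - a (0, y₀)‖ := by
      have := norm_sub_le (C α₀) (C α₀ - a (0, y₀))
      simpa using this
    have h5 : ‖C 0 - C α₀‖ ≤ ‖C α₀‖ / 2 := by linarith
    calc ‖N₀‖ * ‖C 0 - C α₀‖ ≤ ‖N₀‖ * (‖C α₀‖ / 2) := by gcongr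
      _ = ‖N₀‖ * ‖C α₀‖ / 2 := by ring
  · simp [hu1]
  · simp [hu1, hw0]
  · simp [hu1, hw0]
  · intro x hx
    have hane : a (α₀ * x * Complex.exp (u x), (w (α₀ * x * Complex.exp (u x))).1) ≠ 0 := by
      intro h
      have h1 := (H _ (hwm _ (harg7 x hx))).2.2.2.2
      simp only [h, zero_sub, norm_neg] at h1
      linarith
    refine ⟨by ring, mul_ne_zero hα₀ne (Complex.exp_ne_zero _), ?_, ?_, ?_, ?_, ?_⟩
    · linarith [harg x hx]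
    · have h1 := hwm _ (harg7 x hx)
      simp only [mem_ball, Prod.dist_eq, max_lt_iff] at h1
      simp only [dist_eq_norm] at h1
      linarith [h1.2.1]
    · rw [(hA x hx).deriv]
      exact hkey x hx
    · rw [(hW1 x hx).deriv, Prod.smul_fst, smul_smul, hkey x hx]
      simp only [f]
      rw [smul_smul, mul_assoc, mul_inv_cancel₀ hane, mul_one]
    · rw [(hW2 x hx).deriv, Prod.smul_snd, smul_eq_mul]
      have h1 := hkey x hx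
      simp only [f]
      set A' := α₀ * x * Complex.exp (u x) with hA'
      set Z := α₀ * Complex.exp (u x) + α₀ * x * (Complex.exp (u x) * (α₀ * Complex.exp (u x) *
        dslope C 0 A' / C 0)) with hZ
      calc N₀ * C 0 * x * (N₀ * (Z * ((w A').2 * τ (A', (w A').1) * (a (A', (w A').1))⁻¹)))
          = (N₀ * C 0 * x * Z) * (N₀ * ((w A').2 * τ (A', (w A').1) *
              (a (A', (w A').1))⁻¹)) := by ring
        _ = (N₀ * (w A').2 * A' * a (A', (w A').1)) * (N₀ * ((w A').2 * τ (A', (w A').1) *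
              (a (A', (w A').1))⁻¹)) := by rw [h1]
        _ = _ := by field_simp

end Pool.Agent.H43.FX
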