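import Pool.Agent.H43.FX.Ring

/-!
# FX-EVALR : values of the special elements at a point

Proof.  As elements of `Aring` (equality of functions on `U5`):
`u_k^13 (∏_j m_j)³ w_l = P k l · ∏_j (P k 0 - b_j P k 1)³` (`u_k m_j = P k 0 - b_j P k 1`, and
`u_k^13 = u_k (u_k^3)^4`); similarly `w_k^13 (∏ ℓ_i)³ u_l = P l k · ∏_i (P 0 k - a_i P 1 k)³`;
`(∏ℓ)³(∏m)³ = ∏_{i} (ℓ_i m_i)³`, `ℓ_i m_i = P00 - a_i P10 - b_i P01 + a_i b_i P11`.
Apply `x`, which is an algebra homomorphism.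
-/

namespace Pool.Agent.H43.FX

open Set Metric Filter Topology

variable {a b z z' : Fin 4 → ℂ} {x : Aring a b z z' →ₐ[ℂ] ℂ} {u w : Fin 2 → ℂ}
  {f : Aring a b z z'}

theorem eval_R (hP : ∀ k l, x (ge a b z z' (GI.P k l)) = u k * w l) (k l : Fin 2)
    (hf : (f : U5 a b → ℂ) = fun q => cu k q.1 ^ 13 * (∏ j, mf b j q.1) ^ 3 * cw l q.1) :
    x f = u k ^ 13 * (∏ j, (w 0 - b j * w 1)) ^ 3 * w l := by
  have h : f = ge a b z z' (GI.P k l) *
      ∏ j, (ge a b z z' (GI.P k 0) - b j • ge a b z z' (GI.P k 1)) ^ 3 := by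
    apply Subtype.ext
    rw [hf]
    funext q
    simp only [Fin.prod_univ_four, Subalgebra.coe_mul, Subalgebra.coe_pow, Subalgebra.coe_sub,
      Subalgebra.coe_smul, Pi.mul_apply, Pi.pow_apply, Pi.sub_apply, Pi.smul_apply, ge, rs, gf,
      smul_eq_mul, mf, cw, if_true, one_ne_zero, if_false]
    ring
  rw [h, map_mul, map_prod]
  simp only [map_pow, map_sub, map_smul, hP, smul_eq_mul, Fin.prod_univ_four]
  ring

theorem eval_R' (hP : ∀ k l, x (ge a b z z' (GI.P k l)) = u k * w l) (k l : Fin 2)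
    (hf : (f : U5 a b → ℂ) = fun q => cw k q.1 ^ 13 * (∏ i, lf a i q.1) ^ 3 * cu l q.1) :
    x f = w k ^ 13 * (∏ i, (u 0 - a i * u 1)) ^ 3 * u l := by
  have h : f = ge a b z z' (GI.P l k) *
      ∏ i, (ge a b z z' (GI.P 0 k) - a i • ge a b z z' (GI.P 1 k)) ^ 3 := by
    apply Subtype.ext
    rw [hf]
    funext q
    simp only [Fin.prod_univ_four, Subalgebra.coe_mul, Subalgebra.coe_pow, Subalgebra.coe_sub,
      Subalgebra.coe_smul, Pi.mul_apply, Pi.pow_apply, Pi.sub_apply, Pi.smul_apply, ge, rs, gf,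
      smul_eq_mul, lf, cu, if_true, one_ne_zero, if_false]
    ring
  rw [h, map_mul, map_prod]
  simp only [map_pow, map_sub, map_smul, hP, smul_eq_mul, Fin.prod_univ_four]
  ring

theorem eval_B (hP : ∀ k l, x (ge a b z z' (GI.P k l)) = u k * w l)
    (hf : (f : U5 a b → ℂ) = fun q => (∏ i, lf a i q.1) ^ 3 * (∏ j, mf b j q.1) ^ 3) :
    x f = (∏ i, (u 0 - a i * u 1)) ^ 3 * (∏ j, (w 0 - b j * w 1)) ^ 3 := by
  have h : f = ∏ i, (ge a b z z' (GI.P 0 0) - a i • ge a b z z' (GI.P 1 0)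
      - b i • ge a b z z' (GI.P 0 1) + (a i * b i) • ge a b z z' (GI.P 1 1)) ^ 3 := by
    apply Subtype.ext
    rw [hf]
    funext q
    rw [SubmonoidClass.coe_finsetProd, Finset.prod_apply, ← mul_pow, ← Finset.prod_mul_distrib,
      ← Finset.prod_pow]
    refine Finset.prod_congr rfl fun i _ => ?_
    simp only [Subalgebra.coe_pow, Subalgebra.coe_sub,
      Subalgebra.coe_add, Subalgebra.coe_smul, Pi.pow_apply, Pi.sub_apply,
      Pi.add_apply, Pi.smul_apply, ge, rs, gf, smul_eq_mul, lf, mf, cu, cw, if_true, one_ne_zero,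
      if_false]
    congr 1
    ring
  rw [h, map_prod, ← mul_pow, ← Finset.prod_mul_distrib, ← Finset.prod_pow]
  refine Finset.prod_congr rfl fun i _ => ?_
  simp only [map_pow, map_sub, map_add, map_smul, hP, smul_eq_mul]
  congr 1
  ring

end Pool.Agent.H43.FX
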