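import Pool.Agent.H29.Flex.Complete

/-!
# FX-EXPAUT : exponentials of locally nilpotent derivations, transport of good points

`exp_aut` : `Θ a = ∑_k s^k σ^k(a)/k!` (finite sum).  It is an algebra homomorphism (Leibniz;
compare `tayP`, `tayHom` in `Pool/Agent/H29/Flex/Complete.lean`, which do the same after
evaluation at a point; one can repeat the construction with values in `A[X]` instead of `ℂ[X]`:
`tayP a = ∑ C (σ^k a / k!) X^k`, then evaluate at `s`).  The inverse is the same for `-s`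
(`Θ_s Θ_{-s} = Θ_0 = id` by the binomial theorem: `Θ_s(Θ_r a) = Θ_{s+r} a`).
`x (Θ a) = ∑ s^k x(σ^k a)/k! = (tayP hσ x a).eval s = flow hσ x s a`.

`GoodPt.of_equiv` : let `y = x ∘ Θ`.  `D ↦ D ∘ Θ` is a linear isomorphism from the tangent space at
`x` onto the tangent space at `y` (inverse: composition with `Θ⁻¹`), so the finranks agree.
If `D` is tangent at `x` then `D ∘ Θ` is in the span of the values `y ∘ σ'`, `σ'` LND, i.e. of
`x ∘ Θ ∘ σ'`; compose with `Θ⁻¹`: `D` is in the span of `x ∘ (Θ σ' Θ⁻¹)`, and `Θ σ' Θ⁻¹` is a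
locally nilpotent derivation.
-/

namespace Pool.Agent.H43.FX

open Pool.Agent.H29.Flex

variable {A : Type*} [CommRing A] [Algebra ℂ A]

/-- The tangent space has dimension `d` and is spanned by values of locally nilpotent
derivations. -/
def GoodPt (d : ℕ) (x : A →ₐ[ℂ] ℂ) : Prop :=
  Module.finrank ℂ (tangentSpace x) = d ∧
    tangentSpace x ≤
      Submodule.span ℂ {D | ∃ σ : Derivation ℂ A A, IsLND σ ∧ D = valueAt x σ}

section tayA

open Polynomial

/-- The Taylor polynomial along a locally nilpotent derivation, with coefficients in the ring. -/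
noncomputable def tayA {σ : Derivation ℂ A A} (hσ : IsLND σ) (a : A) : A[X] :=
  ∑ k ∈ Finset.range (hσ a).choose, C (((k.factorial : ℂ)⁻¹) • σ^[k] a) * X ^ k

theorem coeff_tayA {σ : Derivation ℂ A A} (hσ : IsLND σ) (a : A) (k : ℕ) :
    (tayA hσ a).coeff k = ((k.factorial : ℂ)⁻¹) • σ^[k] a := by
  simp only [tayA, finsetSum_coeff, coeff_C_mul_X_pow]
  rw [Finset.sum_ite_eq]
  split_ifs with h
  · rfl
  · rw [Finset.mem_range, not_lt] at h
    rw [iter_zero_of_le (hσ a).choose_spec h, smul_zero]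

theorem mul_cast_succ (k : ℕ) (a : A) : a * ((k : A) + 1) = ((k : ℂ) + 1) • a := by
  rw [Algebra.smul_def, map_add, map_natCast, map_one, mul_comm]

theorem tayA_derivative {σ : Derivation ℂ A A} (hσ : IsLND σ) (a : A) :
    derivative (tayA hσ a) = tayA hσ (σ a) := by
  ext k
  rw [coeff_derivative, coeff_tayA, coeff_tayA, Nat.factorial_succ,
    Function.iterate_succ_apply, mul_cast_succ, smul_smul]
  congr 1
  have h1 : ((k.factorial : ℕ) : ℂ) ≠ 0 := by exact_mod_cast Nat.factorial_ne_zero k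
  have h2 : ((k : ℂ) + 1) ≠ 0 := by exact_mod_cast Nat.succ_ne_zero k
  push_cast
  field_simp

theorem coeff_zero_tayA {σ : Derivation ℂ A A} (hσ : IsLND σ) (a : A) :
    (tayA hσ a).coeff 0 = a := by
  rw [coeff_tayA]; simp

theorem tayA_add {σ : Derivation ℂ A A} (hσ : IsLND σ) (a b : A) :
    tayA hσ (a + b) = tayA hσ a + tayA hσ b := by
  ext k
  simp only [coeff_add, coeff_tayA, iterate_add', smul_add]

theorem tayA_smul {σ : Derivation ℂ A A} (hσ : IsLND σ) (c : ℂ) (a : A) :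
    tayA hσ (c • a) = c • tayA hσ a := by
  ext k
  simp only [coeff_smul, coeff_tayA, iterate_smul', smul_smul]
  rw [mul_comm]

theorem tayA_mul {σ : Derivation ℂ A A} (hσ : IsLND σ) (a b : A) :
    tayA hσ (a * b) = tayA hσ a * tayA hσ b := by
  have key : ∀ (k : ℕ) (a b : A), (tayA hσ (a * b)).coeff k =
      (tayA hσ a * tayA hσ b).coeff k := by
    intro k
    induction k with
    | zero =>
      intro a b
      rw [mul_coeff_zero, coeff_zero_tayA, coeff_zero_tayA, coeff_zero_tayA]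
    | succ k ih =>
      intro a b
      have h2 : ((k : ℂ) + 1) ≠ 0 := by exact_mod_cast Nat.succ_ne_zero k
      have h3 : IsUnit ((k : A) + 1) := by
        have : ((k : A) + 1) = algebraMap ℂ A ((k : ℂ) + 1) := by
          rw [map_add, map_natCast, map_one]
        rw [this]
        exact (isUnit_iff_ne_zero.2 h2).map _
      apply h3.mul_right_cancel
      rw [← coeff_derivative, ← coeff_derivative, tayA_derivative, derivative_mul,
        tayA_derivative, tayA_derivative, coeff_add, ← ih, ← ih, Derivation.leibniz, tayA_add,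
        coeff_add, smul_eq_mul, smul_eq_mul, mul_comm b, add_comm]
  ext k
  exact key k a b

theorem tayA_one {σ : Derivation ℂ A A} (hσ : IsLND σ) : tayA hσ 1 = 1 := by
  ext k
  cases k with
  | zero => rw [coeff_zero_tayA, coeff_one_zero]
  | succ k =>
    rw [coeff_tayA, Function.iterate_succ_apply, Derivation.map_one_eq_zero,
      iterate_zero', smul_zero, coeff_one, if_neg (Nat.succ_ne_zero k)]

/-- The Taylor expansion as an algebra homomorphism. -/
noncomputable def tayAHom {σ : Derivation ℂ A A} (hσ : IsLND σ) : A →ₐ[ℂ] A[X] :=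
  AlgHom.ofLinearMap
    { toFun := tayA hσ
      map_add' := tayA_add hσ
      map_smul' := tayA_smul hσ }
    (tayA_one hσ) (tayA_mul hσ)

/-- The exponential, as an algebra endomorphism. -/
noncomputable def expHom {σ : Derivation ℂ A A} (hσ : IsLND σ) (s : ℂ) : A →ₐ[ℂ] A :=
  ((Polynomial.aeval (algebraMap ℂ A s) : A[X] →ₐ[A] A).restrictScalars ℂ).comp (tayAHom hσ)

theorem expHom_apply {σ : Derivation ℂ A A} (hσ : IsLND σ) (s : ℂ) (a : A) :
    expHom hσ s a = (tayA hσ a).eval (algebraMap ℂ A s) := by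
  simp [expHom, tayAHom, Polynomial.aeval_def, Polynomial.eval₂_eq_eval_map]

theorem expHom_eq_sum {σ : Derivation ℂ A A} (hσ : IsLND σ) (s : ℂ) (a : A) :
    expHom hσ s a = ∑ k ∈ Finset.range (hσ a).choose,
      (s ^ k * (k.factorial : ℂ)⁻¹) • σ^[k] a := by
  rw [expHom_apply, tayA, eval_finset_sum]
  refine Finset.sum_congr rfl fun k _ => ?_
  rw [eval_mul, eval_C, eval_pow, eval_X, ← map_pow, mul_comm, ← Algebra.smul_def, smul_smul]

theorem eval_expHom {σ : Derivation ℂ A A} (hσ : IsLND σ) (s : ℂ) (x : A →ₐ[ℂ] ℂ) (a : A) :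
    x (expHom hσ s a) = flow hσ x s a := by
  have h : (tayA hσ a).map (x : A →+* ℂ) = tayP hσ x a := by
    ext k
    rw [coeff_map, coeff_tayA, coeff_tayP, tay]
    simp only [RingHom.coe_coe, map_smul, smul_eq_mul]
    rw [div_eq_mul_inv, mul_comm]
  rw [expHom_apply, flow_apply, ← h, eval_map, ← RingHom.coe_coe x, ← Polynomial.eval₂_at_apply]
  simp

theorem iterate_sum' (σ : Derivation ℂ A A) (n : ℕ) {ι : Type*} (t : Finset ι) (f : ι → A) :
    σ^[n] (∑ i ∈ t, f i) = ∑ i ∈ t, σ^[n] (f i) := by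
  induction n generalizing f with
  | zero => rfl
  | succ n ih =>
    simp only [Function.iterate_succ_apply, map_sum, ih]

theorem iterate_expHom {σ : Derivation ℂ A A} (hσ : IsLND σ) (s : ℂ) (a : A) (N : ℕ)
    (hN : σ^[N + 1] a = 0) : σ^[N] (expHom hσ s a) = σ^[N] a := by
  rw [expHom_eq_sum, iterate_sum']
  rcases Nat.eq_zero_or_pos (hσ a).choose with h0 | h0
  · have ha : a = 0 := by
      have := (hσ a).choose_spec
      rw [h0] at this
      simpa using this
    rw [h0, ha, iterate_zero']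
    simp
  · obtain ⟨n, hn⟩ := Nat.exists_eq_succ_of_ne_zero h0.ne'
    rw [hn, Finset.sum_range_succ', Finset.sum_eq_zero]
    · simp
    · intro k _
      rw [iterate_smul', ← Function.iterate_add_apply, iter_zero_of_le hN (by omega), smul_zero]

theorem expHom_bijective {σ : Derivation ℂ A A} (hσ : IsLND σ) (s : ℂ) :
    Function.Bijective (expHom hσ s) := by
  constructor
  · rw [injective_iff_map_eq_zero]
    intro a ha
    have key : ∀ N : ℕ, σ^[N] a = 0 → a = 0 := by
      intro N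
      induction N with
      | zero => intro h; simpa using h
      | succ N ih =>
        intro h
        apply ih
        rw [← iterate_expHom hσ s a N h, ha, iterate_zero']
    obtain ⟨N, hN⟩ := hσ a
    exact key N hN
  · have key : ∀ (N : ℕ) (a : A), σ^[N] a = 0 → ∃ b, expHom hσ s b = a := by
      intro N
      induction N with
      | zero =>
        intro a h
        refine ⟨0, ?_⟩
        rw [map_zero]
        simpa using h.symm
      | succ N ih =>
        intro a h
        obtain ⟨b, hb⟩ := ih (expHom hσ s a - a) (by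
          rw [iterate_sub', iterate_expHom hσ s a N h, sub_self])
        refine ⟨a - b, ?_⟩
        rw [map_sub, hb]
        ring
    intro a
    obtain ⟨N, hN⟩ := hσ a
    exact key N a hN

end tayA

theorem exp_aut {σ : Derivation ℂ A A} (hσ : IsLND σ) (s : ℂ) :
    ∃ Θ : A ≃ₐ[ℂ] A, ∀ (x : A →ₐ[ℂ] ℂ) (f : A), x (Θ f) = flow hσ x s f :=
  ⟨AlgEquiv.ofBijective (expHom hσ s) (expHom_bijective hσ s), fun x f => by
    rw [AlgEquiv.coe_ofBijective]
    exact eval_expHom hσ s x f⟩

/-- Conjugation of a derivation by an automorphism. -/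
noncomputable def conjDer (Θ : A ≃ₐ[ℂ] A) (σ : Derivation ℂ A A) : Derivation ℂ A A :=
  Derivation.mk' ((Θ.toLinearMap ∘ₗ (σ : A →ₗ[ℂ] A)) ∘ₗ Θ.symm.toLinearMap) (by
    intro a b
    simp only [LinearMap.comp_apply, AlgEquiv.toLinearMap_apply, Derivation.coeFn_coe, map_mul,
      Derivation.leibniz, smul_eq_mul, map_add, AlgEquiv.apply_symm_apply])

theorem conjDer_apply (Θ : A ≃ₐ[ℂ] A) (σ : Derivation ℂ A A) (a : A) :
    conjDer Θ σ a = Θ (σ (Θ.symm a)) := rfl

theorem conjDer_isLND (Θ : A ≃ₐ[ℂ] A) {σ : Derivation ℂ A A} (hσ : IsLND σ) :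
    IsLND (conjDer Θ σ) := by
  have key : ∀ (n : ℕ) (a : A), (conjDer Θ σ)^[n] a = Θ (σ^[n] (Θ.symm a)) := by
    intro n
    induction n with
    | zero => intro a; simp
    | succ n ih =>
      intro a
      rw [Function.iterate_succ_apply, Function.iterate_succ_apply, ih, conjDer_apply,
        AlgEquiv.symm_apply_apply]
  intro a
  obtain ⟨n, hn⟩ := hσ (Θ.symm a)
  exact ⟨n, by rw [key, hn, map_zero]⟩

theorem GoodPt.of_equiv {d : ℕ} {x : A →ₐ[ℂ] ℂ} (Θ : A ≃ₐ[ℂ] A)
    (h : GoodPt d (x.comp (Θ : A →ₐ[ℂ] A))) : GoodPt d x := by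
  obtain ⟨h1, h2⟩ := h
  let Φ : (A →ₗ[ℂ] ℂ) ≃ₗ[ℂ] (A →ₗ[ℂ] ℂ) :=
    (Θ.symm.toLinearEquiv).arrowCongr (LinearEquiv.refl ℂ ℂ)
  have hΦ : ∀ (D : A →ₗ[ℂ] ℂ) (a : A), Φ D a = D (Θ a) := by
    intro D a
    simp [Φ, LinearEquiv.arrowCongr_apply]
  have hΦs : ∀ (D : A →ₗ[ℂ] ℂ) (a : A), Φ.symm D a = D (Θ.symm a) := by
    intro D a
    simp [Φ, LinearEquiv.arrowCongr_symm_apply]
  have hmem : ∀ D ∈ tangentSpace x, Φ D ∈ tangentSpace (x.comp (Θ : A →ₐ[ℂ] A)) := by
    intro D hD a b
    rw [hΦ, hΦ, hΦ, map_mul, hD]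
    rfl
  have hmap : (tangentSpace x).map (Φ : (A →ₗ[ℂ] ℂ) →ₗ[ℂ] (A →ₗ[ℂ] ℂ)) =
      tangentSpace (x.comp (Θ : A →ₐ[ℂ] A)) := by
    apply le_antisymm
    · rintro _ ⟨D, hD, rfl⟩
      exact hmem D hD
    · intro D hD
      refine ⟨Φ.symm D, ?_, by simp⟩
      intro a b
      rw [hΦs, hΦs, hΦs, map_mul, hD]
      simp
  constructor
  · rw [← h1, ← hmap]
    exact (LinearEquiv.finrank_map_eq Φ (tangentSpace x)).symm
  · intro D hD
    have h3 : Φ D ∈ Submodule.span ℂ {D | ∃ σ : Derivation ℂ A A, IsLND σ ∧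
        D = valueAt (x.comp (Θ : A →ₐ[ℂ] A)) σ} := h2 (hmem D hD)
    have h4 : Φ.symm (Φ D) ∈ Submodule.map (Φ.symm : (A →ₗ[ℂ] ℂ) →ₗ[ℂ] (A →ₗ[ℂ] ℂ))
        (Submodule.span ℂ {D | ∃ σ : Derivation ℂ A A, IsLND σ ∧
          D = valueAt (x.comp (Θ : A →ₐ[ℂ] A)) σ}) := Submodule.mem_map_of_mem h3
    rw [LinearEquiv.symm_apply_apply, Submodule.map_span] at h4
    refine Submodule.span_mono ?_ h4
    rintro _ ⟨_, ⟨σ, hσ, rfl⟩, rfl⟩
    refine ⟨conjDer Θ σ, conjDer_isLND Θ hσ, ?_⟩
    ext a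
    exact hΦs _ _

end Pool.Agent.H43.FX
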