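import Pool.Agent.H43.FX.SwapRing
import Pool.Agent.H43.FX.EvalR
import Pool.Agent.H43.FX.ExpAut

/-!
# FX-MOVE : moving points by exponentials

Proof of `move_u`.  Choose `k` with `u k ≠ 0`, let `σ` be the derivation of `exists_R` for `k`,
`c = u_k^13 (∏_j m_j(w))³ ≠ 0`.  `σ (P k l) = 0`, and `σ² (P k' l) = 0` (`k' = 1 - k`): the
function `u_k^13 (∏m)³ w_l` is `P k l ∏_j (P k 0 - b_j P k 1)³`, a polynomial in the `P k *`, which
are killed by `σ`.  For `s : ℂ` let `Θ` from `exp_aut`; `y = x ∘ Θ = flow hσ x s`;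
`flow_of_sq`: `y(P k l) = x(P k l) = u_k w_l`, `y(P k' l) = u_{k'}w_l + s c w_l` (`eval_R`).  So
`y(P) = u' ⊗ w` with `u'_k = u_k`, `u'_{k'} = u_{k'} + s c`.  Each of the conditions
`u'_{k'} ≠ 0`, `u'_0 - a_i u'_1 ≠ 0` excludes at most one `s`: `u'_0 - a_i u'_1` is
`u_0 - a_i u_1 - a_i s c` (`k = 0`, `a_i ≠ 0`) or `u_0 - a_i u_1 + s c` (`k = 1`).  Choose `s`
avoiding the (at most five) bad values.
`move_w` : the same with `exists_R'`, `eval_R'`.
-/

namespace Pool.Agent.H43.FX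

open Set Metric Filter Topology Pool.Agent.H29.Flex

variable {a b z z' : Fin 4 → ℂ}

/-- finitely many affine conditions -/
lemma move_exists {ι : Type*} [Fintype ι] (A B : ι → ℂ) (h : ∀ i, A i ≠ 0 ∨ B i ≠ 0) :
    ∃ s : ℂ, ∀ i, A i + s * B i ≠ 0 := by
  classical
  obtain ⟨s, hs⟩ := Infinite.exists_notMem_finset (Finset.univ.image fun i => -A i / B i)
  refine ⟨s, fun i hi => ?_⟩
  by_cases hB : B i = 0
  · rcases h i with hA | hB'
    · apply hA
      rw [hB] at hi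
      simpa using hi
    · exact hB' hB
  · apply hs
    rw [Finset.mem_image]
    refine ⟨i, Finset.mem_univ _, ?_⟩
    rw [div_eq_iff hB]
    linear_combination -hi

lemma move_num {a : Fin 4 → ℂ} (ha0 : ∀ i, a i ≠ 0) {u : Fin 2 → ℂ} {k : Fin 2} (hk : u k ≠ 0)
    {c : ℂ} (hc : c ≠ 0) :
    ∃ s : ℂ, (∀ i, Function.update u (1 - k) (u (1 - k) + s * c) 0 -
        a i * Function.update u (1 - k) (u (1 - k) + s * c) 1 ≠ 0) ∧
      Function.update u (1 - k) (u (1 - k) + s * c) 0 ≠ 0 ∧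
      Function.update u (1 - k) (u (1 - k) + s * c) 1 ≠ 0 := by
  have h2 : k = 0 ∨ k = 1 := by
    fin_cases k
    · exact Or.inl rfl
    · exact Or.inr rfl
  rcases h2 with rfl | rfl
  · obtain ⟨s, hs⟩ := move_exists (ι := Option (Fin 4))
      (fun o => match o with | none => u 1 | some i => u 0 - a i * u 1)
      (fun o => match o with | none => c | some i => -(a i * c)) (by
        rintro (_ | i)
        · exact Or.inr hc
        · exact Or.inr (neg_ne_zero.2 (mul_ne_zero (ha0 i) hc)))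
    have e1 : (1 : Fin 2) - 0 = 1 := rfl
    rw [e1]
    refine ⟨s, fun i => ?_, ?_, ?_⟩
    · rw [Function.update_self, Function.update_of_ne (by decide)]
      have h := hs (some i)
      simp only at h
      intro h0
      apply h
      linear_combination h0
    · rw [Function.update_of_ne (by decide)]
      exact hk
    · rw [Function.update_self]
      exact hs none
  · obtain ⟨s, hs⟩ := move_exists (ι := Option (Fin 4))
      (fun o => match o with | none => u 0 | some i => u 0 - a i * u 1)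
      (fun o => match o with | none => c | some i => c) (by
        rintro (_ | i)
        · exact Or.inr hc
        · exact Or.inr hc)
    have e1 : (1 : Fin 2) - 1 = 0 := rfl
    rw [e1]
    refine ⟨s, fun i => ?_, ?_, ?_⟩
    · rw [Function.update_self, Function.update_of_ne (by decide)]
      have h := hs (some i)
      simp only at h
      intro h0
      apply h
      linear_combination h0
    · rw [Function.update_self]
      exact hs none
    · rw [Function.update_of_ne (by decide)]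
      exact hk

section Kernel

variable {A : Type*} [CommRing A] [Algebra ℂ A] {σ : Derivation ℂ A A}

lemma move_ker_mul {f g : A} (hf : σ f = 0) (hg : σ g = 0) : σ (f * g) = 0 := by
  rw [Derivation.leibniz, hf, hg, smul_zero, smul_zero, add_zero]

lemma move_ker_lin (c : ℂ) {f g : A} (hf : σ f = 0) (hg : σ g = 0) : σ (f - c • g) = 0 := by
  rw [map_sub, Derivation.map_smul, hf, hg, smul_zero, sub_zero]

lemma move_ker_pow {f : A} (hf : σ f = 0) (n : ℕ) : σ (f ^ n) = 0 := by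
  rw [Derivation.leibniz_pow, hf, smul_zero, smul_zero]

lemma move_ker_prod {ι : Type*} (s : Finset ι) (f : ι → A) (hf : ∀ i ∈ s, σ (f i) = 0) :
    σ (∏ i ∈ s, f i) = 0 := by
  classical
  induction s using Finset.induction_on with
  | empty => rw [Finset.prod_empty, Derivation.map_one_eq_zero]
  | insert i s hi ih =>
    rw [Finset.prod_insert hi]
    exact move_ker_mul (hf i (Finset.mem_insert_self _ _))
      (ih fun j hj => hf j (Finset.mem_insert_of_mem hj))

end Kernel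

/-- values after the move -/
lemma move_flow {A : Type*} [CommRing A] [Algebra ℂ A] {σ : Derivation ℂ A A} (hσ : IsLND σ)
    (x : A →ₐ[ℂ] ℂ) {P : Fin 2 → Fin 2 → A} {u w : Fin 2 → ℂ} {k : Fin 2} {c : ℂ}
    (hP : ∀ k l, x (P k l) = u k * w l) (h0 : ∀ l, σ (P k l) = 0)
    (h1 : ∀ l, σ (σ (P (1 - k) l)) = 0) (h2 : ∀ l, x (σ (P (1 - k) l)) = c * w l) (s : ℂ) :
    ∀ i l, flow hσ x s (P i l) = Function.update u (1 - k) (u (1 - k) + s * c) i * w l := by
  intro i l
  by_cases hi : i = 1 - k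
  · subst hi
    rw [flow_of_sq hσ x s (h1 l), h2, hP, Function.update_self]
    ring
  · have hik : i = k := by
      revert hi
      fin_cases i <;> fin_cases k <;> simp
    subst hik
    rw [flow_of_sq hσ x s (by rw [h0, map_zero]), h0, hP, map_zero, Function.update_of_ne hi]
    ring

theorem move_u (hBa : HasBez a) (ha0 : ∀ i, a i ≠ 0) {x : Aring a b z z' →ₐ[ℂ] ℂ}
    {u w : Fin 2 → ℂ} (hP : ∀ k l, x (ge a b z z' (GI.P k l)) = u k * w l) (hu : u ≠ 0)
    (hm : ∀ j, w 0 - b j * w 1 ≠ 0) :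
    ∃ (Θ : Aring a b z z' ≃ₐ[ℂ] Aring a b z z') (u' : Fin 2 → ℂ),
      (∀ k l, x (Θ (ge a b z z' (GI.P k l))) = u' k * w l) ∧
      (∀ i, u' 0 - a i * u' 1 ≠ 0) ∧ u' 0 ≠ 0 ∧ u' 1 ≠ 0 := by
  classical
  obtain ⟨k, hk⟩ : ∃ k, u k ≠ 0 := by
    by_contra h
    push Not at h
    exact hu (funext h)
  obtain ⟨σ, hσ, hσ0, hσ1⟩ := exists_R b z z' hBa k
  set c : ℂ := u k ^ 13 * (∏ j, (w 0 - b j * w 1)) ^ 3 with hc
  have hc0 : c ≠ 0 := mul_ne_zero (pow_ne_zero _ hk)
    (pow_ne_zero _ (Finset.prod_ne_zero_iff.2 fun j _ => hm j))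
  have hval : ∀ l, x (σ (ge a b z z' (GI.P (1 - k) l))) = c * w l := fun l => by
    rw [eval_R hP k l (hσ1 l)]
  have hel : ∀ l, σ (ge a b z z' (GI.P (1 - k) l)) = ge a b z z' (GI.P k l) *
      ∏ j, (ge a b z z' (GI.P k 0) - b j • ge a b z z' (GI.P k 1)) ^ 3 := by
    intro l
    apply Subtype.ext
    rw [hσ1 l]
    funext q
    have e1 : ((ge a b z z' (GI.P k l) *
      ∏ j, (ge a b z z' (GI.P k 0) - b j • ge a b z z' (GI.P k 1)) ^ 3 : Aring a b z z') :
        U5 a b → ℂ) q = cu k q.1 * cw l q.1 *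
        ∏ j, (cu k q.1 * cw 0 q.1 - b j * (cu k q.1 * cw 1 q.1)) ^ 3 := by
      rw [← evA_apply, map_mul, map_prod]
      simp only [map_pow, map_sub, map_smul]
      rfl
    rw [e1, Fin.prod_univ_four, Fin.prod_univ_four]
    simp only [mf, cw, if_true, one_ne_zero, if_false]
    ring
  have hkk : ∀ l, σ (σ (ge a b z z' (GI.P (1 - k) l))) = 0 := by
    intro l
    rw [hel l]
    refine move_ker_mul (hσ0 l) (move_ker_prod _ _ fun j _ => move_ker_pow ?_ _)
    exact move_ker_lin _ (hσ0 _) (hσ0 _)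
  obtain ⟨s, hs1, hs2, hs3⟩ := move_num ha0 hk hc0
  obtain ⟨Θ, hΘ⟩ := exp_aut hσ s
  refine ⟨Θ, Function.update u (1 - k) (u (1 - k) + s * c), fun i l => ?_, hs1, hs2, hs3⟩
  rw [hΘ]
  exact move_flow hσ x (P := fun i l => ge a b z z' (GI.P i l)) hP hσ0 hkk hval s i l

theorem move_w (hBb : HasBez b) (hb0 : ∀ j, b j ≠ 0) {x : Aring a b z z' →ₐ[ℂ] ℂ}
    {u w : Fin 2 → ℂ} (hP : ∀ k l, x (ge a b z z' (GI.P k l)) = u k * w l) (hw : w ≠ 0)
    (hl : ∀ i, u 0 - a i * u 1 ≠ 0) :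
    ∃ (Θ : Aring a b z z' ≃ₐ[ℂ] Aring a b z z') (w' : Fin 2 → ℂ),
      (∀ k l, x (Θ (ge a b z z' (GI.P k l))) = u k * w' l) ∧
      (∀ j, w' 0 - b j * w' 1 ≠ 0) ∧ w' 0 ≠ 0 ∧ w' 1 ≠ 0 := by
  classical
  obtain ⟨k, hk⟩ : ∃ k, w k ≠ 0 := by
    by_contra h
    push Not at h
    exact hw (funext h)
  obtain ⟨σ, hσ, hσ0, hσ1⟩ := exists_R' a z z' hBb k
  set c : ℂ := w k ^ 13 * (∏ i, (u 0 - a i * u 1)) ^ 3 with hc
  have hc0 : c ≠ 0 := mul_ne_zero (pow_ne_zero _ hk)
    (pow_ne_zero _ (Finset.prod_ne_zero_iff.2 fun j _ => hl j))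
  have hval : ∀ l, x (σ (ge a b z z' (GI.P l (1 - k)))) = c * u l := fun l => by
    rw [eval_R' hP k l (hσ1 l)]
  have hel : ∀ l, σ (ge a b z z' (GI.P l (1 - k))) = ge a b z z' (GI.P l k) *
      ∏ j, (ge a b z z' (GI.P 0 k) - a j • ge a b z z' (GI.P 1 k)) ^ 3 := by
    intro l
    apply Subtype.ext
    rw [hσ1 l]
    funext q
    have e1 : ((ge a b z z' (GI.P l k) *
      ∏ j, (ge a b z z' (GI.P 0 k) - a j • ge a b z z' (GI.P 1 k)) ^ 3 : Aring a b z z') :
        U5 a b → ℂ) q = cu l q.1 * cw k q.1 *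
        ∏ j, (cu 0 q.1 * cw k q.1 - a j * (cu 1 q.1 * cw k q.1)) ^ 3 := by
      rw [← evA_apply, map_mul, map_prod]
      simp only [map_pow, map_sub, map_smul]
      rfl
    rw [e1, Fin.prod_univ_four, Fin.prod_univ_four]
    simp only [lf, cu, if_true, one_ne_zero, if_false]
    ring
  have hkk : ∀ l, σ (σ (ge a b z z' (GI.P l (1 - k)))) = 0 := by
    intro l
    rw [hel l]
    refine move_ker_mul (hσ0 l) (move_ker_prod _ _ fun j _ => move_ker_pow ?_ _)
    exact move_ker_lin _ (hσ0 _) (hσ0 _)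
  obtain ⟨s, hs1, hs2, hs3⟩ := move_num hb0 hk hc0
  obtain ⟨Θ, hΘ⟩ := exp_aut hσ s
  refine ⟨Θ, Function.update w (1 - k) (w (1 - k) + s * c), fun i l => ?_, hs1, hs2, hs3⟩
  rw [hΘ, mul_comm]
  exact move_flow hσ x (P := fun i l => ge a b z z' (GI.P l i)) (u := w) (w := u)
    (fun i l => by rw [hP, mul_comm]) hσ0 hkk hval s l i

end Pool.Agent.H43.FX
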