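import Pool.Agent.H43.FX.SqAlg
import Pool.Agent.H43.FX.GenLem

/-!
# FX-LEAD : leading coefficients of entire sequences are entire sequences (Key Lemma)

Let `B = ball c r`, `B* = B \ {c}`.  Define `Φ_m` on `B × U` by `Φ_0 = fh`,
`Φ_{m+1} = -(e + m n) Vh Φ_m + (x - c) Vh ∂_xΦ_m + ∂_{Wh}Φ_m + (Sh + m Th) Φ_m`, where
`(x-c) Vh ∂_x Φ_m + ∂_{Wh} Φ_m = fderiv Φ_m p ((x-c) Vh p, Wh p)`.
(1) `Φ_m` is analytic on `B × U` (induction).
(2) On `B* × U`: `sq ξ S T f m p = (x-c)^{-(e+mn)} Φ_m p` (induction; derivative of the power: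
`fderiv` of `p ↦ (p.1 - c)^(k:ℤ)` in the direction `(h, h')` is `k (p.1-c)^{k-1} h`; multiply by
`(x-c)^{1-n} Vh` resp. `(x-c)^{-n} Wh`).
(3) `Φ_m(c, y) = sq ξ₂ S₂ T₂ g m y` with the data of the conclusion (induction: at `x = c`,
`fderiv Φ_m (c,y) (0, Wh (c,y)) = fderiv (fun y => Φ_m (c,y)) y (Wh (c,y))` by the chain rule).
(4) Let `K ⊆ U` be compact and `R > 0`.  The set `K₁ = sphere c (r/2) ×ˢ K` is a compact subset
of `B* × U`.  Let `ρ = r/2`, `R₁ = R · max(1, ρ^{n}) `(`ρ^{(n : ℤ)}`), and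
`M` the constant of `hL` for `K₁`, `R₁`.  For `y ∈ K`, by the maximum principle for
`x ↦ Φ_m(x, y)` on `closedBall c ρ`,
`‖Φ_m(c,y)‖ ≤ max_{‖x-c‖=ρ} ‖Φ_m(x,y)‖ = ρ^{e+mn} max ‖sq_m(x,y)‖`, so
`‖Φ_m(c,y)‖ R^m ≤ ρ^e (ρ^n R)^m max‖sq_m‖ ≤ ρ^e M m!`.
-/

namespace Pool.Agent.H43.FX

open Set Metric Filter Topology

variable {E : Type*} [NormedAddCommGroup E] [NormedSpace ℂ E]

theorem fderiv_zpow_mul {c : ℂ} {k : ℤ} {Φ : ℂ × E → ℂ} {p : ℂ × E} (hp : p.1 ≠ c)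
    (hΦ : DifferentiableAt ℂ Φ p) (v : ℂ × E) :
    fderiv ℂ (fun q : ℂ × E => (q.1 - c) ^ k * Φ q) p v =
      (p.1 - c) ^ k * fderiv ℂ Φ p v + (k : ℂ) * (p.1 - c) ^ (k - 1) * v.1 * Φ p := by
  have hne : p.1 - c ≠ 0 := sub_ne_zero.2 hp
  have h1 : HasFDerivAt (fun q : ℂ × E => q.1 - c) (ContinuousLinearMap.fst ℂ ℂ E) p :=
    (ContinuousLinearMap.fst ℂ ℂ E).hasFDerivAt.sub_const c
  have h2 : HasFDerivAt (fun q : ℂ × E => (q.1 - c) ^ k)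
      (((k : ℂ) * (p.1 - c) ^ (k - 1)) • ContinuousLinearMap.fst ℂ ℂ E) p :=
    HasDerivAt.comp_hasFDerivAt (h₂ := fun z : ℂ => z ^ k) p
      (hasDerivAt_zpow k (p.1 - c) (Or.inl hne)) h1
  have h3 : HasFDerivAt (fun q : ℂ × E => (q.1 - c) ^ k * Φ q) _ p := h2.mul hΦ.hasFDerivAt
  rw [h3.fderiv]
  simp only [add_apply, smul_apply, smul_eq_mul,
    ContinuousLinearMap.coe_fst']
  ring

/-- The formula for the iterates on the punctured neighbourhood. -/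
theorem lead_formula {c : ℂ} {r : ℝ} {U : Set E} (hU : IsOpen U) {n e : ℤ}
    {ξ : ℂ × E → ℂ × E} {S T f Vh Sh Th fh : ℂ × E → ℂ} {Wh : ℂ × E → E}
    (hV : AnalyticOnNhd ℂ Vh (ball c r ×ˢ U)) (hW : AnalyticOnNhd ℂ Wh (ball c r ×ˢ U))
    (hS : AnalyticOnNhd ℂ Sh (ball c r ×ˢ U)) (hT : AnalyticOnNhd ℂ Th (ball c r ×ˢ U))
    (hf : AnalyticOnNhd ℂ fh (ball c r ×ˢ U))
    (eξ : ∀ x ∈ ball c r, x ≠ c → ∀ y ∈ U,
      ξ (x, y) = ((x - c) ^ (1 - n) * Vh (x, y), (x - c) ^ (-n) • Wh (x, y)))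
    (eS : ∀ x ∈ ball c r, x ≠ c → ∀ y ∈ U, S (x, y) = (x - c) ^ (-n) * Sh (x, y))
    (eT : ∀ x ∈ ball c r, x ≠ c → ∀ y ∈ U, T (x, y) = (x - c) ^ (-n) * Th (x, y))
    (ef : ∀ x ∈ ball c r, x ≠ c → ∀ y ∈ U, f (x, y) = (x - c) ^ (-e) * fh (x, y)) (m : ℕ) :
    AnalyticOnNhd ℂ (sq (fun p => ((p.1 - c) * Vh p, Wh p)) (fun p => Sh p - (e : ℂ) * Vh p)
        (fun p => Th p - (n : ℂ) * Vh p) fh m) (ball c r ×ˢ U) ∧
    ∀ x ∈ ball c r, x ≠ c → ∀ y ∈ U,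
      sq ξ S T f m (x, y) = (x - c) ^ (-(e + m * n)) *
        sq (fun p => ((p.1 - c) * Vh p, Wh p)) (fun p => Sh p - (e : ℂ) * Vh p)
          (fun p => Th p - (n : ℂ) * Vh p) fh m (x, y) := by
  have hO : IsOpen (ball c r ×ˢ U) := isOpen_ball.prod hU
  have h1 : ∀ m, AnalyticOnNhd ℂ (sq (fun p => ((p.1 - c) * Vh p, Wh p))
      (fun p => Sh p - (e : ℂ) * Vh p) (fun p => Th p - (n : ℂ) * Vh p) fh m)
      (ball c r ×ˢ U) := by
    intro m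
    refine sq_analytic hO ?_ ?_ ?_ hf m
    · exact (((analyticOnNhd_fst).sub analyticOnNhd_const).mul hV).prod hW
    · exact hS.sub (analyticOnNhd_const.mul hV)
    · exact hT.sub (analyticOnNhd_const.mul hV)
  refine ⟨h1 m, ?_⟩
  induction m with
  | zero =>
    intro x hx hxc y hy
    simp only [sq, Nat.cast_zero, zero_mul, add_zero]
    exact ef x hx hxc y hy
  | succ m ih =>
    intro x hx hxc y hy
    set Φ := sq (fun p => ((p.1 - c) * Vh p, Wh p)) (fun p => Sh p - (e : ℂ) * Vh p)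
      (fun p => Th p - (n : ℂ) * Vh p) fh with hΦdef
    have hO' : IsOpen ((ball c r ∩ {c}ᶜ) ×ˢ U) :=
      (isOpen_ball.inter isOpen_compl_singleton).prod hU
    have hev : sq ξ S T f m =ᶠ[𝓝 (x, y)]
        fun q : ℂ × E => (q.1 - c) ^ (-(e + m * n)) * Φ m q := by
      filter_upwards [hO'.mem_nhds (show (x, y) ∈ (ball c r ∩ {c}ᶜ) ×ˢ U from ⟨⟨hx, hxc⟩, hy⟩)]
        with q hq
      exact ih q.1 hq.1.1 hq.1.2 q.2 hq.2
    have hd : DifferentiableAt ℂ (Φ m) (x, y) := (h1 m (x, y) ⟨hx, hy⟩).differentiableAt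
    have hne : x - c ≠ 0 := sub_ne_zero.2 hxc
    have hξ : ξ (x, y) = (x - c) ^ (-n) • (((x - c) * Vh (x, y), Wh (x, y)) : ℂ × E) := by
      rw [eξ x hx hxc y hy]
      ext
      · simp only [Prod.smul_fst, smul_eq_mul]
        rw [← mul_assoc, sub_eq_add_neg 1 n, zpow_add₀ hne, zpow_one]
        ring
      · simp only [Prod.smul_snd]
    have e1 : sq ξ S T f (m + 1) (x, y) = fderiv ℂ (sq ξ S T f m) (x, y) (ξ (x, y)) +
      (S (x, y) + (m : ℂ) * T (x, y)) * sq ξ S T f m (x, y) := rfl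
    have e2 : Φ (m + 1) (x, y) = fderiv ℂ (Φ m) (x, y) ((x - c) * Vh (x, y), Wh (x, y)) +
      (Sh (x, y) - (e : ℂ) * Vh (x, y) + (m : ℂ) * (Th (x, y) - (n : ℂ) * Vh (x, y))) *
        Φ m (x, y) := rfl
    rw [e1, e2, hev.fderiv_eq, fderiv_zpow_mul (show (x, y).1 ≠ c from hxc) hd, hξ, map_smul,
      eS x hx hxc y hy, eT x hx hxc y hy, ih x hx hxc y hy]
    simp only [Prod.smul_fst, smul_eq_mul]
    have z1 : (x - c) ^ (-(e + ((m + 1 : ℕ) : ℤ) * n)) =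
        (x - c) ^ (-(e + m * n)) * (x - c) ^ (-n) := by
      rw [← zpow_add₀ hne]
      congr 1
      push_cast
      ring
    have z2 : (x - c) ^ (-(e + m * n) - 1) * (x - c) = (x - c) ^ (-(e + m * n)) := by
      rw [← zpow_add_one₀ hne]
      congr 1
      ring
    rw [z1]
    have z3 : ((-(e + m * n) : ℤ) : ℂ) = -((e : ℂ) + m * n) := by push_cast; ring
    rw [z3]
    have z4 : (x - c) ^ (-(e + (m : ℤ) * n) - 1) * ((x - c) ^ (-n) * ((x - c) * Vh (x, y))) =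
        (x - c) ^ (-(e + (m : ℤ) * n)) * (x - c) ^ (-n) * Vh (x, y) := by
      rw [← z2]; ring
    linear_combination (-((e : ℂ) + m * n)) * Φ m (x, y) * z4

/-- The leading coefficients. -/
theorem lead_restrict {c : ℂ} {r : ℝ} (hr : 0 < r) {U : Set E} (hU : IsOpen U)
    {S' T' f' V' : ℂ × E → ℂ} {Wh : ℂ × E → E}
    (hΦ : ∀ m, AnalyticOnNhd ℂ (sq (fun p => ((p.1 - c) * V' p, Wh p)) S' T' f' m)
      (ball c r ×ˢ U)) (m : ℕ) : ∀ y ∈ U,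
    sq (fun p => ((p.1 - c) * V' p, Wh p)) S' T' f' m (c, y) =
      sq (fun y => Wh (c, y)) (fun y => S' (c, y)) (fun y => T' (c, y)) (fun y => f' (c, y)) m y := by
  induction m with
  | zero => intro y _; rfl
  | succ m ih =>
    intro y hy
    set Φ := sq (fun p => ((p.1 - c) * V' p, Wh p)) S' T' f' with hΦdef
    set Ψ := sq (fun y => Wh (c, y)) (fun y => S' (c, y)) (fun y => T' (c, y))
      (fun y => f' (c, y)) with hΨdef
    have hd : DifferentiableAt ℂ (Φ m) (c, y) :=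
      (hΦ m (c, y) ⟨mem_ball_self hr, hy⟩).differentiableAt
    have h1 : HasFDerivAt (fun y : E => ((c, y) : ℂ × E)) (ContinuousLinearMap.inr ℂ ℂ E) y := by
      have := (ContinuousLinearMap.inr ℂ ℂ E).hasFDerivAt (x := y)
      have h2 := this.const_add ((c, 0) : ℂ × E)
      refine h2.congr_of_eventuallyEq (Filter.Eventually.of_forall fun z => ?_)
      simp
    have h2 : HasFDerivAt (fun y : E => Φ m (c, y))
        ((fderiv ℂ (Φ m) (c, y)).comp (ContinuousLinearMap.inr ℂ ℂ E)) y :=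
      hd.hasFDerivAt.comp y h1
    have hev : Ψ m =ᶠ[𝓝 y] fun y : E => Φ m (c, y) := by
      filter_upwards [hU.mem_nhds hy] with z hz
      exact (ih z hz).symm
    have e1 : Φ (m + 1) (c, y) = fderiv ℂ (Φ m) (c, y) ((c - c) * V' (c, y), Wh (c, y)) +
      (S' (c, y) + (m : ℂ) * T' (c, y)) * Φ m (c, y) := rfl
    have e2 : Ψ (m + 1) y = fderiv ℂ (Ψ m) y (Wh (c, y)) +
      (S' (c, y) + (m : ℂ) * T' (c, y)) * Ψ m y := rfl
    rw [e1, e2, hev.fderiv_eq, h2.fderiv, ih y hy, sub_self, zero_mul]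
    rfl

theorem lead_LUE {E : Type*} [NormedAddCommGroup E] [NormedSpace ℂ E] {c : ℂ} {r : ℝ}
    (hr : 0 < r) {U : Set E} (hU : IsOpen U) {n e : ℤ} {ξ : ℂ × E → ℂ × E}
    {S T f Vh Sh Th fh : ℂ × E → ℂ} {Wh : ℂ × E → E}
    (hV : AnalyticOnNhd ℂ Vh (ball c r ×ˢ U)) (hW : AnalyticOnNhd ℂ Wh (ball c r ×ˢ U))
    (hS : AnalyticOnNhd ℂ Sh (ball c r ×ˢ U)) (hT : AnalyticOnNhd ℂ Th (ball c r ×ˢ U))
    (hf : AnalyticOnNhd ℂ fh (ball c r ×ˢ U))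
    (eξ : ∀ x ∈ ball c r, x ≠ c → ∀ y ∈ U,
      ξ (x, y) = ((x - c) ^ (1 - n) * Vh (x, y), (x - c) ^ (-n) • Wh (x, y)))
    (eS : ∀ x ∈ ball c r, x ≠ c → ∀ y ∈ U, S (x, y) = (x - c) ^ (-n) * Sh (x, y))
    (eT : ∀ x ∈ ball c r, x ≠ c → ∀ y ∈ U, T (x, y) = (x - c) ^ (-n) * Th (x, y))
    (ef : ∀ x ∈ ball c r, x ≠ c → ∀ y ∈ U, f (x, y) = (x - c) ^ (-e) * fh (x, y))
    (hL : LUE ((ball c r \ {c}) ×ˢ U) (sq ξ S T f)) :
    LUE U (sq (fun y => Wh (c, y)) (fun y => Sh (c, y) - (e : ℂ) * Vh (c, y))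
      (fun y => Th (c, y) - (n : ℂ) * Vh (c, y)) (fun y => fh (c, y))) := by
  have hform := lead_formula hU hV hW hS hT hf eξ eS eT ef
  set Φ := sq (fun p : ℂ × E => ((p.1 - c) * Vh p, Wh p)) (fun p => Sh p - (e : ℂ) * Vh p)
    (fun p => Th p - (n : ℂ) * Vh p) fh with hΦdef
  have hres : ∀ m, ∀ y ∈ U, Φ m (c, y) = sq (fun y => Wh (c, y))
      (fun y => Sh (c, y) - (e : ℂ) * Vh (c, y))
      (fun y => Th (c, y) - (n : ℂ) * Vh (c, y)) (fun y => fh (c, y)) m y := fun m =>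
    lead_restrict hr hU (fun m => (hform m).1) m
  intro K hK hKc R hR
  set ρ : ℝ := r / 2 with hρdef
  have hρ : 0 < ρ := by positivity
  have hρr : ρ < r := by rw [hρdef]; linarith
  have hsph : sphere c ρ ⊆ ball c r \ {c} := by
    intro x hx
    rw [mem_sphere] at hx
    refine ⟨by rw [mem_ball, hx]; exact hρr, ?_⟩
    rintro rfl
    rw [dist_self] at hx
    exact hρ.ne hx
  have hR₁ : 0 < ρ ^ n * R := mul_pos (zpow_pos hρ n) hR
  obtain ⟨M, hM⟩ := hL (sphere c ρ ×ˢ K) (prod_mono hsph hK)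
    ((isCompact_sphere c ρ).prod hKc) (ρ ^ n * R) hR₁
  refine ⟨ρ ^ e * M, fun m y hy => ?_⟩
  rw [← hres m y (hK hy)]
  have hbound : ∀ x ∈ sphere c ρ,
      ‖Φ m (x, y)‖ ≤ ρ ^ (e + m * n) * (M * (m.factorial : ℝ) / (ρ ^ n * R) ^ m) := by
    intro x hx
    have hx' := hsph hx
    have h1 := (hform m).2 x hx'.1 hx'.2 y (hK hy)
    have hne : x - c ≠ 0 := sub_ne_zero.2 hx'.2
    have hn : ‖x - c‖ = ρ := by rw [← dist_eq_norm]; exact hx
    have h2 : Φ m (x, y) = (x - c) ^ (e + m * n) * sq ξ S T f m (x, y) := by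
      rw [h1, ← mul_assoc, ← zpow_add₀ hne, add_neg_cancel, zpow_zero, one_mul]
    rw [h2, norm_mul, norm_zpow, hn]
    apply mul_le_mul_of_nonneg_left _ (zpow_nonneg hρ.le _)
    rw [le_div_iff₀ (pow_pos hR₁ m)]
    exact hM m (x, y) ⟨hx, hy⟩
  have hd : DiffContOnCl ℂ (fun x : ℂ => Φ m (x, y)) (ball c ρ) := by
    apply DifferentiableOn.diffContOnCl
    rw [closure_ball c hρ.ne']
    intro x hx
    have hxb : x ∈ ball c r := lt_of_le_of_lt hx hρr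
    have h1 : DifferentiableAt ℂ (Φ m) (x, y) :=
      ((hform m).1 (x, y) ⟨hxb, hK hy⟩).differentiableAt
    have h2 : DifferentiableAt ℂ (fun x : ℂ => ((x, y) : ℂ × E)) x :=
      differentiableAt_id.prodMk (differentiableAt_const y)
    exact (h1.comp x h2).differentiableWithinAt
  have hmax : ‖Φ m (c, y)‖ ≤ ρ ^ (e + m * n) * (M * (m.factorial : ℝ) / (ρ ^ n * R) ^ m) := by
    refine Complex.norm_le_of_forall_mem_frontier_norm_le isBounded_ball hd ?_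
      (subset_closure (mem_ball_self hρ))
    intro x hx
    rw [frontier_ball c hρ.ne'] at hx
    exact hbound x hx
  calc ‖Φ m (c, y)‖ * R ^ m
      ≤ ρ ^ (e + m * n) * (M * (m.factorial : ℝ) / (ρ ^ n * R) ^ m) * R ^ m :=
        mul_le_mul_of_nonneg_right hmax (pow_nonneg hR.le m)
    _ = ρ ^ e * M * (m.factorial : ℝ) := by
        have h1 : ρ ^ (e + m * n) = ρ ^ e * (ρ ^ n) ^ m := by
          rw [zpow_add₀ hρ.ne', mul_comm (m : ℤ) n, zpow_mul, zpow_natCast]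
        rw [h1, mul_pow]
        have h2 : (ρ ^ n) ^ m ≠ 0 := pow_ne_zero _ (zpow_ne_zero _ hρ.ne')
        have h3 : R ^ m ≠ 0 := pow_ne_zero _ hR.ne'
        field_simp

end Pool.Agent.H43.FX
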