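import Pool.Agent.H43.FX.Defs

/-!
# FX-ODEB : solutions of a polynomial ODE defined for all times are locally bounded in the
initial value

Proof.  It suffices to find for each `x₀ ∈ K` a neighbourhood `V` of `x₀` (within `K`) and a
bound on `V` (compactness).  `M₀ = sup_{‖s‖ ≤ R} ‖F x₀ s‖ < ∞` (continuity).  `P` is Lipschitz
with constant `L` on the closed ball of radius `M₀ + 1` in `ι → ℂ` (`C¹` on a compact convex
set).  Let `x ∈ K` with `‖F x 0 - F x₀ 0‖ < e^{-LR}/2`.  CLAIM: `‖F x s - F x₀ s‖ < 1` for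
`‖s‖ ≤ R`.  Fix `s`, and let `A(θ) = F x (θ s)`, `B(θ) = F x₀ (θ s)`, `θ ∈ [0,1]`, real curves
with `A' = s P(A)`, `B' = s P(B)`.  As long as `‖A - B‖ ≤ 1` on `[0,θ]`, both are in the ball
of radius `M₀+1` and Gronwall (`dist_le_of_trajectories_ODE_of_mem` or
`norm_le_gronwallBound_of_norm_deriv_right_le`) gives
`‖A(θ) - B(θ)‖ ≤ ‖A(0)-B(0)‖ e^{L‖s‖θ} ≤ 1/2`; by continuity (connectedness of `[0,1]`; the
first time at which `‖A - B‖ = 1` cannot exist) the claim holds.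
-/

namespace Pool.Agent.H43.FX

open Set Metric Filter Topology

/-- Bounding the distance of two solutions along a ray by Gronwall and a first-time argument. -/
lemma ode_close {ι : Type*} [Fintype ι] {P : (ι → ℂ) → (ι → ℂ)} {f g : ℂ → (ι → ℂ)}
    (hf : ∀ s, HasDerivAt f (P (f s)) s) (hg : ∀ s, HasDerivAt g (P (g s)) s) {R M₀ : ℝ}
    (hM : ∀ s : ℂ, ‖s‖ ≤ R → ‖g s‖ ≤ M₀) {L : NNReal}
    (hL : LipschitzOnWith L P (closedBall 0 (M₀ + 1)))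
    (h0 : dist (f 0) (g 0) ≤ Real.exp (-(L * R)) / 2) (s : ℂ) (hs : ‖s‖ ≤ R) :
    dist (f s) (g s) < 1 := by
  have hR : 0 ≤ R := (norm_nonneg s).trans hs
  let A : ℝ → (ι → ℂ) := fun θ => f ((θ : ℂ) * s)
  let B : ℝ → (ι → ℂ) := fun θ => g ((θ : ℂ) * s)
  have hder : ∀ (h : ℂ → (ι → ℂ)), (∀ s, HasDerivAt h (P (h s)) s) → ∀ θ : ℝ,
      HasDerivAt (fun θ : ℝ => h ((θ : ℂ) * s)) (s • P (h ((θ : ℂ) * s))) θ := by
    intro h hh θ
    have h1 : HasDerivAt (fun θ : ℝ => (θ : ℂ) * s) s θ := by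
      simpa using (Complex.ofRealCLM.hasDerivAt (x := θ)).mul_const s
    exact (hh ((θ : ℂ) * s)).scomp θ h1
  have hA := hder f hf
  have hB := hder g hg
  have hAc : Continuous A := continuous_iff_continuousAt.mpr fun θ => (hA θ).continuousAt
  have hBc : Continuous B := continuous_iff_continuousAt.mpr fun θ => (hB θ).continuousAt
  by_contra hcon
  rw [not_lt] at hcon
  let Z : Set ℝ := Icc 0 1 ∩ {θ | 1 ≤ dist (A θ) (B θ)}
  have hZc : IsCompact Z :=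
    isCompact_Icc.inter_right (isClosed_le continuous_const (hAc.dist hBc))
  have hZn : Z.Nonempty := ⟨1, ⟨by norm_num, by
    change 1 ≤ dist (f (((1 : ℝ) : ℂ) * s)) (g (((1 : ℝ) : ℂ) * s))
    simpa using hcon⟩⟩
  obtain ⟨θ₀, hθ₀, hmin⟩ := hZc.exists_isLeast hZn
  have hlt : ∀ θ ∈ Ico (0 : ℝ) θ₀, dist (A θ) (B θ) < 1 := by
    intro θ hθ
    by_contra h
    rw [not_lt] at h
    exact absurd (hmin (show θ ∈ Z from ⟨⟨hθ.1, hθ.2.le.trans hθ₀.1.2⟩, h⟩)) (not_le.mpr hθ.2)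
  have hnorm : ∀ θ ∈ Icc (0 : ℝ) 1, ‖((θ : ℂ) * s)‖ ≤ R := by
    intro θ hθ
    rw [norm_mul, Complex.norm_real, Real.norm_eq_abs, abs_of_nonneg hθ.1]
    calc θ * ‖s‖ ≤ 1 * ‖s‖ := by gcongr; exact hθ.2
      _ ≤ R := by rw [one_mul]; exact hs
  have hBmem : ∀ θ ∈ Ico (0 : ℝ) θ₀, B θ ∈ closedBall (0 : ι → ℂ) (M₀ + 1) := by
    intro θ hθ
    rw [mem_closedBall_zero_iff]
    have := hM _ (hnorm θ ⟨hθ.1, hθ.2.le.trans hθ₀.1.2⟩)
    change ‖g ((θ : ℂ) * s)‖ ≤ M₀ + 1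
    linarith
  have hAmem : ∀ θ ∈ Ico (0 : ℝ) θ₀, A θ ∈ closedBall (0 : ι → ℂ) (M₀ + 1) := by
    intro θ hθ
    rw [mem_closedBall_zero_iff]
    have h1 := hM _ (hnorm θ ⟨hθ.1, hθ.2.le.trans hθ₀.1.2⟩)
    have h2 := hlt θ hθ
    have h3 : ‖A θ‖ ≤ ‖B θ‖ + dist (A θ) (B θ) := by
      rw [dist_eq_norm]
      calc ‖A θ‖ = ‖B θ + (A θ - B θ)‖ := by congr 1; abel
        _ ≤ _ := norm_add_le _ _
    change ‖B θ‖ ≤ M₀ at h1
    linarith
  have hlip : ∀ θ ∈ Ico (0 : ℝ) θ₀, LipschitzOnWith (‖s‖₊ * L)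
      ((fun (_ : ℝ) (y : ι → ℂ) => s • P y) θ) ((fun _ : ℝ => closedBall (0 : ι → ℂ) (M₀ + 1)) θ) := by
    intro θ _
    rw [lipschitzOnWith_iff_dist_le_mul]
    intro y hy z hz
    have h1 := (lipschitzOnWith_iff_dist_le_mul.mp hL) y hy z hz
    rw [dist_smul₀]
    calc ‖s‖ * dist (P y) (P z) ≤ ‖s‖ * (L * dist y z) := by gcongr
      _ = _ := by push_cast; ring
  have hgron := dist_le_of_trajectories_ODE_of_mem
    (v := fun (_ : ℝ) (y : ι → ℂ) => s • P y) (s := fun _ : ℝ => closedBall (0 : ι → ℂ) (M₀ + 1))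
    (K := ‖s‖₊ * L) (f := A) (g := B) (a := 0) (b := θ₀) (δ := Real.exp (-(L * R)) / 2)
    hlip hAc.continuousOn (fun θ _ => (hA θ).hasDerivWithinAt) hAmem
    hBc.continuousOn (fun θ _ => (hB θ).hasDerivWithinAt) hBmem (by
      change dist (f (((0 : ℝ) : ℂ) * s)) (g (((0 : ℝ) : ℂ) * s)) ≤ _
      simpa using h0) θ₀ ⟨hθ₀.1.1, le_rfl⟩
  have h1 : 1 ≤ dist (A θ₀) (B θ₀) := hθ₀.2
  have h2 : Real.exp (-(L * R)) / 2 * Real.exp (((‖s‖₊ * L : NNReal) : ℝ) * (θ₀ - 0)) ≤ 1 / 2 := by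
    have h3 : ((‖s‖₊ * L : NNReal) : ℝ) * (θ₀ - 0) ≤ L * R := by
      push_cast
      rw [sub_zero]
      calc ‖s‖ * L * θ₀ ≤ R * L * 1 :=
            mul_le_mul (by gcongr) hθ₀.1.2 hθ₀.1.1 (by positivity)
        _ = L * R := by ring
    calc Real.exp (-(L * R)) / 2 * Real.exp (((‖s‖₊ * L : NNReal) : ℝ) * (θ₀ - 0))
        ≤ Real.exp (-(L * R)) / 2 * Real.exp (L * R) := by gcongr
      _ = (Real.exp (-(L * R)) * Real.exp (L * R)) / 2 := by ring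
      _ = 1 / 2 := by rw [← Real.exp_add]; simp
  linarith

theorem ode_bound {ι : Type*} [Fintype ι] {X : Type*} [TopologicalSpace X] {K : Set X}
    (hK : IsCompact K) {P : (ι → ℂ) → (ι → ℂ)} (hP : ContDiff ℂ 1 P) {F : X → ℂ → (ι → ℂ)}
    (h0 : ContinuousOn (fun x => F x 0) K)
    (hF : ∀ x ∈ K, ∀ s, HasDerivAt (F x) (P (F x s)) s) (R : ℝ) :
    ∃ M : ℝ, ∀ x ∈ K, ∀ s : ℂ, ‖s‖ ≤ R → ‖F x s‖ ≤ M := by
  suffices H : ∃ M : ℝ, ∀ x ∈ K, x ∈ K → ∀ s : ℂ, ‖s‖ ≤ R → ‖F x s‖ ≤ M by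
    obtain ⟨M, hM⟩ := H
    exact ⟨M, fun x hx => hM x hx hx⟩
  refine hK.induction_on (p := fun S => ∃ M : ℝ, ∀ x ∈ S, x ∈ K → ∀ s : ℂ, ‖s‖ ≤ R → ‖F x s‖ ≤ M)
    ⟨0, fun x hx => absurd hx (Set.notMem_empty x)⟩ ?_ ?_ ?_
  · rintro S T hST ⟨M, hM⟩
    exact ⟨M, fun x hx => hM x (hST hx)⟩
  · rintro S T ⟨M, hM⟩ ⟨N, hN⟩
    refine ⟨max M N, fun x hx hxK s hs => ?_⟩
    rcases hx with hx | hx
    · exact (hM x hx hxK s hs).trans (le_max_left _ _)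
    · exact (hN x hx hxK s hs).trans (le_max_right _ _)
  · intro x₀ hx₀
    have hcont : Continuous (F x₀) :=
      continuous_iff_continuousAt.mpr fun s => (hF x₀ hx₀ s).continuousAt
    obtain ⟨M₀, hM₀⟩ := (isCompact_closedBall (0 : ℂ) R).exists_bound_of_continuousOn
      hcont.continuousOn
    have hM₀' : ∀ s : ℂ, ‖s‖ ≤ R → ‖F x₀ s‖ ≤ M₀ := fun s hs =>
      hM₀ s (mem_closedBall_zero_iff.mpr hs)
    obtain ⟨L, hL⟩ := LocallyLipschitzOn.exists_lipschitzOnWith_of_compact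
      (isCompact_closedBall (0 : ι → ℂ) (M₀ + 1)) (hP.locallyLipschitz.locallyLipschitzOn)
    have hε : 0 < Real.exp (-(L * R)) / 2 := by positivity
    refine ⟨{x | dist (F x 0) (F x₀ 0) < Real.exp (-(L * R)) / 2}, ?_, M₀ + 1, ?_⟩
    · exact (h0 x₀ hx₀) (Metric.ball_mem_nhds _ hε)
    · intro x hx hxK s hs
      have h1 := ode_close (hF x hxK) (hF x₀ hx₀) hM₀' hL (le_of_lt hx) s hs
      have h2 := hM₀' s hs
      have h3 : ‖F x s‖ ≤ ‖F x₀ s‖ + dist (F x s) (F x₀ s) := by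
        rw [dist_eq_norm]
        calc ‖F x s‖ = ‖F x₀ s + (F x s - F x₀ s)‖ := by congr 1; abel
          _ ≤ _ := norm_add_le _ _
      linarith

end Pool.Agent.H43.FX
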