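import Pool.Agent.H43.FX.Ring
import Pool.Agent.H43.FX.OdeBound
import Pool.Agent.H43.FX.GenLem

/-!
# FX-LEVEL0 : complete vector fields give entire sequences

Proof.  Let `g : GI → Aring` be the generators (`ge a b z z'`).  Every element of `Aring` is
`MvPolynomial.aeval g p` for some `p` (`Algebra.adjoin_range_eq_range_aeval`, transported to the
subalgebra type; `Algebra.adjoin` of a set, as a type, is generated by the elements of the
set).  Choose `P i : MvPolynomial GI ℂ` with `V (g i) = aeval g (P i)` and `Q` with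
`f = aeval g Q`.  For `x ∈ D4` let `γ_x` be the curve of completeness starting at
`evA (pt5 x)`, and `F x s = fun i => γ_x s (g i)`.  Then `F x 0 i = res (g i) x` is continuous
in `x ∈ D4` (explicit rational functions) and
`HasDerivAt (F x) (fun i => MvPolynomial.eval (F x s) (P i)) s`, because
`γ_x s (V (g i)) = γ_x s (aeval g (P i)) = eval (F x s) (P i)`.
Let `K ⊆ D4` be compact and `R > 0`.  `ode_bound` (with this polynomial map, which is `C¹`)
gives `‖F x s‖ ≤ M` for `x ∈ K`, `‖s‖ ≤ R + 1`, so `h_x(s) = γ_x s f = eval (F x s) Q` satisfies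
`‖h_x s‖ ≤ M'` there (compactness of the ball of radius `M` in `GI → ℂ`).  `h_x` is entire and
`iteratedDeriv m h_x s = γ_x s (V^[m] f)`, so at `s = 0` it equals
`res (V^[m] f) x` (`evA`, `res_eq`).  The Cauchy estimate
(`Complex.norm_iteratedDeriv_le_of_forall_mem_sphere_norm_le`) on the circle of radius `R`
gives `‖res (V^[m] f) x‖ ≤ m! M'/R^m`.
-/

namespace Pool.Agent.H43.FX

open Set Metric Filter Topology

variable {a b z z' : Fin 4 → ℂ}

lemma exists_poly (f : Aring a b z z') : ∃ p : MvPolynomial GI ℂ,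
    MvPolynomial.aeval (ge a b z z') p = f := by
  have hf : (f : U5 a b → ℂ) ∈ Algebra.adjoin ℂ
      (range fun g : GI => rs a b (gf a b z z' g)) := f.2
  rw [Algebra.adjoin_range_eq_range_aeval] at hf
  obtain ⟨p, hp⟩ := hf
  refine ⟨p, Subtype.ext ?_⟩
  rw [← hp]
  exact MvPolynomial.comp_aeval_apply (ge a b z z') (Aring a b z z').val p

lemma alg_aeval (φ : Aring a b z z' →ₐ[ℂ] ℂ) (p : MvPolynomial GI ℂ) :
    φ (MvPolynomial.aeval (ge a b z z') p) =
      MvPolynomial.eval (fun i => φ (ge a b z z' i)) p := by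
  rw [MvPolynomial.comp_aeval_apply (ge a b z z') φ p]
  exact congrArg (fun h => h p) (MvPolynomial.coe_aeval_eq_eval fun i => φ (ge a b z z' i))

lemma curve_data {V : Derivation ℂ (Aring a b z z') (Aring a b z z')}
    (hV : Pool.Agent.H29.Flex.IsComplete V) (f : Aring a b z z')
    {P : GI → MvPolynomial GI ℂ} (hP : ∀ i, MvPolynomial.aeval (ge a b z z') (P i) =
      V (ge a b z z' i)) {Q : MvPolynomial GI ℂ} (hQ : MvPolynomial.aeval (ge a b z z') Q = f)
    (x : ℂ × ℂ × ℂ × ℂ) (hx : x ∈ D4 a b) :
    ∃ F : ℂ → (GI → ℂ), (F 0 = fun i => gf a b z z' i (pt5 x)) ∧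
      (∀ s, HasDerivAt F (fun i => MvPolynomial.eval (F s) (P i)) s) ∧
      (∀ m : ℕ, iteratedDeriv m (fun s => MvPolynomial.eval (F s) Q) 0 =
        res a b ((V^[m] f : Aring a b z z') : U5 a b → ℂ) x) ∧
      Differentiable ℂ (fun s => MvPolynomial.eval (F s) Q) := by
  obtain ⟨γ, hγ0, hγ⟩ := hV (evA a b z z' ⟨pt5 x, pt5_mem hx⟩)
  have hQf : (fun s => MvPolynomial.eval (fun i => γ s (ge a b z z' i)) Q) = fun s => γ s f := by
    funext s
    rw [← alg_aeval, hQ]
  have hit : ∀ m : ℕ, iteratedDeriv m (fun s => γ s f) = fun s => γ s (V^[m] f) := by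
    intro m
    induction m with
    | zero => simp
    | succ m ih =>
      rw [iteratedDeriv_succ, ih]
      funext s
      rw [(hγ _ s).deriv, Function.iterate_succ_apply']
  refine ⟨fun s i => γ s (ge a b z z' i), ?_, ?_, ?_, ?_⟩
  · funext i
    simp only [hγ0]
    rfl
  · intro s
    rw [hasDerivAt_pi]
    intro i
    have h := hγ (ge a b z z' i) s
    rw [← hP i, alg_aeval] at h
    exact h
  · intro m
    rw [hQf, hit m, res_eq _ hx]
    simp only [hγ0]
    rfl
  · rw [hQf]
    exact fun s => (hγ f s).differentiableAt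

lemma pt5_continuous : Continuous pt5 := by
  unfold pt5
  fun_prop

lemma gf_continuousOn (g : GI) : ContinuousOn (gf a b z z' g) (U5 a b) := by
  have hcu : ∀ k, Continuous (cu k) := by
    intro k; unfold cu; split_ifs <;> fun_prop
  have hcw : ∀ k, Continuous (cw k) := by
    intro k; unfold cw; split_ifs <;> fun_prop
  have hct : Continuous ct := by unfold ct; fun_prop
  have hcx : ∀ i, ContinuousOn (cx a z i) (U5 a b) := by
    intro i
    refine ContinuousOn.div (by fun_prop) ?_ ?_
    · unfold lf; fun_prop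
    · intro q hq; exact pow_ne_zero 3 (hq.1 i)
  have hcy : ∀ j, ContinuousOn (cy b z' j) (U5 a b) := by
    intro j
    refine ContinuousOn.div (by fun_prop) ?_ ?_
    · unfold mf; fun_prop
    · intro q hq; exact pow_ne_zero 3 (hq.2 j)
  cases g with
  | P k l => exact ((hcu k).mul (hcw l)).continuousOn
  | t => exact hct.continuousOn
  | X i k => exact (((hcu 0).pow _).mul ((hcu 1).pow _)).continuousOn.mul (hcx i)
  | Y j k => exact (((hcw 0).pow _).mul ((hcw 1).pow _)).continuousOn.mul (hcy j)
  | Z i j => exact (hcx i).mul (hcy j)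

theorem level0 {V : Derivation ℂ (Aring a b z z') (Aring a b z z')}
    (hV : Pool.Agent.H29.Flex.IsComplete V) (f : Aring a b z z') :
    LUE (D4 a b) (fun m x => res a b ((V^[m] f : Aring a b z z') : U5 a b → ℂ) x) := by
  choose P hP using fun i => exists_poly (V (ge a b z z' i))
  obtain ⟨Q, hQ⟩ := exists_poly f
  choose! F hF0 hFd hFi hFdiff using curve_data hV f hP hQ
  intro K hKD hK R hR
  have hPc : ContDiff ℂ 1 (fun (y : GI → ℂ) (i : GI) => MvPolynomial.eval y (P i)) := by
    rw [contDiff_pi]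
    intro i
    rw [← contDiffOn_univ]
    exact (AnalyticOnNhd.eval_mvPolynomial (P i)).contDiffOn uniqueDiffOn_univ
  have h0 : ContinuousOn (fun x => F x 0) K := by
    refine ContinuousOn.congr (f := fun x i => gf a b z z' i (pt5 x)) ?_ fun x hx =>
      hF0 x (hKD hx)
    rw [continuousOn_pi]
    intro i
    exact (gf_continuousOn i).comp pt5_continuous.continuousOn fun x hx => pt5_mem (hKD hx)
  obtain ⟨M, hM⟩ := ode_bound hK hPc h0 (fun x hx s => hFd x (hKD hx) s) R
  have hQc : Continuous (fun y : GI → ℂ => MvPolynomial.eval y Q) :=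
    MvPolynomial.continuous_eval Q
  obtain ⟨M', hM'⟩ := (isCompact_closedBall (0 : GI → ℂ) M).exists_bound_of_continuousOn
    hQc.continuousOn
  refine ⟨M', fun m x hx => ?_⟩
  have h1 := Complex.norm_iteratedDeriv_le_of_forall_mem_sphere_norm_le m hR
    (f := fun s => MvPolynomial.eval (F x s) Q) (c := 0) (C := M')
    (hFdiff x (hKD hx)).diffContOnCl (fun s hs => by
      apply hM'
      rw [mem_closedBall, dist_zero_right]
      apply hM x hx
      rw [mem_sphere, dist_zero_right] at hs
      exact hs.le)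
  rw [hFi x (hKD hx) m] at h1
  have hRm : 0 < R ^ m := pow_pos hR m
  rw [le_div_iff₀ hRm] at h1
  linarith

end Pool.Agent.H43.FX
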