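import Pool.Agent.H43.FX.Chain
import Pool.Agent.H43.FX.Level0
import Pool.Agent.H43.FX.LeadLUE

/-!
# FX-TONEG : the lowest component of a complete vector field is a complete field

Proof.  `mem`: let `AA k φ`; `f` from `ungrade`, so `res f = κ^k φ(p)` on the open set `D4`.
By `hc`, on `D4`: `res (V f) = κ^k (V₁∂_vφ + W₁∂_ωφ + C₁∂_tφ + k D₁ φ)` with
`V₁ = lau N cV` etc. (`fderiv` of `x ↦ x.1^k φ(x.2)`; `φ` is differentiable on `D3`, being equal
there to an element of `Rvw` by `aa_rep`).  By `h0` the terms with exponent `< -d` vanish, so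
this is `∑_{m ≥ -d} κ^{k+m} (cV m ∂_vφ + ... + k cD m φ)`.  By `grade`, `res (V f) = lau N' φ'`
with `AA j (φ' j)`.  Comparing the coefficients of `κ^{k-d}` for each `p ∈ D3`
(`laurent_zero` applied to the difference, with a range `Icc (-N'') N''` large enough):
`φ'_{k-d} = cV(-d)∂_vφ + ... + k cD(-d) φ` on `D3` (if `k - d` is outside `Icc (-N') N'` the left
side is `0`, and `aa_zero`).  Conclude by `AA.congr`.
`ent`: `level0` for `f` and, by induction on `m` (`hc` for `V^[m] f`, `sq_congr`-type argument on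
the open set `D4`), `res (V^[m] f) x = sq ξ 0 0 (res f) m x` for `x ∈ D4`,
`ξ x = (κ D₁, V₁, W₁, C₁)`.  Apply `lead_LUE` with `E = ℂ × ℂ × ℂ`, `c = 0`, `r = 1`,
`U = D3 a b`, `n = d`, `e = -k`, `Vh = κ^d D₁ = ∑_{m ≥ -d} κ^{m+d} cD m p` (analytic also at
`κ = 0`; use natural exponents `(m+d).toNat`), `Wh` similarly with `(cV, cW, cC)`,
`S = Sh = T = Th = 0`, `fh (κ,p) = φ p`.  At `κ = 0`: `Vh(0,p) = cD(-d) p`,
`Wh(0,p) = (cV(-d), cW(-d), cC(-d)) p`, `S₂ = k cD(-d)`, `T₂ = -d cD(-d)`.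
-/

namespace Pool.Agent.H43.FX

open Set Metric Filter Topology

variable {a b z z' : Fin 4 → ℂ}

theorem aa_analytic {k : ℤ} {φ : ℂ × ℂ × ℂ → ℂ} (h : AA a b z z' k φ) :
    AnalyticOnNhd ℂ φ (D3 a b) := by
  obtain ⟨φ', h1, h2⟩ := aa_rep h
  have h3 : AnalyticOnNhd ℂ φ' (D3 a b) := fun p hp =>
    rvw_analytic (v := p.1) (ω := p.2.1) (t := p.2.2) h1 hp.1 hp.2
  exact h3.congr (isOpen_D3 a b) h2.symm

/-- Two Laurent sums with equal values have equal coefficients. -/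
theorem laurent_compare {N N' : ℕ} {k : ℤ} {c c' : ℤ → ℂ}
    (h : ∀ κ : ℂ, κ ≠ 0 → ∑ m ∈ Finset.Icc (-(N : ℤ)) (N : ℤ), κ ^ (k + m) * c m =
      ∑ j ∈ Finset.Icc (-(N' : ℤ)) (N' : ℤ), κ ^ j * c' j)
    {m : ℤ} (hm : m ∈ Finset.Icc (-(N : ℤ)) (N : ℤ)) :
    c m = if k + m ∈ Finset.Icc (-(N' : ℤ)) (N' : ℤ) then c' (k + m) else 0 := by
  classical
  set M : ℕ := N + k.natAbs + N' with hM
  have hk1 : -(k.natAbs : ℤ) ≤ k := by
    have := neg_abs_le k
    rwa [← Int.natCast_natAbs] at this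
  have hk2 : k ≤ (k.natAbs : ℤ) := by
    have := le_abs_self k
    rwa [← Int.natCast_natAbs] at this
  have key := laurent_zero (N := M) (c := fun j =>
    (if j - k ∈ Finset.Icc (-(N : ℤ)) (N : ℤ) then c (j - k) else 0) -
      (if j ∈ Finset.Icc (-(N' : ℤ)) (N' : ℤ) then c' j else 0)) ?_
  · have h1 := key (k + m) (by
      rw [Finset.mem_Icc] at hm ⊢
      constructor <;> omega)
    simp only [add_sub_cancel_left, if_pos hm] at h1
    exact sub_eq_zero.1 h1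
  · intro κ hκ
    simp only [mul_sub, Finset.sum_sub_distrib]
    rw [sub_eq_zero]
    have h1 : ∑ j ∈ Finset.Icc (-(M : ℤ)) (M : ℤ), κ ^ j *
        (if j ∈ Finset.Icc (-(N' : ℤ)) (N' : ℤ) then c' j else 0) =
        ∑ j ∈ Finset.Icc (-(N' : ℤ)) (N' : ℤ), κ ^ j * c' j := by
      simp only [mul_ite, mul_zero]
      rw [← Finset.sum_filter]
      refine Finset.sum_congr ?_ fun _ _ => rfl
      ext j
      simp only [Finset.mem_filter, Finset.mem_Icc]
      constructor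
      · exact fun h => h.2
      · intro h
        refine ⟨⟨?_, ?_⟩, h⟩ <;> omega
    have h2 : ∑ j ∈ Finset.Icc (-(M : ℤ)) (M : ℤ), κ ^ j *
        (if j - k ∈ Finset.Icc (-(N : ℤ)) (N : ℤ) then c (j - k) else 0) =
        ∑ m ∈ Finset.Icc (-(N : ℤ)) (N : ℤ), κ ^ (k + m) * c m := by
      simp only [mul_ite, mul_zero]
      rw [← Finset.sum_filter]
      refine Finset.sum_bij' (fun j _ => j - k) (fun m _ => k + m) ?_ ?_ ?_ ?_ ?_
      · intro j hj
        exact (Finset.mem_filter.1 hj).2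
      · intro m hm
        rw [Finset.mem_filter]
        rw [Finset.mem_Icc] at hm
        simp only [Finset.mem_Icc, add_sub_cancel_left]
        refine ⟨⟨?_, ?_⟩, hm⟩ <;> omega
      · intro j _
        ring
      · intro m _
        ring
      · intro j _
        rw [add_sub_cancel]
    rw [h1, h2, h κ hκ]

/-- `κ^d` times the Laurent sum, as a polynomial in `κ`. -/
noncomputable def lauh (d N : ℕ) (c : ℤ → ℂ × ℂ × ℂ → ℂ) (x : ℂ × ℂ × ℂ × ℂ) : ℂ :=
  ∑ m ∈ Finset.Icc (-(d : ℤ)) (N : ℤ), x.1 ^ (m + d).toNat * c m x.2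

theorem lau_eq_lauh {d N : ℕ} (hdN : d ≤ N) {c : ℤ → ℂ × ℂ × ℂ → ℂ} {x : ℂ × ℂ × ℂ × ℂ}
    (hx : x.1 ≠ 0)
    (h0 : ∀ k ∈ Finset.Icc (-(N : ℤ)) (N : ℤ), k < -(d : ℤ) → c k x.2 = 0) :
    lau N c x = x.1 ^ (-(d : ℤ)) * lauh d N c x := by
  unfold lau lauh
  rw [Finset.mul_sum]
  have hsub : Finset.Icc (-(d : ℤ)) (N : ℤ) ⊆ Finset.Icc (-(N : ℤ)) (N : ℤ) := by
    apply Finset.Icc_subset_Icc _ le_rfl
    have : (d : ℤ) ≤ (N : ℤ) := by exact_mod_cast hdN
    omega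
  symm
  calc ∑ i ∈ Finset.Icc (-(d : ℤ)) (N : ℤ), x.1 ^ (-(d : ℤ)) * (x.1 ^ (i + d).toNat * c i x.2)
      = ∑ i ∈ Finset.Icc (-(d : ℤ)) (N : ℤ), x.1 ^ i * c i x.2 := by
        refine Finset.sum_congr rfl fun i hi => ?_
        rw [Finset.mem_Icc] at hi
        rw [← mul_assoc, ← zpow_natCast, ← zpow_add₀ hx, Int.toNat_of_nonneg (by omega)]
        congr 2
        ring
    _ = ∑ k ∈ Finset.Icc (-(N : ℤ)) (N : ℤ), x.1 ^ k * c k x.2 := by
        refine Finset.sum_subset hsub fun i hi hi' => ?_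
        rw [h0 i hi, mul_zero]
        rw [Finset.mem_Icc] at hi hi'
        by_contra hcon
        exact hi' ⟨by omega, hi.2⟩

theorem lauh_zero {d N : ℕ} {c : ℤ → ℂ × ℂ × ℂ → ℂ} (y : ℂ × ℂ × ℂ) :
    lauh d N c (0, y) = c (-d) y := by
  unfold lauh
  rw [Finset.sum_eq_single (-(d : ℤ))]
  · simp
  · intro m hm hne
    rw [Finset.mem_Icc] at hm
    have : (m + d).toNat ≠ 0 := by omega
    simp [this]
  · intro h
    exact absurd (Finset.mem_Icc.2 ⟨le_rfl, by omega⟩) h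

theorem lauh_analytic {d N : ℕ} {c : ℤ → ℂ × ℂ × ℂ → ℂ}
    (hc : ∀ k, c k ∈ Rvw (range a) (range b)) {r : ℝ} :
    AnalyticOnNhd ℂ (lauh d N c) (ball (0 : ℂ) r ×ˢ D3 a b) := by
  intro x hx
  unfold lauh
  refine Finset.analyticAt_fun_sum _ fun m _ => ?_
  refine (analyticAt_fst.pow _).mul ?_
  have h1 : AnalyticAt ℂ (c m) x.2 :=
    rvw_analytic (v := x.2.1) (ω := x.2.2.1) (t := x.2.2.2) (hc m) hx.2.1 hx.2.2
  exact h1.comp analyticAt_snd

theorem fderiv_res {k : ℤ} {φ : ℂ × ℂ × ℂ → ℂ} (h : AA a b z z' k φ) {f : Aring a b z z'}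
    (hf : ∀ x ∈ D4 a b, res a b (f : U5 a b → ℂ) x = x.1 ^ k * φ x.2)
    {x : ℂ × ℂ × ℂ × ℂ} (hx : x ∈ D4 a b) (v : ℂ × ℂ × ℂ × ℂ) :
    fderiv ℂ (res a b (f : U5 a b → ℂ)) x v =
      x.1 ^ k * fderiv ℂ φ x.2 v.2 + (k : ℂ) * x.1 ^ (k - 1) * v.1 * φ x.2 := by
  have hev : res a b (f : U5 a b → ℂ) =ᶠ[𝓝 x]
      fun q : ℂ × (ℂ × ℂ × ℂ) => (q.1 - 0) ^ k * (fun q : ℂ × (ℂ × ℂ × ℂ) => φ q.2) q := by
    filter_upwards [(isOpen_D4 a b).mem_nhds hx] with q hq
    simp only [sub_zero]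
    exact hf q hq
  have hφ : DifferentiableAt ℂ φ x.2 := (aa_analytic h x.2 hx.2).differentiableAt
  have h1 : HasFDerivAt (fun q : ℂ × (ℂ × ℂ × ℂ) => φ q.2)
      ((fderiv ℂ φ x.2).comp (ContinuousLinearMap.snd ℂ ℂ (ℂ × ℂ × ℂ))) x :=
    hφ.hasFDerivAt.comp x (ContinuousLinearMap.snd ℂ ℂ (ℂ × ℂ × ℂ)).hasFDerivAt
  rw [hev.fderiv_eq, fderiv_zpow_mul (c := 0) (k := k) (Φ := fun q : ℂ × (ℂ × ℂ × ℂ) => φ q.2)
    (p := x) hx.1 h1.differentiableAt v, h1.fderiv]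
  simp only [sub_zero, ContinuousLinearMap.comp_apply, ContinuousLinearMap.coe_snd']

theorem neg_of_chain {V : Derivation ℂ (Aring a b z z') (Aring a b z z')}
    (hV : Pool.Agent.H29.Flex.IsComplete V) {N : ℕ} {cV cW cC cD : ℤ → ℂ × ℂ × ℂ → ℂ}
    (hm : ∀ k, cV k ∈ Rvw (range a) (range b) ∧ cW k ∈ Rvw (range a) (range b) ∧
      cC k ∈ Rvw (range a) (range b) ∧ cD k ∈ Rvw (range a) (range b))
    (hc : ∀ (f : Aring a b z z'), ∀ x ∈ D4 a b,
      res a b (V f : U5 a b → ℂ) x = fderiv ℂ (res a b (f : U5 a b → ℂ)) x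
        (x.1 * lau N cD x, lau N cV x, lau N cW x, lau N cC x))
    {d : ℕ} (hd : 1 ≤ d) (hdN : d ≤ N)
    (h0 : ∀ k ∈ Finset.Icc (-(N : ℤ)) (N : ℤ), k < -(d : ℤ) → ∀ p ∈ D3 a b,
      cV k p = 0 ∧ cW k p = 0 ∧ cC k p = 0 ∧ cD k p = 0) :
    NegField a b z z' d (cV (-d)) (cW (-d)) (cC (-d)) (cD (-d)) := by
  have hdN' : (d : ℤ) ≤ (N : ℤ) := by exact_mod_cast hdN
  refine ⟨hd, (hm _).1, (hm _).2.1, (hm _).2.2.1, (hm _).2.2.2, ?_, ?_⟩
  · -- membership
    intro k φ hφ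
    obtain ⟨f, hf⟩ := ungrade hφ
    obtain ⟨N', φ', h1, h2⟩ := grade (V f)
    have key : ∀ p ∈ D3 a b, fderiv ℂ φ p (cV (-d) p, cW (-d) p, cC (-d) p) +
        (k : ℂ) * cD (-d) p * φ p =
        if k + (-d : ℤ) ∈ Finset.Icc (-(N' : ℤ)) (N' : ℤ) then φ' (k + (-d : ℤ)) p else 0 := by
      intro p hp
      refine laurent_compare (N := N) (N' := N') (k := k)
        (c := fun m => fderiv ℂ φ p (cV m p, cW m p, cC m p) + (k : ℂ) * cD m p * φ p)
        (c' := fun j => φ' j p) ?_ (m := -(d : ℤ)) (Finset.mem_Icc.2 ⟨by omega, by omega⟩)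
      intro κ hκ
      have hx : ((κ, p) : ℂ × ℂ × ℂ × ℂ) ∈ D4 a b := ⟨hκ, hp⟩
      have e1 := h2 (κ, p) hx
      rw [hc f (κ, p) hx, fderiv_res hφ hf hx] at e1
      have e2 : ((lau N cV (κ, p), lau N cW (κ, p), lau N cC (κ, p)) : ℂ × ℂ × ℂ) =
          ∑ m ∈ Finset.Icc (-(N : ℤ)) (N : ℤ), κ ^ m • ((cV m p, cW m p, cC m p) : ℂ × ℂ × ℂ) := by
        unfold lau
        rw [Prod.ext_iff, Prod.ext_iff]
        simp only [Prod.fst_sum, Prod.snd_sum, Prod.smul_mk, smul_eq_mul, and_self]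
      simp only at e1
      rw [e2, map_sum] at e1
      simp only [lau] at e1
      rw [← e1, Finset.mul_sum]
      have e4 : (k : ℂ) * κ ^ (k - 1) *
          (κ * ∑ k ∈ Finset.Icc (-(N : ℤ)) (N : ℤ), κ ^ k * cD k p) * φ p =
          ∑ m ∈ Finset.Icc (-(N : ℤ)) (N : ℤ), κ ^ (k + m) * ((k : ℂ) * cD m p * φ p) := by
        have e5 : κ ^ (k - 1) * κ = κ ^ k := by
          rw [← zpow_add_one₀ hκ, sub_add_cancel]
        calc (k : ℂ) * κ ^ (k - 1) *
            (κ * ∑ k ∈ Finset.Icc (-(N : ℤ)) (N : ℤ), κ ^ k * cD k p) * φ p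
            = (k : ℂ) * (κ ^ (k - 1) * κ) *
              (∑ k ∈ Finset.Icc (-(N : ℤ)) (N : ℤ), κ ^ k * cD k p) * φ p := by ring
          _ = ∑ m ∈ Finset.Icc (-(N : ℤ)) (N : ℤ), κ ^ (k + m) * ((k : ℂ) * cD m p * φ p) := by
              rw [e5, Finset.mul_sum, Finset.sum_mul]
              refine Finset.sum_congr rfl fun m _ => ?_
              rw [zpow_add₀ hκ]
              ring
      rw [e4, ← Finset.sum_add_distrib]
      refine Finset.sum_congr rfl fun m _ => ?_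
      rw [map_smul, smul_eq_mul, zpow_add₀ hκ]
      ring
    rw [sub_eq_add_neg]
    by_cases hkd : k + (-d : ℤ) ∈ Finset.Icc (-(N' : ℤ)) (N' : ℤ)
    · refine AA.congr (h1 (k + (-d : ℤ))) fun p hp => ?_
      have := key p hp
      rw [if_pos hkd] at this
      exact this.symm
    · refine AA.congr (aa_zero (k + (-d : ℤ))) fun p hp => ?_
      have := key p hp
      rw [if_neg hkd] at this
      exact this.symm
  · intro k φ hφ
    obtain ⟨f, hf⟩ := ungrade hφ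
    set ξ : ℂ × (ℂ × ℂ × ℂ) → ℂ × (ℂ × ℂ × ℂ) := fun x =>
      (x.1 * lau N cD x, lau N cV x, lau N cW x, lau N cC x) with hξ
    have hseq : ∀ m : ℕ, EqOn (sq ξ (fun _ => 0) (fun _ => 0) (res a b (f : U5 a b → ℂ)) m)
        (fun x => res a b ((V^[m] f : Aring a b z z') : U5 a b → ℂ) x) (D4 a b) := by
      intro m
      induction m with
      | zero => exact fun x _ => rfl
      | succ m ih =>
        intro x hx
        have h1 : sq ξ (fun _ => 0) (fun _ => 0) (res a b (f : U5 a b → ℂ)) (m + 1) x =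
          fderiv ℂ (sq ξ (fun _ => 0) (fun _ => 0) (res a b (f : U5 a b → ℂ)) m) x (ξ x) +
          (0 + (m : ℂ) * 0) * sq ξ (fun _ => 0) (fun _ => 0) (res a b (f : U5 a b → ℂ)) m x := rfl
        rw [h1, (ih.eventuallyEq_of_mem ((isOpen_D4 a b).mem_nhds hx)).fderiv_eq]
        simp only [Function.iterate_succ_apply']
        rw [hc _ x hx]
        ring
    have hL : LUE ((ball (0 : ℂ) 1 \ {0}) ×ˢ D3 a b)
        (sq ξ (fun _ => 0) (fun _ => 0) (res a b (f : U5 a b → ℂ))) := by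
      intro K hK hKc R hR
      have hK' : K ⊆ D4 a b := fun x hx => ⟨(hK hx).1.2, (hK hx).2⟩
      obtain ⟨M, hM⟩ := level0 hV f K hK' hKc R hR
      refine ⟨M, fun m p hp => ?_⟩
      rw [hseq m (hK' hp)]
      exact hM m p hp
    have hφa := aa_analytic hφ
    have main := lead_LUE (E := ℂ × ℂ × ℂ) (c := 0) (r := 1) one_pos (isOpen_D3 a b)
      (n := (d : ℤ)) (e := -k) (ξ := ξ) (S := fun _ => 0) (T := fun _ => 0)
      (f := res a b (f : U5 a b → ℂ)) (Vh := lauh d N cD) (Sh := fun _ => 0) (Th := fun _ => 0)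
      (fh := fun x => φ x.2) (Wh := fun x => (lauh d N cV x, lauh d N cW x, lauh d N cC x))
      (lauh_analytic fun k => (hm k).2.2.2)
      ((lauh_analytic fun k => (hm k).1).prod ((lauh_analytic fun k => (hm k).2.1).prod
        (lauh_analytic fun k => (hm k).2.2.1)))
      analyticOnNhd_const analyticOnNhd_const
      (fun x hx => (hφa x.2 hx.2).comp analyticAt_snd) ?_ ?_ ?_ ?_ hL
    · have e1 : (fun y : ℂ × ℂ × ℂ => ((lauh d N cV (0, y), lauh d N cW (0, y),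
          lauh d N cC (0, y)) : ℂ × ℂ × ℂ)) = fun p => (cV (-d) p, cW (-d) p, cC (-d) p) := by
        funext y
        rw [lauh_zero, lauh_zero, lauh_zero]
      have e2 : (fun y : ℂ × ℂ × ℂ => (0 : ℂ) - ((-k : ℤ) : ℂ) * lauh d N cD (0, y)) =
          fun p => (k : ℂ) * cD (-d) p := by
        funext y
        rw [lauh_zero]
        push_cast
        ring
      have e3 : (fun y : ℂ × ℂ × ℂ => (0 : ℂ) - ((d : ℤ) : ℂ) * lauh d N cD (0, y)) =
          fun p => -(d : ℂ) * cD (-d) p := by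
        funext y
        rw [lauh_zero]
        push_cast
        ring
      rw [e1, e2, e3] at main
      exact main
    · intro x _ hx y hy
      have hc0 := h0
      rw [hξ]
      simp only [sub_zero, Prod.smul_mk, smul_eq_mul]
      rw [lau_eq_lauh hdN (c := cD) (x := (x, y)) hx fun k hk hk' => (h0 k hk hk' y hy).2.2.2,
        lau_eq_lauh hdN (c := cV) (x := (x, y)) hx fun k hk hk' => (h0 k hk hk' y hy).1,
        lau_eq_lauh hdN (c := cW) (x := (x, y)) hx fun k hk hk' => (h0 k hk hk' y hy).2.1,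
        lau_eq_lauh hdN (c := cC) (x := (x, y)) hx fun k hk hk' => (h0 k hk hk' y hy).2.2.1]
      refine Prod.ext ?_ rfl
      simp only
      rw [sub_eq_add_neg, zpow_add₀ hx, zpow_one, mul_assoc]
    · intro x _ hx y hy
      simp
    · intro x _ hx y hy
      simp
    · intro x _ hx y hy
      rw [hf (x, y) ⟨hx, hy⟩]
      simp

end Pool.Agent.H43.FX
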