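import Pool.Agent.H43.FX.MainNeg
import Pool.Agent.H43.FX.ToNeg
import Pool.Agent.H43.FX.Euler

/-!
# The ring does not have the algebraic density property
-/

namespace Pool.Agent.H43.FX

open Set Metric Filter Topology

variable {a b z z' : Fin 4 → ℂ}

theorem pres_of_complete (ha : Function.Injective a) (hb : Function.Injective b)
    (hz : Function.Injective z) (hz' : Function.Injective z') (hzz : ∀ i j, z i ≠ z' j)
    {V : Derivation ℂ (Aring a b z z') (Aring a b z z')}
    (hV : Pool.Agent.H29.Flex.IsComplete V) : Pres V := by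
  obtain ⟨N, cV, cW, cC, cD, hm, hc⟩ := chain V
  apply pres_of_nonneg hc
  by_contra hcon
  have key : ∀ m : ℕ, m ≤ N → ∀ k ∈ Finset.Icc (-(N : ℤ)) (N : ℤ), k < -(N : ℤ) + m →
      k < 0 → ∀ p ∈ D3 a b, cV k p = 0 ∧ cW k p = 0 ∧ cC k p = 0 ∧ cD k p = 0 := by
    intro m
    induction m with
    | zero =>
      intro _ k hk hk2
      rw [Finset.mem_Icc] at hk
      exfalso
      push_cast at hk2
      omega
    | succ m ih =>
      intro hmN k hk hk2 hk0 p hp
      rcases lt_or_ge k (-(N : ℤ) + m) with h1 | h1
      · exact ih (by omega) k hk h1 hk0 p hp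
      · have hkd : k = -((N - m : ℕ) : ℤ) := by
          rw [Nat.cast_sub (by omega)]
          push_cast at hk2
          omega
        have hneg := neg_of_chain hV hm hc (d := N - m) (by omega) (by omega) (by
          intro k' hk' hlt p' hp'
          refine ih (by omega) k' hk' ?_ ?_ p' hp'
          · rw [Nat.cast_sub (by omega)] at hlt
            omega
          · omega)
        have := main_neg hneg ha hb hz hz' hzz p hp
        rw [hkd]
        exact this
  apply hcon
  intro k hk hk0 p hp
  exact key N le_rfl k hk (by omega) hk0 p hp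

theorem not_adp (ha : Function.Injective a) (hb : Function.Injective b)
    (hz : Function.Injective z) (hz' : Function.Injective z') (hzz : ∀ i j, z i ≠ z' j) :
    ¬ Pool.Agent.H29.Flex.HasADP (Aring a b z z') := by
  intro hADP
  obtain ⟨E, hE⟩ := not_pres a b z z'
  apply hE
  apply pres_lie (fun V hV => pres_of_complete ha hb hz hz' hzz hV)
  rw [hADP]
  trivial

end Pool.Agent.H43.FX
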