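import Pool.Agent.H43.FX.Ring

/-!
# FX-PTS : the points of the variety

Let `x : Aring →ₐ ℂ`, `p_{kl} = x(P k l)`, `T = x(t)`.
Identities in `Aring` (check on `U5`):
(a) `P00 P11 = P01 P10`.
(b) `t - z_i = ∑ (coefficients) X i k`: `ℓ_i³ x_i = X i 3 - 3a_i X i 2 + 3a_i² X i 1 - a_i³ X i 0`;
    the same for `Y`.
(c) `X i k · Y j l = (monomial of degree 3 in the P's) · Z i j`: `u₁^k u₂^{3-k} w₁^l w₂^{3-l}` is a
    product of three `P`'s (for `k, l ≤ 3`: pair the factors).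
(d) `P`-relations for the vanishing of `ℓ_i`: `(u_k ℓ-type)` `ℓ_i w_l = P 0 l - a_i P 1 l`, and
    `(ℓ_i w_l)³ X i k = (t - z_i) u₁^k u₂^{3-k} w_l³`, where `u₁^k u₂^{3-k} w_l³ =
    (P 0 l)^k (P 1 l)^{3-k}`.
(1) Some `p_{kl} ≠ 0`: otherwise by (c) `x(X i k) x(Y j l) = 0` for all `i,j,k,l`, so by (b)
    `(T - z_i)(T - z'_j) = 0` for all `i, j`; if `T ≠ z_i` for some `i`, then `T = z'_j` for all `j`,
    contradicting injectivity of `z'`; so `T = z_i` for all `i`, contradicting injectivity of `z`.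
(2) By (a) the matrix `p` has rank one: `p_{kl} = u_k w_l` with `u, w ≠ 0` (if
    `p_{k₀l₀} ≠ 0`, take `u_k = p_{k l₀}`, `w_l = p_{k₀ l}/p_{k₀l₀}`).
(3) If `u₀ = a_i u₁`, choose `l` with `w_l ≠ 0` and `k` with `u_k ≠ 0`: by (d) (with exponent
    `k = 3` or `k = 0`): `0 = (T - z_i) (u_k w_l)³`, so `T = z_i`.  The same for `w`.
-/

namespace Pool.Agent.H43.FX

open Set Metric Filter Topology

variable {a b z z' : Fin 4 → ℂ}

private theorem pts_a : ge a b z z' (GI.P 0 0) * ge a b z z' (GI.P 1 1) =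
    ge a b z z' (GI.P 0 1) * ge a b z z' (GI.P 1 0) := by
  apply Subtype.ext
  funext q
  simp only [ge, rs, gf, MulMemClass.coe_mul, Pi.mul_apply]
  ring

private theorem pts_bx (i : Fin 4) : ge a b z z' GI.t - algebraMap ℂ _ (z i) =
    ge a b z z' (GI.X i 3) - algebraMap ℂ _ (3 * a i) * ge a b z z' (GI.X i 2) +
      algebraMap ℂ _ (3 * a i ^ 2) * ge a b z z' (GI.X i 1) -
      algebraMap ℂ _ (a i ^ 3) * ge a b z z' (GI.X i 0) := by
  apply Subtype.ext
  funext q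
  have hq := q.2.1 i
  have hl : cx a z i q.1 * lf a i q.1 ^ 3 = ct q.1 - z i := by
    rw [cx, div_mul_cancel₀ _ (pow_ne_zero 3 hq)]
  change ct q.1 - z i = cu 0 q.1 ^ 3 * cu 1 q.1 ^ (3 - 3) * cx a z i q.1 -
    3 * a i * (cu 0 q.1 ^ 2 * cu 1 q.1 ^ (3 - 2) * cx a z i q.1) +
    3 * a i ^ 2 * (cu 0 q.1 ^ 1 * cu 1 q.1 ^ (3 - 1) * cx a z i q.1) -
    a i ^ 3 * (cu 0 q.1 ^ 0 * cu 1 q.1 ^ (3 - 0) * cx a z i q.1)
  rw [← hl]
  simp only [cu, lf]
  norm_num
  ring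

private theorem pts_by (j : Fin 4) : ge a b z z' GI.t - algebraMap ℂ _ (z' j) =
    ge a b z z' (GI.Y j 3) - algebraMap ℂ _ (3 * b j) * ge a b z z' (GI.Y j 2) +
      algebraMap ℂ _ (3 * b j ^ 2) * ge a b z z' (GI.Y j 1) -
      algebraMap ℂ _ (b j ^ 3) * ge a b z z' (GI.Y j 0) := by
  apply Subtype.ext
  funext q
  have hq := q.2.2 j
  have hl : cy b z' j q.1 * mf b j q.1 ^ 3 = ct q.1 - z' j := by
    rw [cy, div_mul_cancel₀ _ (pow_ne_zero 3 hq)]
  change ct q.1 - z' j = cw 0 q.1 ^ 3 * cw 1 q.1 ^ (3 - 3) * cy b z' j q.1 -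
    3 * b j * (cw 0 q.1 ^ 2 * cw 1 q.1 ^ (3 - 2) * cy b z' j q.1) +
    3 * b j ^ 2 * (cw 0 q.1 ^ 1 * cw 1 q.1 ^ (3 - 1) * cy b z' j q.1) -
    b j ^ 3 * (cw 0 q.1 ^ 0 * cw 1 q.1 ^ (3 - 0) * cy b z' j q.1)
  rw [← hl]
  simp only [cw, mf]
  norm_num
  ring

/-- The exponents of a monomial of degree three. -/
private def pts_e (k : Fin 4) (s : Fin 3) : Fin 2 := if (s : ℕ) < k then 0 else 1

private theorem pts_mon (f : Fin 2 → ℂ) (k : Fin 4) :
    f 0 ^ (k : ℕ) * f 1 ^ (3 - (k : ℕ)) = ∏ s, f (pts_e k s) := by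
  fin_cases k <;> simp [pts_e, Fin.prod_univ_three, -mul_eq_mul_right_iff,
    -mul_eq_mul_left_iff] <;> ring

private theorem pts_c (i j k l : Fin 4) : ge a b z z' (GI.X i k) * ge a b z z' (GI.Y j l) =
    (ge a b z z' (GI.P (pts_e k 0) (pts_e l 0)) * ge a b z z' (GI.P (pts_e k 1) (pts_e l 1)) *
      ge a b z z' (GI.P (pts_e k 2) (pts_e l 2))) * ge a b z z' (GI.Z i j) := by
  apply Subtype.ext
  funext q
  have h1 := pts_mon (fun m => cu m q.1) k
  have h2 := pts_mon (fun m => cw m q.1) l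
  simp only [Fin.prod_univ_three] at h1 h2
  simp only [ge, rs, gf, MulMemClass.coe_mul, Pi.mul_apply]
  rw [h1, h2]
  ring

private theorem pts_dx (i k : Fin 4) (l : Fin 2) :
    (ge a b z z' (GI.P 0 l) - algebraMap ℂ _ (a i) * ge a b z z' (GI.P 1 l)) ^ 3 *
      ge a b z z' (GI.X i k) = (ge a b z z' GI.t - algebraMap ℂ _ (z i)) *
      (ge a b z z' (GI.P 0 l) ^ (k : ℕ) * ge a b z z' (GI.P 1 l) ^ (3 - (k : ℕ))) := by
  apply Subtype.ext
  funext q
  have hq := q.2.1 i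
  have hl : cx a z i q.1 * lf a i q.1 ^ 3 = ct q.1 - z i := by
    rw [cx, div_mul_cancel₀ _ (pow_ne_zero 3 hq)]
  change (cu 0 q.1 * cw l q.1 - a i * (cu 1 q.1 * cw l q.1)) ^ 3 *
    (cu 0 q.1 ^ (k : ℕ) * cu 1 q.1 ^ (3 - (k : ℕ)) * cx a z i q.1) = (ct q.1 - z i) *
    ((cu 0 q.1 * cw l q.1) ^ (k : ℕ) * (cu 1 q.1 * cw l q.1) ^ (3 - (k : ℕ)))
  have hk : cw l q.1 ^ (k : ℕ) * cw l q.1 ^ (3 - (k : ℕ)) = cw l q.1 ^ 3 := by
    rw [← pow_add]; congr 1; omega
  have e1 : cu 0 q.1 * cw l q.1 - a i * (cu 1 q.1 * cw l q.1) = lf a i q.1 * cw l q.1 := by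
    simp only [cu, lf]; norm_num; ring
  rw [← hl, e1, mul_pow, mul_pow, mul_pow, ← hk]
  ring

private theorem pts_dy (j k : Fin 4) (l : Fin 2) :
    (ge a b z z' (GI.P l 0) - algebraMap ℂ _ (b j) * ge a b z z' (GI.P l 1)) ^ 3 *
      ge a b z z' (GI.Y j k) = (ge a b z z' GI.t - algebraMap ℂ _ (z' j)) *
      (ge a b z z' (GI.P l 0) ^ (k : ℕ) * ge a b z z' (GI.P l 1) ^ (3 - (k : ℕ))) := by
  apply Subtype.ext
  funext q
  have hq := q.2.2 j
  have hl : cy b z' j q.1 * mf b j q.1 ^ 3 = ct q.1 - z' j := by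
    rw [cy, div_mul_cancel₀ _ (pow_ne_zero 3 hq)]
  change (cu l q.1 * cw 0 q.1 - b j * (cu l q.1 * cw 1 q.1)) ^ 3 *
    (cw 0 q.1 ^ (k : ℕ) * cw 1 q.1 ^ (3 - (k : ℕ)) * cy b z' j q.1) = (ct q.1 - z' j) *
    ((cu l q.1 * cw 0 q.1) ^ (k : ℕ) * (cu l q.1 * cw 1 q.1) ^ (3 - (k : ℕ)))
  have hk : cu l q.1 ^ (k : ℕ) * cu l q.1 ^ (3 - (k : ℕ)) = cu l q.1 ^ 3 := by
    rw [← pow_add]; congr 1; omega
  have e1 : cu l q.1 * cw 0 q.1 - b j * (cu l q.1 * cw 1 q.1) = mf b j q.1 * cu l q.1 := by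
    simp only [cw, mf]; norm_num; ring
  rw [← hl, e1, mul_pow, mul_pow, mul_pow, ← hk]
  ring

theorem pts (hz : Function.Injective z) (hz' : Function.Injective z')
    (x : Aring a b z z' →ₐ[ℂ] ℂ) :
    ∃ u w : Fin 2 → ℂ, u ≠ 0 ∧ w ≠ 0 ∧ (∀ k l, x (ge a b z z' (GI.P k l)) = u k * w l) ∧
      (∀ i, u 0 - a i * u 1 = 0 → x (ge a b z z' GI.t) = z i) ∧
      ∀ j, w 0 - b j * w 1 = 0 → x (ge a b z z' GI.t) = z' j := by
  have ha : x (ge a b z z' (GI.P 0 0)) * x (ge a b z z' (GI.P 1 1)) =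
      x (ge a b z z' (GI.P 0 1)) * x (ge a b z z' (GI.P 1 0)) := by
    rw [← map_mul, ← map_mul, pts_a]
  have hc : ∀ i j k l : Fin 4, x (ge a b z z' (GI.X i k)) * x (ge a b z z' (GI.Y j l)) =
      (x (ge a b z z' (GI.P (pts_e k 0) (pts_e l 0))) *
        x (ge a b z z' (GI.P (pts_e k 1) (pts_e l 1))) *
        x (ge a b z z' (GI.P (pts_e k 2) (pts_e l 2)))) * x (ge a b z z' (GI.Z i j)) := by
    intro i j k l
    simp only [← map_mul, pts_c]
  have hbx : ∀ i, x (ge a b z z' GI.t) - z i = x (ge a b z z' (GI.X i 3)) -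
      (3 * a i) * x (ge a b z z' (GI.X i 2)) + (3 * a i ^ 2) * x (ge a b z z' (GI.X i 1)) -
      a i ^ 3 * x (ge a b z z' (GI.X i 0)) := by
    intro i
    have := congrArg x (pts_bx (a := a) (b := b) (z := z) (z' := z') i)
    simpa only [map_sub, map_add, map_mul, AlgHom.commutes, Algebra.algebraMap_self,
      RingHom.id_apply] using this
  have hby : ∀ j, x (ge a b z z' GI.t) - z' j = x (ge a b z z' (GI.Y j 3)) -
      (3 * b j) * x (ge a b z z' (GI.Y j 2)) + (3 * b j ^ 2) * x (ge a b z z' (GI.Y j 1)) -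
      b j ^ 3 * x (ge a b z z' (GI.Y j 0)) := by
    intro j
    have := congrArg x (pts_by (a := a) (b := b) (z := z) (z' := z') j)
    simpa only [map_sub, map_add, map_mul, AlgHom.commutes, Algebra.algebraMap_self,
      RingHom.id_apply] using this
  have hdx : ∀ (i k : Fin 4) (l : Fin 2),
      (x (ge a b z z' (GI.P 0 l)) - a i * x (ge a b z z' (GI.P 1 l))) ^ 3 *
      x (ge a b z z' (GI.X i k)) = (x (ge a b z z' GI.t) - z i) *
      (x (ge a b z z' (GI.P 0 l)) ^ (k : ℕ) * x (ge a b z z' (GI.P 1 l)) ^ (3 - (k : ℕ))) := by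
    intro i k l
    have := congrArg x (pts_dx (a := a) (b := b) (z := z) (z' := z') i k l)
    simpa only [map_sub, map_mul, map_pow, AlgHom.commutes, Algebra.algebraMap_self,
      RingHom.id_apply] using this
  have hdy : ∀ (j k : Fin 4) (l : Fin 2),
      (x (ge a b z z' (GI.P l 0)) - b j * x (ge a b z z' (GI.P l 1))) ^ 3 *
      x (ge a b z z' (GI.Y j k)) = (x (ge a b z z' GI.t) - z' j) *
      (x (ge a b z z' (GI.P l 0)) ^ (k : ℕ) * x (ge a b z z' (GI.P l 1)) ^ (3 - (k : ℕ))) := by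
    intro j k l
    have := congrArg x (pts_dy (a := a) (b := b) (z := z) (z' := z') j k l)
    simpa only [map_sub, map_mul, map_pow, AlgHom.commutes, Algebra.algebraMap_self,
      RingHom.id_apply] using this
  -- some product is nonzero
  obtain ⟨k₀, l₀, h0⟩ : ∃ k l, x (ge a b z z' (GI.P k l)) ≠ 0 := by
    by_contra hcon
    push Not at hcon
    have hXY : ∀ i j k l : Fin 4, x (ge a b z z' (GI.X i k)) * x (ge a b z z' (GI.Y j l)) = 0 := by
      intro i j k l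
      rw [hc, hcon]; ring
    have hT : ∀ i j, (x (ge a b z z' GI.t) - z i) * (x (ge a b z z' GI.t) - z' j) = 0 := by
      intro i j
      rw [hbx, hby]
      have := hXY i j
      linear_combination this 3 3 - 3 * b j * this 3 2 + 3 * b j ^ 2 * this 3 1
        - b j ^ 3 * this 3 0 - 3 * a i * this 2 3 + 3 * a i * 3 * b j * this 2 2
        - 3 * a i * 3 * b j ^ 2 * this 2 1 + 3 * a i * b j ^ 3 * this 2 0
        + 3 * a i ^ 2 * this 1 3 - 3 * a i ^ 2 * 3 * b j * this 1 2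
        + 3 * a i ^ 2 * 3 * b j ^ 2 * this 1 1 - 3 * a i ^ 2 * b j ^ 3 * this 1 0
        - a i ^ 3 * this 0 3 + a i ^ 3 * 3 * b j * this 0 2
        - a i ^ 3 * 3 * b j ^ 2 * this 0 1 + a i ^ 3 * b j ^ 3 * this 0 0
    by_cases hcase : ∃ i, x (ge a b z z' GI.t) ≠ z i
    · obtain ⟨i, hi⟩ := hcase
      have h2 : ∀ j, x (ge a b z z' GI.t) = z' j := by
        intro j
        have := (mul_eq_zero.1 (hT i j)).resolve_left (sub_ne_zero.2 hi)
        exact sub_eq_zero.1 this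
      have := hz' ((h2 0).symm.trans (h2 1))
      exact absurd this (by decide)
    · push Not at hcase
      have := hz ((hcase 0).symm.trans (hcase 1))
      exact absurd this (by decide)
  have hall : ∀ k l k' l' : Fin 2, x (ge a b z z' (GI.P k l)) * x (ge a b z z' (GI.P k' l')) =
      x (ge a b z z' (GI.P k l')) * x (ge a b z z' (GI.P k' l)) := by
    intro k l k' l'
    fin_cases k <;> fin_cases l <;> fin_cases k' <;> fin_cases l' <;>
      simp only [Fin.zero_eta, Fin.mk_one, Fin.isValue] <;>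
      first
      | ring1
      | linear_combination ha
      | linear_combination -ha
  refine ⟨fun k => x (ge a b z z' (GI.P k l₀)),
    fun l => x (ge a b z z' (GI.P k₀ l)) / x (ge a b z z' (GI.P k₀ l₀)), ?_, ?_, ?_, ?_, ?_⟩
  · intro hh; exact h0 (congrFun hh k₀)
  · intro hh
    have := congrFun hh l₀
    simp only [Pi.zero_apply] at this
    rw [div_self h0] at this
    exact one_ne_zero this
  · intro k l
    rw [← mul_div_assoc, eq_div_iff h0]
    exact hall k l k₀ l₀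
  · intro i hi
    by_contra hne
    have hne' : x (ge a b z z' GI.t) - z i ≠ 0 := sub_ne_zero.2 hne
    have h3 : x (ge a b z z' (GI.P 0 l₀)) - a i * x (ge a b z z' (GI.P 1 l₀)) = 0 := hi
    have h4 : ∀ k : Fin 4, x (ge a b z z' (GI.P 0 l₀)) ^ (k : ℕ) *
        x (ge a b z z' (GI.P 1 l₀)) ^ (3 - (k : ℕ)) = 0 := by
      intro k
      have := hdx i k l₀
      rw [h3] at this
      have h5 : (x (ge a b z z' GI.t) - z i) * (x (ge a b z z' (GI.P 0 l₀)) ^ (k : ℕ) *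
        x (ge a b z z' (GI.P 1 l₀)) ^ (3 - (k : ℕ))) = 0 := by rw [← this]; ring
      exact (mul_eq_zero.1 h5).resolve_left hne'
    have h6 := h4 0
    have h7 := h4 3
    simp at h6 h7
    apply h0
    fin_cases k₀
    · exact h7
    · exact h6
  · intro j hj
    by_contra hne
    have hne' : x (ge a b z z' GI.t) - z' j ≠ 0 := sub_ne_zero.2 hne
    have h3 : x (ge a b z z' (GI.P k₀ 0)) - b j * x (ge a b z z' (GI.P k₀ 1)) = 0 := by
      have h8 : (x (ge a b z z' (GI.P k₀ 0)) - b j * x (ge a b z z' (GI.P k₀ 1))) /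
          x (ge a b z z' (GI.P k₀ l₀)) = 0 := by
        rw [← hj]; ring
      exact (div_eq_zero_iff.1 h8).resolve_right h0
    have h4 : ∀ k : Fin 4, x (ge a b z z' (GI.P k₀ 0)) ^ (k : ℕ) *
        x (ge a b z z' (GI.P k₀ 1)) ^ (3 - (k : ℕ)) = 0 := by
      intro k
      have := hdy j k k₀
      rw [h3] at this
      have h5 : (x (ge a b z z' GI.t) - z' j) * (x (ge a b z z' (GI.P k₀ 0)) ^ (k : ℕ) *
        x (ge a b z z' (GI.P k₀ 1)) ^ (3 - (k : ℕ))) = 0 := by rw [← this]; ring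
      exact (mul_eq_zero.1 h5).resolve_left hne'
    have h6 := h4 0
    have h7 := h4 3
    simp at h6 h7
    apply h0
    fin_cases l₀
    · exact h7
    · exact h6

end Pool.Agent.H43.FX
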