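import Pool.Agent.H43.FX.Dom

/-!
# FX-TRDEG : the transcendence degree is 4

Proof.  Let `e = ![ge (P 1 1), ge (P 0 1), ge (P 1 0), ge t] : Fin 4 → Aring`.
(1) Algebraically independent: let `F : MvPolynomial (Fin 4) ℂ` with `aeval e F = 0`.  Evaluate at
the point `pt5 (κ, v, ω, t)` of `U5` (`κ ≠ 0`, `v ∉ range a`, `ω ∉ range b`): the values are
`κ, vκ, κω, t`.  So `F(X) = 0` for all `X : Fin 4 → ℂ` with `X 0 ≠ 0`, `X 1 ≠ a_i X 0`,
`X 2 ≠ b_j X 0` (put `κ = X 0`, `v = X 1/X 0`, `ω = X 2/X 0`).  Hence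
`F · X₀ ∏(X₁ - a_i X₀) ∏(X₂ - b_j X₀)` vanishes identically, it is the zero polynomial
(`MvPolynomial.funext`), and the other factors are nonzero polynomials, so `F = 0`.
(2) `Aring` is algebraic over `adjoin (range e)`: the elements algebraic over a subalgebra of a
domain form a subalgebra (`integralClosure`-like; `Algebra.IsAlgebraic` over a domain:
`IsAlgebraic.add`, `IsAlgebraic.mul`), so it suffices to consider the generators, for which
there are relations `g h = f` with `g ≠ 0` in the subalgebra and `f` in it or already known to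
be algebraic:
`P11·P00 = P01·P10`; `(P01 - a_i P11)³ X i k = P01^k P11^{3-k}(t - z_i)`;
`(P10 - b_j P11)³ Y j k = P10^k P11^{3-k}(t - z'_j)`; `P11³ Z i j = X i 0 · Y j 0`.
(3) So `e` is a transcendence basis (`AlgebraicIndependent.isTranscendenceBasis_iff_isAlgebraic`
or similar), and `Algebra.trdeg ℂ Aring = #(Fin 4) = 4`
(`IsTranscendenceBasis.lift_cardinalMk_eq_trdeg`, `IsTranscendenceBasis.cardinalMk_eq_trdeg`).
-/

namespace Pool.Agent.H43.FX

namespace TrD

open MvPolynomial

variable (a b z z' : Fin 4 → ℂ)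

/-- the transcendence basis -/
noncomputable def eb : Fin 4 → Aring a b z z' :=
  ![ge a b z z' (GI.P 1 1), ge a b z z' (GI.P 0 1), ge a b z z' (GI.P 1 0), ge a b z z' GI.t]

/-- the polynomial which vanishes off the good points -/
noncomputable def bad : MvPolynomial (Fin 4) ℂ :=
  X 0 * ((∏ i, (X 1 - C (a i) * X 0)) * ∏ j, (X 2 - C (b j) * X 0))

lemma bad_ne_zero : bad a b ≠ 0 := by
  have h1 : ∀ c : ℂ, (X 1 - C c * X 0 : MvPolynomial (Fin 4) ℂ) ≠ 0 := by
    intro c h
    have := congrArg (eval (![0, 1, 0, 0] : Fin 4 → ℂ)) h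
    simp at this
  have h2 : ∀ c : ℂ, (X 2 - C c * X 0 : MvPolynomial (Fin 4) ℂ) ≠ 0 := by
    intro c h
    have := congrArg (eval (![0, 0, 1, 0] : Fin 4 → ℂ)) h
    simp at this
  unfold bad
  refine mul_ne_zero (X_ne_zero 0) (mul_ne_zero ?_ ?_)
  · exact Finset.prod_ne_zero_iff.mpr fun i _ => h1 _
  · exact Finset.prod_ne_zero_iff.mpr fun j _ => h2 _

lemma indep : AlgebraicIndependent ℂ (eb a b z z') := by
  rw [algebraicIndependent_iff]
  intro F hF
  have h1 : F * bad a b = 0 := by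
    apply MvPolynomial.funext
    intro x
    rw [map_zero, map_mul]
    by_cases hx : eval x (bad a b) = 0
    · rw [hx, mul_zero]
    · have hx' : x 0 ≠ 0 ∧ (∀ i, x 1 - a i * x 0 ≠ 0) ∧ ∀ j, x 2 - b j * x 0 ≠ 0 := by
        unfold bad at hx
        simp only [map_mul, eval_X, map_prod, map_sub, eval_C, mul_ne_zero_iff,
          Finset.prod_ne_zero_iff] at hx
        exact ⟨hx.1, fun i => hx.2.1 i (Finset.mem_univ i), fun j => hx.2.2 j (Finset.mem_univ j)⟩
      obtain ⟨h0, ha, hb⟩ := hx'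
      have hD : (x 0, x 1 / x 0, x 2 / x 0, x 3) ∈ D4 a b := by
        refine ⟨h0, ?_, ?_⟩
        · rintro ⟨i, hi⟩
          apply ha i
          have : a i = x 1 / x 0 := hi
          rw [this]
          field_simp
          ring
        · rintro ⟨j, hj⟩
          apply hb j
          have : b j = x 2 / x 0 := hj
          rw [this]
          field_simp
          ring
      have h2 : evA a b z z' ⟨pt5 _, pt5_mem hD⟩ (aeval (eb a b z z') F) = eval x F := by
        rw [MvPolynomial.comp_aeval_apply]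
        have h3 : (fun i => (evA a b z z' ⟨pt5 _, pt5_mem hD⟩) (eb a b z z' i)) = x := by
          funext i
          fin_cases i
          · simp [eb, ge, rs, gf, cu, cw, pt5]
          · simp [eb, ge, rs, gf, cu, cw, pt5]
            field_simp
          · simp [eb, ge, rs, gf, cu, cw, pt5]
            field_simp
          · simp [eb, ge, rs, gf, ct, pt5]
        rw [h3]
        rfl
      rw [hF, map_zero] at h2
      rw [← h2, zero_mul]
  exact (mul_eq_zero.mp h1).resolve_right (bad_ne_zero a b)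

lemma exists_good : ∃ v ω : ℂ, ((1 : ℂ), v, ω, (0 : ℂ)) ∈ D4 a b := by
  obtain ⟨v, hv⟩ := (Set.finite_range a).infinite_compl.nonempty
  obtain ⟨ω, hω⟩ := (Set.finite_range b).infinite_compl.nonempty
  exact ⟨v, ω, one_ne_zero, hv, hω⟩

end TrD

open TrD

theorem aring_trdeg (a b z z' : Fin 4 → ℂ) : Algebra.trdeg ℂ (Aring a b z z') = 4 := by
  classical
  have := aring_isDomain a b z z'
  have hind := indep a b z z'
  set S := Algebra.adjoin ℂ (Set.range (eb a b z z')) with hS
  obtain ⟨v, ω, hD⟩ := exists_good a b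
  set q₀ : U5 a b := ⟨pt5 _, pt5_mem hD⟩ with hq₀
  -- elements of `S` are algebraic
  have hmem : ∀ i, IsAlgebraic S (eb a b z z' i) := fun i =>
    isAlgebraic_algebraMap (⟨eb a b z z' i, Algebra.subset_adjoin ⟨i, rfl⟩⟩ : S)
  have hP11 : IsAlgebraic S (ge a b z z' (GI.P 1 1)) := hmem 0
  have hP01 : IsAlgebraic S (ge a b z z' (GI.P 0 1)) := hmem 1
  have hP10 : IsAlgebraic S (ge a b z z' (GI.P 1 0)) := hmem 2
  have ht : IsAlgebraic S (ge a b z z' GI.t) := hmem 3
  have hconst : ∀ c : ℂ, IsAlgebraic S (algebraMap ℂ (Aring a b z z') c) := fun c =>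
    isAlgebraic_algebraMap (algebraMap ℂ S c)
  -- nonzero elements
  have hne : ∀ f : Aring a b z z', (f : U5 a b → ℂ) q₀ ≠ 0 → f ∈ nonZeroDivisors (Aring a b z z') := by
    intro f hf
    refine mem_nonZeroDivisors_of_ne_zero fun h => hf ?_
    rw [h]
    rfl
  have hX : ∀ i k, IsAlgebraic S (ge a b z z' (GI.X i k)) := by
    intro i k
    have hy : IsAlgebraic S ((ge a b z z' (GI.P 0 1) -
        algebraMap ℂ _ (a i) * ge a b z z' (GI.P 1 1)) ^ 3) :=
      (hP01.sub ((hconst (a i)).mul hP11)).pow 3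
    refine IsAlgebraic.of_mul (hne _ ?_) hy ?_
    · simp only [hq₀, ge, rs, gf, cu, cw, pt5, SubmonoidClass.coe_pow, AddSubgroupClass.coe_sub,
        MulMemClass.coe_mul, Pi.pow_apply, Pi.sub_apply, Pi.mul_apply]
      refine pow_ne_zero 3 ?_
      have hv := hD.2.1
      have : v ≠ a i := fun h => hv ⟨i, h.symm⟩
      simpa [sub_eq_zero] using this
    · have he : (ge a b z z' (GI.P 0 1) -
          algebraMap ℂ _ (a i) * ge a b z z' (GI.P 1 1)) ^ 3 * ge a b z z' (GI.X i k) =
          ge a b z z' (GI.P 0 1) ^ (k : ℕ) * ge a b z z' (GI.P 1 1) ^ (3 - (k : ℕ)) *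
            (ge a b z z' GI.t - algebraMap ℂ _ (z i)) := by
        apply Subtype.ext
        funext q
        have hl := q.2.1 i
        have hk : (k : ℕ) ≤ 3 := by omega
        have hw : (q : C5).2.2.2.1 ^ 3 =
            (q : C5).2.2.2.1 ^ (k : ℕ) * (q : C5).2.2.2.1 ^ (3 - (k : ℕ)) := by
          rw [← pow_add, Nat.add_sub_cancel' hk]
        have hl' : (q : C5).1 - a i * (q : C5).2.1 ≠ 0 := hl
        show ((q : C5).1 * (q : C5).2.2.2.1 - a i * ((q : C5).2.1 * (q : C5).2.2.2.1)) ^ 3 *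
          ((q : C5).1 ^ (k : ℕ) * (q : C5).2.1 ^ (3 - (k : ℕ)) *
            (((q : C5).2.2.2.2 - z i) / ((q : C5).1 - a i * (q : C5).2.1) ^ 3)) =
          ((q : C5).1 * (q : C5).2.2.2.1) ^ (k : ℕ) *
            ((q : C5).2.1 * (q : C5).2.2.2.1) ^ (3 - (k : ℕ)) * ((q : C5).2.2.2.2 - z i)
        have h5 : ((q : C5).1 * (q : C5).2.2.2.1 - a i * ((q : C5).2.1 * (q : C5).2.2.2.1)) ^ 3 =
            (q : C5).2.2.2.1 ^ 3 * ((q : C5).1 - a i * (q : C5).2.1) ^ 3 := by ring
        rw [h5, hw, mul_pow, mul_pow]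
        have h6 := pow_ne_zero 3 hl'
        field_simp
      rw [he]
      exact ((hP01.pow _).mul (hP11.pow _)).mul (ht.sub (hconst _))
  have hY : ∀ j k, IsAlgebraic S (ge a b z z' (GI.Y j k)) := by
    intro j k
    have hy : IsAlgebraic S ((ge a b z z' (GI.P 1 0) -
        algebraMap ℂ _ (b j) * ge a b z z' (GI.P 1 1)) ^ 3) :=
      (hP10.sub ((hconst (b j)).mul hP11)).pow 3
    refine IsAlgebraic.of_mul (hne _ ?_) hy ?_
    · simp only [hq₀, ge, rs, gf, cu, cw, pt5, SubmonoidClass.coe_pow, AddSubgroupClass.coe_sub,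
        MulMemClass.coe_mul, Pi.pow_apply, Pi.sub_apply, Pi.mul_apply]
      refine pow_ne_zero 3 ?_
      have hv := hD.2.2
      have : ω ≠ b j := fun h => hv ⟨j, h.symm⟩
      simpa [sub_eq_zero] using this
    · have he : (ge a b z z' (GI.P 1 0) -
          algebraMap ℂ _ (b j) * ge a b z z' (GI.P 1 1)) ^ 3 * ge a b z z' (GI.Y j k) =
          ge a b z z' (GI.P 1 0) ^ (k : ℕ) * ge a b z z' (GI.P 1 1) ^ (3 - (k : ℕ)) *
            (ge a b z z' GI.t - algebraMap ℂ _ (z' j)) := by
        apply Subtype.ext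
        funext q
        have hk : (k : ℕ) ≤ 3 := by omega
        have hw : (q : C5).2.1 ^ 3 =
            (q : C5).2.1 ^ (k : ℕ) * (q : C5).2.1 ^ (3 - (k : ℕ)) := by
          rw [← pow_add, Nat.add_sub_cancel' hk]
        have hl' : (q : C5).2.2.1 - b j * (q : C5).2.2.2.1 ≠ 0 := q.2.2 j
        show ((q : C5).2.1 * (q : C5).2.2.1 - b j * ((q : C5).2.1 * (q : C5).2.2.2.1)) ^ 3 *
          ((q : C5).2.2.1 ^ (k : ℕ) * (q : C5).2.2.2.1 ^ (3 - (k : ℕ)) *
            (((q : C5).2.2.2.2 - z' j) / ((q : C5).2.2.1 - b j * (q : C5).2.2.2.1) ^ 3)) =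
          ((q : C5).2.1 * (q : C5).2.2.1) ^ (k : ℕ) *
            ((q : C5).2.1 * (q : C5).2.2.2.1) ^ (3 - (k : ℕ)) * ((q : C5).2.2.2.2 - z' j)
        have h5 : ((q : C5).2.1 * (q : C5).2.2.1 - b j * ((q : C5).2.1 * (q : C5).2.2.2.1)) ^ 3 =
            (q : C5).2.1 ^ 3 * ((q : C5).2.2.1 - b j * (q : C5).2.2.2.1) ^ 3 := by ring
        rw [h5, hw, mul_pow, mul_pow]
        have h6 := pow_ne_zero 3 hl'
        field_simp
      rw [he]
      exact ((hP10.pow _).mul (hP11.pow _)).mul (ht.sub (hconst _))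
  have hP11ne : ((ge a b z z' (GI.P 1 1) : Aring a b z z') : U5 a b → ℂ) q₀ ≠ 0 := by
    simp [hq₀, ge, rs, gf, cu, cw, pt5]
  have hgen : ∀ g, IsAlgebraic S (ge a b z z' g) := by
    intro g
    cases g with
    | P k l =>
      fin_cases k <;> fin_cases l
      · refine IsAlgebraic.of_mul (hne _ hP11ne) hP11 ?_
        have he : ge a b z z' (GI.P 1 1) * ge a b z z' (GI.P 0 0) =
            ge a b z z' (GI.P 0 1) * ge a b z z' (GI.P 1 0) := by
          apply Subtype.ext
          funext q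
          show ((q : C5).2.1 * (q : C5).2.2.2.1) * ((q : C5).1 * (q : C5).2.2.1) =
            ((q : C5).1 * (q : C5).2.2.2.1) * ((q : C5).2.1 * (q : C5).2.2.1)
          ring
        have h7 := hP01.mul hP10
        rw [← he] at h7
        exact h7
      · exact hP01
      · exact hP10
      · exact hP11
    | t => exact ht
    | X i k => exact hX i k
    | Y j k => exact hY j k
    | Z i j =>
      refine IsAlgebraic.of_mul (hne (ge a b z z' (GI.P 1 1) ^ 3) ?_) (hP11.pow 3) ?_
      · exact pow_ne_zero 3 hP11ne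
      · have he : ge a b z z' (GI.P 1 1) ^ 3 * ge a b z z' (GI.Z i j) =
            ge a b z z' (GI.X i 0) * ge a b z z' (GI.Y j 0) := by
          apply Subtype.ext
          funext q
          show ((q : C5).2.1 * (q : C5).2.2.2.1) ^ 3 *
            ((((q : C5).2.2.2.2 - z i) / ((q : C5).1 - a i * (q : C5).2.1) ^ 3) *
            (((q : C5).2.2.2.2 - z' j) / ((q : C5).2.2.1 - b j * (q : C5).2.2.2.1) ^ 3)) =
            ((q : C5).1 ^ 0 * (q : C5).2.1 ^ 3 *
            (((q : C5).2.2.2.2 - z i) / ((q : C5).1 - a i * (q : C5).2.1) ^ 3)) *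
            ((q : C5).2.2.1 ^ 0 * (q : C5).2.2.2.1 ^ 3 *
            (((q : C5).2.2.2.2 - z' j) / ((q : C5).2.2.1 - b j * (q : C5).2.2.2.1) ^ 3))
          ring
        rw [he]
        exact (hX i 0).mul (hY j 0)
  have halg : Algebra.IsAlgebraic S (Aring a b z z') := by
    constructor
    rintro ⟨f, hf⟩
    refine Algebra.adjoin_induction
      (p := fun x hx => IsAlgebraic S (⟨x, hx⟩ : Aring a b z z')) ?_ ?_ ?_ ?_ hf
    · rintro x ⟨g, rfl⟩
      exact hgen g
    · intro r
      exact hconst r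
    · intro x y hx hy h1 h2
      exact h1.add h2
    · intro x y hx hy h1 h2
      exact h1.mul h2
  have hb : IsTranscendenceBasis ℂ (eb a b z z') :=
    hind.isTranscendenceBasis_iff_isAlgebraic.mpr halg
  rw [← hb.cardinalMk_eq_trdeg]
  simp

end Pool.Agent.H43.FX
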