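import Pool.Agent.H43.FX.Good
import Pool.Agent.H43.FX.Move
import Pool.Agent.H43.FX.Pts
import Pool.Agent.H43.FX.Trdeg
import Pool.Agent.H43.FX.NotADP

/-!
# The example is a flexible affine manifold
-/

namespace Pool.Agent.H43.FX

open Set Metric Filter Topology Pool.Agent.H29.Flex

variable {a b z z' : Fin 4 → ℂ}

theorem all_good (hBa : HasBez a) (hBb : HasBez b) (ha0 : ∀ i, a i ≠ 0) (hb0 : ∀ j, b j ≠ 0)
    (hz : Function.Injective z) (hz' : Function.Injective z') (hzz : ∀ i j, z i ≠ z' j)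
    (x : Aring a b z z' →ₐ[ℂ] ℂ) : GoodPt 4 x := by
  obtain ⟨u, w, hu, hw, hP, hl, hm⟩ := pts hz hz' x
  by_cases h : ∀ j, w 0 - b j * w 1 ≠ 0
  · obtain ⟨Θ, u', hP', hl', hu0, hu1⟩ := move_u hBa ha0 hP hu h
    have hP1 : ∀ k l, (x.comp (Θ : Aring a b z z' →ₐ[ℂ] Aring a b z z'))
        (ge a b z z' (GI.P k l)) = u' k * w l := hP'
    obtain ⟨Θ', w', hP'', hm', hw0, hw1⟩ := move_w hBb hb0 hP1 hw hl'
    apply GoodPt.of_equiv Θ
    apply GoodPt.of_equiv Θ'
    exact good_generic hBa hBb (u := u') (w := w') hP'' hl' hm' hu0 hu1 hw0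
  · push Not at h
    obtain ⟨j, hj⟩ := h
    have hl0 : ∀ i, u 0 - a i * u 1 ≠ 0 := fun i hi => hzz i j ((hl i hi).symm.trans (hm j hj))
    obtain ⟨Θ, w', hP', hm', hw0, hw1⟩ := move_w hBb hb0 hP hw hl0
    have hP1 : ∀ k l, (x.comp (Θ : Aring a b z z' →ₐ[ℂ] Aring a b z z'))
        (ge a b z z' (GI.P k l)) = u k * w' l := hP'
    obtain ⟨Θ', u', hP'', hl', hu0, hu1⟩ := move_u hBa ha0 hP1 hu hm'
    apply GoodPt.of_equiv Θ
    apply GoodPt.of_equiv Θ'
    exact good_generic hBa hBb (u := u') (w := w') hP'' hl' hm' hu0 hu1 hw0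

theorem flex_not_adp (hBa : HasBez a) (hBb : HasBez b) (ha : Function.Injective a)
    (hb : Function.Injective b) (ha0 : ∀ i, a i ≠ 0) (hb0 : ∀ j, b j ≠ 0)
    (hz : Function.Injective z) (hz' : Function.Injective z') (hzz : ∀ i j, z i ≠ z' j) :
    IsAffineManifold (Aring a b z z') 4 ∧ IsFlexible (Aring a b z z') ∧
      ¬ HasADP (Aring a b z z') :=
  ⟨{ isDomain := aring_isDomain a b z z'
     finiteType := aring_finiteType a b z z'
     trdeg := by rw [aring_trdeg]; norm_num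
     smooth := fun x => (all_good hBa hBb ha0 hb0 hz hz' hzz x).1 },
   fun x => (all_good hBa hBb ha0 hb0 hz hz' hzz x).2, not_adp ha hb hz hz' hzz⟩

end Pool.Agent.H43.FX
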