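import Pool.Agent.H43.FX.TEDefs

/-!
# FX-FOUR1 : a periodic entire function with trivial Fourier coefficients is constant

Proof.  `F θ = f (q θ)` (`θ : ℝ`) is continuous and 1-periodic, so it defines a continuous
function on `AddCircle (1 : ℝ)` (`Function.Periodic.lift`); its Fourier coefficients
(`fourierCoeff_eq_intervalIntegral`, `fourier_coe_apply`) are `fc f q j`, zero for `j ≠ 0`.
Hence they are summable and by `has_pointwise_sum_fourier_series_of_summable` (or
`hasSum_fourier_series_of_summable`), `F` is constant.  So `f` is constant on the line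
`q ℝ`, and by the identity theorem `f` is constant.
-/

namespace Pool.Agent.H43.FX

open Set Metric Filter Topology

theorem const_of_fourier {f : ℂ → ℂ} {q : ℂ} (hf : Differentiable ℂ f) (hq : q ≠ 0)
    (hper : ∀ s, f (s + q) = f s) (h : ∀ j : ℤ, j ≠ 0 → fc f q j = 0) (s : ℂ) :
    deriv f s = 0 := by
  have : Fact (0 < (1 : ℝ)) := ⟨one_pos⟩
  have hF : Function.Periodic (fun θ : ℝ => f (q * θ)) 1 := by
    intro θ
    have h1 : q * ((θ + 1 : ℝ) : ℂ) = q * θ + q := by
      push_cast
      ring
    change f (q * ((θ + 1 : ℝ) : ℂ)) = f (q * θ)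
    rw [h1, hper]
  have hFc : Continuous (fun θ : ℝ => f (q * θ)) :=
    hf.continuous.comp (continuous_const.mul Complex.continuous_ofReal)
  let g : C(AddCircle (1 : ℝ), ℂ) := ⟨hF.lift, continuous_coinduced_dom.2 hFc⟩
  have hg : ∀ θ : ℝ, g (θ : AddCircle (1 : ℝ)) = f (q * θ) := fun θ => hF.lift_coe θ
  have hco : ∀ j : ℤ, j ≠ 0 → fourierCoeff g j = 0 := by
    intro j hj
    rw [fourierCoeff_eq_intervalIntegral g j 0, zero_add, ← h j hj, fc]
    simp only [one_div, inv_one, one_smul]
    apply intervalIntegral.integral_congr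
    intro θ _
    simp only
    rw [hg, fourier_coe_apply, smul_eq_mul, mul_comm]
    congr 2
    push_cast
    ring
  have hsum0 : HasSum (fourierCoeff g) (fourierCoeff g 0) :=
    hasSum_single 0 fun j hj => hco j hj
  have hconst : ∀ θ : ℝ, f (q * θ) = fourierCoeff g 0 := by
    intro θ
    have h1 := has_pointwise_sum_fourier_series_of_summable hsum0.summable
      (θ : AddCircle (1 : ℝ))
    have h2 : HasSum (fun i => fourierCoeff g i • fourier i (θ : AddCircle (1 : ℝ)))
        (fourierCoeff g 0 • fourier 0 (θ : AddCircle (1 : ℝ))) :=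
      hasSum_single 0 fun j hj => by rw [hco j hj, zero_smul]
    have h3 := h1.unique h2
    rw [hg, fourier_zero, smul_eq_mul, mul_one] at h3
    exact h3
  have hfr : ∃ᶠ z in 𝓝[≠] (0 : ℂ), f z = (fun _ => fourierCoeff g 0) z := by
    have ht : Tendsto (fun n : ℕ => q * ((1 / ((n : ℝ) + 1) : ℝ) : ℂ)) atTop (𝓝[≠] (0 : ℂ)) := by
      rw [tendsto_nhdsWithin_iff]
      constructor
      · have h1 : Tendsto (fun n : ℕ => ((1 / ((n : ℝ) + 1) : ℝ) : ℂ)) atTop (𝓝 ((0 : ℝ) : ℂ)) :=
          (Complex.continuous_ofReal.tendsto 0).comp tendsto_one_div_add_atTop_nhds_zero_nat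
        have h2 := h1.const_mul q
        simpa using h2
      · refine Eventually.of_forall fun n => ?_
        have h3 : (1 / ((n : ℝ) + 1) : ℝ) ≠ 0 := by positivity
        exact mul_ne_zero hq (by exact_mod_cast h3)
    exact ht.frequently (Frequently.of_forall fun n => hconst _)
  have hfeq : f = fun _ => fourierCoeff g 0 :=
    AnalyticOnNhd.eq_of_frequently_eq
      (fun z _ => hf.analyticAt z) analyticOnNhd_const hfr
  rw [hfeq]
  simp

end Pool.Agent.H43.FX
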