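import Pool.Agent.H43.FX.TEDefs

/-!
# FX-FOUR2 : Fourier coefficients and exponential ends

Let `u` be entire, `c ≠ 0`, `ExpEnd c h u`: `e^{h c s} u(s) = g(e^{cs})` for `s` near `0`, `g`
holomorphic on `ball 0 2`.
(0) `half_plane`: both sides are holomorphic on the convex (preconnected, open) half plane
`{s | ‖e^{cs}‖ < 2} = {s | Re(cs) < log 2}`, which contains `0`; so the equality holds there
(identity theorem).
(1) `per_of_expEnd`: for `s` in the half plane `s + 2πi/c` is in the half plane, with the same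
`e^{cs}`, and `e^{hc(s+2πi/c)} = e^{hcs}`; so `u(s + 2πi/c) = u(s)` there, hence everywhere
(identity theorem for entire functions).
(2) Shift: for an entire `q`-periodic `u` (`q ≠ 0`) and any `s₀ : ℂ`,
`fc u q j = e^{-2πi j s₀/q} ∫_0^1 u(s₀ + qθ) e^{-2πi jθ} dθ`.  Proof: the entire function
`U(s) = u(s) e^{-2πi j s/q}` is `q`-periodic; the function
`I(s₀) = ∫_0^1 U(s₀ + qθ) dθ` is entire with derivative
`∫_0^1 U'(s₀+qθ)dθ = (U(s₀+q) - U(s₀))/q = 0`, so it is constant; `I(0) = fc u q j` and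
`I(s₀) = e^{-2πi j s₀/q} ∫ ...`.
(3) `fc_zero_of_expEnd`: `c q = 2πi r`, `r ≠ 0` real, `h = 0`, `j r < 0`.  Take
`s₀ = -λ/c`, `λ > 0` real: `c(s₀ + qθ) = -λ + 2πi r θ`, so `e^{c(s₀+qθ)}` has modulus
`e^{-λ} ≤ 1` and `u(s₀+qθ) = g(e^{...})` is bounded by `K = sup_{closedBall 0 1} ‖g‖`; and
`2πi j s₀/q = -2πi jλ/(cq) = -λ j/r`, so `‖fc u q j‖ ≤ K e^{λ j/r} → 0` as `λ → ∞`
(`j/r < 0`).
(4) `fc_ne_of_expEndS`: `h = 3`, `g 0 ≠ 0`.  For `s = -λ/c + qθ`: as `λ → ∞`,
`e^{3cs}u(s) = g(e^{cs}) → g 0` uniformly in `θ`.  Comparing at `s` and `s + q` (both in the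
half plane, `u(s+q) = u(s)`): `e^{3cq} g 0 = g 0`, so `e^{3cq} = 1`, `3cq = 2πi m`, `m : ℤ`,
i.e. `3r = m`, `m ≠ 0`.  Take `j = -m`: `j r = -3r² < 0`.  By (2) with `s₀ = -λ/c`, since
`-2πi j s₀/q - 2πi j θ = 2πi m (s₀ + qθ)/q = 3c(s₀+qθ)`:
`fc u q j = ∫_0^1 u(s₀+qθ) e^{3c(s₀+qθ)} dθ = ∫_0^1 g(e^{c(s₀+qθ)})dθ → g 0`.  The left-hand
side does not depend on `λ`, so `fc u q j = g 0 ≠ 0`.
-/

namespace Pool.Agent.H43.FX

open Set Metric Filter Topology

theorem f2_half_plane {u g : ℂ → ℂ} {c : ℂ} {h : ℕ} (hu : Differentiable ℂ u)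
    (hg : DifferentiableOn ℂ g (ball 0 2))
    (he : ∀ᶠ s in 𝓝 (0 : ℂ), Complex.exp (h * (c * s)) * u s = g (Complex.exp (c * s)))
    (s : ℂ) (hs : ‖Complex.exp (c * s)‖ < 2) :
    Complex.exp (h * (c * s)) * u s = g (Complex.exp (c * s)) := by
  have hconv : Convex ℝ {s : ℂ | ‖Complex.exp (c * s)‖ < 2} := by
    have h1 : {s : ℂ | ‖Complex.exp (c * s)‖ < 2} = {s : ℂ | (c * s).re < Real.log 2} := by
      ext s
      rw [mem_setOf_eq, mem_setOf_eq, Complex.norm_exp, Real.lt_log_iff_exp_lt (by norm_num)]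
    rw [h1]
    refine convex_halfSpace_lt ⟨?_, ?_⟩ _
    · intro x y
      rw [mul_add, Complex.add_re]
    · intro a x
      simp only [Complex.real_smul, smul_eq_mul]
      rw [mul_left_comm, Complex.re_ofReal_mul]
  have hopen : IsOpen {s : ℂ | ‖Complex.exp (c * s)‖ < 2} := by
    apply isOpen_lt _ continuous_const
    fun_prop
  have hF : DifferentiableOn ℂ (fun s => Complex.exp (h * (c * s)) * u s)
      {s : ℂ | ‖Complex.exp (c * s)‖ < 2} := by
    apply Differentiable.differentiableOn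
    fun_prop
  have hG : DifferentiableOn ℂ (fun s => g (Complex.exp (c * s)))
      {s : ℂ | ‖Complex.exp (c * s)‖ < 2} := by
    refine hg.comp ?_ ?_
    · apply Differentiable.differentiableOn
      fun_prop
    · intro s hs
      rw [mem_ball_zero_iff]
      exact hs
  have key := (hF.analyticOnNhd hopen).eqOn_of_preconnected_of_eventuallyEq
    (hG.analyticOnNhd hopen) hconv.isPreconnected (z₀ := 0) (by simp) he
  exact key hs

theorem per_of_expEnd {u : ℂ → ℂ} {c : ℂ} {h : ℕ} (hu : Differentiable ℂ u) (hc : c ≠ 0)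
    (he : ExpEnd c h u) (s : ℂ) : u (s + 2 * Real.pi * Complex.I / c) = u s := by
  obtain ⟨g, hg, he⟩ := he
  have hc1 : ∀ s : ℂ, c * (s + 2 * Real.pi * Complex.I / c) = c * s + 2 * Real.pi * Complex.I := by
    intro s
    field_simp
  have hexp : ∀ s : ℂ, Complex.exp (c * (s + 2 * Real.pi * Complex.I / c)) =
      Complex.exp (c * s) := by
    intro s
    rw [hc1, Complex.exp_add, Complex.exp_two_pi_mul_I, mul_one]
  have hexp2 : ∀ s : ℂ, Complex.exp (h * (c * (s + 2 * Real.pi * Complex.I / c))) =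
      Complex.exp (h * (c * s)) := by
    intro s
    rw [Complex.exp_nat_mul, Complex.exp_nat_mul, hexp]
  have hev : (fun s => u (s + 2 * Real.pi * Complex.I / c)) =ᶠ[𝓝 0] u := by
    have hopen : IsOpen {s : ℂ | ‖Complex.exp (c * s)‖ < 2} := by
      apply isOpen_lt _ continuous_const
      fun_prop
    filter_upwards [hopen.mem_nhds (show (0 : ℂ) ∈ {s : ℂ | ‖Complex.exp (c * s)‖ < 2} by simp)]
      with s hs
    have h1 := f2_half_plane hu hg he s hs
    have h2 := f2_half_plane hu hg he (s + 2 * Real.pi * Complex.I / c) (by rw [hexp]; exact hs)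
    rw [hexp, hexp2, ← h1] at h2
    exact mul_left_cancel₀ (Complex.exp_ne_zero _) h2
  have hd : Differentiable ℂ (fun s => u (s + 2 * Real.pi * Complex.I / c)) :=
    hu.comp (differentiable_id.add_const _)
  have key := AnalyticOnNhd.eq_of_eventuallyEq
    (fun z _ => (hd.analyticAt z)) (fun z _ => (hu.analyticAt z)) hev
  exact congrFun key s

/-- the integral of an entire periodic function over a period does not depend on the start -/
theorem f2_shift {U : ℂ → ℂ} (hU : Differentiable ℂ U) {q : ℂ} (hq : q ≠ 0)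
    (hper : ∀ s, U (s + q) = U s) (s₀ : ℂ) :
    ∫ θ in (0 : ℝ)..1, U (q * θ) = ∫ θ in (0 : ℝ)..1, U (s₀ + q * θ) := by
  obtain ⟨P, hP⟩ := (hU.differentiableOn (s := ball 0 (‖s₀‖ + ‖q‖ + 1))).isExactOn_ball
  have hP' : ∀ z : ℂ, ‖z‖ < ‖s₀‖ + ‖q‖ + 1 → HasDerivAt P (U z) z := fun z hz =>
    hP z (mem_ball_zero_iff.2 hz)
  have hint : ∀ s : ℂ, ‖s‖ < ‖s₀‖ + 1 →
      (∫ θ in (0 : ℝ)..1, U (s + q * θ)) * q = P (s + q) - P s := by
    intro s hs
    have h1 : ∀ θ ∈ uIcc (0 : ℝ) 1, HasDerivAt (fun θ : ℝ => P (s + q * θ)) (U (s + q * θ) * q) θ := by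
      intro θ hθ
      rw [uIcc_of_le zero_le_one, mem_Icc] at hθ
      have h2 : HasDerivAt (fun θ : ℝ => s + q * (θ : ℂ)) q θ := by
        have h3 : HasDerivAt (fun θ : ℝ => (θ : ℂ)) 1 θ := Complex.ofRealCLM.hasDerivAt
        simpa using (h3.const_mul q).const_add s
      have h4 : ‖s + q * θ‖ < ‖s₀‖ + ‖q‖ + 1 := by
        calc ‖s + q * θ‖ ≤ ‖s‖ + ‖q * θ‖ := norm_add_le _ _
          _ = ‖s‖ + ‖q‖ * |θ| := by rw [norm_mul, Complex.norm_real, Real.norm_eq_abs]
          _ ≤ ‖s‖ + ‖q‖ * 1 := by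
              gcongr
              rw [abs_le]
              constructor <;> linarith
          _ < _ := by linarith
      exact HasDerivAt.comp θ (hP' _ h4) h2
    have hcont : Continuous (fun θ : ℝ => U (s + q * θ) * q) := by
      have := hU.continuous
      fun_prop
    have h5 := intervalIntegral.integral_eq_sub_of_hasDerivAt h1
      (hcont.intervalIntegrable 0 1)
    rw [intervalIntegral.integral_mul_const] at h5
    rw [h5]
    simp
  have hG : ∀ s ∈ ball (0 : ℂ) (‖s₀‖ + 1),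
      HasDerivWithinAt (fun s => P (s + q) - P s) ((fun _ => (0 : ℂ)) s) (ball 0 (‖s₀‖ + 1)) s := by
    intro s hs
    rw [mem_ball_zero_iff] at hs
    have h1 : HasDerivAt (fun s => P (s + q)) (U (s + q)) s := by
      have h2 : ‖s + q‖ < ‖s₀‖ + ‖q‖ + 1 := by
        have := norm_add_le s q
        linarith
      exact HasDerivAt.comp_add_const s q (hP' _ h2)
    have h3 := h1.sub (hP' s (by have := norm_nonneg q; linarith))
    rw [hper, sub_self] at h3
    exact h3.hasDerivWithinAt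
  have h0 : (0 : ℂ) ∈ ball (0 : ℂ) (‖s₀‖ + 1) := by
    rw [mem_ball_zero_iff, norm_zero]
    positivity
  have hs0 : s₀ ∈ ball (0 : ℂ) (‖s₀‖ + 1) := by
    rw [mem_ball_zero_iff]
    linarith
  have h1 := (convex_ball (0 : ℂ) (‖s₀‖ + 1)).norm_image_sub_le_of_norm_hasDerivWithin_le
    hG (C := 0) (fun _ _ => by simp) h0 hs0
  rw [zero_mul] at h1
  have h2 : P (s₀ + q) - P s₀ = P (0 + q) - P 0 := sub_eq_zero.1 (norm_le_zero_iff.1 h1)
  have h3 := hint s₀ (by linarith)
  have h4 := hint 0 (by rw [norm_zero]; positivity)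
  rw [h2, ← h4] at h3
  have h5 := mul_right_cancel₀ hq h3
  rw [h5]
  simp

theorem f2_fc {u : ℂ → ℂ} {q : ℂ} (hu : Differentiable ℂ u) (hq : q ≠ 0)
    (hper : ∀ s, u (s + q) = u s) (j : ℤ) (s₀ : ℂ) :
    fc u q j = ∫ θ in (0 : ℝ)..1, u (s₀ + q * θ) *
      Complex.exp (-(2 * Real.pi * Complex.I * j * ((s₀ + q * θ) / q))) := by
  have hU : Differentiable ℂ
      (fun s => u s * Complex.exp (-(2 * Real.pi * Complex.I * j * (s / q)))) := by
    fun_prop
  have hperU : ∀ s : ℂ, u (s + q) * Complex.exp (-(2 * Real.pi * Complex.I * j * ((s + q) / q))) =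
      u s * Complex.exp (-(2 * Real.pi * Complex.I * j * (s / q))) := by
    intro s
    rw [hper]
    congr 1
    have h1 : -(2 * Real.pi * Complex.I * j * ((s + q) / q)) =
        -(2 * Real.pi * Complex.I * j * (s / q)) + (-j : ℤ) * (2 * Real.pi * Complex.I) := by
      push_cast
      field_simp
      ring
    rw [h1, Complex.exp_add, Complex.exp_int_mul_two_pi_mul_I, mul_one]
  rw [← f2_shift hU hq hperU s₀]
  unfold fc
  congr 1
  ext θ
  congr 3
  field_simp

theorem f2_arg {c q : ℂ} {r : ℝ} (hc : c ≠ 0) (hr : c * q = 2 * Real.pi * Complex.I * r)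
    (l θ : ℝ) : c * (-l / c + q * θ) = -l + (2 * Real.pi * r * θ : ℝ) * Complex.I := by
  have h1 : c * (-l / c + q * θ) = -l + (c * q) * θ := by
    field_simp
  rw [h1, hr]
  push_cast
  ring

theorem f2_norm {c q : ℂ} {r : ℝ} (hc : c ≠ 0) (hr : c * q = 2 * Real.pi * Complex.I * r)
    (l θ : ℝ) : ‖Complex.exp (c * (-l / c + q * θ))‖ = Real.exp (-l) := by
  rw [f2_arg hc hr, Complex.norm_exp]
  congr 1
  simp

theorem fc_zero_of_expEnd {u : ℂ → ℂ} {c q : ℂ} {r : ℝ} (hu : Differentiable ℂ u)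
    (hc : c ≠ 0) (he : ExpEnd c 0 u) (hper : ∀ s, u (s + q) = u s)
    (hr : c * q = 2 * Real.pi * Complex.I * r) (hr0 : r ≠ 0) {j : ℤ} (hj : (j : ℝ) * r < 0) :
    fc u q j = 0 := by
  obtain ⟨g, hg, he⟩ := he
  have hrC : (r : ℂ) ≠ 0 := by exact_mod_cast hr0
  have hpiC : (Real.pi : ℂ) ≠ 0 := by exact_mod_cast Real.pi_ne_zero
  have hcq : c * q ≠ 0 := by
    rw [hr]
    simp [Complex.I_ne_zero, hrC, hpiC]
  have hq : q ≠ 0 := right_ne_zero_of_mul hcq
  obtain ⟨K, hK⟩ := (isCompact_closedBall (0 : ℂ) 1).exists_bound_of_continuousOn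
    (hg.continuousOn.mono (closedBall_subset_ball (by norm_num)))
  have hK0 : 0 ≤ K := (norm_nonneg _).trans (hK 0 (by simp))
  have hbound : ∀ l : ℝ, 0 ≤ l → ‖fc u q j‖ ≤ K * Real.exp (l * (j / r)) := by
    intro l hl
    rw [f2_fc hu hq hper j (-l / c)]
    have h1 : ∀ θ ∈ Set.uIoc (0 : ℝ) 1, ‖u (-l / c + q * θ) *
        Complex.exp (-(2 * Real.pi * Complex.I * j * ((-l / c + q * θ) / q)))‖
        ≤ K * Real.exp (l * (j / r)) := by
      intro θ _
      have h2 : ‖Complex.exp (c * (-l / c + q * θ))‖ ≤ 1 := by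
        rw [f2_norm hc hr, Real.exp_le_one_iff]
        linarith
      have h3 := f2_half_plane hu hg he (-l / c + q * θ) (by linarith)
      simp only [Nat.cast_zero, zero_mul, Complex.exp_zero, one_mul] at h3
      rw [norm_mul, h3]
      have h4 : -(2 * Real.pi * Complex.I * j * ((-l / c + q * θ) / q)) =
          ((l * (j / r) : ℝ) : ℂ) + (-(2 * Real.pi * j * θ) : ℝ) * Complex.I := by
        have h5 : (-l / c + q * θ) / q = -l / (c * q) + θ := by
          field_simp
        rw [h5, hr]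
        push_cast
        field_simp
        ring
      have h6 : ‖Complex.exp (-(2 * Real.pi * Complex.I * j * ((-l / c + q * θ) / q)))‖ =
          Real.exp (l * (j / r)) := by
        rw [h4, Complex.norm_exp]
        congr 1
        simp
      rw [h6]
      gcongr
      exact hK _ (mem_closedBall_zero_iff.2 h2)
    have h7 := intervalIntegral.norm_integral_le_of_norm_le_const h1
    simpa using h7
  have hjr : (j : ℝ) / r < 0 := by
    have h1 : (j : ℝ) / r = (j * r) / r ^ 2 := by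
      field_simp
    rw [h1]
    exact div_neg_of_neg_of_pos hj (by positivity)
  have hlim : Tendsto (fun l : ℝ => K * Real.exp (l * (j / r))) atTop (𝓝 0) := by
    have h1 : Tendsto (fun l : ℝ => l * ((j : ℝ) / r)) atTop atBot :=
      tendsto_id.atTop_mul_const_of_neg hjr
    have h2 := (Real.tendsto_exp_atBot.comp h1).const_mul K
    rw [mul_zero] at h2
    exact h2
  have h3 : ‖fc u q j‖ ≤ 0 := by
    refine ge_of_tendsto hlim ?_
    filter_upwards [eventually_ge_atTop 0] with l hl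
    exact hbound l hl
  exact norm_le_zero_iff.1 h3

theorem fc_ne_of_expEndS {u : ℂ → ℂ} {c q : ℂ} {r : ℝ} (hu : Differentiable ℂ u)
    (hc : c ≠ 0) (he : ExpEndS c 3 u) (hper : ∀ s, u (s + q) = u s)
    (hr : c * q = 2 * Real.pi * Complex.I * r) (hr0 : r ≠ 0) :
    ∃ j : ℤ, (j : ℝ) * r < 0 ∧ fc u q j ≠ 0 := by
  obtain ⟨g, hg, hg0, he⟩ := he
  have hrC : (r : ℂ) ≠ 0 := by exact_mod_cast hr0
  have hpiC : (Real.pi : ℂ) ≠ 0 := by exact_mod_cast Real.pi_ne_zero
  have hcq : c * q ≠ 0 := by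
    rw [hr]
    simp [Complex.I_ne_zero, hrC, hpiC]
  have hq : q ≠ 0 := right_ne_zero_of_mul hcq
  have hgc : ContinuousAt g 0 := (hg.continuousOn.continuousAt (ball_mem_nhds 0 (by norm_num)))
  have hnorm1 : ∀ l θ : ℝ, 0 ≤ l → ‖Complex.exp (c * (-l / c + q * θ))‖ < 2 := by
    intro l θ hl
    rw [f2_norm hc hr]
    have : Real.exp (-l) ≤ 1 := by
      rw [Real.exp_le_one_iff]
      linarith
    linarith
  have hlimE : ∀ θ : ℝ, Tendsto (fun l : ℝ => Complex.exp (c * (-l / c + q * θ))) atTop (𝓝 0) := by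
    intro θ
    rw [tendsto_zero_iff_norm_tendsto_zero]
    have h1 : (fun l : ℝ => ‖Complex.exp (c * (-l / c + q * θ))‖) = fun l => Real.exp (-l) := by
      funext l
      exact f2_norm hc hr l θ
    rw [h1]
    exact Real.tendsto_exp_neg_atTop_nhds_zero
  -- the period
  have hper3 : Complex.exp (3 * (2 * Real.pi * Complex.I * r)) = 1 := by
    have h1 : ∀ l : ℝ, 0 ≤ l → Complex.exp (3 * (2 * Real.pi * Complex.I * r)) *
        g (Complex.exp (c * (-l / c + q * (0 : ℝ)))) =
          g (Complex.exp (c * (-l / c + q * (1 : ℝ)))) := by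
      intro l hl
      have h2 := f2_half_plane hu hg he (-l / c + q * (0 : ℝ)) (hnorm1 l 0 hl)
      have h3 := f2_half_plane hu hg he (-l / c + q * (1 : ℝ)) (hnorm1 l 1 hl)
      rw [← h2, ← h3]
      simp only [Complex.ofReal_zero, mul_zero, add_zero, Complex.ofReal_one, mul_one]
      rw [hper, ← mul_assoc, ← Complex.exp_add]
      congr 2
      rw [mul_add c, hr]
      push_cast
      ring
    have h4 : Tendsto (fun l : ℝ => Complex.exp (3 * (2 * Real.pi * Complex.I * r)) *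
        g (Complex.exp (c * (-l / c + q * (0 : ℝ))))) atTop
        (𝓝 (Complex.exp (3 * (2 * Real.pi * Complex.I * r)) * g 0)) :=
      (hgc.tendsto.comp (hlimE 0)).const_mul _
    have h5 : Tendsto (fun l : ℝ => g (Complex.exp (c * (-l / c + q * (1 : ℝ))))) atTop (𝓝 (g 0)) :=
      hgc.tendsto.comp (hlimE 1)
    have h6 := tendsto_nhds_unique (h4.congr' (by
      filter_upwards [eventually_ge_atTop 0] with l hl
      exact h1 l hl)) h5
    exact mul_right_cancel₀ hg0 (by rw [h6, one_mul])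
  obtain ⟨m, hm⟩ := Complex.exp_eq_one_iff.1 hper3
  have hm3 : 3 * (r : ℂ) = m := by
    have h1 : (2 * Real.pi * Complex.I : ℂ) ≠ 0 := by simp [Complex.I_ne_zero, hpiC]
    apply mul_right_cancel₀ h1
    rw [← hm]
    ring
  have hm3' : 3 * r = m := by exact_mod_cast hm3
  refine ⟨-m, ?_, ?_⟩
  · push_cast
    rw [← hm3']
    have : 0 < r ^ 2 := by positivity
    nlinarith
  · have hfc : ∀ l : ℝ, 0 ≤ l → fc u q (-m) =
        ∫ θ in (0 : ℝ)..1, g (Complex.exp (c * (-l / c + q * θ))) := by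
      intro l hl
      rw [f2_fc hu hq hper (-m) (-l / c)]
      congr 1
      ext θ
      have h2 := f2_half_plane hu hg he (-l / c + q * θ) (hnorm1 l θ hl)
      rw [← h2, mul_comm]
      congr 2
      have h3 : (2 * Real.pi * Complex.I * r) / q = c := by
        rw [← hr]
        field_simp
      push_cast
      rw [← hm3]
      calc -(2 * Real.pi * Complex.I * -(3 * (r : ℂ)) * ((-l / c + q * θ) / q))
          = 3 * (((2 * Real.pi * Complex.I * r) / q) * (-l / c + q * θ)) := by ring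
        _ = _ := by rw [h3]
    have hclose : ∀ ε : ℝ, 0 < ε → ‖fc u q (-m) - g 0‖ ≤ ε := by
      intro ε hε
      obtain ⟨δ, hδ, hgδ⟩ := Metric.continuousAt_iff.1 hgc ε hε
      obtain ⟨l, hl0, hl⟩ : ∃ l : ℝ, 0 ≤ l ∧ Real.exp (-l) < δ := by
        have h1 := (Real.tendsto_exp_neg_atTop_nhds_zero.eventually_lt_const hδ).and
          (eventually_ge_atTop (0 : ℝ))
        obtain ⟨l, h2, h3⟩ := h1.exists
        exact ⟨l, h3, h2⟩
      have hci : Continuous (fun θ : ℝ => g (Complex.exp (c * (-l / c + q * θ)))) := by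
        refine hg.continuousOn.comp_continuous ?_ ?_
        · fun_prop
        · intro θ
          rw [mem_ball_zero_iff]
          exact hnorm1 l θ hl0
      have h4 : fc u q (-m) - g 0 =
          ∫ θ in (0 : ℝ)..1, (g (Complex.exp (c * (-l / c + q * θ))) - g 0) := by
        rw [intervalIntegral.integral_sub (hci.intervalIntegrable 0 1)
          (continuous_const.intervalIntegrable 0 1), ← hfc l hl0]
        simp
      rw [h4]
      have h5 : ∀ θ ∈ Set.uIoc (0 : ℝ) 1, ‖g (Complex.exp (c * (-l / c + q * θ))) - g 0‖ ≤ ε := by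
        intro θ _
        rw [← dist_eq_norm]
        refine (hgδ ?_).le
        rw [dist_zero_right, f2_norm hc hr]
        exact hl
      have h6 := intervalIntegral.norm_integral_le_of_norm_le_const h5
      simpa using h6
    have h7 : fc u q (-m) = g 0 := by
      have h8 : ‖fc u q (-m) - g 0‖ ≤ 0 := le_of_forall_pos_le_add fun ε hε => by
        rw [zero_add]
        exact hclose ε hε
      exact sub_eq_zero.1 (norm_le_zero_iff.1 h8)
    rw [h7]
    exact hg0

end Pool.Agent.H43.FX
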