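import Pool.Agent.H43.FX.TEDefs

/-!
# FX-FOUR3 : Fourier coefficients depend holomorphically on the parameter

Proof.  The integrand `Φ(ζ', θ) = F ζ' (p ζ' * θ) e^{-2πi jθ}` is, for each `θ`, holomorphic
in `ζ' ∈ ball ζ ρ` (composition of the `C¹` function `(ζ', s) ↦ F ζ' s` with the holomorphic
map `ζ' ↦ (ζ', p ζ' θ)`), with derivative jointly continuous in `(ζ', θ)`
(`∂_ζF + θ p'(ζ') ∂_sF`, `p'` is continuous because `p` is analytic).  Use
`intervalIntegral.hasDerivAt_integral_of_dominated_loc_of_deriv_le` (bound the derivative on a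
compact ball times `[0,1]`), or `hasFDerivAt_integral_of_...`.
-/

namespace Pool.Agent.H43.FX

open Set Metric Filter Topology

theorem fc_analytic {D : Set ℂ} {F : ℂ → ℂ → ℂ}
    (hF : ContDiffOn ℂ 1 (fun p : ℂ × ℂ => F p.1 p.2) (D ×ˢ univ)) (hD : IsOpen D) {ζ : ℂ}
    {ρ : ℝ} (hρ : ball ζ ρ ⊆ D) {p : ℂ → ℂ} (hp : DifferentiableOn ℂ p (ball ζ ρ)) (j : ℤ) :
    DifferentiableOn ℂ (fun ζ' => fc (F ζ') (p ζ') j) (ball ζ ρ) := by
  set G : ℂ × ℂ → ℂ := fun p => F p.1 p.2 with hG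
  have hopen : IsOpen (D ×ˢ (univ : Set ℂ)) := hD.prod isOpen_univ
  have hGd : ∀ q ∈ D ×ˢ (univ : Set ℂ), HasFDerivAt G (fderiv ℂ G q) q := fun q hq =>
    ((hF.differentiableOn (by norm_num)) q hq |>.differentiableAt (hopen.mem_nhds hq)).hasFDerivAt
  have hGc : ContinuousOn (fderiv ℂ G) (D ×ˢ (univ : Set ℂ)) :=
    hF.continuousOn_fderiv_of_isOpen hopen (by norm_num)
  have hpd : ∀ x ∈ ball ζ ρ, HasDerivAt p (deriv p x) x := fun x hx =>
    ((hp x hx).differentiableAt (isOpen_ball.mem_nhds hx)).hasDerivAt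
  have hpc : ContinuousOn p (ball ζ ρ) := hp.continuousOn
  have hpc' : ContinuousOn (deriv p) (ball ζ ρ) := (hp.deriv isOpen_ball).continuousOn
  set e : ℝ → ℂ := fun θ => Complex.exp (-(2 * Real.pi * Complex.I * j * θ)) with he
  have hec : Continuous e := by
    rw [he]; fun_prop
  have hmem : ∀ x ∈ ball ζ ρ, ∀ θ : ℝ, (x, p x * (θ : ℂ)) ∈ D ×ˢ (univ : Set ℂ) :=
    fun x hx θ => ⟨hρ hx, mem_univ _⟩
  let Φ' : ℂ → ℝ → ℂ := fun x θ => fderiv ℂ G (x, p x * θ) (1, deriv p x * θ) * e θ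
  have hder : ∀ x ∈ ball ζ ρ, ∀ θ : ℝ,
      HasDerivAt (fun x => F x (p x * θ) * e θ) (Φ' x θ) x := by
    intro x hx θ
    have h1 : HasDerivAt (fun x => (x, p x * (θ : ℂ))) (1, deriv p x * (θ : ℂ)) x :=
      (hasDerivAt_id x).prodMk ((hpd x hx).mul_const _)
    exact ((hGd _ (hmem x hx θ)).comp_hasDerivAt x h1).mul_const (e θ)
  have hΦc : ContinuousOn (fun q : ℂ × ℝ => Φ' q.1 q.2) (ball ζ ρ ×ˢ univ) := by
    have h1 : ContinuousOn (fun q : ℂ × ℝ => p q.1 * (q.2 : ℂ)) (ball ζ ρ ×ˢ univ) :=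
      (hpc.comp continuousOn_fst (fun q hq => hq.1)).mul
        (Complex.continuous_ofReal.comp_continuousOn continuousOn_snd)
    have h2 : ContinuousOn (fun q : ℂ × ℝ => deriv p q.1 * (q.2 : ℂ)) (ball ζ ρ ×ˢ univ) :=
      (hpc'.comp continuousOn_fst (fun q hq => hq.1)).mul
        (Complex.continuous_ofReal.comp_continuousOn continuousOn_snd)
    have h3 : ContinuousOn (fun q : ℂ × ℝ => fderiv ℂ G (q.1, p q.1 * (q.2 : ℂ)))
        (ball ζ ρ ×ˢ univ) :=
      hGc.comp (continuousOn_fst.prodMk h1) (fun q hq => hmem q.1 hq.1 q.2)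
    exact (h3.clm_apply (continuousOn_const.prodMk h2)).mul
      (hec.comp_continuousOn continuousOn_snd)
  have hFc : ∀ x ∈ ball ζ ρ, Continuous (fun θ : ℝ => F x (p x * θ) * e θ) := by
    intro x hx
    refine Continuous.mul ?_ hec
    have h1 : ContinuousOn (fun θ : ℝ => G (x, p x * (θ : ℂ))) univ :=
      hF.continuousOn.comp (by fun_prop) (fun θ _ => hmem x hx θ)
    exact continuousOn_univ.1 h1
  intro x₀ hx₀
  obtain ⟨ε, hε, hsub⟩ : ∃ ε > 0, closedBall x₀ ε ⊆ ball ζ ρ :=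
    nhds_basis_closedBall.mem_iff.1 (isOpen_ball.mem_nhds hx₀)
  obtain ⟨M, hM⟩ : ∃ M : ℝ, ∀ q ∈ closedBall x₀ ε ×ˢ Icc (0 : ℝ) 1, ‖Φ' q.1 q.2‖ ≤ M :=
    ((isCompact_closedBall x₀ ε).prod isCompact_Icc).exists_bound_of_continuousOn
      (hΦc.mono (prod_mono hsub (subset_univ _)))
  have key := intervalIntegral.hasDerivAt_integral_of_dominated_loc_of_deriv_le
    (μ := MeasureTheory.volume) (a := 0) (b := 1) (F := fun x θ => F x (p x * (θ : ℝ)) * e θ)
    (F' := Φ') (x₀ := x₀) (bound := fun _ => M) (s := ball x₀ ε) (ball_mem_nhds x₀ hε)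
    (by
      filter_upwards [ball_mem_nhds x₀ hε] with x hx
      exact (hFc x (hsub (ball_subset_closedBall hx))).aestronglyMeasurable)
    ((hFc x₀ hx₀).intervalIntegrable _ _)
    (by
      have h1 : ContinuousOn (fun θ : ℝ => Φ' x₀ θ) univ :=
        hΦc.comp (f := fun θ : ℝ => (x₀, θ)) (by fun_prop) (fun θ _ => ⟨hx₀, mem_univ _⟩)
      exact (continuousOn_univ.1 h1).aestronglyMeasurable)
    (by
      refine Eventually.of_forall fun θ hθ x hx => ?_
      rw [uIoc_of_le zero_le_one] at hθ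
      exact hM (x, θ) ⟨ball_subset_closedBall hx, hθ.1.le, hθ.2⟩)
    intervalIntegrable_const
    (by
      refine Eventually.of_forall fun θ hθ x hx => ?_
      exact hder x (hsub (ball_subset_closedBall hx)) θ)
  exact key.2.differentiableAt.differentiableWithinAt

end Pool.Agent.H43.FX
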