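import Pool.Agent.H43.FX.GenLem

/-!
# FX-GENC1 : joint regularity of generating functions with parameters

Proof.  `G(ζ, s) = ∑ c_m(ζ) s^m/m!`.  Let `u_m(ζ, s) = c_m(ζ) s^m/m!`; it is holomorphic on
`D × ℂ`, with derivative `(h, k) ↦ c_m'(ζ) s^m/m! h + c_m(ζ) s^{m-1}/(m-1)! k`.  Fix
`ζ₀ ∈ D`, `ρ > 0` with `closedBall ζ₀ (2ρ) ⊆ D`, and `A > 0`.  By `LUE` with
`K = closedBall ζ₀ (2ρ)` and `R = 2A + 2`, `‖c_m ζ‖ ≤ M m!/R^m` on `K`, and by the Cauchy
estimate `‖c_m' ζ‖ ≤ (M/ρ) m!/R^m` on `closedBall ζ₀ ρ`.  So on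
`ball ζ₀ ρ × ball 0 A` the derivatives are bounded by a summable sequence
(`(M/ρ + M m/A) 2^{-m}`), and `contDiffOn_tsum`-type results, or
`hasFDerivAt_tsum_of_isPreconnected` together with `continuousOn_tsum` for the derivative,
give `C¹` on this set.
-/

namespace Pool.Agent.H43.FX

open Set Metric Filter Topology

theorem gen_c1 {D : Set ℂ} (hD : IsOpen D) {c : ℕ → ℂ → ℂ}
    (hc : ∀ m, AnalyticOnNhd ℂ (c m) D) (hL : LUE D c) :
    ContDiffOn ℂ 1 (fun p : ℂ × ℂ => gen (fun m => c m p.1) p.2) (D ×ˢ univ) := by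
  rintro ⟨ζ₀, s₀⟩ ⟨hζ₀, -⟩
  simp only at hζ₀
  refine ContDiffAt.contDiffWithinAt ?_
  obtain ⟨r, hr, hrD⟩ := Metric.isOpen_iff.mp hD ζ₀ hζ₀
  set ρ : ℝ := r / 3 with hρdef
  have hρ : 0 < ρ := by positivity
  have hK : closedBall ζ₀ (2 * ρ) ⊆ D := by
    refine (closedBall_subset_ball ?_).trans hrD
    rw [hρdef]; linarith
  set A : ℝ := ‖s₀‖ + 1 with hAdef
  have hA1 : 1 ≤ A := by have := norm_nonneg s₀; linarith
  have hA : 0 < A := by linarith
  obtain ⟨M, hM⟩ := hL _ hK (isCompact_closedBall _ _) (2 * A) (by positivity)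
  have hM0 : 0 ≤ M := by
    have := hM 0 ζ₀ (mem_closedBall_self (by positivity))
    simp only [pow_zero, mul_one, Nat.factorial_zero, Nat.cast_one] at this
    exact (norm_nonneg _).trans this
  have hRpos : ∀ m : ℕ, 0 < (2 * A) ^ m := fun m => by positivity
  have hcb : ∀ m : ℕ, ∀ ζ ∈ closedBall ζ₀ (2 * ρ), ‖c m ζ‖ ≤ M * (m.factorial : ℝ) / (2 * A) ^ m :=
    fun m ζ hζ => (le_div_iff₀ (hRpos m)).mpr (hM m ζ hζ)
  have hdb : ∀ m : ℕ, ∀ ζ ∈ ball ζ₀ ρ,
      ‖deriv (c m) ζ‖ ≤ M * (m.factorial : ℝ) / (2 * A) ^ m / ρ := by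
    intro m ζ hζ
    have hsub : closedBall ζ ρ ⊆ closedBall ζ₀ (2 * ρ) := by
      refine closedBall_subset_closedBall' ?_
      have := mem_ball.mp hζ
      linarith
    refine Complex.norm_deriv_le_of_forall_mem_sphere_norm_le hρ ?_ fun w hw =>
      hcb m w (hsub (sphere_subset_closedBall hw))
    refine DifferentiableOn.diffContOnCl ?_
    rw [closure_ball _ hρ.ne']
    exact ((hc m).mono (hsub.trans hK)).differentiableOn
  set S : Set (ℂ × ℂ) := ball ζ₀ ρ ×ˢ ball 0 A with hSdef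
  have hSo : IsOpen S := isOpen_ball.prod isOpen_ball
  have hSc : IsPreconnected S :=
    ((convex_ball ζ₀ ρ).prod (convex_ball (0 : ℂ) A)).isPreconnected
  have hSD : ∀ p ∈ S, p.1 ∈ D := fun p hp =>
    hK (ball_subset_closedBall.trans (closedBall_subset_closedBall (by linarith)) hp.1)
  set f : ℕ → ℂ × ℂ → ℂ := fun m p => c m p.1 * p.2 ^ m / (m.factorial : ℂ) with hf
  set f' : ℕ → ℂ × ℂ → (ℂ × ℂ →L[ℂ] ℂ) := fun m p =>
    (deriv (c m) p.1 * p.2 ^ m / (m.factorial : ℂ)) • ContinuousLinearMap.fst ℂ ℂ ℂ +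
    (c m p.1 * ((m : ℂ) * p.2 ^ (m - 1)) / (m.factorial : ℂ)) • ContinuousLinearMap.snd ℂ ℂ ℂ
    with hf'
  set u : ℕ → ℝ := fun m => M / ρ * (1 / 2) ^ m + M * ((m : ℝ) * (1 / 2) ^ m) with hu
  have hfder : ∀ m, ∀ p ∈ S, HasFDerivAt (f m) (f' m p) p := by
    intro m p hp
    have h1 : HasFDerivAt (fun q : ℂ × ℂ => c m q.1)
        (deriv (c m) p.1 • ContinuousLinearMap.fst ℂ ℂ ℂ) p :=
      ((hc m p.1 (hSD p hp)).differentiableAt.hasDerivAt).comp_hasFDerivAt p hasFDerivAt_fst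
    have h2 : HasFDerivAt (fun q : ℂ × ℂ => q.2 ^ m)
        (((m : ℂ) * p.2 ^ (m - 1)) • ContinuousLinearMap.snd ℂ ℂ ℂ) p :=
      (hasDerivAt_pow m p.2).comp_hasFDerivAt p hasFDerivAt_snd
    have h3 := (h1.mul h2).mul_const ((m.factorial : ℂ)⁻¹)
    refine (h3.congr_fderiv ?_).congr_of_eventuallyEq (Eventually.of_forall fun q => ?_)
    · refine ContinuousLinearMap.ext fun v => ?_
      simp only [hf', smul_apply, add_apply,
        ContinuousLinearMap.coe_fst', ContinuousLinearMap.coe_snd', smul_eq_mul]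
      rw [div_eq_mul_inv, div_eq_mul_inv]
      ring
    · simp only [hf, div_eq_mul_inv, Pi.mul_apply]
  have hbound : ∀ m, ∀ p ∈ S, ‖f' m p‖ ≤ u m := by
    intro m p hp
    have hfac : (0 : ℝ) < m.factorial := by exact_mod_cast m.factorial_pos
    have hp2 : ‖p.2‖ ≤ A := by
      have := mem_ball_zero_iff.mp hp.2
      exact this.le
    have h1 : ‖deriv (c m) p.1 * p.2 ^ m / (m.factorial : ℂ)‖ ≤ M / ρ * (1 / 2) ^ m := by
      rw [norm_div, norm_mul, norm_pow, Complex.norm_natCast, div_le_iff₀ hfac]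
      calc ‖deriv (c m) p.1‖ * ‖p.2‖ ^ m ≤ M * (m.factorial : ℝ) / (2 * A) ^ m / ρ * A ^ m := by
            gcongr
            exact hdb m p.1 hp.1
        _ = M / ρ * (1 / 2) ^ m * (m.factorial : ℝ) := by
            rw [mul_pow, one_div, inv_pow]
            field_simp
    have h2 : ‖c m p.1 * ((m : ℂ) * p.2 ^ (m - 1)) / (m.factorial : ℂ)‖ ≤
        M * ((m : ℝ) * (1 / 2) ^ m) := by
      rw [norm_div, norm_mul, norm_mul, norm_pow, Complex.norm_natCast, Complex.norm_natCast,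
        div_le_iff₀ hfac]
      have hc1 := hcb m p.1 (ball_subset_closedBall.trans
        (closedBall_subset_closedBall (by linarith)) hp.1)
      rcases Nat.eq_zero_or_pos m with hm | hm
      · subst hm; simp
      · calc ‖c m p.1‖ * ((m : ℝ) * ‖p.2‖ ^ (m - 1))
            ≤ M * (m.factorial : ℝ) / (2 * A) ^ m * ((m : ℝ) * A ^ m) := by
              gcongr
              calc ‖p.2‖ ^ (m - 1) ≤ A ^ (m - 1) := by gcongr
                _ ≤ A ^ m := pow_le_pow_right₀ hA1 (Nat.sub_le _ _)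
          _ = M * ((m : ℝ) * (1 / 2) ^ m) * (m.factorial : ℝ) := by
              rw [mul_pow, one_div, inv_pow]
              field_simp
    calc ‖f' m p‖ ≤ ‖deriv (c m) p.1 * p.2 ^ m / (m.factorial : ℂ)‖ * 1 +
          ‖c m p.1 * ((m : ℂ) * p.2 ^ (m - 1)) / (m.factorial : ℂ)‖ * 1 := by
          refine (norm_add_le _ _).trans (add_le_add ?_ ?_)
          · rw [norm_smul]
            gcongr
            exact ContinuousLinearMap.norm_fst_le ℂ ℂ ℂ
          · rw [norm_smul]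
            gcongr
            exact ContinuousLinearMap.norm_snd_le ℂ ℂ ℂ
      _ ≤ u m := by rw [mul_one, mul_one]; exact add_le_add h1 h2
  have husum : Summable u := by
    refine Summable.add ?_ ?_
    · exact (summable_geometric_of_lt_one (by norm_num) (by norm_num)).mul_left _
    · refine Summable.mul_left _ ?_
      have := summable_pow_mul_geometric_of_norm_lt_one (R := ℝ) 1 (r := 1 / 2) (by norm_num)
      simpa using this
  have hcont : ∀ m, ContinuousOn (f' m) S := by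
    intro m
    have hfst : ContinuousOn (fun p : ℂ × ℂ => p.1) S := continuousOn_fst
    have hsnd : ContinuousOn (fun p : ℂ × ℂ => p.2) S := continuousOn_snd
    have h1 : ContinuousOn (fun p : ℂ × ℂ => deriv (c m) p.1) S :=
      (hc m).deriv.continuousOn.comp hfst hSD
    have h2 : ContinuousOn (fun p : ℂ × ℂ => c m p.1) S :=
      (hc m).continuousOn.comp hfst hSD
    exact (((h1.mul (hsnd.pow m)).div_const _).smul continuousOn_const).add
      (((h2.mul (continuousOn_const.mul (hsnd.pow (m - 1)))).div_const _).smul continuousOn_const)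
  have hx₀ : ((ζ₀, 0) : ℂ × ℂ) ∈ S := ⟨mem_ball_self hρ, mem_ball_self hA⟩
  have hsum0 : Summable fun m => f m (ζ₀, 0) := by
    refine summable_of_ne_finset_zero (s := {0}) fun m hm => ?_
    have : m ≠ 0 := by simpa using hm
    simp [hf, this]
  rw [contDiffAt_one_iff]
  refine ⟨fun p => ∑' m, f' m p, S, hSo.mem_nhds ⟨mem_ball_self hρ, ?_⟩,
    continuousOn_tsum hcont husum hbound, fun p hp => ?_⟩
  · rw [mem_ball_zero_iff, hAdef]; linarith
  · exact hasFDerivAt_tsum_of_isPreconnected husum hSo hSc hfder hbound hx₀ hsum0 hp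

end Pool.Agent.H43.FX
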