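import Pool.Agent.H43.FX.TEDefs

/-!
# FX-UC : unique continuation for continuous functions that are holomorphic off their zeros

Proof.  Let `Z` be the interior of `{z ∈ D | G z = 0}` (`Z ⊇ U` is nonempty, open).  It suffices
to show that `Z` is relatively closed in `D` (`IsPreconnected.subset_of_closure_inter_subset`
or similar).  Let `z₁ ∈ D ∩ closure Z`.  Choose `ρ > 0` with `closedBall z₁ (2ρ) ⊆ D`, and
`c ∈ Z` with `dist c z₁ < ρ`; so `z₁ ∈ ball c ρ` and `closedBall c ρ ⊆ D`, and `G = 0` on a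
`ball c ε`.  CLAIM: `G = 0` on `ball c ρ` (so `z₁ ∈ Z`).  Let
`V = {z ∈ ball c ρ | G z ≠ 0}`, a bounded open set (as `G` is continuous on the open set
`ball c ρ`) whose closure avoids `ball c ε`.  For `m : ℕ` the function
`h z = G z / (z - c)^m` is `DiffContOnCl` on `V`.  On the frontier of `V` either `G z = 0`, or
`dist z c = ρ` and `‖h z‖ ≤ M/ρ^m`, `M = sup of ‖G‖ on closedBall c ρ`
(a point `z` of the frontier with `dist z c < ρ` and `G z ≠ 0` would be an interior point of
`V`).  By `Complex.norm_le_of_forall_mem_frontier_norm_le`, `‖G z‖ ≤ M (‖z - c‖/ρ)^m` for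
`z ∈ V`.  Let `m → ∞`: `G z = 0`, so `V` is empty.
-/

namespace Pool.Agent.H43.FX

open Set Metric Filter Topology

theorem UC_ball {D : Set ℂ} {G : ℂ → ℂ} (hG : ContinuousOn G D)
    (hh : ∀ z ∈ D, G z ≠ 0 → DifferentiableAt ℂ G z) {c : ℂ} {ρ ε : ℝ} (hρ : 0 < ρ) (hε : 0 < ε)
    (hsub : closedBall c ρ ⊆ D) (h0 : ∀ z ∈ ball c ε, G z = 0) : ∀ z ∈ ball c ρ, G z = 0 := by
  by_contra hcon
  push Not at hcon
  obtain ⟨z₀, hz₀, hne⟩ := hcon
  have hGc : ContinuousOn G (closedBall c ρ) := hG.mono hsub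
  obtain ⟨M, hM⟩ := (isCompact_closedBall c ρ).exists_bound_of_continuousOn hGc
  set V : Set ℂ := {z | z ∈ ball c ρ ∧ G z ≠ 0} with hV
  have hVo : IsOpen V := by
    have h1 := (hG.mono (ball_subset_closedBall.trans hsub)).isOpen_inter_preimage
      (isOpen_ball (x := c) (ε := ρ)) (isOpen_compl_singleton (x := (0 : ℂ)))
    exact h1
  have hVb : Bornology.IsBounded V := isBounded_ball.subset fun z hz => hz.1
  have hcl : closure V ⊆ closedBall c ρ :=
    closure_minimal (fun z hz => ball_subset_closedBall hz.1) isClosed_closedBall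
  have hfar : ∀ z ∈ closure V, z ≠ c := by
    rintro z hz rfl
    obtain ⟨w, hw1, hw2⟩ := mem_closure_iff.1 hz (ball z ε) isOpen_ball (mem_ball_self hε)
    exact hw2.2 (h0 w hw1)
  have hbound : ∀ m : ℕ, ‖G z₀‖ ≤ M * (‖z₀ - c‖ / ρ) ^ m := by
    intro m
    have hd : DiffContOnCl ℂ (fun z => G z / (z - c) ^ m) V := by
      constructor
      · intro z hz
        have h1 : z - c ≠ 0 := sub_ne_zero.2 (hfar z (subset_closure hz))
        exact ((hh z (hsub (ball_subset_closedBall hz.1)) hz.2).div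
          ((differentiableAt_id.sub_const c).pow m) (pow_ne_zero m h1)).differentiableWithinAt
      · exact (hGc.mono hcl).div ((continuousOn_id.sub continuousOn_const).pow m)
          fun z hz => pow_ne_zero m (sub_ne_zero.2 (hfar z hz))
    have hM0 : 0 ≤ M := (norm_nonneg _).trans (hM c (mem_closedBall_self hρ.le))
    have hfr : ∀ z ∈ frontier V, ‖G z / (z - c) ^ m‖ ≤ M / ρ ^ m := by
      intro z hz
      rw [hVo.frontier_eq] at hz
      have hz1 := hcl hz.1
      by_cases hGz : G z = 0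
      · rw [hGz, zero_div, norm_zero]
        positivity
      · have hz2 : ρ ≤ ‖z - c‖ := by
          by_contra h2
          push Not at h2
          exact hz.2 ⟨by rw [mem_ball, dist_eq_norm]; exact h2, hGz⟩
        rw [norm_div, norm_pow]
        have h3 : ρ ^ m ≤ ‖z - c‖ ^ m := pow_le_pow_left₀ hρ.le hz2 m
        exact div_le_div₀ hM0 (hM z hz1) (by positivity) h3
    have h4 := Complex.norm_le_of_forall_mem_frontier_norm_le hVb hd hfr
      (subset_closure (⟨hz₀, hne⟩ : z₀ ∈ V))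
    rw [norm_div, norm_pow] at h4
    have h5 : 0 < ‖z₀ - c‖ := norm_pos_iff.2 (sub_ne_zero.2 (hfar z₀ (subset_closure ⟨hz₀, hne⟩)))
    rw [div_le_iff₀ (by positivity)] at h4
    calc ‖G z₀‖ ≤ M / ρ ^ m * ‖z₀ - c‖ ^ m := h4
      _ = M * (‖z₀ - c‖ / ρ) ^ m := by rw [div_pow]; ring
  have hlt : ‖z₀ - c‖ / ρ < 1 := by
    rw [div_lt_one hρ, ← dist_eq_norm]
    exact hz₀
  have hlim : Tendsto (fun m : ℕ => M * (‖z₀ - c‖ / ρ) ^ m) atTop (𝓝 (M * 0)) :=
    (tendsto_pow_atTop_nhds_zero_of_lt_one (by positivity) hlt).const_mul M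
  have h6 : ‖G z₀‖ ≤ M * 0 := ge_of_tendsto' hlim hbound
  rw [mul_zero] at h6
  exact hne (norm_le_zero_iff.1 h6)

theorem uc {D : Set ℂ} (hD : IsOpen D) (hc : IsPreconnected D) {G : ℂ → ℂ}
    (hG : ContinuousOn G D) (hh : ∀ z ∈ D, G z ≠ 0 → DifferentiableAt ℂ G z)
    {U : Set ℂ} (hU : IsOpen U) (hUn : U.Nonempty) (hUD : U ⊆ D) (h0 : ∀ z ∈ U, G z = 0) :
    ∀ z ∈ D, G z = 0 := by
  have hsub : D ⊆ interior {z | G z = 0} := by
    refine hc.subset_of_closure_inter_subset isOpen_interior ?_ ?_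
    · obtain ⟨u, hu⟩ := hUn
      exact ⟨u, hUD hu, interior_maximal h0 hU hu⟩
    · rintro z ⟨hz, hzD⟩
      obtain ⟨δ, hδ, hδs⟩ := Metric.isOpen_iff.1 hD z hzD
      obtain ⟨c, hcZ, hcz⟩ := Metric.mem_closure_iff.1 hz (δ / 3) (by positivity)
      obtain ⟨ε, hε, hεs⟩ := Metric.isOpen_iff.1 isOpen_interior c hcZ
      have h1 : closedBall c (δ / 3) ⊆ D := by
        intro x hx
        apply hδs
        rw [mem_ball]
        rw [mem_closedBall] at hx
        have := dist_triangle x c z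
        rw [dist_comm] at hcz
        linarith
      have h2 := UC_ball hG hh (by positivity : (0 : ℝ) < δ / 3) hε h1
        fun w hw => (interior_subset : interior {z | G z = 0} ⊆ _) (hεs hw)
      exact interior_maximal (fun w hw => h2 w hw) isOpen_ball (mem_ball.2 hcz)
  exact fun z hz => (interior_subset : interior {z | G z = 0} ⊆ _) (hsub hz)

end Pool.Agent.H43.FX
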