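import Pool.Agent.H43.FX.LocGen
import Pool.Agent.H43.FX.UC

/-!
# FX-GENCOMP : a connected family of persistent periods joins the two ends

Proof.  Let `Ω = {ζ ∈ D | ∃ q ≠ 0, PP D G ζ q}`.
(1) `Ω` is open (by `local_gen`).
(2) KEY: if `ζ ∈ D` and there is a sequence `ζ_n → ζ`, `ζ_n ≠ ζ`, with nonzero
`q_n`, `IsPer G ζ_n q_n`, `‖q_n‖ ≤ M`, then `ζ ∈ Ω` (by `persist`).  In particular the two
punctured balls `B₀ = {0 < ‖ζ - e₀‖ < r}`, `B₁` are contained in `Ω` (every point of `B₀` is a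
limit of other points of `B₀`).
(3) Define `g : ℂ → ℂ` on `Ω` by `g ζ = 1/(generator of {q | PP D G ζ q})²`; well defined: if
`p, p'` are both nonzero generators then `p' = m p`, `p = m' p'`, so `m m' = 1`, `p' = ± p`.
(E.g. `g ζ = if h : ∃ p, p ≠ 0 ∧ PP D G ζ p ∧ ∀ q, PP D G ζ q → ∃ m : ℤ, q = m * p then
(h.choose ^ 2)⁻¹ else 0`.)  By `local_gen`, `g = 1/p²` on a ball around each point of `Ω`, so
`g` is holomorphic and nonvanishing on `Ω`.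
(4) Let `Ω₀` be the connected component in `Ω` of a point of `B₀`
(`connectedComponentIn Ω ζ₀`; it is open since `Ω` is open, and preconnected).  Define
`G₀ = g` on `Ω₀` and `G₀ = 0` off `Ω₀`.  CLAIM: `G₀` is continuous on `D`.  At points of `Ω₀`
and at points of `Ω \ Ω₀` (which have a neighbourhood — a ball in `Ω`, connected — disjoint from
`Ω₀`) this is clear.  At `ζ ∈ D \ Ω`: if `G₀` is not continuous at `ζ` there are `ε > 0` and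
`ζ_n → ζ`, `ζ_n ∈ Ω₀` with `|g ζ_n| ≥ ε`; the generators `p_n` satisfy `‖p_n‖² ≤ 1/ε`, and
`ζ_n ≠ ζ` as `ζ ∉ Ω`; so `ζ ∈ Ω` by (2), a contradiction.
(5) `G₀` is nonzero at `ζ₀`.  By `uc` (contrapositive) `G₀` does not vanish identically on the
nonempty open set `B₁ ⊆ D`; so `Ω₀ ∩ B₁ ≠ ∅`.  Take `Ω₀` in the statement.
-/

namespace Pool.Agent.H43.FX

open Set Metric Filter Topology

/-- Points where some nonzero persistent period exists. -/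
def PPset (D : Set ℂ) (G : Fin 4 → ℂ → ℂ → ℂ) : Set ℂ := {ζ | ∃ q, q ≠ 0 ∧ PP D G ζ q}

lemma PPset_subset {D : Set ℂ} {G : Fin 4 → ℂ → ℂ → ℂ} : PPset D G ⊆ D := by
  rintro ζ ⟨q, -, ρ, hρ, hb, -⟩
  exact hb (mem_ball_self hρ)

lemma PPset_open {D : Set ℂ} {G : Fin 4 → ℂ → ℂ → ℂ} (h : TEData D G) : IsOpen (PPset D G) := by
  rw [Metric.isOpen_iff]
  intro ζ hζ
  obtain ⟨ρ, hρ, -, p, -, hp⟩ := local_gen h hζ
  exact ⟨ρ, hρ, fun ζ' hζ' => ⟨p ζ', (hp ζ' hζ').1, (hp ζ' hζ').2.1⟩⟩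

lemma PP.isPer {D : Set ℂ} {G : Fin 4 → ℂ → ℂ → ℂ} {ζ q : ℂ} (h : PP D G ζ q) :
    IsPer G ζ q := by
  obtain ⟨ρ, hρ, -, p, -, rfl, hp⟩ := h
  exact hp ζ (mem_ball_self hρ)

lemma PPset_key {D : Set ℂ} {G : Fin 4 → ℂ → ℂ → ℂ} (h : TEData D G) {ζs : ℕ → ℂ} {ζ : ℂ}
    (hζ : ζ ∈ D) (hlim : Tendsto ζs atTop (𝓝 ζ)) (hne : ∀ n, ζs n ≠ ζ) {q : ℕ → ℂ}
    (hq0 : ∀ n, q n ≠ 0) {M : ℝ} (hqb : ∀ n, ‖q n‖ ≤ M) (hper : ∀ n, IsPer G (ζs n) (q n)) :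
    ζ ∈ PPset D G := by
  obtain ⟨ρ, hρ, hb, p, hp, hpp, -⟩ := persist h hζ hlim hne hq0 hqb hper
  exact ⟨p ζ, (hpp ζ (mem_ball_self hρ)).1, ρ, hρ, hb, p, hp, rfl, fun ζ' hζ' => (hpp ζ' hζ').2⟩

/-- The punctured ball. -/
def PB (e : ℂ) (r : ℝ) : Set ℂ := {ζ | 0 < ‖ζ - e‖ ∧ ‖ζ - e‖ < r}

lemma PB_open (e : ℂ) (r : ℝ) : IsOpen (PB e r) := by
  have h1 : Continuous fun ζ : ℂ => ‖ζ - e‖ := by fun_prop
  exact (isOpen_lt continuous_const h1).inter (isOpen_lt h1 continuous_const)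

lemma PB_nonempty (e : ℂ) {r : ℝ} (hr : 0 < r) : (PB e r).Nonempty := by
  refine ⟨e + ((r / 2 : ℝ) : ℂ), ?_, ?_⟩
  · simp only [add_sub_cancel_left, Complex.norm_real, Real.norm_eq_abs]
    rw [abs_of_pos (by positivity)]
    positivity
  · simp only [add_sub_cancel_left, Complex.norm_real, Real.norm_eq_abs]
    rw [abs_of_pos (by positivity)]
    linarith

lemma PB_subset {D : Set ℂ} {G : Fin 4 → ℂ → ℂ → ℂ} (h : TEData D G) {e₀ : ℂ} {r M : ℝ}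
    (h0 : ∀ ζ, 0 < ‖ζ - e₀‖ → ‖ζ - e₀‖ < r → ζ ∈ D ∧ ∃ q, q ≠ 0 ∧ ‖q‖ ≤ M ∧ IsPer G ζ q) :
    PB e₀ r ⊆ PPset D G := by
  intro ζ hζ
  obtain ⟨δ, hδ, hδb⟩ := Metric.isOpen_iff.1 (PB_open e₀ r) ζ hζ
  set ζs : ℕ → ℂ := fun n => ζ + ((δ / (n + 2) : ℝ) : ℂ) with hζs
  have hpos : ∀ n : ℕ, 0 < δ / ((n : ℝ) + 2) := fun n => by positivity
  have hmem : ∀ n, ζs n ∈ PB e₀ r := by
    intro n
    apply hδb
    rw [mem_ball, dist_eq_norm, hζs]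
    simp only [add_sub_cancel_left, Complex.norm_real, Real.norm_eq_abs]
    rw [abs_of_pos (hpos n), div_lt_iff₀ (by positivity)]
    have : (0:ℝ) ≤ n := Nat.cast_nonneg n
    nlinarith
  have hq : ∀ n, ∃ q, q ≠ 0 ∧ ‖q‖ ≤ M ∧ IsPer G (ζs n) q := fun n =>
    (h0 (ζs n) (hmem n).1 (hmem n).2).2
  choose q hq0 hqM hqp using hq
  refine PPset_key h (h0 ζ hζ.1 hζ.2).1 (ζs := ζs) ?_ ?_ hq0 hqM hqp
  · have h1 : Tendsto (fun n : ℕ => δ / ((n : ℝ) + 2)) atTop (𝓝 0) := by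
      have h2 : Tendsto (fun n : ℕ => (n : ℝ) + 2) atTop atTop :=
        tendsto_atTop_add_const_right _ _ tendsto_natCast_atTop_atTop
      exact tendsto_const_nhds.div_atTop h2
    have h3 : Tendsto (fun n : ℕ => ζ + ((δ / ((n : ℝ) + 2) : ℝ) : ℂ)) atTop
        (𝓝 (ζ + ((0 : ℝ) : ℂ))) :=
      tendsto_const_nhds.add ((Complex.continuous_ofReal.tendsto 0).comp h1)
    simpa [hζs] using h3
  · intro n hn
    have h4 : ((δ / ((n : ℝ) + 2) : ℝ) : ℂ) = 0 := by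
      have : ζ + ((δ / ((n : ℝ) + 2) : ℝ) : ℂ) = ζ := hn
      simpa using this
    rw [Complex.ofReal_eq_zero] at h4
    exact (hpos n).ne' h4

/-- The inverse square of the generator. -/
noncomputable def gfun (D : Set ℂ) (G : Fin 4 → ℂ → ℂ → ℂ) (ζ : ℂ) : ℂ := by
  classical
  exact if h : ∃ p, p ≠ 0 ∧ PP D G ζ p ∧ ∀ q, PP D G ζ q → ∃ m : ℤ, q = m * p
    then (h.choose ^ 2)⁻¹ else 0

lemma gfun_eq {D : Set ℂ} {G : Fin 4 → ℂ → ℂ → ℂ} {ζ p : ℂ} (hp0 : p ≠ 0) (hp : PP D G ζ p)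
    (hg : ∀ q, PP D G ζ q → ∃ m : ℤ, q = m * p) : gfun D G ζ = (p ^ 2)⁻¹ := by
  classical
  have hex : ∃ p, p ≠ 0 ∧ PP D G ζ p ∧ ∀ q, PP D G ζ q → ∃ m : ℤ, q = m * p :=
    ⟨p, hp0, hp, hg⟩
  have e1 : gfun D G ζ = (hex.choose ^ 2)⁻¹ := by
    unfold gfun
    rw [dif_pos hex]
  rw [e1]
  obtain ⟨h1, h2, h3⟩ := hex.choose_spec
  obtain ⟨m, hm⟩ := hg _ h2
  obtain ⟨m', hm'⟩ := h3 _ hp
  set c := hex.choose with hc
  have h4 : ((m * m' : ℤ) : ℂ) = 1 := by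
    have : c = (m : ℂ) * ((m' : ℂ) * c) := by rw [← hm']; exact hm
    have h5 : c * ((m : ℂ) * m' - 1) = 0 := by linear_combination -this
    rcases mul_eq_zero.1 h5 with h6 | h6
    · exact absurd h6 h1
    · push_cast
      linear_combination h6
  have h7 : m * m' = 1 := by exact_mod_cast h4
  have h8 : m ^ 2 = 1 := by
    rcases Int.eq_one_or_neg_one_of_mul_eq_one h7 with h9 | h9 <;> rw [h9] <;> norm_num
  have h9 : c ^ 2 = p ^ 2 := by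
    rw [hm, mul_pow]
    have : ((m : ℂ)) ^ 2 = 1 := by exact_mod_cast h8
    rw [this, one_mul]
  rw [h9]

lemma gfun_local {D : Set ℂ} {G : Fin 4 → ℂ → ℂ → ℂ} (h : TEData D G) {ζ : ℂ}
    (hζ : ζ ∈ PPset D G) : DifferentiableAt ℂ (gfun D G) ζ ∧ gfun D G ζ ≠ 0 ∧
      ∃ ρ : ℝ, 0 < ρ ∧ ball ζ ρ ⊆ PPset D G := by
  obtain ⟨ρ, hρ, -, p, hpd, hp⟩ := local_gen h hζ
  have heq : ∀ ζ' ∈ ball ζ ρ, gfun D G ζ' = (p ζ' ^ 2)⁻¹ := fun ζ' hζ' =>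
    gfun_eq (hp ζ' hζ').1 (hp ζ' hζ').2.1 (hp ζ' hζ').2.2
  have hnb : ball ζ ρ ∈ 𝓝 ζ := ball_mem_nhds ζ hρ
  refine ⟨?_, ?_, ρ, hρ, fun ζ' hζ' => ⟨p ζ', (hp ζ' hζ').1, (hp ζ' hζ').2.1⟩⟩
  · have h1 : DifferentiableAt ℂ p ζ := hpd.differentiableAt hnb
    have h2 : DifferentiableAt ℂ (fun z => (p z ^ 2)⁻¹) ζ :=
      (h1.pow 2).inv (pow_ne_zero _ (hp ζ (mem_ball_self hρ)).1)
    refine h2.congr_of_eventuallyEq ?_
    filter_upwards [hnb] with z hz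
    exact heq z hz
  · rw [heq ζ (mem_ball_self hρ)]
    exact inv_ne_zero (pow_ne_zero _ (hp ζ (mem_ball_self hρ)).1)

theorem gen_comp {D : Set ℂ} {G : Fin 4 → ℂ → ℂ → ℂ} (h : TEData D G) {e₀ e₁ : ℂ} {r M : ℝ}
    (hr : 0 < r)
    (h0 : ∀ ζ, 0 < ‖ζ - e₀‖ → ‖ζ - e₀‖ < r → ζ ∈ D ∧ ∃ q, q ≠ 0 ∧ ‖q‖ ≤ M ∧ IsPer G ζ q)
    (h1 : ∀ ζ, 0 < ‖ζ - e₁‖ → ‖ζ - e₁‖ < r → ζ ∈ D ∧ ∃ q, q ≠ 0 ∧ ‖q‖ ≤ M ∧ IsPer G ζ q) :
    ∃ Ω : Set ℂ, IsOpen Ω ∧ IsPreconnected Ω ∧ Ω ⊆ D ∧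
      (∀ ζ ∈ Ω, ∃ q, q ≠ 0 ∧ PP D G ζ q) ∧
      (∃ ζ ∈ Ω, 0 < ‖ζ - e₀‖ ∧ ‖ζ - e₀‖ < r) ∧ ∃ ζ ∈ Ω, 0 < ‖ζ - e₁‖ ∧ ‖ζ - e₁‖ < r := by
  classical
  have hB0 := PB_subset h h0
  have hB1 := PB_subset h h1
  obtain ⟨ζ₀, hζ₀⟩ := PB_nonempty e₀ hr
  have hζ₀P : ζ₀ ∈ PPset D G := hB0 hζ₀
  set Ω : Set ℂ := connectedComponentIn (PPset D G) ζ₀ with hΩ
  have hΩo : IsOpen Ω := (PPset_open h).connectedComponentIn
  have hΩP : Ω ⊆ PPset D G := connectedComponentIn_subset _ _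
  have hζ₀Ω : ζ₀ ∈ Ω := mem_connectedComponentIn hζ₀P
  set G₀ : ℂ → ℂ := fun ζ => if ζ ∈ Ω then gfun D G ζ else 0 with hG₀
  have hG₀in : ∀ ζ ∈ Ω, G₀ ζ = gfun D G ζ := fun ζ hζ => by simp [hG₀, hζ]
  have hG₀out : ∀ ζ, ζ ∉ Ω → G₀ ζ = 0 := fun ζ hζ => by simp [hG₀, hζ]
  have hdiff : ∀ ζ ∈ Ω, DifferentiableAt ℂ G₀ ζ := by
    intro ζ hζ
    refine (gfun_local h (hΩP hζ)).1.congr_of_eventuallyEq ?_
    filter_upwards [hΩo.mem_nhds hζ] with z hz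
    exact hG₀in z hz
  have hcont : ContinuousOn G₀ D := by
    intro ζ hζD
    apply ContinuousAt.continuousWithinAt
    by_cases hζΩ : ζ ∈ Ω
    · exact (hdiff ζ hζΩ).continuousAt
    by_cases hζP : ζ ∈ PPset D G
    · obtain ⟨-, -, ρ, hρ, hb⟩ := gfun_local h hζP
      have hdisj : ∀ ξ ∈ ball ζ ρ, ξ ∉ Ω := by
        intro ξ hξ hξΩ
        have h2 : ball ζ ρ ⊆ connectedComponentIn (PPset D G) ξ :=
          (convex_ball ζ ρ).isPreconnected.subset_connectedComponentIn hξ hb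
        have h3 : connectedComponentIn (PPset D G) ζ₀ = connectedComponentIn (PPset D G) ξ :=
          connectedComponentIn_eq hξΩ
        apply hζΩ
        rw [hΩ, h3]
        exact h2 (mem_ball_self hρ)
      have h4 : G₀ =ᶠ[𝓝 ζ] fun _ => (0 : ℂ) := by
        filter_upwards [ball_mem_nhds ζ hρ] with z hz
        exact hG₀out z (hdisj z hz)
      exact (continuousAt_const : ContinuousAt (fun _ : ℂ => (0 : ℂ)) ζ).congr h4.symm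
    · by_contra hnc
      rw [Metric.continuousAt_iff] at hnc
      push Not at hnc
      obtain ⟨ε, hε, hx⟩ := hnc
      have hx' : ∀ n : ℕ, ∃ x, dist x ζ < 1 / ((n : ℝ) + 1) ∧ ε ≤ dist (G₀ x) (G₀ ζ) :=
        fun n => hx _ (by positivity)
      choose x hx1 hx2 using hx'
      have hG0 : G₀ ζ = 0 := hG₀out ζ hζΩ
      have hxΩ : ∀ n, x n ∈ Ω := by
        intro n
        by_contra hn
        have h5 := hx2 n
        rw [hG0, hG₀out _ hn, dist_self] at h5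
        linarith
      have hgen : ∀ n, ∃ p, p ≠ 0 ∧ PP D G (x n) p ∧ G₀ (x n) = (p ^ 2)⁻¹ := by
        intro n
        obtain ⟨ρ, hρ, -, p, -, hp⟩ := local_gen h (hΩP (hxΩ n))
        obtain ⟨a, b, c⟩ := hp (x n) (mem_ball_self hρ)
        exact ⟨p (x n), a, b, by rw [hG₀in _ (hxΩ n), gfun_eq a b c]⟩
      choose p hp0 hpP hpG using hgen
      apply hζP
      refine PPset_key h hζD (ζs := x) (q := p) (M := 1 / ε + 1) ?_ ?_ hp0 ?_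
        (fun n => (hpP n).isPer)
      · rw [tendsto_iff_dist_tendsto_zero]
        refine squeeze_zero (fun n => dist_nonneg) (fun n => (hx1 n).le) ?_
        exact tendsto_one_div_add_atTop_nhds_zero_nat
      · intro n hn
        exact hζP (hn ▸ hΩP (hxΩ n))
      · intro n
        have h6 := hx2 n
        rw [hG0, dist_zero_right, hpG n, norm_inv, norm_pow] at h6
        have h7 : 0 < ‖p n‖ ^ 2 := pow_pos (norm_pos_iff.2 (hp0 n)) 2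
        have h8 : ‖p n‖ ^ 2 ≤ 1 / ε := by
          rw [le_div_iff₀ hε]
          have := mul_le_mul_of_nonneg_left h6 h7.le
          rwa [mul_inv_cancel₀ h7.ne'] at this
        nlinarith [sq_nonneg (‖p n‖ - 1), norm_nonneg (p n)]
  refine ⟨Ω, hΩo, isPreconnected_connectedComponentIn, fun ζ hζ => PPset_subset (hΩP hζ),
    fun ζ hζ => hΩP hζ, ⟨ζ₀, hζ₀Ω, hζ₀⟩, ?_⟩
  by_contra hno
  have hzero := uc h.isOpen h.conn hcont (fun z _ hz => hdiff z (by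
    by_contra hzz
    exact hz (hG₀out z hzz))) (PB_open e₁ r) (PB_nonempty e₁ hr)
    (fun ζ hζ => PPset_subset (hB1 hζ)) (fun z hz => hG₀out z (fun hzΩ => hno ⟨z, hzΩ, hz⟩))
  have h9 := hzero ζ₀ (PPset_subset hζ₀P)
  rw [hG₀in ζ₀ hζ₀Ω] at h9
  exact (gfun_local h hζ₀P).2.1 h9

end Pool.Agent.H43.FX
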