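import Pool.Agent.H43.FX.RDer

/-!
# FX-SWAPR : exchange of `u` and `w`, and the derivations moving `w`

Proof.  `θ(u₁,u₂,w₁,w₂,t) = (w₁,w₂,u₁,u₂,t)` maps `U5 a b` bijectively to `U5 b a`, and
`f ↦ f ∘ θ` maps the generators of `Aring b a z' z` to those of `Aring a b z z'`:
`P k l ↦ P l k`, `t ↦ t`, `X i k ↦ Y i k`, `Y j k ↦ X j k`, `Z i j ↦ Z j i`.  So it is an
isomorphism of algebras `Aring b a z' z ≃ Aring a b z z'` (restriction of the algebra isomorphism
of the function algebras, `Algebra.adjoin` is mapped to `Algebra.adjoin` of the image).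
Conjugate the derivation of `exists_R` (for `(b, a, z', z)`) by it; local nilpotency is
preserved.
-/

namespace Pool.Agent.H43.FX

open Set Metric Filter Topology

/-- The exchange of `u` and `w`. -/
def swapC5 (q : C5) : C5 := (q.2.2.1, q.2.2.2.1, q.1, q.2.1, q.2.2.2.2)

theorem swapC5_cu (k : Fin 2) (q : C5) : cu k (swapC5 q) = cw k q := rfl

theorem swapC5_cw (k : Fin 2) (q : C5) : cw k (swapC5 q) = cu k q := rfl

theorem swapC5_lf (a : Fin 4 → ℂ) (i : Fin 4) (q : C5) : lf a i (swapC5 q) = mf a i q := rfl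

theorem swapC5_mf (a : Fin 4 → ℂ) (i : Fin 4) (q : C5) : mf a i (swapC5 q) = lf a i q := rfl

/-- The exchange of `u` and `w` on the domains. -/
def swapU (a b : Fin 4 → ℂ) (q : U5 a b) : U5 b a :=
  ⟨swapC5 q.1, fun i => q.2.2 i, fun j => q.2.1 j⟩

/-- Composition with the exchange of `u` and `w`. -/
def swapF (a b : Fin 4 → ℂ) : (U5 b a → ℂ) →ₐ[ℂ] (U5 a b → ℂ) where
  toFun f := fun q => f (swapU a b q)
  map_one' := rfl
  map_mul' _ _ := rfl
  map_zero' := rfl
  map_add' _ _ := rfl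
  commutes' _ := rfl

/-- The exchange on the names of the generators. -/
def swapGI : GI → GI
  | GI.P k l => GI.P l k
  | GI.t => GI.t
  | GI.X i k => GI.Y i k
  | GI.Y j k => GI.X j k
  | GI.Z i j => GI.Z j i

theorem swapF_gf (a b z z' : Fin 4 → ℂ) (g : GI) :
    swapF a b (rs b a (gf b a z' z g)) = rs a b (gf a b z z' (swapGI g)) := by
  funext q
  cases g with
  | P k l => exact mul_comm _ _
  | t => rfl
  | X i k => rfl
  | Y j k => rfl
  | Z i j => exact mul_comm _ _

theorem swapF_mem (a b z z' : Fin 4 → ℂ) {f : U5 b a → ℂ} (hf : f ∈ Aring b a z' z) :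
    swapF a b f ∈ Aring a b z z' := by
  have h : Aring b a z' z ≤ (Aring a b z z').comap (swapF a b) := by
    refine Algebra.adjoin_le ?_
    rintro _ ⟨g, rfl⟩
    show swapF a b (rs b a (gf b a z' z g)) ∈ Aring a b z z'
    rw [swapF_gf a b z z' g]
    exact Algebra.subset_adjoin ⟨_, rfl⟩
  exact h hf

/-- The exchange of `u` and `w` on the rings. -/
noncomputable def swapA (a b z z' : Fin 4 → ℂ) : Aring b a z' z →ₐ[ℂ] Aring a b z z' :=
  ((swapF a b).comp (Aring b a z' z).val).codRestrict (Aring a b z z')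
    fun f => swapF_mem a b z z' f.2

theorem swapA_apply (a b z z' : Fin 4 → ℂ) (f : Aring b a z' z) (q : U5 a b) :
    ((swapA a b z z' f : Aring a b z z') : U5 a b → ℂ) q = (f : U5 b a → ℂ) (swapU a b q) := rfl

theorem swapA_swapA (a b z z' : Fin 4 → ℂ) (f : Aring a b z z') :
    swapA a b z z' (swapA b a z' z f) = f := rfl

theorem swapA_ge (a b z z' : Fin 4 → ℂ) (g : GI) :
    swapA a b z z' (ge b a z' z g) = ge a b z z' (swapGI g) :=
  Subtype.ext (swapF_gf a b z z' g)

/-- The conjugate derivation. -/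
noncomputable def swapD (a b z z' : Fin 4 → ℂ)
    (σ : Derivation ℂ (Aring b a z' z) (Aring b a z' z)) :
    Derivation ℂ (Aring a b z z') (Aring a b z z') :=
  Derivation.mk' ((swapA a b z z').toLinearMap ∘ₗ (σ : Aring b a z' z →ₗ[ℂ] Aring b a z' z) ∘ₗ
    (swapA b a z' z).toLinearMap) (by
      intro x y
      show swapA a b z z' (σ (swapA b a z' z (x * y))) =
        x • swapA a b z z' (σ (swapA b a z' z y)) + y • swapA a b z z' (σ (swapA b a z' z x))
      rw [map_mul, σ.leibniz, map_add, smul_eq_mul, smul_eq_mul, map_mul, map_mul, swapA_swapA,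
        swapA_swapA, smul_eq_mul, smul_eq_mul])

theorem swapD_apply (a b z z' : Fin 4 → ℂ)
    (σ : Derivation ℂ (Aring b a z' z) (Aring b a z' z)) (f : Aring a b z z') :
    swapD a b z z' σ f = swapA a b z z' (σ (swapA b a z' z f)) := rfl

theorem swapD_iterate (a b z z' : Fin 4 → ℂ)
    (σ : Derivation ℂ (Aring b a z' z) (Aring b a z' z)) (n : ℕ) (f : Aring a b z z') :
    (swapD a b z z' σ)^[n] f = swapA a b z z' (σ^[n] (swapA b a z' z f)) := by
  induction n with
  | zero => rfl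
  | succ n ih =>
    rw [Function.iterate_succ_apply', ih, swapD_apply, Function.iterate_succ_apply']
    rfl

theorem exists_R' (a : Fin 4 → ℂ) {b : Fin 4 → ℂ} (z z' : Fin 4 → ℂ) (hB : HasBez b)
    (k : Fin 2) :
    ∃ σ : Derivation ℂ (Aring a b z z') (Aring a b z z'),
      Pool.Agent.H29.Flex.IsLND σ ∧ (∀ l, σ (ge a b z z' (GI.P l k)) = 0) ∧
      ∀ l, ((σ (ge a b z z' (GI.P l (1 - k))) : Aring a b z z') : U5 a b → ℂ) =
        fun q => cw k q.1 ^ 13 * (∏ i, lf a i q.1) ^ 3 * cu l q.1 := by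
  obtain ⟨σ, h1, h2, h3⟩ := exists_R a z' z hB k
  refine ⟨swapD a b z z' σ, fun f => ?_, fun l => ?_, fun l => ?_⟩
  · obtain ⟨n, hn⟩ := h1 (swapA b a z' z f)
    exact ⟨n, by rw [swapD_iterate, hn, map_zero]⟩
  · rw [swapD_apply, swapA_ge b a z' z (GI.P l k)]
    show swapA a b z z' (σ (ge b a z' z (GI.P k l))) = 0
    rw [h2 l, map_zero]
  · rw [swapD_apply, swapA_ge b a z' z (GI.P l (1 - k))]
    funext q
    rw [swapA_apply]
    exact congrFun (h3 l) (swapU a b q)

end Pool.Agent.H43.FX
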