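import Pool.Agent.H43.FX.Ring

/-!
# FX-TAN : the tangent space at a generic point has dimension at most 4

Proof.  Let `D` be in the tangent space at `x`, i.e. `D(fg) = x(f)D(g) + x(g)D(f)`, `D` linear.
(1) `D` is determined by `D(P k l)` (4 numbers) and `D(t)`: a `D` killing these five elements
kills `1` (`D 1 = 2 D 1`) and all generators, hence everything (`adjoin_induction`).  Choose `k₀`,
`l₀` with `u_{k₀} ≠ 0`, `w_{l₀} ≠ 0` (they exist since `ℓ_0(u) ≠ 0`, `m_0(w) ≠ 0`).  Relations in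
`Aring`: `(P 0 l₀ - a_i P 1 l₀)³ X i k = (t - z_i) (P 0 l₀)^k (P 1 l₀)^{3-k}`, and
`x(P 0 l₀ - a_i P 1 l₀) = ℓ_i(u) w_{l₀} ≠ 0`: applying `D` gives `x(...)³ D(X i k) = 0`.
`(P k₀ 0 - b_j P k₀ 1)³ Y j l = (t - z'_j)(P k₀ 0)^l (P k₀ 1)^{3-l}`: `D(Y j l) = 0`.
`Z i j · (P k₀ l₀)³ = (X i m)(Y j m')` with `m = 3` if `k₀ = 0`, `m = 0` if `k₀ = 1`, and `m'`
similarly; `x(P k₀ l₀) ≠ 0`: `D(Z i j) = 0`.
(2) `P00 P11 = P01 P10` gives the relation
`u₀w₀ D(P11) + u₁w₁ D(P00) = u₀w₁ D(P10) + u₁w₀ D(P01)`, a nontrivial linear relation (`u, w ≠ 0`)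
between the five numbers.  So the tangent space embeds into a hyperplane of `ℂ^5`, of
dimension `4`.
-/

namespace Pool.Agent.H43.FX

open Set Metric Filter Topology Pool.Agent.H29.Flex

variable {a b z z' : Fin 4 → ℂ}

lemma tan_exists_poly (f : Aring a b z z') : ∃ p : MvPolynomial GI ℂ,
    MvPolynomial.aeval (ge a b z z') p = f := by
  have hf : (f : U5 a b → ℂ) ∈ Algebra.adjoin ℂ
      (range fun g : GI => rs a b (gf a b z z' g)) := f.2
  rw [Algebra.adjoin_range_eq_range_aeval] at hf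
  obtain ⟨p, hp⟩ := hf
  refine ⟨p, Subtype.ext ?_⟩
  rw [← hp]
  exact MvPolynomial.comp_aeval_apply (ge a b z z') (Aring a b z z').val p

/-- The kernel of a point derivation is a subalgebra. -/
def kerD {x : Aring a b z z' →ₐ[ℂ] ℂ} {D : Aring a b z z' →ₗ[ℂ] ℂ}
    (hD : ∀ f g, D (f * g) = x f * D g + x g * D f) : Subalgebra ℂ (Aring a b z z') where
  carrier := {f | D f = 0}
  mul_mem' := by
    intro f g hf hg
    change D (f * g) = 0
    change D f = 0 at hf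
    change D g = 0 at hg
    rw [hD, hf, hg]; simp
  add_mem' := by
    intro f g hf hg
    change D (f + g) = 0
    change D f = 0 at hf
    change D g = 0 at hg
    rw [map_add, hf, hg]; simp
  algebraMap_mem' := by
    intro c
    have h1 : D 1 = 0 := by
      have := hD 1 1
      rw [mul_one, map_one x] at this
      linear_combination -this
    change D _ = 0
    rw [Algebra.algebraMap_eq_smul_one, map_smul, h1, smul_zero]

lemma mem_kerD {x : Aring a b z z' →ₐ[ℂ] ℂ} {D : Aring a b z z' →ₗ[ℂ] ℂ}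
    (hD : ∀ f g, D (f * g) = x f * D g + x g * D f) {f : Aring a b z z'} :
    f ∈ kerD hD ↔ D f = 0 := Iff.rfl

lemma kerD_cancel {x : Aring a b z z' →ₐ[ℂ] ℂ} {D : Aring a b z z' →ₗ[ℂ] ℂ}
    (hD : ∀ f g, D (f * g) = x f * D g + x g * D f) {f g : Aring a b z z'}
    (hf : f ∈ kerD hD) (hfg : f * g ∈ kerD hD) (hx : x f ≠ 0) : g ∈ kerD hD := by
  rw [mem_kerD] at *
  rw [hD, hf, mul_zero, add_zero] at hfg
  exact (mul_eq_zero.mp hfg).resolve_left hx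

lemma cu_lf (i : Fin 4) (q : C5) : cu 0 q - a i * cu 1 q = lf a i q := by
  simp [cu, lf]

lemma cw_mf (j : Fin 4) (q : C5) : cw 0 q - b j * cw 1 q = mf b j q := by
  simp [cw, mf]

lemma rel_X (i k : Fin 4) (l : Fin 2) :
    (ge a b z z' (GI.P 0 l) - a i • ge a b z z' (GI.P 1 l)) ^ 3 * ge a b z z' (GI.X i k) =
      (ge a b z z' GI.t - z i • 1) * (ge a b z z' (GI.P 0 l) ^ (k : ℕ) *
        ge a b z z' (GI.P 1 l) ^ (3 - (k : ℕ))) := by
  apply Subtype.ext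
  funext q
  have hq := q.2.1 i
  change (cu 0 q.1 * cw l q.1 - a i * (cu 1 q.1 * cw l q.1)) ^ 3 *
    (cu 0 q.1 ^ (k : ℕ) * cu 1 q.1 ^ (3 - (k : ℕ)) * ((ct q.1 - z i) / lf a i q.1 ^ 3)) =
    (ct q.1 - z i * 1) * ((cu 0 q.1 * cw l q.1) ^ (k : ℕ) *
      (cu 1 q.1 * cw l q.1) ^ (3 - (k : ℕ)))
  have e1 : cu 0 q.1 * cw l q.1 - a i * (cu 1 q.1 * cw l q.1) = lf a i q.1 * cw l q.1 := by
    rw [← cu_lf]; ring
  have e2 : cw l q.1 ^ (k : ℕ) * cw l q.1 ^ (3 - (k : ℕ)) = cw l q.1 ^ 3 := by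
    rw [← pow_add]
    congr 1
    have := k.2
    omega
  rw [e1, mul_pow, mul_pow, mul_pow, mul_one]
  calc lf a i q.1 ^ 3 * cw l q.1 ^ 3 *
      (cu 0 q.1 ^ (k : ℕ) * cu 1 q.1 ^ (3 - (k : ℕ)) * ((ct q.1 - z i) / lf a i q.1 ^ 3))
      = cw l q.1 ^ 3 * (cu 0 q.1 ^ (k : ℕ) * cu 1 q.1 ^ (3 - (k : ℕ)) * (ct q.1 - z i)) := by
        field_simp
    _ = _ := by rw [← e2]; ring

lemma rel_Y (j k : Fin 4) (l : Fin 2) :
    (ge a b z z' (GI.P l 0) - b j • ge a b z z' (GI.P l 1)) ^ 3 * ge a b z z' (GI.Y j k) =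
      (ge a b z z' GI.t - z' j • 1) * (ge a b z z' (GI.P l 0) ^ (k : ℕ) *
        ge a b z z' (GI.P l 1) ^ (3 - (k : ℕ))) := by
  apply Subtype.ext
  funext q
  have hq := q.2.2 j
  change (cu l q.1 * cw 0 q.1 - b j * (cu l q.1 * cw 1 q.1)) ^ 3 *
    (cw 0 q.1 ^ (k : ℕ) * cw 1 q.1 ^ (3 - (k : ℕ)) * ((ct q.1 - z' j) / mf b j q.1 ^ 3)) =
    (ct q.1 - z' j * 1) * ((cu l q.1 * cw 0 q.1) ^ (k : ℕ) *
      (cu l q.1 * cw 1 q.1) ^ (3 - (k : ℕ)))
  have e1 : cu l q.1 * cw 0 q.1 - b j * (cu l q.1 * cw 1 q.1) = mf b j q.1 * cu l q.1 := by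
    rw [← cw_mf]; ring
  have e2 : cu l q.1 ^ (k : ℕ) * cu l q.1 ^ (3 - (k : ℕ)) = cu l q.1 ^ 3 := by
    rw [← pow_add]
    congr 1
    have := k.2
    omega
  rw [e1, mul_pow, mul_pow, mul_pow, mul_one]
  calc mf b j q.1 ^ 3 * cu l q.1 ^ 3 *
      (cw 0 q.1 ^ (k : ℕ) * cw 1 q.1 ^ (3 - (k : ℕ)) * ((ct q.1 - z' j) / mf b j q.1 ^ 3))
      = cu l q.1 ^ 3 * (cw 0 q.1 ^ (k : ℕ) * cw 1 q.1 ^ (3 - (k : ℕ)) * (ct q.1 - z' j)) := by
        field_simp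
    _ = _ := by rw [← e2]; ring

lemma rel_Z (i j : Fin 4) (k l : Fin 2) :
    ∃ m m' : Fin 4, ge a b z z' (GI.P k l) ^ 3 * ge a b z z' (GI.Z i j) =
      ge a b z z' (GI.X i m) * ge a b z z' (GI.Y j m') := by
  have hX : ∃ m : Fin 4, ∀ q : C5, cu 0 q ^ (m : ℕ) * cu 1 q ^ (3 - (m : ℕ)) = cu k q ^ 3 := by
    fin_cases k
    · exact ⟨3, fun q => by simp⟩
    · exact ⟨0, fun q => by simp⟩
  have hY : ∃ m : Fin 4, ∀ q : C5, cw 0 q ^ (m : ℕ) * cw 1 q ^ (3 - (m : ℕ)) = cw l q ^ 3 := by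
    fin_cases l
    · exact ⟨3, fun q => by simp⟩
    · exact ⟨0, fun q => by simp⟩
  obtain ⟨m, hm⟩ := hX
  obtain ⟨m', hm'⟩ := hY
  refine ⟨m, m', Subtype.ext ?_⟩
  funext q
  change (cu k q.1 * cw l q.1) ^ 3 * (cx a z i q.1 * cy b z' j q.1) =
    (cu 0 q.1 ^ (m : ℕ) * cu 1 q.1 ^ (3 - (m : ℕ)) * cx a z i q.1) *
      (cw 0 q.1 ^ (m' : ℕ) * cw 1 q.1 ^ (3 - (m' : ℕ)) * cy b z' j q.1)
  rw [hm, hm']
  ring

lemma rel_P (k k' l l' : Fin 2) :
    ge a b z z' (GI.P k l) * ge a b z z' (GI.P k' l') =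
      ge a b z z' (GI.P k l') * ge a b z z' (GI.P k' l) := by
  apply Subtype.ext
  funext q
  change (cu k q.1 * cw l q.1) * (cu k' q.1 * cw l' q.1) =
    (cu k q.1 * cw l' q.1) * (cu k' q.1 * cw l q.1)
  ring

lemma kerD_top {x : Aring a b z z' →ₐ[ℂ] ℂ} {u w : Fin 2 → ℂ}
    (hP : ∀ k l, x (ge a b z z' (GI.P k l)) = u k * w l)
    (hl : ∀ i, u 0 - a i * u 1 ≠ 0) (hm : ∀ j, w 0 - b j * w 1 ≠ 0)
    {D : Aring a b z z' →ₗ[ℂ] ℂ} (hD : ∀ f g, D (f * g) = x f * D g + x g * D f)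
    {k₀ l₀ : Fin 2} (hk₀ : u k₀ ≠ 0) (hl₀ : w l₀ ≠ 0)
    (h0 : ∀ k l, D (ge a b z z' (GI.P k l)) = 0) (ht : D (ge a b z z' GI.t) = 0) : D = 0 := by
  have hX : ∀ i k, ge a b z z' (GI.X i k) ∈ kerD hD := by
    intro i k
    refine kerD_cancel hD (f := (ge a b z z' (GI.P 0 l₀) - a i • ge a b z z' (GI.P 1 l₀)) ^ 3)
      ?_ ?_ ?_
    · exact pow_mem (sub_mem (h0 0 l₀) (Subalgebra.smul_mem _ (h0 1 l₀) _)) 3
    · rw [rel_X]
      exact mul_mem (sub_mem ht (Subalgebra.smul_mem _ (one_mem _) _))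
        (mul_mem (pow_mem (h0 0 l₀) _) (pow_mem (h0 1 l₀) _))
    · rw [map_pow, map_sub, map_smul, hP, hP, smul_eq_mul]
      apply pow_ne_zero
      have : u 0 * w l₀ - a i * (u 1 * w l₀) = (u 0 - a i * u 1) * w l₀ := by ring
      rw [this]
      exact mul_ne_zero (hl i) hl₀
  have hY : ∀ j k, ge a b z z' (GI.Y j k) ∈ kerD hD := by
    intro j k
    refine kerD_cancel hD (f := (ge a b z z' (GI.P k₀ 0) - b j • ge a b z z' (GI.P k₀ 1)) ^ 3)
      ?_ ?_ ?_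
    · exact pow_mem (sub_mem (h0 k₀ 0) (Subalgebra.smul_mem _ (h0 k₀ 1) _)) 3
    · rw [rel_Y]
      exact mul_mem (sub_mem ht (Subalgebra.smul_mem _ (one_mem _) _))
        (mul_mem (pow_mem (h0 k₀ 0) _) (pow_mem (h0 k₀ 1) _))
    · rw [map_pow, map_sub, map_smul, hP, hP, smul_eq_mul]
      apply pow_ne_zero
      have : u k₀ * w 0 - b j * (u k₀ * w 1) = u k₀ * (w 0 - b j * w 1) := by ring
      rw [this]
      exact mul_ne_zero hk₀ (hm j)
  have hZ : ∀ i j, ge a b z z' (GI.Z i j) ∈ kerD hD := by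
    intro i j
    obtain ⟨m, m', h⟩ := rel_Z (a := a) (b := b) (z := z) (z' := z') i j k₀ l₀
    refine kerD_cancel hD (f := ge a b z z' (GI.P k₀ l₀) ^ 3) (pow_mem (h0 k₀ l₀) 3) ?_ ?_
    · rw [h]
      exact mul_mem (hX i m) (hY j m')
    · rw [map_pow, hP]
      exact pow_ne_zero 3 (mul_ne_zero hk₀ hl₀)
  have hall : ∀ g : GI, ge a b z z' g ∈ kerD hD := by
    intro g
    cases g with
    | P k l => exact h0 k l
    | t => exact ht
    | X i k => exact hX i k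
    | Y j k => exact hY j k
    | Z i j => exact hZ i j
  ext f
  obtain ⟨p, rfl⟩ := tan_exists_poly f
  change MvPolynomial.aeval (ge a b z z') p ∈ kerD hD
  induction p using MvPolynomial.induction_on with
  | C c => rw [MvPolynomial.aeval_C]; exact Subalgebra.algebraMap_mem _ c
  | add p q hp hq => rw [map_add]; exact add_mem hp hq
  | mul_X p i hp => rw [map_mul, MvPolynomial.aeval_X]; exact mul_mem hp (hall i)

theorem tan_le {x : Aring a b z z' →ₐ[ℂ] ℂ} {u w : Fin 2 → ℂ}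
    (hP : ∀ k l, x (ge a b z z' (GI.P k l)) = u k * w l)
    (hl : ∀ i, u 0 - a i * u 1 ≠ 0) (hm : ∀ j, w 0 - b j * w 1 ≠ 0) :
    Module.Finite ℂ (tangentSpace x) ∧ Module.finrank ℂ (tangentSpace x) ≤ 4 := by
  have hk : ∃ k, u k ≠ 0 := by
    by_contra hcon
    push Not at hcon
    exact hl 0 (by rw [hcon 0, hcon 1]; ring)
  have hw : ∃ l, w l ≠ 0 := by
    by_contra hcon
    push Not at hcon
    exact hm 0 (by rw [hcon 0, hcon 1]; ring)
  obtain ⟨k₀, hk₀⟩ := hk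
  obtain ⟨l₀, hl₀⟩ := hw
  let Φ : tangentSpace x →ₗ[ℂ] (Fin 4 → ℂ) :=
    { toFun := fun D => ![D.1 (ge a b z z' (GI.P k₀ l₀)), D.1 (ge a b z z' (GI.P k₀ (l₀ + 1))),
        D.1 (ge a b z z' (GI.P (k₀ + 1) l₀)), D.1 (ge a b z z' GI.t)]
      map_add' := by
        intro D E
        ext i
        fin_cases i <;> rfl
      map_smul' := by
        intro c D
        ext i
        fin_cases i <;> rfl }
  have hinj : Function.Injective Φ := by
    rw [← LinearMap.ker_eq_bot, LinearMap.ker_eq_bot']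
    intro D hΦ
    have hD : ∀ f g, D.1 (f * g) = x f * D.1 g + x g * D.1 f := D.2
    have h1 : D.1 (ge a b z z' (GI.P k₀ l₀)) = 0 := congrFun hΦ 0
    have h2 : D.1 (ge a b z z' (GI.P k₀ (l₀ + 1))) = 0 := congrFun hΦ 1
    have h3 : D.1 (ge a b z z' (GI.P (k₀ + 1) l₀)) = 0 := congrFun hΦ 2
    have h4 : D.1 (ge a b z z' GI.t) = 0 := congrFun hΦ 3
    have h5 : D.1 (ge a b z z' (GI.P (k₀ + 1) (l₀ + 1))) = 0 := by
      have h6 := congrArg D.1 (rel_P (a := a) (b := b) (z := z) (z' := z') k₀ (k₀ + 1) l₀ (l₀ + 1))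
      rw [hD, hD, h1, h2, h3, hP] at h6
      have h7 : u k₀ * w l₀ * D.1 (ge a b z z' (GI.P (k₀ + 1) (l₀ + 1))) = 0 := by
        linear_combination h6
      exact (mul_eq_zero.mp h7).resolve_left (mul_ne_zero hk₀ hl₀)
    have hall : ∀ k l, D.1 (ge a b z z' (GI.P k l)) = 0 := by
      have hc : ∀ k c : Fin 2, k = c ∨ k = c + 1 := by decide
      intro k l
      rcases hc k k₀ with rfl | rfl <;> rcases hc l l₀ with rfl | rfl
      · exact h1
      · exact h2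
      · exact h3
      · exact h5
    exact Subtype.ext (kerD_top hP hl hm hD hk₀ hl₀ hall h4)
  refine ⟨Module.Finite.of_injective Φ hinj, ?_⟩
  have := LinearMap.finrank_le_finrank_of_injective hinj
  simpa using this

end Pool.Agent.H43.FX
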