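import Pool.Agent.H43.FX.BDer
import Pool.Agent.H43.FX.SwapRing
import Pool.Agent.H43.FX.EvalR
import Pool.Agent.H43.FX.Tan
import Pool.Agent.H43.FX.ExpAut

/-!
# FX-GOOD : generic points are good

Proof.  Let `B` (`exists_B`), `R₀, R₁` (`exists_R`, `k = 0, 1`), `R'` (`exists_R'`, `k = 0`).
Values at `x` of `(P00, P01, P10, P11; t)` (`eval_R`, `eval_R'`, `eval_B`), with
`L = ∏ ℓ_i(u) ≠ 0`, `M = ∏ m_j(w) ≠ 0`:
`B : (0,0,0,0; L³M³)`;
`R₀` (moves `u₁`): `(0, 0, c w₀, c w₁; *)`, `c = u₀^13 M³ ≠ 0`;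
`R₁` (moves `u₀`): `(c' w₀, c' w₁, 0, 0; *)`, `c' = u₁^13 M³ ≠ 0`;
`R'` (moves `w₁`): `(0, e u₀, 0, e u₁; *)`, `e = w₀^13 L³ ≠ 0`.
These four functionals `valueAt x σ` belong to the tangent space and are linearly
independent: if `β B + γ R₀ + γ' R₁ + ε R' = 0`, the `P00` component gives `γ' c' w₀ = 0`, so
`γ' = 0`; the `P10` component gives `γ c w₀ = 0`, so `γ = 0`; the `P01` component gives
`ε e u₀ = 0`, so `ε = 0`; then `t` gives `β = 0`.  With `tan_le` the tangent space has dimension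
exactly `4` and is spanned by these four values.
-/

namespace Pool.Agent.H43.FX

open Set Metric Filter Topology Pool.Agent.H29.Flex

variable {a b z z' : Fin 4 → ℂ}

theorem valueAt_mem_tan {A : Type*} [CommRing A] [Algebra ℂ A] (x : A →ₐ[ℂ] ℂ)
    (σ : Derivation ℂ A A) : valueAt x σ ∈ tangentSpace x := by
  intro f g
  change x (σ (f * g)) = x f * x (σ g) + x g * x (σ f)
  rw [Derivation.leibniz, map_add, smul_eq_mul, smul_eq_mul, map_mul, map_mul]

theorem good_generic (hBa : HasBez a) (hBb : HasBez b) {x : Aring a b z z' →ₐ[ℂ] ℂ}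
    {u w : Fin 2 → ℂ} (hP : ∀ k l, x (ge a b z z' (GI.P k l)) = u k * w l)
    (hl : ∀ i, u 0 - a i * u 1 ≠ 0) (hm : ∀ j, w 0 - b j * w 1 ≠ 0) (hu0 : u 0 ≠ 0)
    (hu1 : u 1 ≠ 0) (hw0 : w 0 ≠ 0) : GoodPt 4 x := by
  obtain ⟨hfin, hle⟩ := tan_le hP hl hm
  obtain ⟨σB, hB1, hB2, hB3⟩ := exists_B a b z z'
  obtain ⟨σ0, h01, h02, h03⟩ := exists_R b z z' hBa 0
  obtain ⟨σ1, h11, h12, h13⟩ := exists_R b z z' hBa 1
  obtain ⟨σ', h'1, h'2, h'3⟩ := exists_R' a z z' hBb 0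
  have hL : (∏ i, (u 0 - a i * u 1)) ^ 3 ≠ 0 :=
    pow_ne_zero _ (Finset.prod_ne_zero_iff.2 fun i _ => hl i)
  have hM : (∏ j, (w 0 - b j * w 1)) ^ 3 ≠ 0 :=
    pow_ne_zero _ (Finset.prod_ne_zero_iff.2 fun j _ => hm j)
  -- the values
  have vB : x (σB (ge a b z z' GI.t)) =
      (∏ i, (u 0 - a i * u 1)) ^ 3 * (∏ j, (w 0 - b j * w 1)) ^ 3 := eval_B hP hB3
  have vB0 : ∀ k l, x (σB (ge a b z z' (GI.P k l))) = 0 := fun k l => by rw [hB2, map_zero]
  have v0z : ∀ l, x (σ0 (ge a b z z' (GI.P 0 l))) = 0 := fun l => by rw [h02, map_zero]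
  have v0 : ∀ l, x (σ0 (ge a b z z' (GI.P 1 l))) =
      u 0 ^ 13 * (∏ j, (w 0 - b j * w 1)) ^ 3 * w l := fun l => eval_R hP 0 l (h03 l)
  have v1z : ∀ l, x (σ1 (ge a b z z' (GI.P 1 l))) = 0 := fun l => by rw [h12, map_zero]
  have v1 : ∀ l, x (σ1 (ge a b z z' (GI.P 0 l))) =
      u 1 ^ 13 * (∏ j, (w 0 - b j * w 1)) ^ 3 * w l := fun l => eval_R hP 1 l (h13 l)
  have v'z : ∀ l, x (σ' (ge a b z z' (GI.P l 0))) = 0 := fun l => by rw [h'2, map_zero]
  have v' : ∀ l, x (σ' (ge a b z z' (GI.P l 1))) =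
      w 0 ^ 13 * (∏ i, (u 0 - a i * u 1)) ^ 3 * u l := fun l => eval_R' hP 0 l (h'3 l)
  let v : Fin 4 → (Aring a b z z' →ₗ[ℂ] ℂ) :=
    ![valueAt x σB, valueAt x σ0, valueAt x σ1, valueAt x σ']
  have hli : LinearIndependent ℂ v := by
    rw [Fintype.linearIndependent_iff]
    intro g hg
    have key : ∀ f : Aring a b z z',
        g 0 * x (σB f) + g 1 * x (σ0 f) + g 2 * x (σ1 f) + g 3 * x (σ' f) = 0 := by
      intro f
      have h := congrArg (fun φ : Aring a b z z' →ₗ[ℂ] ℂ => φ f) hg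
      simp only [Fin.sum_univ_four, LinearMap.add_apply, LinearMap.smul_apply, smul_eq_mul,
        LinearMap.zero_apply] at h
      exact h
    have e1 := key (ge a b z z' (GI.P 0 0))
    rw [vB0, v0z, v1, v'z] at e1
    have g2 : g 2 = 0 := by
      have h : g 2 * (u 1 ^ 13 * (∏ j, (w 0 - b j * w 1)) ^ 3 * w 0) = 0 := by
        linear_combination e1
      exact (mul_eq_zero.1 h).resolve_right (mul_ne_zero (mul_ne_zero (pow_ne_zero _ hu1) hM) hw0)
    have e2 := key (ge a b z z' (GI.P 1 0))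
    rw [vB0, v0, v1z, v'z] at e2
    have g1 : g 1 = 0 := by
      have h : g 1 * (u 0 ^ 13 * (∏ j, (w 0 - b j * w 1)) ^ 3 * w 0) = 0 := by
        linear_combination e2
      exact (mul_eq_zero.1 h).resolve_right (mul_ne_zero (mul_ne_zero (pow_ne_zero _ hu0) hM) hw0)
    have e3 := key (ge a b z z' (GI.P 0 1))
    rw [vB0, v0z, v1, v', g2] at e3
    have g3 : g 3 = 0 := by
      have h : g 3 * (w 0 ^ 13 * (∏ i, (u 0 - a i * u 1)) ^ 3 * u 0) = 0 := by
        linear_combination e3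
      exact (mul_eq_zero.1 h).resolve_right (mul_ne_zero (mul_ne_zero (pow_ne_zero _ hw0) hL) hu0)
    have e4 := key (ge a b z z' GI.t)
    rw [vB, g1, g2, g3] at e4
    have g0 : g 0 = 0 := by
      have h : g 0 * ((∏ i, (u 0 - a i * u 1)) ^ 3 * (∏ j, (w 0 - b j * w 1)) ^ 3) = 0 := by
        linear_combination e4
      exact (mul_eq_zero.1 h).resolve_right (mul_ne_zero hL hM)
    intro i
    fin_cases i
    · exact g0
    · exact g1
    · exact g2
    · exact g3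
  have hspan : Submodule.span ℂ (range v) ≤ tangentSpace x := by
    rw [Submodule.span_le]
    rintro _ ⟨i, rfl⟩
    fin_cases i
    · exact valueAt_mem_tan x σB
    · exact valueAt_mem_tan x σ0
    · exact valueAt_mem_tan x σ1
    · exact valueAt_mem_tan x σ'
  have hrank : Module.finrank ℂ (Submodule.span ℂ (range v)) = 4 := by
    rw [finrank_span_eq_card hli]
    rfl
  have heq : Submodule.span ℂ (range v) = tangentSpace x :=
    Submodule.eq_of_le_of_finrank_le hspan (by rw [hrank]; exact hle)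
  refine ⟨by rw [← heq]; exact hrank, ?_⟩
  rw [← heq, Submodule.span_le]
  rintro _ ⟨i, rfl⟩
  apply Submodule.subset_span
  fin_cases i
  · exact ⟨σB, hB1, rfl⟩
  · exact ⟨σ0, h01, rfl⟩
  · exact ⟨σ1, h11, rfl⟩
  · exact ⟨σ', h'1, rfl⟩

end Pool.Agent.H43.FX
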