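import Pool.Agent.H43.FX.Ring
import Pool.Agent.H43.FX.AAFacts

/-!
# FX-GRADE : the ring is graded by the degree in `κ`

Gauge values of the generators at `x = (κ, v, ω, t) ∈ D4` (`pt5 x = (v, 1, κω, κ, t)`):
`P 0 0 = vκω`, `P 0 1 = vκ`, `P 1 0 = κω`, `P 1 1 = κ`, `t`,
`X i k = v^k (t-z_i)/(v-a_i)³`, `Y j k = (κω)^k κ^{3-k} (t-z'_j)/(κ(ω-b_j))³ =
ω^k (t-z'_j)/(ω-b_j)³`, `Z i j = κ^{-3} (t-z_i)/(v-a_i)³ (t-z'_j)/(ω-b_j)³`.
* `grade` : `Algebra.adjoin_induction` (on the element of the subalgebra): each generator has a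
  single component; constants; sums: take `N = max`, add the components (extend by the zero
  function outside `Icc (-N) N`, `aa_zero`); products: `N = N₁ + N₂` and the convolution of the
  components (finite sums of `AA.mul`; sums of `AA` functions over a `Finset` are `AA`, by
  induction from `aa_zero`, `AA.add`).
* `ungrade` : induction on `AA`; `add`, `mul`: add, multiply the elements
  (`κ^{k+l} = κ^k κ^l` as `κ ≠ 0`).
* `laurent_zero` : multiply by `κ^N`: a polynomial vanishing at all `κ ≠ 0` is `0`.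
-/

namespace Pool.Agent.H43.FX

open Set Metric Filter Topology

/-- Laurent sums in `κ = x.1` with coefficients functions of `(v, ω, t) = x.2`. -/
noncomputable def lau (N : ℕ) (c : ℤ → ℂ × ℂ × ℂ → ℂ) (x : ℂ × ℂ × ℂ × ℂ) : ℂ :=
  ∑ k ∈ Finset.Icc (-(N : ℤ)) (N : ℤ), x.1 ^ k * c k x.2

variable {a b z z' : Fin 4 → ℂ}

/-- Functions on `D4` which are finite Laurent sums with coefficients in the classes `AA`. -/
def Gr (a b z z' : Fin 4 → ℂ) (F : ℂ × ℂ × ℂ × ℂ → ℂ) : Prop :=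
  ∃ (s : Finset ℤ) (φ : ℤ → ℂ × ℂ × ℂ → ℂ), (∀ k, AA a b z z' k (φ k)) ∧
    ∀ x ∈ D4 a b, F x = ∑ k ∈ s, x.1 ^ k * φ k x.2

theorem gr_single {F : ℂ × ℂ × ℂ × ℂ → ℂ} {k : ℤ} {φ : ℂ × ℂ × ℂ → ℂ}
    (h : AA a b z z' k φ) (hF : ∀ x ∈ D4 a b, F x = x.1 ^ k * φ x.2) : Gr a b z z' F := by
  refine ⟨{k}, fun j => if j = k then φ else fun _ => 0, fun j => ?_, fun x hx => ?_⟩
  · by_cases hj : j = k
    · simp only [hj, if_true]
      exact h
    · simp only [hj, if_false]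
      exact aa_zero j
  · rw [hF x hx, Finset.sum_singleton]
    simp

theorem gr_add {F G : ℂ × ℂ × ℂ × ℂ → ℂ} (hF : Gr a b z z' F) (hG : Gr a b z z' G) :
    Gr a b z z' (fun x => F x + G x) := by
  classical
  obtain ⟨s, φ, h1, h2⟩ := hF
  obtain ⟨t, ψ, h3, h4⟩ := hG
  refine ⟨s ∪ t, fun k p => (if k ∈ s then φ k p else 0) + (if k ∈ t then ψ k p else 0),
    fun k => ?_, fun x hx => ?_⟩
  · refine AA.add (f := fun p => if k ∈ s then φ k p else 0)
      (g := fun p => if k ∈ t then ψ k p else 0) ?_ ?_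
    · by_cases hk : k ∈ s
      · simp only [hk, if_true]
        exact h1 k
      · simp only [hk, if_false]
        exact aa_zero k
    · by_cases hk : k ∈ t
      · simp only [hk, if_true]
        exact h3 k
      · simp only [hk, if_false]
        exact aa_zero k
  · simp only [h2 x hx, h4 x hx, mul_add, Finset.sum_add_distrib, mul_ite, mul_zero]
    rw [Finset.sum_ite_mem, Finset.sum_ite_mem, Finset.union_inter_cancel_left,
      Finset.union_inter_cancel_right]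

theorem gr_zero : Gr a b z z' (fun _ => 0) :=
  ⟨∅, fun _ _ => 0, fun k => aa_zero k, fun x _ => by simp⟩

theorem gr_sum {ι : Type*} (s : Finset ι) {F : ι → ℂ × ℂ × ℂ × ℂ → ℂ}
    (h : ∀ i ∈ s, Gr a b z z' (F i)) : Gr a b z z' (fun x => ∑ i ∈ s, F i x) := by
  classical
  induction s using Finset.induction_on with
  | empty => simpa using gr_zero
  | insert i s hi ih =>
    simp only [Finset.sum_insert hi]
    exact gr_add (h i (Finset.mem_insert_self i s))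
      (ih fun j hj => h j (Finset.mem_insert_of_mem hj))

theorem gr_congr {F G : ℂ × ℂ × ℂ × ℂ → ℂ} (hF : Gr a b z z' F)
    (h : ∀ x ∈ D4 a b, G x = F x) : Gr a b z z' G := by
  obtain ⟨s, φ, h1, h2⟩ := hF
  exact ⟨s, φ, h1, fun x hx => by rw [h x hx, h2 x hx]⟩

theorem gr_mul {F G : ℂ × ℂ × ℂ × ℂ → ℂ} (hF : Gr a b z z' F) (hG : Gr a b z z' G) :
    Gr a b z z' (fun x => F x * G x) := by
  obtain ⟨s, φ, h1, h2⟩ := hF
  obtain ⟨t, ψ, h3, h4⟩ := hG
  have key : Gr a b z z' (fun x => ∑ k ∈ s, ∑ l ∈ t, x.1 ^ (k + l) * (φ k x.2 * ψ l x.2)) :=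
    gr_sum s fun k _ => gr_sum t fun l _ =>
      gr_single (AA.mul (h1 k) (h3 l)) fun x _ => rfl
  refine gr_congr key fun x hx => ?_
  rw [h2 x hx, h4 x hx, Finset.sum_mul_sum]
  refine Finset.sum_congr rfl fun k _ => Finset.sum_congr rfl fun l _ => ?_
  rw [zpow_add₀ hx.1]
  ring

theorem gen_val (g : GI) {x : ℂ × ℂ × ℂ × ℂ} (hx : x ∈ D4 a b) :
    res a b (rs a b (gf a b z z' g)) x = gf a b z z' g (pt5 x) := by
  rw [res_eq _ hx]
  rfl

theorem val_P00 {x : ℂ × ℂ × ℂ × ℂ} :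
    gf a b z z' (GI.P 0 0) (pt5 x) = x.1 ^ (1 : ℤ) * (x.2.1 * x.2.2.1) := by
  simp only [gf, cu, cw, pt5, if_true, zpow_one]
  ring

theorem val_P01 {x : ℂ × ℂ × ℂ × ℂ} :
    gf a b z z' (GI.P 0 1) (pt5 x) = x.1 ^ (1 : ℤ) * x.2.1 := by
  simp only [gf, cu, cw, pt5, if_true, zpow_one, Fin.one_eq_zero_iff, Nat.reduceEqDiff, if_false]
  ring

theorem val_P10 {x : ℂ × ℂ × ℂ × ℂ} :
    gf a b z z' (GI.P 1 0) (pt5 x) = x.1 ^ (1 : ℤ) * x.2.2.1 := by
  simp only [gf, cu, cw, pt5, if_true, zpow_one, Fin.one_eq_zero_iff, Nat.reduceEqDiff, if_false]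
  ring

theorem val_P11 {x : ℂ × ℂ × ℂ × ℂ} :
    gf a b z z' (GI.P 1 1) (pt5 x) = x.1 ^ (1 : ℤ) * 1 := by
  simp only [gf, cu, cw, pt5, zpow_one, Fin.one_eq_zero_iff, Nat.reduceEqDiff, if_false]
  ring

theorem val_t {x : ℂ × ℂ × ℂ × ℂ} :
    gf a b z z' GI.t (pt5 x) = x.1 ^ (0 : ℤ) * x.2.2.2 := by
  simp only [gf, ct, pt5, zpow_zero, one_mul]

theorem val_X (i k : Fin 4) {x : ℂ × ℂ × ℂ × ℂ} :
    gf a b z z' (GI.X i k) (pt5 x) =
      x.1 ^ (0 : ℤ) * (x.2.1 ^ (k : ℕ) * ((x.2.2.2 - z i) / (x.2.1 - a i) ^ 3)) := by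
  simp only [gf, cu, cx, ct, lf, pt5, zpow_zero, one_mul, if_true, Fin.one_eq_zero_iff,
    Nat.reduceEqDiff, if_false, one_pow, mul_one]

theorem val_Y (j k : Fin 4) {x : ℂ × ℂ × ℂ × ℂ} (hx : x.1 ≠ 0) :
    gf a b z z' (GI.Y j k) (pt5 x) =
      x.1 ^ (0 : ℤ) * (x.2.2.1 ^ (k : ℕ) * ((x.2.2.2 - z' j) / (x.2.2.1 - b j) ^ 3)) := by
  simp only [gf, cw, cy, ct, mf, pt5, zpow_zero, one_mul, if_true, Fin.one_eq_zero_iff,
    Nat.reduceEqDiff, if_false]
  have h1 : x.1 * x.2.2.1 - b j * x.1 = x.1 * (x.2.2.1 - b j) := by ring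
  have h2 : x.1 ^ (k : ℕ) * x.1 ^ (3 - (k : ℕ)) = x.1 ^ 3 := by
    rw [← pow_add]
    congr 1
    omega
  rw [h1, mul_pow, mul_pow, div_mul_eq_div_div_swap]
  calc x.1 ^ (k : ℕ) * x.2.2.1 ^ (k : ℕ) * x.1 ^ (3 - (k : ℕ)) *
        ((x.2.2.2 - z' j) / (x.2.2.1 - b j) ^ 3 / x.1 ^ 3)
      = x.2.2.1 ^ (k : ℕ) * ((x.2.2.2 - z' j) / (x.2.2.1 - b j) ^ 3) *
        ((x.1 ^ (k : ℕ) * x.1 ^ (3 - (k : ℕ))) / x.1 ^ 3) := by ring
    _ = _ := by rw [h2, div_self (pow_ne_zero 3 hx), mul_one]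

theorem val_Z (i j : Fin 4) {x : ℂ × ℂ × ℂ × ℂ} :
    gf a b z z' (GI.Z i j) (pt5 x) =
      x.1 ^ (-3 : ℤ) * ((x.2.2.2 - z i) / (x.2.1 - a i) ^ 3 *
        ((x.2.2.2 - z' j) / (x.2.2.1 - b j) ^ 3)) := by
  simp only [gf, cx, cy, ct, lf, mf, pt5, mul_one]
  have h1 : x.1 * x.2.2.1 - b j * x.1 = x.1 * (x.2.2.1 - b j) := by ring
  have h2 : x.1 ^ (-3 : ℤ) = (x.1 ^ 3)⁻¹ := by
    rw [zpow_neg]
    rfl
  rw [h1, mul_pow, div_mul_eq_div_div_swap, h2]
  ring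

theorem gr_gen (g : GI) : Gr a b z z' (res a b (rs a b (gf a b z z' g))) := by
  cases g with
  | P k l =>
    fin_cases k <;> fin_cases l
    · exact gr_single AA.kapvw fun x hx => (gen_val _ hx).trans val_P00
    · exact gr_single AA.kapv fun x hx => (gen_val _ hx).trans val_P01
    · exact gr_single AA.kapw fun x hx => (gen_val _ hx).trans val_P10
    · exact gr_single AA.kap fun x hx => (gen_val _ hx).trans val_P11
  | t => exact gr_single AA.t fun x hx => (gen_val _ hx).trans val_t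
  | X i k => exact gr_single (AA.X i k) fun x hx => (gen_val _ hx).trans (val_X i k)
  | Y j k => exact gr_single (AA.Y j k) fun x hx => (gen_val _ hx).trans (val_Y j k hx.1)
  | Z i j => exact gr_single (AA.Z i j) fun x hx => (gen_val _ hx).trans (val_Z i j)

theorem gr_mem {f : U5 a b → ℂ} (hf : f ∈ Aring a b z z') : Gr a b z z' (res a b f) := by
  unfold Aring at hf
  induction hf using Algebra.adjoin_induction with
  | mem f hf =>
    obtain ⟨g, rfl⟩ := hf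
    exact gr_gen g
  | algebraMap c =>
    refine gr_single (AA.const c) fun x hx => ?_
    rw [res_eq _ hx, zpow_zero, one_mul]
    rfl
  | add f g _ _ hf hg =>
    refine gr_congr (gr_add hf hg) fun x hx => ?_
    rw [res_eq _ hx, res_eq _ hx, res_eq _ hx]
    rfl
  | mul f g _ _ hf hg =>
    refine gr_congr (gr_mul hf hg) fun x hx => ?_
    rw [res_eq _ hx, res_eq _ hx, res_eq _ hx]
    rfl

theorem grade (f : Aring a b z z') : ∃ (N : ℕ) (φ : ℤ → ℂ × ℂ × ℂ → ℂ),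
    (∀ k, AA a b z z' k (φ k)) ∧ ∀ x ∈ D4 a b, res a b (f : U5 a b → ℂ) x = lau N φ x := by
  classical
  obtain ⟨s, φ, h1, h2⟩ := gr_mem f.2
  refine ⟨s.sup Int.natAbs, fun k p => if k ∈ s then φ k p else 0, fun k => ?_, fun x hx => ?_⟩
  · by_cases hk : k ∈ s
    · simp only [hk, if_true]
      exact h1 k
    · simp only [hk, if_false]
      exact aa_zero k
  · rw [h2 x hx]
    unfold lau
    simp only [mul_ite, mul_zero]
    rw [Finset.sum_ite_mem]
    congr 1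
    symm
    rw [Finset.inter_eq_right]
    intro k hk
    have h3 : k.natAbs ≤ s.sup Int.natAbs := Finset.le_sup (f := Int.natAbs) hk
    rw [Finset.mem_Icc]
    omega

theorem ungrade {k : ℤ} {φ : ℂ × ℂ × ℂ → ℂ} (h : AA a b z z' k φ) :
    ∃ f : Aring a b z z', ∀ x ∈ D4 a b, res a b (f : U5 a b → ℂ) x = x.1 ^ k * φ x.2 := by
  have hgen : ∀ (g : GI) (k : ℤ) (φ : ℂ × ℂ × ℂ → ℂ),
      (∀ x ∈ D4 a b, gf a b z z' g (pt5 x) = x.1 ^ k * φ x.2) →
      ∃ f : Aring a b z z', ∀ x ∈ D4 a b, res a b (f : U5 a b → ℂ) x = x.1 ^ k * φ x.2 :=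
    fun g k φ h => ⟨ge a b z z' g, fun x hx => (gen_val g hx).trans (h x hx)⟩
  induction h with
  | const c =>
    refine ⟨algebraMap ℂ _ c, fun x hx => ?_⟩
    rw [res_eq _ hx, zpow_zero, one_mul]
    rfl
  | kap => exact hgen (GI.P 1 1) _ (fun _ => 1) fun x _ => val_P11
  | kapv => exact hgen (GI.P 0 1) _ (fun p => p.1) fun x _ => val_P01
  | kapw => exact hgen (GI.P 1 0) _ (fun p => p.2.1) fun x _ => val_P10
  | kapvw => exact hgen (GI.P 0 0) _ (fun p => p.1 * p.2.1) fun x _ => val_P00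
  | t => exact hgen GI.t _ (fun p => p.2.2) fun x _ => val_t
  | X i k =>
    exact hgen (GI.X i k) _
      (fun p => p.1 ^ (k : ℕ) * ((p.2.2 - z i) / (p.1 - a i) ^ 3)) fun x _ => val_X i k
  | Y j k =>
    exact hgen (GI.Y j k) _
      (fun p => p.2.1 ^ (k : ℕ) * ((p.2.2 - z' j) / (p.2.1 - b j) ^ 3)) fun x hx => val_Y j k hx.1
  | Z i j =>
    exact hgen (GI.Z i j) _ (fun p => (p.2.2 - z i) / (p.1 - a i) ^ 3 *
      ((p.2.2 - z' j) / (p.2.1 - b j) ^ 3)) fun x _ => val_Z i j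
  | add _ _ hf hg =>
    obtain ⟨f, hf⟩ := hf
    obtain ⟨g, hg⟩ := hg
    refine ⟨f + g, fun x hx => ?_⟩
    rw [mul_add, ← hf x hx, ← hg x hx, res_eq _ hx, res_eq _ hx, res_eq _ hx]
    rfl
  | mul _ _ hf hg =>
    obtain ⟨f, hf⟩ := hf
    obtain ⟨g, hg⟩ := hg
    refine ⟨f * g, fun x hx => ?_⟩
    rw [zpow_add₀ hx.1, mul_mul_mul_comm, ← hf x hx, ← hg x hx, res_eq _ hx, res_eq _ hx,
      res_eq _ hx]
    rfl
  | congr _ he hf =>
    obtain ⟨f, hf⟩ := hf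
    exact ⟨f, fun x hx => by rw [hf x hx, he hx.2]⟩

theorem laurent_zero {N : ℕ} {c : ℤ → ℂ}
    (h : ∀ κ : ℂ, κ ≠ 0 → ∑ k ∈ Finset.Icc (-(N : ℤ)) (N : ℤ), κ ^ k * c k = 0) :
    ∀ k ∈ Finset.Icc (-(N : ℤ)) (N : ℤ), c k = 0 := by
  classical
  intro k₀ hk₀
  set P : Polynomial ℂ := ∑ k ∈ Finset.Icc (-(N : ℤ)) (N : ℤ),
    Polynomial.C (c k) * Polynomial.X ^ (k + N).toNat with hP
  have hP0 : P = 0 := by
    apply Polynomial.eq_zero_of_infinite_isRoot
    apply Set.Infinite.mono (s := {0}ᶜ)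
    · intro κ hκ
      have hκ0 : κ ≠ 0 := hκ
      rw [Set.mem_ofPred_eq, Polynomial.IsRoot.def, hP, Polynomial.eval_finsetSum]
      have h1 : ∀ k ∈ Finset.Icc (-(N : ℤ)) (N : ℤ),
          (Polynomial.C (c k) * Polynomial.X ^ (k + N).toNat).eval κ =
            κ ^ N * (κ ^ k * c k) := by
        intro k hk
        rw [Finset.mem_Icc] at hk
        simp only [Polynomial.eval_mul, Polynomial.eval_C, Polynomial.eval_pow,
          Polynomial.eval_X]
        have h2 : κ ^ (k + N).toNat = κ ^ k * κ ^ N := by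
          rw [← zpow_natCast κ (k + N).toNat, Int.toNat_of_nonneg (by omega), zpow_add₀ hκ0,
            zpow_natCast]
        rw [h2]
        ring
      rw [Finset.sum_congr rfl h1, ← Finset.mul_sum, h κ hκ0, mul_zero]
    · exact (Set.finite_singleton (0 : ℂ)).infinite_compl
  have h3 : P.coeff (k₀ + N).toNat = c k₀ := by
    rw [hP, Polynomial.finsetSum_coeff, Finset.sum_eq_single k₀]
    · simp
    · intro k hk hne
      rw [Finset.mem_Icc] at hk hk₀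
      rw [Polynomial.coeff_C_mul, Polynomial.coeff_X_pow, if_neg, mul_zero]
      omega
    · intro hn
      exact absurd hk₀ hn
  rw [← h3, hP0, Polynomial.coeff_zero]

end Pool.Agent.H43.FX
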