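import Pool.Agent.H43.FX.Defs

/-!
# FX-ODE : holomorphic differential equations on a disc of controlled radius

Proof (Picard iteration).  `w⁰ = w₀` and `wⁿ⁺¹(x) = w₀ + ∫_{x₀}^x f(ξ, wⁿ(ξ)) dξ`, i.e.
`wⁿ⁺¹ = w₀ +` the primitive, vanishing at `x₀`, of the holomorphic function
`ξ ↦ f(ξ, wⁿ ξ)` on the ball (holomorphic functions on a disc with values in a complex Banach
space have primitives: see `Mathlib/Analysis/Complex/HasPrimitives.lean`,
`DifferentiableOn.isExactOn_ball`; or define it by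
`∫ τ in 0..1, (x - x₀) • f(x₀ + τ(x-x₀), ...)` and use the Cauchy theorem).  By the mean
value inequality (`Convex.norm_image_sub_le_of_norm_hasDerivWithin_le`)
`‖wⁿ⁺¹ x - w₀‖ ≤ K ‖x - x₀‖ < R`, so the iteration is well defined, and
`sup ‖wⁿ⁺¹ - wⁿ‖ ≤ (L r) sup ‖wⁿ - wⁿ⁻¹‖ ≤ K r (L r)ⁿ`, so `wⁿ` converges uniformly on the ball
(`L r < 1`) to `w`; the limit is differentiable (`TendstoLocallyUniformlyOn.differentiableOn`),
the derivatives converge locally uniformly (`TendstoLocallyUniformlyOn.deriv`), and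
`deriv wⁿ⁺¹ x = f(x, wⁿ x) → f(x, w x)`.  (`‖w x - w₀‖ ≤ K‖x - x₀‖ < R` again.)
The case `f` with values in a general complete `E` is needed (`E = ℂ`, `ℂ × ℂ`, and products).
-/

namespace Pool.Agent.H43.FX

open Set Metric Filter Topology

section

variable {E : Type*} [NormedAddCommGroup E] [NormedSpace ℂ E] [CompleteSpace E]

private structure Good (f : ℂ × E → E) (x₀ : ℂ) (w₀ : E) (r R : ℝ) (w : ℂ → E) : Prop where
  diff : DifferentiableOn ℂ w (ball x₀ r)
  mem : ∀ x ∈ ball x₀ r, w x ∈ ball w₀ R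
  val : w x₀ = w₀

private lemma step_exists {f : ℂ × E → E} {x₀ : ℂ} {w₀ : E} {r R K : ℝ} (hr : 0 < r)
    (hR : 0 < R) (hf : DifferentiableOn ℂ f (ball x₀ r ×ˢ ball w₀ R))
    (hK : ∀ p ∈ ball x₀ r ×ˢ ball w₀ R, ‖f p‖ ≤ K) (hKR : K * r < R)
    {w : ℂ → E} (hw : Good f x₀ w₀ r R w) :
    ∃ g : ℂ → E, Good f x₀ w₀ r R g ∧ ∀ x ∈ ball x₀ r, HasDerivAt g (f (x, w x)) x := by
  have h1 : DifferentiableOn ℂ (fun x => f (x, w x)) (ball x₀ r) := by
    refine hf.comp (differentiableOn_id.prodMk hw.diff) ?_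
    intro x hx
    exact ⟨hx, hw.mem x hx⟩
  obtain ⟨g, hg0, hg⟩ := h1.isExactOn_ball.with_val_at x₀ w₀
  refine ⟨g, ⟨fun x hx => (hg x hx).differentiableAt.differentiableWithinAt, ?_, hg0⟩, hg⟩
  intro x hx
  have hx0 : x₀ ∈ ball x₀ r := mem_ball_self hr
  have hK0 : 0 ≤ K := (norm_nonneg _).trans (hK (x₀, w₀) ⟨hx0, mem_ball_self hR⟩)
  have h2 : ‖g x - g x₀‖ ≤ K * ‖x - x₀‖ :=
    (convex_ball x₀ r).norm_image_sub_le_of_norm_hasDerivWithin_le
      (fun y hy => (hg y hy).hasDerivWithinAt) (fun y hy => hK _ ⟨hy, hw.mem y hy⟩) hx0 hx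
  rw [mem_ball, dist_eq_norm, ← hg0]
  have h3 : ‖x - x₀‖ ≤ r := by
    rw [← dist_eq_norm]
    exact (mem_ball.1 hx).le
  calc ‖g x - g x₀‖ ≤ K * ‖x - x₀‖ := h2
    _ ≤ K * r := mul_le_mul_of_nonneg_left h3 hK0
    _ < R := hKR

end

theorem hol_ode {E : Type*} [NormedAddCommGroup E] [NormedSpace ℂ E] [CompleteSpace E]
    {f : ℂ × E → E} {x₀ : ℂ} {w₀ : E} {r R K L : ℝ} (hr : 0 < r) (hR : 0 < R)
    (hf : DifferentiableOn ℂ f (ball x₀ r ×ˢ ball w₀ R))
    (hK : ∀ p ∈ ball x₀ r ×ˢ ball w₀ R, ‖f p‖ ≤ K)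
    (hL : ∀ x ∈ ball x₀ r, ∀ w ∈ ball w₀ R, ∀ w' ∈ ball w₀ R,
      ‖f (x, w) - f (x, w')‖ ≤ L * ‖w - w'‖)
    (hKR : K * r < R) (hLr : L * r < 1) :
    ∃ w : ℂ → E, w x₀ = w₀ ∧
      ∀ x ∈ ball x₀ r, w x ∈ ball w₀ R ∧ HasDerivAt w (f (x, w x)) x := by
  have hx0 : x₀ ∈ ball x₀ r := mem_ball_self hr
  have hK0 : 0 ≤ K := (norm_nonneg _).trans (hK (x₀, w₀) ⟨hx0, mem_ball_self hR⟩)
  -- we may assume `0 ≤ L`
  obtain ⟨L', hL0', hL', hLr'⟩ : ∃ L' : ℝ, 0 ≤ L' ∧ (∀ x ∈ ball x₀ r, ∀ w ∈ ball w₀ R,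
      ∀ w' ∈ ball w₀ R, ‖f (x, w) - f (x, w')‖ ≤ L' * ‖w - w'‖) ∧ L' * r < 1 := by
    refine ⟨max L 0, le_max_right _ _, fun x hx w hw w' hw' => ?_, ?_⟩
    · exact (hL x hx w hw w' hw').trans
        (mul_le_mul_of_nonneg_right (le_max_left _ _) (norm_nonneg _))
    · rcases max_choice L 0 with h | h
      · rw [h]; exact hLr
      · rw [h, zero_mul]; exact one_pos
  choose! nxt hnxt hder using fun (w : ℂ → E) (hw : Good f x₀ w₀ r R w) =>
    step_exists hr hR hf hK hKR hw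
  let s : ℕ → ℂ → E := fun n => nxt^[n] (fun _ => w₀)
  have hs0 : Good f x₀ w₀ r R (s 0) :=
    ⟨differentiableOn_const _, fun _ _ => mem_ball_self hR, rfl⟩
  have hss : ∀ n, s (n + 1) = nxt (s n) := fun n => Function.iterate_succ_apply' _ _ _
  have hs : ∀ n, Good f x₀ w₀ r R (s n) := by
    intro n
    induction n with
    | zero => exact hs0
    | succ n ih => rw [hss]; exact hnxt _ ih
  have hsd : ∀ n, ∀ x ∈ ball x₀ r, HasDerivAt (s (n + 1)) (f (x, s n x)) x := by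
    intro n x hx
    rw [hss]
    exact hder _ (hs n) x hx
  have hbd : ∀ n, ∀ x ∈ ball x₀ r, ‖s n x - w₀‖ ≤ K * r := by
    intro n x hx
    rcases n with _ | n
    · change ‖w₀ - w₀‖ ≤ _
      rw [sub_self, norm_zero]
      exact mul_nonneg hK0 hr.le
    · have h2 : ‖s (n + 1) x - s (n + 1) x₀‖ ≤ K * ‖x - x₀‖ :=
        (convex_ball x₀ r).norm_image_sub_le_of_norm_hasDerivWithin_le
          (fun y hy => (hsd n y hy).hasDerivWithinAt)
          (fun y hy => hK _ ⟨hy, (hs n).mem y hy⟩) hx0 hx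
      rw [(hs (n + 1)).val] at h2
      refine h2.trans (mul_le_mul_of_nonneg_left ?_ hK0)
      rw [← dist_eq_norm]
      exact (mem_ball.1 hx).le
  have hcon : ∀ n, ∀ x ∈ ball x₀ r, ‖s (n + 1) x - s n x‖ ≤ K * r * (L' * r) ^ n := by
    intro n
    induction n with
    | zero =>
      intro x hx
      rw [pow_zero, mul_one]
      exact hbd 1 x hx
    | succ n ih =>
      intro x hx
      have h2 : ‖(s (n + 2) x - s (n + 1) x) - (s (n + 2) x₀ - s (n + 1) x₀)‖ ≤
          (L' * (K * r * (L' * r) ^ n)) * ‖x - x₀‖ := by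
        refine (convex_ball x₀ r).norm_image_sub_le_of_norm_hasDerivWithin_le
          (f := fun y => s (n + 2) y - s (n + 1) y)
          (fun y hy => ((hsd (n + 1) y hy).sub (hsd n y hy)).hasDerivWithinAt)
          (fun y hy => ?_) hx0 hx
        exact (hL' y hy _ ((hs (n + 1)).mem y hy) _ ((hs n).mem y hy)).trans
          (mul_le_mul_of_nonneg_left (ih y hy) hL0')
      rw [(hs (n + 2)).val, (hs (n + 1)).val, sub_self, sub_zero] at h2
      have h3 : ‖x - x₀‖ ≤ r := by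
        rw [← dist_eq_norm]
        exact (mem_ball.1 hx).le
      calc ‖s (n + 1 + 1) x - s (n + 1) x‖ ≤ (L' * (K * r * (L' * r) ^ n)) * ‖x - x₀‖ := h2
        _ ≤ (L' * (K * r * (L' * r) ^ n)) * r :=
          mul_le_mul_of_nonneg_left h3 (by positivity)
        _ = K * r * (L' * r) ^ (n + 1) := by ring
  have hdist : ∀ x ∈ ball x₀ r, ∀ n, dist (s n x) (s (n + 1) x) ≤ K * r * (L' * r) ^ n := by
    intro x hx n
    rw [dist_comm, dist_eq_norm]
    exact hcon n x hx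
  have hlim : ∀ x : ℂ, ∃ y : E, x ∈ ball x₀ r → Tendsto (fun n => s n x) atTop (𝓝 y) := by
    intro x
    by_cases hx : x ∈ ball x₀ r
    · obtain ⟨y, hy⟩ := cauchySeq_tendsto_of_complete
        (cauchySeq_of_le_geometric (L' * r) (K * r) hLr' (hdist x hx))
      exact ⟨y, fun _ => hy⟩
    · exact ⟨w₀, fun h => absurd h hx⟩
  choose w hw using hlim
  have hun : TendstoUniformlyOn s w atTop (ball x₀ r) := by
    rw [Metric.tendstoUniformlyOn_iff]
    intro ε hε
    have h1 : Tendsto (fun n : ℕ => K * r * (L' * r) ^ n / (1 - L' * r)) atTop (𝓝 0) := by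
      have h2 := ((tendsto_pow_atTop_nhds_zero_of_lt_one (by positivity) hLr').const_mul
        (K * r)).div_const (1 - L' * r)
      simpa using h2
    filter_upwards [h1.eventually (gt_mem_nhds hε)] with n hn x hx
    rw [dist_comm]
    exact (dist_le_of_le_geometric_of_tendsto (L' * r) (K * r) hLr' (hdist x hx)
      (hw x hx) n).trans_lt hn
  have hopen : IsOpen (ball x₀ r) := isOpen_ball
  have hloc := hun.tendstoLocallyUniformlyOn
  have hwd : DifferentiableOn ℂ w (ball x₀ r) :=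
    hloc.differentiableOn (Eventually.of_forall fun n => (hs n).diff) hopen
  have hdl := hloc.deriv (Eventually.of_forall fun n => (hs n).diff) hopen
  have hwmem : ∀ x ∈ ball x₀ r, w x ∈ ball w₀ R := by
    intro x hx
    rw [mem_ball, dist_eq_norm]
    have h1 : Tendsto (fun n => ‖s n x - w₀‖) atTop (𝓝 ‖w x - w₀‖) :=
      ((hw x hx).sub_const w₀).norm
    exact (le_of_tendsto h1 (Eventually.of_forall fun n => hbd n x hx)).trans_lt hKR
  refine ⟨w, ?_, fun x hx => ⟨hwmem x hx, ?_⟩⟩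
  · have h1 : Tendsto (fun n => s n x₀) atTop (𝓝 w₀) := by
      have : (fun n => s n x₀) = fun _ => w₀ := funext fun n => (hs n).val
      rw [this]
      exact tendsto_const_nhds
    exact tendsto_nhds_unique (hw x₀ hx0) h1
  · have h1 : DifferentiableAt ℂ w x := (hwd x hx).differentiableAt (hopen.mem_nhds hx)
    have h2 : Tendsto (fun n => deriv (s n) x) atTop (𝓝 (deriv w x)) :=
      hdl.tendsto_at hx
    have h3 : Tendsto (fun n => deriv (s (n + 1)) x) atTop (𝓝 (f (x, w x))) := by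
      have h4 : (fun n => deriv (s (n + 1)) x) = fun n => f (x, s n x) :=
        funext fun n => (hsd n x hx).deriv
      rw [h4]
      have h5 : ContinuousAt f (x, w x) :=
        hf.continuousOn.continuousAt
          ((hopen.prod isOpen_ball).mem_nhds ⟨hx, hwmem x hx⟩)
      exact h5.tendsto.comp (Tendsto.prodMk_nhds tendsto_const_nhds (hw x hx))
    have h6 := tendsto_nhds_unique ((tendsto_add_atTop_iff_nat 1).2 h2) h3
    rw [← h6]
    exact h1.hasDerivAt

end Pool.Agent.H43.FX
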