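import Pool.Agent.H43.FX.Defs

/-!
# FX-RAT : toolkit for the classes `RatX P 𝒦`

All the statements are proved by `Algebra.adjoin_induction`.
* `ratx_restrict` : generators: `x ↦ c` gives a constant, `(x-d)⁻¹` gives the constant
  `(c-d)⁻¹`, `k` gives `k`.
* `ratx_div` (`c ∉ P`): the generator `x = c + (x-c)·1`; `(x-d)⁻¹ = (c-d)⁻¹ +
  (x-c)·(-(c-d)⁻¹ (x-d)⁻¹)` for `x ≠ d`, `d ∈ P`; `k = k + (x-c)·0`; for a product
  `f g = f_c g_c + (x-c)(f₁ g + f_c g₁)` where `f_c` (pulled back from `ratx_restrict`) is in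
  the class.
* `ratx_pole` (`c ∈ P`): `N = 0` for all generators except `(x-c)⁻¹` (`N = 1`, `fh = 1`);
  sums: common `N`; products: add the `N`.
* `ratx_analytic` : generators are analytic at `(x,y)`, `x ∉ P`, `y ∈ U`.
* `kt_iff`, `kt_analytic`, `rw_analytic`, `rvw_analytic` : consequences.
* `ratx_tdiv2`, `ratx_tdiv3` : division by `t - z` in the last variable; for `Kt`:
  `p(t) = p(z) + (t-z) p₁(t)` (`Polynomial.X_sub_C_dvd_sub_C_eval` or induction); then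
  `RatX P Kt`, then `RatX P (RatX Q Kt)` by `adjoin_induction` (it is convenient to prove a
  general lemma for `RatX P 𝒦` assuming that `𝒦` has division along `y ↦ r y`, where
  `r : E → E` replaces `t` by `z`).
* `rvw_swap` : `adjoin_induction` twice.
-/

namespace Pool.Agent.H43.FX

open Set Metric Filter Topology

section

variable {E : Type*} {P P' : Set ℂ} {𝒦 : Subalgebra ℂ (E → ℂ)} {f : ℂ × E → ℂ}

theorem ratx_fst : (fun p : ℂ × E => p.1) ∈ RatX P 𝒦 :=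
  Algebra.subset_adjoin (Or.inl (Or.inl rfl))

theorem ratx_inv {c : ℂ} (hc : c ∈ P) : (fun p : ℂ × E => (p.1 - c)⁻¹) ∈ RatX P 𝒦 :=
  Algebra.subset_adjoin (Or.inl (Or.inr ⟨c, hc, rfl⟩))

theorem ratx_pull {k : E → ℂ} (hk : k ∈ 𝒦) : (fun p : ℂ × E => k p.2) ∈ RatX P 𝒦 :=
  Algebra.subset_adjoin (Or.inr ⟨k, hk, rfl⟩)

theorem ratx_const (c : ℂ) : (fun _ : ℂ × E => c) ∈ RatX P 𝒦 :=
  (RatX P 𝒦).algebraMap_mem c

/-- Induction principle for `RatX`. -/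
theorem ratx_ind {motive : (ℂ × E → ℂ) → Prop} (hf : f ∈ RatX P 𝒦)
    (fst : motive fun p => p.1) (inv : ∀ c ∈ P, motive fun p => (p.1 - c)⁻¹)
    (pull : ∀ k ∈ 𝒦, motive fun p => k p.2)
    (add : ∀ g h, g ∈ RatX P 𝒦 → h ∈ RatX P 𝒦 → motive g → motive h → motive fun p => g p + h p)
    (mul : ∀ g h, g ∈ RatX P 𝒦 → h ∈ RatX P 𝒦 → motive g → motive h → motive fun p => g p * h p) :
    motive f := by
  unfold RatX at hf
  induction hf using Algebra.adjoin_induction with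
  | mem g hg =>
    rcases hg with (hg | ⟨c, hc, rfl⟩) | ⟨k, hk, rfl⟩
    · rw [mem_singleton_iff.1 hg]
      exact fst
    · exact inv c hc
    · exact pull k hk
  | algebraMap r => exact pull _ (𝒦.algebraMap_mem r)
  | add g h hg hh h1 h2 => exact add g h hg hh h1 h2
  | mul g h hg hh h1 h2 => exact mul g h hg hh h1 h2

theorem ratx_mono (h : P ⊆ P') : RatX P 𝒦 ≤ RatX P' 𝒦 := by
  intro f hf
  refine ratx_ind hf ratx_fst (fun c hc => ratx_inv (h hc)) (fun k hk => ratx_pull hk)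
    (fun g h _ _ h1 h2 => (RatX P' 𝒦).add_mem h1 h2)
    (fun g h _ _ h1 h2 => (RatX P' 𝒦).mul_mem h1 h2)

theorem ratx_restrict (hf : f ∈ RatX P 𝒦) (c : ℂ) : (fun y => f (c, y)) ∈ 𝒦 := by
  refine ratx_ind (motive := fun f => (fun y => f (c, y)) ∈ 𝒦) hf (𝒦.algebraMap_mem c)
    (fun d _ => 𝒦.algebraMap_mem (c - d)⁻¹) (fun k hk => hk)
    (fun g h _ _ h1 h2 => 𝒦.add_mem h1 h2)
    (fun g h _ _ h1 h2 => 𝒦.mul_mem h1 h2)

theorem ratx_div (hf : f ∈ RatX P 𝒦) {c : ℂ} (hc : c ∉ P) :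
    ∃ f₁ ∈ RatX P 𝒦, ∀ x ∉ P, ∀ y, f (x, y) = f (c, y) + (x - c) * f₁ (x, y) := by
  refine ratx_ind (motive := fun f => ∃ f₁ ∈ RatX P 𝒦, ∀ x ∉ P, ∀ y,
    f (x, y) = f (c, y) + (x - c) * f₁ (x, y)) hf ?_ ?_ ?_ ?_ ?_
  · exact ⟨fun _ => 1, ratx_const 1, fun x _ y => by simp⟩
  · intro d hd
    refine ⟨fun p => -(c - d)⁻¹ * (p.1 - d)⁻¹,
      (RatX P 𝒦).mul_mem (ratx_const _) (ratx_inv hd), fun x hx y => ?_⟩
    have h1 : x - d ≠ 0 := sub_ne_zero.2 fun h => hx (h ▸ hd)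
    have h2 : c - d ≠ 0 := sub_ne_zero.2 fun h => hc (h ▸ hd)
    field_simp
    ring
  · intro k hk
    exact ⟨fun _ => 0, ratx_const 0, fun x _ y => by simp⟩
  · rintro g h - - ⟨g₁, hg₁, hg⟩ ⟨h₁, hh₁, hh⟩
    refine ⟨fun p => g₁ p + h₁ p, (RatX P 𝒦).add_mem hg₁ hh₁, fun x hx y => ?_⟩
    simp only
    rw [hg x hx y, hh x hx y]
    ring
  · rintro g h hg0 hh0 ⟨g₁, hg₁, hg⟩ ⟨h₁, hh₁, hh⟩
    refine ⟨fun p => (fun p : ℂ × E => g (c, p.2)) p * h₁ p + g₁ p * h p,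
      (RatX P 𝒦).add_mem ((RatX P 𝒦).mul_mem
        (ratx_pull (k := fun y => g (c, y)) (ratx_restrict hg0 c)) hh₁)
        ((RatX P 𝒦).mul_mem hg₁ hh0), fun x hx y => ?_⟩
    simp only
    rw [hg x hx y, hh x hx y]
    ring

theorem ratx_pow {n : ℕ} (hf : f ∈ RatX P 𝒦) : (fun p => f p ^ n) ∈ RatX P 𝒦 :=
  (RatX P 𝒦).pow_mem hf n

theorem ratx_pole (hf : f ∈ RatX P 𝒦) {c : ℂ} (hc : c ∈ P) :
    ∃ (N : ℕ) (fh : ℂ × E → ℂ), fh ∈ RatX (P \ {c}) 𝒦 ∧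
      ∀ x, x ≠ c → ∀ y, f (x, y) = ((x - c) ^ N)⁻¹ * fh (x, y) := by
  have hpow : ∀ n : ℕ, (fun p : ℂ × E => (p.1 - c) ^ n) ∈ RatX (P \ {c}) 𝒦 := fun n =>
    ratx_pow ((RatX (P \ {c}) 𝒦).sub_mem ratx_fst (ratx_const c))
  refine ratx_ind (motive := fun f => ∃ (N : ℕ) (fh : ℂ × E → ℂ), fh ∈ RatX (P \ {c}) 𝒦 ∧
      ∀ x, x ≠ c → ∀ y, f (x, y) = ((x - c) ^ N)⁻¹ * fh (x, y)) hf ?_ ?_ ?_ ?_ ?_
  · exact ⟨0, _, ratx_fst, fun x _ y => by simp⟩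
  · intro d hd
    by_cases h : d = c
    · subst h
      exact ⟨1, _, ratx_const 1, fun x _ y => by simp⟩
    · exact ⟨0, _, ratx_inv ⟨hd, h⟩, fun x _ y => by simp⟩
  · intro k hk
    exact ⟨0, _, ratx_pull hk, fun x _ y => by simp⟩
  · rintro g h - - ⟨N, g₁, hg₁, hg⟩ ⟨N', h₁, hh₁, hh⟩
    refine ⟨N + N', fun p => (fun p : ℂ × E => (p.1 - c) ^ N') p * g₁ p +
      (fun p : ℂ × E => (p.1 - c) ^ N) p * h₁ p,
      (RatX (P \ {c}) 𝒦).add_mem ((RatX (P \ {c}) 𝒦).mul_mem (hpow N') hg₁)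
        ((RatX (P \ {c}) 𝒦).mul_mem (hpow N) hh₁), fun x hx y => ?_⟩
    have h1 : x - c ≠ 0 := sub_ne_zero.2 hx
    simp only
    rw [hg x hx y, hh x hx y, pow_add]
    field_simp
  · rintro g h - - ⟨N, g₁, hg₁, hg⟩ ⟨N', h₁, hh₁, hh⟩
    refine ⟨N + N', fun p => g₁ p * h₁ p, (RatX (P \ {c}) 𝒦).mul_mem hg₁ hh₁,
      fun x hx y => ?_⟩
    simp only
    rw [hg x hx y, hh x hx y, pow_add, mul_inv]
    ring

theorem ratx_analytic {E : Type*} [NormedAddCommGroup E] [NormedSpace ℂ E] {P : Set ℂ}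
    {𝒦 : Subalgebra ℂ (E → ℂ)} {f : ℂ × E → ℂ} {U : Set E}
    (h𝒦 : ∀ k ∈ 𝒦, ∀ y ∈ U, AnalyticAt ℂ k y) (hf : f ∈ RatX P 𝒦) {x : ℂ} (hx : x ∉ P) {y : E}
    (hy : y ∈ U) : AnalyticAt ℂ f (x, y) := by
  refine ratx_ind (motive := fun f => AnalyticAt ℂ f (x, y)) hf analyticAt_fst ?_ ?_ ?_ ?_
  · intro d hd
    have h1 : x - d ≠ 0 := sub_ne_zero.2 fun h => hx (h ▸ hd)
    exact (analyticAt_fst.sub analyticAt_const).inv h1
  · intro k hk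
    exact AnalyticAt.comp (g := k) (f := fun p : ℂ × E => p.2) (h𝒦 k hk y hy) analyticAt_snd
  · intro g h _ _ h1 h2
    exact h1.add h2
  · intro g h _ _ h1 h2
    exact h1.mul h2

/-- Division by `u y` of `f (x, y) - f (x, r y)`. -/
theorem ratx_tdiv {r : E → E} {u : E → ℂ}
    (h1 : ∀ k ∈ 𝒦, (fun y => k (r y)) ∈ 𝒦)
    (h2 : ∀ k ∈ 𝒦, ∃ k₁ ∈ 𝒦, ∀ y, k y = k (r y) + u y * k₁ y) (hf : f ∈ RatX P 𝒦) :
    (fun p : ℂ × E => f (p.1, r p.2)) ∈ RatX P 𝒦 ∧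
      ∃ f₁ ∈ RatX P 𝒦, ∀ x y, f (x, y) = f (x, r y) + u y * f₁ (x, y) := by
  refine ratx_ind (motive := fun f => (fun p : ℂ × E => f (p.1, r p.2)) ∈ RatX P 𝒦 ∧
      ∃ f₁ ∈ RatX P 𝒦, ∀ x y, f (x, y) = f (x, r y) + u y * f₁ (x, y)) hf ?_ ?_ ?_ ?_ ?_
  · exact ⟨ratx_fst, _, ratx_const 0, fun x y => by simp⟩
  · intro c hc
    exact ⟨ratx_inv hc, _, ratx_const 0, fun x y => by simp⟩
  · intro k hk
    obtain ⟨k₁, hk₁, h⟩ := h2 k hk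
    exact ⟨ratx_pull (h1 k hk), _, ratx_pull hk₁, fun x y => h y⟩
  · rintro g h - - ⟨hg0, g₁, hg₁, hg⟩ ⟨hh0, h₁, hh₁, hh⟩
    refine ⟨(RatX P 𝒦).add_mem hg0 hh0, fun p => g₁ p + h₁ p, (RatX P 𝒦).add_mem hg₁ hh₁,
      fun x y => ?_⟩
    simp only
    rw [hg x y, hh x y]
    ring
  · rintro g h hg' hh' ⟨hg0, g₁, hg₁, hg⟩ ⟨hh0, h₁, hh₁, hh⟩
    refine ⟨(RatX P 𝒦).mul_mem hg0 hh0,
      fun p => (fun p : ℂ × E => g (p.1, r p.2)) p * h₁ p + g₁ p * h p,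
      (RatX P 𝒦).add_mem ((RatX P 𝒦).mul_mem hg0 hh₁) ((RatX P 𝒦).mul_mem hg₁ hh'),
      fun x y => ?_⟩
    simp only
    rw [hg x y, hh x y]
    ring

end

theorem kt_iff {k : ℂ → ℂ} : k ∈ Kt ↔ ∃ p : Polynomial ℂ, k = fun t => p.eval t := by
  unfold Kt
  rw [Algebra.adjoin_singleton_eq_range_aeval]
  constructor
  · rintro ⟨p, rfl⟩
    refine ⟨p, ?_⟩
    ext t
    change (Polynomial.aeval (fun t : ℂ => t) p) t = _
    rw [Polynomial.aeval_fn_apply, Polynomial.aeval_def, Polynomial.eval₂_eq_eval_map]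
    simp
  · rintro ⟨p, rfl⟩
    refine ⟨p, ?_⟩
    ext t
    change (Polynomial.aeval (fun t : ℂ => t) p) t = _
    rw [Polynomial.aeval_fn_apply, Polynomial.aeval_def, Polynomial.eval₂_eq_eval_map]
    simp

theorem kt_analytic {k : ℂ → ℂ} (hk : k ∈ Kt) (t : ℂ) : AnalyticAt ℂ k t := by
  obtain ⟨p, rfl⟩ := kt_iff.1 hk
  exact (p.differentiable).analyticAt t

theorem ratkt_analytic {P : Set ℂ} {f : ℂ × ℂ → ℂ} (hf : f ∈ RatX P Kt) {x t : ℂ}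
    (hx : x ∉ P) : AnalyticAt ℂ f (x, t) :=
  ratx_analytic (U := univ) (fun _ hk y _ => kt_analytic hk y) hf hx (mem_univ t)

theorem rw_analytic {Q : Set ℂ} {f : ℂ × ℂ → ℂ} (hf : f ∈ Rw Q) {x t : ℂ} (hx : x ∉ Q) :
    AnalyticAt ℂ f (x, t) :=
  ratkt_analytic hf hx

theorem rvw_analytic {P Q : Set ℂ} {f : ℂ × ℂ × ℂ → ℂ} (hf : f ∈ Rvw P Q) {v ω t : ℂ}
    (hv : v ∉ P) (hω : ω ∉ Q) : AnalyticAt ℂ f (v, ω, t) :=
  ratx_analytic (U := {y : ℂ × ℂ | y.1 ∉ Q}) (fun _ hk y hy => rw_analytic hk hy) hf hv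
    (y := (ω, t)) hω

theorem kt_const (c : ℂ) : (fun _ : ℂ => c) ∈ Kt := Kt.algebraMap_mem c

theorem kt_tdiv {k : ℂ → ℂ} (hk : k ∈ Kt) (z : ℂ) :
    ∃ k₁ ∈ Kt, ∀ t, k t = k z + (t - z) * k₁ t := by
  obtain ⟨p, rfl⟩ := kt_iff.1 hk
  obtain ⟨q, hq⟩ := Polynomial.X_sub_C_dvd_sub_C_eval (a := z) (p := p)
  refine ⟨fun t => q.eval t, kt_iff.2 ⟨q, rfl⟩, fun t => ?_⟩
  have := congrArg (Polynomial.eval t) hq
  simp only [Polynomial.eval_sub, Polynomial.eval_C, Polynomial.eval_mul, Polynomial.eval_X] at this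
  linear_combination this

theorem ratx_tdiv2 {P : Set ℂ} {f : ℂ × ℂ → ℂ} (hf : f ∈ RatX P Kt) (z : ℂ) :
    ∃ f₁ ∈ RatX P Kt, ∀ x t, f (x, t) = f (x, z) + (t - z) * f₁ (x, t) :=
  (ratx_tdiv (r := fun _ => z) (u := fun t => t - z) (fun k _ => kt_const (k z))
    (fun k hk => kt_tdiv hk z) hf).2

theorem ratx_tsub2 {P : Set ℂ} {f : ℂ × ℂ → ℂ} (hf : f ∈ RatX P Kt) (z : ℂ) :
    (fun p : ℂ × ℂ => f (p.1, z)) ∈ RatX P Kt :=
  (ratx_tdiv (r := fun _ => z) (u := fun t => t - z) (fun k _ => kt_const (k z))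
    (fun k hk => kt_tdiv hk z) hf).1

theorem ratx_tdiv3 {P Q : Set ℂ} {f : ℂ × ℂ × ℂ → ℂ} (hf : f ∈ Rvw P Q) (z : ℂ) :
    ∃ f₁ ∈ Rvw P Q, ∀ x ω t, f (x, ω, t) = f (x, ω, z) + (t - z) * f₁ (x, ω, t) := by
  obtain ⟨f₁, h1, h2⟩ := (ratx_tdiv (E := ℂ × ℂ) (𝒦 := Rw Q) (r := fun y => (y.1, z))
    (u := fun y => y.2 - z) (fun k hk => ratx_tsub2 hk z)
    (fun k hk => by
      obtain ⟨k₁, hk₁, h⟩ := ratx_tdiv2 hk z
      exact ⟨k₁, hk₁, fun y => h y.1 y.2⟩) hf).2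
  exact ⟨f₁, h1, fun x ω t => h2 x (ω, t)⟩

theorem rvw_swap {P Q : Set ℂ} {f : ℂ × ℂ × ℂ → ℂ} (hf : f ∈ Rvw P Q) :
    (fun p => f (swp p)) ∈ Rvw Q P := by
  refine ratx_ind (E := ℂ × ℂ) (𝒦 := Rw Q) (motive := fun f => (fun p => f (swp p)) ∈ Rvw Q P) hf
    ?_ ?_ ?_ ?_ ?_
  · exact ratx_pull (𝒦 := Rw P) (k := fun y => y.1) ratx_fst
  · intro c hc
    exact ratx_pull (𝒦 := Rw P) (k := fun y => (y.1 - c)⁻¹) (ratx_inv hc)
  · intro k hk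
    refine ratx_ind (E := ℂ) (𝒦 := Kt)
      (motive := fun k => (fun p : ℂ × ℂ × ℂ => k (swp p).2) ∈ Rvw Q P) hk ?_ ?_ ?_ ?_ ?_
    · exact ratx_fst
    · intro c hc
      exact ratx_inv hc
    · intro k hk
      exact ratx_pull (𝒦 := Rw P) (k := fun y => k y.2) (ratx_pull hk)
    · intro g h _ _ h1 h2
      exact (Rvw Q P).add_mem h1 h2
    · intro g h _ _ h1 h2
      exact (Rvw Q P).mul_mem h1 h2
  · intro g h _ _ h1 h2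
    exact (Rvw Q P).add_mem h1 h2
  · intro g h _ _ h1 h2
    exact (Rvw Q P).mul_mem h1 h2

end Pool.Agent.H43.FX
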