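import Pool.Agent.H43.FX.JetLem
import Pool.Agent.H43.FX.RatTool

/-!
# FX-JETRAT : jets of rational functions of `(ω, t)`

Proof.  `Algebra.adjoin_induction` (for `Kt` inside `RatX P Kt`), on the open set
`U = {q | q.1 ∉ P'}` where `P' ⊇ P` is the finite set of the statement (`D2 b` in the
applications; here any open `U` with `q.1 ∉ P` for `q ∈ U` works): constants `Jet.const`,
sums `Jet.add`, products `Jet.mul` (with `S₁ = S₂ = 0`, then `Jet.congr`), the coordinates by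
hypothesis, and `(x - c)⁻¹` (`c ∈ P`) by `Jet.div` with `f = x - c`, `g = (x-c)⁻¹`, `w = 1`
(`f g = 1` on `U`).
-/

namespace Pool.Agent.H43.FX

open Set Metric Filter Topology

theorem jet_rat {P : Set ℂ} {U : Set (ℂ × ℂ)} (hU : IsOpen U) (hUP : ∀ q ∈ U, q.1 ∉ P)
    {ξ : ℂ × ℂ → ℂ × ℂ} {T : ℂ × ℂ → ℂ} (hξ : AnalyticOnNhd ℂ ξ U) (hT : AnalyticOnNhd ℂ T U)
    {p : ℂ × ℂ} (hp : p ∈ U) {x y : ℂ → ℂ} (hx : Jet ξ (fun _ => 0) T p (fun q => q.1) x)
    (hy : Jet ξ (fun _ => 0) T p (fun q => q.2) y) {h : ℂ × ℂ → ℂ} (hh : h ∈ RatX P Kt) :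
    Jet ξ (fun _ => 0) T p h (fun s => h (x s, y s)) := by
  have h0 : AnalyticOnNhd ℂ (fun _ : ℂ × ℂ => (0 : ℂ)) U := analyticOnNhd_const
  have hadd : ∀ (f g : ℂ × ℂ → ℂ) (u v : ℂ → ℂ), AnalyticOnNhd ℂ f U → AnalyticOnNhd ℂ g U →
      Jet ξ (fun _ => 0) T p f u → Jet ξ (fun _ => 0) T p g v →
      Jet ξ (fun _ => 0) T p (fun q => f q + g q) (fun s => u s + v s) :=
    fun f g u v hf hg h₁ h₂ => Jet.add hU hp hξ h0 hT hf hg h₁ h₂
  have hmul : ∀ (f g : ℂ × ℂ → ℂ) (u v : ℂ → ℂ), AnalyticOnNhd ℂ f U → AnalyticOnNhd ℂ g U →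
      Jet ξ (fun _ => 0) T p f u → Jet ξ (fun _ => 0) T p g v →
      Jet ξ (fun _ => 0) T p (fun q => f q * g q) (fun s => u s * v s) :=
    fun f g u v hf hg h₁ h₂ => (Jet.mul hU hp hξ h0 h0 hT hf hg h₁ h₂).congr hU hp
      (fun _ _ => rfl) (fun _ _ => add_zero 0)
  have han : ∀ f : ℂ × ℂ → ℂ, f ∈ RatX P Kt → AnalyticOnNhd ℂ f U := fun f hf q hq =>
    ratkt_analytic hf (hUP q hq)
  refine ratx_ind (motive := fun h => Jet ξ (fun _ => 0) T p h (fun s => h (x s, y s))) hh hx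
    ?_ ?_ ?_ ?_
  · intro c hc
    have hf : Jet ξ (fun _ => 0) T p (fun q => q.1 + -c) (fun s => x s + -c) :=
      hadd _ _ _ _ (han _ ratx_fst) analyticOnNhd_const hx (Jet.const (-c))
    have h1 : Jet ξ (fun _ => 0 + 0) T p (fun q => (q.1 + -c) * (q.1 - c)⁻¹) (fun _ => 1) := by
      refine (Jet.const 1).congr hU hp (fun q hq => ?_) (fun _ _ => (add_zero 0).symm)
      have h2 : q.1 - c ≠ 0 := sub_ne_zero.2 fun h => hUP q hq (h ▸ hc)
      change (1 : ℂ) = (q.1 + -c) * (q.1 - c)⁻¹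
      rw [← sub_eq_add_neg, mul_inv_cancel₀ h2]
    have h2 := Jet.div (S₁ := fun _ => 0) (S₂ := fun _ => 0) (g := fun q : ℂ × ℂ => (q.1 - c)⁻¹)
      hU hp hξ h0 h0 hT ((han _ ratx_fst).add analyticOnNhd_const) (han _ (ratx_inv hc)) hf h1
      (by
        change p.1 + -c ≠ 0
        rw [← sub_eq_add_neg]
        exact sub_ne_zero.2 fun h => hUP p hp (h ▸ hc))
    refine h2.congr_germ (Eventually.of_forall fun s => ?_)
    change 1 / (x s + -c) = (x s - c)⁻¹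
    rw [one_div, ← sub_eq_add_neg]
  · intro k hk
    unfold Kt at hk
    refine Algebra.adjoin_induction (p := fun k _ =>
      Jet ξ (fun _ => 0) T p (fun q : ℂ × ℂ => k q.2) (fun s => k (y s))) ?_ ?_ ?_ ?_ hk
    · intro k hk
      rw [mem_singleton_iff] at hk
      rw [hk]
      exact hy
    · intro r
      exact Jet.const r
    · intro k l hk hl h1 h2
      exact hadd _ _ _ _ (han _ (ratx_pull hk)) (han _ (ratx_pull hl)) h1 h2
    · intro k l hk hl h1 h2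
      exact hmul _ _ _ _ (han _ (ratx_pull hk)) (han _ (ratx_pull hl)) h1 h2
  · intro f g hf hg h1 h2
    exact hadd _ _ _ _ (han _ hf) (han _ hg) h1 h2
  · intro f g hf hg h1 h2
    exact hmul _ _ _ _ (han _ hf) (han _ hg) h1 h2

end Pool.Agent.H43.FX
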