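import Pool.Agent.H43.FX.Defs

/-!
# FX-LEMPA : the inequality for the (3,3,∞) metric

Proof.  The statement is symmetric in `G, H`; assume `G ≤ H`.  Then `H^16 ≥ 1/2`, so
`H^2 ≥ 0.9` (as `0.9^8 < 1/2`).  It suffices (drop the second summand of the right-hand side,
multiply by `128 G^30 (1+G^2)^2 H^20`) to prove
`(128/3000) G^10 (1+G^2)^3 (1+H^2) ≤ H^20`.  Since `G ≤ H` the left-hand side is at most
`(128/3000) H^10 (1+H^2)^4`, `1 + H^2 ≤ (1 + 1/0.9) H^2 ≤ 2.112 H^2`, so this is at most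
`(128/3000) * 2.112^4 * H^18 ≤ 0.85 H^18 ≤ 0.9 H^18 ≤ H^20`.
(If `H < G` exchange the roles.)
-/

namespace Pool.Agent.H43.FX

lemma metric_ineq_aux {G H : ℝ} (hG : 0 < G) (hH : 0 < H) (h : 1 ≤ G ^ 16 + H ^ 16)
    (hGH : G ≤ H) :
    (1 / 3000 : ℝ) * ((1 + G ^ 2) * (1 + H ^ 2) / (G ^ 20 * H ^ 20)) ≤
      (1 / 128 : ℝ) * (1 / (G ^ 30 * (1 + G ^ 2) ^ 2)) := by
  have h1 : G ^ 16 ≤ H ^ 16 := pow_le_pow_left₀ hG.le hGH 16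
  have h2 : (9 / 10 : ℝ) ≤ H ^ 2 := by
    by_contra hc
    push Not at hc
    have h3 : (H ^ 2) ^ 8 ≤ (9 / 10 : ℝ) ^ 8 := pow_le_pow_left₀ (by positivity) hc.le 8
    have h4 : (H ^ 2) ^ 8 = H ^ 16 := by ring
    rw [h4] at h3
    norm_num at h3
    linarith
  have h5 : (1 + H ^ 2) ≤ 19 / 9 * H ^ 2 := by linarith
  have h6 : (1 + H ^ 2) ^ 4 ≤ (19 / 9 * H ^ 2) ^ 4 := pow_le_pow_left₀ (by positivity) h5 4
  have h7 : (128 / 3000 : ℝ) * (1 + H ^ 2) ^ 4 ≤ H ^ 10 := by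
    have h8 : (9 / 10 : ℝ) * H ^ 8 ≤ H ^ 2 * H ^ 8 :=
      mul_le_mul_of_nonneg_right h2 (by positivity)
    have h9 : (19 / 9 * H ^ 2) ^ 4 = (19 / 9) ^ 4 * H ^ 8 := by ring
    have h10 : H ^ 2 * H ^ 8 = H ^ 10 := by ring
    have h11 : (0 : ℝ) < H ^ 8 := by positivity
    rw [h9] at h6
    norm_num at h6
    nlinarith
  have h12 : (128 / 3000 : ℝ) * (G ^ 10 * (1 + G ^ 2) ^ 3 * (1 + H ^ 2)) ≤ H ^ 20 := by
    calc (128 / 3000 : ℝ) * (G ^ 10 * (1 + G ^ 2) ^ 3 * (1 + H ^ 2))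
        ≤ (128 / 3000 : ℝ) * (H ^ 10 * (1 + H ^ 2) ^ 3 * (1 + H ^ 2)) := by gcongr
      _ = H ^ 10 * ((128 / 3000 : ℝ) * (1 + H ^ 2) ^ 4) := by ring
      _ ≤ H ^ 10 * H ^ 10 := mul_le_mul_of_nonneg_left h7 (by positivity)
      _ = H ^ 20 := by ring
  have e1 : (1 / 3000 : ℝ) * ((1 + G ^ 2) * (1 + H ^ 2) / (G ^ 20 * H ^ 20)) =
      (128 / 3000 : ℝ) * (G ^ 10 * (1 + G ^ 2) ^ 3 * (1 + H ^ 2)) /
        (128 * G ^ 30 * (1 + G ^ 2) ^ 2 * H ^ 20) := by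
    field_simp
  have e2 : (1 / 128 : ℝ) * (1 / (G ^ 30 * (1 + G ^ 2) ^ 2)) =
      H ^ 20 / (128 * G ^ 30 * (1 + G ^ 2) ^ 2 * H ^ 20) := by
    field_simp
  rw [e1, e2]
  exact div_le_div_of_nonneg_right h12 (by positivity)

theorem metric_ineq {G H : ℝ} (hG : 0 < G) (hH : 0 < H) (h : 1 ≤ G ^ 16 + H ^ 16) :
    (1 / 3000 : ℝ) * ((1 + G ^ 2) * (1 + H ^ 2) / (G ^ 20 * H ^ 20)) ≤
      (1 / 128 : ℝ) * (1 / (G ^ 30 * (1 + G ^ 2) ^ 2) + 1 / (H ^ 30 * (1 + H ^ 2) ^ 2)) := by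
  rcases le_total G H with hGH | hGH
  · have h1 := metric_ineq_aux hG hH h hGH
    have h2 : (0 : ℝ) ≤ 1 / (H ^ 30 * (1 + H ^ 2) ^ 2) := by positivity
    linarith
  · have h1 := metric_ineq_aux hH hG (by linarith) hGH
    have h2 : (0 : ℝ) ≤ 1 / (G ^ 30 * (1 + G ^ 2) ^ 2) := by positivity
    have h3 : (1 + G ^ 2) * (1 + H ^ 2) / (G ^ 20 * H ^ 20) =
        (1 + H ^ 2) * (1 + G ^ 2) / (H ^ 20 * G ^ 20) := by
      rw [mul_comm (1 + G ^ 2), mul_comm (G ^ 20)]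
    rw [h3]
    linarith

end Pool.Agent.H43.FX
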