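import Pool.Agent.H43.FX.Defs

/-!
# FX-LEMPB : the maximum principle for the metric (no Laplacian needed)

Write `g₀ = g s₀`, `h₀ = h s₀`.  Use the three algebraic identities
* `(1+|g₀|²)(1+|g|²) = |1 + conj g₀ * g|² + |g - g₀|²`, so
  `(1+|g₀|²)(1+|g|²) = |A|² (1+|φ|²)` with `A = 1 + conj g₀ * g`, `φ = (g-g₀)/(1+conj g₀ g)`
  near `s₀` (`A s₀ = 1+|g₀|² ≠ 0`); `φ s₀ = 0`, `φ' s₀ = g' s₀/(1+|g₀|²)`;
* the same for `h`: `B`, `ψ`;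
* `(R²-|s₀|²)(R²-|s|²) = |R² - conj s₀ s|² - R²|s-s₀|² = |C|²(1-|χ|²)`,
  `C = R² - conj s₀ * s`, `χ = R(s-s₀)/C`, `χ s₀ = 0`, `χ' s₀ = R/(R²-|s₀|²)`.
Hence (up to a positive constant factor) the function in `hmax` is
`|K|² (1+|φ|²)(1+|ψ|²)(1-|χ|²)²` with `K = F A B C²` holomorphic near `s₀`, `K s₀ ≠ 0`.
Suppose the conclusion fails, i.e. `μ := |φ'|²+|ψ'|²-2|χ'|² > 0` at `s₀`.  By differentiability
`|φ(s)|² = |φ' s₀|²|s-s₀|² + o(|s-s₀|²)` etc., so for `s ≠ s₀` near `s₀`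
`(1+|φ|²)(1+|ψ|²)(1-|χ|²)² ≥ 1 + |φ|²+|ψ|²-2|χ|² ≥ 1 + (μ/2)|s-s₀|² > 1`
(for the first inequality: `(1+x)(1+y)(1-z)² ≥ (1+x+y)(1-2z) ≥ 1+x+y-2z-2z(x+y)`, the last
term is `O(|s-s₀|⁴)`; handle it by `|φ|²,|ψ|²,|χ|² ≤ C|s-s₀|²`), while the value at `s₀` is `1`.
By `hmax`, `|K s| < |K s₀|` for all `s ≠ s₀` near `s₀`; in particular `|K|` has a local maximum
at `s₀`, so `K` is constant near `s₀` (`Complex.eventually_eq_of_isLocalMax_norm`), a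
contradiction to the strict inequality.
-/

namespace Pool.Agent.H43.FX

open Filter Topology

theorem mi_id1 (u v : ℂ) : (1 + ‖u‖ ^ 2) * (1 + ‖v‖ ^ 2) =
    ‖1 + (starRingEnd ℂ) u * v‖ ^ 2 + ‖v - u‖ ^ 2 := by
  simp only [Complex.sq_norm, Complex.normSq_apply, Complex.add_re, Complex.add_im,
    Complex.sub_re, Complex.sub_im, Complex.mul_re, Complex.mul_im, Complex.conj_re,
    Complex.conj_im, Complex.one_re, Complex.one_im]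
  ring

theorem mi_id2 (R : ℝ) (u v : ℂ) : (R ^ 2 - ‖u‖ ^ 2) * (R ^ 2 - ‖v‖ ^ 2) =
    ‖((R ^ 2 : ℝ) : ℂ) - (starRingEnd ℂ) u * v‖ ^ 2 - R ^ 2 * ‖v - u‖ ^ 2 := by
  simp only [Complex.sq_norm, Complex.normSq_apply, Complex.add_re, Complex.add_im,
    Complex.sub_re, Complex.sub_im, Complex.mul_re, Complex.mul_im, Complex.conj_re,
    Complex.conj_im, Complex.ofReal_re, Complex.ofReal_im]
  ring

/-- derivative of the normalised function -/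
theorem mi_deriv {g : ℂ → ℂ} {s₀ : ℂ} (hg : DifferentiableAt ℂ g s₀) {A : ℂ → ℂ}
    (hA : DifferentiableAt ℂ A s₀) {c : ℝ} (hc : c ≠ 0) (hA0 : A s₀ = (c : ℂ)) :
    HasDerivAt (fun s => (g s - g s₀) / A s) (deriv g s₀ / c) s₀ := by
  have h1 : HasDerivAt (fun s => g s - g s₀) (deriv g s₀) s₀ := hg.hasDerivAt.sub_const _
  have hc' : (c : ℂ) ≠ 0 := by exact_mod_cast hc
  have h2 := h1.div hA.hasDerivAt (by rw [hA0]; exact hc')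
  have h3 : (deriv g s₀ * A s₀ - (g s₀ - g s₀) * deriv A s₀) / A s₀ ^ 2 = deriv g s₀ / c := by
    rw [hA0, sub_self, zero_mul, sub_zero]
    field_simp
  rw [h3] at h2
  exact h2

theorem mi_slope {φ : ℂ → ℂ} {s₀ φ' : ℂ} (h : HasDerivAt φ φ' s₀) (h0 : φ s₀ = 0) :
    Tendsto (fun s => ‖φ s‖ ^ 2 / ‖s - s₀‖ ^ 2) (𝓝[≠] s₀) (𝓝 (‖φ'‖ ^ 2)) := by
  have h1 := (hasDerivAt_iff_tendsto_slope.1 h).norm.pow 2
  refine h1.congr fun s => ?_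
  rw [slope_def_field, h0, sub_zero, norm_div, div_pow]

theorem mi_lt {K : ℂ → ℂ} {s₀ : ℂ} (hK : AnalyticAt ℂ K s₀)
    (h : ∀ᶠ s in 𝓝[≠] s₀, ‖K s‖ < ‖K s₀‖) : False := by
  have h1 : IsLocalMax (norm ∘ K) s₀ := by
    have h2 : ∀ᶠ s in 𝓝 s₀, s ≠ s₀ → ‖K s‖ < ‖K s₀‖ := eventually_nhdsWithin_iff.1 h
    filter_upwards [h2] with s hs
    by_cases hs0 : s = s₀
    · rw [hs0]
    · exact (hs hs0).le
  have h3 : ∀ᶠ z in 𝓝 s₀, DifferentiableAt ℂ K z :=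
    hK.eventually_analyticAt.mono fun z hz => hz.differentiableAt
  have h4 := Complex.eventually_eq_of_isLocalMax_norm h3 h1
  have h5 : ∀ᶠ s in 𝓝[≠] s₀, K s = K s₀ := h4.filter_mono nhdsWithin_le_nhds
  obtain ⟨s, hs1, hs2⟩ := (h.and h5).exists
  rw [hs2] at hs1
  exact lt_irrefl _ hs1

theorem max_ineq {F g h : ℂ → ℂ} {s₀ : ℂ} {R : ℝ} (hF : AnalyticAt ℂ F s₀)
    (hg : AnalyticAt ℂ g s₀) (hh : AnalyticAt ℂ h s₀) (hF0 : F s₀ ≠ 0) (hs : ‖s₀‖ < R)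
    (hmax : ∀ᶠ s in 𝓝 s₀,
      ‖F s‖ ^ 2 * (1 + ‖g s‖ ^ 2) * (1 + ‖h s‖ ^ 2) * (R ^ 2 - ‖s‖ ^ 2) ^ 2 ≤
      ‖F s₀‖ ^ 2 * (1 + ‖g s₀‖ ^ 2) * (1 + ‖h s₀‖ ^ 2) * (R ^ 2 - ‖s₀‖ ^ 2) ^ 2) :
    ‖deriv g s₀‖ ^ 2 / (1 + ‖g s₀‖ ^ 2) ^ 2 + ‖deriv h s₀‖ ^ 2 / (1 + ‖h s₀‖ ^ 2) ^ 2 ≤
      2 * R ^ 2 / (R ^ 2 - ‖s₀‖ ^ 2) ^ 2 := by
  by_contra hcon
  push Not at hcon
  have hR : 0 < R := (norm_nonneg _).trans_lt hs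
  have hG0 : (0 : ℝ) < 1 + ‖g s₀‖ ^ 2 := by positivity
  have hH0 : (0 : ℝ) < 1 + ‖h s₀‖ ^ 2 := by positivity
  have hD0 : (0 : ℝ) < R ^ 2 - ‖s₀‖ ^ 2 := by
    have := norm_nonneg s₀
    nlinarith
  set G0 : ℝ := 1 + ‖g s₀‖ ^ 2 with hG0d
  set H0 : ℝ := 1 + ‖h s₀‖ ^ 2 with hH0d
  set D0 : ℝ := R ^ 2 - ‖s₀‖ ^ 2 with hD0d
  let A : ℂ → ℂ := fun s => 1 + (starRingEnd ℂ) (g s₀) * g s
  let B : ℂ → ℂ := fun s => 1 + (starRingEnd ℂ) (h s₀) * h s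
  let C : ℂ → ℂ := fun s => ((R ^ 2 : ℝ) : ℂ) - (starRingEnd ℂ) s₀ * s
  have hA : AnalyticAt ℂ A s₀ := analyticAt_const.add (analyticAt_const.mul hg)
  have hB : AnalyticAt ℂ B s₀ := analyticAt_const.add (analyticAt_const.mul hh)
  have hC : AnalyticAt ℂ C s₀ := analyticAt_const.sub (analyticAt_const.mul analyticAt_id)
  have hA0 : A s₀ = (G0 : ℂ) := by
    show 1 + (starRingEnd ℂ) (g s₀) * g s₀ = _
    rw [mul_comm, Complex.mul_conj', hG0d]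
    push_cast
    rfl
  have hB0 : B s₀ = (H0 : ℂ) := by
    show 1 + (starRingEnd ℂ) (h s₀) * h s₀ = _
    rw [mul_comm, Complex.mul_conj', hH0d]
    push_cast
    rfl
  have hC0 : C s₀ = (D0 : ℂ) := by
    show ((R ^ 2 : ℝ) : ℂ) - (starRingEnd ℂ) s₀ * s₀ = _
    rw [mul_comm, Complex.mul_conj', hD0d]
    push_cast
    rfl
  let φ : ℂ → ℂ := fun s => (g s - g s₀) / A s
  let ψ : ℂ → ℂ := fun s => (h s - h s₀) / B s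
  let χ : ℂ → ℂ := fun s => ((R : ℂ) * s - (R : ℂ) * s₀) / C s
  have hφ : HasDerivAt φ (deriv g s₀ / G0) s₀ :=
    mi_deriv hg.differentiableAt hA.differentiableAt hG0.ne' hA0
  have hψ : HasDerivAt ψ (deriv h s₀ / H0) s₀ :=
    mi_deriv hh.differentiableAt hB.differentiableAt hH0.ne' hB0
  have hχ : HasDerivAt χ ((R : ℂ) / D0) s₀ := by
    have h1 : DifferentiableAt ℂ (fun s : ℂ => (R : ℂ) * s) s₀ := by fun_prop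
    have h2 := mi_deriv h1 hC.differentiableAt hD0.ne' hC0
    have h3 : deriv (fun s : ℂ => (R : ℂ) * s) s₀ = R := by
      have := (hasDerivAt_id s₀).const_mul (R : ℂ)
      rw [mul_one] at this
      exact this.deriv
    rw [h3] at h2
    exact h2
  have tφ := mi_slope hφ (by simp [φ])
  have tψ := mi_slope hψ (by simp [ψ])
  have tχ := mi_slope hχ (by simp [χ])
  have cχ : Tendsto (fun s => ‖χ s‖ ^ 2) (𝓝[≠] s₀) (𝓝 0) := by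
    have h1 : Tendsto (fun s => ‖χ s‖ ^ 2) (𝓝 s₀) (𝓝 (‖χ s₀‖ ^ 2)) :=
      (hχ.continuousAt.norm).pow 2
    have h2 : χ s₀ = 0 := by simp [χ]
    rw [h2, norm_zero, zero_pow two_ne_zero] at h1
    exact h1.mono_left nhdsWithin_le_nhds
  have hμ : 0 < ‖deriv g s₀ / G0‖ ^ 2 + ‖deriv h s₀ / H0‖ ^ 2 - 2 * ‖(R : ℂ) / D0‖ ^ 2 := by
    rw [norm_div, norm_div, norm_div, Complex.norm_real, Complex.norm_real, Complex.norm_real,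
      Complex.norm_real, Real.norm_of_nonneg hG0.le, Real.norm_of_nonneg hH0.le,
      Real.norm_of_nonneg hD0.le, Real.norm_of_nonneg hR.le, div_pow, div_pow, div_pow]
    have h1 : 2 * (R ^ 2 / D0 ^ 2) = 2 * R ^ 2 / D0 ^ 2 := by ring
    linarith
  have hlim : Tendsto (fun s => ‖φ s‖ ^ 2 / ‖s - s₀‖ ^ 2 + ‖ψ s‖ ^ 2 / ‖s - s₀‖ ^ 2 -
      2 * (‖χ s‖ ^ 2 / ‖s - s₀‖ ^ 2) -
      2 * ‖χ s‖ ^ 2 * (‖φ s‖ ^ 2 / ‖s - s₀‖ ^ 2 + ‖ψ s‖ ^ 2 / ‖s - s₀‖ ^ 2)) (𝓝[≠] s₀)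
      (𝓝 (‖deriv g s₀ / G0‖ ^ 2 + ‖deriv h s₀ / H0‖ ^ 2 - 2 * ‖(R : ℂ) / D0‖ ^ 2 -
        2 * 0 * (‖deriv g s₀ / G0‖ ^ 2 + ‖deriv h s₀ / H0‖ ^ 2))) :=
    ((tφ.add tψ).sub (tχ.const_mul 2)).sub ((cχ.const_mul 2).mul (tφ.add tψ))
  have hpos := hlim.eventually (lt_mem_nhds (a := 0) (by simpa using hμ))
  have hne : ∀ᶠ s in 𝓝[≠] s₀, s ≠ s₀ := self_mem_nhdsWithin
  have hAne : ∀ᶠ s in 𝓝[≠] s₀, A s ≠ 0 := (hA.continuousAt.eventually_ne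
    (by rw [hA0]; exact_mod_cast hG0.ne')).filter_mono nhdsWithin_le_nhds
  have hBne : ∀ᶠ s in 𝓝[≠] s₀, B s ≠ 0 := (hB.continuousAt.eventually_ne
    (by rw [hB0]; exact_mod_cast hH0.ne')).filter_mono nhdsWithin_le_nhds
  have hCne : ∀ᶠ s in 𝓝[≠] s₀, C s ≠ 0 := (hC.continuousAt.eventually_ne
    (by rw [hC0]; exact_mod_cast hD0.ne')).filter_mono nhdsWithin_le_nhds
  refine mi_lt (K := fun s => F s * A s * B s * C s ^ 2)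
    (((hF.mul hA).mul hB).mul (hC.pow 2)) ?_
  filter_upwards [hpos, hne, hAne, hBne, hCne, hmax.filter_mono nhdsWithin_le_nhds] with s hs1 hs2
    hs3 hs4 hs5 hs6
  have hr : 0 < ‖s - s₀‖ ^ 2 := by
    have := norm_pos_iff.2 (sub_ne_zero.2 hs2)
    positivity
  have hE : 1 < (1 + ‖φ s‖ ^ 2) * (1 + ‖ψ s‖ ^ 2) * (1 - ‖χ s‖ ^ 2) ^ 2 := by
    have h1 := mul_pos hs1 hr
    have h2 : (‖φ s‖ ^ 2 / ‖s - s₀‖ ^ 2 + ‖ψ s‖ ^ 2 / ‖s - s₀‖ ^ 2 -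
      2 * (‖χ s‖ ^ 2 / ‖s - s₀‖ ^ 2) -
      2 * ‖χ s‖ ^ 2 * (‖φ s‖ ^ 2 / ‖s - s₀‖ ^ 2 + ‖ψ s‖ ^ 2 / ‖s - s₀‖ ^ 2)) * ‖s - s₀‖ ^ 2 =
      ‖φ s‖ ^ 2 + ‖ψ s‖ ^ 2 - 2 * ‖χ s‖ ^ 2 - 2 * ‖χ s‖ ^ 2 * (‖φ s‖ ^ 2 + ‖ψ s‖ ^ 2) := by
      have hr' : ‖s - s₀‖ ≠ 0 := norm_ne_zero_iff.2 (sub_ne_zero.2 hs2)
      field_simp
    rw [h2] at h1
    have hx : 0 ≤ ‖φ s‖ ^ 2 := sq_nonneg _
    have hy : 0 ≤ ‖ψ s‖ ^ 2 := sq_nonneg _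
    have hz : 0 ≤ ‖χ s‖ ^ 2 := sq_nonneg _
    generalize ‖φ s‖ ^ 2 = x at *
    generalize ‖ψ s‖ ^ 2 = y at *
    generalize ‖χ s‖ ^ 2 = z at *
    have h3 : (1 + x + y) * (1 - z) ^ 2 ≤ (1 + x) * (1 + y) * (1 - z) ^ 2 := by
      have : 0 ≤ x * y * (1 - z) ^ 2 := by positivity
      nlinarith
    have h4 : (1 + x + y) * (1 - 2 * z) ≤ (1 + x + y) * (1 - z) ^ 2 := by
      have : 0 ≤ (1 + x + y) * z ^ 2 := by positivity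
      nlinarith
    nlinarith
  have e1 : G0 * (1 + ‖g s‖ ^ 2) = ‖A s‖ ^ 2 * (1 + ‖φ s‖ ^ 2) := by
    rw [hG0d, mi_id1]
    have h1 : ‖A s‖ ^ 2 ≠ 0 := by
      have := norm_pos_iff.2 hs3
      positivity
    show _ = ‖A s‖ ^ 2 * (1 + ‖(g s - g s₀) / A s‖ ^ 2)
    rw [norm_div, div_pow, mul_add, mul_div_cancel₀ _ h1, mul_one]
  have e2 : H0 * (1 + ‖h s‖ ^ 2) = ‖B s‖ ^ 2 * (1 + ‖ψ s‖ ^ 2) := by
    rw [hH0d, mi_id1]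
    have h1 : ‖B s‖ ^ 2 ≠ 0 := by
      have := norm_pos_iff.2 hs4
      positivity
    show _ = ‖B s‖ ^ 2 * (1 + ‖(h s - h s₀) / B s‖ ^ 2)
    rw [norm_div, div_pow, mul_add, mul_div_cancel₀ _ h1, mul_one]
  have e3 : D0 * (R ^ 2 - ‖s‖ ^ 2) = ‖C s‖ ^ 2 * (1 - ‖χ s‖ ^ 2) := by
    rw [hD0d, mi_id2]
    have h1 : ‖C s‖ ^ 2 ≠ 0 := by
      have := norm_pos_iff.2 hs5
      positivity
    show _ = ‖C s‖ ^ 2 * (1 - ‖((R : ℂ) * s - (R : ℂ) * s₀) / C s‖ ^ 2)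
    rw [norm_div, div_pow, mul_sub, mul_div_cancel₀ _ h1, mul_one, ← mul_sub, norm_mul,
      Complex.norm_real, mul_pow, Real.norm_eq_abs, sq_abs]
  have hK : ‖F s * A s * B s * C s ^ 2‖ ^ 2 *
      ((1 + ‖φ s‖ ^ 2) * (1 + ‖ψ s‖ ^ 2) * (1 - ‖χ s‖ ^ 2) ^ 2) ≤
      ‖F s₀ * A s₀ * B s₀ * C s₀ ^ 2‖ ^ 2 := by
    have h1 : ‖F s * A s * B s * C s ^ 2‖ ^ 2 *
        ((1 + ‖φ s‖ ^ 2) * (1 + ‖ψ s‖ ^ 2) * (1 - ‖χ s‖ ^ 2) ^ 2) =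
        (‖F s‖ ^ 2 * (1 + ‖g s‖ ^ 2) * (1 + ‖h s‖ ^ 2) * (R ^ 2 - ‖s‖ ^ 2) ^ 2) *
          (G0 * H0 * D0 ^ 2) := by
      have h2 : ‖F s * A s * B s * C s ^ 2‖ ^ 2 *
        ((1 + ‖φ s‖ ^ 2) * (1 + ‖ψ s‖ ^ 2) * (1 - ‖χ s‖ ^ 2) ^ 2) =
        ‖F s‖ ^ 2 * (‖A s‖ ^ 2 * (1 + ‖φ s‖ ^ 2)) * (‖B s‖ ^ 2 * (1 + ‖ψ s‖ ^ 2)) *
          (‖C s‖ ^ 2 * (1 - ‖χ s‖ ^ 2)) ^ 2 := by
        simp only [norm_mul, norm_pow]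
        ring
      rw [h2, ← e1, ← e2, ← e3]
      ring
    have h3 : ‖F s₀ * A s₀ * B s₀ * C s₀ ^ 2‖ ^ 2 =
        (‖F s₀‖ ^ 2 * G0 * H0 * D0 ^ 2) * (G0 * H0 * D0 ^ 2) := by
      simp only [norm_mul, norm_pow]
      rw [hA0, hB0, hC0, Complex.norm_real, Complex.norm_real, Complex.norm_real,
        Real.norm_of_nonneg hG0.le, Real.norm_of_nonneg hH0.le, Real.norm_of_nonneg hD0.le]
      ring
    rw [h1, h3]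
    exact mul_le_mul_of_nonneg_right hs6 (by positivity)
  have hK0 : 0 < ‖F s₀ * A s₀ * B s₀ * C s₀ ^ 2‖ ^ 2 := by
    have h1 : F s₀ * A s₀ * B s₀ * C s₀ ^ 2 ≠ 0 := by
      rw [hA0, hB0, hC0]
      have h2 : (G0 : ℂ) ≠ 0 := by exact_mod_cast hG0.ne'
      have h3 : (H0 : ℂ) ≠ 0 := by exact_mod_cast hH0.ne'
      have h4 : (D0 : ℂ) ≠ 0 := by exact_mod_cast hD0.ne'
      exact mul_ne_zero (mul_ne_zero (mul_ne_zero hF0 h2) h3) (pow_ne_zero 2 h4)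
    have := norm_pos_iff.2 h1
    positivity
  have hfin : ‖F s * A s * B s * C s ^ 2‖ ^ 2 < ‖F s₀ * A s₀ * B s₀ * C s₀ ^ 2‖ ^ 2 := by
    rcases (sq_nonneg ‖F s * A s * B s * C s ^ 2‖).eq_or_lt with h1 | h1
    · rw [← h1]; exact hK0
    · nlinarith
  exact lt_of_pow_lt_pow_left₀ 2 (norm_nonneg _) hfin

end Pool.Agent.H43.FX
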