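import Pool.Agent.H43.FX.LemPa
import Pool.Agent.H43.FX.LemPb

/-!
# FX-LEMPC : an entire function all of whose zeros and 1-points have multiplicity ≥ 3 is constant

Suppose `f` is entire and satisfies `h0`, `h1`; suppose `f` is not constant.  Put
`Ψ(s) = ‖f'(s)‖² (1+‖f s‖^{1/8}) (1+‖f s - 1‖^{1/8}) / (‖f s‖^{5/4} ‖f s - 1‖^{5/4})`
(real powers) if `f s ≠ 0, 1`, and `Ψ(s) = 0` otherwise.

(1) `Ψ` is continuous.  At `s₁` with `f s₁ = 0`: the order `μ` of `f` at `s₁` is finite (`f` is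
not constant) and `≥ 3` by `h0`: `f = (s-s₁)^μ k`, `k(s₁) ≠ 0`,
`f' = (s-s₁)^{μ-1}(μ k + (s-s₁)k')`, so `‖f'‖²/‖f‖^{5/4} ≤ C |s-s₁|^{2(μ-1) - 5μ/4} → 0`
because `2(μ-1) - 5μ/4 = 3μ/4 - 2 ≥ 1/4`; the other factors stay bounded.  The same at the
1-points with `f - 1`.

(2) Let `R > 0`.  `Φ(s) = Ψ(s) (R²-‖s‖²)²` is continuous on the closed disc `‖s‖ ≤ R`, hence has
a maximum there, at `s₀` say.  CLAIM: `Φ(s₀) ≤ 3000 · 4 R²`.  If `Φ(s₀) = 0` this is clear.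
Otherwise `‖s₀‖ < R`, `f s₀ ≠ 0, 1` and `f' s₀ ≠ 0`.  Near `s₀` choose holomorphic `g, h` with
`g^16 = f`, `h^16 = f - 1` (e.g. `g s = γ * (f s / f s₀) ^ (1/16 : ℂ)` with `γ^16 = f s₀`, or
`exp(log/16)`; `f s/f s₀` is near `1`, in the slit plane), and `F = f'/(g^10 h^10)`, `F s₀ ≠ 0`.
Then `Ψ = ‖F‖² (1+‖g‖²)(1+‖h‖²)` near `s₀`, because `‖g‖² = ‖f‖^{1/8}`, `‖g‖^20 = ‖f‖^{5/4}`.
`max_ineq` gives
`‖g'‖²/(1+‖g‖²)² + ‖h'‖²/(1+‖h‖²)² ≤ 2R²/(R²-‖s₀‖²)²` at `s₀`.  Since `f' = 16 g^15 g' =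
16 h^15 h'` we have `‖g'‖² = ‖f'‖²/(256 ‖g‖^30)`, `‖h'‖² = ‖f'‖²/(256‖h‖^30)`, and `metric_ineq`
with `G = ‖g s₀‖`, `H = ‖h s₀‖` (`1 = ‖f - (f-1)‖ ≤ G^16 + H^16`) multiplied by `‖f'‖²` gives
`Ψ(s₀)/3000 ≤ 2 (‖g'‖²/(1+‖g‖²)² + ‖h'‖²/(1+‖h‖²)²) ≤ 4R²/(R²-‖s₀‖²)²`.

(3) Hence for every `s` and every `R > ‖s‖`: `Ψ(s) ≤ 12000 R²/(R²-‖s‖²)²`; let `R → ∞`:
`Ψ(s) = 0`, so `f'(s) = 0` whenever `f s ≠ 0, 1`; if `f s = 0` or `1` then `f' s = 0` by `h0`,
`h1`.  So `f' = 0` everywhere.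
-/

set_option autoImplicit false

namespace Pool.Agent.H43.FX

open Filter Topology

/-- the quotient tends to zero at zeros of order at least three -/
theorem lemP_q {f : ℂ → ℂ} (hf : Differentiable ℂ f) {s₁ : ℂ} (h : f s₁ = 0)
    (h' : deriv f s₁ = 0) (h'' : iteratedDeriv 2 f s₁ = 0) :
    Tendsto (fun s => ‖deriv f s‖ ^ 8 / ‖f s‖ ^ 5) (𝓝 s₁) (𝓝 0) := by
  have ha : AnalyticAt ℂ f s₁ := hf.analyticAt s₁
  have h3 : ((3 : ℕ) : ℕ∞) ≤ analyticOrderAt f s₁ := by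
    rw [natCast_le_analyticOrderAt_iff_iteratedDeriv_eq_zero ha]
    intro i hi
    interval_cases i
    · simpa using h
    · simpa using h'
    · exact h''
  rcases eq_or_ne (analyticOrderAt f s₁) ⊤ with ht | ht
  · rw [analyticOrderAt_eq_top] at ht
    have hd : ∀ᶠ s in 𝓝 s₁, f s = 0 ∧ deriv f s = 0 := by
      have h2 := ht.eventually_nhds
      filter_upwards [h2] with s hs
      have h4 : f =ᶠ[𝓝 s] fun _ => (0 : ℂ) := hs
      refine ⟨h4.self_of_nhds, ?_⟩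
      rw [h4.deriv_eq]
      simp
    refine Tendsto.congr' (f₁ := fun _ => (0 : ℝ)) ?_ tendsto_const_nhds
    filter_upwards [hd] with s hs
    simp [hs.1, hs.2]
  · obtain ⟨n, hn⟩ := ENat.ne_top_iff_exists.mp ht
    rw [← hn] at h3
    have h3' : 3 ≤ n := by exact_mod_cast h3
    obtain ⟨m, rfl⟩ : ∃ m, n = m + 3 := ⟨n - 3, by omega⟩
    have e1 : analyticOrderAt f s₁ = ((m + 3 : ℕ) : ℕ∞) := hn.symm
    have e2 : analyticOrderAt (deriv f) s₁ = ((m + 2 : ℕ) : ℕ∞) := by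
      apply analyticOrderAt_deriv_of_pos ha
      rw [e1]
      push_cast
      rw [add_assoc]
      norm_num
    obtain ⟨g₁, hg₁, hg₁0, hfg₁⟩ := (ha.analyticOrderAt_eq_natCast).1 e1
    obtain ⟨g₂, hg₂, hg₂0, hfg₂⟩ := ((ha.deriv).analyticOrderAt_eq_natCast).1 e2
    have hne : ∀ᶠ s in 𝓝 s₁, g₁ s ≠ 0 := hg₁.continuousAt.eventually_ne hg₁0
    have key : ∀ᶠ s in 𝓝 s₁, ‖s - s₁‖ ^ (3 * m + 1) * (‖g₂ s‖ ^ 8 / ‖g₁ s‖ ^ 5) =
        ‖deriv f s‖ ^ 8 / ‖f s‖ ^ 5 := by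
      filter_upwards [hfg₁, hfg₂, hne] with s h1 h2 h3
      rw [h1, h2]
      by_cases hs : s = s₁
      · subst hs
        simp
      · have hs' : ‖s - s₁‖ ≠ 0 := by
          rw [norm_ne_zero_iff]; exact sub_ne_zero.mpr hs
        have hg' : ‖g₁ s‖ ≠ 0 := norm_ne_zero_iff.mpr h3
        rw [smul_eq_mul, smul_eq_mul, norm_mul, norm_mul, norm_pow, norm_pow]
        field_simp
        ring
    refine Tendsto.congr' key ?_
    have hc : ContinuousAt (fun s => ‖s - s₁‖ ^ (3 * m + 1) * (‖g₂ s‖ ^ 8 / ‖g₁ s‖ ^ 5)) s₁ := by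
      have c1 : ContinuousAt (fun s => ‖s - s₁‖ ^ (3 * m + 1)) s₁ := by fun_prop
      have c2 : ContinuousAt (fun s => ‖g₂ s‖ ^ 8) s₁ := (hg₂.continuousAt.norm).pow 8
      have c3 : ContinuousAt (fun s => ‖g₁ s‖ ^ 5) s₁ := (hg₁.continuousAt.norm).pow 5
      exact c1.mul (c2.div c3 (pow_ne_zero _ (norm_ne_zero_iff.mpr hg₁0)))
    have := hc.tendsto
    simpa using this

theorem tendsto_of_pow_four {α : Type*} {l : Filter α} {x : α → ℝ} (h0 : ∀ a, 0 ≤ x a)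
    (h : Tendsto (fun a => x a ^ 4) l (𝓝 0)) : Tendsto x l (𝓝 0) := by
  have h1 : Tendsto (fun a => Real.sqrt (Real.sqrt (x a ^ 4))) l (𝓝 0) := by
    have h2 := (Real.continuous_sqrt.comp Real.continuous_sqrt).tendsto (0 : ℝ)
    have h3 := h2.comp h
    simpa [Function.comp_def] using h3
  refine h1.congr fun a => ?_
  have e : x a ^ 4 = (x a ^ 2) ^ 2 := by ring
  rw [e, Real.sqrt_sq (by positivity), Real.sqrt_sq (h0 a)]

/-- the sixteenth root of the norm -/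
noncomputable def rt (x : ℂ) : ℝ := ‖x‖ ^ ((16 : ℝ)⁻¹)

theorem rt_nonneg (x : ℂ) : 0 ≤ rt x := Real.rpow_nonneg (norm_nonneg x) _

theorem rt_pow (x : ℂ) : rt x ^ 16 = ‖x‖ := by
  have := Real.rpow_inv_natCast_pow (norm_nonneg x) (n := 16) (by norm_num)
  simpa [rt] using this

theorem rt_cont : Continuous rt :=
  continuous_norm.rpow_const fun _ => Or.inr (by norm_num)

theorem rt_zero : rt 0 = 0 := by
  have h := rt_pow 0
  simp only [norm_zero] at h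
  exact pow_eq_zero_iff (by norm_num) |>.mp h

theorem rt_ne {x : ℂ} (hx : x ≠ 0) : rt x ≠ 0 := by
  intro h
  have h' := rt_pow x
  rw [h] at h'
  apply hx
  rw [← norm_eq_zero, ← h']
  norm_num

theorem rt_of_pow {x y : ℂ} (h : x ^ 16 = y) : ‖x‖ = rt y := by
  have h1 : ‖x‖ ^ 16 = rt y ^ 16 := by rw [rt_pow, ← h, norm_pow]
  exact (pow_left_inj₀ (norm_nonneg _) (rt_nonneg y) (by norm_num)).mp h1

/-- the density of the pulled back metric -/
noncomputable def psi (f : ℂ → ℂ) (s : ℂ) : ℝ :=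
  ‖deriv f s‖ ^ 2 * (1 + rt (f s) ^ 2) * (1 + rt (f s - 1) ^ 2) /
    (rt (f s) ^ 20 * rt (f s - 1) ^ 20)

theorem psi_nonneg (f : ℂ → ℂ) (s : ℂ) : 0 ≤ psi f s := by
  have h1 := rt_nonneg (f s)
  have h2 := rt_nonneg (f s - 1)
  unfold psi
  positivity

theorem psi_cont {f : ℂ → ℂ} (hf : Differentiable ℂ f)
    (h0 : ∀ s, f s = 0 → deriv f s = 0 ∧ iteratedDeriv 2 f s = 0)
    (h1 : ∀ s, f s = 1 → deriv f s = 0 ∧ iteratedDeriv 2 f s = 0) : Continuous (psi f) := by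
  have cf : Continuous f := hf.continuous
  have cd : Continuous (deriv f) :=
    (hf.contDiff (n := 1)).continuous_deriv (by norm_num)
  have cu : Continuous fun s => rt (f s) := rt_cont.comp cf
  have cv : Continuous fun s => rt (f s - 1) := rt_cont.comp (cf.sub continuous_const)
  rw [continuous_iff_continuousAt]
  intro s₁
  by_cases hz : f s₁ = 0
  · have hd := h0 s₁ hz
    have hq := lemP_q hf hz hd.1 hd.2
    have hx : Tendsto (fun s => ‖deriv f s‖ ^ 2 / rt (f s) ^ 20) (𝓝 s₁) (𝓝 0) := by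
      apply tendsto_of_pow_four
      · intro a
        have := rt_nonneg (f a)
        positivity
      · refine hq.congr fun s => ?_
        rw [div_pow, ← pow_mul, ← pow_mul, ← rt_pow (f s), ← pow_mul]
    have hr : ContinuousAt (fun s => (1 + rt (f s) ^ 2) * (1 + rt (f s - 1) ^ 2) /
        rt (f s - 1) ^ 20) s₁ := by
      apply ContinuousAt.div
      · exact (((continuous_const.add (cu.pow 2)).mul
          (continuous_const.add (cv.pow 2)))).continuousAt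
      · exact (cv.pow 20).continuousAt
      · apply pow_ne_zero
        apply rt_ne
        rw [hz]
        norm_num
    have hm := hx.mul hr.tendsto
    rw [zero_mul] at hm
    have e0 : psi f s₁ = 0 := by
      unfold psi
      rw [hz, rt_zero]
      simp
    unfold ContinuousAt
    rw [e0]
    refine hm.congr fun s => ?_
    unfold psi
    rw [div_mul_div_comm, mul_assoc]
  · by_cases hw : f s₁ = 1
    · have hd := h1 s₁ hw
      have hf1 : Differentiable ℂ (fun s => f s - 1) := hf.sub_const 1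
      have hder : deriv (fun s => f s - 1) = deriv f := by
        funext s
        exact deriv_sub_const 1
      have hq := lemP_q hf1 (s₁ := s₁) (by rw [hw]; norm_num) (by rw [hder]; exact hd.1) (by
        rw [iteratedDeriv_succ, iteratedDeriv_one, hder]
        have := hd.2
        rw [iteratedDeriv_succ, iteratedDeriv_one] at this
        exact this)
      rw [hder] at hq
      have hx : Tendsto (fun s => ‖deriv f s‖ ^ 2 / rt (f s - 1) ^ 20) (𝓝 s₁) (𝓝 0) := by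
        apply tendsto_of_pow_four
        · intro a
          have := rt_nonneg (f a - 1)
          positivity
        · refine hq.congr fun s => ?_
          rw [div_pow, ← pow_mul, ← pow_mul, ← rt_pow (f s - 1), ← pow_mul]
      have hr : ContinuousAt (fun s => (1 + rt (f s) ^ 2) * (1 + rt (f s - 1) ^ 2) /
          rt (f s) ^ 20) s₁ := by
        apply ContinuousAt.div
        · exact (((continuous_const.add (cu.pow 2)).mul
            (continuous_const.add (cv.pow 2)))).continuousAt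
        · exact (cu.pow 20).continuousAt
        · apply pow_ne_zero
          exact rt_ne hz
      have hm := hx.mul hr.tendsto
      rw [zero_mul] at hm
      have e0 : psi f s₁ = 0 := by
        unfold psi
        rw [hw, sub_self, rt_zero]
        simp
      unfold ContinuousAt
      rw [e0]
      refine hm.congr fun s => ?_
      unfold psi
      rw [div_mul_div_comm, mul_comm (rt (f s - 1) ^ 20), mul_assoc]
    · apply ContinuousAt.div
      · exact (((cd.norm.pow 2).mul (continuous_const.add (cu.pow 2))).mul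
          (continuous_const.add (cv.pow 2))).continuousAt
      · exact ((cu.pow 20).mul (cv.pow 20)).continuousAt
      · exact mul_ne_zero (pow_ne_zero _ (rt_ne hz))
          (pow_ne_zero _ (rt_ne (sub_ne_zero.mpr hw)))

/-- a local holomorphic sixteenth root -/
theorem root_exists {f : ℂ → ℂ} {s₀ : ℂ} (hf : AnalyticAt ℂ f s₀) (h0 : f s₀ ≠ 0) :
    ∃ g : ℂ → ℂ, AnalyticAt ℂ g s₀ ∧ ∀ s, g s ^ 16 = f s := by
  refine ⟨fun s => (f s₀) ^ (((16 : ℕ) : ℂ)⁻¹) * (f s / f s₀) ^ (((16 : ℕ) : ℂ)⁻¹), ?_, ?_⟩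
  · apply AnalyticAt.mul analyticAt_const
    apply AnalyticAt.cpow
    · exact hf.div analyticAt_const h0
    · exact analyticAt_const
    · rw [div_self h0]
      exact Complex.one_mem_slitPlane
  · intro s
    rw [mul_pow, Complex.cpow_nat_inv_pow _ (by norm_num), Complex.cpow_nat_inv_pow _ (by norm_num)]
    field_simp

theorem lemP_alg {D G H W : ℝ} (hG : 0 < G) (hH : 0 < H)
    (h1 : 1 ≤ G ^ 16 + H ^ 16)
    (hm : D ^ 2 / (256 * G ^ 30) / (1 + G ^ 2) ^ 2 + D ^ 2 / (256 * H ^ 30) / (1 + H ^ 2) ^ 2 ≤ W) :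
    D ^ 2 * (1 + G ^ 2) * (1 + H ^ 2) / (G ^ 20 * H ^ 20) ≤ 6000 * W := by
  have h2 := metric_ineq hG hH h1
  have h3 := mul_le_mul_of_nonneg_left h2 (sq_nonneg D)
  have e1 : D ^ 2 * ((1 / 3000 : ℝ) * ((1 + G ^ 2) * (1 + H ^ 2) / (G ^ 20 * H ^ 20))) =
      (D ^ 2 * (1 + G ^ 2) * (1 + H ^ 2) / (G ^ 20 * H ^ 20)) / 3000 := by
    field_simp
  have e2 : D ^ 2 * ((1 / 128 : ℝ) * (1 / (G ^ 30 * (1 + G ^ 2) ^ 2) +
      1 / (H ^ 30 * (1 + H ^ 2) ^ 2))) = 2 * (D ^ 2 / (256 * G ^ 30) / (1 + G ^ 2) ^ 2 +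
        D ^ 2 / (256 * H ^ 30) / (1 + H ^ 2) ^ 2) := by
    field_simp
    ring
  rw [e1, e2] at h3
  linarith

theorem lemP_root_deriv {f g : ℂ → ℂ} {s₀ : ℂ} (hg : AnalyticAt ℂ g s₀)
    (hgf : ∀ s, g s ^ 16 = f s) (hne : g s₀ ≠ 0) :
    ‖deriv g s₀‖ ^ 2 = ‖deriv f s₀‖ ^ 2 / (256 * ‖g s₀‖ ^ 30) := by
  have e : f = fun s => g s ^ 16 := by
    funext s
    exact (hgf s).symm
  have h1 : deriv f s₀ = 16 * g s₀ ^ 15 * deriv g s₀ := by
    rw [e]
    have := (hg.differentiableAt.hasDerivAt.fun_pow 16).deriv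
    simpa using this
  rw [h1, norm_mul, norm_mul, norm_pow]
  have : ‖g s₀‖ ≠ 0 := norm_ne_zero_iff.mpr hne
  have h16 : ‖(16 : ℂ)‖ = 16 := by simp
  rw [h16]
  field_simp
  ring

theorem lemP_bound {f : ℂ → ℂ} (hf : Differentiable ℂ f)
    (h0 : ∀ s, f s = 0 → deriv f s = 0 ∧ iteratedDeriv 2 f s = 0)
    (h1 : ∀ s, f s = 1 → deriv f s = 0 ∧ iteratedDeriv 2 f s = 0) {R : ℝ} (hR : 0 < R) {s : ℂ}
    (hs : ‖s‖ ≤ R) : psi f s * (R ^ 2 - ‖s‖ ^ 2) ^ 2 ≤ 12000 * R ^ 2 := by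
  have hc : Continuous fun s => psi f s * (R ^ 2 - ‖s‖ ^ 2) ^ 2 := by
    have := psi_cont hf h0 h1
    fun_prop
  obtain ⟨s₀, hs₀, hmax⟩ := (isCompact_closedBall (0 : ℂ) R).exists_isMaxOn
    ⟨0, by simp [hR.le]⟩ hc.continuousOn
  have hs' : s ∈ Metric.closedBall (0 : ℂ) R := by simpa using hs
  refine le_trans (hmax hs') ?_
  have hs₀' : ‖s₀‖ ≤ R := by simpa using hs₀
  show psi f s₀ * (R ^ 2 - ‖s₀‖ ^ 2) ^ 2 ≤ 12000 * R ^ 2
  by_cases hz : psi f s₀ * (R ^ 2 - ‖s₀‖ ^ 2) ^ 2 = 0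
  · rw [hz]; positivity
  have hpsi : psi f s₀ ≠ 0 := left_ne_zero_of_mul hz
  have hR2 : (R ^ 2 - ‖s₀‖ ^ 2) ^ 2 ≠ 0 := right_ne_zero_of_mul hz
  have hR3 : R ^ 2 - ‖s₀‖ ^ 2 ≠ 0 := by
    intro h
    apply hR2
    rw [h]
    norm_num
  have hlt : ‖s₀‖ < R := by
    apply lt_of_le_of_ne hs₀'
    intro h
    apply hR3
    rw [h]
    ring
  have hpos : 0 < R ^ 2 - ‖s₀‖ ^ 2 := by nlinarith [norm_nonneg s₀]
  have hf0 : f s₀ ≠ 0 := by
    intro h
    apply hpsi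
    unfold psi
    rw [h, rt_zero]
    simp
  have hf1 : f s₀ - 1 ≠ 0 := by
    intro h
    apply hpsi
    unfold psi
    rw [h, rt_zero]
    simp
  have hd : deriv f s₀ ≠ 0 := by
    intro h
    apply hpsi
    unfold psi
    rw [h]
    simp
  have haf : AnalyticAt ℂ f s₀ := hf.analyticAt s₀
  obtain ⟨g, hg, hgf⟩ := root_exists haf hf0
  obtain ⟨h, hh, hhf⟩ := root_exists (f := fun s => f s - 1) (haf.sub analyticAt_const) hf1
  have hg0 : g s₀ ≠ 0 := by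
    intro e
    apply hf0
    rw [← hgf, e]
    norm_num
  have hh0 : h s₀ ≠ 0 := by
    intro e
    apply hf1
    have := hhf s₀
    rw [e] at this
    rw [← this]
    norm_num
  have hng : ∀ s, ‖g s‖ = rt (f s) := fun s => rt_of_pow (hgf s)
  have hnh : ∀ s, ‖h s‖ = rt (f s - 1) := fun s => rt_of_pow (hhf s)
  have hF : AnalyticAt ℂ (fun s => deriv f s / (g s ^ 10 * h s ^ 10)) s₀ :=
    haf.deriv.div ((hg.pow 10).mul (hh.pow 10))
      (mul_ne_zero (pow_ne_zero _ hg0) (pow_ne_zero _ hh0))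
  have hpsiF : ∀ s, ‖deriv f s / (g s ^ 10 * h s ^ 10)‖ ^ 2 * (1 + ‖g s‖ ^ 2) * (1 + ‖h s‖ ^ 2) =
      psi f s := by
    intro s
    unfold psi
    rw [norm_div, norm_mul, norm_pow, norm_pow, hng, hnh, div_pow, mul_pow, ← pow_mul, ← pow_mul]
    ring
  have hmx : ∀ᶠ s in 𝓝 s₀,
      ‖deriv f s / (g s ^ 10 * h s ^ 10)‖ ^ 2 * (1 + ‖g s‖ ^ 2) * (1 + ‖h s‖ ^ 2) *
        (R ^ 2 - ‖s‖ ^ 2) ^ 2 ≤
      ‖deriv f s₀ / (g s₀ ^ 10 * h s₀ ^ 10)‖ ^ 2 * (1 + ‖g s₀‖ ^ 2) * (1 + ‖h s₀‖ ^ 2) *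
        (R ^ 2 - ‖s₀‖ ^ 2) ^ 2 := by
    have hn : Metric.closedBall (0 : ℂ) R ∈ 𝓝 s₀ :=
      Metric.closedBall_mem_nhds_of_mem (by simpa using hlt)
    filter_upwards [hn] with s hs
    rw [hpsiF, hpsiF]
    exact hmax hs
  have hmi := max_ineq hF hg hh (div_ne_zero hd
    (mul_ne_zero (pow_ne_zero _ hg0) (pow_ne_zero _ hh0))) hlt hmx
  have hdh : deriv (fun s => f s - 1) s₀ = deriv f s₀ := deriv_sub_const 1
  rw [lemP_root_deriv hg hgf hg0, lemP_root_deriv hh hhf hh0, hdh] at hmi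
  have hgp : 0 < ‖g s₀‖ := norm_pos_iff.mpr hg0
  have hhp : 0 < ‖h s₀‖ := norm_pos_iff.mpr hh0
  have hone : 1 ≤ ‖g s₀‖ ^ 16 + ‖h s₀‖ ^ 16 := by
    rw [← norm_pow, ← norm_pow, hgf, hhf]
    calc (1 : ℝ) = ‖f s₀ - (f s₀ - 1)‖ := by simp
      _ ≤ ‖f s₀‖ + ‖f s₀ - 1‖ := norm_sub_le _ _
  have hfin := lemP_alg hgp hhp hone hmi
  have hpe : psi f s₀ = ‖deriv f s₀‖ ^ 2 * (1 + ‖g s₀‖ ^ 2) * (1 + ‖h s₀‖ ^ 2) /
      (‖g s₀‖ ^ 20 * ‖h s₀‖ ^ 20) := by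
    rw [hng, hnh]
    rfl
  rw [← hpe] at hfin
  calc psi f s₀ * (R ^ 2 - ‖s₀‖ ^ 2) ^ 2
      ≤ (6000 * (2 * R ^ 2 / (R ^ 2 - ‖s₀‖ ^ 2) ^ 2)) * (R ^ 2 - ‖s₀‖ ^ 2) ^ 2 :=
        mul_le_mul_of_nonneg_right hfin (by positivity)
    _ = 12000 * R ^ 2 := by
        field_simp
        ring

theorem lemP_psi_zero {f : ℂ → ℂ} (hf : Differentiable ℂ f)
    (h0 : ∀ s, f s = 0 → deriv f s = 0 ∧ iteratedDeriv 2 f s = 0)
    (h1 : ∀ s, f s = 1 → deriv f s = 0 ∧ iteratedDeriv 2 f s = 0) (s : ℂ) : psi f s = 0 := by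
  by_contra hne
  have hp : 0 < psi f s := lt_of_le_of_ne (psi_nonneg f s) (Ne.symm hne)
  set c := psi f s with hc
  obtain ⟨R, hR⟩ : ∃ R : ℝ, R = 2 * ‖s‖ + 1 + 48000 / c := ⟨_, rfl⟩
  have hq : 0 < 48000 / c := by positivity
  have hn := norm_nonneg s
  have hR1 : 1 ≤ R := by linarith
  have hR0 : 0 < R := by linarith
  have hsR : ‖s‖ ≤ R := by linarith
  have hb := lemP_bound hf h0 h1 hR0 hsR
  rw [← hc] at hb
  have h2 : 2 * ‖s‖ ≤ R := by linarith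
  have h3 : R ^ 2 / 2 ≤ R ^ 2 - ‖s‖ ^ 2 := by nlinarith
  have h4 : (R ^ 2 / 2) ^ 2 ≤ (R ^ 2 - ‖s‖ ^ 2) ^ 2 :=
    pow_le_pow_left₀ (by positivity) h3 2
  have h5 : c * (R ^ 2 / 2) ^ 2 ≤ 12000 * R ^ 2 :=
    le_trans (mul_le_mul_of_nonneg_left h4 hp.le) hb
  have h6 : c * R ^ 2 ≤ 48000 := by
    have hR2 : 0 < R ^ 2 := by positivity
    have : (c * R ^ 2) * R ^ 2 ≤ 48000 * R ^ 2 := by nlinarith
    exact le_of_mul_le_mul_right this hR2
  have h7 : c * R ≤ 48000 := by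
    have : c * R ≤ c * R ^ 2 := by
      apply mul_le_mul_of_nonneg_left _ hp.le
      nlinarith
    linarith
  have h8 : c * (1 + 48000 / c) ≤ c * R := by
    apply mul_le_mul_of_nonneg_left _ hp.le
    linarith
  have h9 : c * (1 + 48000 / c) = c + 48000 := by
    field_simp
  linarith

theorem lemP {f : ℂ → ℂ} (hf : Differentiable ℂ f)
    (h0 : ∀ s, f s = 0 → deriv f s = 0 ∧ iteratedDeriv 2 f s = 0)
    (h1 : ∀ s, f s = 1 → deriv f s = 0 ∧ iteratedDeriv 2 f s = 0) :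
    ∀ s, deriv f s = 0 := by
  intro s
  by_cases hf0 : f s = 0
  · exact (h0 s hf0).1
  by_cases hf1 : f s = 1
  · exact (h1 s hf1).1
  have hz := lemP_psi_zero hf h0 h1 s
  unfold psi at hz
  have hr0 : 0 < rt (f s) := lt_of_le_of_ne (rt_nonneg _) (Ne.symm (rt_ne hf0))
  have hr1 : 0 < rt (f s - 1) := lt_of_le_of_ne (rt_nonneg _) (Ne.symm (rt_ne (sub_ne_zero.mpr hf1)))
  rw [div_eq_zero_iff] at hz
  rcases hz with hz | hz
  · rcases mul_eq_zero.mp hz with hz | hz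
    · rcases mul_eq_zero.mp hz with hz | hz
      · exact norm_eq_zero.mp (pow_eq_zero_iff (by norm_num) |>.mp hz)
      · exact absurd hz (ne_of_gt (by positivity))
    · exact absurd hz (ne_of_gt (by positivity))
  · exact absurd hz (ne_of_gt (by positivity))

end Pool.Agent.H43.FX
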