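import Pool.Agent.H43.FX.Defs

/-!
# FX-LIOU : Liouville's theorem with finitely many removable singularities

Proof.  Let `P(ω) = ∏_{q ∈ Q}(ω - q)^2` and `g = f P` on `Qᶜ`, `g = 0` on `Q`.  `g` is entire:
at `q ∈ Q`, `|g(ω)| ≤ C |ω - q|^2` near `q`, so `g` has derivative `0` there.  Induct, or argue
as follows: `h = g/P` extends to an entire function: use the removable singularity theorem at
each point of `Q` (e.g. induct on the finite set `Q`, with
`Complex.differentiableOn_update_limUnder_of_bddAbove`, replacing `f` by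
`Function.update f q (limUnder ..)`, which is differentiable on the complement of `Q \ {q}`,
still locally bounded near the other points and still tends to `0` at infinity).  In the base
case `Q = ∅`: an entire function tending to `0` at infinity is `0` (Liouville:
it is bounded, hence constant, and the constant is `0`).
-/

namespace Pool.Agent.H43.FX

open Set Metric Filter Topology

theorem lr_base {f : ℂ → ℂ} (hf : ∀ ω, DifferentiableAt ℂ f ω)
    (hinf : ∀ ε : ℝ, 0 < ε → ∃ ρ : ℝ, ∀ ω, ρ < ‖ω‖ → ‖f ω‖ ≤ ε) (ω : ℂ) : f ω = 0 := by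
  have hd : Differentiable ℂ f := hf
  have ht : Tendsto f (cocompact ℂ) (𝓝 0) := by
    rw [Metric.tendsto_nhds]
    intro ε hε
    obtain ⟨ρ, hρ⟩ := hinf (ε / 2) (by positivity)
    filter_upwards [(tendsto_norm_cocompact_atTop (E := ℂ)).eventually_gt_atTop ρ] with x hx
    rw [dist_zero_right]
    have := hρ x hx
    linarith
  have h1 := hd.eq_const_of_tendsto_cocompact ht
  rw [h1]
  rfl

theorem lr_step {Q : Set ℂ} (hQ : Q.Finite) {a : ℂ} (ha : a ∉ Q) {f : ℂ → ℂ}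
    (hf : ∀ ω ∉ insert a Q, DifferentiableAt ℂ f ω)
    (hb : ∀ q ∈ insert a Q, ∃ δ M : ℝ, 0 < δ ∧ ∀ ω, 0 < ‖ω - q‖ → ‖ω - q‖ < δ → ‖f ω‖ ≤ M)
    (hinf : ∀ ε : ℝ, 0 < ε → ∃ ρ : ℝ, ∀ ω, ρ < ‖ω‖ → ‖f ω‖ ≤ ε) :
    ∃ f' : ℂ → ℂ, (∀ ω, ω ≠ a → f' ω = f ω) ∧ (∀ ω ∉ Q, DifferentiableAt ℂ f' ω) ∧
      (∀ q ∈ Q, ∃ δ M : ℝ, 0 < δ ∧ ∀ ω, 0 < ‖ω - q‖ → ‖ω - q‖ < δ → ‖f' ω‖ ≤ M) ∧
      (∀ ε : ℝ, 0 < ε → ∃ ρ : ℝ, ∀ ω, ρ < ‖ω‖ → ‖f' ω‖ ≤ ε) := by
  classical
  refine ⟨Function.update f a (limUnder (𝓝[≠] a) f), fun ω hω => Function.update_of_ne hω _ _,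
    ?_, ?_, ?_⟩
  · intro ω hω
    by_cases hωa : ω = a
    · subst hωa
      obtain ⟨δ, M, hδ, hM⟩ := hb ω (mem_insert _ _)
      have hn : Qᶜ ∈ 𝓝 ω := hQ.isClosed.isOpen_compl.mem_nhds ha
      obtain ⟨r, hr, hrQ⟩ := Metric.mem_nhds_iff.1 hn
      have hrδ : 0 < min r δ := lt_min hr hδ
      have hs : ball ω (min r δ) ∈ 𝓝 ω := ball_mem_nhds ω hrδ
      have h1 := Complex.differentiableOn_update_limUnder_of_bddAbove (f := f) hs ?_ ?_
      · exact (h1 ω (mem_ball_self hrδ)).differentiableAt hs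
      · intro x hx
        refine (hf x ?_).differentiableWithinAt
        rw [mem_insert_iff]
        rintro (h2 | h2)
        · exact hx.2 h2
        · exact hrQ (ball_subset_ball (min_le_left _ _) hx.1) h2
      · refine ⟨M, ?_⟩
        rintro _ ⟨x, hx, rfl⟩
        have h2 : x ≠ ω := hx.2
        have h3 : ‖x - ω‖ < min r δ := by
          have := hx.1
          rwa [mem_ball, dist_eq_norm] at this
        exact hM x (norm_pos_iff.2 (sub_ne_zero.2 h2)) (h3.trans_le (min_le_right _ _))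
    · have h1 : DifferentiableAt ℂ f ω := hf ω (by
        rw [mem_insert_iff]
        rintro (h2 | h2)
        · exact hωa h2
        · exact hω h2)
      refine h1.congr_of_eventuallyEq ?_
      filter_upwards [isOpen_ne.mem_nhds hωa] with x hx
      exact Function.update_of_ne hx _ _
  · intro q hq
    obtain ⟨δ, M, hδ, hM⟩ := hb q (mem_insert_of_mem _ hq)
    have hqa : a ≠ q := fun h => ha (h ▸ hq)
    have h1 : 0 < ‖a - q‖ := norm_pos_iff.2 (sub_ne_zero.2 hqa)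
    refine ⟨min δ ‖a - q‖, M, lt_min hδ h1, fun ω h2 h3 => ?_⟩
    have h4 : ω ≠ a := by
      rintro rfl
      exact lt_irrefl _ (h3.trans_le (min_le_right _ _))
    rw [Function.update_of_ne h4]
    exact hM ω h2 (h3.trans_le (min_le_left _ _))
  · intro ε hε
    obtain ⟨ρ, hρ⟩ := hinf ε hε
    refine ⟨max ρ ‖a‖, fun ω h2 => ?_⟩
    have h4 : ω ≠ a := by
      rintro rfl
      exact lt_irrefl _ ((le_max_right _ _).trans_lt h2)
    rw [Function.update_of_ne h4]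
    exact hρ ω ((le_max_left _ _).trans_lt h2)

theorem liou_rat {Q : Set ℂ} (hQ : Q.Finite) {f : ℂ → ℂ} (hf : ∀ ω ∉ Q, DifferentiableAt ℂ f ω)
    (hb : ∀ q ∈ Q, ∃ δ M : ℝ, 0 < δ ∧ ∀ ω, 0 < ‖ω - q‖ → ‖ω - q‖ < δ → ‖f ω‖ ≤ M)
    (hinf : ∀ ε : ℝ, 0 < ε → ∃ ρ : ℝ, ∀ ω, ρ < ‖ω‖ → ‖f ω‖ ≤ ε) : ∀ ω ∉ Q, f ω = 0 := by
  induction Q, hQ using Set.Finite.induction_on generalizing f with
  | empty =>
    intro ω _
    exact lr_base (fun ω => hf ω (notMem_empty _)) hinf ω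
  | @insert a Q ha hQ ih =>
    intro ω hω
    obtain ⟨f', h1, h2, h3, h4⟩ := lr_step hQ ha hf hb hinf
    have h5 : ω ≠ a := fun h => hω (h ▸ mem_insert _ _)
    rw [← h1 ω h5]
    exact ih h2 h3 h4 ω fun h => hω (mem_insert_of_mem _ h)

end Pool.Agent.H43.FX
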