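import Pool.Agent.H43.FX.TEDefs

/-!
# FX-PERSIST : periods at an accumulating sequence of parameters extend to a holomorphic family

Proof.  Passing to a subsequence (compactness of a closed ball), `q n → q₀`.
(1) `IsPer G ζ q₀`: pass to the limit in `G k (ζs n) (s + q n) = G k (ζs n) s` (joint
continuity of `G k` on `D × ℂ`).
(2) Let `k ≠ 3` with `deriv (G k ζ) 0 ≠ 0` (`nd`).  Since `q₀` is a period,
`deriv (G k ζ) q₀ = deriv (G k ζ) 0 ≠ 0`.  Consider the `C¹` map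
`Φ(ζ', s) = (ζ', G k ζ' s - G k ζ' 0)` on `D × ℂ`.  Its derivative at `(ζ, q₀)` is invertible
(triangular), so `Φ` is injective on a neighbourhood of `(ζ, q₀)` and has a local inverse which
is `C¹` (`ContDiffAt.toOpenPartialHomeomorph`, `ContDiffAt.to_localInverse`, or
`HasStrictFDerivAt`...).  Put `p(ζ') = (Φ⁻¹(ζ', 0)).2` for `ζ'` in a small ball `ball ζ ρ ⊆ D`;
`p` is differentiable, `p ζ = q₀`, `G k ζ' (p ζ') = G k ζ' 0`.
(3) For infinitely many `n` (those of the subsequence, large) `(ζs n, q n)` is in the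
injectivity neighbourhood and `Φ(ζs n, q n) = (ζs n, 0)`, so `q n = p (ζs n)`.
(4) `q₀ ≠ 0`: the same argument at `(ζ, 0)`: if `q₀ = 0` then `Φ(ζs n, q n) = (ζs n, 0) =
Φ(ζs n, 0)` with `(ζs n, q n)`, `(ζs n, 0)` both close to `(ζ, 0)`, so `q n = 0` by injectivity,
a contradiction.  Shrink `ρ` so that `p ≠ 0` on the ball (continuity).
(5) For `l` and `s` fixed, `ζ' ↦ G l ζ' (s + p ζ') - G l ζ' s` is holomorphic on `ball ζ ρ`
and vanishes at the points `ζs n → ζ`, `ζs n ≠ ζ` (infinitely many `n`), so it vanishes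
identically (identity theorem on the ball).
-/

namespace Pool.Agent.H43.FX

open Set Metric Filter Topology

/-- The implicit function theorem in the form used below. -/
lemma persist_impl {Φ : ℂ × ℂ → ℂ} {ζ s₀ : ℂ} (hΦ : ContDiffAt ℂ 1 Φ (ζ, s₀))
    (h0 : Φ (ζ, s₀) = 0) (hd : deriv (fun s => Φ (ζ, s)) s₀ ≠ 0) :
    ∃ p : ℂ → ℂ, (∀ᶠ x in 𝓝 ζ, DifferentiableAt ℂ p x) ∧ p ζ = s₀ ∧
      (∀ᶠ v in 𝓝 ((ζ, s₀) : ℂ × ℂ), Φ v = 0 ↔ p v.1 = v.2) := by
  have hdiff : HasFDerivAt Φ (fderiv ℂ Φ (ζ, s₀)) (ζ, s₀) :=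
    (hΦ.differentiableAt one_ne_zero).hasFDerivAt
  have h1 : HasDerivAt (fun s : ℂ => ((ζ, s) : ℂ × ℂ)) ((0 : ℂ), (1 : ℂ)) s₀ :=
    (hasDerivAt_const s₀ ζ).prodMk (hasDerivAt_id s₀)
  have h2 : HasDerivAt (fun s => Φ (ζ, s)) (fderiv ℂ Φ (ζ, s₀) (0, 1)) s₀ :=
    HasFDerivAt.comp_hasDerivAt s₀ (l := Φ) hdiff h1
  have h3 : fderiv ℂ Φ (ζ, s₀) (0, 1) ≠ 0 := by rwa [← h2.deriv]
  have if₂ : (fderiv ℂ Φ (ζ, s₀) ∘L .inr ℂ ℂ ℂ).IsInvertible := by
    refine ⟨ContinuousLinearEquiv.unitsEquivAut ℂ (Units.mk0 _ h3), ?_⟩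
    ext
    simp
  refine ⟨hΦ.implicitFunction one_ne_zero if₂, ?_, hΦ.implicitFunction_apply_self one_ne_zero if₂,
    ?_⟩
  · have := hΦ.contDiffAt_implicitFunction one_ne_zero if₂
    have h4 := this.eventually (by simp)
    filter_upwards [h4] with x hx
    exact hx.differentiableAt one_ne_zero
  · have := hΦ.eventually_apply_eq_iff_implicitFunction one_ne_zero if₂
    rwa [h0] at this

theorem persist {D : Set ℂ} {G : Fin 4 → ℂ → ℂ → ℂ} (h : TEData D G) {ζs : ℕ → ℂ} {ζ : ℂ}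
    (hζ : ζ ∈ D) (hlim : Tendsto ζs atTop (𝓝 ζ)) (hne : ∀ n, ζs n ≠ ζ) {q : ℕ → ℂ}
    (hq0 : ∀ n, q n ≠ 0) {M : ℝ} (hqb : ∀ n, ‖q n‖ ≤ M) (hper : ∀ n, IsPer G (ζs n) (q n)) :
    ∃ ρ : ℝ, 0 < ρ ∧ ball ζ ρ ⊆ D ∧ ∃ p : ℂ → ℂ, DifferentiableOn ℂ p (ball ζ ρ) ∧
      (∀ ζ' ∈ ball ζ ρ, p ζ' ≠ 0 ∧ IsPer G ζ' (p ζ')) ∧ ∃ᶠ n in atTop, p (ζs n) = q n := by
  have hCD : ∀ k, ∀ x ∈ D, ∀ s : ℂ, ContDiffAt ℂ 1 (fun p : ℂ × ℂ => G k p.1 p.2) (x, s) :=
    fun k x hx s => (h.c1 k).contDiffAt ((h.isOpen.prod isOpen_univ).mem_nhds ⟨hx, trivial⟩)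
  obtain ⟨q₀, -, φ, hφ, hq₀⟩ := (isCompact_closedBall (0 : ℂ) M).tendsto_subseq
    (x := q) (fun n => by simpa using hqb n)
  have hζφ : Tendsto (fun n => ζs (φ n)) atTop (𝓝 ζ) := hlim.comp hφ.tendsto_atTop
  have hq₀' : Tendsto (fun n => q (φ n)) atTop (𝓝 q₀) := hq₀
  -- the limit is a period
  have hper₀ : IsPer G ζ q₀ := by
    intro k s
    have h1 : Tendsto (fun n => G k (ζs (φ n)) (s + q (φ n))) atTop (𝓝 (G k ζ (s + q₀))) :=
      ((hCD k ζ hζ (s + q₀)).continuousAt.tendsto).comp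
        (hζφ.prodMk_nhds (tendsto_const_nhds.add hq₀'))
    have h2 : Tendsto (fun n => G k (ζs (φ n)) s) atTop (𝓝 (G k ζ s)) :=
      ((hCD k ζ hζ s).continuousAt.tendsto).comp (hζφ.prodMk_nhds tendsto_const_nhds)
    refine tendsto_nhds_unique h1 (h2.congr fun n => ?_)
    rw [hper (φ n) k s]
  obtain ⟨k, -, hk⟩ := h.nd ζ hζ
  set Φ : ℂ × ℂ → ℂ := fun p => G k p.1 p.2 - G k p.1 0 with hΦdef
  have hΦ : ∀ s, ContDiffAt ℂ 1 Φ (ζ, s) := by
    intro s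
    refine (hCD k ζ hζ s).sub ?_
    exact ContDiffAt.comp (g := fun p : ℂ × ℂ => G k p.1 p.2) (ζ, s) (hCD k ζ hζ 0)
      (contDiffAt_fst.prodMk contDiffAt_const)
  have hΦd : ∀ s, deriv (fun s => Φ (ζ, s)) s = deriv (G k ζ) s := by
    intro s
    simp only [hΦdef]
    rw [deriv_sub_const]
  have hd0 : deriv (fun s => Φ (ζ, s)) 0 ≠ 0 := by rwa [hΦd]
  have hdq : deriv (fun s => Φ (ζ, s)) q₀ ≠ 0 := by
    rw [hΦd]
    have h1 := deriv_comp_add_const (G k ζ) q₀ 0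
    rw [zero_add] at h1
    rw [← h1]
    have h2 : (fun x => G k ζ (x + q₀)) = G k ζ := funext fun x => hper₀ k x
    rwa [h2]
  have hΦn : ∀ n, Φ (ζs n, q n) = 0 := by
    intro n
    have := hper n k 0
    rw [zero_add] at this
    simp [hΦdef, this]
  have hΦq : Φ (ζ, q₀) = 0 := by
    have := hper₀ k 0
    rw [zero_add] at this
    simp [hΦdef, this]
  obtain ⟨p, hpd, hpζ, hpe⟩ := persist_impl (hΦ q₀) hΦq hdq
  obtain ⟨p₀, -, -, hp0e⟩ := persist_impl (hΦ 0) (by simp [hΦdef]) hd0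
  -- `q₀ ≠ 0`
  have hq₀ne : q₀ ≠ 0 := by
    rintro rfl
    have h1 := (hζφ.prodMk_nhds hq₀').eventually hp0e
    have h2 := (hζφ.prodMk_nhds (tendsto_const_nhds (x := (0 : ℂ)))).eventually hp0e
    obtain ⟨n, hn1, hn2⟩ := (h1.and h2).exists
    have h3 := hn1.1 (hΦn (φ n))
    have h4 := hn2.1 (by simp [hΦdef])
    exact hq0 (φ n) (h3.symm.trans h4)
  have hpc : ∀ᶠ x in 𝓝 ζ, p x ≠ 0 := by
    have hc : ContinuousAt p ζ := hpd.self_of_nhds.continuousAt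
    exact hc.eventually_ne (by rwa [hpζ])
  have hDn : ∀ᶠ x in 𝓝 ζ, x ∈ D := h.isOpen.mem_nhds hζ
  obtain ⟨ρ, hρ, hball⟩ := Metric.eventually_nhds_iff_ball.1 (hpd.and (hpc.and hDn))
  have hev : ∀ᶠ n in atTop, p (ζs (φ n)) = q (φ n) := by
    filter_upwards [(hζφ.prodMk_nhds hq₀').eventually hpe] with n hn
    exact hn.1 (hΦn (φ n))
  refine ⟨ρ, hρ, fun x hx => (hball x hx).2.2, p,
    fun x hx => (hball x hx).1.differentiableWithinAt, ?_, hφ.tendsto_atTop.frequently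
      hev.frequently⟩
  intro ζ' hζ'
  refine ⟨(hball ζ' hζ').2.1, ?_⟩
  intro l s
  set f : ℂ → ℂ := fun x => G l x (s + p x) - G l x s with hf
  have hfd : DifferentiableOn ℂ f (ball ζ ρ) := by
    intro x hx
    refine DifferentiableAt.differentiableWithinAt ?_
    have hxD := (hball x hx).2.2
    refine DifferentiableAt.sub ?_ ?_
    · exact DifferentiableAt.comp (g := fun p : ℂ × ℂ => G l p.1 p.2) x
        ((hCD l x hxD (s + p x)).differentiableAt one_ne_zero)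
        (differentiableAt_id.prodMk ((differentiableAt_const s).add (hball x hx).1))
    · exact DifferentiableAt.comp (g := fun p : ℂ × ℂ => G l p.1 p.2)
        (f := fun y : ℂ => ((y, s) : ℂ × ℂ)) x
        ((hCD l x hxD s).differentiableAt one_ne_zero)
        (differentiableAt_id.prodMk (differentiableAt_const s))
  have han : AnalyticOnNhd ℂ f (ball ζ ρ) := hfd.analyticOnNhd isOpen_ball
  have hfreq : ∃ᶠ x in 𝓝[≠] ζ, f x = 0 := by
    have ht : Tendsto (fun n => ζs (φ n)) atTop (𝓝[≠] ζ) :=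
      tendsto_nhdsWithin_iff.2 ⟨hζφ, Eventually.of_forall fun n => hne (φ n)⟩
    refine ht.frequently (Eventually.frequently ?_)
    filter_upwards [hev] with n hn
    simp only [hf]
    rw [hn, hper (φ n) l s, sub_self]
  have := han.eqOn_zero_of_preconnected_of_frequently_eq_zero
    (convex_ball ζ ρ).isPreconnected (mem_ball_self hρ) hfreq hζ'
  simp only [hf, Pi.zero_apply] at this
  exact sub_eq_zero.1 this

end Pool.Agent.H43.FX
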