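import Pool.Agent.H43.FX.PerCyc
import Pool.Agent.H43.FX.Persist

/-!
# FX-LOCGEN : local generator of the persistent periods

Proof.  For `ζ' ∈ D` let `P ζ' = {q | PP D G ζ' q}`; this is an additive subgroup of `ℂ`
(sums/negatives of the holomorphic families on a smaller ball) consisting of periods of all
`G k ζ'`; one of them is entire (from `c1`: `s ↦ G k ζ' s` is differentiable for `ζ' ∈ D`) and
nonconstant by `nd`, so by `per_cyclic` (applied to `Λ = P ζ'`) it is cyclic: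
`P ζ' = ℤ·π`, `π ∈ P ζ'`.
Let `q₀` be a generator of `P ζ`, `q₀ ≠ 0` by `hζ`, and `p` the holomorphic family through `q₀`
on `ball ζ ρ₀`, nonvanishing after shrinking.  For `ζ'` in the ball, `PP D G ζ' (p ζ')`
(use a smaller ball around `ζ'`).  CLAIM: for some `0 < ρ ≤ ρ₀`, `p ζ'` generates `P ζ'` for
all `ζ' ∈ ball ζ ρ`.  Otherwise there are `ζ_n → ζ` such that `p ζ_n` does not generate
`P ζ_n`; so `ζ_n ≠ ζ` and, if `π_n` is a generator of `P ζ_n`, `p ζ_n = m_n π_n` with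
`m_n : ℤ`, `|m_n| ≥ 2` (`m_n ≠ 0` as `p ζ_n ≠ 0`; `m_n = ±1` would make `p ζ_n` a generator).
`‖π_n‖ ≤ ‖p ζ_n‖` is bounded (for `n` large), so `persist` gives a holomorphic family `π` near
`ζ`, nonvanishing, with `π ζ_n = π_n` for infinitely many `n`.  `PP D G ζ (π ζ)`, so
`π ζ = N q₀` with `N : ℤ`, `N ≠ 0`.  But `|m_n| = ‖p ζ_n‖/‖π ζ_n‖ → ‖q₀‖/‖π ζ‖ = 1/|N| ≤ 1`
along the subsequence, contradicting `|m_n| ≥ 2`.
-/

namespace Pool.Agent.H43.FX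

open Set Metric Filter Topology

lemma locgen_mem {D : Set ℂ} {G : Fin 4 → ℂ → ℂ → ℂ} {ζ q : ℂ} (h : PP D G ζ q) : ζ ∈ D := by
  obtain ⟨ρ, hρ, hb, -⟩ := h
  exact hb (mem_ball_self hρ)

lemma locgen_per {D : Set ℂ} {G : Fin 4 → ℂ → ℂ → ℂ} {ζ q : ℂ} (h : PP D G ζ q) :
    IsPer G ζ q := by
  obtain ⟨ρ, hρ, hb, p, hp, hq, hper⟩ := h
  rw [← hq]
  exact hper ζ (mem_ball_self hρ)

/-- The group of persistent periods. -/
def ppGroup {D : Set ℂ} {G : Fin 4 → ℂ → ℂ → ℂ} (h : TEData D G) {ζ : ℂ} (hζ : ζ ∈ D) :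
    AddSubgroup ℂ where
  carrier := {q | PP D G ζ q}
  zero_mem' := by
    obtain ⟨ρ, hρ, hb⟩ := Metric.isOpen_iff.1 h.isOpen ζ hζ
    exact ⟨ρ, hρ, hb, fun _ => 0, differentiableOn_const _, rfl, fun ζ' _ k s => by
      simp only [add_zero]⟩
  add_mem' := by
    rintro q₁ q₂ ⟨ρ₁, hρ₁, hb₁, p₁, hp₁, hq₁, hper₁⟩ ⟨ρ₂, hρ₂, hb₂, p₂, hp₂, hq₂, hper₂⟩
    have h1 : ball ζ (min ρ₁ ρ₂) ⊆ ball ζ ρ₁ := ball_subset_ball (min_le_left _ _)
    have h2 : ball ζ (min ρ₁ ρ₂) ⊆ ball ζ ρ₂ := ball_subset_ball (min_le_right _ _)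
    refine ⟨min ρ₁ ρ₂, lt_min hρ₁ hρ₂, h1.trans hb₁, fun w => p₁ w + p₂ w,
      (hp₁.mono h1).add (hp₂.mono h2), ?_, fun ζ' hζ' k s => ?_⟩
    · show p₁ ζ + p₂ ζ = q₁ + q₂
      rw [hq₁, hq₂]
    · show G k ζ' (s + (p₁ ζ' + p₂ ζ')) = G k ζ' s
      rw [← add_assoc, hper₂ ζ' (h2 hζ') k, hper₁ ζ' (h1 hζ') k]
  neg_mem' := by
    rintro q ⟨ρ, hρ, hb, p, hp, hq, hper⟩
    refine ⟨ρ, hρ, hb, fun w => -p w, hp.neg, ?_, fun ζ' hζ' k s => ?_⟩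
    · show -p ζ = -q
      rw [hq]
    · show G k ζ' (s + -p ζ') = G k ζ' s
      have h1 := hper ζ' hζ' k (s + -p ζ')
      rw [neg_add_cancel_right] at h1
      exact h1.symm

lemma locgen_gen {D : Set ℂ} {G : Fin 4 → ℂ → ℂ → ℂ} (h : TEData D G) {ζ : ℂ} (hζ : ζ ∈ D) :
    ∃ lam, PP D G ζ lam ∧ ∀ q, PP D G ζ q → ∃ m : ℤ, q = m * lam := by
  obtain ⟨k, -, hk⟩ := h.nd ζ hζ
  have hdiff : Differentiable ℂ (G k ζ) := by
    intro s
    have h1 : ContDiffAt ℂ 1 (fun p : ℂ × ℂ => G k p.1 p.2) (ζ, s) :=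
      (h.c1 k).contDiffAt ((h.isOpen.prod isOpen_univ).mem_nhds ⟨hζ, mem_univ _⟩)
    have h2 : DifferentiableAt ℂ (fun p : ℂ × ℂ => G k p.1 p.2) (ζ, s) :=
      h1.differentiableAt one_ne_zero
    have h3 : DifferentiableAt ℂ (fun s : ℂ => (ζ, s)) s :=
      (differentiableAt_const ζ).prodMk differentiableAt_id
    exact DifferentiableAt.comp (g := fun p : ℂ × ℂ => G k p.1 p.2) s h2 h3
  obtain ⟨lam, h1, h2⟩ := per_cyclic (ppGroup h hζ) hdiff ⟨0, hk⟩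
    (fun q hq s => locgen_per (show PP D G ζ q from hq) k s)
  exact ⟨lam, h1, fun q hq => h2 q hq⟩

theorem local_gen {D : Set ℂ} {G : Fin 4 → ℂ → ℂ → ℂ} (h : TEData D G) {ζ : ℂ}
    (hζ : ∃ q, q ≠ 0 ∧ PP D G ζ q) :
    ∃ ρ : ℝ, 0 < ρ ∧ ball ζ ρ ⊆ D ∧ ∃ p : ℂ → ℂ, DifferentiableOn ℂ p (ball ζ ρ) ∧
      ∀ ζ' ∈ ball ζ ρ, p ζ' ≠ 0 ∧ PP D G ζ' (p ζ') ∧
        ∀ q, PP D G ζ' q → ∃ m : ℤ, q = m * p ζ' := by
  obtain ⟨q, hq0, hq⟩ := hζ
  have hζD : ζ ∈ D := locgen_mem hq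
  obtain ⟨q₀, hq₀, hgen⟩ := locgen_gen h hζD
  have hq₀0 : q₀ ≠ 0 := by
    rintro rfl
    obtain ⟨m, hm⟩ := hgen q hq
    exact hq0 (by rw [hm, mul_zero])
  obtain ⟨ρ₁, hρ₁, hb₁, p, hp, hpζ, hper⟩ := hq₀
  have hpos : 0 < min 1 ‖q₀‖ := lt_min one_pos (norm_pos_iff.2 hq₀0)
  have hcont : ContinuousAt p ζ :=
    (hp.differentiableAt (isOpen_ball.mem_nhds (mem_ball_self hρ₁))).continuousAt
  obtain ⟨ρ₂, hρ₂, hb₂⟩ := Metric.continuousAt_iff.1 hcont _ hpos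
  set ρ₀ := min ρ₁ ρ₂ with hρ₀
  have hρ₀pos : 0 < ρ₀ := lt_min hρ₁ hρ₂
  have hsub : ball ζ ρ₀ ⊆ ball ζ ρ₁ := ball_subset_ball (min_le_left _ _)
  have hclose : ∀ w ∈ ball ζ ρ₀, ‖p w - q₀‖ < min 1 ‖q₀‖ := by
    intro w hw
    have h1 := hb₂ (lt_of_lt_of_le (mem_ball.1 hw) (min_le_right _ _))
    rwa [hpζ, dist_eq_norm] at h1
  have hne0 : ∀ w ∈ ball ζ ρ₀, p w ≠ 0 := by
    intro w hw h0
    have h1 := hclose w hw
    rw [h0, zero_sub, norm_neg] at h1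
    exact absurd (lt_of_lt_of_le h1 (min_le_right _ _)) (lt_irrefl _)
  have hbd : ∀ w ∈ ball ζ ρ₀, ‖p w‖ ≤ ‖q₀‖ + 1 := by
    intro w hw
    have h1 := lt_of_lt_of_le (hclose w hw) (min_le_left _ _)
    have h2 : ‖p w‖ ≤ ‖p w - q₀‖ + ‖q₀‖ := by
      simpa using norm_add_le (p w - q₀) q₀
    linarith
  have hPP : ∀ w ∈ ball ζ ρ₀, PP D G w (p w) := by
    intro w hw
    have h1 : ball w (ρ₀ - dist w ζ) ⊆ ball ζ ρ₀ :=
      ball_subset_ball' (by linarith)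
    exact ⟨ρ₀ - dist w ζ, by rw [mem_ball] at hw; linarith, (h1.trans hsub).trans hb₁, p,
      hp.mono (h1.trans hsub), rfl, fun ζ' hζ' => hper ζ' (hsub (h1 hζ'))⟩
  by_contra hcon
  have hbad : ∀ n : ℕ, ∃ w ∈ ball ζ (ρ₀ / (n + 1)),
      ¬ ∀ q, PP D G w q → ∃ m : ℤ, q = m * p w := by
    intro n
    by_contra hn
    have hn1 : (0 : ℝ) < n + 1 := by positivity
    have hle : ρ₀ / (n + 1) ≤ ρ₀ := div_le_self hρ₀pos.le (by linarith [n.cast_nonneg (α := ℝ)])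
    refine hcon ⟨ρ₀ / (n + 1), div_pos hρ₀pos hn1,
      ((ball_subset_ball hle).trans hsub).trans hb₁, p,
      hp.mono ((ball_subset_ball hle).trans hsub), fun w hw => ?_⟩
    refine ⟨hne0 w (ball_subset_ball hle hw), hPP w (ball_subset_ball hle hw), ?_⟩
    by_contra h1
    exact hn ⟨w, hw, h1⟩
  choose ζs hζs hζbad using hbad
  have hζs' : ∀ n, ζs n ∈ ball ζ ρ₀ := by
    intro n
    refine ball_subset_ball ?_ (hζs n)
    exact div_le_self hρ₀pos.le (by linarith [n.cast_nonneg (α := ℝ)])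
  have hD : ∀ n, ζs n ∈ D := fun n => hb₁ (hsub (hζs' n))
  have hlim : Tendsto ζs atTop (𝓝 ζ) := by
    rw [tendsto_iff_dist_tendsto_zero]
    have h1 : Tendsto (fun n : ℕ => ρ₀ * (1 / ((n : ℝ) + 1))) atTop (𝓝 0) := by
      have := tendsto_one_div_add_atTop_nhds_zero_nat (𝕜 := ℝ)
      simpa using this.const_mul ρ₀
    refine squeeze_zero (fun _ => dist_nonneg) (fun n => ?_) h1
    rw [mul_one_div]
    exact (mem_ball.1 (hζs n)).le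
  have hne : ∀ n, ζs n ≠ ζ := by
    intro n hn
    refine hζbad n ?_
    rw [hn, hpζ]
    exact hgen
  choose π hπ hπgen using fun n => locgen_gen h (hD n)
  have hm : ∀ n, 2 * ‖π n‖ ≤ ‖p (ζs n)‖ ∧ π n ≠ 0 := by
    intro n
    obtain ⟨m, hm⟩ := hπgen n _ (hPP _ (hζs' n))
    have hp0 := hne0 _ (hζs' n)
    have hπ0 : π n ≠ 0 := by
      intro h0
      rw [h0, mul_zero] at hm
      exact hp0 hm
    have hm0 : m ≠ 0 := by
      rintro rfl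
      rw [Int.cast_zero, zero_mul] at hm
      exact hp0 hm
    have hm1 : |m| ≠ 1 := by
      intro h1
      refine hζbad n fun q hq => ?_
      obtain ⟨m', hm'⟩ := hπgen n q hq
      rcases (abs_eq zero_le_one).1 h1 with h2 | h2
      · exact ⟨m', by rw [hm', hm, h2]; push_cast; ring⟩
      · exact ⟨-m', by rw [hm', hm, h2]; push_cast; ring⟩
    have hm2 : 2 ≤ |m| := by
      have := abs_pos.2 hm0
      omega
    refine ⟨?_, hπ0⟩
    rw [hm, norm_mul, Complex.norm_intCast]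
    have h3 : (2 : ℝ) ≤ |(m : ℝ)| := by exact_mod_cast hm2
    exact mul_le_mul_of_nonneg_right h3 (norm_nonneg _)
  obtain ⟨ρ', hρ', hb', p', hp', hper', hfreq⟩ := persist h hζD hlim hne (q := π)
    (fun n => (hm n).2) (M := ‖q₀‖ + 1) (fun n => by
      have h1 := (hm n).1
      have h2 := hbd _ (hζs' n)
      have h3 := norm_nonneg (π n)
      linarith) (fun n => locgen_per (hπ n))
  have hcont' : ContinuousAt p' ζ :=
    (hp'.differentiableAt (isOpen_ball.mem_nhds (mem_ball_self hρ'))).continuousAt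
  obtain ⟨N, hN⟩ := hgen (p' ζ) ⟨ρ', hρ', hb', p', hp', rfl, fun w hw => (hper' w hw).2⟩
  have hp'0 : p' ζ ≠ 0 := (hper' ζ (mem_ball_self hρ')).1
  have hN0 : N ≠ 0 := by
    rintro rfl
    rw [Int.cast_zero, zero_mul] at hN
    exact hp'0 hN
  have h1 : Tendsto (fun n => 2 * ‖p' (ζs n)‖ - ‖p (ζs n)‖) atTop (𝓝 (2 * ‖p' ζ‖ - ‖p ζ‖)) :=
    ((hcont'.tendsto.comp hlim).norm.const_mul 2).sub (hcont.tendsto.comp hlim).norm
  have h2 : 2 * ‖p' ζ‖ - ‖p ζ‖ ≤ 0 := by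
    refine le_of_tendsto_of_frequently h1 (hfreq.mono fun n hn => ?_)
    rw [hn]
    have := (hm n).1
    linarith
  rw [hpζ, hN, norm_mul, Complex.norm_intCast] at h2
  have h3 : (1 : ℝ) ≤ |(N : ℝ)| := by exact_mod_cast Int.one_le_abs hN0
  have h4 : 0 < ‖q₀‖ := norm_pos_iff.2 hq₀0
  nlinarith

end Pool.Agent.H43.FX
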