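import Pool.Agent.H43.FX.LemPc

/-!
# FX-PIC3 : three units in a pencil

Proof.  Put `λ = (b₃-b₂)/(b₁-b₂)`, `μ = (b₁-b₃)/(b₁-b₂)` (both nonzero); then
`p - b₃ q = λ (p - b₁ q) + μ (p - b₂ q)`.  The function
`f = -(λ/μ) (p - b₁ q)/(p - b₂ q)` is entire, has no zeros, and `f s = 1` would give
`p s - b₃ q s = 0`.  So `lemP` applies (its hypotheses are vacuous) and `f' = 0`, i.e.
`(p - b₁q)'(p - b₂q) - (p - b₁q)(p - b₂q)' = 0`, and the left-hand side is
`(b₁ - b₂)(p'q - pq')`.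
-/

namespace Pool.Agent.H43.FX

theorem picard3 {p q : ℂ → ℂ} (hp : Differentiable ℂ p) (hq : Differentiable ℂ q)
    {b₁ b₂ b₃ : ℂ} (h12 : b₁ ≠ b₂) (h13 : b₁ ≠ b₃) (h23 : b₂ ≠ b₃)
    (h1 : ∀ s, p s - b₁ * q s ≠ 0) (h2 : ∀ s, p s - b₂ * q s ≠ 0)
    (h3 : ∀ s, p s - b₃ * q s ≠ 0) (s : ℂ) : deriv p s * q s - p s * deriv q s = 0 := by
  have d12 : b₁ - b₂ ≠ 0 := sub_ne_zero.2 h12
  have d32 : b₃ - b₂ ≠ 0 := sub_ne_zero.2 (Ne.symm h23)
  have d13 : b₁ - b₃ ≠ 0 := sub_ne_zero.2 h13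
  set c : ℂ := -((b₃ - b₂) / (b₁ - b₃)) with hc
  have hdu : ∀ z, HasDerivAt (fun z => p z - b₁ * q z) (deriv p z - b₁ * deriv q z) z := fun z =>
    (hp z).hasDerivAt.sub ((hq z).hasDerivAt.const_mul b₁)
  have hdv : ∀ z, HasDerivAt (fun z => p z - b₂ * q z) (deriv p z - b₂ * deriv q z) z := fun z =>
    (hp z).hasDerivAt.sub ((hq z).hasDerivAt.const_mul b₂)
  have hdf : ∀ z, HasDerivAt (fun z => c * ((p z - b₁ * q z) / (p z - b₂ * q z)))
      (c * (((deriv p z - b₁ * deriv q z) * (p z - b₂ * q z) -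
        (p z - b₁ * q z) * (deriv p z - b₂ * deriv q z)) / (p z - b₂ * q z) ^ 2)) z := fun z =>
    ((hdu z).div (hdv z) (h2 z)).const_mul c
  have hc0 : c ≠ 0 := neg_ne_zero.2 (div_ne_zero d32 d13)
  have key := lemP (f := fun z => c * ((p z - b₁ * q z) / (p z - b₂ * q z)))
    (fun z => (hdf z).differentiableAt)
    (fun z hz => absurd hz (mul_ne_zero hc0 (div_ne_zero (h1 z) (h2 z))))
    (fun z hz => by
      exfalso
      have e1 : c * (p z - b₁ * q z) = p z - b₂ * q z := by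
        have h2z := h2 z
        have hz' : c * (p z - b₁ * q z) / (p z - b₂ * q z) = 1 := by rw [mul_div_assoc]; exact hz
        exact (div_eq_one_iff_eq h2z).1 hz'
      apply h3 z
      have e2 : (b₁ - b₃) * (c * (p z - b₁ * q z)) = -(b₃ - b₂) * (p z - b₁ * q z) := by
        rw [hc]
        field_simp
      rw [e1] at e2
      have e3 : (b₁ - b₂) * (p z - b₃ * q z) = 0 := by linear_combination e2
      exact (mul_eq_zero.1 e3).resolve_left d12)
  have k1 := key s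
  rw [(hdf s).deriv] at k1
  have k2 := (mul_eq_zero.1 k1).resolve_left hc0
  have k3 := (div_eq_zero_iff.1 k2).resolve_right (pow_ne_zero 2 (h2 s))
  have k4 : (b₁ - b₂) * (deriv p s * q s - p s * deriv q s) = 0 := by linear_combination k3
  exact (mul_eq_zero.1 k4).resolve_left d12

end Pool.Agent.H43.FX
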