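import Pool.Agent.H43.FX.NonVan
import Pool.Agent.H43.FX.Picard3

/-!
# FX-T1 : three regular lines force `w = 0`

Proof.  Fix `p ∈ D2`, `P₁ = gen (sq ξ δ τ (fun q => q.1) · p)`,
`P₂ = gen (sq ξ δ τ 1 · p)`, entire.  By `nonvan` and `picard3`,
`P₁' P₂ - P₁ P₂' = 0` everywhere.  At `s = 0` (`gen_zero`, `gen_deriv`):
`P₁(0) = p.1`, `P₂(0) = 1`, `P₁'(0) = sq .. 1 p = w p + δ p * p.1`
(`fderiv (fun q => q.1) p (w p, c p) = w p`, `T` does not enter as `m = 0`), `P₂'(0) = δ p`.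
So `0 = w p + δ p p.1 - p.1 δ p = w p`.
-/

namespace Pool.Agent.H43.FX

open Set Metric Filter Topology

variable {b z' : Fin 4 → ℂ} {zi : ℂ} {n d : ℕ} {w c δ τ : ℂ × ℂ → ℂ}

theorem t1 (h : Lvl2 b z' zi n d w c δ τ) (hb : Function.Injective b)
    (hz' : Function.Injective z') {j₁ j₂ j₃ : Fin 4} (h12 : j₁ ≠ j₂) (h13 : j₁ ≠ j₃)
    (h23 : j₂ ≠ j₃)
    (hreg : ∀ j ∈ ({j₁, j₂, j₃} : Set (Fin 4)),
      ∃ wh ∈ RatX (range b \ {b j}) Kt, ∀ p ∈ D2 b, w p = (p.1 - b j) * wh p)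
    {p : ℂ × ℂ} (hp : p ∈ D2 b) : w p = 0 := by
  have e1 : EntSeq (fun m => sq (fun q => (w q, c q)) δ τ (fun q => q.1) m p) :=
    h.ent_om.entSeq hp
  have e2 : EntSeq (fun m => sq (fun q => (w q, c q)) δ τ (fun _ => 1) m p) :=
    h.ent_one.entSeq hp
  have key := picard3 (gen_differentiable e1) (gen_differentiable e2) (hb.ne h12) (hb.ne h13)
    (hb.ne h23) (nonvan h hb hz' (hreg j₁ (by simp)) hp) (nonvan h hb hz' (hreg j₂ (by simp)) hp)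
    (nonvan h hb hz' (hreg j₃ (by simp)) hp) 0
  rw [(gen_deriv e1 0).deriv, (gen_deriv e2 0).deriv, gen_zero, gen_zero, gen_zero,
    gen_zero] at key
  have h1 : sq (fun q => (w q, c q)) δ τ (fun q => q.1) (0 + 1) p = w p + δ p * p.1 := by
    have hf : fderiv ℂ (fun q : ℂ × ℂ => q.1) p = ContinuousLinearMap.fst ℂ ℂ ℂ := fderiv_fst
    change fderiv ℂ (fun q : ℂ × ℂ => q.1) p (w p, c p) + (δ p + ((0 : ℕ) : ℂ) * τ p) * p.1 = _
    rw [hf]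
    simp
  have h2 : sq (fun q => (w q, c q)) δ τ (fun _ => 1) (0 + 1) p = δ p := by
    change fderiv ℂ (fun _ : ℂ × ℂ => (1 : ℂ)) p (w p, c p) + (δ p + ((0 : ℕ) : ℂ) * τ p) * 1 = _
    simp
  rw [h1, h2] at key
  change (w p + δ p * p.1) * 1 - p.1 * δ p = 0 at key
  linear_combination key

end Pool.Agent.H43.FX
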