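import Pool.Agent.H43.FX.TwoEnds
import Pool.Agent.H43.FX.EndExp
import Pool.Agent.H43.FX.GenC1
import Pool.Agent.H43.FX.RatTool

/-!
# FX-TE2 : the reduced field has at most one end

Proof.  Let `l` be an index different from `j`, `j'`.  Choose `t₀` with
`wh(b_j,t₀) ≠ 0`, `wh'(b_{j'},t₀) ≠ 0` (`wh`, `wh'` from the two `IsEnd2`; nonzero
polynomials in `t`, `ratx_restrict`, `kt_iff`), `t₀ ≠ z'_l`, `t₀ ≠ z'_j`.
Let `ξ = (w,c)` and, for `ζ ∉ range b`,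
`F 0 ζ = gen (sq ξ 0 τ (fun q => q.2) · (ζ,t₀))`, `F 1 ζ = F 2 ζ = gen (sq ξ 0 τ y_l · (ζ,t₀))`,
`X ζ = gen (sq ξ 0 τ y_j · (ζ,t₀))` (`y_l = (t - z'_l)/(ω-b_l)^3`; `ent_t`, `ent_y`).
`D = {ζ | ζ ∉ range b ∧ w(ζ,t₀) ≠ 0}`.  `D` is open; `w(·,t₀)` is analytic on the preconnected
open set `(range b)ᶜ` and not identically zero (near `b_j` it is `β^{1-n} wh(ζ,t₀) ≠ 0`), so its
zero set there is countable and `D` is preconnected
(`Set.Countable.isPathConnected_compl_of_one_lt_rank`).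
(1) `C¹`: `gen_c1` with `c m ζ = sq .. m (ζ,t₀)` (analytic on `D`: `sq_analytic`, `ratkt_analytic`
composed with `ζ ↦ (ζ,t₀)`; `LUE D` by `LUE.comp`).
(2) `hnd`: `deriv (F 0 ζ) 0 = sq .. 1 = c(ζ,t₀)`; if it is `0`, then
`deriv (F 1 ζ) 0 = fderiv y_l (ζ,t₀)(w, 0) = -3 w (t₀-z'_l)/(ζ-b_l)^4 ≠ 0`.
(`gen_deriv`, `gen_zero`.)
(3) Ends: `e₀ = b_j`, `e₁ = b_{j'}`.  At `b_j`: `ch(b_j,t) = 0` for all `t`, so by `ratx_div`
`ch(x,t) = (x-b_j) W1(x,t)`, and `τh - n wh = (x-b_j) τ1` (for `x ∉ range b \ {b_j}`), with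
`W1, τ1 ∈ RatX (range b \ {b j}) Kt`; so for `x` near `b_j`, `x ≠ b_j`:
`ξ = ((x-b_j)^{1-n} wh, (x-b_j)^{1-n} W1)`, `τ = (x-b_j)^{-n}(n wh + (x-b_j)τ1)`.
Apply `end_exp` with `E = ℂ`, `x₀ = b_j`, `y₀ = t₀`, `ρ` smaller than all `‖b_j - b_l‖`
(`b_l ≠ b_j`) and `ρ ≤ ‖t₀ - z'_j‖`; take `x₁ = ζ`, `y₁ = t₀`.  With the jets `LUE.jet`:
`t` (`h = 0`, `fh = t`), `y_l` (`h = 0`, `fh = y_l`, analytic as `b_l ≠ b_j`),
`y_j` (`h = 3`, `fh = t - z'_j`, nonzero for `‖t-t₀‖ < ρ`).  The same at `b_{j'}`, where `y_j`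
is regular (`h = 0`).  The punctured balls of small radius are in `D` because
`w(ζ,t₀) = β^{1-n}wh(ζ,t₀)`, `wh(b_j,t₀) ≠ 0`.
So `two_ends` gives `False`.
-/

namespace Pool.Agent.H43.FX

open Set Metric Filter Topology

variable {b z' : Fin 4 → ℂ} {zi : ℂ} {n d : ℕ} {w c δ τ : ℂ × ℂ → ℂ}

/-! ### Auxiliary facts -/

lemma te2_third (j j' : Fin 4) : ∃ l : Fin 4, l ≠ j ∧ l ≠ j' := by
  revert j j'
  decide

lemma te2_finite (b : Fin 4 → ℂ) : (range b).Finite := Set.finite_range b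

lemma te2_isOpen_compl (b : Fin 4 → ℂ) : IsOpen {ζ : ℂ | ζ ∉ range b} :=
  (te2_finite b).isClosed.isOpen_compl

lemma te2_isOpen_D2 (b : Fin 4 → ℂ) : IsOpen (D2 b) :=
  (te2_isOpen_compl b).preimage continuous_fst

lemma te2_connected_compl (b : Fin 4 → ℂ) : IsConnected {ζ : ℂ | ζ ∉ range b} :=
  Set.Countable.isConnected_compl_of_one_lt_rank
    (by rw [Complex.rank_real_complex]; norm_num) (te2_finite b).countable

/-- The nonvanishing set of an analytic function on the complement of `range b`. -/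
lemma te2_preconn (b : Fin 4 → ℂ) {f : ℂ → ℂ} (hf : AnalyticOnNhd ℂ f {ζ : ℂ | ζ ∉ range b})
    {x : ℂ} (hx : x ∉ range b) (h0 : f x ≠ 0) :
    IsPreconnected {ζ : ℂ | ζ ∉ range b ∧ f ζ ≠ 0} := by
  have h1 := hf.preimage_zero_mem_codiscreteWithin h0 hx (te2_connected_compl b)
  have h2 : IsDiscrete ({ζ : ℂ | f ζ = 0} ∩ {ζ : ℂ | ζ ∉ range b}) :=
    isDiscrete_of_codiscreteWithin h1
  have h3 : ({ζ : ℂ | f ζ = 0} ∩ {ζ : ℂ | ζ ∉ range b}).Countable :=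
    (HereditarilyLindelofSpace.isLindelof _).countable_of_isDiscrete h2
  have h4 : ((range b) ∪ ({ζ : ℂ | f ζ = 0} ∩ {ζ : ℂ | ζ ∉ range b})).Countable :=
    (te2_finite b).countable.union h3
  have h5 := Set.Countable.isConnected_compl_of_one_lt_rank
    (E := ℂ) (by rw [Complex.rank_real_complex]; norm_num) h4
  have h6 : {ζ : ℂ | ζ ∉ range b ∧ f ζ ≠ 0} =
      ((range b) ∪ ({ζ : ℂ | f ζ = 0} ∩ {ζ : ℂ | ζ ∉ range b}))ᶜ := by
    ext ζ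
    simp only [mem_ofPred_eq, mem_compl_iff, mem_union, mem_inter_iff]
    tauto
  rw [h6]
  exact h5.isPreconnected

/-- The functions `y_l`. -/
lemma te2_y_analytic {l : Fin 4} {p : ℂ × ℂ} (hp : p.1 ≠ b l) :
    AnalyticAt ℂ (fun q : ℂ × ℂ => (q.2 - z' l) / (q.1 - b l) ^ 3) p := by
  have h1 : AnalyticAt ℂ (fun q : ℂ × ℂ => q.2 - z' l) p := analyticAt_snd.sub analyticAt_const
  have h2 : AnalyticAt ℂ (fun q : ℂ × ℂ => (q.1 - b l) ^ 3) p :=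
    (analyticAt_fst.sub analyticAt_const).pow 3
  exact h1.div h2 (pow_ne_zero _ (sub_ne_zero.2 hp))

lemma te2_y_fderiv {l : Fin 4} {ζ t₀ w₀ : ℂ} (hp : ζ ≠ b l) :
    fderiv ℂ (fun q : ℂ × ℂ => (q.2 - z' l) / (q.1 - b l) ^ 3) (ζ, t₀) (w₀, 0) =
      -3 * w₀ * (t₀ - z' l) / (ζ - b l) ^ 4 := by
  have h0 : ζ - b l ≠ 0 := sub_ne_zero.2 hp
  have hf := (te2_y_analytic (b := b) (z' := z') (l := l) (p := (ζ, t₀)) hp).differentiableAt.hasFDerivAt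
  have hγ : HasDerivAt (fun s : ℂ => ((ζ + s * w₀, t₀) : ℂ × ℂ)) (w₀, 0) 0 := by
    have h1 : HasDerivAt (fun s : ℂ => ζ + s * w₀) w₀ 0 := by
      simpa using ((hasDerivAt_id (0 : ℂ)).mul_const w₀).const_add ζ
    exact h1.prodMk (hasDerivAt_const _ _)
  have hf' : HasFDerivAt (fun q : ℂ × ℂ => (q.2 - z' l) / (q.1 - b l) ^ 3)
      (fderiv ℂ (fun q : ℂ × ℂ => (q.2 - z' l) / (q.1 - b l) ^ 3) (ζ, t₀))
      ((fun s : ℂ => ((ζ + s * w₀, t₀) : ℂ × ℂ)) 0) := by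
    simpa using hf
  have h1 := hf'.comp_hasDerivAt (0 : ℂ) hγ
  have h2 : HasDerivAt (fun s : ℂ => (t₀ - z' l) / (ζ + s * w₀ - b l) ^ 3)
      (-3 * w₀ * (t₀ - z' l) / (ζ - b l) ^ 4) 0 := by
    have h3 : HasDerivAt (fun s : ℂ => (ζ + s * w₀ - b l) ^ 3)
        (3 * (ζ + 0 * w₀ - b l) ^ 2 * w₀) 0 := by
      have h4 : HasDerivAt (fun s : ℂ => ζ + s * w₀ - b l) w₀ 0 := by
        simpa using (((hasDerivAt_id (0 : ℂ)).mul_const w₀).const_add ζ).sub_const (b l)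
      simpa using h4.fun_pow 3
    have h5 := (hasDerivAt_const (0 : ℂ) (t₀ - z' l)).div h3 (by simpa using h0)
    refine h5.congr_deriv ?_
    have h6 : ζ + 0 * w₀ - b l = ζ - b l := by ring
    rw [h6]
    field_simp
    ring
  exact h1.unique h2

/-- The vector field, the time scale and the functions are analytic on `D2 b`. -/
lemma te2_analytic (h : Lvl2 b z' zi n d w c δ τ) :
    AnalyticOnNhd ℂ (fun p => (w p, c p)) (D2 b) ∧ AnalyticOnNhd ℂ τ (D2 b) := by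
  refine ⟨fun p hp => ?_, fun p hp => ?_⟩
  · exact (rw_analytic h.mw (x := p.1) (t := p.2) hp).prod (rw_analytic h.mc (x := p.1) (t := p.2) hp)
  · exact rw_analytic h.mτ (x := p.1) (t := p.2) hp

/-- The data at an end. -/
lemma te2_end (h : Lvl2 b z' zi n d w c δ τ) (hb : Function.Injective b) {k : Fin 4}
    {n' : ℕ} {wh ch τh : ℂ × ℂ → ℂ} (mwh : wh ∈ RatX (range b \ {b k}) Kt)
    (mch : ch ∈ RatX (range b \ {b k}) Kt) (mτh : τh ∈ RatX (range b \ {b k}) Kt)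
    (e : ∀ p ∈ D2 b, w p = (p.1 - b k) ^ (1 - (n' : ℤ)) * wh p ∧
      c p = (p.1 - b k) ^ (-(n' : ℤ)) * ch p ∧ τ p = (p.1 - b k) ^ (-(n' : ℤ)) * τh p)
    (e0 : ∀ t : ℂ, ch (b k, t) = 0 ∧ τh (b k, t) = (n' : ℂ) * wh (b k, t)) {t₀ : ℂ}
    (ht₀ : wh (b k, t₀) ≠ 0) :
    ∃ r M : ℝ, 0 < r ∧ ∀ ζ : ℂ, 0 < ‖ζ - b k‖ → ‖ζ - b k‖ < r →
      (ζ ∉ range b ∧ w (ζ, t₀) ≠ 0) ∧ ∃ c₀ : ℂ, c₀ ≠ 0 ∧ ‖c₀⁻¹‖ ≤ M ∧
        ExpEnd c₀ 0 (gen (fun m => sq (fun p => (w p, c p)) (fun _ => 0) τ (fun p => p.2) m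
          (ζ, t₀))) ∧
        (∀ l, l ≠ k → ExpEnd c₀ 0 (gen (fun m => sq (fun p => (w p, c p)) (fun _ => 0) τ
          (fun p => (p.2 - z' l) / (p.1 - b l) ^ 3) m (ζ, t₀)))) ∧
        (t₀ ≠ z' k → ExpEndS c₀ 3 (gen (fun m => sq (fun p => (w p, c p)) (fun _ => 0) τ
          (fun p => (p.2 - z' k) / (p.1 - b k) ^ 3) m (ζ, t₀)))) := by
  have hk : b k ∉ range b \ {b k} := fun hk => hk.2 rfl
  obtain ⟨W1, mW1, hW1⟩ := ratx_div mch hk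
  have mg : (fun p => τh p - (n' : ℂ) * wh p) ∈ RatX (range b \ {b k}) Kt := by
    have := Subalgebra.sub_mem _ mτh (Subalgebra.smul_mem _ mwh (n' : ℂ))
    exact this
  obtain ⟨τ1, mτ1, hτ1⟩ := ratx_div mg hk
  have hW1' : ∀ x ∉ range b \ {b k}, ∀ y, ch (x, y) = (x - b k) * W1 (x, y) := by
    intro x hx y
    rw [hW1 x hx y, (e0 y).1, zero_add]
  have hτ1' : ∀ x ∉ range b \ {b k}, ∀ y,
      τh (x, y) = (n' : ℂ) * wh (x, y) + (x - b k) * τ1 (x, y) := by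
    intro x hx y
    have h1 := hτ1 x hx y
    rw [(e0 y).2, sub_self, zero_add] at h1
    rw [← h1]
    ring
  -- a small radius
  obtain ⟨ρ₀, hρ₀, hρ₀'⟩ : ∃ ρ₀ : ℝ, 0 < ρ₀ ∧ ∀ x : ℂ, ‖x - b k‖ < ρ₀ → x ∉ range b \ {b k} := by
    have h1 : IsOpen (range b \ {b k})ᶜ :=
      ((te2_finite b).subset sdiff_subset).isClosed.isOpen_compl
    obtain ⟨ρ₀, h2, h3⟩ := Metric.isOpen_iff.1 h1 (b k) hk
    exact ⟨ρ₀, h2, fun x hx => h3 (mem_ball_iff_norm.2 hx)⟩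
  obtain ⟨ρ, hρ, hρle, hρt⟩ : ∃ ρ : ℝ, 0 < ρ ∧ ρ ≤ ρ₀ ∧ (t₀ ≠ z' k → ρ ≤ ‖t₀ - z' k‖) := by
    by_cases ht : t₀ = z' k
    · exact ⟨ρ₀, hρ₀, le_rfl, fun h => absurd ht h⟩
    · exact ⟨min ρ₀ ‖t₀ - z' k‖, lt_min hρ₀ (norm_pos_iff.2 (sub_ne_zero.2 ht)), min_le_left _ _,
        fun _ => min_le_right _ _⟩
  have hD : ∀ x : ℂ, 0 < ‖x - b k‖ → ‖x - b k‖ < ρ → x ∉ range b := by
    intro x h1 h2 h3
    have h4 := hρ₀' x (h2.trans_le hρle)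
    apply h4
    refine ⟨h3, fun h5 => ?_⟩
    rw [mem_singleton_iff] at h5
    rw [h5, sub_self, norm_zero] at h1
    exact lt_irrefl _ h1
  obtain ⟨δ₁, M, hδ₁, hend⟩ := end_exp (E := ℂ) (x₀ := b k) (y₀ := t₀) (n := n')
    (ξ := fun p => (w p, c p)) (T := τ) (Vh := wh) (τ1 := τ1) (W1 := W1)
    (ratkt_analytic mwh hk) (ratkt_analytic mW1 hk) (ratkt_analytic mτ1 hk) ht₀ hρ
    (by
      intro x h1 h2 y _
      have h3 := hD x h1 h2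
      obtain ⟨ew, ec, -⟩ := e (x, y) h3
      have h4 : x - b k ≠ 0 := norm_pos_iff.1 h1
      ext1
      · exact ew
      · change c (x, y) = (x - b k) ^ (1 - (n' : ℤ)) • W1 (x, y)
        rw [ec, hW1' x (fun h => h3 h.1) y, smul_eq_mul, ← mul_assoc]
        congr 1
        change (x - b k) ^ (-(n' : ℤ)) * (x - b k) = _
        rw [← zpow_add_one₀ h4]
        congr 1
        ring)
    (by
      intro x h1 h2 y _
      have h3 := hD x h1 h2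
      obtain ⟨-, -, eτ⟩ := e (x, y) h3
      rw [eτ, hτ1' x (fun h => h3 h.1) y])
  -- nonvanishing of `w` near the end
  obtain ⟨r₁, hr₁, hw⟩ : ∃ r₁ : ℝ, 0 < r₁ ∧ ∀ x : ℂ, ‖x - b k‖ < r₁ → wh (x, t₀) ≠ 0 := by
    have h1 : ContinuousAt (fun x : ℂ => wh (x, t₀)) (b k) := by
      have h2 : ContinuousAt wh (b k, t₀) := (ratkt_analytic mwh hk).continuousAt
      have h3 : ContinuousAt (fun x : ℂ => ((x, t₀) : ℂ × ℂ)) (b k) := by fun_prop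
      exact ContinuousAt.comp (f := fun x : ℂ => ((x, t₀) : ℂ × ℂ)) h2 h3
    obtain ⟨r₁, h2, h3⟩ := Metric.eventually_nhds_iff.1 (h1.eventually_ne ht₀)
    exact ⟨r₁, h2, fun x hx => h3 (by rwa [dist_eq_norm])⟩
  refine ⟨min (min ρ δ₁) r₁, M, lt_min (lt_min hρ hδ₁) hr₁, fun ζ h1 h2 => ?_⟩
  have h2ρ : ‖ζ - b k‖ < ρ := h2.trans_le ((min_le_left _ _).trans (min_le_left _ _))
  have h2δ : ‖ζ - b k‖ < δ₁ := h2.trans_le ((min_le_left _ _).trans (min_le_right _ _))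
  have h2r : ‖ζ - b k‖ < r₁ := h2.trans_le (min_le_right _ _)
  have hζ := hD ζ h1 h2ρ
  have hp : (ζ, t₀) ∈ D2 b := hζ
  refine ⟨⟨hζ, ?_⟩, ?_⟩
  · rw [(e (ζ, t₀) hp).1]
    exact mul_ne_zero (zpow_ne_zero _ (norm_pos_iff.1 h1)) (hw ζ h2r)
  · obtain ⟨c₀, hc₀, hM, hall⟩ := hend ζ h1 h2δ t₀ (by simpa using hδ₁)
    refine ⟨c₀, hc₀, hM, ?_, fun l hl => ?_, fun ht => ?_⟩
    · refine (hall 0 (fun p => p.2) (fun p => p.2) _ (fun x _ y _ => analyticAt_snd) ?_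
        (h.ent_t.jet hp)).1
      intro x _ _ y _
      simp
    · refine (hall 0 (fun p => (p.2 - z' l) / (p.1 - b l) ^ 3)
        (fun p => (p.2 - z' l) / (p.1 - b l) ^ 3) _ (fun x hx y _ => te2_y_analytic ?_) ?_
        ((h.ent_y l).jet hp)).1
      · intro hxl
        apply hρ₀' x (hx.trans_le hρle)
        refine ⟨⟨l, hxl.symm⟩, fun hxk => ?_⟩
        rw [mem_singleton_iff] at hxk
        exact hl (hb (hxl.symm.trans hxk))
      · intro x _ _ y _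
        simp
    · refine (hall 3 (fun p => (p.2 - z' k) / (p.1 - b k) ^ 3)
        (fun p => p.2 - z' k) _ (fun x _ y _ => analyticAt_snd.sub analyticAt_const) ?_
        ((h.ent_y k).jet hp)).2 ?_
      · intro x _ _ y _
        change (y - z' k) / (x - b k) ^ 3 = (x - b k) ^ (-((3 : ℕ) : ℤ)) * (y - z' k)
        rw [zpow_neg, zpow_natCast, div_eq_mul_inv, mul_comm]
      · intro y hy h0
        change y - z' k = 0 at h0
        have h3 : ‖y - t₀‖ < ‖t₀ - z' k‖ := hy.trans_le (hρt ht)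
        rw [sub_eq_zero.1 h0, ← norm_neg, neg_sub] at h3
        exact lt_irrefl _ h3

lemma te2_poly {f : ℂ × ℂ → ℂ} {P : Set ℂ} (hf : f ∈ RatX P Kt) (x : ℂ)
    (h : ∃ t : ℂ, f (x, t) ≠ 0) :
    ∃ q : Polynomial ℂ, q ≠ 0 ∧ ∀ t, f (x, t) = q.eval t := by
  obtain ⟨q, hq⟩ := kt_iff.1 (ratx_restrict hf x)
  refine ⟨q, ?_, fun t => congrFun hq t⟩
  rintro rfl
  obtain ⟨t, ht⟩ := h
  exact ht (by rw [congrFun hq t]; simp)

theorem te2 (h : Lvl2 b z' zi n d w c δ τ) (hb : Function.Injective b) {j j' : Fin 4}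
    (hjj : j ≠ j') (h1 : IsEnd2 b w c τ j) (h2 : IsEnd2 b w c τ j') : False := by
  obtain ⟨l, hl, hl'⟩ := te2_third j j'
  obtain ⟨n1, wh, ch, τh, -, mwh, mch, mτh, e, e0, hne⟩ := h1
  obtain ⟨n2, wh', ch', τh', -, mwh', mch', mτh', e', e0', hne'⟩ := h2
  -- the choice of `t₀`
  obtain ⟨q1, hq1, hq1'⟩ := te2_poly mwh (b j) hne
  obtain ⟨q2, hq2, hq2'⟩ := te2_poly mwh' (b j') hne'
  obtain ⟨t₀, ht₀⟩ : ∃ t₀ : ℂ, (q1 * q2 * ((Polynomial.X - Polynomial.C (z' l)) *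
      (Polynomial.X - Polynomial.C (z' j)))).eval t₀ ≠ 0 := by
    by_contra hcon
    push Not at hcon
    have h3 : q1 * q2 * ((Polynomial.X - Polynomial.C (z' l)) *
        (Polynomial.X - Polynomial.C (z' j))) = 0 :=
      Polynomial.funext fun t => by rw [hcon t, Polynomial.eval_zero]
    exact mul_ne_zero (mul_ne_zero hq1 hq2)
      (mul_ne_zero (Polynomial.X_sub_C_ne_zero _) (Polynomial.X_sub_C_ne_zero _)) h3
  rw [Polynomial.eval_mul, Polynomial.eval_mul, Polynomial.eval_mul, Polynomial.eval_sub,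
    Polynomial.eval_sub, Polynomial.eval_X, Polynomial.eval_C, Polynomial.eval_C, ← hq1', ← hq2']
    at ht₀
  have hw1 : wh (b j, t₀) ≠ 0 := left_ne_zero_of_mul (left_ne_zero_of_mul ht₀)
  have hw2 : wh' (b j', t₀) ≠ 0 := right_ne_zero_of_mul (left_ne_zero_of_mul ht₀)
  have htl : t₀ ≠ z' l := sub_ne_zero.1 (left_ne_zero_of_mul (right_ne_zero_of_mul ht₀))
  have htj : t₀ ≠ z' j := sub_ne_zero.1 (right_ne_zero_of_mul (right_ne_zero_of_mul ht₀))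
  obtain ⟨r1, M1, hr1, hend1⟩ := te2_end h hb mwh mch mτh e e0 hw1
  obtain ⟨r2, M2, hr2, hend2⟩ := te2_end h hb mwh' mch' mτh' e' e0' hw2
  obtain ⟨hξ, hτ⟩ := te2_analytic h
  have hw_an : AnalyticOnNhd ℂ (fun ζ : ℂ => w (ζ, t₀)) {ζ : ℂ | ζ ∉ range b} := by
    intro ζ hζ
    have h3 : AnalyticAt ℂ w (ζ, t₀) := rw_analytic h.mw hζ
    exact h3.comp₂ analyticAt_id analyticAt_const
  -- the domain
  have hDo : IsOpen {ζ : ℂ | ζ ∉ range b ∧ w (ζ, t₀) ≠ 0} := by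
    rw [isOpen_iff_mem_nhds]
    rintro ζ ⟨h3, h4⟩
    have h5 := (hw_an ζ h3).continuousAt.eventually_ne h4
    have h6 := (te2_isOpen_compl b).mem_nhds h3
    filter_upwards [h5, h6] with x hx hx'
    exact ⟨hx', hx⟩
  obtain ⟨ζ₁, hζ₁, hζ₁'⟩ : ∃ ζ₁ : ℂ, ζ₁ ∉ range b ∧ w (ζ₁, t₀) ≠ 0 := by
    refine ⟨_, (hend1 (b j + (r1 / 2 : ℝ)) ?_ ?_).1⟩
    · rw [add_sub_cancel_left, norm_pos_iff]
      exact_mod_cast (half_pos hr1).ne'
    · rw [add_sub_cancel_left, Complex.norm_real, Real.norm_of_nonneg (half_pos hr1).le]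
      exact half_lt_self hr1
  have hDc : IsPreconnected {ζ : ℂ | ζ ∉ range b ∧ w (ζ, t₀) ≠ 0} :=
    te2_preconn b hw_an hζ₁ hζ₁'
  -- `C¹`
  have hmap : MapsTo (fun ζ : ℂ => ((ζ, t₀) : ℂ × ℂ)) {ζ : ℂ | ζ ∉ range b ∧ w (ζ, t₀) ≠ 0}
      (D2 b) := fun ζ hζ => hζ.1
  have key : ∀ f : ℂ × ℂ → ℂ, AnalyticOnNhd ℂ f (D2 b) →
      LUE (D2 b) (sq (fun p => (w p, c p)) (fun _ => 0) τ f) →
      ContDiffOn ℂ 1 (fun p : ℂ × ℂ => gen (fun m => sq (fun p => (w p, c p)) (fun _ => 0) τ f m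
        (p.1, t₀)) p.2) ({ζ : ℂ | ζ ∉ range b ∧ w (ζ, t₀) ≠ 0} ×ˢ univ) := by
    intro f hf hL
    refine gen_c1 hDo (c := fun m ζ => sq (fun p => (w p, c p)) (fun _ => 0) τ f m (ζ, t₀)) ?_ ?_
    · intro m ζ hζ
      have h3 := sq_analytic (te2_isOpen_D2 b) hξ (S := fun _ => 0)
        (fun _ _ => analyticAt_const) hτ hf m (ζ, t₀) (hmap hζ)
      exact h3.comp₂ analyticAt_id analyticAt_const
    · exact hL.comp (g := fun ζ : ℂ => ((ζ, t₀) : ℂ × ℂ)) (by fun_prop) hmap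
  have hy_an : ∀ i, AnalyticOnNhd ℂ (fun q : ℂ × ℂ => (q.2 - z' i) / (q.1 - b i) ^ 3) (D2 b) :=
    fun i p hp => te2_y_analytic fun hpi => hp ⟨i, hpi.symm⟩
  -- the functions
  let F : Fin 3 → ℂ → ℂ → ℂ := fun k ζ => if k = 0 then
      gen (fun m => sq (fun p => (w p, c p)) (fun _ => 0) τ (fun p => p.2) m (ζ, t₀))
    else gen (fun m => sq (fun p => (w p, c p)) (fun _ => 0) τ
      (fun p => (p.2 - z' l) / (p.1 - b l) ^ 3) m (ζ, t₀))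
  let X : ℂ → ℂ → ℂ := fun ζ => gen (fun m => sq (fun p => (w p, c p)) (fun _ => 0) τ
      (fun p => (p.2 - z' j) / (p.1 - b j) ^ 3) m (ζ, t₀))
  refine two_ends hDo hDc (F := F) (X := X) ?_ ?_ ?_ (e₀ := b j) (e₁ := b j')
    (r := min r1 r2) (M := max M1 M2) (lt_min hr1 hr2) ?_ ?_
  · intro k
    by_cases hk : k = 0
    · have h3 := key (fun p => p.2) (fun p _ => analyticAt_snd) h.ent_t
      simpa only [F, hk, if_true] using h3
    · have h3 := key _ (hy_an l) (h.ent_y l)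
      simpa only [F, hk, if_false] using h3
  · exact key _ (hy_an j) (h.ent_y j)
  · rintro ζ ⟨hζ, hwζ⟩
    have hp : (ζ, t₀) ∈ D2 b := hζ
    by_cases hc : c (ζ, t₀) = 0
    · refine ⟨1, ?_⟩
      have h3 : F 1 ζ = gen (fun m => sq (fun p => (w p, c p)) (fun _ => 0) τ
        (fun p => (p.2 - z' l) / (p.1 - b l) ^ 3) m (ζ, t₀)) := by
        simp [F]
      rw [h3, (gen_deriv ((h.ent_y l).entSeq hp) 0).deriv, gen_zero]
      change fderiv ℂ (fun p : ℂ × ℂ => (p.2 - z' l) / (p.1 - b l) ^ 3) (ζ, t₀)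
        (w (ζ, t₀), c (ζ, t₀)) + (0 + ((0 : ℕ) : ℂ) * τ (ζ, t₀)) * _ ≠ 0
      have hζl : ζ ≠ b l := fun h4 => hζ ⟨l, h4.symm⟩
      rw [hc, te2_y_fderiv hζl, Nat.cast_zero, zero_mul, add_zero, zero_mul, add_zero]
      refine div_ne_zero (mul_ne_zero (mul_ne_zero (by norm_num) hwζ) (sub_ne_zero.2 htl))
        (pow_ne_zero _ (sub_ne_zero.2 hζl))
    · refine ⟨0, ?_⟩
      have h3 : F 0 ζ = gen (fun m => sq (fun p => (w p, c p)) (fun _ => 0) τ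
        (fun p => p.2) m (ζ, t₀)) := by
        simp [F]
      rw [h3, (gen_deriv (h.ent_t.entSeq hp) 0).deriv, gen_zero]
      change fderiv ℂ (fun p : ℂ × ℂ => p.2) (ζ, t₀)
        (w (ζ, t₀), c (ζ, t₀)) + (0 + ((0 : ℕ) : ℂ) * τ (ζ, t₀)) * _ ≠ 0
      have h4 : fderiv ℂ (fun p : ℂ × ℂ => p.2) (ζ, t₀) = ContinuousLinearMap.snd ℂ ℂ ℂ :=
        fderiv_snd
      rw [h4, Nat.cast_zero, zero_mul, add_zero, zero_mul, add_zero]
      exact hc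
  · intro ζ h3 h4
    obtain ⟨hD, c₀, hc₀, hM, ht, hy, hS⟩ := hend1 ζ h3 (h4.trans_le (min_le_left _ _))
    refine ⟨hD, c₀, hc₀, hM.trans (le_max_left _ _), fun k => ?_, hS htj⟩
    by_cases hk : k = 0
    · simpa only [F, hk, if_true] using ht
    · simpa only [F, hk, if_false] using hy l hl
  · intro ζ h3 h4
    obtain ⟨hD, c₀, hc₀, hM, ht, hy, -⟩ := hend2 ζ h3 (h4.trans_le (min_le_right _ _))
    refine ⟨hD, c₀, hc₀, hM.trans (le_max_right _ _), fun k => ?_, hy j hjj⟩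
    by_cases hk : k = 0
    · simpa only [F, hk, if_true] using ht
    · simpa only [F, hk, if_false] using hy l hl'

end Pool.Agent.H43.FX
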