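import Pool.Agent.H43.FX.TLem
import Pool.Agent.H43.FX.T1
import Pool.Agent.H43.FX.TE2
import Pool.Agent.H43.FX.LiouRat

/-!
# FX-L2Z : the reduced field vanishes

Proof.  Suppose not: `(w, c, τ)` is not identically zero on `D2`.  For each `j` apply
`exists_order` (`P = range b`, `c = b j`, `𝒦 = Kt`, `U = univ`, `ι = Fin 3`,
`f = ![w, c, τ]`, `o = ![1, 0, 0]`; the first alternative is excluded): there are `n_j : ℤ` and
`wh_j, ch_j, τh_j ∈ RatX (range b \ {b j}) Kt` with `w = β^{1-n_j} wh_j`, `c = β^{-n_j} ch_j`,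
`τ = β^{-n_j} τh_j` on `D2`, and some `t` where one of `wh_j, ch_j, τh_j` is nonzero at
`(b_j,t)`.
(1) If `n_j ≥ 1`: by `tlem2` (`n' = n_j.toNat`), `ch_j(b_j,·) = 0`, `τh_j = n_j wh_j` on
`ω = b_j`, so `wh_j(b_j,t) ≠ 0` for some `t`, and `IsEnd2 b w c τ j`.  By `te2` there is at most
one such `j`.
(2) So there are three distinct `j` with `n_j ≤ 0`, for which
`w = β · (β^{-n_j} wh_j)` with `β^{-n_j} wh_j ∈ RatX (range b \ {b j}) Kt`.  By `t1`, `w = 0` on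
`D2`.
(3) Then `wh_j = 0` off `range b`, hence `wh_j(b_j,t) = 0` by continuity; so by (1) no `j` has
`n_j ≥ 1`: all `n_j ≤ 0`.
(4) For fixed `t`, `f(ω) = c(ω,t)` is differentiable off the finite set `range b`, bounded near
each `b_j` (`c = β^{-n_j} ch_j`, `-n_j ≥ 0`) and tends to `0` at infinity (`grow_c`:
`‖c‖ ≤ M/‖ω‖`); by `liou_rat` `c(ω,t) = 0`.  The same for `τ` (`grow_τ`, since `w = 0`).
So `w = c = τ = 0` on `D2`: contradiction.
-/

namespace Pool.Agent.H43.FX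

open Set Metric Filter Topology

variable {b z' : Fin 4 → ℂ} {zi : ℂ} {n d : ℕ} {w c δ τ : ℂ × ℂ → ℂ}

/-- Exact pole orders on the line `ω = b j`. -/
theorem l2z_ord (h : Lvl2 b z' zi n d w c δ τ)
    (hne : ¬ ∀ p ∈ D2 b, w p = 0 ∧ c p = 0 ∧ τ p = 0) (j : Fin 4) :
    ∃ (m : ℤ) (wh ch τh : ℂ × ℂ → ℂ), wh ∈ RatX (range b \ {b j}) Kt ∧
      ch ∈ RatX (range b \ {b j}) Kt ∧ τh ∈ RatX (range b \ {b j}) Kt ∧
      (∀ p ∈ D2 b, w p = (p.1 - b j) ^ (1 - m) * wh p) ∧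
      (∀ p ∈ D2 b, c p = (p.1 - b j) ^ (-m) * ch p) ∧
      (∀ p ∈ D2 b, τ p = (p.1 - b j) ^ (-m) * τh p) ∧
      ∃ t : ℂ, wh (b j, t) ≠ 0 ∨ ch (b j, t) ≠ 0 ∨ τh (b j, t) ≠ 0 := by
  have hfin : (range b).Finite := Set.finite_range b
  rcases exists_order (E := ℂ) (ι := Fin 3) hfin (c := b j) (mem_range_self j) (𝒦 := Kt)
    (U := univ) (fun k hk y _ => kt_analytic hk y) (f := ![w, c, τ])
    (by
      intro i
      fin_cases i
      · exact h.mw
      · exact h.mc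
      · exact h.mτ) ![1, 0, 0] with h0 | ⟨m, fh, hmem, heq, i, y, -, hy⟩
  · exfalso
    apply hne
    intro p hp
    have e0 := h0 0 p.1 hp p.2 (mem_univ _)
    have e1 := h0 1 p.1 hp p.2 (mem_univ _)
    have e2 := h0 2 p.1 hp p.2 (mem_univ _)
    exact ⟨e0, e1, e2⟩
  · refine ⟨m, fh 0, fh 1, fh 2, hmem 0, hmem 1, hmem 2, ?_, ?_, ?_, y, ?_⟩
    · intro p hp
      have := heq 0 p.1 hp p.2 (mem_univ _)
      simpa using this
    · intro p hp
      have := heq 1 p.1 hp p.2 (mem_univ _)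
      simpa using this
    · intro p hp
      have := heq 2 p.1 hp p.2 (mem_univ _)
      simpa using this
    · fin_cases i
      · exact Or.inl hy
      · exact Or.inr (Or.inl hy)
      · exact Or.inr (Or.inr hy)

/-- A function with nonpositive pole order at `b j` is bounded near `b j`. -/
theorem l2z_bdd {j : Fin 4} {f fh : ℂ × ℂ → ℂ} (hfh : fh ∈ RatX (range b \ {b j}) Kt) {m : ℤ}
    (hm : m ≤ 0) (hf : ∀ p ∈ D2 b, f p = (p.1 - b j) ^ (-m) * fh p) (t : ℂ) :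
    ∃ δ M : ℝ, 0 < δ ∧ ∀ ω, 0 < ‖ω - b j‖ → ‖ω - b j‖ < δ → ‖f (ω, t)‖ ≤ M := by
  obtain ⟨k, hk⟩ : ∃ k : ℕ, -m = k := ⟨(-m).toNat, (Int.toNat_of_nonneg (by omega)).symm⟩
  have hfin : (range b \ {b j}).Finite := (Set.finite_range b).subset sdiff_subset
  have hmem : b j ∉ range b \ {b j} := fun h => h.2 rfl
  have han : AnalyticAt ℂ fh (b j, t) := ratkt_analytic hfh hmem
  have hcont : ContinuousAt (fun ω : ℂ => (ω - b j) ^ k * fh (ω, t)) (b j) := by
    apply ContinuousAt.mul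
    · exact ((continuous_id.sub continuous_const).pow k).continuousAt
    · exact ContinuousAt.comp (g := fh) (f := fun ω : ℂ => (ω, t)) han.continuousAt
        (by fun_prop)
  have hev : ∀ᶠ ω in 𝓝 (b j), ‖(ω - b j) ^ k * fh (ω, t)‖ <
      ‖(b j - b j) ^ k * fh (b j, t)‖ + 1 :=
    hcont.norm.eventually_lt continuousAt_const (by linarith)
  have hev2 : ∀ᶠ ω in 𝓝 (b j), ω ∉ range b \ {b j} :=
    hfin.isClosed.isOpen_compl.mem_nhds hmem
  obtain ⟨ε, hε, hball⟩ := Metric.eventually_nhds_iff.1 (hev.and hev2)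
  refine ⟨ε, ‖(b j - b j) ^ k * fh (b j, t)‖ + 1, hε, fun ω h1 h2 => ?_⟩
  have h3 := hball (y := ω) (by rw [dist_eq_norm]; exact h2)
  have hne : ω ≠ b j := by
    intro h
    rw [h, sub_self, norm_zero] at h1
    exact lt_irrefl _ h1
  have h4 : ω ∉ range b := fun h => h3.2 ⟨h, hne⟩
  have h5 := hf (ω, t) h4
  rw [hk, zpow_natCast] at h5
  rw [h5]
  exact h3.1.le

/-- Liouville for the coefficients. -/
theorem l2z_liou {f : ℂ × ℂ → ℂ} (hf : f ∈ Rw (range b))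
    (hbd : ∀ j : Fin 4, ∀ t : ℂ, ∃ δ M : ℝ, 0 < δ ∧ ∀ ω, 0 < ‖ω - b j‖ → ‖ω - b j‖ < δ →
      ‖f (ω, t)‖ ≤ M)
    (hgr : ∀ t : ℂ, ∃ M ρ : ℝ, ∀ ω : ℂ, ρ < ‖ω‖ → ‖f (ω, t)‖ * ‖ω‖ ≤ M) :
    ∀ p ∈ D2 b, f p = 0 := by
  intro p hp
  have key := liou_rat (Q := range b) (Set.finite_range b) (f := fun ω => f (ω, p.2))
    (fun ω hω => by
      have h1 : AnalyticAt ℂ f (ω, p.2) := rw_analytic hf hω
      exact DifferentiableAt.comp (g := f) (f := fun ω : ℂ => (ω, p.2)) ω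
        h1.differentiableAt (by fun_prop))
    (by
      rintro q ⟨j, rfl⟩
      exact hbd j p.2)
    (by
      intro ε hε
      obtain ⟨M, ρ, hM⟩ := hgr p.2
      refine ⟨max ρ (max 1 (|M| / ε)), fun ω hω => ?_⟩
      have h1 : ρ < ‖ω‖ := lt_of_le_of_lt (le_max_left _ _) hω
      have h2 : 1 < ‖ω‖ := lt_of_le_of_lt ((le_max_left _ _).trans (le_max_right _ _)) hω
      have h3 : |M| / ε < ‖ω‖ :=
        lt_of_le_of_lt ((le_max_right _ _).trans (le_max_right _ _)) hω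
      have h4 := hM ω h1
      have h5 : 0 < ‖ω‖ := by linarith
      have h6 : |M| < ‖ω‖ * ε := (div_lt_iff₀ hε).1 h3
      have h7 : ‖f (ω, p.2)‖ * ‖ω‖ ≤ ε * ‖ω‖ := by
        calc ‖f (ω, p.2)‖ * ‖ω‖ ≤ M := h4
          _ ≤ |M| := le_abs_self M
          _ ≤ ε * ‖ω‖ := by rw [mul_comm]; exact h6.le
      exact le_of_mul_le_mul_right h7 h5)
  exact key p.1 hp

theorem l2z_fin : ∀ j₀ : Fin 4, ∃ j₁ j₂ j₃ : Fin 4, j₁ ≠ j₂ ∧ j₁ ≠ j₃ ∧
    j₂ ≠ j₃ ∧ j₁ ≠ j₀ ∧ j₂ ≠ j₀ ∧ j₃ ≠ j₀ := by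
  decide

theorem lvl2_zero (h : Lvl2 b z' zi n d w c δ τ) (hb : Function.Injective b)
    (hz' : Function.Injective z') (hzi : ∀ j, zi ≠ z' j) {p : ℂ × ℂ} (hp : p ∈ D2 b) :
    w p = 0 ∧ c p = 0 ∧ τ p = 0 := by
  by_contra hcon
  have hne : ¬ ∀ p ∈ D2 b, w p = 0 ∧ c p = 0 ∧ τ p = 0 := fun hh => hcon (hh p hp)
  choose m wh ch τh mw mc mτ ew ec eτ hnz using l2z_ord h hne
  -- (1) positive orders give ends
  have hend : ∀ j, 1 ≤ m j → IsEnd2 b w c τ j := by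
    intro j hj
    obtain ⟨n', hn'⟩ : ∃ k : ℕ, m j = k := ⟨(m j).toNat, (Int.toNat_of_nonneg (by omega)).symm⟩
    have hn1 : 1 ≤ n' := by
      have := hj
      rw [hn'] at this
      exact_mod_cast this
    have key := tlem2 h hb hz' hzi (j := j) hn1 (mw j) (mc j) (mτ j)
      (by intro q hq; have := ew j q hq; rwa [hn'] at this)
      (by intro q hq; have := ec j q hq; rwa [hn'] at this)
      (by intro q hq; have := eτ j q hq; rwa [hn'] at this)
    refine ⟨n', wh j, ch j, τh j, hn1, mw j, mc j, mτ j, ?_, key, ?_⟩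
    · intro q hq
      have h1 := ew j q hq
      have h2 := ec j q hq
      have h3 := eτ j q hq
      rw [hn'] at h1 h2 h3
      exact ⟨h1, h2, h3⟩
    · obtain ⟨t, ht⟩ := hnz j
      refine ⟨t, fun h0 => ?_⟩
      have h1 := key t
      rw [h0, mul_zero] at h1
      rcases ht with ht | ht | ht
      · exact ht h0
      · exact ht h1.1
      · exact ht h1.2
  -- at most one end
  have huniq : ∀ j j', 1 ≤ m j → 1 ≤ m j' → j = j' := by
    intro j j' h1 h2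
    by_contra hjj
    exact te2 h hb hjj (hend j h1) (hend j' h2)
  -- (2) three regular lines
  have hreg : ∀ j, m j ≤ 0 → ∃ wh' ∈ RatX (range b \ {b j}) Kt, ∀ p ∈ D2 b,
      w p = (p.1 - b j) * wh' p := by
    intro j hj
    obtain ⟨k, hk⟩ : ∃ k : ℕ, -(m j) = k :=
      ⟨(-(m j)).toNat, (Int.toNat_of_nonneg (by omega)).symm⟩
    refine ⟨fun p => (p.1 - b j) ^ k * wh j p, ?_, ?_⟩
    · have h1 : (fun p : ℂ × ℂ => p.1 - b j) ∈ RatX (range b \ {b j}) Kt :=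
        Subalgebra.sub_mem _ ratx_fst (ratx_const (b j))
      exact Subalgebra.mul_mem _ (Subalgebra.pow_mem _ h1 k) (mw j)
    · intro q hq
      have h1 := ew j q hq
      have h2 : (1 : ℤ) - m j = ((k + 1 : ℕ) : ℤ) := by push_cast; omega
      rw [h2, zpow_natCast] at h1
      rw [h1, pow_succ]
      ring
  have hw0 : ∀ p ∈ D2 b, w p = 0 := by
    intro q hq
    by_cases hall : ∀ j, m j ≤ 0
    · exact t1 h hb hz' (j₁ := 0) (j₂ := 1) (j₃ := 2) (by decide) (by decide) (by decide)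
        (fun j _ => hreg j (hall j)) hq
    · push Not at hall
      obtain ⟨j₀, hj₀⟩ := hall
      have hothers : ∀ j, j ≠ j₀ → m j ≤ 0 := by
        intro j hj
        by_contra hcon2
        exact hj (huniq j j₀ (by omega) (by omega))
      obtain ⟨j₁, j₂, j₃, h12, h13, h23, h1, h2, h3⟩ := l2z_fin j₀
      refine t1 h hb hz' h12 h13 h23 ?_ hq
      intro j hj
      simp only [mem_insert_iff, mem_singleton_iff] at hj
      rcases hj with rfl | rfl | rfl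
      · exact hreg _ (hothers _ h1)
      · exact hreg _ (hothers _ h2)
      · exact hreg _ (hothers _ h3)
  -- (3) all orders are nonpositive
  have hle : ∀ j, m j ≤ 0 := by
    intro j
    by_contra hcon2
    obtain ⟨n', wh', ch', τh', hn1, mw', -, -, e', -, t, ht⟩ := hend j (by omega)
    apply ht
    have hfin : (range b \ {b j}).Finite := (Set.finite_range b).subset sdiff_subset
    have hmem : b j ∉ range b \ {b j} := fun h => h.2 rfl
    have han : AnalyticAt ℂ wh' (b j, t) := ratkt_analytic mw' hmem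
    have hcont : ContinuousAt (fun ω : ℂ => wh' (ω, t)) (b j) :=
      ContinuousAt.comp (g := wh') (f := fun ω : ℂ => (ω, t)) han.continuousAt (by fun_prop)
    have hev : ∀ᶠ ω in 𝓝[≠] (b j), wh' (ω, t) = 0 := by
      have hev2 : ∀ᶠ ω in 𝓝[≠] (b j), ω ∉ range b \ {b j} :=
        nhdsWithin_le_nhds (hfin.isClosed.isOpen_compl.mem_nhds hmem)
      filter_upwards [hev2, self_mem_nhdsWithin] with ω h1 h2
      have h3 : ω ∉ range b := fun h => h1 ⟨h, h2⟩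
      have h4 := (e' (ω, t) h3).1
      rw [hw0 (ω, t) h3] at h4
      have h5 : (ω - b j) ^ (1 - (n' : ℤ)) ≠ 0 := zpow_ne_zero _ (sub_ne_zero.2 h2)
      exact (mul_eq_zero.1 h4.symm).resolve_left h5
    have hlim1 : Tendsto (fun ω : ℂ => wh' (ω, t)) (𝓝[≠] (b j)) (𝓝 (wh' (b j, t))) :=
      hcont.tendsto.mono_left nhdsWithin_le_nhds
    have hlim2 : Tendsto (fun ω : ℂ => wh' (ω, t)) (𝓝[≠] (b j)) (𝓝 0) :=
      (tendsto_const_nhds (x := (0 : ℂ))).congr' (hev.mono fun ω h => h.symm)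
    exact tendsto_nhds_unique hlim1 hlim2
  -- (4) Liouville
  have hc0 : ∀ p ∈ D2 b, c p = 0 :=
    l2z_liou h.mc (fun j t => l2z_bdd (mc j) (hle j) (ec j) t) h.grow_c
  have hτ0 : ∀ p ∈ D2 b, τ p = 0 :=
    l2z_liou h.mτ (fun j t => l2z_bdd (mτ j) (hle j) (eτ j) t) (h.grow_τ hw0)
  exact hcon ⟨hw0 p hp, hc0 p hp, hτ0 p hp⟩

end Pool.Agent.H43.FX
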