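import Pool.Agent.H43.FX.RatTool

/-!
# FX-REGDIV : bounded along `t = z + β³ X` implies divisibility of the leading coefficient

Proof of `reg_div3` (induction on `r`, generalising `f` and `e : ℤ`; state the induction for
`e : ℤ`: hypothesis `‖f(c+β, ω, z+β³X)‖ ≤ M ‖β‖^e` with `e : ℤ`).  `r = 0`: take
`h ω t = f(c, ω, t)` (`ratx_restrict`).  Step `r → r+1` (so `3r < e`, `e ≥ 1`):
(1) `f(c, ω, z) = 0` for `ω ∉ Q`: put `X = 0`, `β → 0` (`f` is continuous at `(c, ω, z)`, since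
`P` is finite, `c ∉ P`, `ω ∉ Q`).  (2) `ratx_tdiv3`: `f(x,ω,t) = f(x,ω,z) + (t-z) f₁(x,ω,t)`.
With `X = 0` the hypothesis bounds `f(c+β,ω,z)` by `M‖β‖^e`, so for `‖X‖ = 1`,
`‖β‖³ ‖f₁(c+β, ω, z+β³X)‖ ≤ 2M ‖β‖^e`; for `‖X‖ ≤ 1` the same bound follows from the maximum
principle, because `X ↦ f₁(c+β, ω, z+β³X)` is entire (`rvw_analytic` at `(c+β, ω, ·)`,
`c + β ∉ P` for small `β`, `ω ∉ Q`).
So `f₁` satisfies the hypothesis with `e - 3`, `3r < (e-3)+3`; by induction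
`f₁(c,ω,t) = (t-z)^r h(ω,t)`, and `f(c,ω,t) = f(c,ω,z) + (t-z)f₁(c,ω,t) = (t-z)^{r+1} h(ω,t)`.
`reg_div2` : the same proof (or deduce it from `reg_div3` with `Q = ∅`).
-/

namespace Pool.Agent.H43.FX

open Set Metric Filter Topology

/-- One step: the quotient by `t - z` satisfies the bound with exponent `e - 3`. -/
private lemma reg_step {c z : ℂ} {g g₁ : ℂ → ℂ → ℂ} (hg : ∀ x t, g x t = g x z + (t - z) * g₁ x t)
    {δ₀ : ℝ} (hδ₀ : 0 < δ₀)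
    (hd : ∀ β : ℂ, 0 < ‖β‖ → ‖β‖ < δ₀ → Differentiable ℂ (g₁ (c + β)))
    (hcont : ContinuousAt (fun x => g x z) c) {e : ℤ}
    (hb : ∃ M δ : ℝ, 0 < δ ∧ ∀ β : ℂ, 0 < ‖β‖ → ‖β‖ < δ → ∀ X : ℂ, ‖X‖ ≤ 1 →
      ‖g (c + β) (z + β ^ 3 * X)‖ ≤ M * ‖β‖ ^ e) :
    (1 ≤ e → g c z = 0) ∧ ∃ M δ : ℝ, 0 < δ ∧ ∀ β : ℂ, 0 < ‖β‖ → ‖β‖ < δ → ∀ X : ℂ, ‖X‖ ≤ 1 →
      ‖g₁ (c + β) (z + β ^ 3 * X)‖ ≤ M * ‖β‖ ^ (e - 3) := by
  obtain ⟨M, δ, hδ, hM⟩ := hb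
  constructor
  · intro he
    obtain ⟨k, hk⟩ : ∃ k : ℕ, e = k + 1 := ⟨(e - 1).toNat, by omega⟩
    have h1 : Tendsto (fun β : ℂ => ‖g (c + β) z‖) (𝓝[≠] 0) (𝓝 ‖g c z‖) := by
      have h2 : Tendsto (fun β : ℂ => c + β) (𝓝[≠] 0) (𝓝 c) := by
        have : Tendsto (fun β : ℂ => c + β) (𝓝 0) (𝓝 (c + 0)) :=
          tendsto_const_nhds.add tendsto_id
        rw [add_zero] at this
        exact this.mono_left nhdsWithin_le_nhds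
      exact (hcont.tendsto.comp h2).norm
    have h3 : Tendsto (fun β : ℂ => M * ‖β‖ ^ (k + 1)) (𝓝[≠] 0) (𝓝 0) := by
      have : Tendsto (fun β : ℂ => M * ‖β‖ ^ (k + 1)) (𝓝 0) (𝓝 (M * ‖(0 : ℂ)‖ ^ (k + 1))) :=
        (continuous_const.mul (continuous_norm.pow _)).tendsto 0
      rw [norm_zero, zero_pow (by omega), mul_zero] at this
      exact this.mono_left nhdsWithin_le_nhds
    have h4 : ∀ᶠ β : ℂ in 𝓝[≠] 0, ‖g (c + β) z‖ ≤ M * ‖β‖ ^ (k + 1) := by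
      have h5 : ∀ᶠ β : ℂ in 𝓝[≠] 0, ‖β‖ < δ := by
        apply nhdsWithin_le_nhds
        have := Metric.ball_mem_nhds (0 : ℂ) hδ
        filter_upwards [this] with β hβ
        simpa using hβ
      filter_upwards [h5, self_mem_nhdsWithin] with β h6 h7
      have h8 := hM β (norm_pos_iff.2 h7) h6 0 (by simp)
      rw [mul_zero, add_zero, hk] at h8
      have h9 : ‖β‖ ^ ((k : ℤ) + 1) = ‖β‖ ^ (k + 1) := by
        rw [← zpow_natCast]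
        push_cast
        rfl
      rwa [h9] at h8
    have h6 : ‖g c z‖ ≤ 0 := le_of_tendsto_of_tendsto h1 h3 h4
    exact norm_le_zero_iff.1 h6
  · refine ⟨2 * M, min δ δ₀, lt_min hδ hδ₀, fun β hβ hβ2 X hX => ?_⟩
    have hβ3 : ‖β‖ < δ := lt_of_lt_of_le hβ2 (min_le_left _ _)
    have hβ4 : ‖β‖ < δ₀ := lt_of_lt_of_le hβ2 (min_le_right _ _)
    have hne : ‖β‖ ≠ 0 := ne_of_gt hβ
    have hdiff : Differentiable ℂ (fun X : ℂ => g₁ (c + β) (z + β ^ 3 * X)) :=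
      (hd β hβ hβ4).comp (by fun_prop)
    have h0 := hM β hβ hβ3 0 (by simp)
    rw [mul_zero, add_zero] at h0
    refine Complex.norm_le_of_forall_mem_frontier_norm_le (U := ball (0 : ℂ) 1)
      (f := fun X : ℂ => g₁ (c + β) (z + β ^ 3 * X)) isBounded_ball hdiff.diffContOnCl ?_ ?_
    · intro Y hY
      rw [frontier_ball (0 : ℂ) one_ne_zero, mem_sphere, dist_zero_right] at hY
      have h1 := hM β hβ hβ3 Y hY.le
      have h2 : g (c + β) (z + β ^ 3 * Y) - g (c + β) z =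
          β ^ 3 * Y * g₁ (c + β) (z + β ^ 3 * Y) := by
        rw [hg (c + β) (z + β ^ 3 * Y)]
        ring
      have h3 : ‖β‖ ^ 3 * ‖g₁ (c + β) (z + β ^ 3 * Y)‖ ≤ 2 * M * ‖β‖ ^ e := by
        calc ‖β‖ ^ 3 * ‖g₁ (c + β) (z + β ^ 3 * Y)‖
            = ‖g (c + β) (z + β ^ 3 * Y) - g (c + β) z‖ := by
              rw [h2, norm_mul, norm_mul, norm_pow, hY, mul_one]
          _ ≤ ‖g (c + β) (z + β ^ 3 * Y)‖ + ‖g (c + β) z‖ := norm_sub_le _ _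
          _ ≤ M * ‖β‖ ^ e + M * ‖β‖ ^ e := add_le_add h1 h0
          _ = 2 * M * ‖β‖ ^ e := by ring
      have h4 : 2 * M * ‖β‖ ^ (e - 3) = (2 * M * ‖β‖ ^ e) / ‖β‖ ^ 3 := by
        rw [zpow_sub₀ hne]
        have : ‖β‖ ^ (3 : ℤ) = ‖β‖ ^ 3 := by norm_cast
        rw [this, mul_div_assoc]
      rw [h4, le_div_iff₀ (by positivity)]
      linarith
    · rw [closure_ball (0 : ℂ) one_ne_zero, mem_closedBall, dist_zero_right]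
      exact hX

private lemma finite_away {P : Set ℂ} (hP : P.Finite) (c : ℂ) :
    ∃ δ₀ : ℝ, 0 < δ₀ ∧ ∀ β : ℂ, 0 < ‖β‖ → ‖β‖ < δ₀ → c + β ∉ P := by
  have h1 : (P \ {c}).Finite := hP.subset Set.sdiff_subset
  have h2 : (P \ {c})ᶜ ∈ 𝓝 c := h1.isClosed.isOpen_compl.mem_nhds (by simp)
  obtain ⟨δ, hδ, h3⟩ := Metric.mem_nhds_iff.1 h2
  refine ⟨δ, hδ, fun β hβ hβ2 hmem => ?_⟩
  have h4 : c + β ∈ ball c δ := by simpa [dist_eq_norm] using hβ2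
  refine h3 h4 ⟨hmem, fun h => ?_⟩
  have h5 : β = 0 := by
    have : c + β = c := h
    simpa using this
  rw [h5, norm_zero] at hβ
  exact lt_irrefl _ hβ

private lemma reg_div3_aux {P Q : Set ℂ} (hP : P.Finite) {c z : ℂ} (hc : c ∉ P) (r : ℕ) :
    ∀ {f : ℂ × ℂ × ℂ → ℂ}, f ∈ Rvw P Q → ∀ {e : ℤ},
    (∀ ω ∉ Q, ∃ M δ : ℝ, 0 < δ ∧ ∀ β : ℂ, 0 < ‖β‖ → ‖β‖ < δ → ∀ X : ℂ, ‖X‖ ≤ 1 →
      ‖f (c + β, ω, z + β ^ 3 * X)‖ ≤ M * ‖β‖ ^ e) → 3 * (r : ℤ) < e + 3 →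
    ∃ h ∈ Rw Q, ∀ ω ∉ Q, ∀ t, f (c, ω, t) = (t - z) ^ r * h (ω, t) := by
  induction r with
  | zero =>
    intro f hf e _ _
    exact ⟨fun p => f (c, p), ratx_restrict hf c, fun ω _ t => by simp⟩
  | succ r ih =>
    intro f hf e hb hr
    obtain ⟨f₁, hf₁, hff⟩ := ratx_tdiv3 hf z
    obtain ⟨δ₀, hδ₀, haway⟩ := finite_away hP c
    have key : ∀ ω ∉ Q, (1 ≤ e → f (c, ω, z) = 0) ∧ ∃ M δ : ℝ, 0 < δ ∧ ∀ β : ℂ, 0 < ‖β‖ →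
        ‖β‖ < δ → ∀ X : ℂ, ‖X‖ ≤ 1 → ‖f₁ (c + β, ω, z + β ^ 3 * X)‖ ≤ M * ‖β‖ ^ (e - 3) := by
      intro ω hω
      refine reg_step (g := fun x t => f (x, ω, t)) (g₁ := fun x t => f₁ (x, ω, t))
        (fun x t => hff x ω t) hδ₀ ?_ ?_ (hb ω hω)
      · intro β hβ hβ2 t
        have h1 := rvw_analytic hf₁ (haway β hβ hβ2) hω (t := t)
        exact h1.differentiableAt.comp t
          ((differentiableAt_const _).prodMk ((differentiableAt_const _).prodMk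
            differentiableAt_id))
      · have h1 := (rvw_analytic hf hc hω (t := z)).continuousAt
        exact ContinuousAt.comp (f := fun x : ℂ => (x, ω, z)) h1 (by fun_prop)
    obtain ⟨h, hh, hfh⟩ := ih hf₁ (e := e - 3) (fun ω hω => (key ω hω).2) (by push_cast at hr; omega)
    refine ⟨h, hh, fun ω hω t => ?_⟩
    rw [hff c ω t, (key ω hω).1 (by push_cast at hr; omega), hfh ω hω t]
    ring

theorem reg_div3 {P Q : Set ℂ} (hP : P.Finite) {c z : ℂ} (hc : c ∉ P) {f : ℂ × ℂ × ℂ → ℂ}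
    (hf : f ∈ Rvw P Q) {e : ℕ}
    (hb : ∀ ω ∉ Q, ∃ M δ : ℝ, 0 < δ ∧ ∀ β : ℂ, 0 < ‖β‖ → ‖β‖ < δ → ∀ X : ℂ, ‖X‖ ≤ 1 →
      ‖f (c + β, ω, z + β ^ 3 * X)‖ ≤ M * ‖β‖ ^ e)
    {r : ℕ} (hr : 3 * r < e + 3) :
    ∃ h ∈ Rw Q, ∀ ω ∉ Q, ∀ t, f (c, ω, t) = (t - z) ^ r * h (ω, t) := by
  refine reg_div3_aux hP hc r hf (e := e) (fun ω hω => ?_) (by exact_mod_cast hr)
  obtain ⟨M, δ, hδ, h⟩ := hb ω hω
  refine ⟨M, δ, hδ, fun β h1 h2 X hX => ?_⟩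
  rw [zpow_natCast]
  exact h β h1 h2 X hX

private lemma reg_div2_aux {P : Set ℂ} (hP : P.Finite) {c z : ℂ} (hc : c ∉ P) (r : ℕ) :
    ∀ {f : ℂ × ℂ → ℂ}, f ∈ RatX P Kt → ∀ {e : ℤ},
    (∃ M δ : ℝ, 0 < δ ∧ ∀ β : ℂ, 0 < ‖β‖ → ‖β‖ < δ → ∀ X : ℂ, ‖X‖ ≤ 1 →
      ‖f (c + β, z + β ^ 3 * X)‖ ≤ M * ‖β‖ ^ e) → 3 * (r : ℤ) < e + 3 →
    ∃ h ∈ Kt, ∀ t, f (c, t) = (t - z) ^ r * h t := by
  induction r with
  | zero =>
    intro f hf e _ _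
    exact ⟨fun p => f (c, p), ratx_restrict hf c, fun t => by simp⟩
  | succ r ih =>
    intro f hf e hb hr
    obtain ⟨f₁, hf₁, hff⟩ := ratx_tdiv2 hf z
    obtain ⟨δ₀, hδ₀, haway⟩ := finite_away hP c
    have key : (1 ≤ e → f (c, z) = 0) ∧ ∃ M δ : ℝ, 0 < δ ∧ ∀ β : ℂ, 0 < ‖β‖ →
        ‖β‖ < δ → ∀ X : ℂ, ‖X‖ ≤ 1 → ‖f₁ (c + β, z + β ^ 3 * X)‖ ≤ M * ‖β‖ ^ (e - 3) := by
      refine reg_step (g := fun x t => f (x, t)) (g₁ := fun x t => f₁ (x, t))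
        (fun x t => hff x t) hδ₀ ?_ ?_ hb
      · intro β hβ hβ2 t
        have h1 := ratkt_analytic hf₁ (haway β hβ hβ2) (t := t)
        exact h1.differentiableAt.comp t
          ((differentiableAt_const _).prodMk differentiableAt_id)
      · have h1 := (ratkt_analytic hf hc (t := z)).continuousAt
        exact ContinuousAt.comp (f := fun x : ℂ => (x, z)) h1 (by fun_prop)
    obtain ⟨h, hh, hfh⟩ := ih hf₁ (e := e - 3) key.2 (by push_cast at hr; omega)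
    refine ⟨h, hh, fun t => ?_⟩
    rw [hff c t, key.1 (by push_cast at hr; omega), hfh t]
    ring

theorem reg_div2 {P : Set ℂ} (hP : P.Finite) {c z : ℂ} (hc : c ∉ P) {f : ℂ × ℂ → ℂ}
    (hf : f ∈ RatX P Kt) {e : ℕ}
    (hb : ∃ M δ : ℝ, 0 < δ ∧ ∀ β : ℂ, 0 < ‖β‖ → ‖β‖ < δ → ∀ X : ℂ, ‖X‖ ≤ 1 →
      ‖f (c + β, z + β ^ 3 * X)‖ ≤ M * ‖β‖ ^ e)
    {r : ℕ} (hr : 3 * r < e + 3) :
    ∃ h ∈ Kt, ∀ t, f (c, t) = (t - z) ^ r * h t := by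
  refine reg_div2_aux hP hc r hf (e := e) ?_ (by exact_mod_cast hr)
  obtain ⟨M, δ, hδ, h⟩ := hb
  refine ⟨M, δ, hδ, fun β h1 h2 X hX => ?_⟩
  rw [zpow_natCast]
  exact h β h1 h2 X hX

end Pool.Agent.H43.FX
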