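import Pool.Agent.H43.FX.NFBasic
import Pool.Agent.H43.FX.RegDiv

/-!
# FX-MKDIV : the divisibility fields of `Lvl2`

Proof.  For `β ≠ 0` small, `(a_i+β, ω, t) ∈ D3` if `ω ∉ range b`.  By `nf_reg_v`, on
`(a_i+β, ω, z_i+β³X)`, `‖X‖ ≤ 1`:
* `‖Wh‖ = ‖β‖^n ‖W‖ ≤ M‖β‖^n`; `reg_div3` (`e = n`, `r = (n+2)/3`, so `n ≤ 3r < n+3`):
  `div_w`.
* `‖Vh‖ ≤ M ‖β‖^{n-1}` (`n ≥ 1`): `Vh(a_i,·) = (t-z_i)^{r₀} h₀`, `r₀ = (n+1)/3`,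
  `n - 1 ≤ 3r₀ < n+2`.
* `f = Ch - 3(t-z_i) Vh ∈ Rvw (range a \ {a i}) (range b)`:
  `(C - 3(t-z_i)V/β)/β³ = β^{-n-3} f`, so `‖f‖ ≤ M‖β‖^{n+3}`; `f(a_i,·) = (t-z_i)^{r₁} h₁`,
  `r₁ = (n+5)/3`, `n+3 ≤ 3r₁`.
So `Ch(a_i,·) = 3(t-z_i)^{r₀+1}h₀ + (t-z_i)^{r₁}h₁ = (t-z_i)^r (...)`, `r = min(r₀+1,r₁)`,
`3r ≥ n+2`.
-/

namespace Pool.Agent.H43.FX

open Set Metric Filter Topology

variable {a b z z' : Fin 4 → ℂ} {d : ℕ} {V W C D : ℂ × ℂ × ℂ → ℂ}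

theorem mk_div (h : NegField a b z z' d V W C D) (ha : Function.Injective a) {i : Fin 4}
    {n : ℕ} (hn : 1 ≤ n) {Vh Wh Ch Dh : ℂ × ℂ × ℂ → ℂ}
    (mV : Vh ∈ Rvw (range a \ {a i}) (range b))
    (mW : Wh ∈ Rvw (range a \ {a i}) (range b)) (mC : Ch ∈ Rvw (range a \ {a i}) (range b))
    (e : ∀ p ∈ D3 a b, V p = (p.1 - a i) ^ (1 - (n : ℤ)) * Vh p ∧
      W p = (p.1 - a i) ^ (-(n : ℤ)) * Wh p ∧ C p = (p.1 - a i) ^ (-(n : ℤ)) * Ch p ∧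
      D p = (p.1 - a i) ^ (-(n : ℤ)) * Dh p) :
    (∃ (r : ℕ) (g : ℂ × ℂ → ℂ), n ≤ 3 * r ∧ g ∈ Rw (range b) ∧
      ∀ p ∈ D2 b, Wh (a i, p) = (p.2 - z i) ^ r * g p) ∧
    (∃ (r : ℕ) (g : ℂ × ℂ → ℂ), n + 2 ≤ 3 * r ∧ g ∈ Rw (range b) ∧
      ∀ p ∈ D2 b, Ch (a i, p) = (p.2 - z i) ^ r * g p) := by
  have hfin : (range a \ {a i}).Finite := (finite_range a).subset sdiff_subset
  have hni : a i ∉ range a \ {a i} := fun h => h.2 rfl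
  -- small translates of `a i` avoid `range a`
  have hsm : ∃ δ₀ : ℝ, 0 < δ₀ ∧ ∀ β : ℂ, 0 < ‖β‖ → ‖β‖ < δ₀ → a i + β ∉ range a := by
    have hopen : IsOpen (range a \ {a i})ᶜ := hfin.isClosed.isOpen_compl
    obtain ⟨δ₀, hδ₀, hball⟩ := Metric.isOpen_iff.1 hopen (a i) hni
    refine ⟨δ₀, hδ₀, fun β hβ hβ' hmem => ?_⟩
    have h1 : a i + β ∈ ball (a i) δ₀ := by
      rw [mem_ball, dist_eq_norm]
      simpa using hβ'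
    refine hball h1 ⟨hmem, ?_⟩
    rw [mem_singleton_iff]
    intro h2
    have h3 : β = 0 := by simpa using h2
    rw [h3, norm_zero] at hβ
    exact lt_irrefl _ hβ
  obtain ⟨δ₀, hδ₀, hsm⟩ := hsm
  -- the pointwise identities
  have key : ∀ ω ∉ range b, ∀ β : ℂ, 0 < ‖β‖ → ‖β‖ < δ₀ → ∀ t : ℂ,
      Wh (a i + β, ω, t) = β ^ n * W (a i + β, ω, t) ∧
      Vh (a i + β, ω, t) = β ^ (n - 1) * V (a i + β, ω, t) ∧
      Ch (a i + β, ω, t) = β ^ n * C (a i + β, ω, t) := by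
    intro ω hω β hβ hβ' t
    have hβ0 : β ≠ 0 := norm_pos_iff.1 hβ
    obtain ⟨e1, e2, e3, -⟩ := e (a i + β, ω, t) ⟨hsm β hβ hβ', hω⟩
    simp only [add_sub_cancel_left] at e1 e2 e3
    refine ⟨?_, ?_, ?_⟩
    · rw [e2, zpow_neg, zpow_natCast, ← mul_assoc, mul_inv_cancel₀ (pow_ne_zero _ hβ0), one_mul]
    · rw [e1, ← mul_assoc, ← zpow_natCast, ← zpow_add₀ hβ0]
      have : ((n - 1 : ℕ) : ℤ) + (1 - (n : ℤ)) = 0 := by push_cast [hn]; ring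
      rw [this, zpow_zero, one_mul]
    · rw [e3, zpow_neg, zpow_natCast, ← mul_assoc, mul_inv_cancel₀ (pow_ne_zero _ hβ0), one_mul]
  have mT : (fun p : ℂ × ℂ × ℂ => p.2.2 - z i) ∈ Rvw (range a \ {a i}) (range b) := by
    have h1 : (fun q : ℂ × ℂ => q.2 - z i) ∈ Rw (range b) := by
      have h0 : (fun t : ℂ => t - z i) ∈ Kt :=
        Kt.sub_mem (Algebra.subset_adjoin rfl) (Kt.algebraMap_mem (z i))
      exact ratx_pull h0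
    exact ratx_pull h1
  -- `W`
  have hW : ∀ ω ∉ range b, ∃ M δ : ℝ, 0 < δ ∧ ∀ β : ℂ, 0 < ‖β‖ → ‖β‖ < δ → ∀ X : ℂ, ‖X‖ ≤ 1 →
      ‖Wh (a i + β, ω, z i + β ^ 3 * X)‖ ≤ M * ‖β‖ ^ n := by
    intro ω hω
    obtain ⟨M, δ, hδ, hb⟩ := nf_reg_v ha h i hω
    refine ⟨M, min δ δ₀, lt_min hδ hδ₀, fun β hβ hβ' X hX => ?_⟩
    obtain ⟨h1, h2, h3⟩ := hb β hβ (lt_of_lt_of_le hβ' (min_le_left _ _)) X hX
    rw [(key ω hω β hβ (lt_of_lt_of_le hβ' (min_le_right _ _)) _).1, norm_mul, norm_pow, mul_comm]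
    exact mul_le_mul_of_nonneg_right h2 (by positivity)
  have hV : ∀ ω ∉ range b, ∃ M δ : ℝ, 0 < δ ∧ ∀ β : ℂ, 0 < ‖β‖ → ‖β‖ < δ → ∀ X : ℂ, ‖X‖ ≤ 1 →
      ‖Vh (a i + β, ω, z i + β ^ 3 * X)‖ ≤ M * ‖β‖ ^ (n - 1) := by
    intro ω hω
    obtain ⟨M, δ, hδ, hb⟩ := nf_reg_v ha h i hω
    refine ⟨M, min δ δ₀, lt_min hδ hδ₀, fun β hβ hβ' X hX => ?_⟩
    obtain ⟨h1, h2, h3⟩ := hb β hβ (lt_of_lt_of_le hβ' (min_le_left _ _)) X hX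
    rw [(key ω hω β hβ (lt_of_lt_of_le hβ' (min_le_right _ _)) _).2.1, norm_mul, norm_pow,
      mul_comm]
    exact mul_le_mul_of_nonneg_right h1 (by positivity)
  have hF : ∀ ω ∉ range b, ∃ M δ : ℝ, 0 < δ ∧ ∀ β : ℂ, 0 < ‖β‖ → ‖β‖ < δ → ∀ X : ℂ, ‖X‖ ≤ 1 →
      ‖(fun p : ℂ × ℂ × ℂ => Ch p - 3 * (p.2.2 - z i) * Vh p)
        (a i + β, ω, z i + β ^ 3 * X)‖ ≤ M * ‖β‖ ^ (n + 3) := by
    intro ω hω
    obtain ⟨M, δ, hδ, hb⟩ := nf_reg_v ha h i hω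
    refine ⟨M, min δ δ₀, lt_min hδ hδ₀, fun β hβ hβ' X hX => ?_⟩
    have hβ0 : β ≠ 0 := norm_pos_iff.1 hβ
    obtain ⟨h1, h2, h3⟩ := hb β hβ (lt_of_lt_of_le hβ' (min_le_left _ _)) X hX
    obtain ⟨-, k2, k3⟩ := key ω hω β hβ (lt_of_lt_of_le hβ' (min_le_right _ _))
      (z i + β ^ 3 * X)
    have h4 : (fun p : ℂ × ℂ × ℂ => Ch p - 3 * (p.2.2 - z i) * Vh p)
        (a i + β, ω, z i + β ^ 3 * X) = β ^ (n + 3) *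
        ((C (a i + β, ω, z i + β ^ 3 * X) -
        3 * (β ^ 3 * X) * (V (a i + β, ω, z i + β ^ 3 * X) / β)) / β ^ 3) := by
      simp only [add_sub_cancel_left]
      rw [k2, k3]
      obtain ⟨m, rfl⟩ : ∃ m, n = m + 1 := ⟨n - 1, by omega⟩
      simp only [Nat.add_sub_cancel]
      field_simp
      ring
    rw [h4, norm_mul, norm_pow, mul_comm]
    exact mul_le_mul_of_nonneg_right h3 (by positivity)
  have mF : (fun p : ℂ × ℂ × ℂ => Ch p - 3 * (p.2.2 - z i) * Vh p) ∈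
      Rvw (range a \ {a i}) (range b) :=
    (Rvw (range a \ {a i}) (range b)).sub_mem mC
      ((Rvw (range a \ {a i}) (range b)).mul_mem
        ((Rvw (range a \ {a i}) (range b)).mul_mem (ratx_const 3) mT) mV)
  constructor
  · obtain ⟨g, hg, hg'⟩ := reg_div3 hfin hni mW hW (r := (n + 2) / 3) (by omega)
    exact ⟨(n + 2) / 3, g, by omega, hg, fun p hp => hg' p.1 hp p.2⟩
  · obtain ⟨g₀, hg₀, hg₀'⟩ := reg_div3 hfin hni mV hV (r := (n + 1) / 3) (by omega)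
    obtain ⟨g₁, hg₁, hg₁'⟩ := reg_div3 hfin hni mF hF (r := (n + 5) / 3) (by omega)
    have mT' : ∀ k : ℕ, (fun q : ℂ × ℂ => (q.2 - z i) ^ k) ∈ Rw (range b) := by
      intro k
      have h0 : (fun t : ℂ => t - z i) ∈ Kt :=
        Kt.sub_mem (Algebra.subset_adjoin rfl) (Kt.algebraMap_mem (z i))
      have h1 : (fun q : ℂ × ℂ => q.2 - z i) ∈ Rw (range b) := ratx_pull h0
      exact (Rw (range b)).pow_mem h1 k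
    obtain ⟨r, hr, k₀, k₁, hk₀, hk₁⟩ : ∃ r : ℕ, n + 2 ≤ 3 * r ∧ ∃ k₀ k₁ : ℕ,
        (n + 1) / 3 + 1 = r + k₀ ∧ (n + 5) / 3 = r + k₁ := by
      refine ⟨min ((n + 1) / 3 + 1) ((n + 5) / 3), by omega,
        (n + 1) / 3 + 1 - min ((n + 1) / 3 + 1) ((n + 5) / 3),
        (n + 5) / 3 - min ((n + 1) / 3 + 1) ((n + 5) / 3), by omega, by omega⟩
    refine ⟨r, fun q => 3 * ((q.2 - z i) ^ k₀ * g₀ q) + (q.2 - z i) ^ k₁ * g₁ q, hr,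
      (Rw (range b)).add_mem
        ((Rw (range b)).mul_mem (ratx_const 3) ((Rw (range b)).mul_mem (mT' k₀) hg₀))
        ((Rw (range b)).mul_mem (mT' k₁) hg₁), fun p hp => ?_⟩
    have e0 := hg₀' p.1 hp p.2
    have e1 := hg₁' p.1 hp p.2
    simp only at e1
    have e2 : Ch (a i, p) = 3 * (p.2 - z i) * Vh (a i, p) + (p.2 - z i) ^ ((n + 5) / 3) * g₁ p := by
      have : Ch (a i, p) - 3 * (p.2 - z i) * Vh (a i, p) = (p.2 - z i) ^ ((n + 5) / 3) * g₁ p := e1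
      rw [← this]; ring
    have e3 : Vh (a i, p) = (p.2 - z i) ^ ((n + 1) / 3) * g₀ p := e0
    rw [e2, e3, hk₁]
    have e4 : 3 * (p.2 - z i) * ((p.2 - z i) ^ ((n + 1) / 3) * g₀ p) =
        3 * (p.2 - z i) ^ (r + k₀) * g₀ p := by
      rw [← hk₀]; ring
    rw [e4]
    ring

end Pool.Agent.H43.FX
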