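import Pool.Agent.H43.FX.NFBasic

/-!
# FX-MKGROW : the growth and regularity fields of `Lvl2`

Maximum principle.  Let `r > 0` be such that `closedBall (a i) r` contains no other element of
`range a`, and `K = sphere (a i) r` (compact, disjoint from `range a`).  For `p ∈ D2 b` and
`g ∈ Rvw (range a \ {a i}) (range b)` the function `v ↦ g(v, p)` is holomorphic on a
neighbourhood of `closedBall (a i) r`, so `‖g(a_i, p)‖ ≤ sup_{v ∈ K} ‖g(v,p)‖`
(`Complex.norm_le_of_forall_mem_frontier_norm_le`).  On `K`: `Ch = (v-a_i)^n C`,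
`Wh = (v-a_i)^n W`, `Vh = (v-a_i)^{n-1} V`, `Dh = (v-a_i)^n D`, and `‖v-a_i‖ = r`.
* `grow_c` : `nf_grow_C` (for `ρ` large also `ω ∉ range b`).
* `grow_τ` : if `Wh(a_i,·) = 0` on `D2`: `Dh(a_i,ω,t) ω = (Wh + ω Dh)(a_i,ω,t)` is bounded by
  `nf_grow_WD`, so `‖Dh(a_i,ω,t)‖ ‖ω‖ ≤ M`; `‖Vh(a_i,ω,t)‖‖ω‖ ≤ M` by `nf_grow_V`.
* `reg_w`, `reg_cw` : `nf_reg_w` on `K`; with `ω = b_j + β`, `t = z'_j + β³X`, `β ≠ 0` small (so
  `ω ∉ range b`), apply the maximum principle to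
  `g(v) = Wh(v, ω, t)` and to `g(v) = (Ch(v,ω,t) - 3(t-z'_j) Wh(v,ω,t)/β)/β³` (for fixed
  `β, X`).
-/

namespace Pool.Agent.H43.FX

open Set Metric Filter Topology

variable {a b z z' : Fin 4 → ℂ} {d : ℕ} {V W C D : ℂ × ℂ × ℂ → ℂ}

theorem mg_maxp {g : ℂ → ℂ} {x0 : ℂ} {r M : ℝ} (hr : 0 < r)
    (hg : ∀ x ∈ closedBall x0 r, DifferentiableAt ℂ g x)
    (hM : ∀ x ∈ sphere x0 r, ‖g x‖ ≤ M) : ‖g x0‖ ≤ M := by
  have hd : DiffContOnCl ℂ g (ball x0 r) := by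
    refine ⟨fun x hx => (hg x (ball_subset_closedBall hx)).differentiableWithinAt, ?_⟩
    rw [closure_ball x0 hr.ne']
    exact fun x hx => (hg x hx).continuousAt.continuousWithinAt
  refine Complex.norm_le_of_forall_mem_frontier_norm_le isBounded_ball hd ?_ ?_
  · intro x hx
    rw [frontier_ball x0 hr.ne'] at hx
    exact hM x hx
  · exact subset_closure (mem_ball_self hr)

theorem mg_sep (a : Fin 4 → ℂ) (x0 : ℂ) : ∃ r > 0, ∀ x ∈ closedBall x0 r, x ∉ range a \ {x0} := by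
  have hf : (range a \ {x0}).Finite := (finite_range a).subset sdiff_subset
  have ho : IsOpen (range a \ {x0})ᶜ := hf.isClosed.isOpen_compl
  have hx : x0 ∈ (range a \ {x0})ᶜ := by simp
  obtain ⟨ε, hε, h⟩ := Metric.isOpen_iff.1 ho x0 hx
  refine ⟨ε / 2, by positivity, fun x hx => ?_⟩
  have : x ∈ ball x0 ε := by
    rw [mem_closedBall] at hx
    rw [mem_ball]
    linarith
  exact h this

theorem mg_diff {P Q : Set ℂ} {g : ℂ × ℂ × ℂ → ℂ} (hg : g ∈ Rvw P Q) {v ω t : ℂ} (hv : v ∉ P)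
    (hω : ω ∉ Q) : DifferentiableAt ℂ (fun v => g (v, ω, t)) v := by
  have h1 : DifferentiableAt ℂ g (v, ω, t) := (rvw_analytic hg hv hω).differentiableAt
  have h2 : DifferentiableAt ℂ (fun v : ℂ => (v, ω, t)) v :=
    differentiableAt_id.prodMk (differentiableAt_const _)
  exact h1.comp v h2

theorem mg_far (b : Fin 4 → ℂ) : ∃ ρ : ℝ, ∀ ω : ℂ, ρ < ‖ω‖ → ω ∉ range b := by
  have hf : (range b).Finite := finite_range b
  obtain ⟨ρ, h⟩ := hf.isBounded.exists_norm_le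
  exact ⟨ρ, fun ω hω hb => absurd (h ω hb) (not_le.2 hω)⟩

theorem mk_grow (h : NegField a b z z' d V W C D) (hb : Function.Injective b) {i : Fin 4}
    {n : ℕ} {Vh Wh Ch Dh : ℂ × ℂ × ℂ → ℂ}
    (mV : Vh ∈ Rvw (range a \ {a i}) (range b))
    (mW : Wh ∈ Rvw (range a \ {a i}) (range b)) (mC : Ch ∈ Rvw (range a \ {a i}) (range b))
    (mD : Dh ∈ Rvw (range a \ {a i}) (range b))
    (e : ∀ p ∈ D3 a b, V p = (p.1 - a i) ^ (1 - (n : ℤ)) * Vh p ∧
      W p = (p.1 - a i) ^ (-(n : ℤ)) * Wh p ∧ C p = (p.1 - a i) ^ (-(n : ℤ)) * Ch p ∧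
      D p = (p.1 - a i) ^ (-(n : ℤ)) * Dh p)
    {w c τ : ℂ × ℂ → ℂ} (hw : w = fun p => Wh (a i, p)) (hc : c = fun p => Ch (a i, p))
    (hτ : τ = fun p => -(n : ℂ) * Vh (a i, p) - (d : ℂ) * Dh (a i, p)) :
    (∀ t : ℂ, ∃ M ρ : ℝ, ∀ ω : ℂ, ρ < ‖ω‖ → ‖c (ω, t)‖ * ‖ω‖ ≤ M) ∧
    ((∀ p ∈ D2 b, w p = 0) →
      ∀ t : ℂ, ∃ M ρ : ℝ, ∀ ω : ℂ, ρ < ‖ω‖ → ‖τ (ω, t)‖ * ‖ω‖ ≤ M) ∧
    (∀ j, Reg2 (b j) (z' j) w) ∧
    (∀ j, Reg2 (b j) (z' j)
      (fun p => (c p - 3 * (p.2 - z' j) * (w p / (p.1 - b j))) / (p.1 - b j) ^ 3)) := by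
  obtain ⟨r, hr, hsep⟩ := mg_sep a (a i)
  have hK : IsCompact (sphere (a i) r) := isCompact_sphere _ _
  have hne : ∀ v ∈ sphere (a i) r, v - a i ≠ 0 := by
    intro v hv h0
    rw [mem_sphere, dist_eq_norm, h0, norm_zero] at hv
    exact hr.ne hv
  have hnorm : ∀ v ∈ sphere (a i) r, ‖v - a i‖ = r := by
    intro v hv
    rwa [mem_sphere, dist_eq_norm] at hv
  have hKa : sphere (a i) r ⊆ (range a)ᶜ := by
    intro v hv hva
    refine hsep v (sphere_subset_closedBall hv) ⟨hva, ?_⟩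
    intro h0
    rw [mem_singleton_iff] at h0
    exact hne v hv (by rw [h0, sub_self])
  have eV : ∀ v ∈ sphere (a i) r, ∀ ω ∉ range b, ∀ t, Vh (v, ω, t) =
      (v - a i) ^ ((n : ℤ) - 1) * V (v, ω, t) := by
    intro v hv ω hω t
    rw [(e (v, ω, t) ⟨hKa hv, hω⟩).1, ← mul_assoc, ← zpow_add₀ (hne v hv)]
    simp
  have eW : ∀ v ∈ sphere (a i) r, ∀ ω ∉ range b, ∀ t, Wh (v, ω, t) =
      (v - a i) ^ n * W (v, ω, t) := by
    intro v hv ω hω t
    rw [(e (v, ω, t) ⟨hKa hv, hω⟩).2.1, ← mul_assoc, ← zpow_natCast, ← zpow_add₀ (hne v hv)]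
    simp
  have eC : ∀ v ∈ sphere (a i) r, ∀ ω ∉ range b, ∀ t, Ch (v, ω, t) =
      (v - a i) ^ n * C (v, ω, t) := by
    intro v hv ω hω t
    rw [(e (v, ω, t) ⟨hKa hv, hω⟩).2.2.1, ← mul_assoc, ← zpow_natCast, ← zpow_add₀ (hne v hv)]
    simp
  have eD : ∀ v ∈ sphere (a i) r, ∀ ω ∉ range b, ∀ t, Dh (v, ω, t) =
      (v - a i) ^ n * D (v, ω, t) := by
    intro v hv ω hω t
    rw [(e (v, ω, t) ⟨hKa hv, hω⟩).2.2.2, ← mul_assoc, ← zpow_natCast, ← zpow_add₀ (hne v hv)]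
    simp
  obtain ⟨ρ0, hρ0⟩ := mg_far b
  -- small β avoid `range b`
  have hsmall : ∀ j, ∃ δ > 0, ∀ β : ℂ, 0 < ‖β‖ → ‖β‖ < δ → b j + β ∉ range b := by
    intro j
    obtain ⟨δ, hδ, h⟩ := mg_sep b (b j)
    refine ⟨δ, hδ, fun β h0 h1 hmem => ?_⟩
    refine h (b j + β) ?_ ⟨hmem, ?_⟩
    · rw [mem_closedBall, dist_eq_norm]
      simpa using h1.le
    · intro h2
      rw [mem_singleton_iff] at h2
      have : β = 0 := by simpa using h2
      rw [this, norm_zero] at h0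
      exact lt_irrefl _ h0
  refine ⟨?_, ?_, ?_, ?_⟩
  · intro t
    obtain ⟨M, ρ, hρ, hM⟩ := nf_grow_C h hK hKa t
    refine ⟨r ^ n * M, max ρ ρ0, fun ω hω => ?_⟩
    have h1 : ρ < ‖ω‖ := lt_of_le_of_lt (le_max_left _ _) hω
    have h2 : ω ∉ range b := hρ0 ω (lt_of_le_of_lt (le_max_right _ _) hω)
    rw [hc]
    have := mg_maxp (g := fun v => Ch (v, ω, t) * ω) (x0 := a i) (M := r ^ n * M) hr
      (fun x hx => (mg_diff mC (hsep x hx) h2).mul_const ω) (fun v hv => by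
        simp only [norm_mul]
        rw [eC v hv ω h2 t, norm_mul, norm_pow, hnorm v hv, mul_assoc]
        exact mul_le_mul_of_nonneg_left (hM v hv ω h1) (by positivity))
    simpa only [norm_mul] using this
  · intro hw0 t
    obtain ⟨M1, ρ1, hρ1, hM1⟩ := nf_grow_WD h hK hKa t
    obtain ⟨M2, ρ2, hρ2, hM2⟩ := nf_grow_V h hK hKa t
    refine ⟨n * (r ^ ((n : ℤ) - 1) * M2) + d * (r ^ n * M1), max (max ρ1 ρ2) ρ0, fun ω hω => ?_⟩
    have h1 : ρ1 < ‖ω‖ := lt_of_le_of_lt ((le_max_left _ _).trans (le_max_left _ _)) hω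
    have h1' : ρ2 < ‖ω‖ := lt_of_le_of_lt ((le_max_right _ _).trans (le_max_left _ _)) hω
    have h2 : ω ∉ range b := hρ0 ω (lt_of_le_of_lt (le_max_right _ _) hω)
    have k1 := mg_maxp (g := fun v => Wh (v, ω, t) + ω * Dh (v, ω, t)) (x0 := a i)
      (M := r ^ n * M1) hr
      (fun x hx => (mg_diff mW (hsep x hx) h2).add ((mg_diff mD (hsep x hx) h2).const_mul ω))
      (fun v hv => by
        rw [eW v hv ω h2 t, eD v hv ω h2 t,
          show (v - a i) ^ n * W (v, ω, t) + ω * ((v - a i) ^ n * D (v, ω, t)) =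
            (v - a i) ^ n * (W (v, ω, t) + ω * D (v, ω, t)) by ring, norm_mul, norm_pow,
          hnorm v hv]
        exact mul_le_mul_of_nonneg_left (hM1 v hv ω h1) (by positivity))
    have k2 := mg_maxp (g := fun v => Vh (v, ω, t) * ω) (x0 := a i)
      (M := r ^ ((n : ℤ) - 1) * M2) hr
      (fun x hx => (mg_diff mV (hsep x hx) h2).mul_const ω)
      (fun v hv => by
        simp only [norm_mul]
        rw [eV v hv ω h2 t, norm_mul, norm_zpow, hnorm v hv, mul_assoc]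
        exact mul_le_mul_of_nonneg_left (hM2 v hv ω h1') (by positivity))
    have hwz : Wh (a i, ω, t) = 0 := by
      have := hw0 (ω, t) h2
      rw [hw] at this
      exact this
    simp only [hwz, zero_add] at k1
    rw [hτ]
    calc ‖-(n : ℂ) * Vh (a i, ω, t) - (d : ℂ) * Dh (a i, ω, t)‖ * ‖ω‖
        = ‖-(n : ℂ) * (Vh (a i, ω, t) * ω) - (d : ℂ) * (ω * Dh (a i, ω, t))‖ := by
          rw [← norm_mul]; congr 1; ring
      _ ≤ ‖-(n : ℂ) * (Vh (a i, ω, t) * ω)‖ + ‖(d : ℂ) * (ω * Dh (a i, ω, t))‖ := norm_sub_le _ _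
      _ = n * ‖Vh (a i, ω, t) * ω‖ + d * ‖ω * Dh (a i, ω, t)‖ := by
          rw [norm_mul, norm_mul (d : ℂ), norm_neg]
          simp
      _ ≤ n * (r ^ ((n : ℤ) - 1) * M2) + d * (r ^ n * M1) := by
          refine add_le_add (mul_le_mul_of_nonneg_left k2 (by positivity))
            (mul_le_mul_of_nonneg_left k1 (by positivity))
  · intro j
    obtain ⟨M, δ, hδ, hM⟩ := nf_reg_w hb h j hK hKa
    obtain ⟨δ', hδ', hs⟩ := hsmall j
    refine ⟨r ^ n * M, min δ δ', lt_min hδ hδ', fun β h0 h1 X hX => ?_⟩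
    have h2 : b j + β ∉ range b := hs β h0 (lt_of_lt_of_le h1 (min_le_right _ _))
    have h3 : ‖β‖ < δ := lt_of_lt_of_le h1 (min_le_left _ _)
    rw [hw]
    exact mg_maxp (g := fun v => Wh (v, b j + β, z' j + β ^ 3 * X)) (x0 := a i)
      (M := r ^ n * M) hr
      (fun x hx => mg_diff mW (hsep x hx) h2) (fun v hv => by
        rw [eW v hv _ h2 _, norm_mul, norm_pow, hnorm v hv]
        exact mul_le_mul_of_nonneg_left (hM v hv β h0 h3 X hX).1 (by positivity))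
  · intro j
    obtain ⟨M, δ, hδ, hM⟩ := nf_reg_w hb h j hK hKa
    obtain ⟨δ', hδ', hs⟩ := hsmall j
    refine ⟨r ^ n * M, min δ δ', lt_min hδ hδ', fun β h0 h1 X hX => ?_⟩
    have h2 : b j + β ∉ range b := hs β h0 (lt_of_lt_of_le h1 (min_le_right _ _))
    have h3 : ‖β‖ < δ := lt_of_lt_of_le h1 (min_le_left _ _)
    rw [hw, hc]
    have := mg_maxp (g := fun v => (Ch (v, b j + β, z' j + β ^ 3 * X) -
      3 * (β ^ 3 * X) * (Wh (v, b j + β, z' j + β ^ 3 * X) / β)) / β ^ 3) (x0 := a i)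
      (M := r ^ n * M) hr
      (fun x hx => ((mg_diff mC (hsep x hx) h2).sub
        (((mg_diff mW (hsep x hx) h2).div_const β).const_mul _)).div_const _) (fun v hv => by
        rw [eW v hv _ h2 _, eC v hv _ h2 _]
        have : ((v - a i) ^ n * C (v, b j + β, z' j + β ^ 3 * X) - 3 * (β ^ 3 * X) *
          ((v - a i) ^ n * W (v, b j + β, z' j + β ^ 3 * X) / β)) / β ^ 3 =
          (v - a i) ^ n * ((C (v, b j + β, z' j + β ^ 3 * X) -
        3 * (β ^ 3 * X) * (W (v, b j + β, z' j + β ^ 3 * X) / β)) / β ^ 3) := by ring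
        rw [this, norm_mul, norm_pow, hnorm v hv]
        exact mul_le_mul_of_nonneg_left (hM v hv β h0 h3 X hX).2 (by positivity))
    simpa only [add_sub_cancel_left] using this

end Pool.Agent.H43.FX
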