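import Pool.Agent.H43.FX.RatTool

/-!
# FX-ORDER : exact pole order of a finite family

Proof.  Say that `n : ℤ` is admissible if there are `fh i ∈ RatX (P \ {c}) 𝒦` with
`f i (x,y) = (x-c)^(o i - n) * fh i (x,y)` for all `i`, `x ∉ P`, `y ∈ U`.  Large `n` are
admissible (`ratx_pole`; multiply `fh` by powers of `x - c`), and if `n` is admissible so is
`n+1`.  If there is a smallest admissible `n`, the second alternative holds: otherwise
`fh i (c,y) = 0` for all `i` and `y ∈ U`, and by `ratx_div` (`c ∉ P \ {c}`)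
`fh i (x,y) = (x-c) f₁ (x,y)` for `x ∉ P`, `y ∈ U`, so `n - 1` is admissible.
If all integers are admissible, fix `y ∈ U` and `i`: `g(x) = f i (x,y)` is analytic on `Pᶜ`
(`ratx_analytic`) and for every `m : ℕ`, `g(x) = (x-c)^m g_m(x)` for `x ∉ P`, with `g_m` analytic
at `c` (`n = o i - m`).  Let `G = g_0`, analytic at `c`, with `G = (x-c)^m g_m` on a punctured
neighbourhood of `c` (the finite set `P \ {c}` is closed), so `G` vanishes to every order at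
`c` (`AnalyticAt` order), hence `G = 0` near `c`, and `g = 0` near `c` off `c`.  `Pᶜ` is
preconnected (`P` is finite: `Set.Countable.isPathConnected_compl_of_one_lt_rank`) and open,
`g` is analytic on it, so `g = 0` on `Pᶜ` (identity theorem,
`AnalyticOnNhd.eqOn_zero_of_preconnected_of_frequently_eq_zero` at a point near `c`).
-/

namespace Pool.Agent.H43.FX

open Set Metric Filter Topology

section Aux

variable {E : Type*} {P : Set ℂ} {𝒦 : Subalgebra ℂ (E → ℂ)}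

theorem eo_mul {f g : ℂ × E → ℂ} (hf : f ∈ RatX P 𝒦) (hg : g ∈ RatX P 𝒦) :
    (fun p => f p * g p) ∈ RatX P 𝒦 := (RatX P 𝒦).mul_mem hf hg

theorem eo_pow (c : ℂ) (k : ℕ) : (fun p : ℂ × E => (p.1 - c) ^ k) ∈ RatX P 𝒦 := by
  have h1 : (fun p : ℂ × E => p.1 - c) ∈ RatX P 𝒦 :=
    (RatX P 𝒦).sub_mem ratx_fst (ratx_const c)
  exact (RatX P 𝒦).pow_mem h1 k

end Aux

/-- admissible exponents -/
def EoAdm {E : Type*} {ι : Type*} (P : Set ℂ) (c : ℂ) (𝒦 : Subalgebra ℂ (E → ℂ)) (U : Set E)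
    (f : ι → ℂ × E → ℂ) (o : ι → ℤ) (n : ℤ) : Prop :=
  ∃ fh : ι → ℂ × E → ℂ, (∀ i, fh i ∈ RatX (P \ {c}) 𝒦) ∧
    ∀ i, ∀ x ∉ P, ∀ y ∈ U, f i (x, y) = (x - c) ^ (o i - n) * fh i (x, y)

theorem eo_exists {E : Type*} {ι : Type*} [Finite ι] {P : Set ℂ} {c : ℂ} (hc : c ∈ P)
    {𝒦 : Subalgebra ℂ (E → ℂ)} {U : Set E} {f : ι → ℂ × E → ℂ} (hf : ∀ i, f i ∈ RatX P 𝒦)
    (o : ι → ℤ) : ∃ n, EoAdm P c 𝒦 U f o n := by
  choose N g hg hfg using fun i => ratx_pole (hf i) hc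
  obtain ⟨n, hn⟩ : ∃ n : ℤ, ∀ i, o i + N i ≤ n := by
    obtain ⟨n, hn⟩ := (Set.finite_range (fun i => o i + (N i : ℤ))).bddAbove
    exact ⟨n, fun i => hn ⟨i, rfl⟩⟩
  refine ⟨n, fun i p => (p.1 - c) ^ (n - o i - N i).toNat * g i p,
    fun i => eo_mul (eo_pow c _) (hg i), fun i x hx y _ => ?_⟩
  have hxc : x ≠ c := fun h => hx (h ▸ hc)
  have hxc' : x - c ≠ 0 := sub_ne_zero.2 hxc
  rw [hfg i x hxc y, ← mul_assoc]
  congr 1
  rw [← zpow_natCast (x - c) (n - o i - N i).toNat, ← zpow_add₀ hxc', ← zpow_natCast, ← zpow_neg]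
  congr 1
  rw [Int.toNat_of_nonneg (by have := hn i; omega)]
  ring

theorem eo_down {E : Type*} {ι : Type*} {P : Set ℂ} {c : ℂ} (hc : c ∈ P)
    {𝒦 : Subalgebra ℂ (E → ℂ)} {U : Set E} {f : ι → ℂ × E → ℂ} {o : ι → ℤ} {n : ℤ}
    {fh : ι → ℂ × E → ℂ} (h1 : ∀ i, fh i ∈ RatX (P \ {c}) 𝒦)
    (h2 : ∀ i, ∀ x ∉ P, ∀ y ∈ U, f i (x, y) = (x - c) ^ (o i - n) * fh i (x, y))
    (h3 : ∀ i, ∀ y ∈ U, fh i (c, y) = 0) : EoAdm P c 𝒦 U f o (n - 1) := by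
  have hc' : c ∉ P \ {c} := fun h => h.2 rfl
  choose g hg hfg using fun i => ratx_div (h1 i) hc'
  refine ⟨g, hg, fun i x hx y hy => ?_⟩
  have hxc : x ≠ c := fun h => hx (h ▸ hc)
  have hxc' : x - c ≠ 0 := sub_ne_zero.2 hxc
  rw [h2 i x hx y hy, hfg i x (fun h => hx h.1) y, h3 i y hy, zero_add, ← mul_assoc,
    ← zpow_add_one₀ hxc']
  congr 2
  ring

theorem eo_zero {E : Type*} [NormedAddCommGroup E] [NormedSpace ℂ E] {P : Set ℂ}
    (hP : P.Finite) {c : ℂ} (hc : c ∈ P) {𝒦 : Subalgebra ℂ (E → ℂ)}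
    {U : Set E} (h𝒦 : ∀ k ∈ 𝒦, ∀ y ∈ U, AnalyticAt ℂ k y) {f : ℂ × E → ℂ}
    (hf : f ∈ RatX P 𝒦) {y : E} (hy : y ∈ U)
    (h : ∀ m : ℕ, ∃ k : ℕ, m ≤ k ∧ ∃ fh ∈ RatX (P \ {c}) 𝒦,
      ∀ x ∉ P, f (x, y) = (x - c) ^ k * fh (x, y)) (x : ℂ) (hx : x ∉ P) : f (x, y) = 0 := by
  have hc' : c ∉ P \ {c} := fun h => h.2 rfl
  have han : ∀ fh ∈ RatX (P \ {c}) 𝒦, AnalyticAt ℂ (fun x => fh (x, y)) c := by
    intro fh hfh
    have h1 := ratx_analytic h𝒦 hfh hc' hy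
    exact h1.comp₂ analyticAt_id analyticAt_const
  have hnear : ∀ᶠ x in 𝓝[≠] c, x ∉ P := by
    have h1 : (P \ {c})ᶜ ∈ 𝓝 c := (hP.subset diff_subset).isClosed.isOpen_compl.mem_nhds hc'
    filter_upwards [nhdsWithin_le_nhds h1, self_mem_nhdsWithin] with x h2 h3 h4
    exact h2 ⟨h4, h3⟩
  obtain ⟨k₀, -, fh₀, hfh₀, hf₀⟩ := h 0
  let G : ℂ → ℂ := fun x => (x - c) ^ k₀ * fh₀ (x, y)
  have hG : AnalyticAt ℂ G c :=
    ((analyticAt_id.sub analyticAt_const).pow k₀).mul (han fh₀ hfh₀)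
  have hGtop : analyticOrderAt G c = ⊤ := by
    refine ENat.eq_top_iff_forall_ge.2 fun m => ?_
    obtain ⟨k, hmk, fh, hfh, hfk⟩ := h m
    refine (natCast_le_analyticOrderAt hG).2 ⟨fun x => (x - c) ^ (k - m) * fh (x, y),
      ((analyticAt_id.sub analyticAt_const).pow _).mul (han fh hfh), ?_⟩
    have hG2 : ContinuousAt (fun x : ℂ => (x - c) ^ m • ((x - c) ^ (k - m) * fh (x, y))) c :=
      (((analyticAt_id.sub analyticAt_const).pow m).smul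
        (((analyticAt_id.sub analyticAt_const).pow _).mul (han fh hfh))).continuousAt
    refine (hG.continuousAt.eventuallyEq_nhds_iff_eventuallyEq_nhdsNE hG2).1 ?_
    filter_upwards [hnear] with x hx
    show (x - c) ^ k₀ * fh₀ (x, y) = (x - c) ^ m • ((x - c) ^ (k - m) * fh (x, y))
    rw [← hf₀ x hx, hfk x hx, smul_eq_mul, ← mul_assoc, ← pow_add, Nat.add_sub_cancel' hmk]
  have hG0 : ∀ᶠ x in 𝓝 c, G x = 0 := analyticOrderAt_eq_top.1 hGtop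
  have hf0 : ∀ᶠ x in 𝓝[≠] c, f (x, y) = 0 := by
    filter_upwards [hnear, nhdsWithin_le_nhds hG0] with x h1 h2
    rw [hf₀ x h1]
    exact h2
  have hconn : IsPreconnected Pᶜ :=
    (hP.countable.isPathConnected_compl_of_one_lt_rank
      (by rw [Complex.rank_real_complex]; exact Nat.one_lt_ofNat)).isConnected.isPreconnected
  have hana : AnalyticOnNhd ℂ (fun x => f (x, y)) Pᶜ := by
    intro x hx
    have h1 := ratx_analytic h𝒦 hf hx hy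
    exact h1.comp₂ analyticAt_id analyticAt_const
  have hopen : ∀ᶠ x in 𝓝[≠] c, f (x, y) = 0 ∧ x ∉ P := hf0.and hnear
  rw [eventually_nhdsWithin_iff, Metric.eventually_nhds_iff] at hopen
  obtain ⟨r, hr, hr2⟩ := hopen
  let x₀ : ℂ := c + (r / 2 : ℝ)
  have hx₀c : x₀ ≠ c := by
    intro h
    have h1 : ((r / 2 : ℝ) : ℂ) = 0 := by
      have h2 : c + ((r / 2 : ℝ) : ℂ) = c + 0 := by rw [add_zero]; exact h
      exact add_left_cancel h2
    have h3 : r / 2 = 0 := by exact_mod_cast h1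
    linarith
  have hx₀r : dist x₀ c < r := by
    rw [dist_eq_norm]
    show ‖c + ((r / 2 : ℝ) : ℂ) - c‖ < r
    rw [add_sub_cancel_left, Complex.norm_real, Real.norm_of_nonneg (by linarith)]
    linarith
  have hx₀P := (hr2 hx₀r hx₀c).2
  have hev : (fun x => f (x, y)) =ᶠ[𝓝 x₀] 0 := by
    have h1 : {x | dist x c < r} ∈ 𝓝 x₀ := isOpen_ball.mem_nhds hx₀r
    filter_upwards [h1, isOpen_ne.mem_nhds hx₀c] with x h2 h3
    exact (hr2 h2 h3).1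
  exact hana.eqOn_zero_of_preconnected_of_eventuallyEq_zero hconn hx₀P hev hx

theorem exists_order {E : Type*} [NormedAddCommGroup E] [NormedSpace ℂ E] {ι : Type*}
    [Finite ι] {P : Set ℂ} (hP : P.Finite) {c : ℂ} (hc : c ∈ P) {𝒦 : Subalgebra ℂ (E → ℂ)}
    {U : Set E} (h𝒦 : ∀ k ∈ 𝒦, ∀ y ∈ U, AnalyticAt ℂ k y) {f : ι → ℂ × E → ℂ}
    (hf : ∀ i, f i ∈ RatX P 𝒦) (o : ι → ℤ) :
    (∀ i, ∀ x ∉ P, ∀ y ∈ U, f i (x, y) = 0) ∨
    ∃ (n : ℤ) (fh : ι → ℂ × E → ℂ), (∀ i, fh i ∈ RatX (P \ {c}) 𝒦) ∧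
      (∀ i, ∀ x ∉ P, ∀ y ∈ U, f i (x, y) = (x - c) ^ (o i - n) * fh i (x, y)) ∧
      ∃ i, ∃ y ∈ U, fh i (c, y) ≠ 0 := by
  by_cases hbd : ∃ b : ℤ, ∀ n, EoAdm P c 𝒦 U f o n → b ≤ n
  · right
    obtain ⟨n, hn, hmin⟩ := Int.exists_least_of_bdd hbd (eo_exists hc hf o)
    obtain ⟨fh, h1, h2⟩ := hn
    refine ⟨n, fh, h1, h2, ?_⟩
    by_contra hcon
    push Not at hcon
    have h3 := hmin (n - 1) (eo_down hc h1 h2 hcon)
    omega
  · left
    push Not at hbd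
    intro i x hx y hy
    refine eo_zero hP hc h𝒦 (hf i) hy (fun m => ?_) x hx
    obtain ⟨n, ⟨fh, h1, h2⟩, hn⟩ := hbd (o i - m)
    refine ⟨(o i - n).toNat, by omega, fh i, h1 i, fun x hx => ?_⟩
    rw [h2 i x hx y hy, ← zpow_natCast, Int.toNat_of_nonneg (by omega)]

end Pool.Agent.H43.FX
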