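import Pool.Agent.H43.FX.NFBasic
import Pool.Agent.H43.FX.Order
import Pool.Agent.H43.FX.LiouRat

/-!
# FX-POS1 : some line `v = a_i` is polar

Proof.  For each `i` apply `exists_order` with `P = range a`, `c = a i`, `E = ℂ × ℂ`,
`𝒦 = Rw (range b)`, `U = D2 b`, `ι = Fin 4`, `f = ![V, W, C, D]`, `o = ![1,0,0,0]`.  The first
alternative contradicts `hne`.  So there are `n_i : ℤ` and `Vh_i, ...` with
`V = (v-a_i)^{1-n_i} Vh_i` etc. on `D3` and not all leading coefficients zero.  If some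
`n_i ≥ 1` we are done (`n = n_i.toNat`).  Otherwise all `n_i ≤ 0`.  Fix `(ω, t) ∈ D2 b`.
* `W(·,ω,t)`, `C(·,ω,t)` are differentiable off `range a`, bounded near each `a_i`
  (`(v-a_i)^{-n_i} Wh_i`, `-n_i ≥ 0`) and `O(1/‖v‖)` (`nf_grow_v`): they vanish by `liou_rat`.
* `f(v) = V(v,ω,t)/∏_l (v-a_l)`: near `a_i` it is `(v-a_i)^{-n_i} Vh_i/∏_{l≠i}(v-a_l)`, bounded
  (`a` injective), and `O(‖v‖^{1-4})`: so `f = 0` and `V(·,ω,t) = 0`.
* then `v D = V + v D = O(1)`, so `D(·,ω,t) = O(1/‖v‖)`, bounded near each `a_i`: `D = 0`.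
Contradiction to `hne`.
-/

namespace Pool.Agent.H43.FX

open Set Metric Filter Topology

variable {a b z z' : Fin 4 → ℂ} {d : ℕ} {V W C D : ℂ × ℂ × ℂ → ℂ}

theorem pos1_bd {f g : ℂ → ℂ} {q : ℂ} (hg : ContinuousAt g q)
    (h : ∀ᶠ v in 𝓝[≠] q, f v = g v) :
    ∃ δ M : ℝ, 0 < δ ∧ ∀ ω, 0 < ‖ω - q‖ → ‖ω - q‖ < δ → ‖f ω‖ ≤ M := by
  have h1 : ∀ᶠ v in 𝓝[≠] q, ‖g v‖ < ‖g q‖ + 1 := by
    apply Filter.Eventually.filter_mono nhdsWithin_le_nhds
    exact hg.norm.eventually_lt_const (by linarith)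
  have h2 := h.and h1
  rw [Metric.nhdsWithin_basis_ball.eventually_iff] at h2
  obtain ⟨δ, hδ, h2⟩ := h2
  refine ⟨δ, ‖g q‖ + 1, hδ, fun ω h0 h3 => ?_⟩
  have h4 := h2 (x := ω) ⟨by rwa [mem_ball, dist_eq_norm], by
    intro h5
    rw [mem_singleton_iff.mp h5] at h0
    simp at h0⟩
  rw [h4.1]
  exact h4.2.le

theorem pos1_ev (i : Fin 4) :
    ∀ᶠ v in 𝓝[≠] (a i), v ∉ range a := by
  have h1 : (range a \ {a i}).Finite := (finite_range a).subset sdiff_subset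
  have h2 : ∀ᶠ v in 𝓝 (a i), v ∈ (range a \ {a i})ᶜ :=
    h1.isClosed.isOpen_compl.mem_nhds (by simp)
  filter_upwards [h2.filter_mono nhdsWithin_le_nhds, self_mem_nhdsWithin] with v h3 h4 h5
  exact h3 ⟨h5, h4⟩

theorem pos1_inf {f : ℂ → ℂ} {M ρ : ℝ} (h : ∀ v : ℂ, ρ < ‖v‖ → ‖f v‖ * ‖v‖ ≤ M) :
    ∀ ε : ℝ, 0 < ε → ∃ ρ : ℝ, ∀ ω, ρ < ‖ω‖ → ‖f ω‖ ≤ ε := by
  intro ε hε
  refine ⟨max (max ρ (M / ε)) 0, fun v hv => ?_⟩
  have h1 : ρ < ‖v‖ := lt_of_le_of_lt ((le_max_left _ _).trans (le_max_left _ _)) hv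
  have h2 : M / ε < ‖v‖ := lt_of_le_of_lt ((le_max_right _ _).trans (le_max_left _ _)) hv
  have h3 : 0 < ‖v‖ := lt_of_le_of_lt (le_max_right _ _) hv
  have h4 := h v h1
  rw [div_lt_iff₀ hε] at h2
  by_contra h5
  push Not at h5
  have : ε * ‖v‖ < ‖f v‖ * ‖v‖ := mul_lt_mul_of_pos_right h5 h3
  nlinarith

theorem pos1_diff {F : ℂ × ℂ × ℂ → ℂ} (hF : F ∈ Rvw (range a) (range b)) {y : ℂ × ℂ}
    (hy : y ∈ D2 b) : ∀ v ∉ range a, DifferentiableAt ℂ (fun v => F (v, y)) v := by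
  intro v hv
  have h1 : AnalyticAt ℂ F (v, y.1, y.2) := rvw_analytic hF hv hy
  have h2 : DifferentiableAt ℂ F (v, y) := h1.differentiableAt
  exact h2.comp v (by fun_prop)

theorem pos1_cont {F : ℂ × ℂ × ℂ → ℂ} {i : Fin 4}
    (hF : F ∈ Rvw (range a \ {a i}) (range b)) {y : ℂ × ℂ}
    (hy : y ∈ D2 b) : ContinuousAt (fun v => F (v, y)) (a i) := by
  have h1 : AnalyticAt ℂ F (a i, y.1, y.2) := rvw_analytic hF (by simp) hy
  have h2 : ContinuousAt F (a i, y) := h1.continuousAt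
  exact ContinuousAt.comp (f := fun v => (v, y)) h2 (by fun_prop)

theorem pos1 (h : NegField a b z z' d V W C D) (ha : Function.Injective a)
    (hne : ¬ ∀ p ∈ D3 a b, V p = 0 ∧ W p = 0 ∧ C p = 0 ∧ D p = 0) :
    ∃ (i : Fin 4) (n : ℕ) (Vh Wh Ch Dh : ℂ × ℂ × ℂ → ℂ), 1 ≤ n ∧
      Vh ∈ Rvw (range a \ {a i}) (range b) ∧ Wh ∈ Rvw (range a \ {a i}) (range b) ∧
      Ch ∈ Rvw (range a \ {a i}) (range b) ∧ Dh ∈ Rvw (range a \ {a i}) (range b) ∧
      (∀ p ∈ D3 a b, V p = (p.1 - a i) ^ (1 - (n : ℤ)) * Vh p ∧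
        W p = (p.1 - a i) ^ (-(n : ℤ)) * Wh p ∧ C p = (p.1 - a i) ^ (-(n : ℤ)) * Ch p ∧
        D p = (p.1 - a i) ^ (-(n : ℤ)) * Dh p) ∧
      ∃ p ∈ D2 b, ¬ (Vh (a i, p) = 0 ∧ Wh (a i, p) = 0 ∧ Ch (a i, p) = 0 ∧
        Dh (a i, p) = 0) := by
  have hord : ∀ i : Fin 4, ∃ (n : ℤ) (fh : Fin 4 → ℂ × ℂ × ℂ → ℂ),
      (∀ k, fh k ∈ RatX (range a \ {a i}) (Rw (range b))) ∧
      (∀ k, ∀ x ∉ range a, ∀ y ∈ D2 b, (![V, W, C, D] k) (x, y) =
        (x - a i) ^ ((![1, 0, 0, 0] : Fin 4 → ℤ) k - n) * fh k (x, y)) ∧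
      ∃ k, ∃ y ∈ D2 b, fh k (a i, y) ≠ 0 := by
    intro i
    rcases exists_order (E := ℂ × ℂ) (P := range a) (finite_range a) (c := a i)
      (mem_range_self i) (𝒦 := Rw (range b)) (U := D2 b)
      (fun k hk y hy => rw_analytic hk hy) (f := ![V, W, C, D])
      (by
        intro k
        fin_cases k
        · exact h.mV
        · exact h.mW
        · exact h.mC
        · exact h.mD) ![1, 0, 0, 0] with h1 | h1
    · exfalso
      apply hne
      rintro ⟨v, y⟩ ⟨hv, hy⟩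
      exact ⟨h1 0 v hv y hy, h1 1 v hv y hy, h1 2 v hv y hy, h1 3 v hv y hy⟩
    · exact h1
  by_contra hcon
  have hn : ∀ i : Fin 4, ∃ (m : ℕ) (Vh Wh Ch Dh : ℂ × ℂ × ℂ → ℂ),
      Vh ∈ Rvw (range a \ {a i}) (range b) ∧ Wh ∈ Rvw (range a \ {a i}) (range b) ∧
      Ch ∈ Rvw (range a \ {a i}) (range b) ∧ Dh ∈ Rvw (range a \ {a i}) (range b) ∧
      ∀ v ∉ range a, ∀ y ∈ D2 b, V (v, y) = (v - a i) ^ (m + 1) * Vh (v, y) ∧
        W (v, y) = (v - a i) ^ m * Wh (v, y) ∧ C (v, y) = (v - a i) ^ m * Ch (v, y) ∧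
        D (v, y) = (v - a i) ^ m * Dh (v, y) := by
    intro i
    obtain ⟨n, fh, hf1, hf2, k, y, hy, hk⟩ := hord i
    rcases lt_or_ge 0 n with h0 | h0
    · exfalso
      apply hcon
      have hnn : ((n.toNat : ℕ) : ℤ) = n := Int.toNat_of_nonneg h0.le
      refine ⟨i, n.toNat, fh 0, fh 1, fh 2, fh 3, by omega, hf1 0, hf1 1, hf1 2, hf1 3, ?_,
        y, hy, ?_⟩
      · rintro ⟨v, w⟩ ⟨hv, hw⟩
        rw [hnn]
        refine ⟨?_, ?_, ?_, ?_⟩
        · simpa using hf2 0 v hv w hw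
        · simpa using hf2 1 v hv w hw
        · simpa using hf2 2 v hv w hw
        · simpa using hf2 3 v hv w hw
      · rintro ⟨h1, h2, h3, h4⟩
        fin_cases k
        · exact hk h1
        · exact hk h2
        · exact hk h3
        · exact hk h4
    · obtain ⟨m, hm⟩ : ∃ m : ℕ, (m : ℤ) = -n := ⟨(-n).toNat, Int.toNat_of_nonneg (by omega)⟩
      refine ⟨m, fh 0, fh 1, fh 2, fh 3, hf1 0, hf1 1, hf1 2, hf1 3, ?_⟩
      intro v hv w hw
      refine ⟨?_, ?_, ?_, ?_⟩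
      · have := hf2 0 v hv w hw
        simp only [Matrix.cons_val_zero] at this
        rw [this, show (1 : ℤ) - n = ((m + 1 : ℕ) : ℤ) by push_cast; omega, zpow_natCast]
      · have := hf2 1 v hv w hw
        simp only [Matrix.cons_val_one, Matrix.cons_val_zero] at this
        rw [this, show (0 : ℤ) - n = ((m : ℕ) : ℤ) by omega, zpow_natCast]
      · have := hf2 2 v hv w hw
        simp only [Matrix.cons_val] at this
        rw [this, show (0 : ℤ) - n = ((m : ℕ) : ℤ) by omega, zpow_natCast]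
      · have := hf2 3 v hv w hw
        simp only [Matrix.cons_val] at this
        rw [this, show (0 : ℤ) - n = ((m : ℕ) : ℤ) by omega, zpow_natCast]
  choose m Vh Wh Ch Dh hVh hWh hCh hDh hE using hn
  apply hne
  -- a criterion of vanishing
  have key : ∀ (F : ℂ × ℂ × ℂ → ℂ) (Fh : Fin 4 → ℂ × ℂ × ℂ → ℂ), F ∈ Rvw (range a) (range b) →
      (∀ i, Fh i ∈ Rvw (range a \ {a i}) (range b)) → ∀ y ∈ D2 b,
      (∀ i, ∀ v ∉ range a, F (v, y) = (v - a i) ^ m i * Fh i (v, y)) →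
      (∃ M ρ : ℝ, ∀ v : ℂ, ρ < ‖v‖ → ‖F (v, y)‖ * ‖v‖ ≤ M) → ∀ v ∉ range a, F (v, y) = 0 := by
    intro F Fh hF hFh y hy h1 ⟨M, ρ, h2⟩
    refine liou_rat (finite_range a) (f := fun v => F (v, y)) (pos1_diff hF hy) ?_
      (pos1_inf h2)
    rintro q ⟨i, rfl⟩
    refine pos1_bd (g := fun v => (v - a i) ^ m i * Fh i (v, y)) ?_ ?_
    · exact ContinuousAt.mul (by fun_prop) (pos1_cont (hFh i) hy)
    · filter_upwards [pos1_ev i] with v hv
      exact h1 i v hv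
  rintro ⟨v0, ω, t⟩ ⟨hv0, hω⟩
  have hy : (ω, t) ∈ D2 b := hω
  obtain ⟨M, ρ, hρ, hG⟩ := nf_grow_v h (ω := ω) hω t
  have hV : ∀ v ∉ range a, V (v, ω, t) = 0 := by
    have h1 : ∀ v ∉ range a, (V (v, ω, t) / ∏ l, (v - a l)) = 0 := by
      refine liou_rat (finite_range a) (f := fun v => V (v, ω, t) / ∏ l, (v - a l)) ?_ ?_ ?_
      · intro v hv
        refine DifferentiableAt.div (pos1_diff h.mV hy v hv) (by fun_prop) ?_
        rw [Finset.prod_ne_zero_iff]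
        intro l _ h3
        exact hv ⟨l, (sub_eq_zero.mp h3).symm⟩
      · rintro q ⟨i, rfl⟩
        refine pos1_bd (g := fun v => (v - a i) ^ m i * Vh i (v, ω, t) /
          ∏ l ∈ Finset.univ.erase i, (v - a l)) ?_ ?_
        · refine ContinuousAt.div (ContinuousAt.mul (by fun_prop) (pos1_cont (hVh i) hy))
            (by fun_prop) ?_
          rw [Finset.prod_ne_zero_iff]
          intro l hl h3
          exact (Finset.mem_erase.mp hl).1 (ha (sub_eq_zero.mp h3)).symm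
        · filter_upwards [pos1_ev i] with v hv
          have h3 : v - a i ≠ 0 := fun h4 => hv ⟨i, (sub_eq_zero.mp h4).symm⟩
          rw [(hE i v hv (ω, t) hy).1, ← Finset.mul_prod_erase _ _ (Finset.mem_univ i),
            pow_succ]
          field_simp
      · obtain ⟨A, hA⟩ : ∃ A : ℝ, ∀ l, ‖a l‖ ≤ A :=
          ⟨∑ l, ‖a l‖, fun l => Finset.single_le_sum (f := fun l => ‖a l‖)
            (fun _ _ => norm_nonneg _) (Finset.mem_univ l)⟩
        refine pos1_inf (M := 16 * M) (ρ := max (max ρ (2 * A)) 1) ?_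
        intro v hv
        have h2 : ρ < ‖v‖ := lt_of_le_of_lt ((le_max_left _ _).trans (le_max_left _ _)) hv
        have h3 : 2 * A < ‖v‖ := lt_of_le_of_lt ((le_max_right _ _).trans (le_max_left _ _)) hv
        have h4 : 1 < ‖v‖ := lt_of_le_of_lt (le_max_right _ _) hv
        have h5 : ‖V (v, ω, t)‖ ≤ M * ‖v‖ := (hG v h2).2.2.1
        have hM : 0 ≤ M := by
          by_contra h6
          push Not at h6
          have : M * ‖v‖ < 0 := mul_neg_of_neg_of_pos h6 (by linarith)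
          linarith [norm_nonneg (V (v, ω, t))]
        have h6 : ∀ l, ‖v‖ / 2 ≤ ‖v - a l‖ := by
          intro l
          have := norm_sub_norm_le v (a l)
          have := hA l
          linarith
        have h7 : (‖v‖ / 2) ^ 4 ≤ ‖∏ l, (v - a l)‖ := by
          rw [norm_prod]
          calc (‖v‖ / 2) ^ 4 = ∏ _l : Fin 4, (‖v‖ / 2) := by
                rw [Finset.prod_const, Finset.card_univ, Fintype.card_fin]
            _ ≤ _ := Finset.prod_le_prod (fun _ _ => by positivity) (fun l _ => h6 l)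
        have h8 : 0 < (‖v‖ / 2) ^ 4 := by positivity
        rw [norm_div]
        have h9 : ‖V (v, ω, t)‖ / ‖∏ l, (v - a l)‖ ≤ M * ‖v‖ / (‖v‖ / 2) ^ 4 :=
          div_le_div₀ (by positivity) h5 h8 h7
        calc ‖V (v, ω, t)‖ / ‖∏ l, (v - a l)‖ * ‖v‖
            ≤ M * ‖v‖ / (‖v‖ / 2) ^ 4 * ‖v‖ := by gcongr
          _ = 16 * M / ‖v‖ ^ 2 := by field_simp; ring
          _ ≤ 16 * M / 1 := by
            apply div_le_div_of_nonneg_left (by positivity) one_pos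
            exact one_le_pow₀ h4.le
          _ = 16 * M := by ring
    intro v hv
    have h2 := h1 v hv
    rw [div_eq_zero_iff] at h2
    rcases h2 with h2 | h2
    · exact h2
    · exfalso
      rw [Finset.prod_eq_zero_iff] at h2
      obtain ⟨l, _, h3⟩ := h2
      exact hv ⟨l, (sub_eq_zero.mp h3).symm⟩
  refine ⟨hV v0 hv0, ?_, ?_, ?_⟩
  · refine key W Wh h.mW hWh (ω, t) hy (fun i v hv => (hE i v hv (ω, t) hy).2.1)
      ⟨M, ρ, fun v hv => (hG v hv).1⟩ v0 hv0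
  · refine key C Ch h.mC hCh (ω, t) hy (fun i v hv => (hE i v hv (ω, t) hy).2.2.1)
      ⟨M, ρ, fun v hv => (hG v hv).2.1⟩ v0 hv0
  · refine key D Dh h.mD hDh (ω, t) hy (fun i v hv => (hE i v hv (ω, t) hy).2.2.2) ?_ v0 hv0
    obtain ⟨A, hA⟩ : ∃ A : ℝ, ∀ l, ‖a l‖ ≤ A :=
      ⟨∑ l, ‖a l‖, fun l => Finset.single_le_sum (f := fun l => ‖a l‖)
        (fun _ _ => norm_nonneg _) (Finset.mem_univ l)⟩
    refine ⟨M, max ρ A, fun v hv => ?_⟩
    have h2 : ρ < ‖v‖ := lt_of_le_of_lt (le_max_left _ _) hv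
    have h3 : A < ‖v‖ := lt_of_le_of_lt (le_max_right _ _) hv
    have h4 : v ∉ range a := by
      rintro ⟨l, rfl⟩
      linarith [hA l]
    have h5 := (hG v h2).2.2.2
    rw [hV v h4, zero_add, norm_mul] at h5
    linarith [mul_comm ‖v‖ ‖D (v, ω, t)‖]

end Pool.Agent.H43.FX
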