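import Pool.Agent.H43.FX.Defs

/-!
# FX-SQ : algebra of the iterates `sq`

* `sq_analytic` : induction on `m` (`AnalyticOnNhd.fderiv`, evaluation of an analytic family of
  continuous linear maps at an analytic vector: `AnalyticOnNhd.clm_apply`).
* `sq_congr` : induction on `m`; the germs agree on the open set `U`
  (`Filter.EventuallyEq.fderiv_eq`).
* `sq_mul` : induction on `m`.  Differentiate the sum (Leibniz), for the term
  `C(m,j) f_j g_{m-j}`: `ξ(f_j g_{m-j}) + (S₁+S₂+mT) f_j g_{m-j} =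
  (ξ f_j + (S₁ + jT) f_j) g_{m-j} + f_j (ξ g_{m-j} + (S₂ + (m-j)T) g_{m-j})
  = f_{j+1} g_{m-j} + f_j g_{m+1-j}`, then Pascal's rule (as in `iteratedDeriv_mul` or
  `Finset.sum_antidiagonal_choose_succ_mul`).
* `sq_shift` : induction on `m`, equality of functions.
* `sq_smul` : induction on `m`.
-/

namespace Pool.Agent.H43.FX

open Set Metric Filter Topology

section

variable {E : Type*} [NormedAddCommGroup E] [NormedSpace ℂ E] {U : Set E} {ξ ξ' : E → E}
  {S S' S₁ S₂ T T' f f' g : E → ℂ}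

theorem sq_analytic (hU : IsOpen U) (hξ : AnalyticOnNhd ℂ ξ U) (hS : AnalyticOnNhd ℂ S U)
    (hT : AnalyticOnNhd ℂ T U) (hf : AnalyticOnNhd ℂ f U) (m : ℕ) :
    AnalyticOnNhd ℂ (sq ξ S T f m) U := by
  induction m with
  | zero => exact hf
  | succ m ih =>
    have h1 : AnalyticOnNhd ℂ (fun p => fderiv ℂ (sq ξ S T f m) p (ξ p)) U :=
      fun p hp => ((ContinuousLinearMap.id ℂ (E →L[ℂ] ℂ)).analyticAt_bilinear
        (fderiv ℂ (sq ξ S T f m) p, ξ p)).comp₂ (ih.fderiv p hp) (hξ p hp)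
    exact h1.add ((hS.add (analyticOnNhd_const.mul hT)).mul ih)

theorem sq_congr (hU : IsOpen U) (hξ : EqOn ξ ξ' U) (hS : EqOn S S' U) (hT : EqOn T T' U)
    (hf : EqOn f f' U) (m : ℕ) : EqOn (sq ξ S T f m) (sq ξ' S' T' f' m) U := by
  induction m with
  | zero => exact hf
  | succ m ih =>
    intro p hp
    have h1 : fderiv ℂ (sq ξ S T f m) p = fderiv ℂ (sq ξ' S' T' f' m) p :=
      (ih.eventuallyEq_of_mem (hU.mem_nhds hp)).fderiv_eq
    simp only [sq]
    rw [h1, hξ hp, hS hp, hT hp, ih hp]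

theorem sq_mul (hU : IsOpen U) (hξ : AnalyticOnNhd ℂ ξ U) (hS₁ : AnalyticOnNhd ℂ S₁ U)
    (hS₂ : AnalyticOnNhd ℂ S₂ U) (hT : AnalyticOnNhd ℂ T U) (hf : AnalyticOnNhd ℂ f U)
    (hg : AnalyticOnNhd ℂ g U) (m : ℕ) {p : E} (hp : p ∈ U) :
    sq ξ (fun q => S₁ q + S₂ q) T (fun q => f q * g q) m p =
      ∑ j ∈ Finset.range (m + 1), (m.choose j : ℂ) * sq ξ S₁ T f j p * sq ξ S₂ T g (m - j) p := by
  induction m generalizing p with
  | zero => simp [sq]
  | succ m ih =>
    have hF : ∀ j, AnalyticOnNhd ℂ (sq ξ S₁ T f j) U := fun j => sq_analytic hU hξ hS₁ hT hf j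
    have hG : ∀ j, AnalyticOnNhd ℂ (sq ξ S₂ T g j) U := fun j => sq_analytic hU hξ hS₂ hT hg j
    set F := sq ξ S₁ T f with hFdef
    set G := sq ξ S₂ T g with hGdef
    have hFs : ∀ j, F (j + 1) p = fderiv ℂ (F j) p (ξ p) + (S₁ p + (j : ℂ) * T p) * F j p :=
      fun j => rfl
    have hGs : ∀ j, G (j + 1) p = fderiv ℂ (G j) p (ξ p) + (S₂ p + (j : ℂ) * T p) * G j p :=
      fun j => rfl
    have hE : EqOn (sq ξ (fun q => S₁ q + S₂ q) T (fun q => f q * g q) m)
        (fun q => ∑ j ∈ Finset.range (m + 1), (m.choose j : ℂ) * F j q * G (m - j) q) U :=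
      fun q hq => ih hq
    have hd : fderiv ℂ (sq ξ (fun q => S₁ q + S₂ q) T (fun q => f q * g q) m) p (ξ p) =
        ∑ j ∈ Finset.range (m + 1), (m.choose j : ℂ) *
          (fderiv ℂ (F j) p (ξ p) * G (m - j) p + F j p * fderiv ℂ (G (m - j)) p (ξ p)) := by
      rw [(hE.eventuallyEq_of_mem (hU.mem_nhds hp)).fderiv_eq]
      have h1 : ∀ j ∈ Finset.range (m + 1),
          HasFDerivAt (fun q => (m.choose j : ℂ) * F j q * G (m - j) q)
            (((m.choose j : ℂ) * F j p) • fderiv ℂ (G (m - j)) p +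
              G (m - j) p • ((m.choose j : ℂ) • fderiv ℂ (F j) p)) p := by
        intro j _
        have a1 := ((hF j) p hp).differentiableAt.hasFDerivAt
        have a2 := ((hG (m - j)) p hp).differentiableAt.hasFDerivAt
        exact (a1.const_mul (m.choose j : ℂ)).mul a2
      have h2 := (HasFDerivAt.fun_sum h1).fderiv
      rw [h2]
      simp only [ContinuousLinearMap.coe_sum', Finset.sum_apply, ContinuousLinearMap.add_apply,
        ContinuousLinearMap.smul_apply, smul_eq_mul]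
      refine Finset.sum_congr rfl fun j _ => ?_
      ring
    have hstep : sq ξ (fun q => S₁ q + S₂ q) T (fun q => f q * g q) (m + 1) p =
        fderiv ℂ (sq ξ (fun q => S₁ q + S₂ q) T (fun q => f q * g q) m) p (ξ p) +
          ((S₁ p + S₂ p) + (m : ℂ) * T p) *
            sq ξ (fun q => S₁ q + S₂ q) T (fun q => f q * g q) m p := rfl
    rw [hstep, hd, hE hp]
    simp only []
    rw [Finset.mul_sum, ← Finset.sum_add_distrib]
    have h3 : ∀ j ∈ Finset.range (m + 1),
        (m.choose j : ℂ) * (fderiv ℂ (F j) p (ξ p) * G (m - j) p +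
          F j p * fderiv ℂ (G (m - j)) p (ξ p)) +
          (S₁ p + S₂ p + (m : ℂ) * T p) * ((m.choose j : ℂ) * F j p * G (m - j) p) =
        (m.choose j : ℂ) * (F (j + 1) p * G (m - j) p + F j p * G (m + 1 - j) p) := by
      intro j hj
      have hj' : j ≤ m := Nat.lt_succ_iff.1 (Finset.mem_range.1 hj)
      rw [hFs j, Nat.succ_sub hj', Nat.succ_eq_add_one, hGs (m - j)]
      rw [Nat.cast_sub hj']
      ring
    rw [Finset.sum_congr rfl h3]
    -- Pascal
    have h4 : ∑ j ∈ Finset.range (m + 1),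
        (m.choose j : ℂ) * (F (j + 1) p * G (m - j) p + F j p * G (m + 1 - j) p) =
        ∑ j ∈ Finset.range (m + 1), (m.choose j : ℂ) * (F (j + 1) p * G (m - j) p) +
        ∑ j ∈ Finset.range (m + 1), (m.choose j : ℂ) * (F j p * G (m + 1 - j) p) := by
      rw [← Finset.sum_add_distrib]
      exact Finset.sum_congr rfl fun j _ => by ring
    have h5 : ∑ j ∈ Finset.range (m + 1), (m.choose j : ℂ) * (F j p * G (m + 1 - j) p) =
        ∑ j ∈ Finset.range (m + 2), (m.choose j : ℂ) * (F j p * G (m + 1 - j) p) := by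
      rw [Finset.sum_range_succ _ (m + 1)]
      simp
    rw [h4, h5, Finset.sum_range_succ' _ (m + 1), Finset.sum_range_succ' _ (m + 1)]
    rw [← add_assoc, ← Finset.sum_add_distrib]
    congr 1
    · refine Finset.sum_congr rfl fun j _ => ?_
      have : m + 1 - (j + 1) = m - j := by omega
      rw [this, Nat.choose_succ_succ]
      push_cast
      ring
    · simp

theorem sq_shift (m : ℕ) :
    sq ξ S T f (m + 1) =
      sq ξ (fun q => S q + T q) T (fun q => fderiv ℂ f q (ξ q) + S q * f q) m := by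
  induction m with
  | zero => funext p; simp [sq]
  | succ m ih =>
    funext p
    have h1 : sq ξ S T f (m + 1 + 1) p = fderiv ℂ (sq ξ S T f (m + 1)) p (ξ p) +
      (S p + ((m + 1 : ℕ) : ℂ) * T p) * sq ξ S T f (m + 1) p := rfl
    have h2 : sq ξ (fun q => S q + T q) T (fun q => fderiv ℂ f q (ξ q) + S q * f q) (m + 1) p =
      fderiv ℂ (sq ξ (fun q => S q + T q) T (fun q => fderiv ℂ f q (ξ q) + S q * f q) m) p (ξ p) +
      (S p + T p + (m : ℂ) * T p) *
        sq ξ (fun q => S q + T q) T (fun q => fderiv ℂ f q (ξ q) + S q * f q) m p := rfl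
    rw [h1, h2, ih]
    push_cast
    ring

theorem sq_smul (hU : IsOpen U) (hξ : AnalyticOnNhd ℂ ξ U) (hS : AnalyticOnNhd ℂ S U)
    (hT : AnalyticOnNhd ℂ T U) (hf : AnalyticOnNhd ℂ f U) (c : ℂ) (m : ℕ) {p : E}
    (hp : p ∈ U) : sq ξ S T (fun q => c * f q) m p = c * sq ξ S T f m p := by
  induction m generalizing p with
  | zero => rfl
  | succ m ih =>
    have hE : EqOn (sq ξ S T (fun q => c * f q) m) (fun q => c * sq ξ S T f m q) U :=
      fun q hq => ih hq
    have hd : fderiv ℂ (sq ξ S T (fun q => c * f q) m) p = c • fderiv ℂ (sq ξ S T f m) p := by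
      rw [(hE.eventuallyEq_of_mem (hU.mem_nhds hp)).fderiv_eq]
      exact ((sq_analytic hU hξ hS hT hf m p hp).differentiableAt.hasFDerivAt.const_mul c).fderiv
    simp only [sq]
    rw [hd, ih hp]
    simp only [ContinuousLinearMap.smul_apply, smul_eq_mul]
    ring

theorem sq_add (hU : IsOpen U) (hξ : AnalyticOnNhd ℂ ξ U) (hS : AnalyticOnNhd ℂ S U)
    (hT : AnalyticOnNhd ℂ T U) (hf : AnalyticOnNhd ℂ f U) (hg : AnalyticOnNhd ℂ g U) (m : ℕ)
    {p : E} (hp : p ∈ U) :
    sq ξ S T (fun q => f q + g q) m p = sq ξ S T f m p + sq ξ S T g m p := by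
  induction m generalizing p with
  | zero => rfl
  | succ m ih =>
    have hE : EqOn (sq ξ S T (fun q => f q + g q) m)
        (fun q => sq ξ S T f m q + sq ξ S T g m q) U := fun q hq => ih hq
    have hd : fderiv ℂ (sq ξ S T (fun q => f q + g q) m) p =
        fderiv ℂ (sq ξ S T f m) p + fderiv ℂ (sq ξ S T g m) p := by
      rw [(hE.eventuallyEq_of_mem (hU.mem_nhds hp)).fderiv_eq]
      exact ((sq_analytic hU hξ hS hT hf m p hp).differentiableAt.hasFDerivAt.add
        (sq_analytic hU hξ hS hT hg m p hp).differentiableAt.hasFDerivAt).fderiv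
    simp only [sq]
    rw [hd, ih hp]
    simp only [ContinuousLinearMap.add_apply]
    ring

end

end Pool.Agent.H43.FX
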