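import Pool.Agent.H43.FX.AAFacts
import Pool.Agent.H43.FX.SqAlg
import Pool.Agent.H43.FX.GenLem

/-!
# FX-NFSWAP : symmetry in `v ↔ ω`

Proof.  `rvw_swap` for the memberships.  `swp` is a continuous linear involution, mapping
`D3 a b` onto `D3 b a`.  For `φ` with `AA b a z' z k φ`, `φ' = φ ∘ swp` satisfies
`AA a b z z' k φ'` (`aa_swap`), and for a function `φ'` differentiable at `swp p`:
`fderiv (φ' ∘ swp) p x = fderiv φ' (swp p) (swp x)` (chain rule; it also holds without
differentiability because `swp` is a linear equivalence: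
`ContinuousLinearEquiv.comp_right_fderiv`).  So
`L^{swapped}_k φ (p) = (L_k φ')(swp p)`, and `mem` follows from `aa_swap`.
For `ent`: by induction on `m`, `sq (swapped data) φ m p = sq (data) φ' m (swp p)` for all `p`;
then `LUE.comp` with the continuous map `swp`.
-/

namespace Pool.Agent.H43.FX

open Set Metric Filter Topology

variable {a b z z' : Fin 4 → ℂ} {d : ℕ} {V W C D : ℂ × ℂ × ℂ → ℂ}

/-- The exchange as a continuous linear equivalence. -/
def swpE : (ℂ × ℂ × ℂ) ≃L[ℂ] (ℂ × ℂ × ℂ) where
  toFun := swp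
  invFun := swp
  map_add' := fun _ _ => rfl
  map_smul' := fun _ _ => rfl
  left_inv := fun _ => rfl
  right_inv := fun _ => rfl
  continuous_toFun := by
    change Continuous fun p : ℂ × ℂ × ℂ => (p.2.1, p.1, p.2.2)
    fun_prop
  continuous_invFun := by
    change Continuous fun p : ℂ × ℂ × ℂ => (p.2.1, p.1, p.2.2)
    fun_prop

lemma fderiv_swp (F : ℂ × ℂ × ℂ → ℂ) (p x : ℂ × ℂ × ℂ) :
    fderiv ℂ (fun q => F (swp q)) p x = fderiv ℂ F (swp p) (swp x) := by
  have h := swpE.comp_right_fderiv (f := F) (x := p)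
  exact congrArg (fun L => L x) h

lemma sq_swp (φ : ℂ × ℂ × ℂ → ℂ) (S T : ℂ × ℂ × ℂ → ℂ) (m : ℕ) :
    sq (fun p => (W (swp p), V (swp p), C (swp p))) (fun p => S (swp p)) (fun p => T (swp p)) φ m =
      fun p => sq (fun p => (V p, W p, C p)) S T (fun q => φ (swp q)) m (swp p) := by
  induction m with
  | zero => rfl
  | succ m ih =>
    funext p
    simp only [sq]
    rw [ih, fderiv_swp]
    rfl

theorem nf_swap (h : NegField a b z z' d V W C D) :
    NegField b a z' z d (fun p => W (swp p)) (fun p => V (swp p)) (fun p => C (swp p))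
      (fun p => D (swp p)) where
  hd := h.hd
  mV := rvw_swap h.mW
  mW := rvw_swap h.mV
  mC := rvw_swap h.mC
  mD := rvw_swap h.mD
  mem := by
    intro k φ hφ
    have h1 := aa_swap (h.mem k _ (aa_swap hφ))
    simp only [fderiv_swp] at h1
    exact h1
  ent := by
    intro k φ hφ
    have h1 := h.ent k _ (aa_swap hφ)
    have h2 : LUE (D3 b a) (fun m p => sq (fun p => (V p, W p, C p)) (fun p => (k : ℂ) * D p)
        (fun p => -(d : ℂ) * D p) (fun q => φ (swp q)) m (swp p)) :=
      h1.comp (g := swp) (V := D3 b a) swpE.continuous.continuousOn fun p hp => ⟨hp.2, hp.1⟩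
    refine h2.congr fun m p _ => ?_
    exact (congrFun (sq_swp (V := V) (W := W) (C := C) φ (fun p => (k : ℂ) * D p)
      (fun p => -(d : ℂ) * D p) m) p).symm

end Pool.Agent.H43.FX
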