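import Pool.Agent.H43.FX.TwoEnds
import Pool.Agent.H43.FX.EndExp
import Pool.Agent.H43.FX.GenC1
import Pool.Agent.H43.FX.NFSwap

/-!
# FX-TE1 : a line `v = a_i` and a line `ω = b_j` cannot both be ends

Let `n, Vh, Wh, Ch, Dh` be the data of the end `v = a_i`, and `n', Vh', Wh', Ch', Dh'` those of
the end `ω = b_j` of the swapped field, i.e. for `(ω,v,t)`: `W(v,ω,t) = (ω-b_j)^{1-n'}
Vh'(ω,v,t)`, `V = (ω-b_j)^{-n'} Wh'(ω,v,t)`, `C = (ω-b_j)^{-n'} Ch'`, `D = ...Dh'`.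
Choose `(ω₀,t₀)` with `ω₀ ∉ range b`, `v₁ ∉ range a` such that `Vh(a_i,ω₀,t₀) ≠ 0`,
`Vh'(b_j,v₁,t₀) ≠ 0`, `t₀ ∉ {z_i, z_l, ...}` (all `z`'s).  This is possible:
`Vh(a_i,·) ∈ Rw (range b)` is not identically zero on `D2 b`, so there are `ω₀` and a nonzero
polynomial `t ↦ Vh(a_i,ω₀,t)` (for fixed `ω₀ ∉ range b` elements of `Rw` are polynomials in
`t`), similarly `v₁` for `Vh'`; choose `t₀` outside the finitely many roots and the `z`'s.
Let `l ≠ i`, `l' ≠ j`.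
Line: `p(ζ) = (a_i + ζ(v₁-a_i), ω₀ + ζ(b_j-ω₀), t₀)`.  Let
`D = {ζ | p(ζ) ∈ D3 ∧ (V, W, C)(p ζ) ≠ 0}`, open.  `Z = {ζ | p(ζ) ∉ D3}` is finite
(`v₁ ≠ a_i`, `ω₀ ≠ b_j`); on the preconnected open `Zᶜ` the function `V(p ζ)` is analytic and not
identically zero (near `ζ = 0`, `V = (v-a_i)^{1-n} Vh`, `Vh(a_i,ω₀,t₀) ≠ 0`), so its zeros are
countable, the complement of `D` is countable and `D` is preconnected.
Functions (`ξ = (V,W,C)`, `S = 0`, `T = -d D`; `NegField.ent` with `k = 0`): `F 0`: `t`;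
`F 1`: `x_l = (t-z_l)/(v-a_l)^3` (`AA.X l 0`); `F 2`: `y_{l'}` (`AA.Y l' 0`); `X`: `x_i`:
`F k ζ = gen (sq ξ 0 T f_k · (p ζ))`.
(1) `C¹` on `D`: `gen_c1` (`sq` is analytic on `D3`; `LUE.comp` along `p`).
(2) `hnd`: `deriv (F k ζ) 0 = fderiv f_k (p ζ) (V,W,C)`: for `t`: `C`; if `C = 0` and `V ≠ 0`:
for `x_l`: `-3V(t₀-z_l)/(v-a_l)^4 ≠ 0`; if `C = V = 0`, `W ≠ 0`: for `y_{l'}`:
`-3W(t₀-z'_{l'})/(ω-b_{l'})^4 ≠ 0` (choose `t₀ ≠` all `z'` as well).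
(3) End `ζ → 0`: `end_exp` with `E = ℂ × ℂ`, `x₀ = a_i`, `y₀ = (ω₀,t₀)`, `n`, `Vh`:
`Wh(a_i,·) = 0` on `D2 b`, so by `ratx_div` `Wh(v,y) = (v-a_i) W₁(v,y)` for `y ∈ D2 b`,
`v ∉ range a \ {a_i}`, the same for `Ch`; `-d Dh - n Vh` vanishes on `v = a_i`, so
`-d Dh = n Vh + (v-a_i) τ1`; `ρ` small (smaller than the distances from `a_i` to the other
`a`'s, from `ω₀` to `range b`, and `‖t₀ - z_i‖`).  `t, x_l, y_{l'}`: `h = 0`; `x_i`: `h = 3`,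
`fh = t - z_i ≠ 0`.
(4) End `ζ → 1`: the same for the swapped field (`nf_swap`), coordinates `(ω; v, t)`,
`x₀ = b_j`, `y₀ = (v₁, t₀)`; the jets of the swapped field are the same functions:
`sq (swapped) (f ∘ swp) m (swp p) = sq (original) f m p` (induction on `m`; `swp` is a linear
involution).  `t, x_l, x_i` (regular near `v₁ ∉ range a`), `y_{l'}` (`l' ≠ j`): all `h = 0`.
`V ≠ 0` (resp. `W ≠ 0`) on the punctured neighbourhoods of `0` (resp. `1`), so these are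
contained in `D`.  `two_ends` (with `e₀ = 0`, `e₁ = 1`) gives `False`.
-/

namespace Pool.Agent.H43.FX

open Set Metric Filter Topology

variable {a b z z' : Fin 4 → ℂ} {d : ℕ} {V W C D : ℂ × ℂ × ℂ → ℂ}

private theorem te1_countable {U : Set ℂ} (hU : IsPreconnected U) {g : ℂ → ℂ}
    (hg : AnalyticOnNhd ℂ g U) {x₀ : ℂ} (hx₀ : x₀ ∈ U) (h0 : g x₀ ≠ 0) :
    ({x | g x = 0} ∩ U).Countable := by
  apply (HereditarilyLindelofSpace.isLindelof _).countable_of_isDiscrete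
  rw [isDiscrete_iff_nhdsNE]
  rintro x ⟨hx, hxU⟩
  rcases (hg x hxU).eventually_eq_zero_or_eventually_ne_zero with h | h
  · exact absurd (hg.eqOn_zero_of_preconnected_of_eventuallyEq_zero hU hxU h hx₀) h0
  · rw [← _root_.disjoint_iff, Filter.disjoint_principal_right]
    filter_upwards [h] with y hy hyS
    exact hy hyS.1

private theorem te1_sq_equiv {E F : Type*} [NormedAddCommGroup E] [NormedSpace ℂ E]
    [NormedAddCommGroup F] [NormedSpace ℂ F] (L : F ≃L[ℂ] E) (ξ : E → E) (S T f : E → ℂ)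
    (m : ℕ) (q : F) :
    sq (fun q => L.symm (ξ (L q))) (fun q => S (L q)) (fun q => T (L q)) (fun q => f (L q)) m q =
      sq ξ S T f m (L q) := by
  induction m generalizing q with
  | zero => rfl
  | succ m ih =>
    have e : (sq (fun q => L.symm (ξ (L q))) (fun q => S (L q)) (fun q => T (L q))
        (fun q => f (L q)) m) = (sq ξ S T f m) ∘ L := by
      funext q; exact ih q
    simp only [sq]
    rw [e, L.comp_right_fderiv]
    simp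

private noncomputable def te1L : (ℂ × ℂ × ℂ) ≃L[ℂ] (ℂ × ℂ × ℂ) where
  toFun := swp
  invFun := swp
  map_add' := fun x y => rfl
  map_smul' := fun c x => rfl
  left_inv := fun x => rfl
  right_inv := fun x => rfl
  continuous_toFun := by unfold swp; fun_prop
  continuous_invFun := by unfold swp; fun_prop

private theorem te1_sq_swp (V W C T f : ℂ × ℂ × ℂ → ℂ) (m : ℕ) (q : ℂ × ℂ × ℂ) :
    sq (fun q => (W (swp q), V (swp q), C (swp q))) (fun _ => 0) (fun q => T (swp q))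
      (fun q => f (swp q)) m q =
      sq (fun q => (V q, W q, C q)) (fun _ => 0) T f m (swp q) :=
  te1_sq_equiv te1L (fun q => (V q, W q, C q)) (fun _ => 0) T f m q

private theorem te1_lue (h : NegField a b z z' d V W C D) :
    LUE (D3 a b) (sq (fun p => (V p, W p, C p)) (fun _ => 0) (fun p => -(d : ℂ) * D p)
      (fun p => p.2.2)) ∧
    (∀ l, LUE (D3 a b) (sq (fun p => (V p, W p, C p)) (fun _ => 0) (fun p => -(d : ℂ) * D p)
      (fun p => (p.2.2 - z l) / (p.1 - a l) ^ 3))) ∧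
    (∀ l, LUE (D3 a b) (sq (fun p => (V p, W p, C p)) (fun _ => 0) (fun p => -(d : ℂ) * D p)
      (fun p => (p.2.2 - z' l) / (p.2.1 - b l) ^ 3))) := by
  refine ⟨?_, fun l => ?_, fun l => ?_⟩
  · have := h.ent 0 _ AA.t
    simpa using this
  · have := h.ent 0 _ (AA.X l 0)
    simpa using this
  · have := h.ent 0 _ (AA.Y l 0)
    simpa using this


private theorem te1_fin (s : Fin 4 → ℂ) : (range s).Finite := Set.finite_range s

private theorem te1_D3_open : IsOpen (D3 a b) := by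
  have h1 : IsOpen {p : ℂ × ℂ × ℂ | p.1 ∈ (range a)ᶜ} :=
    (te1_fin a).isClosed.isOpen_compl.preimage continuous_fst
  have h2 : IsOpen {p : ℂ × ℂ × ℂ | p.2.1 ∈ (range b)ᶜ} :=
    (te1_fin b).isClosed.isOpen_compl.preimage (continuous_fst.comp continuous_snd)
  exact h1.inter h2

private theorem te1_an (h : NegField a b z z' d V W C D) :
    AnalyticOnNhd ℂ V (D3 a b) ∧ AnalyticOnNhd ℂ W (D3 a b) ∧ AnalyticOnNhd ℂ C (D3 a b) ∧
      AnalyticOnNhd ℂ D (D3 a b) :=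
  ⟨fun _ hp => rvw_analytic h.mV hp.1 hp.2, fun _ hp => rvw_analytic h.mW hp.1 hp.2,
    fun _ hp => rvw_analytic h.mC hp.1 hp.2, fun _ hp => rvw_analytic h.mD hp.1 hp.2⟩

private theorem te1_an22 (p : ℂ × ℂ × ℂ) : AnalyticAt ℂ (fun p : ℂ × ℂ × ℂ => p.2.2) p :=
  ((ContinuousLinearMap.snd ℂ ℂ ℂ).comp (ContinuousLinearMap.snd ℂ ℂ (ℂ × ℂ))).analyticAt p

private theorem te1_an21 (p : ℂ × ℂ × ℂ) : AnalyticAt ℂ (fun p : ℂ × ℂ × ℂ => p.2.1) p :=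
  ((ContinuousLinearMap.fst ℂ ℂ ℂ).comp (ContinuousLinearMap.snd ℂ ℂ (ℂ × ℂ))).analyticAt p

private theorem te1_an1 (p : ℂ × ℂ × ℂ) : AnalyticAt ℂ (fun p : ℂ × ℂ × ℂ => p.1) p :=
  (ContinuousLinearMap.fst ℂ ℂ (ℂ × ℂ)).analyticAt p

private theorem te1_an_x {c s : ℂ} {p : ℂ × ℂ × ℂ} (hp : p.1 ≠ c) :
    AnalyticAt ℂ (fun p : ℂ × ℂ × ℂ => (p.2.2 - s) / (p.1 - c) ^ 3) p := by
  apply AnalyticAt.div
  · exact (te1_an22 p).sub analyticAt_const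
  · exact ((te1_an1 p).sub analyticAt_const).pow 3
  · exact pow_ne_zero _ (sub_ne_zero.2 hp)

private theorem te1_an_y {c s : ℂ} {p : ℂ × ℂ × ℂ} (hp : p.2.1 ≠ c) :
    AnalyticAt ℂ (fun p : ℂ × ℂ × ℂ => (p.2.2 - s) / (p.2.1 - c) ^ 3) p := by
  apply AnalyticAt.div
  · exact (te1_an22 p).sub analyticAt_const
  · exact ((te1_an21 p).sub analyticAt_const).pow 3
  · exact pow_ne_zero _ (sub_ne_zero.2 hp)

/-- A radius smaller than the distances to the finitely many points of `P` different from `c`. -/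
private theorem te1_rad {P : Set ℂ} (hP : P.Finite) {c : ℂ} (hc : c ∉ P) :
    ∃ ρ : ℝ, 0 < ρ ∧ ∀ x : ℂ, ‖x - c‖ < ρ → x ∉ P := by
  obtain ⟨ρ, hρ, h⟩ := Metric.isOpen_iff.1 hP.isClosed.isOpen_compl c hc
  exact ⟨ρ, hρ, fun x hx => h (by simpa [dist_eq_norm] using hx)⟩

private theorem te1_end (h : NegField a b z z' d V W C D) (ha : Function.Injective a) {i : Fin 4}
    {n : ℕ} {Vh Wh Ch Dh : ℂ × ℂ × ℂ → ℂ} (mV : Vh ∈ Rvw (range a \ {a i}) (range b))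
    (mW : Wh ∈ Rvw (range a \ {a i}) (range b)) (mC : Ch ∈ Rvw (range a \ {a i}) (range b))
    (mD : Dh ∈ Rvw (range a \ {a i}) (range b))
    (e : ∀ p ∈ D3 a b, V p = (p.1 - a i) ^ (1 - (n : ℤ)) * Vh p ∧
      W p = (p.1 - a i) ^ (-(n : ℤ)) * Wh p ∧ C p = (p.1 - a i) ^ (-(n : ℤ)) * Ch p ∧
      D p = (p.1 - a i) ^ (-(n : ℤ)) * Dh p)
    (e0 : ∀ p ∈ D2 b, Wh (a i, p) = 0 ∧ Ch (a i, p) = 0 ∧
      (n : ℂ) * Vh (a i, p) + (d : ℂ) * Dh (a i, p) = 0)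
    {ω₀ t₀ : ℂ} (hω₀ : ω₀ ∉ range b) (hV0 : Vh (a i, ω₀, t₀) ≠ 0) (ht₀ : t₀ ≠ z i) :
    ∃ r M : ℝ, 0 < r ∧ ∀ v : ℂ, 0 < ‖v - a i‖ → ‖v - a i‖ < r →
      ∀ y : ℂ × ℂ, ‖y - (ω₀, t₀)‖ < r → (v, y) ∈ D3 a b ∧ V (v, y) ≠ 0 ∧
      ∃ c : ℂ, c ≠ 0 ∧ ‖c⁻¹‖ ≤ M ∧
        ExpEnd c 0 (gen (fun m => sq (fun p => (V p, W p, C p)) (fun _ => 0)
          (fun p => -(d : ℂ) * D p) (fun p => p.2.2) m (v, y))) ∧
        (∀ l, l ≠ i → ExpEnd c 0 (gen (fun m => sq (fun p => (V p, W p, C p)) (fun _ => 0)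
          (fun p => -(d : ℂ) * D p) (fun p => (p.2.2 - z l) / (p.1 - a l) ^ 3) m (v, y)))) ∧
        (∀ l, ExpEnd c 0 (gen (fun m => sq (fun p => (V p, W p, C p)) (fun _ => 0)
          (fun p => -(d : ℂ) * D p) (fun p => (p.2.2 - z' l) / (p.2.1 - b l) ^ 3) m (v, y)))) ∧
        ExpEndS c 3 (gen (fun m => sq (fun p => (V p, W p, C p)) (fun _ => 0)
          (fun p => -(d : ℂ) * D p) (fun p => (p.2.2 - z i) / (p.1 - a i) ^ 3) m (v, y))) := by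
  have haP : a i ∉ range a \ {a i} := fun hh => hh.2 rfl
  have hfP : (range a \ {a i}).Finite := (te1_fin a).subset Set.sdiff_subset
  obtain ⟨W₁, mW₁, eW₁⟩ := ratx_div mW haP
  obtain ⟨C₁, mC₁, eC₁⟩ := ratx_div mC haP
  have mτ : (fun p => -(d : ℂ) * Dh p - (n : ℂ) * Vh p) ∈ Rvw (range a \ {a i}) (range b) := by
    have h1 := (Rvw (range a \ {a i}) (range b)).smul_mem mD (-(d : ℂ))
    have h2 := (Rvw (range a \ {a i}) (range b)).smul_mem mV (n : ℂ)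
    exact (Rvw (range a \ {a i}) (range b)).sub_mem h1 h2
  obtain ⟨τ₁, mτ₁, eτ₁⟩ := ratx_div mτ haP
  obtain ⟨ρ₁, hρ₁, hP⟩ := te1_rad hfP haP
  obtain ⟨ρ₂, hρ₂, hQ⟩ := te1_rad (te1_fin b) hω₀
  have hρ₃ : 0 < ‖z i - t₀‖ := norm_pos_iff.2 (sub_ne_zero.2 ht₀.symm)
  have han : AnalyticAt ℂ Vh (a i, ω₀, t₀) := rvw_analytic mV haP hω₀
  -- nonvanishing of Vh near the point
  have hnz : ∀ᶠ p in 𝓝 (a i, ω₀, t₀), Vh p ≠ 0 := han.continuousAt.eventually_ne hV0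
  obtain ⟨ρ₄, hρ₄, hVn⟩ := Metric.eventually_nhds_iff.1 hnz
  obtain ⟨ρ, hρ, hle1, hle2, hle3⟩ : ∃ ρ : ℝ, 0 < ρ ∧ ρ ≤ ρ₁ ∧ ρ ≤ ρ₂ ∧ ρ ≤ ‖z i - t₀‖ :=
    ⟨min ρ₁ (min ρ₂ ‖z i - t₀‖), lt_min hρ₁ (lt_min hρ₂ hρ₃), min_le_left _ _,
      (min_le_right _ _).trans (min_le_left _ _), (min_le_right _ _).trans (min_le_right _ _)⟩
  have hω : ∀ y : ℂ × ℂ, ‖y - (ω₀, t₀)‖ < ρ → y.1 ∉ range b ∧ y.2 ≠ z i := by
    intro y hy
    have h1 : ‖y.1 - ω₀‖ < ρ := lt_of_le_of_lt (norm_fst_le (y - (ω₀, t₀))) hy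
    have h2 : ‖y.2 - t₀‖ < ρ := lt_of_le_of_lt (norm_snd_le (y - (ω₀, t₀))) hy
    refine ⟨hQ _ (h1.trans_le hle2), ?_⟩
    intro hh
    rw [hh] at h2
    exact absurd (h2.trans_le hle3) (lt_irrefl _)
  have hD3 : ∀ x : ℂ, 0 < ‖x - a i‖ → ‖x - a i‖ < ρ → ∀ y : ℂ × ℂ, ‖y - (ω₀, t₀)‖ < ρ →
      (x, y) ∈ D3 a b := by
    intro x hx0 hx y hy
    refine ⟨?_, (hω y hy).1⟩
    intro hxa
    exact hP x (hx.trans_le hle1) ⟨hxa, fun hxi => by
      rw [Set.mem_singleton_iff.1 hxi] at hx0; simp at hx0⟩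
  have eξ : ∀ x : ℂ, 0 < ‖x - a i‖ → ‖x - a i‖ < ρ → ∀ y : ℂ × ℂ, ‖y - (ω₀, t₀)‖ < ρ →
      (fun p => (V p, W p, C p)) (x, y) = ((x - a i) ^ (1 - (n : ℤ)) * Vh (x, y),
        (x - a i) ^ (1 - (n : ℤ)) • (fun p => (W₁ p, C₁ p)) (x, y)) := by
    intro x hx0 hx y hy
    have hne : x - a i ≠ 0 := norm_pos_iff.1 hx0
    obtain ⟨e1, e2, e3, e4⟩ := e (x, y) (hD3 x hx0 hx y hy)
    have hxP : x ∉ range a \ {a i} := hP x (hx.trans_le hle1)
    have hy2 : y ∈ D2 b := (hω y hy).1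
    have w1 := eW₁ x hxP y
    have c1 := eC₁ x hxP y
    rw [(e0 y hy2).1, zero_add] at w1
    rw [(e0 y hy2).2.1, zero_add] at c1
    have hz : (x - a i) ^ (1 - (n : ℤ)) = (x - a i) ^ (-(n : ℤ)) * (x - a i) := by
      rw [← zpow_add_one₀ hne]; congr 1; ring
    simp only [Prod.smul_mk, smul_eq_mul, Prod.mk.injEq]
    refine ⟨e1, ?_, ?_⟩
    · rw [e2, w1, hz]; ring
    · rw [e3, c1, hz]; ring
  have eT : ∀ x : ℂ, 0 < ‖x - a i‖ → ‖x - a i‖ < ρ → ∀ y : ℂ × ℂ, ‖y - (ω₀, t₀)‖ < ρ →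
      (fun p => -(d : ℂ) * D p) (x, y) = (x - a i) ^ (-(n : ℤ)) *
        ((n : ℂ) * Vh (x, y) + (x - a i) * τ₁ (x, y)) := by
    intro x hx0 hx y hy
    obtain ⟨e1, e2, e3, e4⟩ := e (x, y) (hD3 x hx0 hx y hy)
    have hxP : x ∉ range a \ {a i} := hP x (hx.trans_le hle1)
    have hy2 : y ∈ D2 b := (hω y hy).1
    have t1 := eτ₁ x hxP y
    have h3 := (e0 y hy2).2.2
    have h4 : -(d : ℂ) * Dh (a i, y) - (n : ℂ) * Vh (a i, y) = 0 := by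
      linear_combination -h3
    rw [h4, zero_add] at t1
    simp only
    rw [e4, ← t1]; ring
  obtain ⟨δ, M, hδ, H⟩ := end_exp (E := ℂ × ℂ) (x₀ := a i) (y₀ := (ω₀, t₀)) (n := n)
    (ξ := fun p => (V p, W p, C p)) (T := fun p => -(d : ℂ) * D p) (Vh := Vh) (τ1 := τ₁)
    (W1 := fun p => (W₁ p, C₁ p)) han
    ((rvw_analytic mW₁ haP hω₀).prod (rvw_analytic mC₁ haP hω₀))
    (rvw_analytic mτ₁ haP hω₀) hV0 hρ eξ eT
  obtain ⟨Lt, Lx, Ly⟩ := te1_lue h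
  refine ⟨min δ (min ρ ρ₄), M, lt_min hδ (lt_min hρ hρ₄), ?_⟩
  intro v hv0 hv y hy
  have hvδ : ‖v - a i‖ < δ := hv.trans_le (min_le_left _ _)
  have hyδ : ‖y - (ω₀, t₀)‖ < δ := hy.trans_le (min_le_left _ _)
  have hvρ : ‖v - a i‖ < ρ := hv.trans_le ((min_le_right _ _).trans (min_le_left _ _))
  have hyρ : ‖y - (ω₀, t₀)‖ < ρ := hy.trans_le ((min_le_right _ _).trans (min_le_left _ _))
  have hv4 : ‖v - a i‖ < ρ₄ := hv.trans_le ((min_le_right _ _).trans (min_le_right _ _))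
  have hy4 : ‖y - (ω₀, t₀)‖ < ρ₄ := hy.trans_le ((min_le_right _ _).trans (min_le_right _ _))
  have hmem := hD3 v hv0 hvρ y hyρ
  have hne : v - a i ≠ 0 := norm_pos_iff.1 hv0
  refine ⟨hmem, ?_, ?_⟩
  · rw [(e (v, y) hmem).1]
    refine mul_ne_zero (zpow_ne_zero _ hne) (hVn ?_)
    rw [dist_eq_norm]
    change max ‖v - a i‖ ‖y - (ω₀, t₀)‖ < ρ₄
    exact max_lt hv4 hy4
  · obtain ⟨c, hc, hcM, H'⟩ := H v hv0 hvδ y hyδ
    refine ⟨c, hc, hcM, ?_, ?_, ?_, ?_⟩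
    · refine (H' 0 _ (fun p => p.2.2) _ ?_ ?_ (Lt.jet hmem)).1
      · intro x _ y _
        exact te1_an22 _
      · intro x _ _ y _
        simp
    · intro l hl
      refine (H' 0 _ (fun p => (p.2.2 - z l) / (p.1 - a l) ^ 3) _ ?_ ?_ ((Lx l).jet hmem)).1
      · intro x hx y _
        refine te1_an_x ?_
        intro hxl
        exact hP x (hx.trans_le hle1) ⟨⟨l, hxl.symm⟩, fun hxi => hl (ha (by
          rw [← Set.mem_singleton_iff.1 hxi]; exact hxl.symm))⟩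
      · intro x _ _ y _
        simp
    · intro l
      refine (H' 0 _ (fun p => (p.2.2 - z' l) / (p.2.1 - b l) ^ 3) _ ?_ ?_ ((Ly l).jet hmem)).1
      · intro x hx y hy
        refine te1_an_y ?_
        intro hyl
        exact (hω y hy).1 ⟨l, hyl.symm⟩
      · intro x _ _ y _
        simp
    · refine (H' 3 _ (fun p => p.2.2 - z i) _ ?_ ?_ ((Lx i).jet hmem)).2 ?_
      · intro x _ y _
        exact (te1_an22 _).sub analyticAt_const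
      · intro x _ _ y _
        simp only
        rw [div_eq_inv_mul]
        norm_cast
      · intro y hy
        exact sub_ne_zero.2 (hω y hy).2

private theorem te1_fderiv_aux {f : ℂ × ℂ × ℂ → ℂ} {p u : ℂ × ℂ × ℂ} (hf : AnalyticAt ℂ f p)
    {g : ℂ → ℂ} {g' : ℂ} (hg : HasDerivAt g g' 0) (e : ∀ σ : ℂ, f (p + σ • u) = g σ) :
    fderiv ℂ f p u = g' := by
  have hl : HasDerivAt (fun σ : ℂ => p + σ • u) u 0 := by
    have := ((hasDerivAt_id (0 : ℂ)).smul_const u).const_add p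
    simpa using this
  have h1 : HasDerivAt (f ∘ fun σ : ℂ => p + σ • u) (fderiv ℂ f p u) 0 :=
    hf.differentiableAt.hasFDerivAt.comp_hasDerivAt_of_eq (0 : ℂ) hl (by simp)
  have h2 : (f ∘ fun σ : ℂ => p + σ • u) = g := by
    funext σ; exact e σ
  rw [h2] at h1
  exact h1.unique hg

private theorem te1_hd {c s x V : ℂ} (hx : x ≠ c) :
    HasDerivAt (fun σ : ℂ => s / (x + σ * V - c) ^ 3)
      (-(3 * s * V * (x - c) ^ 2) / ((x - c) ^ 3) ^ 2) 0 := by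
  have h1 : HasDerivAt (fun σ : ℂ => x + σ * V - c) V 0 := by
    have := (((hasDerivAt_id (0 : ℂ)).mul_const V).const_add x).sub_const c
    simpa using this
  have h2 := h1.pow 3
  have h3 := (hasDerivAt_const (0 : ℂ) s).div h2 (by
    simpa using pow_ne_zero 3 (sub_ne_zero.2 hx))
  refine h3.congr_deriv ?_
  simp
  ring

private theorem te1_fderiv_x {c s : ℂ} {p : ℂ × ℂ × ℂ} (hp : p.1 ≠ c) (hs : p.2.2 ≠ s) {V W : ℂ}
    (hV : V ≠ 0) :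
    fderiv ℂ (fun p : ℂ × ℂ × ℂ => (p.2.2 - s) / (p.1 - c) ^ 3) p (V, W, 0) ≠ 0 := by
  rw [te1_fderiv_aux (te1_an_x hp) (te1_hd (s := p.2.2 - s) (V := V) hp) (by
    intro σ; simp)]
  have h1 := sub_ne_zero.2 hp
  have h2 := sub_ne_zero.2 hs
  refine div_ne_zero (neg_ne_zero.2 ?_) (pow_ne_zero _ (pow_ne_zero _ h1))
  exact mul_ne_zero (mul_ne_zero (mul_ne_zero (by norm_num) h2) hV) (pow_ne_zero _ h1)

private theorem te1_fderiv_y {c s : ℂ} {p : ℂ × ℂ × ℂ} (hp : p.2.1 ≠ c) (hs : p.2.2 ≠ s) {V W : ℂ}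
    (hW : W ≠ 0) :
    fderiv ℂ (fun p : ℂ × ℂ × ℂ => (p.2.2 - s) / (p.2.1 - c) ^ 3) p (V, W, 0) ≠ 0 := by
  rw [te1_fderiv_aux (te1_an_y hp) (te1_hd (s := p.2.2 - s) (V := W) hp) (by
    intro σ; simp)]
  have h1 := sub_ne_zero.2 hp
  have h2 := sub_ne_zero.2 hs
  refine div_ne_zero (neg_ne_zero.2 ?_) (pow_ne_zero _ (pow_ne_zero _ h1))
  exact mul_ne_zero (mul_ne_zero (mul_ne_zero (by norm_num) h2) hW) (pow_ne_zero _ h1)

private theorem te1_fderiv_t (p u : ℂ × ℂ × ℂ) :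
    fderiv ℂ (fun p : ℂ × ℂ × ℂ => p.2.2) p u = u.2.2 := by
  refine te1_fderiv_aux (te1_an22 p) (g := fun σ : ℂ => p.2.2 + σ * u.2.2) ?_ ?_
  · have := ((hasDerivAt_id (0 : ℂ)).mul_const u.2.2).const_add p.2.2
    simpa using this
  · intro σ; simp

private theorem te1_deriv_gen {U : Set (ℂ × ℂ × ℂ)} {ξ : ℂ × ℂ × ℂ → ℂ × ℂ × ℂ}
    {T f : ℂ × ℂ × ℂ → ℂ} (hL : LUE U (sq ξ (fun _ => 0) T f)) {p : ℂ × ℂ × ℂ} (hp : p ∈ U) :
    deriv (gen (fun m => sq ξ (fun _ => 0) T f m p)) 0 = fderiv ℂ f p (ξ p) := by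
  rw [(gen_deriv (hL.entSeq hp) 0).deriv, gen_zero]
  simp [sq]

theorem te1 (h : NegField a b z z' d V W C D) (ha : Function.Injective a)
    (hb : Function.Injective b) {i j : Fin 4} (h1 : IsEnd a b d V W C D i)
    (h2 : IsEnd b a d (fun p => W (swp p)) (fun p => V (swp p)) (fun p => C (swp p))
      (fun p => D (swp p)) j) : False := by
  obtain ⟨n, Vh, Wh, Ch, Dh, hn, mV, mW, mC, mD, e, e0, ⟨⟨ω₀, t₁⟩, hω₀, hV1⟩⟩ := h1
  obtain ⟨n', Vh', Wh', Ch', Dh', hn', mV', mW', mC', mD', e', e0', ⟨⟨v₁, t₂⟩, hv₁, hV2⟩⟩ := h2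
  have hω₀' : ω₀ ∉ range b := hω₀
  have hv₁' : v₁ ∉ range a := hv₁
  -- choice of t₀
  have k1 : (fun t => Vh (a i, ω₀, t)) ∈ Kt := ratx_restrict (ratx_restrict mV (a i)) ω₀
  have k2 : (fun t => Vh' (b j, v₁, t)) ∈ Kt := ratx_restrict (ratx_restrict mV' (b j)) v₁
  obtain ⟨P, hP⟩ := kt_iff.1 k1
  obtain ⟨P', hP'⟩ := kt_iff.1 k2
  have hP0 : P ≠ 0 := by
    rintro rfl
    exact hV1 (by simpa using congrFun hP t₁)
  have hP0' : P' ≠ 0 := by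
    rintro rfl
    exact hV2 (by simpa using congrFun hP' t₂)
  obtain ⟨t₀, ht₀⟩ : ∃ t₀ : ℂ, t₀ ∉ {t | P.IsRoot t} ∪ {t | P'.IsRoot t} ∪ range z ∪ range z' := by
    have hfin : ({t | P.IsRoot t} ∪ {t | P'.IsRoot t} ∪ range z ∪ range z').Finite :=
      (((Polynomial.finite_setOfPred_isRoot hP0).union (Polynomial.finite_setOfPred_isRoot hP0')).union
        (te1_fin z)).union (te1_fin z')
    exact hfin.infinite_compl.nonempty
  simp only [Set.mem_union, not_or, Set.mem_ofPred_eq] at ht₀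
  obtain ⟨⟨⟨r1, r2⟩, hz⟩, hz'⟩ := ht₀
  have hz1 : ∀ l, t₀ ≠ z l := fun l hl => hz ⟨l, hl.symm⟩
  have hz2 : ∀ l, t₀ ≠ z' l := fun l hl => hz' ⟨l, hl.symm⟩
  have hVn : Vh (a i, ω₀, t₀) ≠ 0 := by
    intro hh; exact r1 ((congrFun hP t₀).symm.trans hh)
  have hVn' : Vh' (b j, v₁, t₀) ≠ 0 := by
    intro hh; exact r2 ((congrFun hP' t₀).symm.trans hh)
  -- the two ends
  obtain ⟨r₀, M₀, hr₀, H0⟩ := te1_end h ha mV mW mC mD e e0 hω₀' hVn (hz1 i)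
  obtain ⟨r₁, M₁, hr₁, H1⟩ := te1_end (nf_swap h) hb mV' mW' mC' mD' e' e0' hv₁' hVn' (hz2 j)
  obtain ⟨l, hl⟩ : ∃ l : Fin 4, l ≠ i := exists_ne i
  obtain ⟨l', hl'⟩ : ∃ l : Fin 4, l ≠ j := exists_ne j
  obtain ⟨Lt, Lx, Ly⟩ := te1_lue h
  obtain ⟨aV, aW, aC, aD⟩ := te1_an h
  have hva : v₁ - a i ≠ 0 := sub_ne_zero.2 fun hh => hv₁' ⟨i, hh.symm⟩
  have hbo : b j - ω₀ ≠ 0 := sub_ne_zero.2 fun hh => hω₀' ⟨j, hh⟩
  -- the line
  let pt : ℂ → ℂ × ℂ × ℂ := fun ζ => (a i + ζ * (v₁ - a i), ω₀ + ζ * (b j - ω₀), t₀)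
  have hptd : ∀ ζ, AnalyticAt ℂ pt ζ := by
    intro ζ
    refine AnalyticAt.prod ?_ (AnalyticAt.prod ?_ analyticAt_const)
    · exact analyticAt_const.add (analyticAt_id.mul analyticAt_const)
    · exact analyticAt_const.add (analyticAt_id.mul analyticAt_const)
  have hptc : Continuous pt := by
    simp only [pt]
    fun_prop
  have hZo : IsOpen (pt ⁻¹' (D3 a b)) := te1_D3_open.preimage hptc
  have hZc : (pt ⁻¹' (D3 a b))ᶜ.Countable := by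
    have f1 : {ζ : ℂ | a i + ζ * (v₁ - a i) ∈ range a}.Finite := by
      refine (te1_fin a).preimage (Function.Injective.injOn ?_)
      intro x y hxy
      exact mul_right_cancel₀ hva (add_left_cancel hxy)
    have f2 : {ζ : ℂ | ω₀ + ζ * (b j - ω₀) ∈ range b}.Finite := by
      refine (te1_fin b).preimage (Function.Injective.injOn ?_)
      intro x y hxy
      exact mul_right_cancel₀ hbo (add_left_cancel hxy)
    refine ((f1.union f2).subset ?_).countable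
    intro ζ hζ
    by_contra hcon
    rw [Set.mem_union, not_or] at hcon
    exact hζ ⟨hcon.1, hcon.2⟩
  have hrank : 1 < Module.rank ℝ ℂ := by
    rw [Complex.rank_real_complex]; norm_num
  have hZp : IsPreconnected (pt ⁻¹' (D3 a b)) := by
    have := hZc.isPathConnected_compl_of_one_lt_rank hrank
    rw [compl_compl] at this
    exact this.isConnected.isPreconnected
  let R : ℝ := ‖v₁ - a i‖ + ‖b j - ω₀‖
  have hR1 : 0 < ‖v₁ - a i‖ := norm_pos_iff.2 hva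
  have hR2 : 0 < ‖b j - ω₀‖ := norm_pos_iff.2 hbo
  have hR : 0 < R := add_pos hR1 hR2
  -- end at 0
  have E0 : ∀ ζ : ℂ, 0 < ‖ζ‖ → ‖ζ‖ < r₀ / R → 0 < ‖a i + ζ * (v₁ - a i) - a i‖ ∧
      ‖a i + ζ * (v₁ - a i) - a i‖ < r₀ ∧
      ‖((ω₀ + ζ * (b j - ω₀), t₀) : ℂ × ℂ) - (ω₀, t₀)‖ < r₀ := by
    intro ζ h0 hlt
    have hlt' : ‖ζ‖ * R < r₀ := (lt_div_iff₀ hR).1 hlt
    have e1 : a i + ζ * (v₁ - a i) - a i = ζ * (v₁ - a i) := by ring
    have e2 : ((ω₀ + ζ * (b j - ω₀), t₀) : ℂ × ℂ) - (ω₀, t₀) = (ζ * (b j - ω₀), 0) := by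
      ext <;> simp
    rw [e1, e2, norm_mul]
    refine ⟨mul_pos h0 hR1, ?_, ?_⟩
    · refine lt_of_le_of_lt (mul_le_mul_of_nonneg_left ?_ h0.le) hlt'
      exact le_add_of_nonneg_right hR2.le
    · rw [Prod.norm_mk, norm_zero, norm_mul, max_eq_left (mul_nonneg h0.le hR2.le)]
      refine lt_of_le_of_lt (mul_le_mul_of_nonneg_left ?_ h0.le) hlt'
      exact le_add_of_nonneg_left hR1.le
  have E1 : ∀ ζ : ℂ, 0 < ‖ζ - 1‖ → ‖ζ - 1‖ < r₁ / R → 0 < ‖ω₀ + ζ * (b j - ω₀) - b j‖ ∧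
      ‖ω₀ + ζ * (b j - ω₀) - b j‖ < r₁ ∧
      ‖((a i + ζ * (v₁ - a i), t₀) : ℂ × ℂ) - (v₁, t₀)‖ < r₁ := by
    intro ζ h0 hlt
    have hlt' : ‖ζ - 1‖ * R < r₁ := (lt_div_iff₀ hR).1 hlt
    have e1 : ω₀ + ζ * (b j - ω₀) - b j = (ζ - 1) * (b j - ω₀) := by ring
    have e2 : ((a i + ζ * (v₁ - a i), t₀) : ℂ × ℂ) - (v₁, t₀) = ((ζ - 1) * (v₁ - a i), 0) := by
      ext
      · simp; ring
      · simp
    rw [e1, e2, norm_mul]
    refine ⟨mul_pos h0 hR2, ?_, ?_⟩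
    · refine lt_of_le_of_lt (mul_le_mul_of_nonneg_left ?_ h0.le) hlt'
      exact le_add_of_nonneg_left hR1.le
    · rw [Prod.norm_mk, norm_zero, norm_mul, max_eq_left (mul_nonneg h0.le hR1.le)]
      refine lt_of_le_of_lt (mul_le_mul_of_nonneg_left ?_ h0.le) hlt'
      exact le_add_of_nonneg_right hR2.le
  -- the domain
  let DD : Set ℂ := {ζ | pt ζ ∈ D3 a b ∧ (V (pt ζ) ≠ 0 ∨ W (pt ζ) ≠ 0 ∨ C (pt ζ) ≠ 0)}
  have hDsub : DD ⊆ pt ⁻¹' (D3 a b) := fun ζ hζ => hζ.1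
  have hcont : ∀ g : ℂ × ℂ × ℂ → ℂ, AnalyticOnNhd ℂ g (D3 a b) →
      IsOpen {ζ | pt ζ ∈ D3 a b ∧ g (pt ζ) ≠ 0} := by
    intro g hg
    have hgc : ContinuousOn (fun ζ => g (pt ζ)) (pt ⁻¹' (D3 a b)) :=
      hg.continuousOn.comp hptc.continuousOn (fun ζ hζ => hζ)
    exact hgc.isOpen_inter_preimage hZo isOpen_compl_singleton
  have hDo : IsOpen DD := by
    have : DD = {ζ | pt ζ ∈ D3 a b ∧ V (pt ζ) ≠ 0} ∪ ({ζ | pt ζ ∈ D3 a b ∧ W (pt ζ) ≠ 0} ∪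
        {ζ | pt ζ ∈ D3 a b ∧ C (pt ζ) ≠ 0}) := by
      ext ζ
      simp only [DD, Set.mem_ofPred_eq, Set.mem_union]
      tauto
    rw [this]
    exact (hcont V aV).union ((hcont W aW).union (hcont C aC))
  have hDc : IsPreconnected DD := by
    have hVan : AnalyticOnNhd ℂ (fun ζ => V (pt ζ)) (pt ⁻¹' (D3 a b)) := by
      intro ζ hζ
      exact (aV (pt ζ) hζ).comp (hptd ζ)
    -- a point where V is nonzero
    have hx : ∃ x₀ ∈ pt ⁻¹' (D3 a b), V (pt x₀) ≠ 0 := by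
      have hpos : 0 < r₀ / R := div_pos hr₀ hR
      have hn1 : ‖(((r₀ / R / 2 : ℝ)) : ℂ)‖ = r₀ / R / 2 := by
        rw [Complex.norm_real, Real.norm_of_nonneg (half_pos hpos).le]
      obtain ⟨g1, g2, g3⟩ := E0 ((r₀ / R / 2 : ℝ) : ℂ) (by rw [hn1]; exact half_pos hpos)
        (by rw [hn1]; exact half_lt_self hpos)
      obtain ⟨q1, q2, _⟩ := H0 _ g1 g2 _ g3
      exact ⟨_, q1, q2⟩
    obtain ⟨x₀, hx₀, hVx⟩ := hx
    have hcz := te1_countable hZp hVan hx₀ hVx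
    have hcc : DDᶜ.Countable := by
      refine (hZc.union hcz).mono ?_
      intro ζ hζ
      by_cases hm : pt ζ ∈ D3 a b
      · right
        refine ⟨?_, hm⟩
        by_contra hne
        exact hζ ⟨hm, Or.inl hne⟩
      · left; exact hm
    have := hcc.isPathConnected_compl_of_one_lt_rank hrank
    rw [compl_compl] at this
    exact this.isConnected.isPreconnected
  -- the functions
  let fs : Fin 3 → ℂ × ℂ × ℂ → ℂ := ![fun p => p.2.2,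
    fun p => (p.2.2 - z l) / (p.1 - a l) ^ 3, fun p => (p.2.2 - z' l') / (p.2.1 - b l') ^ 3]
  let ξ : ℂ × ℂ × ℂ → ℂ × ℂ × ℂ := fun p => (V p, W p, C p)
  let T : ℂ × ℂ × ℂ → ℂ := fun p => -(d : ℂ) * D p
  have hξ : AnalyticOnNhd ℂ ξ (D3 a b) := fun p hp => (aV p hp).prod ((aW p hp).prod (aC p hp))
  have hT : AnalyticOnNhd ℂ T (D3 a b) := fun p hp => analyticAt_const.mul (aD p hp)
  have hS : AnalyticOnNhd ℂ (fun _ : ℂ × ℂ × ℂ => (0 : ℂ)) (D3 a b) := fun p _ => analyticAt_const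
  have C1 : ∀ f : ℂ × ℂ × ℂ → ℂ, AnalyticOnNhd ℂ f (D3 a b) →
      LUE (D3 a b) (sq ξ (fun _ => 0) T f) →
      ContDiffOn ℂ 1 (fun p : ℂ × ℂ => gen (fun m => sq ξ (fun _ => 0) T f m (pt p.1)) p.2)
        (DD ×ˢ univ) := by
    intro f hf hL
    refine gen_c1 hDo (c := fun m ζ => sq ξ (fun _ => 0) T f m (pt ζ)) ?_ ?_
    · intro m ζ hζ
      exact (sq_analytic te1_D3_open hξ hS hT hf m (pt ζ) hζ.1).comp (hptd ζ)
    · exact hL.comp hptc.continuousOn (fun ζ hζ => hζ.1)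
  have hfs : ∀ k, AnalyticOnNhd ℂ (fs k) (D3 a b) ∧ LUE (D3 a b) (sq ξ (fun _ => 0) T (fs k)) := by
    intro k
    fin_cases k
    · exact ⟨fun p _ => te1_an22 p, Lt⟩
    · exact ⟨fun p hp => te1_an_x fun hh => hp.1 ⟨l, hh.symm⟩, Lx l⟩
    · exact ⟨fun p hp => te1_an_y fun hh => hp.2 ⟨l', hh.symm⟩, Ly l'⟩
  refine two_ends (D := DD) hDo hDc
    (F := fun k ζ => gen (fun m => sq ξ (fun _ => 0) T (fs k) m (pt ζ)))
    (X := fun ζ => gen (fun m => sq ξ (fun _ => 0) T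
      (fun p => (p.2.2 - z i) / (p.1 - a i) ^ 3) m (pt ζ)))
    (fun k => C1 _ (hfs k).1 (hfs k).2)
    (C1 _ (fun p hp => te1_an_x fun hh => hp.1 ⟨i, hh.symm⟩) (Lx i)) ?_
    (e₀ := 0) (e₁ := 1) (r := min (r₀ / R) (r₁ / R)) (M := max M₀ M₁)
    (lt_min (div_pos hr₀ hR) (div_pos hr₁ hR)) ?_ ?_
  · -- nondegeneracy
    intro ζ hζ
    have hder : ∀ k, deriv (gen (fun m => sq ξ (fun _ => 0) T (fs k) m (pt ζ))) 0 =
        fderiv ℂ (fs k) (pt ζ) (ξ (pt ζ)) := fun k => te1_deriv_gen (hfs k).2 hζ.1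
    by_cases hC : C (pt ζ) = 0
    · by_cases hV : V (pt ζ) = 0
      · have hW : W (pt ζ) ≠ 0 := by
          rcases hζ.2 with h' | h' | h'
          · exact absurd hV h'
          · exact h'
          · exact absurd hC h'
        refine ⟨2, ?_⟩
        rw [hder]
        have : ξ (pt ζ) = (V (pt ζ), W (pt ζ), 0) := by simp only [ξ, hC]
        rw [this]
        exact te1_fderiv_y (p := pt ζ) (fun hh => hζ.1.2 ⟨l', hh.symm⟩) (hz2 l') hW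
      · refine ⟨1, ?_⟩
        rw [hder]
        have : ξ (pt ζ) = (V (pt ζ), W (pt ζ), 0) := by simp only [ξ, hC]
        rw [this]
        exact te1_fderiv_x (p := pt ζ) (fun hh => hζ.1.1 ⟨l, hh.symm⟩) (hz1 l) hV
    · refine ⟨0, ?_⟩
      rw [hder]
      change fderiv ℂ (fun p : ℂ × ℂ × ℂ => p.2.2) (pt ζ) (ξ (pt ζ)) ≠ 0
      rw [te1_fderiv_t]
      exact hC
  · -- the end 0
    intro ζ hζ0 hζ
    rw [sub_zero] at hζ0 hζ
    obtain ⟨g1, g2, g3⟩ := E0 ζ hζ0 (hζ.trans_le (min_le_left _ _))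
    obtain ⟨q1, q2, c, hc, hcM, Et, Ex, Ey, Ei⟩ := H0 _ g1 g2 _ g3
    refine ⟨⟨q1, Or.inl q2⟩, c, hc, hcM.trans (le_max_left _ _), ?_, Ei⟩
    intro k
    fin_cases k
    · exact Et
    · exact Ex l hl
    · exact Ey l'
  · -- the end 1
    intro ζ hζ0 hζ
    obtain ⟨g1, g2, g3⟩ := E1 ζ hζ0 (hζ.trans_le (min_le_right _ _))
    obtain ⟨q1, q2, c, hc, hcM, Et, Ex, Ey, Ei⟩ := H1 _ g1 g2 _ g3
    have hsw : ∀ f : ℂ × ℂ × ℂ → ℂ, (fun m => sq (fun q => (W (swp q), V (swp q), C (swp q)))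
        (fun _ => 0) (fun q => T (swp q)) (fun q => f (swp q)) m
        (ω₀ + ζ * (b j - ω₀), a i + ζ * (v₁ - a i), t₀)) =
        fun m => sq ξ (fun _ => 0) T f m (pt ζ) := by
      intro f
      funext m
      exact te1_sq_swp V W C T f m _
    refine ⟨⟨⟨q1.2, q1.1⟩, Or.inr (Or.inl q2)⟩, c, hc, hcM.trans (le_max_right _ _), ?_, ?_⟩
    · intro k
      fin_cases k
      · have := hsw (fun p => p.2.2)
        change ExpEnd c 0 (gen (fun m => sq ξ (fun _ => 0) T (fun p => p.2.2) m (pt ζ)))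
        rw [← this]
        exact Et
      · have := hsw (fun p => (p.2.2 - z l) / (p.1 - a l) ^ 3)
        change ExpEnd c 0 (gen (fun m => sq ξ (fun _ => 0) T
          (fun p => (p.2.2 - z l) / (p.1 - a l) ^ 3) m (pt ζ)))
        rw [← this]
        exact Ey l
      · have := hsw (fun p => (p.2.2 - z' l') / (p.2.1 - b l') ^ 3)
        change ExpEnd c 0 (gen (fun m => sq ξ (fun _ => 0) T
          (fun p => (p.2.2 - z' l') / (p.2.1 - b l') ^ 3) m (pt ζ)))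
        rw [← this]
        exact Ex l' hl'
    · have := hsw (fun p => (p.2.2 - z i) / (p.1 - a i) ^ 3)
      change ExpEnd c 0 (gen (fun m => sq ξ (fun _ => 0) T
        (fun p => (p.2.2 - z i) / (p.1 - a i) ^ 3) m (pt ζ)))
      rw [← this]
      exact Ey i

end Pool.Agent.H43.FX
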