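import Pool.Agent.H43.FX.MkEnt
import Pool.Agent.H43.FX.MkGrow
import Pool.Agent.H43.FX.MkDiv
import Pool.Agent.H43.FX.Pos1
import Pool.Agent.H43.FX.TE1
import Pool.Agent.H43.FX.Lvl2Zero

/-!
# FX-MAIN : there are no complete fields of negative degree

`mk_lvl2` collects `mk_ent`, `mk_grow`, `mk_div`.  `exists_end` : `pos1` gives a polar line; by
`lvl2_zero` the reduced field is zero, so the line is an end (`Vh(a_i,·)` is not identically
zero on `D2`: otherwise `d Dh(a_i,·) = 0` and all four leading coefficients vanish).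
`main_neg` : apply `exists_end` to the field and to the swapped field (which is not identically
zero either), then `te1`.
-/

namespace Pool.Agent.H43.FX

open Set Metric Filter Topology

variable {a b z z' : Fin 4 → ℂ} {d : ℕ} {V W C D : ℂ × ℂ × ℂ → ℂ}

theorem mk_lvl2 (h : NegField a b z z' d V W C D) (ha : Function.Injective a)
    (hb : Function.Injective b) (hz : Function.Injective z) {i : Fin 4} {n : ℕ} (hn : 1 ≤ n)
    {Vh Wh Ch Dh : ℂ × ℂ × ℂ → ℂ}
    (mV : Vh ∈ Rvw (range a \ {a i}) (range b))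
    (mW : Wh ∈ Rvw (range a \ {a i}) (range b)) (mC : Ch ∈ Rvw (range a \ {a i}) (range b))
    (mD : Dh ∈ Rvw (range a \ {a i}) (range b))
    (e : ∀ p ∈ D3 a b, V p = (p.1 - a i) ^ (1 - (n : ℤ)) * Vh p ∧
      W p = (p.1 - a i) ^ (-(n : ℤ)) * Wh p ∧ C p = (p.1 - a i) ^ (-(n : ℤ)) * Ch p ∧
      D p = (p.1 - a i) ^ (-(n : ℤ)) * Dh p) :
    Lvl2 b z' (z i) n d (fun p => Wh (a i, p)) (fun p => Ch (a i, p)) (fun p => Dh (a i, p))
      (fun p => -(n : ℂ) * Vh (a i, p) - (d : ℂ) * Dh (a i, p)) := by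
  obtain ⟨e1, e2, e3, e4, e5, e6⟩ := mk_ent h ha hz mV mW mC mD e rfl rfl rfl rfl
  obtain ⟨g1, g2, g3, g4⟩ := mk_grow h hb mV mW mC mD e rfl rfl rfl
  obtain ⟨d1, d2⟩ := mk_div h ha hn mV mW mC e
  exact
    { hn := hn
      hd := h.hd
      mw := ratx_restrict mW _
      mc := ratx_restrict mC _
      mδ := ratx_restrict mD _
      mτ := Subalgebra.sub_mem _
        (Subalgebra.smul_mem _ (ratx_restrict mV (a i)) (-(n : ℂ)))
        (Subalgebra.smul_mem _ (ratx_restrict mD (a i)) (d : ℂ))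
      ent_t := e1
      ent_one := e2
      ent_om := e3
      ent_y := e4
      ent_z := e5
      ent_H := e6
      grow_c := g1
      grow_τ := g2
      div_w := d1
      div_c := d2
      reg_w := g3
      reg_cw := g4 }

theorem exists_end (h : NegField a b z z' d V W C D) (ha : Function.Injective a)
    (hb : Function.Injective b) (hz : Function.Injective z) (hz' : Function.Injective z')
    (hzz : ∀ i j, z i ≠ z' j)
    (hne : ¬ ∀ p ∈ D3 a b, V p = 0 ∧ W p = 0 ∧ C p = 0 ∧ D p = 0) :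
    ∃ i, IsEnd a b d V W C D i := by
  obtain ⟨i, n, Vh, Wh, Ch, Dh, hn, mV, mW, mC, mD, e, p₀, hp₀, hnz⟩ := pos1 h ha hne
  have hL := mk_lvl2 h ha hb hz hn mV mW mC mD e
  have hz0 := fun p hp => lvl2_zero hL hb hz' (hzz i) (p := p) hp
  refine ⟨i, n, Vh, Wh, Ch, Dh, hn, mV, mW, mC, mD, e, fun p hp => ⟨(hz0 p hp).1,
    (hz0 p hp).2.1, ?_⟩, ?_⟩
  · have := (hz0 p hp).2.2
    linear_combination -this
  · by_contra hcon
    push Not at hcon
    apply hnz
    have h1 := hcon p₀ hp₀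
    obtain ⟨h2, h3, h4⟩ := hz0 p₀ hp₀
    simp only [h1, mul_zero, zero_sub, neg_eq_zero] at h4
    have hd : (d : ℂ) ≠ 0 := by exact_mod_cast (by have := h.hd; omega : d ≠ 0)
    exact ⟨h1, h2, h3, (mul_eq_zero.mp h4).resolve_left hd⟩

/-- There are no nonzero complete vector fields of negative degree. -/
theorem main_neg (h : NegField a b z z' d V W C D) (ha : Function.Injective a)
    (hb : Function.Injective b) (hz : Function.Injective z) (hz' : Function.Injective z')
    (hzz : ∀ i j, z i ≠ z' j) :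
    ∀ p ∈ D3 a b, V p = 0 ∧ W p = 0 ∧ C p = 0 ∧ D p = 0 := by
  by_contra hne
  obtain ⟨i, hi⟩ := exists_end h ha hb hz hz' hzz hne
  have hs := nf_swap h
  have hne' : ¬ ∀ p ∈ D3 b a, W (swp p) = 0 ∧ V (swp p) = 0 ∧ C (swp p) = 0 ∧
      D (swp p) = 0 := by
    intro hcon
    apply hne
    intro p hp
    obtain ⟨h1, h2, h3, h4⟩ := hcon (swp p) ⟨hp.2, hp.1⟩
    exact ⟨h2, h1, h3, h4⟩
  obtain ⟨j, hj⟩ := exists_end hs hb ha hz' hz (fun i j => (hzz j i).symm) hne'
  exact te1 h ha hb hi hj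

end Pool.Agent.H43.FX
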