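import Pool.Agent.H43.FX.NFEnt

/-!
# FX-MKENT : the entireness fields of `Lvl2`

Notation: `w = Wh(a_i,·)`, `c = Ch(a_i,·)`, `δ = Dh(a_i,·)`, `A = Vh(a_i,·)`,
`τ = -n A - d δ`.  Every statement is `nf_ent` for a suitable element:
* `mk_t` : `φ = t`, `k = 0`, `m = 0`.
* `mk_one`, `mk_om` : `φ = 1`, `φ = ω` with `k = 1`, `m = 0` (`S = 1·δ - 0·A = δ`).
* `mk_y` : `φ = Y j 0` (`k = 0`, `m = 0`).
* `mk_z` : let `i', i''` be two distinct indices `≠ i`; `φ = Λ · y_j`,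
  `Λ = (a_i-a_{i'})³ x_{i'} - (a_i-a_{i''})³ x_{i''}`, `x_l = (t-z_l)/(v-a_l)³`; `AA (-3)`
  (`AA.Z`, `aa_const_mul`, `AA.add`), `m = 0`, `S = -3δ`; on `v = a_i`
  `Λ = (t-z_{i'}) - (t-z_{i''}) = z_{i''} - z_{i'} =: c₁ ≠ 0`, so this is the sequence of
  `c₁ y_j`, and `sq` is linear in the function (`sq_smul` on the open set `D2 b`; `w, c, δ, τ`
  are analytic there), so divide by `c₁` (scaling of `LUE`).
* `mk_H` : `φ = X_i^n · y_j^r · (Λ Λ'_j)^d` with `X_i = x_i = (t-z_i)/(v-a_i)³ = AA.X i 0`,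
  `Λ'_j = Lam b z' j j' j''` (a combination of the `y_l`), `Λ Λ'_j` is a combination of the
  `Z l l'` with `l ∈ {i', i''}`, so in `AA (-3)`; hence `φ ∈ AA (-3d)`;
  `φ = (v-a_i)^{-3n} φh`, `φh = (t-z_i)^n y_j^r (Λ Λ'_j)^d ∈ Rvw (range a \ {a i}) (range b)`,
  `m = 3n`, so `S = -3d δ - 3n A = 3τ`; on `v = a_i`: `φh = c₁^d (t-z_i)^n y_j^r Λ'_j^d`;
  divide by the constant `c₁^d`.
-/

namespace Pool.Agent.H43.FX

open Set Metric Filter Topology

variable {a b z z' : Fin 4 → ℂ} {d : ℕ} {V W C D : ℂ × ℂ × ℂ → ℂ}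

namespace MkE

lemma mke_D2_open (b : Fin 4 → ℂ) : IsOpen (D2 b) := by
  have h1 : IsClosed (range b) := (Set.finite_range b).isClosed
  exact (h1.preimage continuous_fst).isOpen_compl

lemma mke_rw_t {Q : Set ℂ} : (fun p : ℂ × ℂ => p.2) ∈ Rw Q :=
  ratx_pull (k := fun t : ℂ => t) (Algebra.subset_adjoin rfl)

lemma mke_rw_y (b z' : Fin 4 → ℂ) (j : Fin 4) :
    (fun p : ℂ × ℂ => (p.2 - z' j) / (p.1 - b j) ^ 3) ∈ Rw (range b) := by
  have h1 : (fun p : ℂ × ℂ => (p.1 - b j)⁻¹) ∈ Rw (range b) := ratx_inv ⟨j, rfl⟩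
  have h2 := mul_mem (sub_mem (mke_rw_t (Q := range b)) (ratx_const (z' j) : _ ∈ Rw (range b)))
    (pow_mem h1 3)
  convert h2 using 1
  funext p
  simp [div_eq_mul_inv]

lemma rw_Lam (b z' : Fin 4 → ℂ) (j j' j'' : Fin 4) :
    (fun p : ℂ × ℂ => Lam b z' j j' j'' p) ∈ Rw (range b) := by
  have h1 := sub_mem (mul_mem (ratx_const ((b j - b j') ^ 3) : _ ∈ Rw (range b)) (mke_rw_y b z' j'))
    (mul_mem (ratx_const ((b j - b j'') ^ 3) : _ ∈ Rw (range b)) (mke_rw_y b z' j''))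
  exact h1

lemma mke_rvw_t {P Q : Set ℂ} : (fun p : ℂ × ℂ × ℂ => p.2.2) ∈ Rvw P Q :=
  ratx_pull (k := fun p : ℂ × ℂ => p.2) mke_rw_t

lemma mke_rvw_x (a z : Fin 4 → ℂ) {P Q : Set ℂ} {l : Fin 4} (hl : a l ∈ P) :
    (fun p : ℂ × ℂ × ℂ => (p.2.2 - z l) / (p.1 - a l) ^ 3) ∈ Rvw P Q := by
  have h1 : (fun p : ℂ × ℂ × ℂ => (p.1 - a l)⁻¹) ∈ Rvw P Q := ratx_inv hl
  have h2 := mul_mem (sub_mem (mke_rvw_t (P := P) (Q := Q)) (ratx_const (z l) : _ ∈ Rvw P Q))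
    (pow_mem h1 3)
  convert h2 using 1
  funext p
  simp [div_eq_mul_inv]

/-- `Λ = (a_i-a_{i'})³ x_{i'} - (a_i-a_{i''})³ x_{i''}` -/
noncomputable def LamA (a z : Fin 4 → ℂ) (i i' i'' : Fin 4) (p : ℂ × ℂ × ℂ) : ℂ :=
  (a i - a i') ^ 3 * ((p.2.2 - z i') / (p.1 - a i') ^ 3) -
    (a i - a i'') ^ 3 * ((p.2.2 - z i'') / (p.1 - a i'') ^ 3)

lemma rvw_LamA (a z : Fin 4 → ℂ) {P Q : Set ℂ} {i i' i'' : Fin 4} (h' : a i' ∈ P)
    (h'' : a i'' ∈ P) : (fun p => LamA a z i i' i'' p) ∈ Rvw P Q := by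
  have h1 := sub_mem (mul_mem (ratx_const ((a i - a i') ^ 3) : _ ∈ Rvw P Q) (mke_rvw_x a z h'))
    (mul_mem (ratx_const ((a i - a i'') ^ 3) : _ ∈ Rvw P Q) (mke_rvw_x a z h''))
  exact h1

lemma LamA_at (ha : Function.Injective a) {i i' i'' : Fin 4} (h' : i ≠ i') (h'' : i ≠ i'')
    (p : ℂ × ℂ) : LamA a z i i' i'' (a i, p) = z i'' - z i' := by
  have h1 : a i - a i' ≠ 0 := sub_ne_zero.mpr (fun h => h' (ha h))
  have h2 : a i - a i'' ≠ 0 := sub_ne_zero.mpr (fun h => h'' (ha h))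
  unfold LamA
  simp only
  rw [mul_div_cancel₀ _ (pow_ne_zero 3 h1), mul_div_cancel₀ _ (pow_ne_zero 3 h2)]
  ring

lemma aa_LamA_y (i i' i'' j : Fin 4) : AA a b z z' (-3)
    (fun p => LamA a z i i' i'' p * ((p.2.2 - z' j) / (p.2.1 - b j) ^ 3)) := by
  have h1 := (aa_const_mul (AA.Z (a := a) (b := b) (z := z) (z' := z') i' j)
    ((a i - a i') ^ 3)).add
    (aa_const_mul (AA.Z (a := a) (b := b) (z := z) (z' := z') i'' j) (-(a i - a i'') ^ 3))
  refine h1.congr fun p _ => ?_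
  simp only [LamA]
  ring

lemma aa_LamA_Lam (i i' i'' j j' j'' : Fin 4) : AA a b z z' (-3)
    (fun p => LamA a z i i' i'' p * Lam b z' j j' j'' p.2) := by
  have h1 := (aa_const_mul (aa_LamA_y (a := a) (b := b) (z := z) (z' := z') i i' i'' j')
    ((b j - b j') ^ 3)).add
    (aa_const_mul (aa_LamA_y (a := a) (b := b) (z := z) (z' := z') i i' i'' j'')
      (-(b j - b j'') ^ 3))
  refine h1.congr fun p _ => ?_
  simp only [Lam]
  ring

lemma LUE_of_smul {E : Type*} [NormedAddCommGroup E] [NormedSpace ℂ E] {U : Set E}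
    {φ : ℕ → E → ℂ} {c : ℂ} (hc : c ≠ 0) (h : LUE U (fun m p => c * φ m p)) : LUE U φ := by
  intro K hK hKc R hR
  obtain ⟨M, hM⟩ := h K hK hKc R hR
  have hc' : 0 < ‖c‖ := norm_pos_iff.mpr hc
  refine ⟨M / ‖c‖, fun m p hp => ?_⟩
  have h1 := hM m p hp
  rw [norm_mul] at h1
  have h2 : ‖φ m p‖ * R ^ m = (‖c‖ * ‖φ m p‖ * R ^ m) / ‖c‖ := by
    field_simp
  rw [h2, div_mul_eq_mul_div]
  exact div_le_div_of_nonneg_right h1 hc'.le

lemma exists_two (i : Fin 4) : ∃ i' i'' : Fin 4, i ≠ i' ∧ i ≠ i'' ∧ i' ≠ i'' := by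
  revert i
  decide

end MkE

open MkE

theorem mk_ent (h : NegField a b z z' d V W C D) (ha : Function.Injective a)
    (hz : Function.Injective z) {i : Fin 4} {n : ℕ}
    {Vh Wh Ch Dh : ℂ × ℂ × ℂ → ℂ} (mV : Vh ∈ Rvw (range a \ {a i}) (range b))
    (mW : Wh ∈ Rvw (range a \ {a i}) (range b)) (mC : Ch ∈ Rvw (range a \ {a i}) (range b))
    (mD : Dh ∈ Rvw (range a \ {a i}) (range b))
    (e : ∀ p ∈ D3 a b, V p = (p.1 - a i) ^ (1 - (n : ℤ)) * Vh p ∧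
      W p = (p.1 - a i) ^ (-(n : ℤ)) * Wh p ∧ C p = (p.1 - a i) ^ (-(n : ℤ)) * Ch p ∧
      D p = (p.1 - a i) ^ (-(n : ℤ)) * Dh p)
    {w c δ τ : ℂ × ℂ → ℂ} (hw : w = fun p => Wh (a i, p)) (hc : c = fun p => Ch (a i, p))
    (hδ : δ = fun p => Dh (a i, p))
    (hτ : τ = fun p => -(n : ℂ) * Vh (a i, p) - (d : ℂ) * Dh (a i, p)) :
    LUE (D2 b) (sq (fun p => (w p, c p)) (fun _ => 0) τ (fun p => p.2)) ∧
    LUE (D2 b) (sq (fun p => (w p, c p)) δ τ (fun _ => 1)) ∧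
    LUE (D2 b) (sq (fun p => (w p, c p)) δ τ (fun p => p.1)) ∧
    (∀ j, LUE (D2 b) (sq (fun p => (w p, c p)) (fun _ => 0) τ
      (fun p => (p.2 - z' j) / (p.1 - b j) ^ 3))) ∧
    (∀ j, LUE (D2 b) (sq (fun p => (w p, c p)) (fun p => -3 * δ p) τ
      (fun p => (p.2 - z' j) / (p.1 - b j) ^ 3))) ∧
    (∀ (j j' j'' : Fin 4) (r : ℕ), j ≠ j' → j ≠ j'' → j' ≠ j'' →
      LUE (D2 b) (sq (fun p => (w p, c p)) (fun p => 3 * τ p) τ
        (fun p => (p.2 - z i) ^ n * ((p.2 - z' j) / (p.1 - b j) ^ 3) ^ r *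
          (Lam b z' j j' j'' p) ^ d))) := by
  obtain ⟨i', i'', hi', hi'', hii⟩ := exists_two i
  have mi' : a i' ∈ range a \ {a i} := ⟨⟨i', rfl⟩, fun hh => hi' (ha hh).symm⟩
  have mi'' : a i'' ∈ range a \ {a i} := ⟨⟨i'', rfl⟩, fun hh => hi'' (ha hh).symm⟩
  set c₁ : ℂ := z i'' - z i' with hc₁
  have hc₁0 : c₁ ≠ 0 := sub_ne_zero.mpr (fun hh => hii (hz hh).symm)
  -- analyticity of the data
  have Aw : AnalyticOnNhd ℂ w (D2 b) := by
    intro p hp
    rw [hw]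
    exact rw_analytic (Q := range b) (x := p.1) (t := p.2) (ratx_restrict mW (a i)) hp
  have Ac : AnalyticOnNhd ℂ c (D2 b) := by
    intro p hp
    rw [hc]
    exact rw_analytic (Q := range b) (x := p.1) (t := p.2) (ratx_restrict mC (a i)) hp
  have Aδ : AnalyticOnNhd ℂ δ (D2 b) := by
    intro p hp
    rw [hδ]
    exact rw_analytic (Q := range b) (x := p.1) (t := p.2) (ratx_restrict mD (a i)) hp
  have AV : AnalyticOnNhd ℂ (fun p => Vh (a i, p)) (D2 b) := by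
    intro p hp
    exact rw_analytic (Q := range b) (x := p.1) (t := p.2) (ratx_restrict mV (a i)) hp
  have Aτ : AnalyticOnNhd ℂ τ (D2 b) := by
    have h1 : AnalyticOnNhd ℂ (fun p => -(n : ℂ) * Vh (a i, p) - (d : ℂ) * δ p) (D2 b) :=
      (analyticOnNhd_const.mul AV).sub (analyticOnNhd_const.mul Aδ)
    have h2 : τ = fun p => -(n : ℂ) * Vh (a i, p) - (d : ℂ) * δ p := by
      rw [hτ, hδ]
    rw [h2]
    exact h1
  have Aξ : AnalyticOnNhd ℂ (fun p => (w p, c p)) (D2 b) := Aw.prod Ac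
  -- the general tool
  have key : ∀ {k : ℤ} {φ φh : ℂ × ℂ × ℂ → ℂ} (_ : AA a b z z' k φ) {m : ℤ}
      (_ : φh ∈ Rvw (range a \ {a i}) (range b))
      (_ : ∀ p ∈ D3 a b, φ p = (p.1 - a i) ^ (-m) * φh p) {S g : ℂ × ℂ → ℂ}
      (_ : ∀ p, S p = (k : ℂ) * δ p - (m : ℂ) * Vh (a i, p)) (_ : ∀ p, g p = φh (a i, p)),
      LUE (D2 b) (sq (fun p => (w p, c p)) S τ g) := by
    intro k φ φh hφ m mφ eφ S g hS hg
    have h1 := nf_ent h (n := (n : ℤ)) mV mW mC mD e hφ mφ eφ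
    have h2 : S = fun p => (k : ℂ) * Dh (a i, p) - (m : ℂ) * Vh (a i, p) := by
      funext p
      rw [hS p, hδ]
    have h3 : g = fun p => φh (a i, p) := funext hg
    rw [hw, hc, hτ, h2, h3]
    simpa only [Int.cast_natCast] using h1
  refine ⟨?_, ?_, ?_, ?_, ?_, ?_⟩
  · refine key (m := 0) AA.t (φh := fun p => p.2.2)
      (mke_rvw_t (P := range a \ {a i}) (Q := range b)) (fun p _ => ?_) (fun p => ?_) (fun p => rfl)
    · simp
    · simp
  · refine key (m := 0) AA.kap (ratx_const 1) (fun p _ => ?_) (fun p => ?_) (fun p => rfl)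
    · simp
    · simp
  · refine key (m := 0) AA.kapw (φh := fun p => p.2.1)
      (ratx_pull (k := fun p : ℂ × ℂ => p.1) ratx_fst) (fun p _ => ?_) (fun p => ?_)
      (fun p => rfl)
    · simp
    · simp
  · intro j
    refine key (m := 0) (AA.Y j 0) (φh := fun p => (p.2.2 - z' j) / (p.2.1 - b j) ^ 3)
      (ratx_pull (mke_rw_y b z' j)) (fun p _ => ?_) (fun p => ?_) (fun p => rfl)
    · simp
    · simp
  · intro j
    have h1 : LUE (D2 b) (sq (fun p => (w p, c p)) (fun p => -3 * δ p) τ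
        (fun p => c₁ * ((p.2 - z' j) / (p.1 - b j) ^ 3))) := by
      refine key (m := 0) (aa_LamA_y i i' i'' j)
        (φh := fun p => LamA a z i i' i'' p * ((p.2.2 - z' j) / (p.2.1 - b j) ^ 3))
        (mul_mem (rvw_LamA a z mi' mi'') (ratx_pull (mke_rw_y b z' j))) (fun p _ => ?_)
        (fun p => ?_) (fun p => ?_)
      · simp
      · simp
      · simp only [LamA_at ha hi' hi'']
        rfl
    refine LUE_of_smul hc₁0 (h1.congr fun m p hp => ?_)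
    refine sq_smul (mke_D2_open b) Aξ (analyticOnNhd_const.mul Aδ) Aτ ?_ c₁ m hp
    intro q hq
    exact rw_analytic (Q := range b) (x := q.1) (t := q.2) (mke_rw_y b z' j) hq
  · intro j j' j'' r _ _ _
    have mf : (fun p : ℂ × ℂ => (p.2 - z i) ^ n * ((p.2 - z' j) / (p.1 - b j) ^ 3) ^ r *
        (Lam b z' j j' j'' p) ^ d) ∈ Rw (range b) := by
      have h1 := mul_mem (mul_mem (pow_mem (sub_mem (mke_rw_t (Q := range b))
        (ratx_const (z i) : _ ∈ Rw (range b))) n) (pow_mem (mke_rw_y b z' j) r))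
        (pow_mem (rw_Lam b z' j j' j'') d)
      exact h1
    have h1 : LUE (D2 b) (sq (fun p => (w p, c p)) (fun p => 3 * τ p) τ
        (fun p => c₁ ^ d * ((p.2 - z i) ^ n * ((p.2 - z' j) / (p.1 - b j) ^ 3) ^ r *
          (Lam b z' j j' j'' p) ^ d))) := by
      have hA := ((aa_pow (AA.X (a := a) (b := b) (z := z) (z' := z') i 0) n).mul
        (aa_pow (AA.Y (a := a) (b := b) (z := z) (z' := z') j 0) r)).mul
        (aa_pow (aa_LamA_Lam (a := a) (b := b) (z := z) (z' := z') i i' i'' j j' j'') d)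
      refine key (m := 3 * n) hA
        (φh := fun p => (p.2.2 - z i) ^ n * ((p.2.2 - z' j) / (p.2.1 - b j) ^ 3) ^ r *
          (LamA a z i i' i'' p * Lam b z' j j' j'' p.2) ^ d) ?_ (fun p hp => ?_)
        (fun p => ?_) (fun p => ?_)
      · have h2 := mul_mem (mul_mem (pow_mem (sub_mem
          (mke_rvw_t (P := range a \ {a i}) (Q := range b))
          (ratx_const (z i) : _ ∈ Rvw (range a \ {a i}) (range b))) n)
          (pow_mem (ratx_pull (P := range a \ {a i}) (mke_rw_y b z' j)) r))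
          (pow_mem (mul_mem (rvw_LamA (i := i) (Q := range b) a z mi' mi'')
            (ratx_pull (P := range a \ {a i}) (rw_Lam b z' j j' j''))) d)
        exact h2
      · have hp1 : p.1 - a i ≠ 0 := sub_ne_zero.mpr (fun hh => hp.1 ⟨i, hh.symm⟩)
        have h3 : (p.1 - a i) ^ (-(3 * (n : ℤ))) = (((p.1 - a i) ^ 3) ^ n)⁻¹ := by
          rw [zpow_neg, ← pow_mul]
          congr 1
        rw [h3]
        simp only [Fin.val_zero, pow_zero, one_mul, div_pow]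
        field_simp
      · simp only [hτ, hδ]
        push_cast
        ring
      · simp only [LamA_at ha hi' hi'']
        rw [← hc₁]
        ring
    refine LUE_of_smul (pow_ne_zero d hc₁0) (h1.congr fun m p hp => ?_)
    refine sq_smul (mke_D2_open b) Aξ (analyticOnNhd_const.mul Aτ) Aτ ?_ (c₁ ^ d) m hp
    intro q hq
    exact rw_analytic (Q := range b) (x := q.1) (t := q.2) mf hq

end Pool.Agent.H43.FX
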