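import Pool.Agent.H43.FX.AAFacts

/-!
# FX-NFB : the coefficients of a complete field of negative degree

Proof of `nf_mem` : `NegField.mem` for `κ` (`φ = 1`, `k = 1`): `D`; `κv`: `V + v D`;
`κω`: `W + ω D`; `κvω`: `ω V + v W + vω D`; `t` (`k = 0`): `C`;
`X i 0` (`k = 0`): `(C - 3 (t-z_i) V/(v-a_i))/(v-a_i)^3`; `Y j 0` likewise.  The derivatives
are computed at points of `D3` (`AA.congr`; `fderiv` of `p ↦ p.1` etc., `HasFDerivAt.div`,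
`HasFDerivAt.pow`).  `(1 : ℤ) - d`, `(0:ℤ) - d = -d`.

Bounds.  Let `K` be compact, disjoint from `range a`.
* `nf_grow_C` from `aa_grow_w`.  `nf_grow_V`: `ω V = (ωV + vW + vωD) - v (W + ωD)` is
  `O(‖ω‖^{1-d})` on `K`, so `V = O(‖ω‖^{-d})`.  `nf_grow_WD` from `aa_grow_w`.
* `nf_grow_v`: pointwise in `ω, t` as `v → ∞`: symmetric: `D, V + vD, W + ωD, ωV+vW+vωD` are
  `O(‖v‖^{1-d})`, `C` is `O(‖v‖^{-d})`.  So `W + ωD = O(‖v‖^{1-d})`,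
  `v(W + ωD) = (ωV+vW+vωD) - ωV`... precisely: `v W = (ωV + vW + vωD) - ω (V + vD)
  = O(‖v‖^{1-d})`, so `W = O(‖v‖^{-d})`; `V = (V+vD) - vD = O(‖v‖^{2-d})`.
* `nf_reg_v_*`: `V = (V+vD) - v D`, `W = (W+ωD) - ωD`, `C` and the last combination by
  `aa_reg_v` (`v = a i + β` and `ω` are bounded).
* `nf_reg_w_*`: the same with `aa_reg_w`, uniformly on `K`.
-/

namespace Pool.Agent.H43.FX

open Set Metric Filter Topology

variable {a b z z' : Fin 4 → ℂ} {d : ℕ} {V W C D : ℂ × ℂ × ℂ → ℂ}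

namespace NFB

lemma hf1 (p : ℂ × ℂ × ℂ) :
    HasFDerivAt (fun p : ℂ × ℂ × ℂ => p.1) (ContinuousLinearMap.fst ℂ ℂ (ℂ × ℂ)) p :=
  hasFDerivAt_fst

lemma hf21 (p : ℂ × ℂ × ℂ) :
    HasFDerivAt (fun p : ℂ × ℂ × ℂ => p.2.1)
      ((ContinuousLinearMap.fst ℂ ℂ ℂ).comp (ContinuousLinearMap.snd ℂ ℂ (ℂ × ℂ))) p :=
  (hasFDerivAt_fst (p := p.2)).comp p hasFDerivAt_snd

lemma hf22 (p : ℂ × ℂ × ℂ) :
    HasFDerivAt (fun p : ℂ × ℂ × ℂ => p.2.2)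
      ((ContinuousLinearMap.snd ℂ ℂ ℂ).comp (ContinuousLinearMap.snd ℂ ℂ (ℂ × ℂ))) p :=
  (hasFDerivAt_snd (p := p.2)).comp p hasFDerivAt_snd

lemma hcube {x c : ℂ} (hx : x ≠ c) :
    HasDerivAt (fun x : ℂ => ((x - c) ^ 3)⁻¹) (-(3 * (x - c) ^ 2) / ((x - c) ^ 3) ^ 2) x := by
  have h1 : HasDerivAt (fun x : ℂ => (x - c) ^ 3) (3 * (x - c) ^ 2) x := by
    have h := ((hasDerivAt_id x).sub_const c).fun_pow 3
    simpa using h
  have h2 : (x - c) ^ 3 ≠ 0 := pow_ne_zero _ (sub_ne_zero.mpr hx)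
  exact h1.fun_inv h2

/-- derivative of `(t - z)/(x - c)^3` in a direction -/
lemma hXd {p : ℂ × ℂ × ℂ} {c ζ : ℂ} (hp : p.1 ≠ c) (u v w : ℂ) :
    fderiv ℂ (fun p : ℂ × ℂ × ℂ => (p.2.2 - ζ) / (p.1 - c) ^ 3) p (u, v, w) =
      (w - 3 * (p.2.2 - ζ) * (u / (p.1 - c))) / (p.1 - c) ^ 3 := by
  have h1 : HasFDerivAt (fun p : ℂ × ℂ × ℂ => ((p.1 - c) ^ 3)⁻¹)
      ((-(3 * (p.1 - c) ^ 2) / ((p.1 - c) ^ 3) ^ 2) • (ContinuousLinearMap.fst ℂ ℂ (ℂ × ℂ))) p :=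
    (hcube hp).comp_hasFDerivAt p (hf1 p)
  have h2 := ((hf22 p).sub_const ζ).mul h1
  have h3 : (fun p : ℂ × ℂ × ℂ => (p.2.2 - ζ) / (p.1 - c) ^ 3) =
      (fun p : ℂ × ℂ × ℂ => (p.2.2 - ζ)) * (fun p : ℂ × ℂ × ℂ => ((p.1 - c) ^ 3)⁻¹) := by
    funext q
    simp [div_eq_mul_inv]
  have h4 : p.1 - c ≠ 0 := sub_ne_zero.mpr hp
  rw [h3, h2.fderiv]
  simp only [_root_.add_apply, _root_.smul_apply,
    ContinuousLinearMap.coe_fst', ContinuousLinearMap.coe_comp, Function.comp_apply,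
    ContinuousLinearMap.coe_snd', smul_eq_mul]
  field_simp
  ring

lemma hYd {p : ℂ × ℂ × ℂ} {c ζ : ℂ} (hp : p.2.1 ≠ c) (u v w : ℂ) :
    fderiv ℂ (fun p : ℂ × ℂ × ℂ => (p.2.2 - ζ) / (p.2.1 - c) ^ 3) p (u, v, w) =
      (w - 3 * (p.2.2 - ζ) * (v / (p.2.1 - c))) / (p.2.1 - c) ^ 3 := by
  have h1 : HasFDerivAt (fun p : ℂ × ℂ × ℂ => ((p.2.1 - c) ^ 3)⁻¹)
      ((-(3 * (p.2.1 - c) ^ 2) / ((p.2.1 - c) ^ 3) ^ 2) •
        ((ContinuousLinearMap.fst ℂ ℂ ℂ).comp (ContinuousLinearMap.snd ℂ ℂ (ℂ × ℂ)))) p := by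
    have h := (hcube hp).comp_hasFDerivAt p (hf21 p)
    exact h
  have h2 := ((hf22 p).sub_const ζ).mul h1
  have h3 : (fun p : ℂ × ℂ × ℂ => (p.2.2 - ζ) / (p.2.1 - c) ^ 3) =
      (fun p : ℂ × ℂ × ℂ => (p.2.2 - ζ)) * (fun p : ℂ × ℂ × ℂ => ((p.2.1 - c) ^ 3)⁻¹) := by
    funext q
    simp [div_eq_mul_inv]
  have h4 : p.2.1 - c ≠ 0 := sub_ne_zero.mpr hp
  rw [h3, h2.fderiv]
  simp only [_root_.add_apply, _root_.smul_apply,
    ContinuousLinearMap.coe_fst', ContinuousLinearMap.coe_comp, Function.comp_apply,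
    ContinuousLinearMap.coe_snd', smul_eq_mul]
  field_simp
  ring

/-- weakening of a growth bound -/
lemma grow_weak {x M r : ℝ} {k l : ℤ} (hkl : k ≤ l) (hr : 1 ≤ r) (h : x ≤ M * r ^ k) :
    x ≤ |M| * r ^ l := by
  have h0 : (0 : ℝ) ≤ r ^ k := by positivity
  calc x ≤ M * r ^ k := h
    _ ≤ |M| * r ^ k := mul_le_mul_of_nonneg_right (le_abs_self M) h0
    _ ≤ |M| * r ^ l := mul_le_mul_of_nonneg_left (zpow_le_zpow_right₀ hr hkl) (abs_nonneg M)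

lemma grow_const {x M r : ℝ} {k : ℤ} (hk : k ≤ 0) (hr : 1 ≤ r) (h : x ≤ M * r ^ k) :
    x ≤ |M| := by
  have := grow_weak hk hr h
  simpa using this

lemma grow_inv {x M r : ℝ} {k : ℤ} (hk : k ≤ -1) (hr : 1 ≤ r) (h : x ≤ M * r ^ k) :
    x * r ≤ |M| := by
  have h1 := grow_weak hk hr h
  have hr0 : 0 < r := by linarith
  calc x * r ≤ |M| * r ^ (-1 : ℤ) * r := mul_le_mul_of_nonneg_right h1 hr0.le
    _ = |M| := by
      rw [zpow_neg_one, mul_assoc, inv_mul_cancel₀ hr0.ne', mul_one]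

end NFB

open NFB

theorem nf_mem (h : NegField a b z z' d V W C D) :
    AA a b z z' (1 - d) D ∧ AA a b z z' (1 - d) (fun p => V p + p.1 * D p) ∧
    AA a b z z' (1 - d) (fun p => W p + p.2.1 * D p) ∧
    AA a b z z' (1 - d) (fun p => p.2.1 * V p + p.1 * W p + p.1 * p.2.1 * D p) ∧
    AA a b z z' (-d) C ∧
    (∀ i, AA a b z z' (-d)
      (fun p => (C p - 3 * (p.2.2 - z i) * (V p / (p.1 - a i))) / (p.1 - a i) ^ 3)) ∧
    (∀ j, AA a b z z' (-d)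
      (fun p => (C p - 3 * (p.2.2 - z' j) * (W p / (p.2.1 - b j))) / (p.2.1 - b j) ^ 3)) := by
  refine ⟨?_, ?_, ?_, ?_, ?_, ?_, ?_⟩
  · refine (h.mem 1 _ AA.kap).congr fun p _ => ?_
    simp
  · refine (h.mem 1 _ AA.kapv).congr fun p _ => ?_
    simp only [(hf1 p).fderiv, ContinuousLinearMap.coe_fst']
    push_cast
    ring
  · refine (h.mem 1 _ AA.kapw).congr fun p _ => ?_
    simp only [(hf21 p).fderiv, ContinuousLinearMap.coe_fst', ContinuousLinearMap.coe_comp,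
      Function.comp_apply, ContinuousLinearMap.coe_snd']
    push_cast
    ring
  · refine (h.mem 1 _ AA.kapvw).congr fun p _ => ?_
    have h2 : (fun p : ℂ × ℂ × ℂ => p.1 * p.2.1) =
        (fun p : ℂ × ℂ × ℂ => p.1) * (fun p : ℂ × ℂ × ℂ => p.2.1) := rfl
    simp only [h2, ((hf1 p).mul (hf21 p)).fderiv, ContinuousLinearMap.coe_fst',
      ContinuousLinearMap.coe_comp, _root_.add_apply,
      _root_.smul_apply, smul_eq_mul,
      Function.comp_apply, ContinuousLinearMap.coe_snd']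
    push_cast
    ring
  · have h1 := h.mem 0 _ AA.t
    rw [zero_sub] at h1
    refine h1.congr fun p _ => ?_
    simp only [(hf22 p).fderiv, ContinuousLinearMap.coe_comp,
      Function.comp_apply, ContinuousLinearMap.coe_snd']
    push_cast
    ring
  · intro i
    have h1 := h.mem 0 _ (AA.X i 0)
    rw [zero_sub] at h1
    refine h1.congr fun p hp => ?_
    have hp1 : p.1 ≠ a i := fun hh => hp.1 ⟨i, hh.symm⟩
    have h2 : (fun p : ℂ × ℂ × ℂ => p.1 ^ ((0 : Fin 4) : ℕ) *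
        ((p.2.2 - z i) / (p.1 - a i) ^ 3)) =
        fun p : ℂ × ℂ × ℂ => (p.2.2 - z i) / (p.1 - a i) ^ 3 := by
      funext q
      simp
    simp only [h2, hXd hp1]
    push_cast
    ring
  · intro j
    have h1 := h.mem 0 _ (AA.Y j 0)
    rw [zero_sub] at h1
    refine h1.congr fun p hp => ?_
    have hp1 : p.2.1 ≠ b j := fun hh => hp.2 ⟨j, hh.symm⟩
    have h2 : (fun p : ℂ × ℂ × ℂ => p.2.1 ^ ((0 : Fin 4) : ℕ) *
        ((p.2.2 - z' j) / (p.2.1 - b j) ^ 3)) =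
        fun p : ℂ × ℂ × ℂ => (p.2.2 - z' j) / (p.2.1 - b j) ^ 3 := by
      funext q
      simp
    simp only [h2, hYd hp1]
    push_cast
    ring

theorem nf_grow_C (h : NegField a b z z' d V W C D) {K : Set ℂ} (hK : IsCompact K)
    (hKa : K ⊆ (range a)ᶜ) (t : ℂ) :
    ∃ M ρ : ℝ, 0 < ρ ∧ ∀ v ∈ K, ∀ ω : ℂ, ρ < ‖ω‖ → ‖C (v, ω, t)‖ * ‖ω‖ ≤ M := by
  obtain ⟨M, ρ, hρ, hM⟩ := aa_grow_w (nf_mem h).2.2.2.2.1 hK hKa t
  have hd : (1 : ℤ) ≤ d := by exact_mod_cast h.hd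
  refine ⟨|M|, max ρ 1, lt_max_of_lt_left hρ, fun v hv ω hω => ?_⟩
  exact grow_inv (by omega) ((le_max_right ρ 1).trans hω.le)
    (hM v hv ω ((le_max_left ρ 1).trans_lt hω))

theorem nf_grow_V (h : NegField a b z z' d V W C D) {K : Set ℂ} (hK : IsCompact K)
    (hKa : K ⊆ (range a)ᶜ) (t : ℂ) :
    ∃ M ρ : ℝ, 0 < ρ ∧ ∀ v ∈ K, ∀ ω : ℂ, ρ < ‖ω‖ → ‖V (v, ω, t)‖ * ‖ω‖ ≤ M := by
  obtain ⟨M, ρ, hρ, hM⟩ := aa_grow_w (nf_mem h).2.2.2.1 hK hKa t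
  obtain ⟨M', ρ', hρ', hM'⟩ := aa_grow_w (nf_mem h).2.2.1 hK hKa t
  obtain ⟨B, hB⟩ := hK.isBounded.exists_norm_le
  have hd : (1 : ℤ) ≤ d := by exact_mod_cast h.hd
  refine ⟨|M| + |B| * |M'|, max (max ρ ρ') 1, by positivity, fun v hv ω hω => ?_⟩
  have hω1 : 1 ≤ ‖ω‖ := (le_max_right _ 1).trans hω.le
  have h1 := grow_const (by omega) hω1
    (hM v hv ω (((le_max_left ρ ρ').trans (le_max_left _ 1)).trans_lt hω))
  have h2 := grow_const (by omega) hω1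
    (hM' v hv ω (((le_max_right ρ ρ').trans (le_max_left _ 1)).trans_lt hω))
  simp only at h1 h2
  have h3 : ω * V (v, ω, t) = (ω * V (v, ω, t) + v * W (v, ω, t) + v * ω * D (v, ω, t)) -
      v * (W (v, ω, t) + ω * D (v, ω, t)) := by ring
  have hv' : ‖v‖ ≤ |B| := (hB v hv).trans (le_abs_self B)
  calc ‖V (v, ω, t)‖ * ‖ω‖ = ‖ω * V (v, ω, t)‖ := by rw [norm_mul, mul_comm]
    _ = ‖(ω * V (v, ω, t) + v * W (v, ω, t) + v * ω * D (v, ω, t)) -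
      v * (W (v, ω, t) + ω * D (v, ω, t))‖ := by rw [← h3]
    _ ≤ ‖ω * V (v, ω, t) + v * W (v, ω, t) + v * ω * D (v, ω, t)‖ +
      ‖v * (W (v, ω, t) + ω * D (v, ω, t))‖ := norm_sub_le _ _
    _ ≤ |M| + |B| * |M'| := by
      rw [norm_mul v]
      exact add_le_add h1 (mul_le_mul hv' h2 (norm_nonneg _) (abs_nonneg _))

theorem nf_grow_WD (h : NegField a b z z' d V W C D) {K : Set ℂ} (hK : IsCompact K)
    (hKa : K ⊆ (range a)ᶜ) (t : ℂ) :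
    ∃ M ρ : ℝ, 0 < ρ ∧ ∀ v ∈ K, ∀ ω : ℂ, ρ < ‖ω‖ → ‖W (v, ω, t) + ω * D (v, ω, t)‖ ≤ M := by
  obtain ⟨M, ρ, hρ, hM⟩ := aa_grow_w (nf_mem h).2.2.1 hK hKa t
  have hd : (1 : ℤ) ≤ d := by exact_mod_cast h.hd
  refine ⟨|M|, max ρ 1, lt_max_of_lt_left hρ, fun v hv ω hω => ?_⟩
  exact grow_const (by omega) ((le_max_right ρ 1).trans hω.le)
    (hM v hv ω ((le_max_left ρ 1).trans_lt hω))

theorem nf_grow_v (h : NegField a b z z' d V W C D) {ω : ℂ} (hω : ω ∉ range b) (t : ℂ) :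
    ∃ M ρ : ℝ, 0 < ρ ∧ ∀ v : ℂ, ρ < ‖v‖ → ‖W (v, ω, t)‖ * ‖v‖ ≤ M ∧ ‖C (v, ω, t)‖ * ‖v‖ ≤ M ∧
      ‖V (v, ω, t)‖ ≤ M * ‖v‖ ∧ ‖V (v, ω, t) + v * D (v, ω, t)‖ ≤ M := by
  obtain ⟨m1, m2, m3, m4, m5, -, -⟩ := nf_mem h
  obtain ⟨M1, ρ1, hρ1, hM1⟩ := aa_grow_v m1 hω t
  obtain ⟨M2, ρ2, hρ2, hM2⟩ := aa_grow_v m2 hω t
  obtain ⟨M4, ρ4, hρ4, hM4⟩ := aa_grow_v m4 hω t
  obtain ⟨M5, ρ5, hρ5, hM5⟩ := aa_grow_v m5 hω t
  have hd : (1 : ℤ) ≤ d := by exact_mod_cast h.hd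
  refine ⟨|M1| + |M2| + |M4| + |M5| + ‖ω‖ * |M2|, ρ1 + ρ2 + ρ4 + ρ5 + 1, by positivity,
    fun v hv => ?_⟩
  have hv1 : 1 ≤ ‖v‖ := by linarith
  have h1 := grow_const (by omega) hv1 (hM1 v (by linarith))
  have h2 := grow_const (by omega) hv1 (hM2 v (by linarith))
  have h4 := grow_const (by omega) hv1 (hM4 v (by linarith))
  have h5 := grow_inv (by omega) hv1 (hM5 v (by linarith))
  simp only at h2 h4
  have e1 := abs_nonneg M1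
  have e2 := abs_nonneg M2
  have e4 := abs_nonneg M4
  have e5 := abs_nonneg M5
  have e6 : 0 ≤ ‖ω‖ * |M2| := by positivity
  refine ⟨?_, by linarith, ?_, by linarith⟩
  · have h3 : v * W (v, ω, t) = (ω * V (v, ω, t) + v * W (v, ω, t) + v * ω * D (v, ω, t)) -
        ω * (V (v, ω, t) + v * D (v, ω, t)) := by ring
    calc ‖W (v, ω, t)‖ * ‖v‖ = ‖v * W (v, ω, t)‖ := by rw [norm_mul, mul_comm]
      _ = ‖(ω * V (v, ω, t) + v * W (v, ω, t) + v * ω * D (v, ω, t)) -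
        ω * (V (v, ω, t) + v * D (v, ω, t))‖ := by rw [← h3]
      _ ≤ ‖ω * V (v, ω, t) + v * W (v, ω, t) + v * ω * D (v, ω, t)‖ +
        ‖ω * (V (v, ω, t) + v * D (v, ω, t))‖ := norm_sub_le _ _
      _ ≤ |M4| + ‖ω‖ * |M2| := by
        rw [norm_mul ω]
        exact add_le_add h4 (mul_le_mul_of_nonneg_left h2 (norm_nonneg _))
      _ ≤ _ := by linarith
  · have h3 : V (v, ω, t) = (V (v, ω, t) + v * D (v, ω, t)) - v * D (v, ω, t) := by ring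
    calc ‖V (v, ω, t)‖ = ‖(V (v, ω, t) + v * D (v, ω, t)) - v * D (v, ω, t)‖ := by rw [← h3]
      _ ≤ ‖V (v, ω, t) + v * D (v, ω, t)‖ + ‖v * D (v, ω, t)‖ := norm_sub_le _ _
      _ ≤ |M2| + ‖v‖ * |M1| := by
        rw [norm_mul v]
        exact add_le_add h2 (mul_le_mul_of_nonneg_left h1 (norm_nonneg _))
      _ ≤ (|M1| + |M2| + |M4| + |M5| + ‖ω‖ * |M2|) * ‖v‖ := by
        nlinarith [mul_le_mul_of_nonneg_left hv1 e2, mul_nonneg e4 (norm_nonneg v),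
          mul_nonneg e5 (norm_nonneg v), mul_nonneg e6 (norm_nonneg v)]

theorem nf_reg_v (ha : Function.Injective a) (h : NegField a b z z' d V W C D) (i : Fin 4)
    {ω : ℂ} (hω : ω ∉ range b) :
    ∃ M δ : ℝ, 0 < δ ∧ ∀ β : ℂ, 0 < ‖β‖ → ‖β‖ < δ → ∀ X : ℂ, ‖X‖ ≤ 1 →
      ‖V (a i + β, ω, z i + β ^ 3 * X)‖ ≤ M ∧ ‖W (a i + β, ω, z i + β ^ 3 * X)‖ ≤ M ∧
      ‖(C (a i + β, ω, z i + β ^ 3 * X) -
        3 * (β ^ 3 * X) * (V (a i + β, ω, z i + β ^ 3 * X) / β)) / β ^ 3‖ ≤ M := by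
  obtain ⟨m1, m2, m3, m4, m5, m6, -⟩ := nf_mem h
  obtain ⟨M1, δ1, hδ1, hM1⟩ := aa_reg_v ha m1 i hω
  obtain ⟨M2, δ2, hδ2, hM2⟩ := aa_reg_v ha m2 i hω
  obtain ⟨M3, δ3, hδ3, hM3⟩ := aa_reg_v ha m3 i hω
  obtain ⟨M6, δ6, hδ6, hM6⟩ := aa_reg_v ha (m6 i) i hω
  refine ⟨|M1| * (‖a i‖ + 1) + |M1| * ‖ω‖ + |M2| + |M3| + |M6|,
    min (min δ1 δ2) (min (min δ3 δ6) 1), by positivity, fun β hβ hβ' X hX => ?_⟩
  have hb1 : ‖β‖ < δ1 := hβ'.trans_le ((min_le_left _ _).trans (min_le_left _ _))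
  have hb2 : ‖β‖ < δ2 := hβ'.trans_le ((min_le_left _ _).trans (min_le_right _ _))
  have hb3 : ‖β‖ < δ3 := hβ'.trans_le ((min_le_right _ _).trans
    ((min_le_left _ _).trans (min_le_left _ _)))
  have hb6 : ‖β‖ < δ6 := hβ'.trans_le ((min_le_right _ _).trans
    ((min_le_left _ _).trans (min_le_right _ _)))
  have hb7 : ‖β‖ < 1 := hβ'.trans_le ((min_le_right _ _).trans (min_le_right _ _))
  have h1 := (hM1 β hβ hb1 X hX).trans (le_abs_self M1)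
  have h2 := (hM2 β hβ hb2 X hX).trans (le_abs_self M2)
  have h3 := (hM3 β hβ hb3 X hX).trans (le_abs_self M3)
  have h6 := (hM6 β hβ hb6 X hX).trans (le_abs_self M6)
  simp only [add_sub_cancel_left] at h2 h3 h6
  set p : ℂ × ℂ × ℂ := (a i + β, ω, z i + β ^ 3 * X) with hp
  have hv : ‖a i + β‖ ≤ ‖a i‖ + 1 := (norm_add_le _ _).trans (by linarith)
  have e1 := abs_nonneg M1
  have e2 := abs_nonneg M2
  have e3 := abs_nonneg M3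
  have e6 := abs_nonneg M6
  have f1 : 0 ≤ |M1| * (‖a i‖ + 1) := by positivity
  have f2 : 0 ≤ |M1| * ‖ω‖ := by positivity
  refine ⟨?_, ?_, ?_⟩
  · have h4 : V p = (V p + (a i + β) * D p) - (a i + β) * D p := by ring
    calc ‖V p‖ = ‖(V p + (a i + β) * D p) - (a i + β) * D p‖ := by rw [← h4]
      _ ≤ ‖V p + (a i + β) * D p‖ + ‖(a i + β) * D p‖ := norm_sub_le _ _
      _ ≤ |M2| + (‖a i‖ + 1) * |M1| := by
        rw [norm_mul (a i + β)]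
        exact add_le_add h2 (mul_le_mul hv h1 (norm_nonneg _) (by positivity))
      _ ≤ _ := by nlinarith
  · have h4 : W p = (W p + ω * D p) - ω * D p := by ring
    calc ‖W p‖ = ‖(W p + ω * D p) - ω * D p‖ := by rw [← h4]
      _ ≤ ‖W p + ω * D p‖ + ‖ω * D p‖ := norm_sub_le _ _
      _ ≤ |M3| + ‖ω‖ * |M1| := by
        rw [norm_mul ω]
        exact add_le_add h3 (mul_le_mul_of_nonneg_left h1 (norm_nonneg _))
      _ ≤ _ := by nlinarith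
  · exact h6.trans (by linarith)

theorem nf_reg_w (hb : Function.Injective b) (h : NegField a b z z' d V W C D) (j : Fin 4)
    {K : Set ℂ} (hK : IsCompact K) (hKa : K ⊆ (range a)ᶜ) :
    ∃ M δ : ℝ, 0 < δ ∧ ∀ v ∈ K, ∀ β : ℂ, 0 < ‖β‖ → ‖β‖ < δ → ∀ X : ℂ, ‖X‖ ≤ 1 →
      ‖W (v, b j + β, z' j + β ^ 3 * X)‖ ≤ M ∧
      ‖(C (v, b j + β, z' j + β ^ 3 * X) -
        3 * (β ^ 3 * X) * (W (v, b j + β, z' j + β ^ 3 * X) / β)) / β ^ 3‖ ≤ M := by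
  obtain ⟨m1, m2, m3, m4, m5, -, m7⟩ := nf_mem h
  obtain ⟨M1, δ1, hδ1, hM1⟩ := aa_reg_w hb m1 j hK hKa
  obtain ⟨M3, δ3, hδ3, hM3⟩ := aa_reg_w hb m3 j hK hKa
  obtain ⟨M7, δ7, hδ7, hM7⟩ := aa_reg_w hb (m7 j) j hK hKa
  refine ⟨|M1| * (‖b j‖ + 1) + |M3| + |M7|,
    min δ1 (min (min δ3 δ7) 1), by positivity, fun v hv β hβ hβ' X hX => ?_⟩
  have hb1 : ‖β‖ < δ1 := hβ'.trans_le (min_le_left _ _)
  have hb3 : ‖β‖ < δ3 := hβ'.trans_le ((min_le_right _ _).trans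
    ((min_le_left _ _).trans (min_le_left _ _)))
  have hb6 : ‖β‖ < δ7 := hβ'.trans_le ((min_le_right _ _).trans
    ((min_le_left _ _).trans (min_le_right _ _)))
  have hb7 : ‖β‖ < 1 := hβ'.trans_le ((min_le_right _ _).trans (min_le_right _ _))
  have h1 := (hM1 v hv β hβ hb1 X hX).trans (le_abs_self M1)
  have h3 := (hM3 v hv β hβ hb3 X hX).trans (le_abs_self M3)
  have h6 := (hM7 v hv β hβ hb6 X hX).trans (le_abs_self M7)
  simp only [add_sub_cancel_left] at h3 h6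
  set p : ℂ × ℂ × ℂ := (v, b j + β, z' j + β ^ 3 * X) with hp
  have hw : ‖b j + β‖ ≤ ‖b j‖ + 1 := (norm_add_le _ _).trans (by linarith)
  have e1 := abs_nonneg M1
  have e3 := abs_nonneg M3
  have e7 := abs_nonneg M7
  have f1 : 0 ≤ |M1| * (‖b j‖ + 1) := by positivity
  refine ⟨?_, ?_⟩
  · have h4 : W p = (W p + (b j + β) * D p) - (b j + β) * D p := by ring
    calc ‖W p‖ = ‖(W p + (b j + β) * D p) - (b j + β) * D p‖ := by rw [← h4]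
      _ ≤ ‖W p + (b j + β) * D p‖ + ‖(b j + β) * D p‖ := norm_sub_le _ _
      _ ≤ |M3| + (‖b j‖ + 1) * |M1| := by
        rw [norm_mul (b j + β)]
        exact add_le_add h3 (mul_le_mul hw h1 (norm_nonneg _) (by positivity))
      _ ≤ _ := by nlinarith
  · exact h6.trans (by linarith)

end Pool.Agent.H43.FX
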