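import Pool.Agent.H43.FX.LeadLUE
import Pool.Agent.H43.FX.AAFacts

/-!
# FX-NFENT : leading coefficients on `v = a_i` are entire sequences

Proof.  `lead_LUE` with `E = ℂ × ℂ`, `U = D2 b` (open: `range b` is finite, hence closed),
`c = a i`, a ball `ball (a i) r` containing no other element of `range a`, `Wh := (Wh, Ch)`,
`S = k D`, `Sh = k Dh`, `T = -d D`, `Th = -d Dh`, `f = φ`, `fh = φh`.  Points of
`(ball \ {a i}) × D2 b` are in `D3 a b` (as triples `(v, (ω, t))`).  `hL` is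
`NegField.ent` restricted (`LUE.mono`).  Analyticity: `rvw_analytic`.  The conclusion of
`lead_LUE` is the statement, up to `LUE.congr`/`funext` rewriting
(`-d Dh - n Vh = -n Vh - d Dh`).
-/

namespace Pool.Agent.H43.FX

open Set Metric Filter Topology

variable {a b z z' : Fin 4 → ℂ} {d : ℕ} {V W C D : ℂ × ℂ × ℂ → ℂ}

theorem nf_ent (h : NegField a b z z' d V W C D) {i : Fin 4} {n : ℤ}
    {Vh Wh Ch Dh : ℂ × ℂ × ℂ → ℂ} (mV : Vh ∈ Rvw (range a \ {a i}) (range b))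
    (mW : Wh ∈ Rvw (range a \ {a i}) (range b)) (mC : Ch ∈ Rvw (range a \ {a i}) (range b))
    (mD : Dh ∈ Rvw (range a \ {a i}) (range b))
    (e : ∀ p ∈ D3 a b, V p = (p.1 - a i) ^ (1 - n) * Vh p ∧
      W p = (p.1 - a i) ^ (-n) * Wh p ∧ C p = (p.1 - a i) ^ (-n) * Ch p ∧
      D p = (p.1 - a i) ^ (-n) * Dh p)
    {k : ℤ} {φ φh : ℂ × ℂ × ℂ → ℂ} (hφ : AA a b z z' k φ) {m : ℤ}
    (mφ : φh ∈ Rvw (range a \ {a i}) (range b))
    (eφ : ∀ p ∈ D3 a b, φ p = (p.1 - a i) ^ (-m) * φh p) :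
    LUE (D2 b) (sq (fun p => (Wh (a i, p), Ch (a i, p)))
      (fun p => (k : ℂ) * Dh (a i, p) - (m : ℂ) * Vh (a i, p))
      (fun p => -(n : ℂ) * Vh (a i, p) - (d : ℂ) * Dh (a i, p)) (fun p => φh (a i, p))) := by
  have hfin : (range a \ {a i}).Finite := (finite_range a).subset sdiff_subset
  obtain ⟨r, hr, hball⟩ := Metric.isOpen_iff.mp hfin.isClosed.isOpen_compl (a i)
    (fun hmem => hmem.2 rfl)
  have hDb : IsOpen (D2 b) := (finite_range b).isClosed.isOpen_compl.preimage continuous_fst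
  have hsub : (ball (a i) r \ {a i}) ×ˢ D2 b ⊆ D3 a b := by
    rintro ⟨v, y⟩ ⟨⟨hv, hv'⟩, hy⟩
    exact ⟨fun hmem => hball hv ⟨hmem, hv'⟩, hy⟩
  have hD3 : ∀ x ∈ ball (a i) r, x ≠ a i → ∀ y ∈ D2 b, (x, y) ∈ D3 a b :=
    fun x hx hxc y hy => hsub ⟨⟨hx, hxc⟩, hy⟩
  have han : ∀ {f : ℂ × ℂ × ℂ → ℂ}, f ∈ Rvw (range a \ {a i}) (range b) →
      AnalyticOnNhd ℂ f (ball (a i) r ×ˢ D2 b) := by
    rintro f hf ⟨v, ω, t⟩ ⟨hv, hω⟩
    exact rvw_analytic hf (hball hv) hω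
  have key := lead_LUE (E := ℂ × ℂ) (c := a i) (r := r) hr (U := D2 b) hDb (n := n) (e := m)
    (ξ := fun p => (V p, W p, C p)) (S := fun p => (k : ℂ) * D p)
    (T := fun p => -(d : ℂ) * D p) (f := φ) (Vh := Vh) (Sh := fun p => (k : ℂ) * Dh p)
    (Th := fun p => -(d : ℂ) * Dh p) (fh := φh) (Wh := fun p => (Wh p, Ch p))
    (han mV) (fun p hp => (han mW p hp).prod (han mC p hp))
    (fun p hp => analyticAt_const.mul (han mD p hp))
    (fun p hp => analyticAt_const.mul (han mD p hp)) (han mφ)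
    (fun x hx hxc y hy => by
      obtain ⟨h1, h2, h3, _⟩ := e _ (hD3 x hx hxc y hy)
      simp only [h1, h2, h3, Prod.smul_mk, smul_eq_mul])
    (fun x hx hxc y hy => by
      obtain ⟨_, _, _, h4⟩ := e _ (hD3 x hx hxc y hy)
      simp only [h4]; ring)
    (fun x hx hxc y hy => by
      obtain ⟨_, _, _, h4⟩ := e _ (hD3 x hx hxc y hy)
      simp only [h4]; ring)
    (fun x hx hxc y hy => eφ _ (hD3 x hx hxc y hy))
    (fun K hK => h.ent k φ hφ K (hK.trans hsub))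
  have hT : (fun p : ℂ × ℂ => -(n : ℂ) * Vh (a i, p) - (d : ℂ) * Dh (a i, p)) =
      fun p => -(d : ℂ) * Dh (a i, p) - (n : ℂ) * Vh (a i, p) := by
    funext p; ring
  rw [hT]
  exact key

end Pool.Agent.H43.FX
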