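import Pool.Agent.H43.FX.JetRat
import Pool.Agent.H43.FX.Order

/-!
# FX-NONVAN : orbits never reach a regular line `ω = b_j`

Notation: `ξ = (w,c)`, `p ∈ D2`; entire functions (`LUE.entSeq`, `gen_differentiable`)
`P₁ = gen (sq ξ δ τ (fun q => q.1) · p)`, `P₂ = gen (sq ξ δ τ 1 · p)`,
`t = gen (sq ξ 0 τ (fun q => q.2) · p)`, `E_l = gen (sq ξ (-3δ) τ y_l · p)`,
`H = gen (sq ξ (3τ) τ f_H · p)`, `f_H = (t-zi)^n Lam^d` (`ent_H j j' j'' 0`), with jets
`LUE.jet`.  `P₂ 0 = 1`, `P₁ 0 = p.1`.  Put `q_l = P₁ - b_l P₂`, a jet of `ω - b_l` (weight `δ`).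

(A) No common zeros.  For every `l`: `q_l^3 E_l` is a jet of weight `0` of
`(ω-b_l)^3 y_l = t - z'_l` (`Jet.mul` three times; weights `δ+δ+δ-3δ = 0`), as is `t - z'_l`; so
`q_l^3 E_l = t - z'_l` on `ℂ` (`Jet.unique`, identity theorem).  If `P₁(s₀) = P₂(s₀) = 0` then
all `q_l(s₀) = 0` and `t(s₀) = z'_l` for all `l`, contradicting injectivity of `z'`.
(B) Let `x = P₁/P₂` near `0`; `Jet ξ 0 τ p (fun q => q.1) x` by `Jet.div` (`f = 1`, `g = ω`).
(C) Factorisation of `w`: `w = (t-zi)^r h` on `D2`, `3r ≥ n` (`div_w`), and `w = (ω-b_j) wh`.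
Claim: there is `hh ∈ RatX (range b \ {b j}) Kt` with `h = (ω-b_j) hh` on `D2`.  By
`exists_order` for `h` at `b j` (`U = univ`, `o = 0`): if `h = 0` on `D2`, `hh = 0`.  Otherwise
`h = (ω-b_j)^{-m} h'`, `h'(b_j,t₁) ≠ 0`; if `m ≥ 0` then `(t-zi)^r h' = (ω-b_j)^{1+m} wh → 0` as
`ω → b_j`, so the polynomial `h'(b_j,t)` vanishes for `t ≠ zi`, hence is `0`: contradiction.  So
`m ≤ -1`, `hh = (ω-b_j)^{-m-1}h'`.
Hence `w^3 = (t-zi)^n (ω-b_j)^3 B` on `D2`, `B = (t-zi)^{3r-n} hh^3 ∈ RatX (range b\{b j}) Kt`.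
(D) Jets of weight `3τ` of `w^3 Lam^d`: `(x')^3 Lam(x,t)^d` (`Jet.deriv` of `x` is a jet of
weight `τ` of `w`; `jet_rat` for `Lam`), and `H · (x-b_j)^3 B(x,t)`
(`f_H · (ω-b_j)^3 B = w^3 Lam^d`).  By `Jet.unique`:
`(x')^3 Lam(x,t)^d = H (x-b_j)^3 B(x,t)` near `0`.                                       (*)
(E) Suppose `q_j(s₀) = 0`.  By (A) `P₂(s₀) ≠ 0` and for `l ≠ j`,
`q_l(s₀) = (b_j-b_l)P₂(s₀) ≠ 0`.  Let `Ω = {s | P₂ s ≠ 0 ∧ ∀ l ≠ j, q_l s ≠ 0}`, an open set
containing `0` and `s₀`, with countable complement (zeros of nonzero entire functions; each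
is not identically zero since it is nonzero at `0`, as `p ∈ D2`), so it is preconnected
(`Set.Countable.isPathConnected_compl_of_one_lt_rank`).  On `Ω`, `x = P₁/P₂` is analytic,
`x ∉ range b \ {b_j}`, and both sides of (*) are analytic, so (*) holds on `Ω`.
Near `s₀`: `x - b_j = (s-s₀)^μ k(s)`, `k(s₀) ≠ 0`, `μ ≥ 1` finite (otherwise `x = b_j` near
`s₀`, so `q_j = 0` on `ℂ` by the identity theorem, but `q_j 0 = p.1 - b_j ≠ 0`).
`Lam(b_j, t(s₀)) = z'_{j''} - z'_{j'} ≠ 0`.  Left-hand side of (*): exact order `3(μ-1)`;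
right-hand side: divisible by `(s-s₀)^{3μ}`.  Contradiction.
(`x' = (s-s₀)^{μ-1}(μ k + (s-s₀)k')`.)
-/

namespace Pool.Agent.H43.FX

open Set Metric Filter Topology

variable {b z' : Fin 4 → ℂ} {zi : ℂ} {n d : ℕ} {w c δ τ : ℂ × ℂ → ℂ}

lemma nv_countable {f : ℂ → ℂ} (hf : Differentiable ℂ f) {x : ℂ} (hx : f x ≠ 0) :
    {s | f s = 0}.Countable := by
  have h1 : AnalyticOnNhd ℂ f univ := fun x _ => hf.analyticAt x
  have h2 := h1.preimage_zero_mem_codiscrete (x := x) hx
  have h3 : ({s | f s = 0}ᶜ : Set ℂ) ∈ codiscrete ℂ := by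
    convert h2 using 1
    rfl
  exact (HereditarilyLindelofSpace.isLindelof _).countable_of_isDiscrete
    (compl_mem_codiscrete_iff.1 h3).2

lemma nv_local {y G K : ℂ → ℂ} {s₀ : ℂ} (hy : AnalyticAt ℂ y s₀) (hG : AnalyticAt ℂ G s₀)
    (hK : AnalyticAt ℂ K s₀) (hy0 : y s₀ = 0) (hne : ¬ ∀ᶠ s in 𝓝 s₀, y s = 0) (hG0 : G s₀ ≠ 0)
    (h : ∀ᶠ s in 𝓝 s₀, (deriv y s) ^ 3 * G s = y s ^ 3 * K s) : False := by
  obtain ⟨μ, k, hk, hk0, hyk⟩ := hy.exists_eventuallyEq_pow_smul_nonzero_iff.2 hne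
  have hμ : μ ≠ 0 := by
    rintro rfl
    have := hyk.self_of_nhds
    simp only [pow_zero, one_smul] at this
    exact hk0 (by rw [← this, hy0])
  obtain ⟨ν, rfl⟩ := Nat.exists_eq_succ_of_ne_zero hμ
  have hka : ∀ᶠ s in 𝓝 s₀, AnalyticAt ℂ k s := hk.eventually_analyticAt
  have hd : ∀ᶠ s in 𝓝 s₀, deriv y s =
      (s - s₀) ^ ν * (((ν : ℂ) + 1) * k s + (s - s₀) * deriv k s) := by
    filter_upwards [hyk.eventually_nhds, hka] with s h1 h2
    have h1' : y =ᶠ[𝓝 s] fun z => (z - s₀) ^ (ν + 1) • k z := h1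
    have h3 : deriv y s = deriv (fun z => (z - s₀) ^ (ν + 1) • k z) s := h1'.deriv_eq
    have h4 : HasDerivAt (fun z => (z - s₀) ^ (ν + 1) • k z)
        (((ν + 1 : ℕ) : ℂ) * (s - s₀) ^ ν * k s + (s - s₀) ^ (ν + 1) * deriv k s) s := by
      have h5 : HasDerivAt (fun z => (z - s₀) ^ (ν + 1)) (((ν + 1 : ℕ) : ℂ) * (s - s₀) ^ ν) s := by
        have := ((hasDerivAt_id s).sub_const s₀).fun_pow (ν + 1)
        simpa using this
      exact h5.mul h2.differentiableAt.hasDerivAt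
    rw [h3, h4.deriv]
    push_cast
    ring
  have hlim1 : ∀ᶠ s in 𝓝[≠] s₀, (((ν : ℂ) + 1) * k s + (s - s₀) * deriv k s) ^ 3 * G s =
      (s - s₀) ^ 3 * (k s ^ 3 * K s) := by
    have hne' : ∀ᶠ s in 𝓝[≠] s₀, s ≠ s₀ := eventually_mem_nhdsWithin
    filter_upwards [eventually_nhdsWithin_of_eventually_nhds h,
      eventually_nhdsWithin_of_eventually_nhds hd,
      eventually_nhdsWithin_of_eventually_nhds hyk, hne'] with s h1 h2 h3 h4
    rw [h2, h3] at h1
    have h5 : (s - s₀) ^ (3 * ν) ≠ 0 := pow_ne_zero _ (sub_ne_zero.2 h4)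
    apply mul_left_cancel₀ h5
    simp only [smul_eq_mul] at h1
    calc (s - s₀) ^ (3 * ν) * ((((ν : ℂ) + 1) * k s + (s - s₀) * deriv k s) ^ 3 * G s)
        = ((s - s₀) ^ ν * (((ν : ℂ) + 1) * k s + (s - s₀) * deriv k s)) ^ 3 * G s := by
          ring
      _ = ((s - s₀) ^ (ν + 1) * k s) ^ 3 * K s := h1
      _ = _ := by ring
  have hk' : AnalyticAt ℂ (deriv k) s₀ := hk.deriv
  have c1 : ContinuousAt (fun s => (((ν : ℂ) + 1) * k s + (s - s₀) * deriv k s) ^ 3 * G s) s₀ := by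
    have := hk.continuousAt
    have := hk'.continuousAt
    have := hG.continuousAt
    fun_prop
  have c2 : ContinuousAt (fun s => (s - s₀) ^ 3 * (k s ^ 3 * K s)) s₀ := by
    have := hk.continuousAt
    have := hK.continuousAt
    fun_prop
  have t1 := (c1.tendsto.mono_left (nhdsWithin_le_nhds (s := {s₀}ᶜ))).congr' hlim1
  have t2 := c2.tendsto.mono_left (nhdsWithin_le_nhds (s := {s₀}ᶜ))
  have e := tendsto_nhds_unique t1 t2
  simp only [sub_self, zero_mul, add_zero, ne_eq, OfNat.ofNat_ne_zero, not_false_eq_true,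
    zero_pow, mul_eq_zero, pow_eq_zero_iff] at e
  rcases e with (e | e) | e
  · exact Nat.cast_add_one_ne_zero ν e
  · exact hk0 e
  · exact hG0 e

section memb

variable {E : Type*} {P : Set ℂ} {𝒦 : Subalgebra ℂ (E → ℂ)} {f g : ℂ × E → ℂ}

lemma nv_mul (hf : f ∈ RatX P 𝒦) (hg : g ∈ RatX P 𝒦) : (fun p => f p * g p) ∈ RatX P 𝒦 :=
  (RatX P 𝒦).mul_mem hf hg

lemma nv_sub (hf : f ∈ RatX P 𝒦) (hg : g ∈ RatX P 𝒦) : (fun p => f p - g p) ∈ RatX P 𝒦 :=
  (RatX P 𝒦).sub_mem hf hg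

lemma nv_pow (hf : f ∈ RatX P 𝒦) (k : ℕ) : (fun p => f p ^ k) ∈ RatX P 𝒦 :=
  (RatX P 𝒦).pow_mem hf k

lemma nv_fst (x : ℂ) : (fun p : ℂ × E => p.1 - x) ∈ RatX P 𝒦 :=
  nv_sub ratx_fst (ratx_const x)

end memb

lemma nv_snd {P : Set ℂ} (x : ℂ) : (fun p : ℂ × ℂ => p.2 - x) ∈ RatX P Kt :=
  nv_sub (ratx_pull (k := fun t => t) (Algebra.subset_adjoin rfl)) (ratx_const x)

lemma nv_yy {P : Set ℂ} {x y : ℂ} (hy : y ∈ P) :
    (fun p : ℂ × ℂ => (p.2 - x) / (p.1 - y) ^ 3) ∈ RatX P Kt := by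
  have e : (fun p : ℂ × ℂ => (p.2 - x) / (p.1 - y) ^ 3) =
      fun p : ℂ × ℂ => (p.2 - x) * ((p.1 - y)⁻¹) ^ 3 := by
    funext p
    rw [inv_pow, div_eq_mul_inv]
  rw [e]
  exact nv_mul (nv_snd x) (nv_pow (ratx_inv hy) 3)

lemma nv_Lam (hb : Function.Injective b) {j j' j'' : Fin 4} (h1 : j ≠ j') (h2 : j ≠ j'') :
    (fun q => Lam b z' j j' j'' q) ∈ RatX (range b \ {b j}) Kt := by
  unfold Lam
  have m1 : b j' ∈ range b \ {b j} := ⟨mem_range_self _, fun h => h1 (hb h).symm⟩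
  have m2 : b j'' ∈ range b \ {b j} := ⟨mem_range_self _, fun h => h2 (hb h).symm⟩
  exact nv_sub (nv_mul (ratx_const _) (nv_yy m1)) (nv_mul (ratx_const _) (nv_yy m2))

/-- the polar line is divisible by the other factor -/
lemma nv_factor (h : Lvl2 b z' zi n d w c δ τ) {j : Fin 4}
    (hreg : ∃ wh ∈ RatX (range b \ {b j}) Kt, ∀ p ∈ D2 b, w p = (p.1 - b j) * wh p) :
    ∃ B ∈ RatX (range b \ {b j}) Kt, ∀ p ∈ D2 b,
      w p ^ 3 = (p.2 - zi) ^ n * ((p.1 - b j) ^ 3 * B p) := by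
  obtain ⟨r, h₁, hnr, hh₁, hw₁⟩ := h.div_w
  obtain ⟨wh, hwh, hw⟩ := hreg
  have hfin : (range b).Finite := finite_range b
  have key : ∃ hh ∈ RatX (range b \ {b j}) Kt, ∀ p ∈ D2 b, h₁ p = (p.1 - b j) * hh p := by
    rcases exists_order (ι := Unit) hfin (mem_range_self j) (𝒦 := Kt) (U := univ)
      (fun k hk y _ => kt_analytic hk y) (f := fun _ => h₁) (fun _ => hh₁) (fun _ => 0) with h0 | h0
    · refine ⟨fun _ => 0, ratx_const 0, ?_⟩
      intro p hp
      have := h0 () p.1 hp p.2 (mem_univ _)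
      simp only [Prod.mk.eta] at this
      rw [this, mul_zero]
    · obtain ⟨m, fh, hfh, hf, _, y₀, _, hy₀⟩ := h0
      have hm : m ≤ -1 := by
        by_contra hm
        push Not at hm
        obtain ⟨k, rfl⟩ := Int.eq_ofNat_of_zero_le (show 0 ≤ m by omega)
        -- the polynomial vanishes
        have hz : ∀ t, (t - zi) ^ r * fh () (b j, t) = 0 := by
          intro t
          have hc1 : ContinuousAt (fun x : ℂ => (t - zi) ^ r * fh () (x, t)) (b j) := by
            have h1 : ContinuousAt (fh ()) (b j, t) :=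
              (ratkt_analytic (hfh ()) (x := b j) (t := t) (fun h => h.2 rfl)).continuousAt
            have h2 : ContinuousAt (fun x : ℂ => (x, t)) (b j) := by fun_prop
            have h3 : ContinuousAt (fun x : ℂ => fh () (x, t)) (b j) :=
              ContinuousAt.comp (f := fun x : ℂ => (x, t)) (g := fh ()) h1 h2
            exact continuousAt_const.mul h3
          have hc2 : ContinuousAt (fun x : ℂ => (x - b j) ^ (k + 1) * wh (x, t)) (b j) := by
            have h1 : ContinuousAt wh (b j, t) :=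
              (ratkt_analytic hwh (x := b j) (t := t) (fun h => h.2 rfl)).continuousAt
            have h2 : ContinuousAt (fun x : ℂ => (x, t)) (b j) := by fun_prop
            have h3 : ContinuousAt (fun x : ℂ => wh (x, t)) (b j) :=
              ContinuousAt.comp (f := fun x : ℂ => (x, t)) (g := wh) h1 h2
            have h4 : ContinuousAt (fun x : ℂ => (x - b j) ^ (k + 1)) (b j) := by fun_prop
            exact h4.mul h3
          have hev : ∀ᶠ x in 𝓝[≠] (b j), (t - zi) ^ r * fh () (x, t) =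
              (x - b j) ^ (k + 1) * wh (x, t) := by
            have h1 : ∀ᶠ x in 𝓝 (b j), x ∉ range b \ {b j} :=
              (hfin.subset sdiff_subset).isClosed.isOpen_compl.mem_nhds
                (fun h => h.2 rfl : b j ∉ range b \ {b j})
            have h2 : ∀ᶠ x in 𝓝[≠] (b j), x ≠ b j := eventually_mem_nhdsWithin
            filter_upwards [eventually_nhdsWithin_of_eventually_nhds h1, h2] with x h3 h4
            have h5 : x ∉ range b := fun h => h3 ⟨h, h4⟩
            have e1 := hw₁ (x, t) h5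
            have e2 := hw (x, t) h5
            have e3 := hf () x h5 t (mem_univ _)
            simp only at e1 e2 e3
            have h6 : x - b j ≠ 0 := sub_ne_zero.2 h4
            have e4 : (x - b j) ^ ((0 : ℤ) - (k : ℤ)) = ((x - b j) ^ k)⁻¹ := by
              rw [zero_sub, zpow_neg, zpow_natCast]
            have e5 : (t - zi) ^ r * (((x - b j) ^ k)⁻¹ * fh () (x, t)) =
                (x - b j) * wh (x, t) := by
              rw [← e2, e1, e3]
              congr 2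
              exact e4.symm
            have h7 : (x - b j) ^ k ≠ 0 := pow_ne_zero _ h6
            calc (t - zi) ^ r * fh () (x, t)
                = (x - b j) ^ k * ((t - zi) ^ r * (((x - b j) ^ k)⁻¹ * fh () (x, t))) := by
                  field_simp
              _ = (x - b j) ^ k * ((x - b j) * wh (x, t)) := by rw [e5]
              _ = _ := by ring
          have t1 := (hc1.tendsto.mono_left (nhdsWithin_le_nhds (s := {b j}ᶜ))).congr' hev
          have t2 := hc2.tendsto.mono_left (nhdsWithin_le_nhds (s := {b j}ᶜ))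
          have e := tendsto_nhds_unique t1 t2
          simp only [sub_self] at e
          rw [e, zero_pow (Nat.succ_ne_zero k), zero_mul]
        have hz' : ∀ t, t ≠ zi → fh () (b j, t) = 0 := by
          intro t ht
          rcases mul_eq_zero.1 (hz t) with h1 | h1
          · exact absurd h1 (pow_ne_zero r (sub_ne_zero.2 ht))
          · exact h1
        have hcont : Continuous (fun t => fh () (b j, t)) := by
          rw [continuous_iff_continuousAt]
          intro t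
          exact (kt_analytic (ratx_restrict (hfh ()) (b j)) t).continuousAt
        have hall : (fun t => fh () (b j, t)) = fun _ => 0 := by
          apply hcont.ext_on (dense_compl_singleton zi) continuous_const
          intro t ht
          exact hz' t ht
        exact hy₀ (congrFun hall y₀)
      obtain ⟨k, hk⟩ := Int.eq_ofNat_of_zero_le (show 0 ≤ -m - 1 by omega)
      refine ⟨fun p => (p.1 - b j) ^ k * fh () p, nv_mul (nv_pow (nv_fst _) k) (hfh ()), ?_⟩
      intro p hp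
      have h1 := hf () p.1 hp p.2 (mem_univ _)
      simp only [Prod.mk.eta] at h1
      have h2 : (0 : ℤ) - m = ((k + 1 : ℕ) : ℤ) := by push_cast; omega
      rw [h1, h2, zpow_natCast]
      ring
  obtain ⟨hh, hhm, hhe⟩ := key
  refine ⟨fun p => (p.2 - zi) ^ (3 * r - n) * hh p ^ 3,
    nv_mul (nv_pow (nv_snd zi) _) (nv_pow hhm 3), ?_⟩
  intro p hp
  rw [hw₁ p hp, hhe p hp]
  have e : (p.2 - zi) ^ (3 * r) = (p.2 - zi) ^ n * (p.2 - zi) ^ (3 * r - n) := by
    rw [← pow_add]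
    congr 1
    omega
  calc ((p.2 - zi) ^ r * ((p.1 - b j) * hh p)) ^ 3
      = (p.2 - zi) ^ (3 * r) * ((p.1 - b j) ^ 3 * hh p ^ 3) := by ring
    _ = _ := by rw [e]; ring


lemma nv_fin : ∀ j : Fin 4, ∃ j' j'' : Fin 4, j ≠ j' ∧ j ≠ j'' ∧ j' ≠ j'' := by
  decide

theorem nonvan (h : Lvl2 b z' zi n d w c δ τ) (hb : Function.Injective b)
    (hz' : Function.Injective z') {j : Fin 4}
    (hreg : ∃ wh ∈ RatX (range b \ {b j}) Kt, ∀ p ∈ D2 b, w p = (p.1 - b j) * wh p)
    {p : ℂ × ℂ} (hp : p ∈ D2 b) (s : ℂ) :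
    gen (fun m => sq (fun q => (w q, c q)) δ τ (fun q => q.1) m p) s -
      b j * gen (fun m => sq (fun q => (w q, c q)) δ τ (fun _ => 1) m p) s ≠ 0 := by
  obtain ⟨B, hB, hwB⟩ := nv_factor h hreg
  obtain ⟨j', j'', hj1, hj2, hj3⟩ := nv_fin j
  have hfin : (range b).Finite := finite_range b
  have hU : IsOpen (D2 b) := hfin.isClosed.isOpen_compl.preimage continuous_fst
  have aw : AnalyticOnNhd ℂ w (D2 b) := fun q hq => rw_analytic h.mw (x := q.1) (t := q.2) hq
  have ac : AnalyticOnNhd ℂ c (D2 b) := fun q hq => rw_analytic h.mc (x := q.1) (t := q.2) hq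
  have aδ : AnalyticOnNhd ℂ δ (D2 b) := fun q hq => rw_analytic h.mδ (x := q.1) (t := q.2) hq
  have aτ : AnalyticOnNhd ℂ τ (D2 b) := fun q hq => rw_analytic h.mτ (x := q.1) (t := q.2) hq
  have aξ : AnalyticOnNhd ℂ (fun q => (w q, c q)) (D2 b) := fun q hq => (aw q hq).prod (ac q hq)
  have a1 : AnalyticOnNhd ℂ (fun q : ℂ × ℂ => q.1) (D2 b) := fun q _ => analyticAt_fst
  have a2 : AnalyticOnNhd ℂ (fun q : ℂ × ℂ => q.2) (D2 b) := fun q _ => analyticAt_snd
  have a0 : ∀ k : ℂ, AnalyticOnNhd ℂ (fun _ : ℂ × ℂ => k) (D2 b) := fun k q _ => analyticAt_const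
  have a3δ : AnalyticOnNhd ℂ (fun q => -3 * δ q) (D2 b) := fun q hq =>
    analyticAt_const.mul (aδ q hq)
  have a3τ : AnalyticOnNhd ℂ (fun q => 3 * τ q) (D2 b) := fun q hq =>
    analyticAt_const.mul (aτ q hq)
  have hne : ∀ q ∈ D2 b, ∀ l, q.1 - b l ≠ 0 := fun q hq l h0 =>
    hq ⟨l, (sub_eq_zero.1 h0).symm⟩
  have ay : ∀ l, AnalyticOnNhd ℂ (fun q : ℂ × ℂ => (q.2 - z' l) / (q.1 - b l) ^ 3) (D2 b) := by
    intro l q hq
    exact ((a2 q hq).sub analyticAt_const).div (((a1 q hq).sub analyticAt_const).pow 3)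
      (pow_ne_zero _ (hne q hq l))
  -- the jets
  set P₁ := gen (fun m => sq (fun q => (w q, c q)) δ τ (fun q => q.1) m p) with hP₁
  set P₂ := gen (fun m => sq (fun q => (w q, c q)) δ τ (fun _ => 1) m p) with hP₂
  set tt := gen (fun m => sq (fun q => (w q, c q)) (fun _ => 0) τ (fun q => q.2) m p) with htt
  set H := gen (fun m => sq (fun q => (w q, c q)) (fun q => 3 * τ q) τ
    (fun q => (q.2 - zi) ^ n * ((q.2 - z' j) / (q.1 - b j) ^ 3) ^ 0 *
        (Lam b z' j j' j'' q) ^ d) m p) with hH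
  have J1 : Jet (fun q => (w q, c q)) δ τ p (fun q => q.1) P₁ := h.ent_om.jet hp
  have J2 : Jet (fun q => (w q, c q)) δ τ p (fun _ => 1) P₂ := h.ent_one.jet hp
  have Jt : Jet (fun q => (w q, c q)) (fun _ => 0) τ p (fun q => q.2) tt := h.ent_t.jet hp
  have JH : Jet (fun q => (w q, c q)) (fun q => 3 * τ q) τ p
      (fun q => (q.2 - zi) ^ n * ((q.2 - z' j) / (q.1 - b j) ^ 3) ^ 0 *
        (Lam b z' j j' j'' q) ^ d) H := (h.ent_H j j' j'' 0 hj1 hj2 hj3).jet hp
  have D1 : Differentiable ℂ P₁ := gen_differentiable (h.ent_om.entSeq hp)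
  have DD2 : Differentiable ℂ P₂ := gen_differentiable (h.ent_one.entSeq hp)
  have Dt : Differentiable ℂ tt := gen_differentiable (h.ent_t.entSeq hp)
  have DH : Differentiable ℂ H := gen_differentiable ((h.ent_H j j' j'' 0 hj1 hj2 hj3).entSeq hp)
  have e1 : P₁ 0 = p.1 := J1.eval_zero
  have e2 : P₂ 0 = 1 := J2.eval_zero
  -- (A) no common zeros
  have Jq : ∀ l, Jet (fun q => (w q, c q)) δ τ p (fun q => q.1 + -(b l) * 1)
      (fun s => P₁ s + -(b l) * P₂ s) := fun l =>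
    J1.add hU hp aξ aδ aτ a1 (a0 _) (J2.smul hU hp aξ aδ aτ (a0 1) (-(b l)))
  have hA : ∀ l, ∀ s, (P₁ s + -(b l) * P₂ s) * ((P₁ s + -(b l) * P₂ s) * ((P₁ s + -(b l) * P₂ s) *
      gen (fun m => sq (fun q => (w q, c q)) (fun q => -3 * δ q) τ
        (fun q => (q.2 - z' l) / (q.1 - b l) ^ 3) m p) s)) = tt s + -(z' l) := by
    intro l
    set E := gen (fun m => sq (fun q => (w q, c q)) (fun q => -3 * δ q) τ
        (fun q => (q.2 - z' l) / (q.1 - b l) ^ 3) m p) with hE
    have JE : Jet (fun q => (w q, c q)) (fun q => -3 * δ q) τ p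
        (fun q => (q.2 - z' l) / (q.1 - b l) ^ 3) E := (h.ent_z l).jet hp
    have DE : Differentiable ℂ E := gen_differentiable ((h.ent_z l).entSeq hp)
    have aq : AnalyticOnNhd ℂ (fun q : ℂ × ℂ => q.1 + -(b l) * 1) (D2 b) := fun q hq =>
      (a1 q hq).add analyticAt_const
    have m1 := Jet.mul hU hp aξ aδ a3δ aτ aq (ay l) (Jq l) JE
    have s1 : AnalyticOnNhd ℂ (fun q => δ q + -3 * δ q) (D2 b) := fun q hq =>
      (aδ q hq).add (a3δ q hq)
    have f1 : AnalyticOnNhd ℂ (fun q : ℂ × ℂ => (q.1 + -(b l) * 1) *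
        ((q.2 - z' l) / (q.1 - b l) ^ 3)) (D2 b) := fun q hq => (aq q hq).mul (ay l q hq)
    have m2 := Jet.mul hU hp aξ aδ s1 aτ aq f1 (Jq l) m1
    have s2 : AnalyticOnNhd ℂ (fun q => δ q + (δ q + -3 * δ q)) (D2 b) := fun q hq =>
      (aδ q hq).add (s1 q hq)
    have f2 : AnalyticOnNhd ℂ (fun q : ℂ × ℂ => (q.1 + -(b l) * 1) * ((q.1 + -(b l) * 1) *
        ((q.2 - z' l) / (q.1 - b l) ^ 3))) (D2 b) := fun q hq => (aq q hq).mul (f1 q hq)
    have m3 := Jet.mul hU hp aξ aδ s2 aτ aq f2 (Jq l) m2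
    have m4 : Jet (fun q => (w q, c q)) (fun _ => 0) τ p (fun q => q.2 + -(z' l))
        (fun s => (P₁ s + -(b l) * P₂ s) * ((P₁ s + -(b l) * P₂ s) *
          ((P₁ s + -(b l) * P₂ s) * E s))) := by
      refine m3.congr hU hp ?_ ?_
      · intro q hq
        have h1 := hne q hq l
        show (q.1 + -(b l) * 1) * ((q.1 + -(b l) * 1) * ((q.1 + -(b l) * 1) *
          ((q.2 - z' l) / (q.1 - b l) ^ 3))) = q.2 + -(z' l)
        have h2 : q.1 + -(b l) * 1 = q.1 - b l := by ring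
        rw [h2]
        field_simp
        ring
      · intro q _
        show δ q + (δ q + (δ q + -3 * δ q)) = 0
        ring
    have m5 := Jt.add hU hp aξ (a0 0) aτ a2 (a0 _) (Jet.const (-(z' l)))
    have m6 := m4.unique m5
    have g1 : AnalyticOnNhd ℂ (fun s => (P₁ s + -(b l) * P₂ s) * ((P₁ s + -(b l) * P₂ s) *
          ((P₁ s + -(b l) * P₂ s) * E s))) univ := by
      intro x _
      apply Differentiable.analyticAt
      fun_prop
    have g2 : AnalyticOnNhd ℂ (fun s => tt s + -(z' l)) univ := by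
      intro x _
      apply Differentiable.analyticAt
      fun_prop
    intro s
    exact congrFun (g1.eq_of_eventuallyEq g2 m6) s
  have hno : ∀ s, P₁ s = 0 → P₂ s = 0 → False := by
    intro s h1 h2
    have h3 : ∀ l, tt s = z' l := by
      intro l
      have := hA l s
      rw [h1, h2] at this
      simp only [mul_zero, add_zero, zero_mul] at this
      linear_combination -this
    have h4 : z' 0 = z' 1 := by rw [← h3 0, ← h3 1]
    exact absurd (hz' h4) (by decide)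
  -- (B) the function x
  set x : ℂ → ℂ := fun s => P₁ s / P₂ s with hx
  have Jx : Jet (fun q => (w q, c q)) (fun _ => 0) τ p (fun q => q.1) x := by
    have h1 : Jet (fun q => (w q, c q)) (fun q => δ q + 0) τ p (fun q => 1 * q.1) P₁ := by
      refine J1.congr hU hp ?_ ?_
      · intro q _
        show q.1 = 1 * q.1
        ring
      · intro q _
        show δ q = δ q + 0
        ring
    exact Jet.div hU hp aξ aδ (a0 0) aτ (a0 1) a1 J2 h1 one_ne_zero
  -- (D)
  have Jx' : Jet (fun q => (w q, c q)) τ τ p w (deriv x) := by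
    refine Jx.deriv.congr hU hp ?_ ?_
    · intro q _
      show fderiv ℂ (fun q : ℂ × ℂ => q.1) q (w q, c q) + 0 * q.1 = w q
      rw [fderiv_fst]
      simp
    · intro q _
      show 0 + τ q = τ q
      ring
  have rLam : (fun q => Lam b z' j j' j'' q ^ d) ∈ RatX (range b \ {b j}) Kt :=
    nv_pow (nv_Lam hb hj1 hj2) d
  have rR : (fun q : ℂ × ℂ => (q.1 - b j) ^ 3 * B q) ∈ RatX (range b \ {b j}) Kt :=
    nv_mul (nv_pow (nv_fst _) 3) hB
  have hUP : ∀ q ∈ D2 b, q.1 ∉ range b \ {b j} := fun q hq h => hq h.1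
  have aR : ∀ g ∈ RatX (range b \ {b j}) Kt, AnalyticOnNhd ℂ g (D2 b) := fun g hg q hq =>
    ratkt_analytic hg (x := q.1) (t := q.2) (hUP q hq)
  have JL := jet_rat hU hUP aξ aτ hp Jx Jt rLam
  have JR := jet_rat hU hUP aξ aτ hp Jx Jt rR
  have aww : AnalyticOnNhd ℂ (fun q => w q * w q) (D2 b) := fun q hq => (aw q hq).mul (aw q hq)
  have awww : AnalyticOnNhd ℂ (fun q => w q * (w q * w q)) (D2 b) := fun q hq =>
    (aw q hq).mul (aww q hq)
  have sττ : AnalyticOnNhd ℂ (fun q => τ q + τ q) (D2 b) := fun q hq => (aτ q hq).add (aτ q hq)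
  have sτττ : AnalyticOnNhd ℂ (fun q => τ q + (τ q + τ q)) (D2 b) := fun q hq =>
    (aτ q hq).add (sττ q hq)
  have k1 := Jet.mul hU hp aξ aτ aτ aτ aw aw Jx' Jx'
  have k2 := Jet.mul hU hp aξ aτ sττ aτ aw aww Jx' k1
  have k3 := Jet.mul hU hp aξ sτττ (a0 0) aτ awww (aR _ rLam) k2 JL
  have afH : AnalyticOnNhd ℂ (fun q => (q.2 - zi) ^ n * ((q.2 - z' j) / (q.1 - b j) ^ 3) ^ 0 *
        (Lam b z' j j' j'' q) ^ d) (D2 b) := fun q hq =>
    ((((a2 q hq).sub analyticAt_const).pow n).mul ((ay j q hq).pow 0)).mul (aR _ rLam q hq)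
  have k4 := Jet.mul hU hp aξ a3τ (a0 0) aτ afH (aR _ rR) JH JR
  have k5 : Jet (fun q => (w q, c q)) (fun q => 3 * τ q + 0) τ p
      (fun q => (q.2 - zi) ^ n * ((q.2 - z' j) / (q.1 - b j) ^ 3) ^ 0 *
        (Lam b z' j j' j'' q) ^ d * ((q.1 - b j) ^ 3 * B q))
      (fun s => deriv x s * (deriv x s * deriv x s) * Lam b z' j j' j'' (x s, tt s) ^ d) := by
    refine k3.congr hU hp ?_ ?_
    · intro q hq
      show w q * (w q * w q) * Lam b z' j j' j'' q ^ d = _
      have h1 := hwB q hq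
      have h2 : w q * (w q * w q) = w q ^ 3 := by ring
      rw [h2, h1]
      ring
    · intro q _
      show τ q + (τ q + τ q) + 0 = 3 * τ q + 0
      ring
  have hstar : (fun s => deriv x s * (deriv x s * deriv x s) * Lam b z' j j' j'' (x s, tt s) ^ d)
      =ᶠ[𝓝 0] fun s => H s * ((x s - b j) ^ 3 * B (x s, tt s)) := k5.unique k4
  -- (E)
  intro hs
  have hq0 : ∀ l, P₁ 0 + -(b l) * P₂ 0 ≠ 0 := by
    intro l h0
    rw [e1, e2] at h0
    exact hne p hp l (by linear_combination h0)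
  have hP2s : P₂ s ≠ 0 := by
    intro h0
    rw [h0, mul_zero, sub_zero] at hs
    exact hno s hs h0
  set Ω : Set ℂ := {s | P₂ s ≠ 0 ∧ ∀ l, l ≠ j → P₁ s + -(b l) * P₂ s ≠ 0} with hΩ
  have Dq : ∀ l, Differentiable ℂ (fun s => P₁ s + -(b l) * P₂ s) := by
    intro l
    fun_prop
  have hΩo : IsOpen Ω := by
    have h1 : Ω = {s | P₂ s ≠ 0} ∩ ⋂ l : Fin 4, {s | l ≠ j → P₁ s + -(b l) * P₂ s ≠ 0} := by
      ext s
      simp [hΩ]
    rw [h1]
    apply IsOpen.inter
    · exact isOpen_ne.preimage DD2.continuous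
    · apply isOpen_iInter_of_finite
      intro l
      by_cases hl : l = j
      · have : {s | l ≠ j → P₁ s + -(b l) * P₂ s ≠ 0} = univ := by
          ext s; simp [hl]
        rw [this]
        exact isOpen_univ
      · have : {s | l ≠ j → P₁ s + -(b l) * P₂ s ≠ 0} = {s | P₁ s + -(b l) * P₂ s ≠ 0} := by
          ext s; simp [hl]
        rw [this]
        exact isOpen_ne.preimage (Dq l).continuous
  have hΩc : IsPreconnected Ω := by
    have h1 : Ωᶜ.Countable := by
      have h2 : Ωᶜ ⊆ {s | P₂ s = 0} ∪ ⋃ l : Fin 4, {s | P₁ s + -(b l) * P₂ s = 0} := by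
        intro s hs
        rw [mem_compl_iff, hΩ, mem_ofPred_eq, not_and_or] at hs
        rcases hs with hs | hs
        · left
          exact not_not.1 hs
        · right
          push Not at hs
          obtain ⟨l, _, hl⟩ := hs
          exact mem_iUnion.2 ⟨l, hl⟩
      refine Countable.mono h2 ((nv_countable DD2 (x := 0) (by rw [e2]; exact one_ne_zero)).union
        (countable_iUnion fun l => nv_countable (Dq l) (x := 0) (hq0 l)))
    have h3 := h1.isPathConnected_compl_of_one_lt_rank (by simp)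
    rw [compl_compl] at h3
    exact h3.isConnected.isPreconnected
  have h0Ω : (0 : ℂ) ∈ Ω := ⟨by rw [e2]; exact one_ne_zero, fun l _ => hq0 l⟩
  have hsj : P₁ s = b j * P₂ s := by linear_combination hs
  have hsΩ : s ∈ Ω := by
    refine ⟨hP2s, ?_⟩
    intro l hl h0
    rw [hsj] at h0
    have h1 : (b j - b l) * P₂ s = 0 := by linear_combination h0
    rcases mul_eq_zero.1 h1 with h2 | h2
    · exact hl (hb (sub_eq_zero.1 h2)).symm
    · exact hP2s h2
  have ax : AnalyticOnNhd ℂ x Ω := fun s hs => (D1.analyticAt s).div (DD2.analyticAt s) hs.1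
  have hxP : ∀ s ∈ Ω, x s ∉ range b \ {b j} := by
    rintro s hs ⟨⟨l, hl⟩, h2⟩
    have hlj : l ≠ j := by
      rintro rfl
      exact h2 hl.symm
    apply hs.2 l hlj
    have h3 : P₁ s = x s * P₂ s := by
      rw [hx]
      field_simp [hs.1]
    rw [h3, hl]
    ring
  have aRx : ∀ g ∈ RatX (range b \ {b j}) Kt, AnalyticOnNhd ℂ (fun s => g (x s, tt s)) Ω := by
    intro g hg s hs
    have h1 : AnalyticAt ℂ g (x s, tt s) := ratkt_analytic hg (hxP s hs)
    have h2 : AnalyticAt ℂ (fun s => (x s, tt s)) s := (ax s hs).prod (Dt.analyticAt s)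
    exact AnalyticAt.fun_comp (g := g) (f := fun s => (x s, tt s)) h1 h2
  have F1 : AnalyticOnNhd ℂ (fun s => deriv x s * (deriv x s * deriv x s) *
      Lam b z' j j' j'' (x s, tt s) ^ d) Ω := by
    intro s hs
    have h1 := (ax s hs).deriv
    exact (h1.mul (h1.mul h1)).mul (aRx _ rLam s hs)
  have F2 : AnalyticOnNhd ℂ (fun s => H s * ((x s - b j) ^ 3 * B (x s, tt s))) Ω := by
    intro s hs
    exact (DH.analyticAt s).mul (aRx _ rR s hs)
  have hEq := F1.eqOn_of_preconnected_of_eventuallyEq F2 hΩc h0Ω hstar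
  -- the local contradiction
  refine nv_local (y := fun s => x s - b j) (G := fun s => Lam b z' j j' j'' (x s, tt s) ^ d)
    (K := fun s => H s * B (x s, tt s)) (s₀ := s) ((ax s hsΩ).sub analyticAt_const)
    (aRx _ rLam s hsΩ) ((DH.analyticAt s).mul (aRx _ hB s hsΩ)) ?_ ?_ ?_ ?_
  · show x s - b j = 0
    rw [hx]
    simp only
    rw [hsj, mul_div_assoc, div_self hP2s, mul_one, sub_self]
  · intro h0
    have h1 : ∀ᶠ s' in 𝓝 s, P₁ s' + -(b j) * P₂ s' = 0 := by
      filter_upwards [h0, hΩo.mem_nhds hsΩ] with s' h2 h3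
      have h4 : P₁ s' = x s' * P₂ s' := by
        rw [hx]
        field_simp [h3.1]
      rw [h4]
      linear_combination P₂ s' * h2
    have h2 : AnalyticOnNhd ℂ (fun s => P₁ s + -(b j) * P₂ s) univ := fun s _ =>
      (Dq j).analyticAt s
    have h3 := h2.eq_of_eventuallyEq (g := fun _ => 0) (fun _ _ => analyticAt_const) h1
    exact hq0 j (congrFun h3 0)
  · have hxs : x s = b j := by
      rw [hx]
      simp only
      rw [hsj, mul_div_assoc, div_self hP2s, mul_one]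
    apply pow_ne_zero
    rw [hxs]
    unfold Lam
    simp only
    have h1 : b j - b j' ≠ 0 := fun h0 => hj1 (hb (sub_eq_zero.1 h0))
    have h2 : b j - b j'' ≠ 0 := fun h0 => hj2 (hb (sub_eq_zero.1 h0))
    have h3 : (b j - b j') ^ 3 * ((tt s - z' j') / (b j - b j') ^ 3) -
        (b j - b j'') ^ 3 * ((tt s - z' j'') / (b j - b j'') ^ 3) = z' j'' - z' j' := by
      field_simp
      ring
    rw [h3]
    exact fun h0 => hj3 (hz' (sub_eq_zero.1 h0)).symm
  · filter_upwards [hΩo.mem_nhds hsΩ] with s' hs'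
    have h1 := hEq hs'
    simp only at h1
    have h2 : deriv (fun s => x s - b j) s' = deriv x s' := deriv_sub_const _
    rw [h2]
    linear_combination h1

end Pool.Agent.H43.FX
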