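import Pool.Agent.H43.FX.TEDefs

/-!
# FX-PERCYC : the group of periods of a nonconstant entire function is cyclic

`Λ` is any additive subgroup of `ℂ` consisting of periods of the nonconstant entire `f`.

Proof.  (1) There is `ε > 0` with `‖q‖ ≥ ε` for all `q ∈ Λ`, `q ≠ 0`: otherwise there are
nonzero `q_n ∈ Λ`, `q_n → 0`, and `f - f 0` vanishes at the points `q_n → 0`, so `f` is
constant (identity theorem, `AnalyticOnNhd.eqOn_of_preconnected_of_frequently_eq`).
(2) Any two elements `q₁, q₂ ∈ Λ` are linearly dependent over `ℝ`: otherwise every `s : ℂ` is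
congruent modulo `ℤ q₁ + ℤ q₂` to a point of the compact set `{x q₁ + y q₂ | x, y ∈ [0,1]}`
(floor), so `f` is bounded, hence constant by Liouville
(`Differentiable.exists_const_forall_eq_of_bounded` / `Differentiable.apply_eq_apply_of_bounded`).
(3) If `Λ = 0` take `lam = 0`.  Otherwise fix `q₁ ∈ Λ`, `q₁ ≠ 0`; all elements are real
multiples of `q₁`; the additive subgroup `{x : ℝ | x q₁ ∈ Λ}` of `ℝ` has no nonzero elements of
absolute value `< ε/‖q₁‖`, so it is cyclic (`AddSubgroup.cyclic_of_isolated_zero`).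
-/

namespace Pool.Agent.H43.FX

open Set Metric Filter Topology

theorem per_cyclic (Λ : AddSubgroup ℂ) {f : ℂ → ℂ} (hf : Differentiable ℂ f)
    (hne : ∃ s, deriv f s ≠ 0) (h : ∀ q ∈ Λ, ∀ s, f (s + q) = f s) :
    ∃ lam ∈ Λ, ∀ q ∈ Λ, ∃ m : ℤ, q = m * lam := by
  obtain ⟨s₀, hs₀⟩ := hne
  have hnc : ¬ ∀ s, f s = f 0 := by
    intro hc
    apply hs₀
    have : f = fun _ => f 0 := funext hc
    rw [this]
    simp
  have hm : ∀ q ∈ Λ, ∀ (m : ℤ) (s : ℂ), f (s + m * q) = f s := by
    intro q hq m s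
    have : (m : ℂ) * q ∈ Λ := by
      have := Λ.zsmul_mem hq m
      simpa using this
    exact h _ this s
  -- isolated
  have h1 : ∃ ε : ℝ, 0 < ε ∧ ∀ q ∈ Λ, q ≠ 0 → ε ≤ ‖q‖ := by
    by_contra hcon
    push Not at hcon
    apply hnc
    have hfa : AnalyticOnNhd ℂ f univ := fun z _ => hf.analyticAt z
    have hga : AnalyticOnNhd ℂ (fun _ : ℂ => f 0) univ := fun z _ => analyticAt_const
    have hfr : ∃ᶠ z in 𝓝[≠] (0 : ℂ), f z = (fun _ : ℂ => f 0) z := by
      rw [Filter.frequently_iff]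
      intro U hU
      rw [mem_nhdsWithin] at hU
      obtain ⟨V, hV, h0V, hVU⟩ := hU
      obtain ⟨ε, hε, hb⟩ := Metric.isOpen_iff.mp hV 0 h0V
      obtain ⟨q, hq, hq0, hqε⟩ := hcon ε hε
      refine ⟨q, hVU ⟨hb ?_, hq0⟩, ?_⟩
      · rw [Metric.mem_ball, dist_zero_right]; exact hqε
      · have := h q hq 0
        simpa using this
    have := hfa.eqOn_of_preconnected_of_frequently_eq hga isPreconnected_univ (mem_univ 0) hfr
    exact fun s => this (mem_univ s)
  -- dependence
  have h2 : ∀ q₁ ∈ Λ, ∀ q₂ ∈ Λ, q₁ ≠ 0 → ∃ x : ℝ, q₂ = x * q₁ := by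
    intro q₁ hq₁ q₂ hq₂ hq₁0
    by_cases him : (q₂ / q₁).im = 0
    · refine ⟨(q₂ / q₁).re, ?_⟩
      have h3 : q₂ / q₁ = ((q₂ / q₁).re : ℂ) := by
        apply Complex.ext
        · simp
        · rw [him]; simp
      rw [← h3]
      field_simp
    · exfalso
      apply hnc
      obtain ⟨C, hC⟩ := (isCompact_closedBall (0 : ℂ) (‖q₁‖ + ‖q₂‖)).exists_bound_of_continuousOn
        hf.continuous.continuousOn
      have hbd : ∀ s, ‖f s‖ ≤ C := by
        intro s
        set τ := q₂ / q₁ with hτ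
        set y : ℝ := (s / q₁).im / τ.im with hy
        set x : ℝ := (s / q₁).re - y * τ.re with hx
        have hs : s / q₁ = x + y * τ := by
          apply Complex.ext
          · simp [hx]
          · simp [hy]; field_simp
        have hs' : s = x * q₁ + y * q₂ := by
          have : s = (s / q₁) * q₁ := by field_simp
          rw [this, hs, hτ]
          field_simp
        have hfl : f s = f (((Int.fract x : ℝ) : ℂ) * q₁ + ((Int.fract y : ℝ) : ℂ) * q₂) := by
          have e1 : s = ((((Int.fract x : ℝ) : ℂ) * q₁ + ((Int.fract y : ℝ) : ℂ) * q₂ : ℂ) +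
              ((⌊x⌋ : ℤ) : ℂ) * q₁) + ((⌊y⌋ : ℤ) : ℂ) * q₂ := by
            have ex : ((⌊x⌋ : ℤ) : ℂ) + ((Int.fract x : ℝ) : ℂ) = (x : ℂ) := by
              exact_mod_cast Int.floor_add_fract x
            have ey : ((⌊y⌋ : ℤ) : ℂ) + ((Int.fract y : ℝ) : ℂ) = (y : ℂ) := by
              exact_mod_cast Int.floor_add_fract y
            rw [hs', ← ex, ← ey]
            ring
          rw [e1, hm q₂ hq₂, hm q₁ hq₁]
        rw [hfl]
        apply hC
        rw [mem_closedBall, dist_zero_right]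
        refine (norm_add_le _ _).trans (add_le_add ?_ ?_)
        · rw [norm_mul, Complex.norm_real, Real.norm_of_nonneg (Int.fract_nonneg x)]
          exact mul_le_of_le_one_left (norm_nonneg _) (Int.fract_lt_one x).le
        · rw [norm_mul, Complex.norm_real, Real.norm_of_nonneg (Int.fract_nonneg y)]
          exact mul_le_of_le_one_left (norm_nonneg _) (Int.fract_lt_one y).le
      have hb : Bornology.IsBounded (range f) := by
        rw [isBounded_iff_forall_norm_le]
        exact ⟨C, by rintro _ ⟨s, rfl⟩; exact hbd s⟩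
      exact fun s => hf.apply_eq_apply_of_bounded hb s 0
  by_cases hΛ : ∀ q ∈ Λ, q = 0
  · refine ⟨0, Λ.zero_mem, fun q hq => ⟨0, ?_⟩⟩
    rw [hΛ q hq]; simp
  · push Not at hΛ
    obtain ⟨q₁, hq₁, hq₁0⟩ := hΛ
    obtain ⟨ε, hε, hiso⟩ := h1
    let φ : ℝ →+ ℂ :=
      { toFun := fun x => (x : ℂ) * q₁
        map_zero' := by simp
        map_add' := fun x y => by push_cast; ring }
    have hφ : ∀ x, φ x = (x : ℂ) * q₁ := fun _ => rfl
    have hpos : 0 < ε / ‖q₁‖ := div_pos hε (norm_pos_iff.mpr hq₁0)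
    have hdis : Disjoint ((Λ.comap φ : AddSubgroup ℝ) : Set ℝ) (Set.Ioo 0 (ε / ‖q₁‖)) := by
      rw [Set.disjoint_left]
      intro x hx hx2
      have hx' : (x : ℂ) * q₁ ∈ Λ := hx
      have hx0 : (x : ℂ) * q₁ ≠ 0 :=
        mul_ne_zero (by exact_mod_cast hx2.1.ne') hq₁0
      have := hiso _ hx' hx0
      rw [norm_mul, Complex.norm_real, Real.norm_of_nonneg hx2.1.le] at this
      have h4 := hx2.2
      rw [lt_div_iff₀ (norm_pos_iff.mpr hq₁0)] at h4
      linarith
    obtain ⟨b, hb⟩ := AddSubgroup.cyclic_of_isolated_zero hpos hdis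
    have hbm : b ∈ Λ.comap φ := by
      rw [hb]; exact AddSubgroup.mem_closure_singleton_self b
    refine ⟨b * q₁, hbm, fun q hq => ?_⟩
    obtain ⟨x, hx⟩ := h2 q₁ hq₁ q hq hq₁0
    have hxm : x ∈ Λ.comap φ := by
      change (x : ℂ) * q₁ ∈ Λ
      rw [← hx]; exact hq
    rw [hb, AddSubgroup.mem_closure_singleton] at hxm
    obtain ⟨m, hm'⟩ := hxm
    refine ⟨m, ?_⟩
    rw [hx, ← hm']
    push_cast
    simp only [zsmul_eq_mul]
    ring

end Pool.Agent.H43.FX
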