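import Pool.Agent.H43.FX.VF
import Pool.Agent.H43.FX.Wt
import Pool.Agent.H43.FX.Bez
import Pool.Agent.H43.FX.Euler

/-!
# FX-RDER : the derivations moving `u`

Notation: `k' = 1 - k` (`Fin 2`), `α = u_k`, `∂ = ∂/∂u_{k'}`, `L_l = X 0 - C (a l) X 1`,
`c_i` the Bezout polynomials for `k`, `Q = ∏_l L_l³`, `Q_i = ∏_{l≠i} L_l³` (so `Q = L_i³ Q_i`),
`Q_{il} = ∏_{m≠i,l} L_m³`, `Ψ = ∑ z_i c_i Q_i`, `Ψ_i = ∑_{l≠i}(z_l - z_i) c_l Q_{il}` in
`MvPolynomial (Fin 2) ℂ`, `y = ∑ c_i(u) x_i` (weight `2 - 3 = -1`), `M = (∏_j m_j)³`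
(weight `-12`).  Polynomials in `u` are evaluated at `(u₁,u₂)`.
Identities of polynomials: `Ψ - z_i X_k^11 = L_i³ Ψ_i` (from `∑_l c_l Q_l = X_k^11` and
`Q_l = L_i³ Q_{il}` for `l ≠ i`), `∂X_k = 0`, so `∂Ψ = L_i³ ∂Ψ_i + 3 L_i² (∂L_i) Ψ_i` and
`∂Q = L_i³ ∂Q_i + 3L_i²(∂L_i) Q_i`.
Identities of functions on `U5`: `y Q = ∑ c_i Q_i (t - z_i) = α^11 t - Ψ`, and
`α^11 (t - z_i) = Ψ + yQ - z_i α^11 = ℓ_i³ (Ψ_i + y Q_i)`.

Vector field `ξ`: the component `k'` of `u` is `s = α^13 M`, the component `t` is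
`τ = α² M (∂Ψ + y ∂Q)`, the other components are `0` (analytic on `U5`, since `y` is).
`vfun`: `u_k ↦ 0`, `w_l ↦ 0`, `u_{k'} ↦ s`, `P k l ↦ 0`, `P k' l ↦ s w_l`, `t ↦ τ`.
* `y ↦ 0`: differentiate `yQ = α^11 t - Ψ`: `(vfun y) Q + y s ∂Q = α^11 τ - s ∂Ψ = s y ∂Q` since
  `α^11 α² M = s`.  So `vfun y = 0`.
* `x_i ↦ α² M (∂Ψ_i + y ∂Q_i)`: `x_i = (t-z_i)/ℓ_i³`, so
  `vfun x_i = (τ ℓ_i - 3 (t-z_i) s ∂ℓ_i)/ℓ_i⁴`, `s (t-z_i) = α² M ℓ_i³(Ψ_i + yQ_i)`, and
  `τ = α² M(ℓ_i³(∂Ψ_i + y∂Q_i) + 3ℓ_i²∂ℓ_i(Ψ_i + yQ_i))`.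
* `y_j ↦ α² (∏_{l≠j} m_l³) (∂Ψ + y∂Q)`.
Weights: `c_i, L_l, ...` are homogeneous polynomials in `u` of degree = weight; a homogeneous
polynomial of degree `m` evaluated at `u` is `Wt m` (induction/`MvPolynomial` sum over the
support), `∂` lowers the degree by one (`IsHomogeneous.pderiv`).  `Ψ` has degree `11`, `Q` `12`,
`Q_i` `9`, `Ψ_i` `8`.  So `vfun` of all 53 generators is `Wt 0`, hence in `Aring` (`wt_mem`).
`NilV`: `u_k, w_l, y` are killed, `u_{k'}` is mapped to a polynomial in `u_k, w`, so it is in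
`NilV`; hence all polynomials in `u, w, y` are in `NilV` (`nilv_mul`, `nilv_add`), and `t, x_i, y_j`
are mapped to such polynomials (`nilv_of_vfun`).  Then the generators are products.
Apply `der_of_vf`.
-/

namespace Pool.Agent.H43.FX

open Set Metric Filter Topology

section

variable {a b z z' : Fin 4 → ℂ}

/-! ### weights -/

theorem rd_wt_cast {m m' : ℤ} {f g : U5 a b → ℂ} (h : Wt a b z z' m f) (hm : m = m')
    (hf : f = g) : Wt a b z z' m' g := by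
  subst hm hf
  exact h

theorem rd_wt_pow {m : ℤ} {f : U5 a b → ℂ} (h : Wt a b z z' m f) (n : ℕ) :
    Wt a b z z' (n * m) (fun q => f q ^ n) := by
  induction n with
  | zero => exact rd_wt_cast (Wt.const 1) (by simp) (by funext q; simp)
  | succ n ih =>
    exact rd_wt_cast (ih.mul h) (by push_cast; ring) (by funext q; rw [pow_succ])

theorem rd_wt_zero (m : ℤ) : Wt a b z z' m (fun _ => 0) := by
  obtain ⟨n, rfl | rfl⟩ := m.eq_nat_or_neg
  · exact rd_wt_cast ((Wt.const 0).mul (rd_wt_pow (Wt.u 0) n)) (by simp) (by funext q; simp)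
  · exact rd_wt_cast ((Wt.const 0).mul (rd_wt_pow (Wt.w 0) n)) (by simp) (by funext q; simp)

/-- weight of the function and of its derivative, and local nilpotency -/
def RdWD (a b z z' : Fin 4 → ℂ) (ξ : C5 → C5) (m : ℤ) (f : U5 a b → ℂ) : Prop :=
  Wt a b z z' m f ∧ Wt a b z z' m (vfun (U5 a b) ξ f) ∧ NilV (U5 a b) ξ f

variable {ξ : C5 → C5}

theorem rd_cast {m m' : ℤ} {f g : U5 a b → ℂ} (h : RdWD a b z z' ξ m f) (hm : m = m')
    (hf : f = g) : RdWD a b z z' ξ m' g := by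
  subst hm hf
  exact h

theorem rd_const (c : ℂ) : RdWD a b z z' ξ 0 (fun _ => c) := by
  refine ⟨Wt.const c, ?_, nilv_const (isOpen_U5 a b) c⟩
  rw [vfun_const (isOpen_U5 a b)]
  exact rd_wt_zero 0

theorem rd_add (hξ : AnalyticOnNhd ℂ ξ (U5 a b)) {m : ℤ} {f g : U5 a b → ℂ}
    (hf : RdWD a b z z' ξ m f) (hg : RdWD a b z z' ξ m g) :
    RdWD a b z z' ξ m (fun q => f q + g q) := by
  refine ⟨hf.1.add hg.1, ?_, nilv_add (isOpen_U5 a b) hξ hf.2.2 hg.2.2⟩
  rw [vfun_add (isOpen_U5 a b) hf.2.2.1 hg.2.2.1]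
  exact hf.2.1.add hg.2.1

theorem rd_mul (hξ : AnalyticOnNhd ℂ ξ (U5 a b)) {m n : ℤ} {f g : U5 a b → ℂ}
    (hf : RdWD a b z z' ξ m f) (hg : RdWD a b z z' ξ n g) :
    RdWD a b z z' ξ (m + n) (fun q => f q * g q) := by
  refine ⟨hf.1.mul hg.1, ?_, nilv_mul (isOpen_U5 a b) hξ hf.2.2 hg.2.2⟩
  rw [vfun_mul (isOpen_U5 a b) hf.2.2.1 hg.2.2.1]
  exact (hf.2.1.mul hg.1).add (hf.1.mul hg.2.1)

theorem rd_pow (hξ : AnalyticOnNhd ℂ ξ (U5 a b)) {m : ℤ} {f : U5 a b → ℂ}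
    (hf : RdWD a b z z' ξ m f) (n : ℕ) : RdWD a b z z' ξ (n * m) (fun q => f q ^ n) := by
  induction n with
  | zero => exact rd_cast (rd_const 1) (by simp) (by funext q; simp)
  | succ n ih =>
    exact rd_cast (rd_mul hξ ih hf) (by push_cast; ring) (by funext q; rw [pow_succ])

theorem rd_zero (m : ℤ) : RdWD a b z z' ξ m (fun _ => 0) := by
  refine ⟨rd_wt_zero m, ?_, nilv_const (isOpen_U5 a b) 0⟩
  rw [vfun_const (isOpen_U5 a b)]
  exact rd_wt_zero m

theorem rd_prod (hξ : AnalyticOnNhd ℂ ξ (U5 a b)) {ι : Type*} (s : Finset ι) {m : ι → ℤ}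
    {f : ι → U5 a b → ℂ} (hf : ∀ i ∈ s, RdWD a b z z' ξ (m i) (f i)) :
    RdWD a b z z' ξ (∑ i ∈ s, m i) (fun q => ∏ i ∈ s, f i q) := by
  classical
  induction s using Finset.induction_on with
  | empty => exact rd_cast (rd_const 1) (by simp) (by funext q; simp)
  | insert i s hi ih =>
    refine rd_cast (rd_mul hξ (hf i (Finset.mem_insert_self i s))
      (ih fun j hj => hf j (Finset.mem_insert_of_mem hj))) ?_ ?_
    · rw [Finset.sum_insert hi]
    · funext q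
      rw [Finset.prod_insert hi]

theorem rd_of_zero {m : ℤ} {f : U5 a b → ℂ} (hf : Wt a b z z' m f) (hf1 : AnU (U5 a b) f)
    (h0 : vfun (U5 a b) ξ f = fun _ => 0) : RdWD a b z z' ξ m f := by
  refine ⟨hf, ?_, nilv_of_vfun hf1 ?_⟩
  · rw [h0]
    exact rd_wt_zero m
  · rw [h0]
    exact nilv_const (isOpen_U5 a b) 0

theorem rd_of_vfun {m : ℤ} {f g : U5 a b → ℂ} (hf : Wt a b z z' m f) (hf1 : AnU (U5 a b) f)
    (hg : vfun (U5 a b) ξ f = g) (h : RdWD a b z z' ξ m g) : RdWD a b z z' ξ m f := by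
  refine ⟨hf, ?_, nilv_of_vfun hf1 ?_⟩
  · rw [hg]
    exact h.1
  · rw [hg]
    exact h.2.2

/-! ### evaluation of polynomials at `u` -/

/-- evaluation at `u` -/
noncomputable def rdpe (p : MvPolynomial (Fin 2) ℂ) (q : C5) : ℂ :=
  MvPolynomial.eval (fun k => cu k q) p

theorem rdpe_C (c : ℂ) (q : C5) : rdpe (MvPolynomial.C c) q = c := by simp [rdpe]

theorem rdpe_X (k : Fin 2) (q : C5) : rdpe (MvPolynomial.X k) q = cu k q := by simp [rdpe]

theorem rdpe_zero (q : C5) : rdpe 0 q = 0 := by simp [rdpe]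

theorem rdpe_add (p r : MvPolynomial (Fin 2) ℂ) (q : C5) :
    rdpe (p + r) q = rdpe p q + rdpe r q := by simp [rdpe]

theorem rdpe_sub (p r : MvPolynomial (Fin 2) ℂ) (q : C5) :
    rdpe (p - r) q = rdpe p q - rdpe r q := by simp [rdpe]

theorem rdpe_mul (p r : MvPolynomial (Fin 2) ℂ) (q : C5) :
    rdpe (p * r) q = rdpe p q * rdpe r q := by simp [rdpe]

theorem rdpe_pow (p : MvPolynomial (Fin 2) ℂ) (n : ℕ) (q : C5) :
    rdpe (p ^ n) q = rdpe p q ^ n := by simp [rdpe]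

theorem rdpe_sum {ι : Type*} (s : Finset ι) (p : ι → MvPolynomial (Fin 2) ℂ) (q : C5) :
    rdpe (∑ i ∈ s, p i) q = ∑ i ∈ s, rdpe (p i) q := by simp [rdpe]

theorem rdpe_prod {ι : Type*} (s : Finset ι) (p : ι → MvPolynomial (Fin 2) ℂ) (q : C5) :
    rdpe (∏ i ∈ s, p i) q = ∏ i ∈ s, rdpe (p i) q := by simp [rdpe]

theorem rdpe_an (p : MvPolynomial (Fin 2) ℂ) (q : C5) : AnalyticAt ℂ (rdpe p) q := by
  induction p using MvPolynomial.induction_on with
  | C c =>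
    have h1 : rdpe (MvPolynomial.C c) = fun _ => c := by
      funext q
      exact rdpe_C c q
    rw [h1]
    exact analyticAt_const
  | add p r hp hr =>
    have h1 : rdpe (p + r) = fun q => rdpe p q + rdpe r q := by
      funext q
      exact rdpe_add p r q
    rw [h1]
    exact hp.add hr
  | mul_X p i hp =>
    have h1 : rdpe (p * MvPolynomial.X i) = fun q => rdpe p q * cu i q := by
      funext q
      rw [rdpe_mul, rdpe_X]
    rw [h1]
    exact hp.mul (eu_cu i q)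

theorem rdpe_anu (p : MvPolynomial (Fin 2) ℂ) : AnU (U5 a b) (rs a b (rdpe p)) :=
  anu_of_restrict (isOpen_U5 a b) fun q _ => rdpe_an p q

theorem rd_fst2 (j k : Fin 2) : j = k ∨ j = 1 - k := by
  fin_cases j <;> fin_cases k <;> simp

theorem rd_ne (k : Fin 2) : k ≠ 1 - k := by
  fin_cases k <;> simp

/-- the derivative of a polynomial in `u` -/
theorem rdpe_vfun (k : Fin 2) {s : U5 a b → ℂ}
    (h0 : vfun (U5 a b) ξ (rs a b (cu k)) = fun _ => 0)
    (h1 : vfun (U5 a b) ξ (rs a b (cu (1 - k))) = s) (p : MvPolynomial (Fin 2) ℂ) :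
    vfun (U5 a b) ξ (rs a b (rdpe p)) =
      fun q => s q * rs a b (rdpe (MvPolynomial.pderiv (1 - k) p)) q := by
  have hU := isOpen_U5 a b
  induction p using MvPolynomial.induction_on with
  | C c =>
    have h2 : rs a b (rdpe (MvPolynomial.C c)) = fun _ => c := by
      funext q
      exact rdpe_C c q
    rw [h2, vfun_const hU]
    funext q
    simp [rs, rdpe_zero]
  | add p r hp hr =>
    have h2 : rs a b (rdpe (p + r)) = fun q => rs a b (rdpe p) q + rs a b (rdpe r) q := by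
      funext q
      exact rdpe_add p r q
    rw [h2, vfun_add hU (rdpe_anu p) (rdpe_anu r), hp, hr]
    funext q
    simp only [map_add, rs, rdpe_add]
    ring
  | mul_X p i hp =>
    have h2 : rs a b (rdpe (p * MvPolynomial.X i)) =
        fun q => rs a b (rdpe p) q * rs a b (cu i) q := by
      funext q
      simp only [rs, rdpe_mul, rdpe_X]
    have h3 : AnU (U5 a b) (rs a b (cu i)) :=
      anu_of_restrict (isOpen_U5 a b) fun q _ => eu_cu i q
    rw [h2, vfun_mul hU (rdpe_anu p) h3, hp]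
    rcases rd_fst2 i k with h | h
    · subst h
      rw [h0]
      funext q
      simp only [MvPolynomial.pderiv_mul, MvPolynomial.pderiv_X_of_ne (rd_ne i), mul_zero,
        add_zero, rs, rdpe_mul, rdpe_X]
      ring
    · subst h
      rw [h1]
      funext q
      simp only [MvPolynomial.pderiv_mul, MvPolynomial.pderiv_X_self, mul_one, rs, rdpe_add,
        rdpe_mul, rdpe_X]
      ring

theorem rd_pe (hξ : AnalyticOnNhd ℂ ξ (U5 a b))
    (hu : ∀ k, RdWD a b z z' ξ 1 (rs a b (cu k))) {p : MvPolynomial (Fin 2) ℂ} {m : ℕ}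
    (hp : p.IsHomogeneous m) : RdWD a b z z' ξ m (rs a b (rdpe p)) := by
  induction hp using MvPolynomial.IsWeightedHomogeneous.induction_on with
  | zero =>
    refine rd_cast (rd_zero (m : ℤ)) rfl ?_
    funext q
    exact (rdpe_zero _).symm
  | add p r _ _ hp hr =>
    refine rd_cast (rd_add hξ hp hr) rfl ?_
    funext q
    exact (rdpe_add _ _ _).symm
  | monomial d r hr =>
    have h1 := rd_mul hξ (rd_const (ξ := ξ) (a := a) (b := b) (z := z) (z' := z') r)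
      (rd_mul hξ (rd_pow hξ (hu 0) (d 0)) (rd_pow hξ (hu 1) (d 1)))
    refine rd_cast h1 ?_ ?_
    · rw [← hr, Finsupp.weight_apply, Finsupp.sum_fintype]
      · simp
      · simp
    · funext q
      simp only [rs, rdpe, MvPolynomial.eval_monomial, Finsupp.prod_pow, Fin.prod_univ_two]

end


/-! ### the polynomials -/

section

open MvPolynomial

variable (a z : Fin 4 → ℂ) (c : Fin 4 → MvPolynomial (Fin 2) ℂ)

noncomputable def rdL (i : Fin 4) : MvPolynomial (Fin 2) ℂ := X 0 - C (a i) * X 1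

noncomputable def rdQ : MvPolynomial (Fin 2) ℂ := ∏ l, rdL a l ^ 3

noncomputable def rdQe (i : Fin 4) : MvPolynomial (Fin 2) ℂ :=
  ∏ l ∈ Finset.univ.erase i, rdL a l ^ 3

noncomputable def rdQee (i l : Fin 4) : MvPolynomial (Fin 2) ℂ :=
  ∏ m ∈ (Finset.univ.erase i).erase l, rdL a m ^ 3

noncomputable def rdΨ : MvPolynomial (Fin 2) ℂ := ∑ i, C (z i) * (c i * rdQe a i)

noncomputable def rdΨe (i : Fin 4) : MvPolynomial (Fin 2) ℂ :=
  ∑ l ∈ Finset.univ.erase i, C (z l - z i) * (c l * rdQee a i l)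

theorem rdL_hom (i : Fin 4) : (rdL a i).IsHomogeneous 1 :=
  (isHomogeneous_X _ _).sub (isHomogeneous_C_mul_X _ _)

theorem rdL3_hom (i : Fin 4) : (rdL a i ^ 3).IsHomogeneous 3 := by
  simpa using (rdL_hom a i).pow 3

theorem rdQ_hom : (rdQ a).IsHomogeneous 12 := by
  have := IsHomogeneous.prod (Finset.univ : Finset (Fin 4)) (fun l => rdL a l ^ 3) (fun _ => 3)
    fun i _ => rdL3_hom a i
  simpa [rdQ] using this

theorem rdQe_hom (i : Fin 4) : (rdQe a i).IsHomogeneous 9 := by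
  have := IsHomogeneous.prod (Finset.univ.erase i : Finset (Fin 4)) (fun l => rdL a l ^ 3)
    (fun _ => 3) fun i _ => rdL3_hom a i
  simpa [rdQe] using this

theorem rdQee_hom {i l : Fin 4} (h : l ≠ i) : (rdQee a i l).IsHomogeneous 6 := by
  have := IsHomogeneous.prod ((Finset.univ.erase i).erase l : Finset (Fin 4))
    (fun l => rdL a l ^ 3) (fun _ => 3) fun i _ => rdL3_hom a i
  rw [Finset.sum_const, Finset.card_erase_of_mem (by simp [h]),
    Finset.card_erase_of_mem (Finset.mem_univ i)] at this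
  simpa [rdQee] using this

theorem rdΨ_hom (hc : ∀ i, (c i).IsHomogeneous 2) : (rdΨ a z c).IsHomogeneous 11 :=
  IsHomogeneous.sum _ _ _ fun i _ => ((hc i).mul (rdQe_hom a i)).C_mul _

theorem rdΨe_hom (hc : ∀ i, (c i).IsHomogeneous 2) (i : Fin 4) :
    (rdΨe a z c i).IsHomogeneous 8 :=
  IsHomogeneous.sum _ _ _ fun l hl =>
    ((hc l).mul (rdQee_hom a (Finset.ne_of_mem_erase hl))).C_mul _

theorem rdQ_eq (i : Fin 4) : rdQ a = rdL a i ^ 3 * rdQe a i :=
  (Finset.mul_prod_erase Finset.univ (fun l => rdL a l ^ 3) (Finset.mem_univ i)).symm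

theorem rdQe_eq {i l : Fin 4} (h : l ≠ i) : rdQe a l = rdL a i ^ 3 * rdQee a i l := by
  unfold rdQe rdQee
  rw [Finset.erase_right_comm]
  exact (Finset.mul_prod_erase (Finset.univ.erase l) (fun l => rdL a l ^ 3)
    (by simp [Ne.symm h])).symm

theorem rdΨ_eq {k : Fin 2} (hB : ∑ i, c i * rdQe a i = X k ^ 11) (i : Fin 4) :
    rdΨ a z c = C (z i) * X k ^ 11 + rdL a i ^ 3 * rdΨe a z c i := by
  have h1 : rdΨ a z c - C (z i) * X k ^ 11 = ∑ l, C (z l - z i) * (c l * rdQe a l) := by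
    rw [← hB, rdΨ, Finset.mul_sum, ← Finset.sum_sub_distrib]
    refine Finset.sum_congr rfl fun l _ => ?_
    rw [C_sub]
    ring
  have h2 : ∑ l, C (z l - z i) * (c l * rdQe a l) = rdL a i ^ 3 * rdΨe a z c i := by
    rw [← Finset.add_sum_erase _ _ (Finset.mem_univ i), sub_self, C_0, zero_mul, zero_add,
      rdΨe, Finset.mul_sum]
    refine Finset.sum_congr rfl fun l hl => ?_
    rw [rdQe_eq a (Finset.ne_of_mem_erase hl)]
    ring
  rw [← h2, ← h1]
  ring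

theorem rdΨ_pd {k : Fin 2} (hB : ∑ i, c i * rdQe a i = X k ^ 11) (i : Fin 4) :
    pderiv (1 - k) (rdΨ a z c) = pderiv (1 - k) (rdL a i ^ 3) * rdΨe a z c i +
      rdL a i ^ 3 * pderiv (1 - k) (rdΨe a z c i) := by
  rw [rdΨ_eq a z c hB i, map_add, pderiv_mul, pderiv_mul, pderiv_C, pderiv_pow,
    pderiv_X_of_ne (rd_ne k)]
  ring

theorem rdQ_pd (k : Fin 2) (i : Fin 4) :
    pderiv (1 - k) (rdQ a) = pderiv (1 - k) (rdL a i ^ 3) * rdQe a i +
      rdL a i ^ 3 * pderiv (1 - k) (rdQe a i) := by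
  rw [rdQ_eq a i, pderiv_mul]

theorem rdL_pe (i : Fin 4) (q : C5) : rdpe (rdL a i) q = lf a i q := by
  rw [rdL, rdpe_sub, rdpe_mul, rdpe_C, rdpe_X, rdpe_X]
  rfl

theorem rdL_ne {b : Fin 4 → ℂ} (i : Fin 4) (q : U5 a b) : rdpe (rdL a i ^ 3) q.1 ≠ 0 := by
  rw [rdpe_pow, rdL_pe]
  exact pow_ne_zero _ (q.2.1 i)

theorem rdQ_ne {b : Fin 4 → ℂ} (q : U5 a b) : rdpe (rdQ a) q.1 ≠ 0 := by
  rw [rdQ, rdpe_prod]
  exact Finset.prod_ne_zero_iff.2 fun i _ => rdL_ne a i q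

/-- the killed element of weight `-1` -/
noncomputable def rdy (q : C5) : ℂ := ∑ i, rdpe (c i) q * cx a z i q

theorem rdx_mul {b : Fin 4 → ℂ} (i : Fin 4) (q : U5 a b) :
    cx a z i q.1 * rdpe (rdL a i ^ 3) q.1 = ct q.1 - z i := by
  rw [rdpe_pow, rdL_pe, cx, div_mul_cancel₀ _ (pow_ne_zero _ (q.2.1 i))]

theorem rdy_mul {b : Fin 4 → ℂ} {k : Fin 2} (hB : ∑ i, c i * rdQe a i = X k ^ 11) (q : U5 a b) :
    rdy a z c q.1 * rdpe (rdQ a) q.1 = cu k q.1 ^ 11 * ct q.1 - rdpe (rdΨ a z c) q.1 := by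
  have h1 : cu k q.1 ^ 11 = ∑ i, rdpe (c i) q.1 * rdpe (rdQe a i) q.1 := by
    rw [← rdpe_X k q.1, ← rdpe_pow, ← hB, rdpe_sum]
    exact Finset.sum_congr rfl fun i _ => rdpe_mul _ _ _
  rw [h1, rdy, Finset.sum_mul, Finset.sum_mul, rdΨ, rdpe_sum, ← Finset.sum_sub_distrib]
  refine Finset.sum_congr rfl fun i _ => ?_
  rw [rdQ_eq a i, rdpe_mul, rdpe_mul, rdpe_mul, rdpe_C]
  linear_combination rdpe (c i) q.1 * rdpe (rdQe a i) q.1 * rdx_mul a z i q

theorem rdx_eq {b : Fin 4 → ℂ} {k : Fin 2} (hB : ∑ i, c i * rdQe a i = X k ^ 11) (i : Fin 4)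
    (q : U5 a b) : cx a z i q.1 * cu k q.1 ^ 11 =
      rdpe (rdΨe a z c i) q.1 + rdy a z c q.1 * rdpe (rdQe a i) q.1 := by
  have h1 := rdy_mul a z c hB q
  have h2 := rdx_mul a z i q
  rw [rdΨ_eq a z c hB i, rdpe_add, rdpe_mul, rdpe_mul, rdpe_C, rdpe_pow (X k), rdpe_X,
    rdQ_eq a i, rdpe_mul] at h1
  have h3 := rdL_ne a i q
  apply mul_right_cancel₀ h3
  linear_combination cu k q.1 ^ 11 * h2 - h1

theorem rdy_an {b : Fin 4 → ℂ} : AnalyticOnNhd ℂ (rdy a z c) (U5 a b) := by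
  intro q hq
  unfold rdy
  exact Finset.analyticAt_fun_sum _ fun i _ => (rdpe_an (c i) q).mul (eu_cx hq i)

end

/-! ### the vector field -/

section

variable (a b z : Fin 4 → ℂ) (c : Fin 4 → MvPolynomial (Fin 2) ℂ) (k : Fin 2)

/-- the `u` component -/
noncomputable def rds (q : C5) : ℂ := cu k q ^ 13 * (∏ j, mf b j q) ^ 3

/-- the common factor of the `t` component -/
noncomputable def rdH (q : C5) : ℂ :=
  rdpe (MvPolynomial.pderiv (1 - k) (rdΨ a z c)) q +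
    rdy a z c q * rdpe (MvPolynomial.pderiv (1 - k) (rdQ a)) q

/-- the `t` component -/
noncomputable def rdτ (q : C5) : ℂ := cu k q ^ 2 * (∏ j, mf b j q) ^ 3 * rdH a z c k q

/-- the vector field -/
noncomputable def rdξ (q : C5) : C5 :=
  (if k = 0 then 0 else rds b k q, if k = 0 then rds b k q else 0, 0, 0, rdτ a b z c k q)

theorem rd_mf_an (j : Fin 4) (q : C5) : AnalyticAt ℂ (mf b j) q :=
  (eu_cw 0 q).sub (analyticAt_const.mul (eu_cw 1 q))

theorem rd_M_an (q : C5) : AnalyticAt ℂ (fun q => (∏ j, mf b j q) ^ 3) q :=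
  (Finset.analyticAt_fun_prod _ fun j _ => rd_mf_an b j q).pow 3

theorem rds_an (q : C5) : AnalyticAt ℂ (rds b k) q :=
  ((eu_cu k q).pow 13).mul (rd_M_an b q)

theorem rdH_an {q : C5} (hq : q ∈ U5 a b) : AnalyticAt ℂ (rdH a z c k) q :=
  (rdpe_an _ q).add ((rdy_an a z c q hq).mul (rdpe_an _ q))

theorem rdτ_an {q : C5} (hq : q ∈ U5 a b) : AnalyticAt ℂ (rdτ a b z c k) q :=
  (((eu_cu k q).pow 2).mul (rd_M_an b q)).mul (rdH_an a b z c k hq)

theorem rdξ_an : AnalyticOnNhd ℂ (rdξ a b z c k) (U5 a b) := by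
  intro q hq
  unfold rdξ
  split_ifs
  · exact analyticAt_const.prod ((rds_an b k q).prod (analyticAt_const.prod
      (analyticAt_const.prod (rdτ_an a b z c k hq))))
  · exact (rds_an b k q).prod (analyticAt_const.prod (analyticAt_const.prod
      (analyticAt_const.prod (rdτ_an a b z c k hq))))

/-- the coordinates as continuous linear maps -/
noncomputable def rdcuL (j : Fin 2) : C5 →L[ℂ] ℂ :=
  if j = 0 then ContinuousLinearMap.fst ℂ ℂ _ else
    (ContinuousLinearMap.fst ℂ ℂ _).comp (ContinuousLinearMap.snd ℂ ℂ _)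

noncomputable def rdcwL (j : Fin 2) : C5 →L[ℂ] ℂ :=
  if j = 0 then (ContinuousLinearMap.fst ℂ ℂ _).comp ((ContinuousLinearMap.snd ℂ ℂ _).comp
    (ContinuousLinearMap.snd ℂ ℂ _)) else
    (ContinuousLinearMap.fst ℂ ℂ _).comp ((ContinuousLinearMap.snd ℂ ℂ _).comp
    ((ContinuousLinearMap.snd ℂ ℂ _).comp (ContinuousLinearMap.snd ℂ ℂ _)))

noncomputable def rdctL : C5 →L[ℂ] ℂ :=
  (ContinuousLinearMap.snd ℂ ℂ _).comp ((ContinuousLinearMap.snd ℂ ℂ _).comp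
    ((ContinuousLinearMap.snd ℂ ℂ _).comp (ContinuousLinearMap.snd ℂ ℂ _)))

theorem rdcuL_eq (j : Fin 2) : cu j = rdcuL j := by
  funext q
  unfold cu rdcuL
  split_ifs <;> rfl

theorem rdcwL_eq (j : Fin 2) : cw j = rdcwL j := by
  funext q
  unfold cw rdcwL
  split_ifs <;> rfl

theorem rdctL_eq : ct = rdctL := by
  funext q
  rfl

variable {a b z c k}

theorem rd_vfun_cu {ξ : C5 → C5} (j : Fin 2) :
    vfun (U5 a b) ξ (rs a b (cu j)) = fun q => cu j (ξ q.1) := by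
  funext q
  have h := vfun_of_restrict (ξ := ξ) (isOpen_U5 a b) (F := cu j) q
  refine h.trans ?_
  rw [rdcuL_eq, ContinuousLinearMap.fderiv]

theorem rd_vfun_cw {ξ : C5 → C5} (j : Fin 2) :
    vfun (U5 a b) ξ (rs a b (cw j)) = fun q => cw j (ξ q.1) := by
  funext q
  have h := vfun_of_restrict (ξ := ξ) (isOpen_U5 a b) (F := cw j) q
  refine h.trans ?_
  rw [rdcwL_eq, ContinuousLinearMap.fderiv]

theorem rd_vfun_ct {ξ : C5 → C5} :
    vfun (U5 a b) ξ (rs a b ct) = fun q => ct (ξ q.1) := by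
  funext q
  have h := vfun_of_restrict (ξ := ξ) (isOpen_U5 a b) (F := ct) q
  refine h.trans ?_
  rw [rdctL_eq, ContinuousLinearMap.fderiv]

theorem rd_D_cu0 : vfun (U5 a b) (rdξ a b z c k) (rs a b (cu k)) = fun _ => 0 := by
  rw [rd_vfun_cu]
  funext q
  fin_cases k <;> simp [cu, rdξ]

theorem rd_D_cu1 : vfun (U5 a b) (rdξ a b z c k) (rs a b (cu (1 - k))) = rs a b (rds b k) := by
  rw [rd_vfun_cu]
  funext q
  fin_cases k <;> simp [cu, rdξ, rs]

theorem rd_D_cw (j : Fin 2) : vfun (U5 a b) (rdξ a b z c k) (rs a b (cw j)) = fun _ => 0 := by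
  rw [rd_vfun_cw]
  funext q
  fin_cases j <;> simp [cw, rdξ]

theorem rd_D_ct : vfun (U5 a b) (rdξ a b z c k) (rs a b ct) = rs a b (rdτ a b z c k) := by
  rw [rd_vfun_ct]
  funext q
  simp [ct, rdξ, rs]

theorem rd_D_pe (p : MvPolynomial (Fin 2) ℂ) :
    vfun (U5 a b) (rdξ a b z c k) (rs a b (rdpe p)) =
      fun q => rds b k q.1 * rdpe (MvPolynomial.pderiv (1 - k) p) q.1 :=
  rdpe_vfun k rd_D_cu0 rd_D_cu1 p

variable {z' : Fin 4 → ℂ}

theorem rd_anu_cu (j : Fin 2) : AnU (U5 a b) (rs a b (cu j)) :=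
  anu_of_restrict (isOpen_U5 a b) fun q _ => eu_cu j q

theorem rd_anu_cw (j : Fin 2) : AnU (U5 a b) (rs a b (cw j)) :=
  anu_of_restrict (isOpen_U5 a b) fun q _ => eu_cw j q

theorem rd_anu_ct : AnU (U5 a b) (rs a b ct) :=
  anu_of_restrict (isOpen_U5 a b) fun q _ => eu_ct q

theorem rd_anu_cx (i : Fin 4) : AnU (U5 a b) (rs a b (cx a z i)) :=
  anu_of_restrict (isOpen_U5 a b) fun _ hq => eu_cx hq i

theorem rd_anu_cy (j : Fin 4) : AnU (U5 a b) (rs a b (cy b z' j)) :=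
  anu_of_restrict (isOpen_U5 a b) fun _ hq => eu_cy hq j

theorem rd_anu_y : AnU (U5 a b) (rs a b (rdy a z c)) :=
  anu_of_restrict (isOpen_U5 a b) (rdy_an a z c)

/-- `y` is killed -/
theorem rd_D_y (hB : ∑ i, c i * rdQe a i = MvPolynomial.X k ^ 11) :
    vfun (U5 a b) (rdξ a b z c k) (rs a b (rdy a z c)) = fun _ => 0 := by
  have hU := isOpen_U5 a b
  have e1 : (fun q => rs a b (rdy a z c) q * rs a b (rdpe (rdQ a)) q) =
      fun q => (fun q => rs a b (rdpe (MvPolynomial.X k ^ 11)) q * rs a b ct q) q +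
        (fun q => rs a b (rdpe (MvPolynomial.C (-1) * rdΨ a z c)) q) q := by
    funext q
    have h1 := rdy_mul a z c hB q
    simp only [rs, rdpe_pow, rdpe_X, rdpe_mul, rdpe_C]
    rw [h1]
    ring
  have e2 := congrArg (vfun (U5 a b) (rdξ a b z c k)) e1
  rw [vfun_mul hU rd_anu_y (rdpe_anu _), vfun_add hU (anu_mul hU (rdpe_anu _) rd_anu_ct)
    (rdpe_anu _), vfun_mul hU (rdpe_anu _) rd_anu_ct, rd_D_pe, rd_D_ct] at e2
  have e3 : vfun (U5 a b) (rdξ a b z c k)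
      (fun q => rs a b (rdpe (MvPolynomial.C (-1) * rdΨ a z c)) q) = _ :=
    rd_D_pe (MvPolynomial.C (-1) * rdΨ a z c)
  have e4 : vfun (U5 a b) (rdξ a b z c k) (rs a b (rdpe (MvPolynomial.X k ^ 11))) =
      fun _ => 0 := by
    rw [rd_D_pe, MvPolynomial.pderiv_pow, MvPolynomial.pderiv_X_of_ne (rd_ne k), mul_zero]
    funext q
    rw [rdpe_zero, mul_zero]
  rw [e3, e4] at e2
  funext q
  have e5 := congrFun e2 q
  simp only [rs, rdpe_pow, rdpe_X, MvPolynomial.pderiv_C_mul, rdpe_mul, rdpe_C, rdτ, rdH, rds]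
    at e5
  have h3 := rdQ_ne a q
  apply mul_right_cancel₀ h3
  linear_combination e5

theorem rd_D_x (hB : ∑ i, c i * rdQe a i = MvPolynomial.X k ^ 11) (i : Fin 4) :
    vfun (U5 a b) (rdξ a b z c k) (rs a b (cx a z i)) =
      fun q => cu k q.1 ^ 2 * (∏ j, mf b j q.1) ^ 3 *
        (rdpe (MvPolynomial.pderiv (1 - k) (rdΨe a z c i)) q.1 +
          rdy a z c q.1 * rdpe (MvPolynomial.pderiv (1 - k) (rdQe a i)) q.1) := by
  have hU := isOpen_U5 a b
  have e1 : (fun q => rs a b (cx a z i) q * rs a b (rdpe (rdL a i ^ 3)) q) =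
      fun q => rs a b ct q + (fun _ => - z i) q := by
    funext q
    have h1 := rdx_mul a z i q
    simp only [rs]
    rw [h1]
    ring
  have e2 := congrArg (vfun (U5 a b) (rdξ a b z c k)) e1
  rw [vfun_mul hU (rd_anu_cx i) (rdpe_anu _), vfun_add hU rd_anu_ct (anu_const hU _),
    vfun_const hU, rd_D_pe, rd_D_ct] at e2
  funext q
  have e5 := congrFun e2 q
  have e6 := rdx_eq a z c hB i q
  simp only [rs, rdτ, rdH, rds, Pi.zero_apply, add_zero, rdΨ_pd a z c hB i, rdQ_pd a k i,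
    rdpe_add, rdpe_mul] at e5
  have h3 := rdL_ne a i q
  apply mul_right_cancel₀ h3
  linear_combination e5 - (cu k q.1 ^ 2 * (∏ j, mf b j q.1) ^ 3 *
    rdpe (MvPolynomial.pderiv (1 - k) (rdL a i ^ 3)) q.1) * e6

theorem rd_D_mf (j : Fin 4) :
    vfun (U5 a b) (rdξ a b z c k) (rs a b (fun q => mf b j q ^ 3)) = fun _ => 0 := by
  have hU := isOpen_U5 a b
  have e0 : vfun (U5 a b) (rdξ a b z c k) (rs a b (mf b j)) = fun _ => 0 := by
    have e1 : rs a b (mf b j) = fun q => rs a b (cw 0) q +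
        (fun q => (fun _ => - b j) q * rs a b (cw 1) q) q := by
      funext q
      simp only [rs, mf, cw, if_true, one_ne_zero, if_false]
      ring
    rw [e1, vfun_add hU (rd_anu_cw 0) (anu_mul hU (anu_const hU _) (rd_anu_cw 1)),
      vfun_mul hU (anu_const hU _) (rd_anu_cw 1), rd_D_cw, rd_D_cw, vfun_const hU]
    funext q
    simp
  have hm : AnU (U5 a b) (rs a b (mf b j)) :=
    anu_of_restrict hU fun q _ => rd_mf_an b j q
  have e1 : rs a b (fun q => mf b j q ^ 3) = fun q => rs a b (mf b j) q *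
      (fun q => rs a b (mf b j) q * rs a b (mf b j) q) q := by
    funext q
    simp only [rs]
    ring
  rw [e1, vfun_mul hU hm (anu_mul hU hm hm), vfun_mul hU hm hm, e0]
  funext q
  simp

theorem rd_D_yj (j : Fin 4) :
    vfun (U5 a b) (rdξ a b z c k) (rs a b (cy b z' j)) =
      fun q => cu k q.1 ^ 2 * (∏ l ∈ Finset.univ.erase j, mf b l q.1) ^ 3 *
        rdH a z c k q.1 := by
  have hU := isOpen_U5 a b
  have hm : AnU (U5 a b) (rs a b (fun q => mf b j q ^ 3)) :=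
    anu_of_restrict hU fun q _ => (rd_mf_an b j q).pow 3
  have h0 : ∀ q : U5 a b, mf b j q.1 ^ 3 ≠ 0 := fun q => pow_ne_zero _ (q.2.2 j)
  have e1 : (fun q => rs a b (cy b z' j) q * rs a b (fun q => mf b j q ^ 3) q) =
      fun q => rs a b ct q + (fun _ => - z' j) q := by
    funext q
    simp only [rs, cy]
    rw [div_mul_cancel₀ _ (h0 q)]
    ring
  have e2 := congrArg (vfun (U5 a b) (rdξ a b z c k)) e1
  rw [vfun_mul hU (rd_anu_cy j) hm, vfun_add hU rd_anu_ct (anu_const hU _),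
    vfun_const hU, rd_D_mf, rd_D_ct] at e2
  funext q
  have e5 := congrFun e2 q
  have e6 : ∏ j, mf b j q.1 = mf b j q.1 * ∏ l ∈ Finset.univ.erase j, mf b l q.1 :=
    (Finset.mul_prod_erase Finset.univ (fun l => mf b l q.1) (Finset.mem_univ j)).symm
  simp only [rs, rdτ, Pi.zero_apply, add_zero, e6] at e5
  apply mul_right_cancel₀ (h0 q)
  linear_combination e5

end

section

variable {a b z z' : Fin 4 → ℂ} {c : Fin 4 → MvPolynomial (Fin 2) ℂ} {k : Fin 2}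

theorem rd_w_cw (j : Fin 2) : RdWD a b z z' (rdξ a b z c k) (-1) (rs a b (cw j)) :=
  rd_of_zero (Wt.w j) (rd_anu_cw j) (rd_D_cw j)

theorem rd_w_cu0 : RdWD a b z z' (rdξ a b z c k) 1 (rs a b (cu k)) :=
  rd_of_zero (Wt.u k) (rd_anu_cu k) rd_D_cu0

theorem rd_w_mf (j : Fin 4) : RdWD a b z z' (rdξ a b z c k) (-1) (rs a b (mf b j)) := by
  have hξ := rdξ_an a b z c k
  refine rd_cast (rd_add hξ (rd_w_cw 0) (rd_mul hξ (rd_const (- b j)) (rd_w_cw 1))) (by simp) ?_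
  funext q
  simp only [rs, mf, cw, if_true, one_ne_zero, if_false]
  ring

theorem rd_w_M (s : Finset (Fin 4)) :
    RdWD a b z z' (rdξ a b z c k) (-(3 * s.card)) (fun q => (∏ j ∈ s, mf b j q.1) ^ 3) := by
  have hξ := rdξ_an a b z c k
  refine rd_cast (rd_pow hξ (rd_prod hξ s (fun j _ => rd_w_mf j)) 3) ?_ rfl
  simp

theorem rd_w_s : RdWD a b z z' (rdξ a b z c k) 1 (rs a b (rds b k)) := by
  have hξ := rdξ_an a b z c k
  refine rd_cast (rd_mul hξ (rd_pow hξ rd_w_cu0 13) (rd_w_M Finset.univ)) ?_ rfl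
  simp

theorem rd_w_cu (j : Fin 2) : RdWD a b z z' (rdξ a b z c k) 1 (rs a b (cu j)) := by
  rcases rd_fst2 j k with h | h
  · subst h
    exact rd_w_cu0
  · subst h
    exact rd_of_vfun (Wt.u _) (rd_anu_cu _) rd_D_cu1 rd_w_s

theorem rd_w_pe {p : MvPolynomial (Fin 2) ℂ} {m : ℕ} (hp : p.IsHomogeneous m) :
    RdWD a b z z' (rdξ a b z c k) m (rs a b (rdpe p)) :=
  rd_pe (rdξ_an a b z c k) rd_w_cu hp

theorem rd_w_y (hc : ∀ i, (c i).IsHomogeneous 2)
    (hB : ∑ i, c i * rdQe a i = MvPolynomial.X k ^ 11) :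
    RdWD a b z z' (rdξ a b z c k) (-1) (rs a b (rdy a z c)) := by
  refine rd_of_zero ?_ rd_anu_y (rd_D_y hB)
  have h1 : ∀ s : Finset (Fin 4), Wt a b z z' (-1)
      (fun q => ∑ i ∈ s, rdpe (c i) q.1 * cx a z i q.1) := by
    intro s
    induction s using Finset.induction_on with
    | empty => exact rd_wt_cast (rd_wt_zero (-1)) rfl (by funext q; simp)
    | insert i s hi ih =>
      have h2 : Wt a b z z' (-1) (fun q => rdpe (c i) q.1 * cx a z i q.1) :=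
        rd_wt_cast (((rd_w_pe (a := a) (b := b) (z := z) (z' := z') (c := c) (k := k)
          (hc i)).1).mul (Wt.x i)) (by norm_num) rfl
      refine rd_wt_cast (h2.add ih) rfl ?_
      funext q
      rw [Finset.sum_insert hi]
  exact h1 Finset.univ

theorem rd_w_H (hc : ∀ i, (c i).IsHomogeneous 2)
    (hB : ∑ i, c i * rdQe a i = MvPolynomial.X k ^ 11) :
    RdWD a b z z' (rdξ a b z c k) 10 (rs a b (rdH a z c k)) := by
  have hξ := rdξ_an a b z c k
  have h1 := rd_w_pe (a := a) (b := b) (z := z) (z' := z') (c := c) (k := k)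
    ((rdΨ_hom a z c hc).pderiv (i := 1 - k))
  have h2 := rd_w_pe (a := a) (b := b) (z := z) (z' := z') (c := c) (k := k)
    ((rdQ_hom a).pderiv (i := 1 - k))
  exact rd_cast (rd_add hξ (rd_cast h1 (by norm_num) rfl)
    (rd_cast (rd_mul hξ (rd_w_y hc hB) h2) (by norm_num) rfl)) rfl rfl

theorem rd_w_t (hc : ∀ i, (c i).IsHomogeneous 2)
    (hB : ∑ i, c i * rdQe a i = MvPolynomial.X k ^ 11) :
    RdWD a b z z' (rdξ a b z c k) 0 (rs a b ct) := by
  have hξ := rdξ_an a b z c k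
  refine rd_of_vfun Wt.t rd_anu_ct rd_D_ct ?_
  refine rd_cast (rd_mul hξ (rd_mul hξ (rd_pow hξ rd_w_cu0 2) (rd_w_M Finset.univ))
    (rd_w_H hc hB)) ?_ rfl
  simp

theorem rd_w_x (hc : ∀ i, (c i).IsHomogeneous 2)
    (hB : ∑ i, c i * rdQe a i = MvPolynomial.X k ^ 11) (i : Fin 4) :
    RdWD a b z z' (rdξ a b z c k) (-3) (rs a b (cx a z i)) := by
  have hξ := rdξ_an a b z c k
  refine rd_of_vfun (Wt.x i) (rd_anu_cx i) (rd_D_x hB i) ?_
  have h1 := rd_w_pe (a := a) (b := b) (z := z) (z' := z') (c := c) (k := k)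
    ((rdΨe_hom a z c hc i).pderiv (i := 1 - k))
  have h2 := rd_w_pe (a := a) (b := b) (z := z) (z' := z') (c := c) (k := k)
    ((rdQe_hom a i).pderiv (i := 1 - k))
  have h3 : RdWD a b z z' (rdξ a b z c k) 7 (fun q =>
      rdpe (MvPolynomial.pderiv (1 - k) (rdΨe a z c i)) q.1 +
          rdy a z c q.1 * rdpe (MvPolynomial.pderiv (1 - k) (rdQe a i)) q.1) :=
    rd_cast (rd_add hξ (rd_cast h1 (by norm_num) rfl)
      (rd_cast (rd_mul hξ (rd_w_y hc hB) h2) (by norm_num) rfl)) rfl rfl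
  refine rd_cast (rd_mul hξ (rd_mul hξ (rd_pow hξ rd_w_cu0 2) (rd_w_M Finset.univ))
    h3) ?_ rfl
  simp

theorem rd_w_yj (hc : ∀ i, (c i).IsHomogeneous 2)
    (hB : ∑ i, c i * rdQe a i = MvPolynomial.X k ^ 11) (j : Fin 4) :
    RdWD a b z z' (rdξ a b z c k) 3 (rs a b (cy b z' j)) := by
  have hξ := rdξ_an a b z c k
  refine rd_of_vfun (Wt.y j) (rd_anu_cy j) (rd_D_yj j) ?_
  refine rd_cast (rd_mul hξ (rd_mul hξ (rd_pow hξ rd_w_cu0 2) (rd_w_M (Finset.univ.erase j)))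
    (rd_w_H hc hB)) ?_ rfl
  simp

theorem rd_w_gen (hc : ∀ i, (c i).IsHomogeneous 2)
    (hB : ∑ i, c i * rdQe a i = MvPolynomial.X k ^ 11) (g : GI) :
    RdWD a b z z' (rdξ a b z c k) 0 (rs a b (gf a b z z' g)) := by
  have hξ := rdξ_an a b z c k
  cases g with
  | P k l => exact rd_cast (rd_mul hξ (rd_w_cu k) (rd_w_cw l)) (by norm_num) rfl
  | t => exact rd_w_t hc hB
  | X i j =>
    refine rd_cast (rd_mul hξ (rd_mul hξ (rd_pow hξ (rd_w_cu 0) (j : ℕ))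
      (rd_pow hξ (rd_w_cu 1) (3 - (j : ℕ)))) (rd_w_x hc hB i)) ?_ rfl
    fin_cases j <;> norm_num
  | Y i j =>
    refine rd_cast (rd_mul hξ (rd_mul hξ (rd_pow hξ (rd_w_cw 0) (j : ℕ))
      (rd_pow hξ (rd_w_cw 1) (3 - (j : ℕ)))) (rd_w_yj hc hB i)) ?_ rfl
    fin_cases j <;> norm_num
  | Z i j => exact rd_cast (rd_mul hξ (rd_w_x hc hB i) (rd_w_yj hc hB j)) (by norm_num) rfl

end

theorem exists_R {a : Fin 4 → ℂ} (b z z' : Fin 4 → ℂ) (hB : HasBez a) (k : Fin 2) :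
    ∃ σ : Derivation ℂ (Aring a b z z') (Aring a b z z'),
      Pool.Agent.H29.Flex.IsLND σ ∧ (∀ l, σ (ge a b z z' (GI.P k l)) = 0) ∧
      ∀ l, ((σ (ge a b z z' (GI.P (1 - k) l)) : Aring a b z z') : U5 a b → ℂ) =
        fun q => cu k q.1 ^ 13 * (∏ j, mf b j q.1) ^ 3 * cw l q.1 := by
  obtain ⟨c, hc, hB⟩ := hB k
  have hB' : ∑ i, c i * rdQe a i = MvPolynomial.X k ^ 11 := hB
  have hU := isOpen_U5 a b
  have hgen := fun g => rd_w_gen (a := a) (b := b) (z := z) (z' := z') hc hB' g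
  obtain ⟨σ, hσ, hσ2⟩ := der_of_vf (U := U5 a b) (ξ := rdξ a b z c k) hU (rdξ_an a b z c k)
    (S := range fun g : GI => rs a b (gf a b z z' g))
    (by
      rintro _ ⟨g, rfl⟩
      exact (hgen g).2.2.1)
    (by
      rintro _ ⟨g, rfl⟩
      exact wt_mem (hgen g).2.1)
  let σ' : Derivation ℂ (Aring a b z z') (Aring a b z z') := σ
  have hσ' : ∀ f : Aring a b z z', ((σ' f : Aring a b z z') : U5 a b → ℂ) =
      vfun (U5 a b) (rdξ a b z c k) (f : U5 a b → ℂ) := hσ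
  refine ⟨σ', hσ2 ?_, fun l => ?_, fun l => ?_⟩
  · rintro _ ⟨g, rfl⟩
    exact (hgen g).2.2
  · apply Subtype.ext
    rw [hσ']
    have h1 : ((ge a b z z' (GI.P k l) : Aring a b z z') : U5 a b → ℂ) =
      fun q => rs a b (cu k) q * rs a b (cw l) q := rfl
    rw [h1, vfun_mul hU (rd_anu_cu k) (rd_anu_cw l), rd_D_cu0, rd_D_cw]
    funext q
    simp
  · rw [hσ']
    have h1 : ((ge a b z z' (GI.P (1 - k) l) : Aring a b z z') : U5 a b → ℂ) =
      fun q => rs a b (cu (1 - k)) q * rs a b (cw l) q := rfl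
    rw [h1, vfun_mul hU (rd_anu_cu _) (rd_anu_cw l), rd_D_cu1, rd_D_cw]
    funext q
    simp [rs, rds]

end Pool.Agent.H43.FX
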