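import Pool.Agent.H43.FX.Defs
import Pool.Agent.H29.Flex.Complete

/-!
# The ring of the example

`C5` has coordinates `q = (u₁, u₂, w₁, w₂, t)`.  `U5 a b` is the open set where all
`ℓ_i = u₁ - a_i u₂` and `m_j = w₁ - b_j w₂` are nonzero.  The ring `Aring a b z z'` is the
subalgebra of the algebra of functions on `U5 a b` generated by the 53 functions
`P k l = u_k w_l`, `t`, `X i k = u₁^k u₂^{3-k} x_i`, `Y j k = w₁^k w₂^{3-k} y_j`,
`Z i j = x_i y_j`, where `x_i = (t - z_i)/ℓ_i³`, `y_j = (t - z'_j)/m_j³`.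
-/

namespace Pool.Agent.H43.FX

open Set Metric Filter Topology

/-- `q = (u₁, u₂, w₁, w₂, t)`. -/
abbrev C5 : Type := ℂ × ℂ × ℂ × ℂ × ℂ

/-- The coordinates `u₁, u₂`. -/
def cu (k : Fin 2) (q : C5) : ℂ := if k = 0 then q.1 else q.2.1

/-- The coordinates `w₁, w₂`. -/
def cw (k : Fin 2) (q : C5) : ℂ := if k = 0 then q.2.2.1 else q.2.2.2.1

/-- The coordinate `t`. -/
def ct (q : C5) : ℂ := q.2.2.2.2

/-- The linear forms `ℓ_i`. -/
def lf (a : Fin 4 → ℂ) (i : Fin 4) (q : C5) : ℂ := q.1 - a i * q.2.1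

/-- The linear forms `m_j`. -/
def mf (b : Fin 4 → ℂ) (j : Fin 4) (q : C5) : ℂ := q.2.2.1 - b j * q.2.2.2.1

/-- `x_i = (t - z_i)/ℓ_i³`. -/
noncomputable def cx (a z : Fin 4 → ℂ) (i : Fin 4) (q : C5) : ℂ := (ct q - z i) / lf a i q ^ 3

/-- `y_j = (t - z'_j)/m_j³`. -/
noncomputable def cy (b z' : Fin 4 → ℂ) (j : Fin 4) (q : C5) : ℂ := (ct q - z' j) / mf b j q ^ 3

/-- The domain. -/
def U5 (a b : Fin 4 → ℂ) : Set C5 := {q | (∀ i, lf a i q ≠ 0) ∧ ∀ j, mf b j q ≠ 0}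

/-- The names of the 53 generators. -/
inductive GI : Type
  | P (k l : Fin 2) : GI
  | t : GI
  | X (i k : Fin 4) : GI
  | Y (j k : Fin 4) : GI
  | Z (i j : Fin 4) : GI
  deriving DecidableEq, Fintype

/-- The generators as functions. -/
noncomputable def gf (a b z z' : Fin 4 → ℂ) : GI → C5 → ℂ
  | GI.P k l => fun q => cu k q * cw l q
  | GI.t => ct
  | GI.X i k => fun q => cu 0 q ^ (k : ℕ) * cu 1 q ^ (3 - (k : ℕ)) * cx a z i q
  | GI.Y j k => fun q => cw 0 q ^ (k : ℕ) * cw 1 q ^ (3 - (k : ℕ)) * cy b z' j q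
  | GI.Z i j => fun q => cx a z i q * cy b z' j q

/-- Restriction of functions to the domain. -/
def rs (a b : Fin 4 → ℂ) (f : C5 → ℂ) : U5 a b → ℂ := fun q => f q.1

/-- The coordinate ring of the example. -/
noncomputable def Aring (a b z z' : Fin 4 → ℂ) : Subalgebra ℂ (U5 a b → ℂ) :=
  Algebra.adjoin ℂ (range fun g : GI => rs a b (gf a b z z' g))

/-- The generators as elements of the ring. -/
noncomputable def ge (a b z z' : Fin 4 → ℂ) (g : GI) : Aring a b z z' :=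
  ⟨rs a b (gf a b z z' g), Algebra.subset_adjoin ⟨g, rfl⟩⟩

open Classical in
/-- Extension by zero of a function on a subset. -/
noncomputable def ex {E : Type*} (U : Set E) (f : U → ℂ) (q : E) : ℂ :=
  if h : q ∈ U then f ⟨q, h⟩ else 0

/-- The point with gauge coordinates `(κ; v, ω, t)`: `u = (v,1)`, `w = (κω, κ)`. -/
def pt5 (x : ℂ × ℂ × ℂ × ℂ) : C5 := (x.2.1, 1, x.1 * x.2.2.1, x.1, x.2.2.2)

/-- The domain of the gauge coordinates `(κ; v, ω, t)`. -/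
def D4 (a b : Fin 4 → ℂ) : Set (ℂ × ℂ × ℂ × ℂ) := {x | x.1 ≠ 0 ∧ x.2 ∈ D3 a b}

/-- A function in gauge coordinates. -/
noncomputable def res (a b : Fin 4 → ℂ) (f : U5 a b → ℂ) (x : ℂ × ℂ × ℂ × ℂ) : ℂ :=
  ex (U5 a b) f (pt5 x)

theorem pt5_mem {a b : Fin 4 → ℂ} {x : ℂ × ℂ × ℂ × ℂ} (hx : x ∈ D4 a b) :
    pt5 x ∈ U5 a b := by
  obtain ⟨h0, h1, h2⟩ := hx
  refine ⟨fun i h => h1 ⟨i, ?_⟩, fun j h => h2 ⟨j, ?_⟩⟩
  · simp only [lf, pt5, mul_one] at h
    linear_combination -h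
  · simp only [mf, pt5] at h
    have : x.1 * (x.2.2.1 - b j) = 0 := by linear_combination h
    have := (mul_eq_zero.mp this).resolve_left h0
    linear_combination -this

theorem res_eq {a b : Fin 4 → ℂ} (f : U5 a b → ℂ) {x : ℂ × ℂ × ℂ × ℂ} (hx : x ∈ D4 a b) :
    res a b f x = f ⟨pt5 x, pt5_mem hx⟩ := by
  simp only [res, ex, dif_pos (pt5_mem hx)]

/-- Evaluation at a point of the domain, as a point of the variety. -/
noncomputable def evA (a b z z' : Fin 4 → ℂ) (q : U5 a b) : Aring a b z z' →ₐ[ℂ] ℂ :=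
  (Pi.evalAlgHom ℂ (fun _ : U5 a b => ℂ) q).comp (Aring a b z z').val

@[simp] theorem evA_apply (a b z z' : Fin 4 → ℂ) (q : U5 a b) (f : Aring a b z z') :
    evA a b z z' q f = (f : U5 a b → ℂ) q := rfl

end Pool.Agent.H43.FX
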