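import Pool.Agent.H43.FX.Order
import Pool.Agent.H43.FX.RegDiv

/-!
# FX-TDIVC : divisibility of the second leading coefficient of `c`

Write `Q' = range b \ {b j}`, `β = ω - b j`.  `ch(b_j, ·) ∈ Kt` is a polynomial `p`
(`ratx_restrict`, `kt_iff`).
(1) At `zi`.  By `div_c`, `c = (t-zi)^r h` on `D2`, `n+2 ≤ 3r`, `h ∈ Rw`.  `exists_order` for
the one-element family `h` at `b j` (`𝒦 = Kt`, `U = univ`, `o = 0`): either `h = 0` on `D2`,
then `c = 0` on `D2`, `ch = 0` off `range b`, and by continuity `ch(b_j,t) = 0`, `p = 0`,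
and the claim is trivial; or `h = β^{-m} hh` on `D2`, `m : ℤ`, `hh ∈ RatX Q' Kt`,
`hh(b_j,t₁) ≠ 0` for some `t₁`.  Then `β^{-n'} ch = (t-zi)^r β^{-m} hh` on `D2`, i.e.
`ch = (t-zi)^r β^{n'-m} hh` for `ω ∉ range b`.  If `m > n'`: multiply by `β^{m-n'}` and let
`β → 0`: `(t-zi)^r hh(b_j,t) = 0` for all `t`, so the polynomial `hh(b_j,·)` vanishes for
`t ≠ zi`, hence everywhere: contradiction.  So `m ≤ n'` and, letting `β → 0`,
`ch(b_j,t) = (t-zi)^r · (0^{n'-m} hh(b_j,t))`: `(X - zi)^r ∣ p`.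
(2) At `z' j`.  `w = β^{1-n'} wh`; by `reg_w`, `‖wh(b_j+β, z'_j+β³X)‖ ≤ M ‖β‖^{n'-1}` (small
`β ≠ 0`, so that `b_j + β ∉ range b`); `reg_div2` with `e = n'-1` and
`r₀ = ⌈(n'-1)/3⌉ = (n'+1)/3` (natural division; `3r₀ < (n'-1)+3`, `n'-1 ≤ 3r₀`):
`wh(b_j,t) = (t-z'_j)^{r₀} h₀(t)`.  By `reg_cw`,
`(c - 3(t-z'_j) w/β)/β³ = β^{-n'-3}(ch - 3(t-z'_j) wh)`, so `f = ch - 3(t-z'_j)wh ∈ RatX Q' Kt`
satisfies the hypothesis of `reg_div2` with `e = n'+3`; `r₁ = ⌈(n'+3)/3⌉ = (n'+5)/3`: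
`f(b_j,t) = (t-z'_j)^{r₁} h₁(t)`.  So `ch(b_j,t) = 3(t-z'_j)^{r₀+1} h₀ + (t-z'_j)^{r₁}h₁` is
divisible by `(t-z'_j)^{r'}`, `r' = min(r₀+1, r₁)`, `3r' ≥ n'+2`.
(3) So `(X-zi)^{3r} ∣ p^3`, `(X-z'_j)^{3r'} ∣ p^3`, `3r ≥ n+2`, `3r' ≥ n'+2`, and the two
factors are coprime (`zi ≠ z' j`): the product divides (`IsCoprime.mul_dvd`).
-/

namespace Pool.Agent.H43.FX

open Set Metric Filter Topology Polynomial

variable {b z' : Fin 4 → ℂ} {zi : ℂ} {n d : ℕ} {w c δ τ : ℂ × ℂ → ℂ}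

private lemma tdc_nhds (b : Fin 4 → ℂ) (j : Fin 4) : ∀ᶠ x in 𝓝[≠] (b j), x ∉ range b := by
  have h1 : ∀ᶠ x in 𝓝 (b j), x ∉ range b \ {b j} := by
    have hfin : (range b \ {b j}).Finite := (finite_range b).subset sdiff_subset
    exact hfin.isClosed.isOpen_compl.mem_nhds (by simp)
  filter_upwards [mem_nhdsWithin_of_mem_nhds h1, self_mem_nhdsWithin] with x hx hx' hxr
  exact hx ⟨hxr, hx'⟩

private lemma tdc_small (b : Fin 4 → ℂ) (j : Fin 4) :
    ∃ ε : ℝ, 0 < ε ∧ ∀ β : ℂ, 0 < ‖β‖ → ‖β‖ < ε → b j + β ∉ range b := by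
  have h := tdc_nhds b j
  rw [eventually_nhdsWithin_iff, Metric.eventually_nhds_iff] at h
  obtain ⟨ε, hε, h⟩ := h
  refine ⟨ε, hε, fun β h0 h1 => h ?_ ?_⟩
  · simpa [dist_eq_norm] using h1
  · simpa using h0

private lemma tdc_lim {F G : ℂ → ℂ} {c : ℂ} (hF : ContinuousAt F c) (hG : ContinuousAt G c)
    (h : ∀ᶠ x in 𝓝[≠] c, F x = G x) : F c = G c :=
  tendsto_nhds_unique_of_eventuallyEq (hF.mono_left nhdsWithin_le_nhds)
    (hG.mono_left nhdsWithin_le_nhds) h

private lemma tdc_cont {P : Set ℂ} {f : ℂ × ℂ → ℂ} (hf : f ∈ RatX P Kt) {x t : ℂ}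
    (hx : x ∉ P) : ContinuousAt (fun s => f (s, t)) x := by
  have h1 : ContinuousAt f (x, t) := (ratkt_analytic hf hx).continuousAt
  have h2 : ContinuousAt (fun s : ℂ => (s, t)) x := by fun_prop
  exact ContinuousAt.comp (f := fun s : ℂ => (s, t)) (g := f) h1 h2

/-- divisibility at `zi` -/
private lemma tdc_zi (h : Lvl2 b z' zi n d w c δ τ)
    {j : Fin 4} {n' : ℕ} {ch : ℂ × ℂ → ℂ}
    (mc : ch ∈ RatX (range b \ {b j}) Kt)
    (ec : ∀ p ∈ D2 b, c p = (p.1 - b j) ^ (-(n' : ℤ)) * ch p) {p : ℂ[X]}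
    (hp : ∀ t, ch (b j, t) = p.eval t) :
    ∃ r : ℕ, n + 2 ≤ 3 * r ∧ (X - C zi) ^ r ∣ p := by
  obtain ⟨r, h0, hr, mh0, eh0⟩ := h.div_c
  refine ⟨r, hr, ?_⟩
  have hbj : b j ∉ range b \ {b j} := by simp
  have hne : ∀ x, x ∉ range b → x - b j ≠ 0 := fun x hx h0 =>
    hx ⟨j, (sub_eq_zero.mp h0).symm⟩
  have hcont : ∀ t, ContinuousAt (fun s => ch (s, t)) (b j) := fun t => tdc_cont mc hbj
  rcases exists_order (ι := Unit) (finite_range b) (mem_range_self j) (𝒦 := Kt) (U := univ)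
    (fun k hk y _ => kt_analytic hk y) (f := fun _ => h0) (fun _ => mh0) (fun _ => 0) with h1 | h1
  · have hch : ∀ t, ch (b j, t) = 0 := by
      intro t
      refine tdc_lim (F := fun s => ch (s, t)) (G := fun _ => 0) (hcont t) continuousAt_const ?_
      filter_upwards [tdc_nhds b j] with x hx
      have e1 := ec (x, t) hx
      have e2 := eh0 (x, t) hx
      have e3 := h1 () x hx t (mem_univ _)
      rw [e2] at e1
      simp only at e1 e3
      rw [e3, mul_zero] at e1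
      rcases mul_eq_zero.mp e1.symm with h | h
      · exact absurd h (zpow_ne_zero _ (hne x hx))
      · exact h
    have : p = 0 := Polynomial.funext fun t => by rw [← hp t, hch t]; simp
    rw [this]
    exact dvd_zero _
  · obtain ⟨m, fh, mfh, efh, _, y, _, hy⟩ := h1
    have mfh := mfh ()
    have efh := efh ()
    set g := fh () with hg
    have hgc : ∀ t, ContinuousAt (fun s => g (s, t)) (b j) := fun t => tdc_cont mfh hbj
    have key : ∀ x, x ∉ range b → ∀ t, (x - b j) ^ (-(n' : ℤ)) * ch (x, t) =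
        (t - zi) ^ r * ((x - b j) ^ (0 - m) * g (x, t)) := by
      intro x hx t
      have e1 := ec (x, t) hx
      have e2 := eh0 (x, t) hx
      have e3 := efh x hx t (mem_univ _)
      simp only at e1 e2 e3
      rw [← e1, e2, e3]
    rcases lt_or_ge (n' : ℤ) m with hlt | hge
    · exfalso
      obtain ⟨e, he⟩ := Int.eq_ofNat_of_zero_le (by omega : 0 ≤ m - n')
      have he1 : 1 ≤ e := by omega
      have hz : ∀ t, (t - zi) ^ r * g (b j, t) = 0 := by
        intro t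
        have := tdc_lim (c := b j) (F := fun s => (t - zi) ^ r * g (s, t))
          (G := fun s => (s - b j) ^ e * ch (s, t)) (continuousAt_const.mul (hgc t))
          (((continuousAt_id.sub continuousAt_const).pow e).mul (hcont t)) (by
            filter_upwards [tdc_nhds b j] with x hx
            have k := key x hx t
            have hx0 := hne x hx
            have k2 : (x - b j) ^ m * ((x - b j) ^ (-(n' : ℤ)) * ch (x, t)) =
                (x - b j) ^ m * ((t - zi) ^ r * ((x - b j) ^ (0 - m) * g (x, t))) := by rw [k]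
            have a1 : (x - b j) ^ m * (x - b j) ^ (-(n' : ℤ)) = (x - b j) ^ e := by
              rw [← zpow_add₀ hx0, ← zpow_natCast (x - b j) e, ← he]; congr 1
            have a2 : (x - b j) ^ m * (x - b j) ^ (0 - m) = 1 := by
              rw [← zpow_add₀ hx0]; simp
            calc (t - zi) ^ r * g (x, t)
                = (t - zi) ^ r * (((x - b j) ^ m * (x - b j) ^ (0 - m)) * g (x, t)) := by
                  rw [a2, one_mul]
              _ = (x - b j) ^ m * ((t - zi) ^ r * ((x - b j) ^ (0 - m) * g (x, t))) := by ring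
              _ = (x - b j) ^ m * ((x - b j) ^ (-(n' : ℤ)) * ch (x, t)) := k2.symm
              _ = ((x - b j) ^ m * (x - b j) ^ (-(n' : ℤ))) * ch (x, t) := by ring
              _ = (x - b j) ^ e * ch (x, t) := by rw [a1])
        simp only [sub_self] at this
        rw [this, zero_pow (by omega), zero_mul]
      have hz1 : ∀ t, t ≠ zi → g (b j, t) = 0 := by
        intro t ht
        rcases mul_eq_zero.mp (hz t) with h | h
        · exact absurd h (pow_ne_zero _ (sub_ne_zero.mpr ht))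
        · exact h
      have hcy : Continuous (fun t => g (b j, t)) := by
        rw [continuous_iff_continuousAt]
        intro t
        exact (kt_analytic (ratx_restrict mfh (b j)) t).continuousAt
      have hzz : g (b j, zi) = 0 :=
        tdc_lim (c := zi) (F := fun t => g (b j, t)) (G := fun _ => 0) hcy.continuousAt
          continuousAt_const (by
            filter_upwards [self_mem_nhdsWithin] with t ht
            exact hz1 t ht)
      by_cases hyz : y = zi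
      · exact hy (by rw [hyz]; exact hzz)
      · exact hy (hz1 y hyz)
    · obtain ⟨e, he⟩ := Int.eq_ofNat_of_zero_le (by omega : 0 ≤ (n' : ℤ) - m)
      obtain ⟨q, hq⟩ := kt_iff.mp (ratx_restrict mfh (b j))
      have hq' : ∀ t, g (b j, t) = q.eval t := fun t => congrFun hq t
      have hz : ∀ t, ch (b j, t) = (t - zi) ^ r * ((0 : ℂ) ^ e * g (b j, t)) := by
        intro t
        have := tdc_lim (c := b j) (F := fun s => ch (s, t))
          (G := fun s => (t - zi) ^ r * ((s - b j) ^ e * g (s, t))) (hcont t)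
          (continuousAt_const.mul (((continuousAt_id.sub continuousAt_const).pow e).mul (hgc t))) (by
            filter_upwards [tdc_nhds b j] with x hx
            have k := key x hx t
            have hx0 := hne x hx
            have a1 : (x - b j) ^ (n' : ℤ) * (x - b j) ^ (-(n' : ℤ)) = 1 := by
              rw [← zpow_add₀ hx0]; simp
            have a2 : (x - b j) ^ (n' : ℤ) * (x - b j) ^ (0 - m) = (x - b j) ^ e := by
              rw [← zpow_add₀ hx0, ← zpow_natCast (x - b j) e]; congr 1; omega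
            calc ch (x, t) = ((x - b j) ^ (n' : ℤ) * (x - b j) ^ (-(n' : ℤ))) * ch (x, t) := by
                  rw [a1, one_mul]
              _ = (x - b j) ^ (n' : ℤ) * ((x - b j) ^ (-(n' : ℤ)) * ch (x, t)) := by ring
              _ = (x - b j) ^ (n' : ℤ) * ((t - zi) ^ r * ((x - b j) ^ (0 - m) * g (x, t))) := by
                  rw [k]
              _ = (t - zi) ^ r * (((x - b j) ^ (n' : ℤ) * (x - b j) ^ (0 - m)) * g (x, t)) := by
                  ring
              _ = (t - zi) ^ r * ((x - b j) ^ e * g (x, t)) := by rw [a2])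
        simpa only [sub_self] using this
      refine ⟨C ((0 : ℂ) ^ e) * q, Polynomial.funext fun t => ?_⟩
      rw [← hp t, hz t, hq' t]
      simp

/-- divisibility at `z' j` -/
private lemma tdc_zj (h : Lvl2 b z' zi n d w c δ τ)
    {j : Fin 4} {n' : ℕ} (hn' : 1 ≤ n') {wh ch : ℂ × ℂ → ℂ}
    (mw : wh ∈ RatX (range b \ {b j}) Kt) (mc : ch ∈ RatX (range b \ {b j}) Kt)
    (ew : ∀ p ∈ D2 b, w p = (p.1 - b j) ^ (1 - (n' : ℤ)) * wh p)
    (ec : ∀ p ∈ D2 b, c p = (p.1 - b j) ^ (-(n' : ℤ)) * ch p) {p : ℂ[X]}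
    (hp : ∀ t, ch (b j, t) = p.eval t) :
    ∃ r : ℕ, n' + 2 ≤ 3 * r ∧ (X - C (z' j)) ^ r ∣ p := by
  have hbj : b j ∉ range b \ {b j} := by simp
  have hfin : (range b \ {b j}).Finite := (finite_range b).subset sdiff_subset
  obtain ⟨ε, hε, hsm⟩ := tdc_small b j
  -- `wh`
  obtain ⟨h₀, mh₀, eh₀⟩ := reg_div2 (z := z' j) hfin hbj mw (e := n' - 1) (by
    obtain ⟨M, ρ, hρ, hM⟩ := h.reg_w j
    refine ⟨M, min ρ ε, lt_min hρ hε, fun β hβ0 hβ Y hY => ?_⟩
    have hD : b j + β ∉ range b := hsm β hβ0 (lt_of_lt_of_le hβ (min_le_right _ _))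
    have e1 := ew (b j + β, z' j + β ^ 3 * Y) hD
    have hβne : β ≠ 0 := norm_pos_iff.mp hβ0
    simp only [add_sub_cancel_left] at e1
    have e2 : wh (b j + β, z' j + β ^ 3 * Y) =
        w (b j + β, z' j + β ^ 3 * Y) * β ^ (n' - 1) := by
      rw [e1]
      have a1 : β ^ (1 - (n' : ℤ)) * β ^ (n' - 1) = 1 := by
        rw [← zpow_natCast, ← zpow_add₀ hβne]
        have : (1 - (n' : ℤ)) + ((n' - 1 : ℕ) : ℤ) = 0 := by omega
        rw [this, zpow_zero]
      calc wh (b j + β, z' j + β ^ 3 * Y)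
          = (β ^ (1 - (n' : ℤ)) * β ^ (n' - 1)) * wh (b j + β, z' j + β ^ 3 * Y) := by
            rw [a1, one_mul]
        _ = _ := by ring
    rw [e2, norm_mul, norm_pow]
    exact mul_le_mul_of_nonneg_right (hM β hβ0 (lt_of_lt_of_le hβ (min_le_left _ _)) Y hY)
      (by positivity)) (r := (n' + 1) / 3) (by omega)
  -- `f = ch - 3 (t - z') wh`
  have mf : (fun p : ℂ × ℂ => ch p - 3 * (p.2 - z' j) * wh p) ∈ RatX (range b \ {b j}) Kt := by
    have m1 : (fun p : ℂ × ℂ => 3 * (p.2 - z' j)) ∈ RatX (range b \ {b j}) Kt := by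
      refine ratx_pull (k := fun t => 3 * (t - z' j)) ?_
      rw [kt_iff]
      exact ⟨C 3 * (X - C (z' j)), by funext t; simp⟩
    exact Subalgebra.sub_mem _ mc (Subalgebra.mul_mem _ m1 mw)
  obtain ⟨h₁, mh₁, eh₁⟩ := reg_div2 (z := z' j) hfin hbj mf (e := n' + 3) (by
    obtain ⟨M, ρ, hρ, hM⟩ := h.reg_cw j
    refine ⟨M, min ρ ε, lt_min hρ hε, fun β hβ0 hβ Y hY => ?_⟩
    have hD : b j + β ∉ range b := hsm β hβ0 (lt_of_lt_of_le hβ (min_le_right _ _))
    have e1 := ew (b j + β, z' j + β ^ 3 * Y) hD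
    have e1' := ec (b j + β, z' j + β ^ 3 * Y) hD
    have hβne : β ≠ 0 := norm_pos_iff.mp hβ0
    have hM' := hM β hβ0 (lt_of_lt_of_le hβ (min_le_left _ _)) Y hY
    simp only [add_sub_cancel_left] at e1 e1' hM' ⊢
    rw [e1, e1'] at hM'
    set W := wh (b j + β, z' j + β ^ 3 * Y)
    set Ch := ch (b j + β, z' j + β ^ 3 * Y)
    have e2 : Ch - 3 * (β ^ 3 * Y) * W =
        ((β ^ (-(n' : ℤ)) * Ch - 3 * (β ^ 3 * Y) * (β ^ (1 - (n' : ℤ)) * W / β)) / β ^ 3) *
          β ^ (n' + 3) := by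
      have a1 : β ^ (-(n' : ℤ)) * β ^ n' = 1 := by
        rw [← zpow_natCast, ← zpow_add₀ hβne]; simp
      have a2 : β ^ (1 - (n' : ℤ)) = β * β ^ (-(n' : ℤ)) := by
        rw [sub_eq_add_neg, zpow_add₀ hβne, zpow_one]
      rw [a2]
      have a3 : β ^ (n' + 3) = β ^ n' * β ^ 3 := pow_add _ _ _
      rw [a3]
      field_simp
      rw [zpow_neg, zpow_natCast]
      field_simp
    rw [e2, norm_mul, norm_pow]
    exact mul_le_mul_of_nonneg_right hM' (by positivity)) (r := (n' + 5) / 3) (by omega)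
  obtain ⟨q₀, hq₀⟩ := kt_iff.mp mh₀
  obtain ⟨q₁, hq₁⟩ := kt_iff.mp mh₁
  have hp' : p = 3 * (X - C (z' j)) ^ ((n' + 1) / 3 + 1) * q₀ +
      (X - C (z' j)) ^ ((n' + 5) / 3) * q₁ := by
    refine Polynomial.funext fun t => ?_
    have e0 := eh₀ t
    have e1 := eh₁ t
    have f0 : h₀ t = q₀.eval t := congrFun hq₀ t
    have f1 : h₁ t = q₁.eval t := congrFun hq₁ t
    simp only at e0 e1
    rw [← hp t]
    simp only [eval_add, eval_mul, eval_pow, eval_sub, eval_X, eval_C, eval_ofNat]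
    rw [← f0, ← f1, ← e1, pow_succ]
    have : 3 * ((t - z' j) ^ ((n' + 1) / 3) * (t - z' j)) * h₀ t =
      3 * (t - z' j) * ((t - z' j) ^ ((n' + 1) / 3) * h₀ t) := by ring
    rw [this, ← e0]
    ring
  refine ⟨min ((n' + 1) / 3 + 1) ((n' + 5) / 3), by omega, ?_⟩
  rw [hp']
  refine dvd_add ?_ ?_
  · exact Dvd.dvd.mul_right (Dvd.dvd.mul_left (pow_dvd_pow _ (min_le_left _ _)) _) _
  · exact Dvd.dvd.mul_right (pow_dvd_pow _ (min_le_right _ _)) _

theorem tdiv_c (h : Lvl2 b z' zi n d w c δ τ) (hzi : ∀ j, zi ≠ z' j)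
    {j : Fin 4} {n' : ℕ} (hn' : 1 ≤ n') {wh ch : ℂ × ℂ → ℂ}
    (mw : wh ∈ RatX (range b \ {b j}) Kt) (mc : ch ∈ RatX (range b \ {b j}) Kt)
    (ew : ∀ p ∈ D2 b, w p = (p.1 - b j) ^ (1 - (n' : ℤ)) * wh p)
    (ec : ∀ p ∈ D2 b, c p = (p.1 - b j) ^ (-(n' : ℤ)) * ch p) :
    ∃ p : ℂ[X], (∀ t, ch (b j, t) = p.eval t) ∧
      (X - C zi) ^ (n + 2) * (X - C (z' j)) ^ (n' + 2) ∣ p ^ 3 := by
  obtain ⟨p, hp⟩ := kt_iff.mp (ratx_restrict mc (b j))
  have hp' : ∀ t, ch (b j, t) = p.eval t := fun t => congrFun hp t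
  refine ⟨p, hp', ?_⟩
  obtain ⟨r, hr, hdr⟩ := tdc_zi h mc ec hp'
  obtain ⟨s, hs, hds⟩ := tdc_zj h hn' mw mc ew ec hp'
  refine IsCoprime.mul_dvd ?_ ?_ ?_
  · refine IsCoprime.pow ?_
    exact isCoprime_X_sub_C_of_isUnit_sub (sub_ne_zero.mpr (hzi j)).isUnit
  · refine dvd_trans (pow_dvd_pow _ hr) ?_
    rw [mul_comm 3 r, pow_mul]
    exact pow_dvd_pow_of_dvd hdr 3
  · refine dvd_trans (pow_dvd_pow _ hs) ?_
    rw [mul_comm 3 s, pow_mul]
    exact pow_dvd_pow_of_dvd hds 3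

end Pool.Agent.H43.FX
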