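import Pool.Agent.H43.FX.Defs

/-!
# Two Ends Theorem: definitions
-/

namespace Pool.Agent.H43.FX

open Set Metric Filter Topology

/-- `q` is a common period of the functions `G k ζ`. -/
def IsPer {ι : Type*} (G : ι → ℂ → ℂ → ℂ) (ζ q : ℂ) : Prop := ∀ k s, G k ζ (s + q) = G k ζ s

/-- The data of the Two Ends Theorem: `G 0, G 1, G 2` bounded functions, `G 3` the special
function. -/
structure TEData (D : Set ℂ) (G : Fin 4 → ℂ → ℂ → ℂ) : Prop where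
  isOpen : IsOpen D
  conn : IsPreconnected D
  c1 : ∀ k, ContDiffOn ℂ 1 (fun p : ℂ × ℂ => G k p.1 p.2) (D ×ˢ univ)
  nd : ∀ ζ ∈ D, ∃ k, k ≠ 3 ∧ deriv (G k ζ) 0 ≠ 0

/-- `q` is a persistent period at `ζ`: it extends to a holomorphic family of periods. -/
def PP (D : Set ℂ) (G : Fin 4 → ℂ → ℂ → ℂ) (ζ q : ℂ) : Prop :=
  ∃ ρ : ℝ, 0 < ρ ∧ ball ζ ρ ⊆ D ∧ ∃ p : ℂ → ℂ, DifferentiableOn ℂ p (ball ζ ρ) ∧ p ζ = q ∧
    ∀ ζ' ∈ ball ζ ρ, IsPer G ζ' (p ζ')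

/-- Fourier coefficients along a period. -/
noncomputable def fc (f : ℂ → ℂ) (q : ℂ) (j : ℤ) : ℂ :=
  ∫ θ in (0 : ℝ)..1, f (q * θ) * Complex.exp (-(2 * Real.pi * Complex.I * j * θ))

end Pool.Agent.H43.FX
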