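import Pool.Agent.H43.FX.LemPc
import Pool.Agent.H43.FX.JetLem

/-!
# FX-TPURE : the one-variable lemma at a cylinder end

Proof.  Write `ξ = A.eval`, `κ = B.eval` (functions `ℂ → ℂ`), `G(t) = c₀ (t-z)^n (t-z')^n'`.
By `hdiv`, `A^3 = G · ((X-z)(X-z'))^2 · R` for a polynomial `R` (absorb `c₀`).
Fix `t₀ : ℂ`.  `u = gen (sq ξ 0 κ id · t₀)`, `H = gen (sq ξ (3κ) κ G · t₀)` are entire
(`gen_differentiable`, `LUE.entSeq`), and jets (`LUE.jet`):
`Jet ξ 0 κ t₀ id u`, `Jet ξ (3κ) κ t₀ G H`.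
(1) By induction on polynomials (`Jet.const, add, mul`), `Jet ξ 0 κ t₀ p.eval (p.eval ∘ u)`.
(2) `Jet.deriv` (with `S = 0`): `Jet ξ κ κ t₀ A.eval (deriv u)` (`fderiv id (ξ q) = ξ q`,
`Jet.congr`); by `Jet.mul` twice `Jet ξ (3κ) κ t₀ (A^3).eval ((deriv u)^3)`.
(3) `Jet.mul`: `Jet ξ (3κ) κ t₀ (G Q) (H · Q(u))`, `Q = ((X-z)(X-z'))^2 R`.
(4) `Jet.unique` and the identity theorem for entire functions:
`(deriv u)^3 = H · ((u-z)(u-z'))^2 · R(u)` on `ℂ`.
(5) Claim: if `u(s₀) = z` then `u'(s₀) = 0` and `u''(s₀) = 0`.  The first is clear from (4).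
If `u''(s₀) ≠ 0` then `u' = (s-s₀) k` with `k(s₀) ≠ 0`, `u - z` is divisible by `(s-s₀)^2`
(near `s₀`), so the right-hand side of (4) is divisible by `(s-s₀)^4` and the left-hand side
is `(s-s₀)^3 k^3`: contradiction (divide by `(s-s₀)^3` and let `s → s₀`).  The same for `z'`.
(6) `f = (u - z)/(z' - z)` satisfies the hypotheses of `lemP`; so `u` is constant, in
particular `A.eval t₀ = deriv u 0 = 0`.  As `t₀` is arbitrary, `A = 0`.
(7) Now `ξ = 0`: `sq 0 (3κ) κ G m t₀ = G(t₀) κ(t₀)^m ∏_{j<m}(3+j) = G(t₀)κ(t₀)^m (m+2)!/2`.  By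
`h2` at `K = {t₀}` with `R = (‖κ t₀‖ + 1)⁻¹ · ...`: if `x = ‖κ t₀‖ > 0`, take `R = 1/x`:
`‖G t₀‖ (m+2)!/2 ≤ M m!` for all `m`, so `G t₀ = 0`.  So `κ(t₀) = 0` whenever `G(t₀) ≠ 0`, i.e.
for all `t₀ ≠ z, z'`; hence `B = 0` (infinitely many roots).
-/

namespace Pool.Agent.H43.FX

open Set Metric Filter Topology Polynomial

theorem TPure_order {u K : ℂ → ℂ} (hu : Differentiable ℂ u) (hK : Differentiable ℂ K) {w : ℂ}
    (hE : ∀ s, (deriv u s) ^ 3 = (u s - w) ^ 2 * K s) {s₀ : ℂ} (hs : u s₀ = w) :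
    deriv u s₀ = 0 ∧ iteratedDeriv 2 u s₀ = 0 := by
  have h0 : deriv u s₀ = 0 := by
    have h := hE s₀
    rw [hs, sub_self] at h
    simpa using h
  refine ⟨h0, ?_⟩
  have hua : AnalyticAt ℂ u s₀ := hu.analyticAt s₀
  have hda : AnalyticAt ℂ (deriv u) s₀ := hua.deriv
  have hKa : AnalyticAt ℂ K s₀ := hK.analyticAt s₀
  have hsub : AnalyticAt ℂ (fun s => u s - w) s₀ := hua.sub analyticAt_const
  have hdsub : deriv (fun s => u s - w) = deriv u := by
    funext s
    simp
  have h2 : ((2 : ℕ) : ℕ∞) ≤ analyticOrderAt (fun s => u s - w) s₀ := by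
    rw [natCast_le_analyticOrderAt_iff_iteratedDeriv_eq_zero hsub]
    intro i hi
    interval_cases i
    · simp [hs]
    · rw [iteratedDeriv_one, hdsub]
      exact h0
  have hfun : (deriv u) ^ 3 = (fun s => u s - w) ^ 2 * K := by
    funext s
    simpa using hE s
  have hord : 3 • analyticOrderAt (deriv u) s₀ =
      2 • analyticOrderAt (fun s => u s - w) s₀ + analyticOrderAt K s₀ := by
    rw [← analyticOrderAt_pow hda, hfun, analyticOrderAt_mul (hsub.pow 2) hKa,
      analyticOrderAt_pow hsub]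
  rw [iteratedDeriv_succ, iteratedDeriv_one]
  by_contra hne
  have h1 : analyticOrderAt (deriv u) s₀ = 1 :=
    hda.analyticOrderAt_eq_one_of_zero_deriv_ne_zero h0 hne
  rw [h1] at hord
  have h4 : ((4 : ℕ) : ℕ∞) ≤ 3 • (1 : ℕ∞) := by
    rw [hord]
    calc ((4 : ℕ) : ℕ∞) = 2 • ((2 : ℕ) : ℕ∞) := by norm_num
      _ ≤ 2 • analyticOrderAt (fun s => u s - w) s₀ := by
          rw [nsmul_eq_mul, nsmul_eq_mul]
          exact mul_le_mul_right h2 _
      _ ≤ _ := le_self_add
  have h3 : 3 • (1 : ℕ∞) = ((3 : ℕ) : ℕ∞) := by norm_num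
  rw [h3] at h4
  exact absurd (ENat.natCast_le_natCast.mp h4) (by norm_num)

theorem TPure_evalAn (p : ℂ[X]) : AnalyticOnNhd ℂ (fun t : ℂ => p.eval t) univ :=
  fun t _ => (p.differentiable).analyticAt t

theorem TPure_jetPoly {ξ κ : ℂ → ℂ} (hξ : AnalyticOnNhd ℂ ξ univ) (hκ : AnalyticOnNhd ℂ κ univ)
    {t₀ : ℂ} {u : ℂ → ℂ} (hj : Jet ξ (fun _ => 0) κ t₀ (fun t => t) u) (p : ℂ[X]) :
    Jet ξ (fun _ => 0) κ t₀ (fun t => p.eval t) (fun s => p.eval (u s)) := by
  have hS : AnalyticOnNhd ℂ (fun _ : ℂ => (0 : ℂ)) univ := analyticOnNhd_const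
  have hid : AnalyticOnNhd ℂ (fun t : ℂ => t) univ := analyticOnNhd_id
  induction p using Polynomial.induction_on with
  | C a =>
    simp only [eval_C]
    exact Jet.const a
  | add p q hp hq =>
    simp only [eval_add]
    exact Jet.add isOpen_univ (mem_univ _) hξ hS hκ (TPure_evalAn p) (TPure_evalAn q) hp hq
  | monomial n a hp =>
    have h := Jet.mul isOpen_univ (mem_univ _) hξ hS hS hκ (TPure_evalAn _) hid hp hj
    have h' := Jet.congr isOpen_univ (mem_univ _) h
      (f' := fun t => (C a * X ^ (n + 1)).eval t) (S' := fun _ => 0)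
      (fun t _ => by simp [pow_succ, mul_assoc]) (fun t _ => by simp)
    refine Jet.congr_germ h' (Filter.Eventually.of_forall fun s => ?_)
    simp [pow_succ, mul_assoc]

theorem TPure_sq_zero (κ G : ℂ → ℂ) (t₀ : ℂ) (m : ℕ) :
    sq (fun _ : ℂ => (0 : ℂ)) (fun t => 3 * κ t) κ G m t₀ =
      G t₀ * κ t₀ ^ m * ∏ j ∈ Finset.range m, ((3 : ℂ) + j) := by
  induction m with
  | zero => simp [sq]
  | succ m ih =>
    have : sq (fun _ : ℂ => (0 : ℂ)) (fun t => 3 * κ t) κ G (m + 1) t₀ =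
      fderiv ℂ (sq (fun _ : ℂ => (0 : ℂ)) (fun t => 3 * κ t) κ G m) t₀ 0 +
        (3 * κ t₀ + (m : ℂ) * κ t₀) * sq (fun _ : ℂ => (0 : ℂ)) (fun t => 3 * κ t) κ G m t₀ := rfl
    rw [this, map_zero, ih, Finset.prod_range_succ]
    ring

theorem TPure_prod (m : ℕ) :
    ((m : ℝ) + 1) * (m.factorial : ℝ) ≤ ‖∏ j ∈ Finset.range m, ((3 : ℂ) + j)‖ := by
  induction m with
  | zero => simp
  | succ m ih =>
    rw [Finset.prod_range_succ, norm_mul, Nat.factorial_succ]
    have h3 : ‖((3 : ℂ) + (m : ℂ))‖ = 3 + (m : ℝ) := by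
      have : ((3 : ℂ) + (m : ℂ)) = (((3 : ℝ) + (m : ℝ) : ℝ) : ℂ) := by push_cast; ring
      rw [this, Complex.norm_real, Real.norm_of_nonneg (by positivity)]
    rw [h3]
    have hf : (0 : ℝ) ≤ (m.factorial : ℝ) := by positivity
    push_cast
    calc ((m : ℝ) + 1 + 1) * (((m : ℝ) + 1) * (m.factorial : ℝ))
        = (((m : ℝ) + 1) * (m.factorial : ℝ)) * ((m : ℝ) + 2) := by ring
      _ ≤ (((m : ℝ) + 1) * (m.factorial : ℝ)) * (3 + (m : ℝ)) := by
          apply mul_le_mul_of_nonneg_left (by linarith) (by positivity)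
      _ ≤ _ := mul_le_mul_of_nonneg_right ih (by positivity)

theorem tlem {z z' : ℂ} (hz : z ≠ z') {n n' : ℕ} {c₀ : ℂ} (hc₀ : c₀ ≠ 0) {A B : ℂ[X]}
    (hdiv : (X - C z) ^ (n + 2) * (X - C z') ^ (n' + 2) ∣ A ^ 3)
    (h1 : LUE univ (sq (fun t : ℂ => A.eval t) (fun _ => 0) (fun t => B.eval t) (fun t => t)))
    (h2 : LUE univ (sq (fun t : ℂ => A.eval t) (fun t => 3 * B.eval t) (fun t => B.eval t)
      (fun t => c₀ * (t - z) ^ n * (t - z') ^ n'))) :
    A = 0 ∧ B = 0 := by
  obtain ⟨R₀, hR₀⟩ := hdiv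
  set Q : ℂ[X] := ((X - C z) * (X - C z')) ^ 2 * (C c₀⁻¹ * R₀) with hQ
  have hξ : AnalyticOnNhd ℂ (fun t : ℂ => A.eval t) univ := TPure_evalAn A
  have hκ : AnalyticOnNhd ℂ (fun t : ℂ => B.eval t) univ := TPure_evalAn B
  have hS0 : AnalyticOnNhd ℂ (fun _ : ℂ => (0 : ℂ)) univ := analyticOnNhd_const
  have hid : AnalyticOnNhd ℂ (fun t : ℂ => t) univ := analyticOnNhd_id
  have hG : AnalyticOnNhd ℂ (fun t : ℂ => c₀ * (t - z) ^ n * (t - z') ^ n') univ := by
    intro t _
    fun_prop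
  have h3κ : AnalyticOnNhd ℂ (fun t : ℂ => 3 * B.eval t) univ :=
    fun t ht => analyticAt_const.mul (hκ t ht)
  have hA0 : ∀ t₀ : ℂ, A.eval t₀ = 0 := by
    intro t₀
    set u : ℂ → ℂ := gen (fun m => sq (fun t : ℂ => A.eval t) (fun _ => 0) (fun t => B.eval t)
      (fun t => t) m t₀) with hudef
    set H : ℂ → ℂ := gen (fun m => sq (fun t : ℂ => A.eval t) (fun t => 3 * B.eval t)
      (fun t => B.eval t) (fun t => c₀ * (t - z) ^ n * (t - z') ^ n') m t₀) with hHdef
    have hu : Differentiable ℂ u := gen_differentiable (h1.entSeq (mem_univ t₀))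
    have hH : Differentiable ℂ H := gen_differentiable (h2.entSeq (mem_univ t₀))
    have hju : Jet (fun t : ℂ => A.eval t) (fun _ => 0) (fun t => B.eval t) t₀ (fun t => t) u :=
      h1.jet (mem_univ t₀)
    have hjH : Jet (fun t : ℂ => A.eval t) (fun t => 3 * B.eval t) (fun t => B.eval t) t₀
        (fun t => c₀ * (t - z) ^ n * (t - z') ^ n') H := h2.jet (mem_univ t₀)
    -- the derivative
    have hjd : Jet (fun t : ℂ => A.eval t) (fun t => B.eval t) (fun t => B.eval t) t₀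
        (fun t => A.eval t) (deriv u) := by
      refine Jet.congr isOpen_univ (mem_univ _) hju.deriv (fun q _ => ?_) (fun q _ => ?_)
      · have : (fun t : ℂ => t) = id := rfl
        rw [this, fderiv_id]
        simp
      · simp
    have hjd2 := Jet.mul isOpen_univ (mem_univ t₀) hξ hκ hκ hκ hξ hξ hjd hjd
    have hκ2 : AnalyticOnNhd ℂ (fun t : ℂ => B.eval t + B.eval t) univ :=
      fun t ht => (hκ t ht).add (hκ t ht)
    have hξ2 : AnalyticOnNhd ℂ (fun t : ℂ => A.eval t * A.eval t) univ :=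
      fun t ht => (hξ t ht).mul (hξ t ht)
    have hjd3 := Jet.mul isOpen_univ (mem_univ t₀) hξ hκ2 hκ hκ hξ2 hξ hjd2 hjd
    have hjL : Jet (fun t : ℂ => A.eval t) (fun t => 3 * B.eval t) (fun t => B.eval t) t₀
        (fun t => (A.eval t) ^ 3) (fun s => deriv u s * deriv u s * deriv u s) :=
      Jet.congr isOpen_univ (mem_univ _) hjd3 (fun q _ => by ring) (fun q _ => by ring)
    have hjQ := TPure_jetPoly hξ hκ hju Q
    have hjR := Jet.mul isOpen_univ (mem_univ t₀) hξ h3κ hS0 hκ hG (TPure_evalAn Q) hjH hjQ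
    have hjR' : Jet (fun t : ℂ => A.eval t) (fun t => 3 * B.eval t) (fun t => B.eval t) t₀
        (fun t => (A.eval t) ^ 3) (fun s => H s * Q.eval (u s)) := by
      refine Jet.congr isOpen_univ (mem_univ _) hjR (fun q _ => ?_) (fun q _ => ?_)
      · have h := congrArg (fun p : ℂ[X] => p.eval q) hR₀
        simp only [eval_pow, eval_mul, eval_sub, eval_X, eval_C] at h
        simp only [hQ, eval_pow, eval_mul, eval_sub, eval_X, eval_C]
        rw [h]
        field_simp
        ring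
      · simp
    have hgerm := hjL.unique hjR'
    have hQu : Differentiable ℂ (fun s => Q.eval (u s)) := (Q.differentiable).comp hu
    have hdu : Differentiable ℂ (deriv u) := hu.deriv
    have hL : Differentiable ℂ (fun s => deriv u s * deriv u s * deriv u s) :=
      (hdu.mul hdu).mul hdu
    have hR : Differentiable ℂ (fun s => H s * Q.eval (u s)) := hH.mul hQu
    have hall : (fun s => deriv u s * deriv u s * deriv u s) = fun s => H s * Q.eval (u s) :=
      AnalyticOnNhd.eq_of_eventuallyEq (fun s _ => hL.analyticAt s) (fun s _ => hR.analyticAt s)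
        hgerm
    have hR0u : Differentiable ℂ (fun s => R₀.eval (u s)) := (R₀.differentiable).comp hu
    have hz1 : ∀ s, u s = z → deriv u s = 0 ∧ iteratedDeriv 2 u s = 0 := by
      intro s hs
      refine TPure_order hu (K := fun s => H s * ((u s - z') ^ 2 * (c₀⁻¹ * R₀.eval (u s)))) ?_
        (fun s => ?_) hs
      · exact hH.mul (((hu.sub_const z').pow 2).mul (hR0u.const_mul _))
      · have h := congrFun hall s
        simp only [hQ, eval_pow, eval_mul, eval_sub, eval_X, eval_C] at h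
        linear_combination h
    have hz2 : ∀ s, u s = z' → deriv u s = 0 ∧ iteratedDeriv 2 u s = 0 := by
      intro s hs
      refine TPure_order hu (K := fun s => H s * ((u s - z) ^ 2 * (c₀⁻¹ * R₀.eval (u s)))) ?_
        (fun s => ?_) hs
      · exact hH.mul (((hu.sub_const z).pow 2).mul (hR0u.const_mul _))
      · have h := congrFun hall s
        simp only [hQ, eval_pow, eval_mul, eval_sub, eval_X, eval_C] at h
        linear_combination h
    have hzz : z' - z ≠ 0 := sub_ne_zero.mpr hz.symm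
    have hfd : deriv (fun s => (z' - z)⁻¹ * (u s - z)) = fun s => (z' - z)⁻¹ * deriv u s := by
      funext s
      rw [deriv_const_mul _ ((hu s).sub_const z)]
      simp
    have hfd2 : ∀ s, iteratedDeriv 2 (fun s => (z' - z)⁻¹ * (u s - z)) s =
        (z' - z)⁻¹ * iteratedDeriv 2 u s := by
      intro s
      rw [iteratedDeriv_succ, iteratedDeriv_one, iteratedDeriv_succ, iteratedDeriv_one, hfd,
        deriv_const_mul _ (hdu s)]
    have hP := lemP (f := fun s => (z' - z)⁻¹ * (u s - z)) ((hu.sub_const z).const_mul _)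
      (fun s hs => by
        have h : u s = z := by
          have := mul_eq_zero.mp hs
          rcases this with h | h
          · exact absurd h (inv_ne_zero hzz)
          · exact sub_eq_zero.mp h
        rw [hfd2, hfd]
        simp [hz1 s h])
      (fun s hs => by
        have h : u s = z' := by
          have h' : u s - z = z' - z := by
            have := congrArg (fun x => (z' - z) * x) hs
            simp only [mul_one] at this
            rw [← mul_assoc, mul_inv_cancel₀ hzz, one_mul] at this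
            exact this
          linear_combination h'
        rw [hfd2, hfd]
        simp [hz2 s h])
    have hd0 : deriv u 0 = 0 := by
      have h := hP 0
      rw [hfd] at h
      rcases mul_eq_zero.mp h with h | h
      · exact absurd h (inv_ne_zero hzz)
      · exact h
    have h := hjd.eval_zero
    rw [hd0] at h
    exact h.symm
  have hA : A = 0 := Polynomial.funext fun t => by simp [hA0 t]
  refine ⟨hA, ?_⟩
  subst hA
  have hB0 : ∀ t₀ : ℂ, t₀ ≠ z → t₀ ≠ z' → B.eval t₀ = 0 := by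
    intro t₀ hne hne'
    by_contra hB
    have hx : 0 < ‖B.eval t₀‖ := norm_pos_iff.mpr hB
    obtain ⟨M, hM⟩ := h2 {t₀} (subset_univ _) isCompact_singleton (‖B.eval t₀‖)⁻¹ (inv_pos.mpr hx)
    have hG0 : 0 < ‖c₀ * (t₀ - z) ^ n * (t₀ - z') ^ n'‖ := by
      rw [norm_pos_iff]
      exact mul_ne_zero (mul_ne_zero hc₀ (pow_ne_zero _ (sub_ne_zero.mpr hne)))
        (pow_ne_zero _ (sub_ne_zero.mpr hne'))
    have hb : ∀ m : ℕ, ‖c₀ * (t₀ - z) ^ n * (t₀ - z') ^ n'‖ * ((m : ℝ) + 1) ≤ M := by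
      intro m
      have h := hM m t₀ (mem_singleton _)
      have h0 : (fun t : ℂ => (0 : ℂ[X]).eval t) = fun _ => (0 : ℂ) := by
        funext t
        simp
      rw [h0, TPure_sq_zero (fun t => B.eval t), norm_mul, norm_mul, norm_pow, inv_pow] at h
      have hp := TPure_prod m
      have hf : (0 : ℝ) < (m.factorial : ℝ) := by positivity
      have hxm : 0 < ‖B.eval t₀‖ ^ m := pow_pos hx m
      have h' : ‖c₀ * (t₀ - z) ^ n * (t₀ - z') ^ n'‖ *
          ‖∏ j ∈ Finset.range m, ((3 : ℂ) + j)‖ ≤ M * (m.factorial : ℝ) := by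
        calc ‖c₀ * (t₀ - z) ^ n * (t₀ - z') ^ n'‖ * ‖∏ j ∈ Finset.range m, ((3 : ℂ) + j)‖
            = ‖c₀ * (t₀ - z) ^ n * (t₀ - z') ^ n'‖ * ‖B.eval t₀‖ ^ m *
              ‖∏ j ∈ Finset.range m, ((3 : ℂ) + j)‖ * (‖B.eval t₀‖ ^ m)⁻¹ := by
              field_simp
          _ ≤ _ := h
      have h'' : (‖c₀ * (t₀ - z) ^ n * (t₀ - z') ^ n'‖ * ((m : ℝ) + 1)) * (m.factorial : ℝ) ≤
          M * (m.factorial : ℝ) := by
        refine le_trans ?_ h'
        rw [mul_assoc]
        exact mul_le_mul_of_nonneg_left hp hG0.le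
      exact le_of_mul_le_mul_right h'' hf
    obtain ⟨m, hm⟩ := exists_nat_gt (M / ‖c₀ * (t₀ - z) ^ n * (t₀ - z') ^ n'‖)
    have h := hb m
    rw [div_lt_iff₀ hG0] at hm
    nlinarith
  refine Polynomial.eq_zero_of_infinite_isRoot B ?_
  refine Set.Infinite.mono (s := ({z, z'} : Set ℂ)ᶜ) ?_ ?_
  · intro t ht
    simp only [mem_compl_iff, mem_insert_iff, mem_singleton_iff, not_or] at ht
    exact hB0 t ht.1 ht.2
  · exact (Set.toFinite ({z, z'} : Set ℂ)).infinite_compl

end Pool.Agent.H43.FX
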