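import Pool.Agent.H43.FX.TDivC
import Pool.Agent.H43.FX.TPure
import Pool.Agent.H43.FX.LeadLUE

/-!
# FX-TLEM : at a polar line `ω = b_j` of the reduced field, `c` and `τ - n' w` vanish

Proof.  `p` from `tdiv_c`, and `q : ℂ[X]` with `q.eval t = τh(b_j,t) - n' wh(b_j,t)`
(`ratx_restrict`, `kt_iff`).  Choose a ball `ball (b j) r` containing no other element of
`range b`.  Apply `lead_LUE` with `E = ℂ`, `U = univ`, `c = b j`, `n = n'`, `Vh = wh`,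
`Wh = ch`, `Th = τh`, `ξ = (w, c)`, `T = τ` (all analytic on the ball: `ratkt_analytic`):
* to `ent_t`: `S = Sh = 0`, `f = fh = t`, `e = 0`;
* to `ent_H j j' j'' n'` (`j', j''` two other distinct indices): `S = 3τ`, `Sh = 3 τh`,
  `e = 3n'`, `fh = (t-zi)^n (t-z'_j)^{n'} Lam^d`; on `ω = b_j`:
  `Lam(b_j, t) = (t-z'_{j'}) - (t-z'_{j''}) = z'_{j''} - z'_{j'} =: c₁ ≠ 0` (`b` injective), so
  `fh(b_j,t) = c₁^d (t-zi)^n (t-z'_j)^{n'}`; `Sh - e Vh = 3τh - 3n' wh = 3 q.eval`.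
(`Lam` is analytic near `ω = b_j`.)  So `tlem` (with `A = p`, `B = q`, `c₀ = c₁^d`) gives
`p = 0`, `q = 0`.
-/

namespace Pool.Agent.H43.FX

open Set Metric Filter Topology

variable {b z' : Fin 4 → ℂ} {zi : ℂ} {n d : ℕ} {w c δ τ : ℂ × ℂ → ℂ}

theorem tlem2 (h : Lvl2 b z' zi n d w c δ τ) (hb : Function.Injective b)
    (hz' : Function.Injective z') (hzi : ∀ j, zi ≠ z' j) {j : Fin 4} {n' : ℕ} (hn' : 1 ≤ n')
    {wh ch τh : ℂ × ℂ → ℂ} (mw : wh ∈ RatX (range b \ {b j}) Kt)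
    (mc : ch ∈ RatX (range b \ {b j}) Kt) (mτ : τh ∈ RatX (range b \ {b j}) Kt)
    (ew : ∀ p ∈ D2 b, w p = (p.1 - b j) ^ (1 - (n' : ℤ)) * wh p)
    (ec : ∀ p ∈ D2 b, c p = (p.1 - b j) ^ (-(n' : ℤ)) * ch p)
    (eτ : ∀ p ∈ D2 b, τ p = (p.1 - b j) ^ (-(n' : ℤ)) * τh p) (t : ℂ) :
    ch (b j, t) = 0 ∧ τh (b j, t) = (n' : ℂ) * wh (b j, t) := by
  obtain ⟨A, hA, hdiv⟩ := tdiv_c h hzi hn' mw mc ew ec
  obtain ⟨B, hB⟩ : ∃ B : Polynomial ℂ, ∀ t, τh (b j, t) - (n' : ℂ) * wh (b j, t) = B.eval t := by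
    have h1 : (fun t => τh (b j, t) - (n' : ℂ) * wh (b j, t)) ∈ Kt :=
      Kt.sub_mem (ratx_restrict mτ (b j)) (Kt.mul_mem (kt_const _) (ratx_restrict mw (b j)))
    obtain ⟨B, hB⟩ := kt_iff.1 h1
    exact ⟨B, fun t => congrFun hB t⟩
  -- a small disc
  have hopen : IsOpen (range b \ {b j})ᶜ :=
    ((finite_range b).subset sdiff_subset).isClosed.isOpen_compl
  obtain ⟨r, hr, hball⟩ := Metric.isOpen_iff.1 hopen (b j) (by simp)
  have hx1 : ∀ x ∈ ball (b j) r, x ∉ range b \ {b j} := fun x hx => hball hx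
  have hx2 : ∀ x ∈ ball (b j) r, x ≠ b j → x ∉ range b := fun x hx hne hmem =>
    hx1 x hx ⟨hmem, hne⟩
  have hx3 : ∀ x ∈ ball (b j) r, ∀ i, i ≠ j → x - b i ≠ 0 := by
    intro x hx i hi h0
    rw [sub_eq_zero] at h0
    exact hx1 x hx ⟨⟨i, h0.symm⟩, fun h1 => hi (hb (h0.symm.trans (mem_singleton_iff.1 h1)))⟩
  have hsub : (ball (b j) r \ {b j}) ×ˢ (univ : Set ℂ) ⊆ D2 b := by
    rintro ⟨x, y⟩ ⟨⟨hx, hne⟩, -⟩
    exact hx2 x hx hne
  have hmono : ∀ φ : ℕ → ℂ × ℂ → ℂ, LUE (D2 b) φ → LUE ((ball (b j) r \ {b j}) ×ˢ univ) φ :=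
    fun φ hφ K hK => hφ K (hK.trans hsub)
  have aw : AnalyticOnNhd ℂ wh (ball (b j) r ×ˢ univ) := fun p hp =>
    ratkt_analytic (x := p.1) (t := p.2) mw (hx1 _ hp.1)
  have ac : AnalyticOnNhd ℂ ch (ball (b j) r ×ˢ univ) := fun p hp =>
    ratkt_analytic (x := p.1) (t := p.2) mc (hx1 _ hp.1)
  have aτ : AnalyticOnNhd ℂ τh (ball (b j) r ×ˢ univ) := fun p hp =>
    ratkt_analytic (x := p.1) (t := p.2) mτ (hx1 _ hp.1)
  have eξ : ∀ x ∈ ball (b j) r, x ≠ b j → ∀ y ∈ (univ : Set ℂ),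
      (fun p : ℂ × ℂ => (w p, c p)) (x, y) =
        ((x - b j) ^ (1 - (n' : ℤ)) * wh (x, y), (x - b j) ^ (-(n' : ℤ)) • ch (x, y)) := by
    intro x hx hne y _
    have h1 := ew (x, y) (hx2 x hx hne)
    have h2 := ec (x, y) (hx2 x hx hne)
    simp only [h1, h2, smul_eq_mul]
  have eτ' : ∀ x ∈ ball (b j) r, x ≠ b j → ∀ y ∈ (univ : Set ℂ),
      τ (x, y) = (x - b j) ^ (-(n' : ℤ)) * τh (x, y) := fun x hx hne y _ =>
    eτ (x, y) (hx2 x hx hne)
  -- first sequence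
  have L1 := lead_LUE (E := ℂ) (c := b j) hr isOpen_univ (n := (n' : ℤ)) (e := 0)
    (ξ := fun p => (w p, c p)) (S := fun _ => 0) (T := τ) (f := fun p => p.2) (Vh := wh)
    (Sh := fun _ => 0) (Th := τh) (fh := fun p => p.2) (Wh := ch) aw ac
    (fun p _ => analyticAt_const) aτ (fun p _ => analyticAt_snd) eξ
    (fun x _ _ y _ => (mul_zero _).symm) eτ'
    (fun x _ _ y _ => by simp) (hmono _ h.ent_t)
  have M1 : LUE univ (sq (fun t : ℂ => A.eval t) (fun _ => 0) (fun t => B.eval t)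
      (fun t => t)) := by
    have e1 : (fun y => ch (b j, y)) = fun t : ℂ => A.eval t := funext hA
    have e2 : (fun y : ℂ => (0 : ℂ) - ((0 : ℤ) : ℂ) * wh (b j, y)) = fun _ => 0 := by
      funext y; simp
    have e3 : (fun y => τh (b j, y) - ((n' : ℤ) : ℂ) * wh (b j, y)) = fun t => B.eval t := by
      funext y
      rw [← hB y]
      simp
    rw [e1, e2, e3] at L1
    exact L1
  -- second sequence
  obtain ⟨j', j'', h1, h2, h3⟩ : ∃ j' j'' : Fin 4, j ≠ j' ∧ j ≠ j'' ∧ j' ≠ j'' :=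
    (by decide : ∀ j : Fin 4, ∃ j' j'' : Fin 4, j ≠ j' ∧ j ≠ j'' ∧ j' ≠ j'') j
  have aLam : ∀ p ∈ ball (b j) r ×ˢ (univ : Set ℂ), AnalyticAt ℂ (Lam b z' j j' j'') p := by
    intro p hp
    have k1 : ∀ i, i ≠ j → AnalyticAt ℂ
        (fun p : ℂ × ℂ => (b j - b i) ^ 3 * ((p.2 - z' i) / (p.1 - b i) ^ 3)) p := by
      intro i hi
      exact analyticAt_const.mul ((analyticAt_snd.sub analyticAt_const).div
        ((analyticAt_fst.sub analyticAt_const).pow 3) (pow_ne_zero _ (hx3 p.1 hp.1 i hi)))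
    exact (k1 j' h1.symm).sub (k1 j'' h2.symm)
  have afh : AnalyticOnNhd ℂ (fun p : ℂ × ℂ => (p.2 - zi) ^ n * (p.2 - z' j) ^ n' *
      (Lam b z' j j' j'' p) ^ d) (ball (b j) r ×ˢ univ) := fun p hp =>
    (((analyticAt_snd.sub analyticAt_const).pow n).mul
      ((analyticAt_snd.sub analyticAt_const).pow n')).mul ((aLam p hp).pow d)
  have L2 := lead_LUE (E := ℂ) (c := b j) hr isOpen_univ (n := (n' : ℤ)) (e := 3 * (n' : ℤ))
    (ξ := fun p => (w p, c p)) (S := fun p => 3 * τ p) (T := τ)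
    (f := fun p => (p.2 - zi) ^ n * ((p.2 - z' j) / (p.1 - b j) ^ 3) ^ n' *
      (Lam b z' j j' j'' p) ^ d) (Vh := wh)
    (Sh := fun p => 3 * τh p) (Th := τh) (fh := fun p => (p.2 - zi) ^ n * (p.2 - z' j) ^ n' *
      (Lam b z' j j' j'' p) ^ d) (Wh := ch) aw ac
    (fun p hp => analyticAt_const.mul (aτ p hp)) aτ afh eξ
    (fun x hx hne y hy => by rw [eτ' x hx hne y hy]; ring) eτ'
    (fun x hx hne y hy => by
      have h0 : x - b j ≠ 0 := sub_ne_zero.2 hne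
      have h4 : (x - b j) ^ (-(3 * (n' : ℤ))) = (((x - b j) ^ 3) ^ n')⁻¹ := by
        rw [zpow_neg, zpow_mul]
        norm_cast
      simp only [h4, div_pow]
      field_simp) (hmono _ (h.ent_H j j' j'' n' h1 h2 h3))
  have hLam : ∀ y : ℂ, Lam b z' j j' j'' (b j, y) = z' j'' - z' j' := by
    intro y
    have k1 : b j - b j' ≠ 0 := sub_ne_zero.2 (hb.ne h1)
    have k2 : b j - b j'' ≠ 0 := sub_ne_zero.2 (hb.ne h2)
    simp only [Lam]
    field_simp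
    ring
  have M2 : LUE univ (sq (fun t : ℂ => A.eval t) (fun t => 3 * B.eval t) (fun t => B.eval t)
      (fun t => (z' j'' - z' j') ^ d * (t - zi) ^ n * (t - z' j) ^ n')) := by
    have e1 : (fun y => ch (b j, y)) = fun t : ℂ => A.eval t := funext hA
    have e2 : (fun y : ℂ => 3 * τh (b j, y) - ((3 * (n' : ℤ) : ℤ) : ℂ) * wh (b j, y)) =
        fun t => 3 * B.eval t := by
      funext y
      rw [← hB y]
      push_cast
      ring
    have e3 : (fun y => τh (b j, y) - ((n' : ℤ) : ℂ) * wh (b j, y)) = fun t => B.eval t := by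
      funext y
      rw [← hB y]
      simp
    have e4 : (fun y : ℂ => (y - zi) ^ n * (y - z' j) ^ n' * (Lam b z' j j' j'' (b j, y)) ^ d) =
        fun t => (z' j'' - z' j') ^ d * (t - zi) ^ n * (t - z' j) ^ n' := by
      funext y
      rw [hLam]
      ring
    simp only [e1, e2, e3, e4] at L2
    exact L2
  have hc₀ : (z' j'' - z' j') ^ d ≠ 0 := pow_ne_zero _ (sub_ne_zero.2 (hz'.ne h3.symm))
  obtain ⟨hA0, hB0⟩ := tlem (hzi j) hc₀ hdiv M1 M2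
  refine ⟨by rw [hA t, hA0, Polynomial.eval_zero], ?_⟩
  have h5 := hB t
  rw [hB0, Polynomial.eval_zero] at h5
  exact sub_eq_zero.1 h5

end Pool.Agent.H43.FX
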