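import Pool.Agent.H43.FX.GenComp
import Pool.Agent.H43.FX.Four1
import Pool.Agent.H43.FX.Four2
import Pool.Agent.H43.FX.Four3

/-!
# FX-TE : the Two Ends Theorem

Proof.  Put `G = ![F 0, F 1, F 2, X]` (`Fin 4`), `TEData D G`.  For `ζ ∈ D` all `G k ζ` are
entire.  At a point of the two punctured balls, with the given `c`, `q = 2πi/c` is a period of
all `G k ζ` (`per_of_expEnd`; `ExpEndS` implies `ExpEnd`), `‖q‖ ≤ 2πM`.  So `gen_comp` gives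
`Ω`, with points `ζ₀ ∈ Ω ∩ B₀`, `ζ₁ ∈ Ω ∩ B₁`.

Consider the property `Q(ζ)` of `ζ ∈ Ω`: there are `ρ > 0` with `ball ζ ρ ⊆ D` and `p`
holomorphic on `ball ζ ρ` such that for all `ζ' ∈ ball ζ ρ`: `p ζ' ≠ 0`, `PP D G ζ' (p ζ')`,
`p ζ'` generates `{q | PP D G ζ' q}`, `fc (F k ζ') (p ζ') j = 0` for all `k` and all `j < 0`;
and for some `j < 0` the function `ζ' ↦ fc (X ζ') (p ζ') j` is not identically zero on
`ball ζ ρ`.

(a) `Q(ζ₀)`.  Let `p` be a local generator near `ζ₀` (`local_gen`), ball of radius `ρ`, shrunk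
so that the ball is contained in `B₀`.  For `ζ' ∈ ball ζ₀ ρ` let `c'` be its `c`; the group of
all common periods at `ζ'` is cyclic (`per_cyclic`, one `F k ζ'` is nonconstant) and contains
`p ζ'` and `2πi/c'`, both nonzero, so `c' p ζ' = 2πi r'` with `r' : ℝ` (rational), `r' ≠ 0`.
Replace `p` by `-p` if necessary to have `r' > 0` at `ζ' = ζ₀`.  For every `ζ'` in the ball,
`fc_zero_of_expEnd`: either `fc (F k ζ') (p ζ') j = 0` for all `k` and all `j < 0` (if `r' > 0`)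
or for all `k` and all `j > 0` (if `r' < 0`).  Hence for all `k, k'`, `j < 0 < j'` the product
`fc (F k ζ')(p ζ') j * fc (F k' ζ')(p ζ') j'` vanishes identically on the ball; these functions
are holomorphic (`fc_analytic`), so one of the factors vanishes identically
(`AnalyticOnNhd.eq_zero_or_eq_zero_of_mul_eq_zero` on the preconnected ball, or by hand).  So
either all the functions with `j < 0` vanish identically (what we want) or all those with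
`j > 0` do; in the second case all coefficients with `j ≠ 0` vanish at `ζ₀` (those with `j < 0`
because `r' > 0` at `ζ₀`), and `F k ζ₀` is constant for every `k` by `const_of_fourier`,
contradicting `hnd`.  Finally `fc_ne_of_expEndS` at `ζ₀` gives `j` with `j r' < 0`, so `j < 0`,
and `fc (X ζ₀)(p ζ₀) j ≠ 0`.
(b) `{ζ ∈ Ω | Q ζ}` is open (restrict to smaller balls; the function `ζ' ↦ fc (X ζ')(p ζ') j`
is holomorphic and not identically zero on the ball, so it is not identically zero on any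
smaller ball, by the identity theorem).
(c) It is closed in `Ω`.  Let `ζ ∈ Ω` be a limit of points `ζ_n` with `Q(ζ_n)`.  Let `p` be a
local generator on `ball ζ ρ`.  Take `n` with `ζ_n ∈ ball ζ ρ` and let `p_n` be the family of
`Q(ζ_n)`.  On a small ball `U` around `ζ_n` contained in both balls, `p_n = ± p` pointwise
(both generate), and by continuity the sign is constant on `U` (`p_n/p` is continuous with
values `±1` on a connected set).  Replacing `p` by `-p` we may assume `p_n = p` on `U`.  Then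
`fc (F k ζ')(p ζ') j = 0` on `U` for `j < 0`, hence on `ball ζ ρ` by the identity theorem, and
`fc (X ·)(p ·) j` is not identically zero on `U` for some `j < 0` (identity theorem on the ball
of `ζ_n`), so not on `ball ζ ρ`.  So `Q(ζ)`.
(d) `Ω` is preconnected, so `Q(ζ₁)`.  The non-vanishing holomorphic function has a nonzero
value at some `ζ'` in the ball of `ζ₁`, which may be shrunk to lie in `B₁` (identity theorem
again).  At `ζ'`: `c' p ζ' = 2πi r'`.  If `r' > 0`: `fc (X ζ')(p ζ') j = 0` for all `j < 0`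
by `fc_zero_of_expEnd` (`X` satisfies `ExpEnd c 0` at `B₁`), a contradiction.  If `r' < 0`:
`fc (F k ζ')(p ζ') j = 0` for `j > 0`, and for `j < 0` by `Q`, so all `F k ζ'` are constant,
contradicting `hnd`.
-/

namespace Pool.Agent.H43.FX

open Set Metric Filter Topology

theorem TwoEnds_ent {D : Set ℂ} {F : ℂ → ℂ → ℂ} (hD : IsOpen D)
    (hF : ContDiffOn ℂ 1 (fun p : ℂ × ℂ => F p.1 p.2) (D ×ˢ univ)) {ζ : ℂ} (hζ : ζ ∈ D) :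
    Differentiable ℂ (F ζ) := by
  intro s
  have h1 : (D ×ˢ (univ : Set ℂ)) ∈ 𝓝 (ζ, s) :=
    (hD.prod isOpen_univ).mem_nhds ⟨hζ, mem_univ _⟩
  have h2 : DifferentiableAt ℂ (fun p : ℂ × ℂ => F p.1 p.2) (ζ, s) :=
    (hF.contDiffAt h1).differentiableAt (by norm_num)
  have h3 : DifferentiableAt ℂ (fun t : ℂ => (ζ, t)) s :=
    (differentiableAt_const ζ).prodMk differentiableAt_id
  exact h2.comp s h3

theorem TwoEnds_ident {h : ℂ → ℂ} {z : ℂ} {ρ : ℝ} (hh : DifferentiableOn ℂ h (ball z ρ)) {w : ℂ}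
    {ε : ℝ} (hε : 0 < ε) (hw : w ∈ ball z ρ) (h0 : ∀ x ∈ ball w ε, h x = 0) :
    ∀ x ∈ ball z ρ, h x = 0 := by
  have ha : AnalyticOnNhd ℂ h (ball z ρ) := hh.analyticOnNhd isOpen_ball
  exact ha.eqOn_zero_of_preconnected_of_eventuallyEq_zero (convex_ball z ρ).isPreconnected hw
    (Filter.eventually_of_mem (ball_mem_nhds w hε) h0)

theorem TwoEnds_mul {f g : ℂ → ℂ} {z : ℂ} {ρ : ℝ} (hf : DifferentiableOn ℂ f (ball z ρ))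
    (hg : DifferentiableOn ℂ g (ball z ρ)) (h : ∀ x ∈ ball z ρ, f x * g x = 0) :
    (∀ x ∈ ball z ρ, f x = 0) ∨ ∀ x ∈ ball z ρ, g x = 0 := by
  by_cases hf0 : ∀ x ∈ ball z ρ, f x = 0
  · exact Or.inl hf0
  · right
    push Not at hf0
    obtain ⟨w, hw, hfw⟩ := hf0
    have hc : ContinuousAt f w := hf.continuousOn.continuousAt (isOpen_ball.mem_nhds hw)
    have h1 : ∀ᶠ x in 𝓝 w, f x ≠ 0 ∧ x ∈ ball z ρ :=
      (hc.eventually_ne hfw).and (isOpen_ball.mem_nhds hw)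
    obtain ⟨ε, hε, hsub⟩ := Metric.eventually_nhds_iff_ball.1 h1
    exact TwoEnds_ident hg hε hw fun x hx =>
      (mul_eq_zero.1 (h x (hsub x hx).2)).resolve_left (hsub x hx).1

theorem TwoEnds_per_neg {G : Fin 4 → ℂ → ℂ → ℂ} {ζ q : ℂ} (h : IsPer G ζ q) :
    IsPer G ζ (-q) := by
  intro k s
  have h1 := h k (s + -q)
  rw [add_assoc, neg_add_cancel, add_zero] at h1
  exact h1.symm

theorem TwoEnds_pp_neg {D : Set ℂ} {G : Fin 4 → ℂ → ℂ → ℂ} {ζ q : ℂ} (h : PP D G ζ q) :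
    PP D G ζ (-q) := by
  obtain ⟨ρ, hρ, hsub, p, hp, hpq, hper⟩ := h
  exact ⟨ρ, hρ, hsub, fun x => -p x, hp.neg, congrArg Neg.neg hpq, fun ζ' hζ' =>
    TwoEnds_per_neg (hper ζ' hζ')⟩

theorem TwoEnds_pp_per {D : Set ℂ} {G : Fin 4 → ℂ → ℂ → ℂ} {ζ q : ℂ} (h : PP D G ζ q) :
    IsPer G ζ q := by
  obtain ⟨ρ, hρ, hsub, p, hp, hpq, hper⟩ := h
  rw [← hpq]
  exact hper ζ (mem_ball_self hρ)

/-- `p` is a generator of the persistent periods on a ball. -/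
structure TEGen (D : Set ℂ) (G : Fin 4 → ℂ → ℂ → ℂ) (ζ : ℂ) (ρ : ℝ) (p : ℂ → ℂ) : Prop where
  pos : 0 < ρ
  sub : ball ζ ρ ⊆ D
  diff : DifferentiableOn ℂ p (ball ζ ρ)
  gen : ∀ ζ' ∈ ball ζ ρ, p ζ' ≠ 0 ∧ PP D G ζ' (p ζ') ∧
    ∀ q, PP D G ζ' q → ∃ m : ℤ, q = m * p ζ'

theorem TEGen.neg {D : Set ℂ} {G : Fin 4 → ℂ → ℂ → ℂ} {ζ : ℂ} {ρ : ℝ} {p : ℂ → ℂ}
    (h : TEGen D G ζ ρ p) : TEGen D G ζ ρ (fun x => -p x) where
  pos := h.pos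
  sub := h.sub
  diff := h.diff.neg
  gen := fun ζ' hζ' => by
    obtain ⟨h1, h2, h3⟩ := h.gen ζ' hζ'
    refine ⟨neg_ne_zero.2 h1, TwoEnds_pp_neg h2, fun q hq => ?_⟩
    obtain ⟨m, hm⟩ := h3 q hq
    exact ⟨-m, by rw [hm]; push_cast; ring⟩

theorem TEGen.restrict {D : Set ℂ} {G : Fin 4 → ℂ → ℂ → ℂ} {ζ : ℂ} {ρ : ℝ} {p : ℂ → ℂ}
    (h : TEGen D G ζ ρ p) {w : ℂ} {ε : ℝ} (hε : 0 < ε) (hsub : ball w ε ⊆ ball ζ ρ) :
    TEGen D G w ε p where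
  pos := hε
  sub := hsub.trans h.sub
  diff := h.diff.mono hsub
  gen := fun ζ' hζ' => h.gen ζ' (hsub hζ')

theorem TwoEnds_gen {D : Set ℂ} {G : Fin 4 → ℂ → ℂ → ℂ} (h : TEData D G) {ζ : ℂ}
    (hζ : ∃ q, q ≠ 0 ∧ PP D G ζ q) : ∃ ρ p, TEGen D G ζ ρ p := by
  obtain ⟨ρ, hρ, hsub, p, hp, hg⟩ := local_gen h hζ
  exact ⟨ρ, p, hρ, hsub, hp, hg⟩

/-- Two generators agree up to sign. -/
theorem TwoEnds_sign {D : Set ℂ} {G : Fin 4 → ℂ → ℂ → ℂ} {ζ : ℂ} {ρ : ℝ} {p p' : ℂ → ℂ}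
    (h : TEGen D G ζ ρ p) (h' : TEGen D G ζ ρ p') :
    (∀ x ∈ ball ζ ρ, p' x = p x) ∨ ∀ x ∈ ball ζ ρ, p' x = -p x := by
  have key : ∀ x ∈ ball ζ ρ, (p' x - p x) * (p' x + p x) = 0 := by
    intro x hx
    obtain ⟨a1, a2, a3⟩ := h.gen x hx
    obtain ⟨b1, b2, b3⟩ := h'.gen x hx
    obtain ⟨m, hm⟩ := a3 _ b2
    obtain ⟨n, hn⟩ := b3 _ a2
    have h1 : ((m * n : ℤ) : ℂ) = 1 := by
      have h2 : p' x * 1 = p' x * ((m * n : ℤ) : ℂ) := by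
        push_cast
        calc p' x * 1 = m * p x := by rw [mul_one, hm]
          _ = m * (n * p' x) := by rw [← hn]
          _ = p' x * (m * n) := by ring
      exact (mul_left_cancel₀ b1 h2).symm
    have h3 : m * n = 1 := by exact_mod_cast h1
    rcases Int.eq_one_or_neg_one_of_mul_eq_one h3 with h4 | h4
    · rw [hm, h4]; push_cast; ring
    · rw [hm, h4]; push_cast; ring
  rcases TwoEnds_mul (h'.diff.sub h.diff) (h'.diff.add h.diff) key with h1 | h1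
  · left
    intro x hx
    exact sub_eq_zero.1 (h1 x hx)
  · right
    intro x hx
    exact eq_neg_of_add_eq_zero_left (h1 x hx)

theorem TwoEnds_ratio {D : Set ℂ} {G : Fin 4 → ℂ → ℂ → ℂ} (h : TEData D G) {ζ c q : ℂ}
    (hζ : ζ ∈ D) (hc : c ≠ 0) (he : ∀ k, ∃ n, ExpEnd c n (G k ζ)) (hq : q ≠ 0)
    (hper : IsPer G ζ q) :
    ∃ r : ℝ, r ≠ 0 ∧ c * q = 2 * Real.pi * Complex.I * r := by
  let Λ : AddSubgroup ℂ :=
    { carrier := {q | IsPer G ζ q}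
      zero_mem' := fun k s => by rw [add_zero]
      add_mem' := fun {a b} ha hb k s => by rw [← add_assoc, hb, ha]
      neg_mem' := fun {a} ha => TwoEnds_per_neg ha }
  obtain ⟨k, _, hk⟩ := h.nd ζ hζ
  obtain ⟨lam, -, hg⟩ := per_cyclic Λ (TwoEnds_ent h.isOpen (h.c1 k) hζ) ⟨0, hk⟩
    (fun q hq s => hq k s)
  have hq₀ : 2 * Real.pi * Complex.I / c ∈ Λ := by
    intro k s
    obtain ⟨n, hn⟩ := he k
    exact per_of_expEnd (TwoEnds_ent h.isOpen (h.c1 k) hζ) hc hn s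
  obtain ⟨m, hm⟩ := hg q hper
  obtain ⟨n, hn⟩ := hg _ hq₀
  have hn0 : (n : ℂ) ≠ 0 := by
    intro h0
    rw [h0, zero_mul, div_eq_zero_iff] at hn
    rcases hn with h1 | h1
    · exact Complex.two_pi_I_ne_zero h1
    · exact hc h1
  have hm0 : m ≠ 0 := by
    rintro rfl
    exact hq (by rw [hm]; simp)
  have hn0' : n ≠ 0 := by exact_mod_cast hn0
  refine ⟨(m : ℝ) / n, ?_, ?_⟩
  · positivity
  · have hl : lam = 2 * Real.pi * Complex.I / c / n := by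
      rw [hn]
      field_simp
    rw [hm, hl]
    push_cast
    field_simp

/-- The property of the points of `Ω` which propagates. -/
def TEQ (D : Set ℂ) (F : Fin 3 → ℂ → ℂ → ℂ) (X : ℂ → ℂ → ℂ) (G : Fin 4 → ℂ → ℂ → ℂ) (ζ : ℂ) :
    Prop :=
  ∃ ρ p, TEGen D G ζ ρ p ∧
    (∀ ζ' ∈ ball ζ ρ, ∀ (k : Fin 3) (j : ℤ), j < 0 → fc (F k ζ') (p ζ') j = 0) ∧
    ∃ j : ℤ, j < 0 ∧ ∃ ζ' ∈ ball ζ ρ, fc (X ζ') (p ζ') j ≠ 0

section

variable {D : Set ℂ} {F : Fin 3 → ℂ → ℂ → ℂ} {X : ℂ → ℂ → ℂ} {G : Fin 4 → ℂ → ℂ → ℂ}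

/-- The nonvanishing property passes to smaller balls. -/
theorem TwoEnds_nz (hD : IsOpen D)
    (hX : ContDiffOn ℂ 1 (fun p : ℂ × ℂ => X p.1 p.2) (D ×ˢ univ)) {ζ : ℂ} {ρ : ℝ} {p : ℂ → ℂ}
    (h : TEGen D G ζ ρ p) {j : ℤ} (hj : ∃ ζ' ∈ ball ζ ρ, fc (X ζ') (p ζ') j ≠ 0) {w : ℂ} {ε : ℝ}
    (hε : 0 < ε) (hw : w ∈ ball ζ ρ) : ∃ ζ' ∈ ball w ε, fc (X ζ') (p ζ') j ≠ 0 := by
  by_contra hcon
  push Not at hcon
  obtain ⟨ζ', hζ', hne⟩ := hj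
  exact hne (TwoEnds_ident (fc_analytic hX hD h.sub h.diff j) hε hw hcon ζ' hζ')

theorem TwoEnds_open (hD : IsOpen D)
    (hX : ContDiffOn ℂ 1 (fun p : ℂ × ℂ => X p.1 p.2) (D ×ˢ univ)) :
    IsOpen {ζ | TEQ D F X G ζ} := by
  rw [Metric.isOpen_iff]
  rintro ζ ⟨ρ, p, hg, hF, j, hj, hne⟩
  refine ⟨ρ, hg.pos, fun w hw => ?_⟩
  have hε : 0 < ρ - dist w ζ := sub_pos.2 (mem_ball.1 hw)
  have hsub : ball w (ρ - dist w ζ) ⊆ ball ζ ρ := ball_subset_ball' (by linarith)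
  exact ⟨ρ - dist w ζ, p, hg.restrict hε hsub, fun ζ' hζ' => hF ζ' (hsub hζ'), j, hj,
    TwoEnds_nz hD hX hg hne hε hw⟩

theorem TwoEnds_closed (h : TEData D G)
    (hF : ∀ k, ContDiffOn ℂ 1 (fun p : ℂ × ℂ => F k p.1 p.2) (D ×ˢ univ))
    (hX : ContDiffOn ℂ 1 (fun p : ℂ × ℂ => X p.1 p.2) (D ×ˢ univ)) {ζ : ℂ}
    (hζ : ∃ q, q ≠ 0 ∧ PP D G ζ q) (hcl : ζ ∈ closure {ζ | TEQ D F X G ζ}) :
    TEQ D F X G ζ := by
  obtain ⟨ρ, p, hg⟩ := TwoEnds_gen h hζ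
  obtain ⟨w, ⟨ρ', p', hg', hF', j, hj, hne⟩, hw⟩ := Metric.mem_closure_iff.1 hcl ρ hg.pos
  have hw' : w ∈ ball ζ ρ := by rw [mem_ball, dist_comm]; exact hw
  have hε₀ : 0 < ρ - dist w ζ := sub_pos.2 (mem_ball.1 hw')
  obtain ⟨ε, hε, hε1, hε2⟩ : ∃ ε, 0 < ε ∧ ε ≤ ρ' ∧ ε ≤ ρ - dist w ζ :=
    ⟨min ρ' (ρ - dist w ζ), lt_min hg'.pos hε₀, min_le_left _ _, min_le_right _ _⟩
  have hs1 : ball w ε ⊆ ball ζ ρ := ball_subset_ball' (by linarith)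
  have hs2 : ball w ε ⊆ ball w ρ' := ball_subset_ball hε1
  -- a generator which agrees with `p'` near `w`
  obtain ⟨p₁, hg₁, heq⟩ : ∃ p₁, TEGen D G ζ ρ p₁ ∧ ∀ x ∈ ball w ε, p' x = p₁ x := by
    rcases TwoEnds_sign (hg.restrict hε hs1) (hg'.restrict hε hs2) with h1 | h1
    · exact ⟨p, hg, h1⟩
    · exact ⟨fun x => -p x, hg.neg, h1⟩
  refine ⟨ρ, p₁, hg₁, fun ζ' hζ' k i hi => ?_, j, hj, ?_⟩
  · refine TwoEnds_ident (fc_analytic (hF k) h.isOpen hg₁.sub hg₁.diff i) hε hw' (fun x hx => ?_)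
      ζ' hζ'
    rw [← heq x hx]
    exact hF' x (hs2 hx) k i hi
  · obtain ⟨ζ', hζ', hne'⟩ := TwoEnds_nz h.isOpen hX hg' hne hε (mem_ball_self hg'.pos)
    refine ⟨ζ', hs1 hζ', ?_⟩
    rw [← heq ζ' hζ']
    exact hne'

/-- The Fourier coefficients of all `F k ζ` cannot all be trivial. -/
theorem TwoEnds_not_const (hD : IsOpen D)
    (hF : ∀ k, ContDiffOn ℂ 1 (fun p : ℂ × ℂ => F k p.1 p.2) (D ×ˢ univ))
    (hnd : ∀ ζ ∈ D, ∃ k, deriv (F k ζ) 0 ≠ 0) {ζ q : ℂ} (hζ : ζ ∈ D) (hq : q ≠ 0)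
    (hper : ∀ k s, F k ζ (s + q) = F k ζ s)
    (h : ∀ k (j : ℤ), j ≠ 0 → fc (F k ζ) q j = 0) : False := by
  obtain ⟨k, hk⟩ := hnd ζ hζ
  exact hk (const_of_fourier (TwoEnds_ent hD (hF k) hζ) hq (hper k) (h k) 0)

theorem TwoEnds_start (hD : IsOpen D)
    (hF : ∀ k, ContDiffOn ℂ 1 (fun p : ℂ × ℂ => F k p.1 p.2) (D ×ˢ univ))
    (hnd : ∀ ζ ∈ D, ∃ k, deriv (F k ζ) 0 ≠ 0) (hFG : ∀ k, G k.castSucc = F k)
    {ζ₀ : ℂ} {ρ : ℝ} {p : ℂ → ℂ} (hg : TEGen D G ζ₀ ρ p)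
    (hr : ∀ ζ ∈ ball ζ₀ ρ, ∃ (c : ℂ) (r : ℝ), c ≠ 0 ∧ (∀ k, ExpEnd c 0 (F k ζ)) ∧ r ≠ 0 ∧
      c * p ζ = 2 * Real.pi * Complex.I * r)
    (hr₀ : ∃ (c : ℂ) (r : ℝ), c ≠ 0 ∧ (∀ k, ExpEnd c 0 (F k ζ₀)) ∧ 0 < r ∧
      c * p ζ₀ = 2 * Real.pi * Complex.I * r) :
    ∀ ζ' ∈ ball ζ₀ ρ, ∀ (k : Fin 3) (j : ℤ), j < 0 → fc (F k ζ') (p ζ') j = 0 := by
  have hper : ∀ ζ ∈ ball ζ₀ ρ, ∀ k s, F k ζ (s + p ζ) = F k ζ s := by
    intro ζ hζ k s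
    have h1 := TwoEnds_pp_per (hg.gen ζ hζ).2.1 k.castSucc s
    rwa [hFG] at h1
  by_contra hcon
  push Not at hcon
  obtain ⟨w, hw, k, j, hj, hne⟩ := hcon
  have key : ∀ (k' : Fin 3) (j' : ℤ), 0 < j' → ∀ ζ ∈ ball ζ₀ ρ, fc (F k' ζ) (p ζ) j' = 0 := by
    intro k' j' hj'
    have h1 : ∀ ζ ∈ ball ζ₀ ρ, fc (F k ζ) (p ζ) j * fc (F k' ζ) (p ζ) j' = 0 := by
      intro ζ hζ
      obtain ⟨c, r, hc, he, hr0, hcr⟩ := hr ζ hζ
      rcases lt_or_gt_of_ne hr0 with hneg | hpos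
      · rw [fc_zero_of_expEnd (TwoEnds_ent hD (hF k') (hg.sub hζ)) hc (he k') (hper ζ hζ k') hcr
          hr0 (mul_neg_of_pos_of_neg (by exact_mod_cast hj') hneg), mul_zero]
      · rw [fc_zero_of_expEnd (TwoEnds_ent hD (hF k) (hg.sub hζ)) hc (he k) (hper ζ hζ k) hcr
          hr0 (mul_neg_of_neg_of_pos (by exact_mod_cast hj) hpos), zero_mul]
    rcases TwoEnds_mul (fc_analytic (hF k) hD hg.sub hg.diff j)
      (fc_analytic (hF k') hD hg.sub hg.diff j') h1 with h2 | h2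
    · exact absurd (h2 w hw) hne
    · exact h2
  have h0 := mem_ball_self (x := ζ₀) hg.pos
  obtain ⟨c, r, hc, he, hr0, hcr⟩ := hr₀
  refine TwoEnds_not_const hD hF hnd (hg.sub h0) (hg.gen ζ₀ h0).1 (hper ζ₀ h0) fun k' j' hj' => ?_
  rcases lt_or_gt_of_ne hj' with hneg | hpos
  · exact fc_zero_of_expEnd (TwoEnds_ent hD (hF k') (hg.sub h0)) hc (he k') (hper ζ₀ h0 k') hcr
      hr0.ne' (mul_neg_of_neg_of_pos (by exact_mod_cast hneg) hr0)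
  · exact key k' j' hpos ζ₀ h0

end

theorem TwoEnds_expS {c : ℂ} {h : ℕ} {u : ℂ → ℂ} (he : ExpEndS c h u) : ExpEnd c h u := by
  obtain ⟨g, hg, _, hu⟩ := he
  exact ⟨g, hg, hu⟩

theorem TwoEnds_ball_isOpen (e : ℂ) (r : ℝ) : IsOpen {ζ : ℂ | 0 < ‖ζ - e‖ ∧ ‖ζ - e‖ < r} :=
  (isOpen_lt continuous_const (continuous_id.sub continuous_const).norm).inter
    (isOpen_lt (continuous_id.sub continuous_const).norm continuous_const)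

theorem two_ends {D : Set ℂ} (hD : IsOpen D) (hDc : IsPreconnected D)
    {F : Fin 3 → ℂ → ℂ → ℂ} {X : ℂ → ℂ → ℂ}
    (hF : ∀ k, ContDiffOn ℂ 1 (fun p : ℂ × ℂ => F k p.1 p.2) (D ×ˢ univ))
    (hX : ContDiffOn ℂ 1 (fun p : ℂ × ℂ => X p.1 p.2) (D ×ˢ univ))
    (hnd : ∀ ζ ∈ D, ∃ k, deriv (F k ζ) 0 ≠ 0)
    {e₀ e₁ : ℂ} {r M : ℝ} (hr : 0 < r)
    (h0 : ∀ ζ, 0 < ‖ζ - e₀‖ → ‖ζ - e₀‖ < r → ζ ∈ D ∧ ∃ c : ℂ, c ≠ 0 ∧ ‖c⁻¹‖ ≤ M ∧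
      (∀ k, ExpEnd c 0 (F k ζ)) ∧ ExpEndS c 3 (X ζ))
    (h1 : ∀ ζ, 0 < ‖ζ - e₁‖ → ‖ζ - e₁‖ < r → ζ ∈ D ∧ ∃ c : ℂ, c ≠ 0 ∧ ‖c⁻¹‖ ≤ M ∧
      (∀ k, ExpEnd c 0 (F k ζ)) ∧ ExpEnd c 0 (X ζ)) : False := by
  obtain ⟨G, hFG, hXG⟩ : ∃ G : Fin 4 → ℂ → ℂ → ℂ, (∀ k : Fin 3, G k.castSucc = F k) ∧
      G (Fin.last 3) = X :=
    ⟨Fin.snoc (α := fun _ => ℂ → ℂ → ℂ) F X, fun k => Fin.snoc_castSucc (α := fun _ => ℂ → ℂ → ℂ) _ _ _,
      Fin.snoc_last (α := fun _ => ℂ → ℂ → ℂ) _ _⟩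
  have hG : ∀ k, ContDiffOn ℂ 1 (fun p : ℂ × ℂ => G k p.1 p.2) (D ×ˢ univ) := by
    intro k
    refine Fin.lastCases ?_ (fun k => ?_) k
    · rw [hXG]; exact hX
    · rw [hFG]; exact hF k
  have hdata : TEData D G :=
    { isOpen := hD
      conn := hDc
      c1 := hG
      nd := fun ζ hζ => by
        obtain ⟨k, hk⟩ := hnd ζ hζ
        exact ⟨k.castSucc, (Fin.castSucc_lt_last k).ne, by rw [hFG]; exact hk⟩ }
  -- exponential ends of all `G k ζ`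
  have he₀ : ∀ ζ c, (∀ k, ExpEnd c 0 (F k ζ)) → (∃ n, ExpEnd c n (X ζ)) →
      ∀ k, ∃ n, ExpEnd c n (G k ζ) := by
    intro ζ c h2 h3 k
    refine Fin.lastCases ?_ (fun k => ?_) k
    · rw [hXG]; exact h3
    · rw [hFG]; exact ⟨0, h2 k⟩
  have hper : ∀ ζ c, ζ ∈ D → c ≠ 0 → ‖c⁻¹‖ ≤ M → (∀ k, ∃ n, ExpEnd c n (G k ζ)) →
      ∃ q, q ≠ 0 ∧ ‖q‖ ≤ 2 * Real.pi * M ∧ IsPer G ζ q := by
    intro ζ c hζ hc hM h2
    refine ⟨2 * Real.pi * Complex.I / c, div_ne_zero Complex.two_pi_I_ne_zero hc, ?_, ?_⟩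
    · rw [div_eq_mul_inv, norm_mul]
      have h3 : ‖(2 * Real.pi * Complex.I : ℂ)‖ = 2 * Real.pi := by
        rw [norm_mul, norm_mul, Complex.norm_I, mul_one, Complex.norm_real, Real.norm_eq_abs,
          abs_of_pos Real.pi_pos]
        norm_num
      rw [h3]
      exact mul_le_mul_of_nonneg_left hM (by positivity)
    · intro k s
      obtain ⟨n, hn⟩ := h2 k
      exact per_of_expEnd (TwoEnds_ent hD (hG k) hζ) hc hn s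
  obtain ⟨Ω, hΩo, hΩc, hΩD, hΩp, ⟨ζ₀, hζ₀Ω, hζ₀, hζ₀'⟩, ζ₁, hζ₁Ω, hζ₁, hζ₁'⟩ :=
    gen_comp (e₀ := e₀) (e₁ := e₁) hdata hr (M := 2 * Real.pi * M)
      (fun ζ ha hb => by
        obtain ⟨hζ, c, hc, hM, hE, hE'⟩ := h0 ζ ha hb
        exact ⟨hζ, hper ζ c hζ hc hM (he₀ ζ c hE ⟨3, TwoEnds_expS hE'⟩)⟩)
      (fun ζ ha hb => by
        obtain ⟨hζ, c, hc, hM, hE, hE'⟩ := h1 ζ ha hb
        exact ⟨hζ, hper ζ c hζ hc hM (he₀ ζ c hE ⟨0, hE'⟩)⟩)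
  -- (a)
  have hQ₀ : TEQ D F X G ζ₀ := by
    obtain ⟨ρ, p, hg⟩ := TwoEnds_gen hdata (hΩp ζ₀ hζ₀Ω)
    obtain ⟨ε, hε, hεs⟩ := Metric.isOpen_iff.1 ((TwoEnds_ball_isOpen e₀ r).inter
      (isOpen_ball (x := ζ₀) (ε := ρ))) ζ₀ ⟨⟨hζ₀, hζ₀'⟩, mem_ball_self hg.pos⟩
    have hg1 : TEGen D G ζ₀ ε p := hg.restrict hε fun x hx => (hεs hx).2
    have hratio : ∀ (p' : ℂ → ℂ), TEGen D G ζ₀ ε p' → ∀ ζ ∈ ball ζ₀ ε, ∃ (c : ℂ) (r : ℝ), c ≠ 0 ∧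
        (∀ k, ExpEnd c 0 (F k ζ)) ∧ ExpEndS c 3 (X ζ) ∧ r ≠ 0 ∧
        c * p' ζ = 2 * Real.pi * Complex.I * r := by
      intro p' hg' ζ hζ
      obtain ⟨hζD, c, hc, -, hE, hE'⟩ := h0 ζ (hεs hζ).1.1 (hεs hζ).1.2
      obtain ⟨r', hr', hcr⟩ := TwoEnds_ratio hdata hζD hc (he₀ ζ c hE ⟨3, TwoEnds_expS hE'⟩)
        (hg'.gen ζ hζ).1 (TwoEnds_pp_per (hg'.gen ζ hζ).2.1)
      exact ⟨c, r', hc, hE, hE', hr', hcr⟩
    have hm := mem_ball_self (x := ζ₀) hε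
    obtain ⟨p₁, hg₁, c, r₁, hc, hE, hE', hr₁, hcr⟩ : ∃ p₁, TEGen D G ζ₀ ε p₁ ∧ ∃ (c : ℂ) (r₁ : ℝ),
        c ≠ 0 ∧ (∀ k, ExpEnd c 0 (F k ζ₀)) ∧ ExpEndS c 3 (X ζ₀) ∧ 0 < r₁ ∧
        c * p₁ ζ₀ = 2 * Real.pi * Complex.I * r₁ := by
      obtain ⟨c, r₁, hc, hE, hE', hr₁, hcr⟩ := hratio p hg1 ζ₀ hm
      rcases lt_or_gt_of_ne hr₁ with hneg | hpos
      · refine ⟨fun x => -p x, hg1.neg, c, -r₁, hc, hE, hE', neg_pos.2 hneg, ?_⟩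
        push_cast
        rw [mul_neg, mul_neg, hcr]
      · exact ⟨p, hg1, c, r₁, hc, hE, hE', hpos, hcr⟩
    have hstart := TwoEnds_start hD hF hnd hFG hg₁ (fun ζ hζ => by
      obtain ⟨c, r₂, a1, a2, a3, a4, a5⟩ := hratio p₁ hg₁ ζ hζ
      exact ⟨c, r₂, a1, a2, a4, a5⟩) ⟨c, r₁, hc, hE, hr₁, hcr⟩
    have hperX : ∀ s, X ζ₀ (s + p₁ ζ₀) = X ζ₀ s := by
      intro s
      have h2 := TwoEnds_pp_per (hg₁.gen ζ₀ hm).2.1 (Fin.last 3) s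
      rwa [hXG] at h2
    obtain ⟨j, hj, hne⟩ := fc_ne_of_expEndS (TwoEnds_ent hD hX (hg₁.sub hm)) hc hE' hperX hcr
      hr₁.ne'
    refine ⟨ε, p₁, hg₁, hstart, j, ?_, ζ₀, hm, hne⟩
    have h3 : (j : ℝ) < 0 := by
      by_contra h4
      push Not at h4
      exact absurd hj (not_lt.2 (mul_nonneg h4 hr₁.le))
    exact_mod_cast h3
  -- (b), (c)
  have hsub : Ω ⊆ {ζ | TEQ D F X G ζ} := by
    refine hΩc.subset_of_closure_inter_subset (TwoEnds_open hD hX) ⟨ζ₀, hζ₀Ω, hQ₀⟩ ?_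
    rintro ζ ⟨hcl, hζ⟩
    exact TwoEnds_closed hdata hF hX (hΩp ζ hζ) hcl
  -- (d)
  obtain ⟨ρ, p, hg, hFz, j, hj, hne⟩ : TEQ D F X G ζ₁ := hsub hζ₁Ω
  obtain ⟨ε, hε, hεs⟩ := Metric.isOpen_iff.1 ((TwoEnds_ball_isOpen e₁ r).inter
    (isOpen_ball (x := ζ₁) (ε := ρ))) ζ₁ ⟨⟨hζ₁, hζ₁'⟩, mem_ball_self hg.pos⟩
  obtain ⟨ζ, hζ, hne'⟩ := TwoEnds_nz hD hX hg hne hε (mem_ball_self hg.pos)
  obtain ⟨hζD, c, hc, -, hE, hE'⟩ := h1 ζ (hεs hζ).1.1 (hεs hζ).1.2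
  have hgz := hg.gen ζ (hεs hζ).2
  have hpz := TwoEnds_pp_per hgz.2.1
  obtain ⟨r', hr', hcr⟩ := TwoEnds_ratio hdata hζD hc (he₀ ζ c hE ⟨0, hE'⟩) hgz.1 hpz
  rcases lt_or_gt_of_ne hr' with hneg | hpos
  · have hperF : ∀ k s, F k ζ (s + p ζ) = F k ζ s := by
      intro k s
      have h2 := hpz k.castSucc s
      rwa [hFG] at h2
    refine TwoEnds_not_const hD hF hnd hζD hgz.1 hperF fun k i hi => ?_
    rcases lt_or_gt_of_ne hi with hi' | hi'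
    · exact hFz ζ (hεs hζ).2 k i hi'
    · exact fc_zero_of_expEnd (TwoEnds_ent hD (hF k) hζD) hc (hE k) (hperF k) hcr hr'
        (mul_neg_of_pos_of_neg (by exact_mod_cast hi') hneg)
  · refine hne' (fc_zero_of_expEnd (TwoEnds_ent hD hX hζD) hc hE' (fun s => ?_) hcr hr'
      (mul_neg_of_neg_of_pos (by exact_mod_cast hj) hpos))
    have h2 := hpz (Fin.last 3) s
    rwa [hXG] at h2

end Pool.Agent.H43.FX
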