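import Pool.Agent.H43.FX.Ring

/-!
# FX-VF : derivations given by analytic vector fields

For an open set `U` of a complex normed space, `AnU U f` says that `f : U → ℂ` is analytic and
`vfun U ξ f` is the derivative of `f` along the vector field `ξ`.
* `anu_const, add, mul` : `ex U` of these functions agree on the open set `U` with the
  corresponding combinations.
* `anu_vfun` : the derivative is analytic (`AnalyticOnNhd.fderiv`, `clm_apply`), and
  `ex U (vfun U ξ f)` agrees with it on `U`.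
* `vfun_const, vfun_add, vfun_mul` : rules for `fderiv`.
* `nilv_*` : the set of analytic `f` killed by a power of `vfun U ξ` is closed under
  constants, sums and products: Leibniz formula
  `δ^n(fg) = ∑ C(n,j) δ^j f δ^{n-j} g` (induction on `n`), so if `δ^m f = 0` and `δ^m' g = 0` then
  `δ^{m+m'}(fg) = 0`.  (Or: induction on `m + m'` using `δ(fg) = f δg + g δf` and closure under
  sums: `δ^k(x+y) = δ^k x + δ^k y`.)
* `der_of_vf` : `Algebra.adjoin_induction`: all elements `f` of the subalgebra `adjoin S` are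
  analytic and `vfun U ξ f ∈ adjoin S`; so `σ f = ⟨vfun U ξ f, _⟩` is a derivation
  (`Derivation.mk'`), and it is locally nilpotent if all elements of `S` are in `NilV`.
-/

namespace Pool.Agent.H43.FX

open Set Metric Filter Topology

section

variable {E : Type*} [NormedAddCommGroup E] [NormedSpace ℂ E]

/-- Analytic functions on `U`. -/
def AnU (U : Set E) (f : U → ℂ) : Prop := ∀ q ∈ U, AnalyticAt ℂ (ex U f) q

/-- The derivative along the vector field `ξ`. -/
noncomputable def vfun (U : Set E) (ξ : E → E) (f : U → ℂ) : U → ℂ :=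
  fun q => fderiv ℂ (ex U f) q (ξ q)

/-- Analytic functions killed by a power of the derivative along `ξ`. -/
def NilV (U : Set E) (ξ : E → E) (f : U → ℂ) : Prop :=
  AnU U f ∧ ∃ n : ℕ, (vfun U ξ)^[n] f = 0

variable {U : Set E} {ξ : E → E} {f g : U → ℂ}

omit [NormedAddCommGroup E] [NormedSpace ℂ E] in
private lemma vf_ex_mem {q : E} (h : q ∈ U) : ex U f q = f ⟨q, h⟩ := by
  simp only [ex, dif_pos h]

omit [NormedAddCommGroup E] [NormedSpace ℂ E] in
private lemma vf_ex_coe (q : U) : ex U f q = f q := vf_ex_mem q.2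

private lemma vf_eventually (hU : IsOpen U) (F : E → ℂ) {q : E} (hq : q ∈ U)
    (hF : ∀ q : U, f q = F q) : ex U f =ᶠ[𝓝 q] F := by
  filter_upwards [hU.mem_nhds hq] with q' hq'
  rw [vf_ex_mem hq', hF]

omit [NormedAddCommGroup E] [NormedSpace ℂ E] in
private lemma vf_ex_add : ex U (fun q => f q + g q) = fun q => ex U f q + ex U g q := by
  funext q
  by_cases h : q ∈ U
  · rw [vf_ex_mem h, vf_ex_mem h, vf_ex_mem h]
  · simp only [ex, dif_neg h, add_zero]

omit [NormedAddCommGroup E] [NormedSpace ℂ E] in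
private lemma vf_ex_mul : ex U (fun q => f q * g q) = fun q => ex U f q * ex U g q := by
  funext q
  by_cases h : q ∈ U
  · rw [vf_ex_mem h, vf_ex_mem h, vf_ex_mem h]
  · simp only [ex, dif_neg h, mul_zero]

theorem anu_of_restrict (hU : IsOpen U) {F : E → ℂ} (hF : AnalyticOnNhd ℂ F U) :
    AnU U (fun q => F q) := fun q hq =>
  (hF q hq).congr (vf_eventually hU F hq fun _ => rfl).symm

theorem vfun_of_restrict (hU : IsOpen U) {F : E → ℂ} (q : U) :
    vfun U ξ (fun q => F q) q = fderiv ℂ F q (ξ q) := by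
  unfold vfun
  rw [(vf_eventually hU F q.2 fun _ => rfl).fderiv_eq]

theorem anu_const (hU : IsOpen U) (c : ℂ) : AnU U (fun _ => c) :=
  anu_of_restrict hU (F := fun _ => c) analyticOnNhd_const

theorem anu_add (hU : IsOpen U) (hf : AnU U f) (hg : AnU U g) : AnU U (fun q => f q + g q) := by
  intro q hq
  rw [vf_ex_add]
  exact (hf q hq).add (hg q hq)

theorem anu_mul (hU : IsOpen U) (hf : AnU U f) (hg : AnU U g) : AnU U (fun q => f q * g q) := by
  intro q hq
  rw [vf_ex_mul]
  exact (hf q hq).mul (hg q hq)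

theorem anu_vfun (hU : IsOpen U) (hξ : AnalyticOnNhd ℂ ξ U) (hf : AnU U f) :
    AnU U (vfun U ξ f) := by
  intro q hq
  have h1 : AnalyticAt ℂ (fun q => fderiv ℂ (ex U f) q (ξ q)) q :=
    AnalyticAt.comp₂ (h := fun p : (E →L[ℂ] ℂ) × E => p.1 p.2)
      (f := fderiv ℂ (ex U f)) (g := ξ)
      ((ContinuousLinearMap.id ℂ (E →L[ℂ] ℂ)).analyticAt_bilinear _) (hf q hq).fderiv (hξ q hq)
  exact h1.congr (vf_eventually hU _ hq fun _ => rfl).symm

theorem vfun_const (hU : IsOpen U) (c : ℂ) : vfun U ξ (fun _ => c) = 0 := by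
  funext q
  rw [vfun_of_restrict hU (F := fun _ => c) q]
  simp

theorem vfun_add (hU : IsOpen U) (hf : AnU U f) (hg : AnU U g) :
    vfun U ξ (fun q => f q + g q) = fun q => vfun U ξ f q + vfun U ξ g q := by
  funext q
  unfold vfun
  rw [vf_ex_add, fderiv_fun_add (hf q q.2).differentiableAt (hg q q.2).differentiableAt]
  rfl

theorem vfun_mul (hU : IsOpen U) (hf : AnU U f) (hg : AnU U g) :
    vfun U ξ (fun q => f q * g q) = fun q => vfun U ξ f q * g q + f q * vfun U ξ g q := by
  funext q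
  unfold vfun
  rw [vf_ex_mul, fderiv_fun_mul (hf q q.2).differentiableAt (hg q q.2).differentiableAt]
  change ex U f q * fderiv ℂ (ex U g) q (ξ q) + ex U g q * fderiv ℂ (ex U f) q (ξ q) = _
  rw [vf_ex_coe, vf_ex_coe]
  ring

private lemma vf_zero (hU : IsOpen U) : vfun U ξ (0 : U → ℂ) = 0 := vfun_const hU 0

private lemma vf_iter_zero (hU : IsOpen U) (n : ℕ) : (vfun U ξ)^[n] (0 : U → ℂ) = 0 := by
  induction n with
  | zero => rfl
  | succ n ih => rw [Function.iterate_succ_apply, vf_zero hU, ih]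

private lemma vf_iter_le (hU : IsOpen U) {m n : ℕ} (h : (vfun U ξ)^[m] f = 0) (hmn : m ≤ n) :
    (vfun U ξ)^[n] f = 0 := by
  obtain ⟨k, rfl⟩ := Nat.exists_eq_add_of_le' hmn
  rw [Function.iterate_add_apply, h, vf_iter_zero hU]

private lemma vf_iter_add (hU : IsOpen U) (hξ : AnalyticOnNhd ℂ ξ U) (n : ℕ) :
    ∀ f g : U → ℂ, AnU U f → AnU U g →
      (vfun U ξ)^[n] (fun q => f q + g q) =
        fun q => (vfun U ξ)^[n] f q + (vfun U ξ)^[n] g q := by
  induction n with
  | zero => intro f g _ _; rfl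
  | succ n ih =>
    intro f g hf hg
    rw [Function.iterate_succ_apply, vfun_add hU hf hg,
      ih _ _ (anu_vfun hU hξ hf) (anu_vfun hU hξ hg)]
    rfl

theorem nilv_const (hU : IsOpen U) (c : ℂ) : NilV U ξ (fun _ => c) :=
  ⟨anu_const hU c, 1, vfun_const hU c⟩

theorem nilv_add (hU : IsOpen U) (hξ : AnalyticOnNhd ℂ ξ U) (hf : NilV U ξ f)
    (hg : NilV U ξ g) : NilV U ξ (fun q => f q + g q) := by
  obtain ⟨hf1, m, hm⟩ := hf
  obtain ⟨hg1, n, hn⟩ := hg
  refine ⟨anu_add hU hf1 hg1, max m n, ?_⟩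
  rw [vf_iter_add hU hξ _ f g hf1 hg1, vf_iter_le hU hm (le_max_left _ _),
    vf_iter_le hU hn (le_max_right _ _)]
  funext q
  simp

private lemma vf_mul_aux (hU : IsOpen U) (hξ : AnalyticOnNhd ℂ ξ U) (N : ℕ) :
    ∀ (m n : ℕ) (f g : U → ℂ), m + n = N → AnU U f → AnU U g → (vfun U ξ)^[m] f = 0 →
      (vfun U ξ)^[n] g = 0 → ∃ k, (vfun U ξ)^[k] (fun q => f q * g q) = 0 := by
  induction N with
  | zero =>
    intro m n f g hN _ _ hf _
    have hm : m = 0 := by omega
    subst hm
    have hf0 : f = 0 := hf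
    refine ⟨0, ?_⟩
    funext q
    simp [hf0]
  | succ N ih =>
    intro m n f g hN hf1 hg1 hf hg
    rcases Nat.eq_zero_or_pos m with hm | hm
    · subst hm
      have hf0 : f = 0 := hf
      refine ⟨0, ?_⟩
      funext q
      simp [hf0]
    rcases Nat.eq_zero_or_pos n with hn | hn
    · subst hn
      have hg0 : g = 0 := hg
      refine ⟨0, ?_⟩
      funext q
      simp [hg0]
    obtain ⟨m, rfl⟩ := Nat.exists_eq_succ_of_ne_zero hm.ne'
    obtain ⟨n, rfl⟩ := Nat.exists_eq_succ_of_ne_zero hn.ne'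
    have hfd := anu_vfun hU hξ hf1
    have hgd := anu_vfun hU hξ hg1
    have hf' := hf
    have hg' := hg
    rw [Nat.succ_eq_add_one, Function.iterate_succ_apply] at hf' hg'
    obtain ⟨k1, hk1⟩ := ih m (n + 1) (vfun U ξ f) g (by omega) hfd hg1 hf' hg
    obtain ⟨k2, hk2⟩ := ih (m + 1) n f (vfun U ξ g) (by omega) hf1 hgd hf hg'
    refine ⟨max k1 k2 + 1, ?_⟩
    rw [Function.iterate_succ_apply, vfun_mul hU hf1 hg1,
      vf_iter_add hU hξ _ (fun q => vfun U ξ f q * g q) (fun q => f q * vfun U ξ g q)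
        (anu_mul hU hfd hg1) (anu_mul hU hf1 hgd),
      vf_iter_le hU hk1 (le_max_left _ _), vf_iter_le hU hk2 (le_max_right _ _)]
    funext q
    simp

theorem nilv_mul (hU : IsOpen U) (hξ : AnalyticOnNhd ℂ ξ U) (hf : NilV U ξ f)
    (hg : NilV U ξ g) : NilV U ξ (fun q => f q * g q) := by
  obtain ⟨hf1, m, hm⟩ := hf
  obtain ⟨hg1, n, hn⟩ := hg
  exact ⟨anu_mul hU hf1 hg1, vf_mul_aux hU hξ (m + n) m n f g rfl hf1 hg1 hm hn⟩

theorem nilv_of_vfun (hf : AnU U f) (h : NilV U ξ (vfun U ξ f)) : NilV U ξ f := by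
  obtain ⟨-, n, hn⟩ := h
  exact ⟨hf, n + 1, by rw [Function.iterate_succ_apply]; exact hn⟩

theorem der_of_vf (hU : IsOpen U) (hξ : AnalyticOnNhd ℂ ξ U) {S : Set (U → ℂ)}
    (hS : ∀ g ∈ S, AnU U g) (h : ∀ g ∈ S, vfun U ξ g ∈ Algebra.adjoin ℂ S) :
    ∃ σ : Derivation ℂ (Algebra.adjoin ℂ S) (Algebra.adjoin ℂ S),
      (∀ f : Algebra.adjoin ℂ S,
        ((σ f : Algebra.adjoin ℂ S) : U → ℂ) = vfun U ξ (f : U → ℂ)) ∧
      ((∀ g ∈ S, NilV U ξ g) → Pool.Agent.H29.Flex.IsLND σ) := by
  have key : ∀ f ∈ Algebra.adjoin ℂ S, AnU U f ∧ vfun U ξ f ∈ Algebra.adjoin ℂ S := by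
    intro f hf
    induction hf using Algebra.adjoin_induction with
    | mem g hg => exact ⟨hS g hg, h g hg⟩
    | algebraMap c =>
      refine ⟨anu_const hU c, ?_⟩
      have h1 : vfun U ξ (algebraMap ℂ (U → ℂ) c) = 0 := vfun_const hU c
      rw [h1]
      exact Subalgebra.zero_mem _
    | add f g _ _ hf hg =>
      refine ⟨anu_add hU hf.1 hg.1, ?_⟩
      have h1 : vfun U ξ (f + g) = fun q => vfun U ξ f q + vfun U ξ g q := vfun_add hU hf.1 hg.1
      rw [h1]
      exact Subalgebra.add_mem _ hf.2 hg.2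
    | mul f g hf0 hg0 hf hg =>
      refine ⟨anu_mul hU hf.1 hg.1, ?_⟩
      have h1 : vfun U ξ (f * g) = fun q => vfun U ξ f q * g q + f q * vfun U ξ g q :=
        vfun_mul hU hf.1 hg.1
      rw [h1]
      exact Subalgebra.add_mem _ (Subalgebra.mul_mem _ hf.2 hg0) (Subalgebra.mul_mem _ hf0 hg.2)
  let L : Algebra.adjoin ℂ S →ₗ[ℂ] Algebra.adjoin ℂ S :=
    { toFun := fun f => ⟨vfun U ξ f, (key f f.2).2⟩
      map_add' := fun f g => Subtype.ext (vfun_add hU (key f f.2).1 (key g g.2).1)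
      map_smul' := fun c f => by
        apply Subtype.ext
        have h1 := vfun_mul (ξ := ξ) hU (anu_const hU c) (key f f.2).1
        rw [vfun_const hU c] at h1
        refine Eq.trans (b := vfun U ξ (fun q => c * (f : U → ℂ) q)) rfl (h1.trans ?_)
        funext q
        simp }
  refine ⟨Derivation.mk' L fun f g => ?_, fun f => rfl, fun hN a => ?_⟩
  · apply Subtype.ext
    refine (vfun_mul hU (key f f.2).1 (key g g.2).1).trans ?_
    funext q
    change _ = (f : U → ℂ) q * vfun U ξ g q + (g : U → ℂ) q * vfun U ξ f q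
    ring
  · have hnil : ∀ f ∈ Algebra.adjoin ℂ S, NilV U ξ f := by
      intro f hf
      induction hf using Algebra.adjoin_induction with
      | mem g hg => exact hN g hg
      | algebraMap c => exact nilv_const hU c
      | add f g _ _ hf hg => exact nilv_add hU hξ hf hg
      | mul f g _ _ hf hg => exact nilv_mul hU hξ hf hg
    obtain ⟨-, n, hn⟩ := hnil a a.2
    refine ⟨n, Subtype.ext ?_⟩
    have h1 : ∀ (n : ℕ) (b : Algebra.adjoin ℂ S),
        (((fun x => L x)^[n] b : Algebra.adjoin ℂ S) : U → ℂ) = (vfun U ξ)^[n] (b : U → ℂ) := by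
      intro n
      induction n with
      | zero => intro b; rfl
      | succ n ih =>
        intro b
        rw [Function.iterate_succ_apply, ih, Function.iterate_succ_apply]
        rfl
    exact (h1 n a).trans hn

end

end Pool.Agent.H43.FX
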